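import Mathlib
import Pool.Agent.Work.MP_787500_nt.HC.Basic
import Pool.Agent.Work.MP_787500_nt.HC.LyJ
import Pool.Agent.Work.MP_787500_nt.H9_Alg

/-!
# Definitions for the modules of the folder GO. Do not change.

Elliptic curves over `ℚ` with good reduction outside 2 over the layers of the folder HC.
-/

set_option autoImplicit false

namespace Pool.Agent.Work.MP_787500_nt.GO

open WithZero IsDedekindDomain NumberField WeierstrassCurve WeierstrassCurve.Affine
open Pool.Agent.Work.MP_787500_nt.HC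

universe u

section curve

/-- the curve `y ^ 2 = x ^ 3 + a x ^ 2 + b x` -/
def cv {R : Type*} [CommRing R] (a b : R) : WeierstrassCurve.Affine R := ⟨0, a, 0, b, 0⟩

/-- infinite order -/
def Nt {A : Type*} [AddCommGroup A] (P : A) : Prop := ∀ m : ℕ, m ≠ 0 → m • P ≠ 0

variable {K F : Type*} [Field K] [Field F] [Algebra K F]

open scoped Classical in
/-- the automorphisms of `F` over `K` act on the points with coordinates in `F` -/
noncomputable def mp (E : WeierstrassCurve.Affine K) (f : F ≃ₐ[K] F) : (E⁄F).Point →+ (E⁄F).Point :=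
  Point.map (W' := E) (f : F →ₐ[K] F)

/-- the product of the conjugates -/
noncomputable def nm (C : Finset (F ≃ₐ[K] F)) (x : F) : F := ∏ g ∈ C, g x

open scoped Classical in
/-- the sum of the conjugates of a point -/
noncomputable def tp (E : WeierstrassCurve.Affine K) (C : Finset (F ≃ₐ[K] F)) (P : (E⁄F).Point) :
    (E⁄F).Point := ∑ g ∈ C, mp E g P

end curve

section chain

/-- Two sequences with the relations of the arithmetic-geometric mean, up to the index `n`. -/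
structure Chn {F : Type*} [Field F] (z u : ℕ → F) (n : ℕ) : Prop where
  zne : ∀ k ≤ n, z k ≠ 0
  une : ∀ k ≤ n, u k ≠ 0
  c1 : ∀ k < n, z (k + 1) ^ 2 * (1 + z k ^ 2) = 2 * z k
  c2 : ∀ k < n, u (k + 1) * (1 + z k ^ 2) = u k ^ 2
  c3 : ∀ k < n, u (k + 1) ^ 2 * (1 + z k ^ 2) = 1 - z k ^ 2

variable {F : Type*} [Field F]

/-- the first sequence attached to `Sq4 w w' i a b u n` -/
noncomputable def Zs (w w' i : F) (a b : ℕ → F) : ℕ → F
  | 0 => -i * w' ^ 2 / (1 + w ^ 2)
  | k + 1 => b (k + 1) / a k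

/-- the second sequence attached to `Sq4 w w' i a b u n`, `wp = W (p * c)` if `w = W c` -/
def Us (i wp : F) (u : ℕ → F) : ℕ → F
  | 0 => i * wp
  | k + 1 => u k

/-- a square root of `2 * u (k + 1) * z (k + 1)` -/
noncomputable def om (z u : ℕ → F) (k : ℕ) : F := z (k + 2) * (1 + z k) * u (k + 1) / u k

/-- first coordinate of the points on `cv 0 (-2)` and `cv (± 4) 2` -/
noncomputable def xA (z u : ℕ → F) (k : ℕ) : F :=
  (1 + u (k + 1) ^ 2 + z (k + 1) ^ 2) / (u (k + 1) * z (k + 1))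

/-- second coordinate of the point on `cv 0 (-2)` -/
noncomputable def yA (z u : ℕ → F) (k : ℕ) : F :=
  (1 + u (k + 1) ^ 2 + z (k + 1) ^ 2) * om z u k / (u (k + 1) * z (k + 1)) ^ 2

/-- second coordinate of the point on `cv (4 * t) 2`, `t = ± 1` -/
noncomputable def yB (z u : ℕ → F) (t : F) (k : ℕ) : F :=
  (1 + u (k + 1) ^ 2 + z (k + 1) ^ 2) * om z u k * (u (k + 1) + t * z (k + 1)) /
    (u (k + 1) * z (k + 1)) ^ 2

/-- first coordinate of the point on `cv 0 (-8)` -/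
noncomputable def xC (z u : ℕ → F) (k : ℕ) : F := 2 / (u (k + 1) * z (k + 1))

/-- second coordinate of the point on `cv 0 (-8)` -/
noncomputable def yC (z u : ℕ → F) (k : ℕ) : F :=
  2 * (u (k + 1) ^ 2 - z (k + 1) ^ 2) * om z u k / (u (k + 1) * z (k + 1)) ^ 2

/-- first coordinate of the point on `cv (-4 * t) 8`, `t = ± 1` -/
noncomputable def xD (z u : ℕ → F) (k : ℕ) : F := 2 * u (k + 1) ^ 2 / z (k + 1)

/-- second coordinate of the point on `cv (-4 * t) 8`, `t = ± 1` -/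
noncomputable def yD (z u : ℕ → F) (t : F) (k : ℕ) : F :=
  4 * u (k + 1) * (1 - t * z (k + 1) * (1 - z k) / (1 + z k)) / (z (k + 1) * z (k + 2))

/-- first coordinate of the point on `cv 2 2` -/
noncomputable def xE (z : ℕ → F) (k : ℕ) : F := z (k + 1) * (1 - z k) / (1 - z (k + 1))

/-- second coordinate of the point on `cv 2 2` -/
noncomputable def yE (z u : ℕ → F) (k : ℕ) : F :=
  (1 + z k) * u (k + 1) * z (k + 2) / (1 - z (k + 1))

/-- The valuations of a chain: `z` is of valuation `V 2`, and `u ^ 2` is close to 1. -/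
structure ValI {F : Type*} [Field F] (V : Valuation F ℤᵐ⁰) (z u : ℕ → F) (n : ℕ) : Prop where
  vz : ∀ k ≤ n, V (z k) = V 2
  vu : ∀ k ≤ n, 1 ≤ k → V (u k ^ 2 - 1) ≤ V 8

end chain

section layer

variable (K : Type*) {M A : Type*} [Field K] [Field M] [Algebra K M] [CommGroup A]

/-- The setting for one layer `M`: the automorphisms `σ`, `ε` generate the group of the `h`-th powers,
`C` is the group of the automorphisms of order dividing `h`. -/
structure Lay (p : A) (h : ℕ) (α : K) (W W' : A → M) (i : M) (a b u : ℕ → M) (n : ℕ)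
    (C : Finset (M ≃ₐ[K] M)) (σ ε : M ≃ₐ[K] M) : Prop where
  gal : IsGalois K M
  odd : Odd h
  comm : ∀ τ ρ : M ≃ₐ[K] M, τ * ρ = ρ * τ
  exp : ∃ e : ℕ, ∀ τ : M ≃ₐ[K] M, (τ ^ h) ^ 2 ^ e = 1
  memC : ∀ g : M ≃ₐ[K] M, g ∈ C ↔ g ^ h = 1
  data : Wdata K M p h α W W'
  act : Act K M W W'
  fixW : ∀ (τ : M ≃ₐ[K] M) (c : A), (τ ^ h) (W c) = W c ∧ (τ ^ h) (W' c) = W' c
  pos : 1 ≤ n
  seq : Sq4 (W 1) (W' 1) i a b u n
  sig : ∃ ρ : M ≃ₐ[K] M, σ = ρ ^ h
  eps : ∃ ρ : M ≃ₐ[K] M, ε = ρ ^ h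
  sigi : σ i = i
  sigb : ∀ m < n, (σ ^ 2 ^ m) (b (m + 1)) = -b (m + 1) ∧ ∀ j ≤ m, (σ ^ 2 ^ m) (b j) = b j
  epsi : ε i = -i
  eps2 : ε * ε = 1
  epsr : ε (b 1 / (W 1 * W' 1)) = (b 1 / (W 1 * W' 1))⁻¹
  gen : ∀ τ : M ≃ₐ[K] M, ∃ k : ℕ, τ ^ h = σ ^ k ∨ τ ^ h = ε * σ ^ k

variable {K}

/-- the element `r` of `M` with `r ^ 2 = -i` -/
noncomputable def rr (W W' : A → M) (b : ℕ → M) : M := b 1 / (W 1 * W' 1)

/-- a square root of 2 -/
noncomputable def r2 (W W' : A → M) (b : ℕ → M) : M := rr W W' b + (rr W W' b)⁻¹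

/-- the sequence `Z` of a layer -/
noncomputable def ZL (W W' : A → M) (i : M) (a b : ℕ → M) : ℕ → M := Zs (W 1) (W' 1) i a b

/-- the sequence `U` of a layer -/
def UL (p : A) (W : A → M) (i : M) (u : ℕ → M) : ℕ → M := Us i (W p) u

/-- the product of the conjugates of `1 - i Z_m` -/
noncomputable def cc (C : Finset (M ≃ₐ[K] M)) (i : M) (Z : ℕ → M) (m : ℕ) : M :=
  nm C (1 - i * Z m)

/-- `ee = cc * ε cc` -/
noncomputable def ee (C : Finset (M ≃ₐ[K] M)) (ε : M ≃ₐ[K] M) (i : M) (Z : ℕ → M) (m : ℕ) : M :=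
  cc C i Z m * ε (cc C i Z m)

open scoped Classical in
/-- Two points of infinite order in the new part of the layer, in both eigenspaces of `ε`. -/
def StepPts (E : WeierstrassCurve.Affine K) (C : Finset (M ≃ₐ[K] M)) (σ ε : M ≃ₐ[K] M) (n : ℕ) :
    Prop :=
  ∃ R R' : (E⁄M).Point, Nt R ∧ Nt R' ∧ (∀ g ∈ C, mp E g R = R ∧ mp E g R' = R') ∧
    mp E (σ ^ 2 ^ n) R = -R ∧ mp E (σ ^ 2 ^ n) R' = -R' ∧ mp E ε R = R ∧ mp E ε R' = -R'

open scoped Classical in
/-- Points of infinite order in the four eigenspaces of `σ` and `ε`. -/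
def BasePts (E : WeierstrassCurve.Affine K) (C : Finset (M ≃ₐ[K] M)) (σ ε : M ≃ₐ[K] M) : Prop :=
  ∀ s t : ℤ, (s = 1 ∨ s = -1) → (t = 1 ∨ t = -1) → ∃ R : (E⁄M).Point, Nt R ∧
    (∀ g ∈ C, mp E g R = R) ∧ mp E σ R = s • R ∧ mp E ε R = t • R

open scoped Classical in
/-- An endomorphism `J` of the points which preserves points of infinite order and commutes with the
automorphisms up to the sign with which they act on `κ`. -/
def HasJ (E : WeierstrassCurve.Affine K) (κ : M) : Prop :=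
  ∃ J : (E⁄M).Point →+ (E⁄M).Point, (∀ P, Nt P → Nt (J P)) ∧
    (∀ f : M ≃ₐ[K] M, f κ = κ → ∀ P, mp E f (J P) = J (mp E f P)) ∧
    (∀ f : M ≃ₐ[K] M, f κ = -κ → ∀ P, mp E f (J P) = -(J (mp E f P)))

open scoped Classical in
/-- `d` represents the class of `x - e1` at the point modulo squares -/
noncomputable def dl {F : Type*} [Field F] (e1 e2 e3 : F) {W : WeierstrassCurve.Affine F} :
    W.Point → F
  | .zero => 1
  | .some x _ _ => if x = e1 then (e1 - e2) * (e1 - e3) else x - e1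

end layer

end Pool.Agent.Work.MP_787500_nt.GO
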