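import Mathlib
import Pool.Agent.Work.MP_787500_nt.GO.Defs

/-!
# Basic facts on the definitions of the folder GO
-/

set_option autoImplicit false

namespace Pool.Agent.Work.MP_787500_nt.GO

open WithZero IsDedekindDomain NumberField WeierstrassCurve WeierstrassCurve.Affine
open Pool.Agent.Work.MP_787500_nt.HC

universe u

section action

variable {K F : Type*} [Field K] [Field F] [Algebra K F]

open scoped Classical in
theorem mp_mul (E : WeierstrassCurve.Affine K) (f g : F ≃ₐ[K] F) (P : (E⁄F).Point) :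
    mp E (f * g) P = mp E f (mp E g P) := by
  rw [mp, mp, mp, Point.map_map]
  rfl

open scoped Classical in
theorem mp_one (E : WeierstrassCurve.Affine K) (P : (E⁄F).Point) :
    mp E (1 : F ≃ₐ[K] F) P = P := by
  cases P <;> rfl

open scoped Classical in
theorem mp_pow (E : WeierstrassCurve.Affine K) (f : F ≃ₐ[K] F) (k : ℕ) (P : (E⁄F).Point) :
    mp E (f ^ k) P = (mp E f)^[k] P := by
  induction k generalizing P with
  | zero => rw [pow_zero, mp_one]; rfl
  | succ k ih => rw [pow_succ, mp_mul, ih]; rfl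

open scoped Classical in
theorem mp_comm (hcomm : ∀ τ ρ : F ≃ₐ[K] F, τ * ρ = ρ * τ) (E : WeierstrassCurve.Affine K)
    (f g : F ≃ₐ[K] F) (P : (E⁄F).Point) : mp E f (mp E g P) = mp E g (mp E f P) := by
  rw [← mp_mul, hcomm, mp_mul]

open scoped Classical in
theorem mp_injective (E : WeierstrassCurve.Affine K) (f : F ≃ₐ[K] F) :
    Function.Injective (mp E f) := Point.map_injective (f : F →ₐ[K] F)

open scoped Classical in
theorem mp_some (E : WeierstrassCurve.Affine K) (f : F ≃ₐ[K] F) {x y : F}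
    (hn : (E⁄F).Nonsingular x y) :
    ∃ hn' : (E⁄F).Nonsingular (f x) (f y), mp E f (Point.some x y hn) = Point.some _ _ hn' :=
  ⟨_, rfl⟩

open scoped Classical in
theorem mp_tp (hcomm : ∀ τ ρ : F ≃ₐ[K] F, τ * ρ = ρ * τ) (E : WeierstrassCurve.Affine K)
    (C : Finset (F ≃ₐ[K] F)) (f : F ≃ₐ[K] F) (P : (E⁄F).Point) :
    mp E f (tp E C P) = tp E C (mp E f P) := by
  rw [tp, tp, map_sum]
  exact Finset.sum_congr rfl fun g _ => mp_comm hcomm E f g P

open scoped Classical in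
theorem tp_neg (E : WeierstrassCurve.Affine K) (C : Finset (F ≃ₐ[K] F)) (P : (E⁄F).Point) :
    tp E C (-P) = -tp E C P := by
  rw [tp, tp, ← Finset.sum_neg_distrib]
  exact Finset.sum_congr rfl fun g _ => map_neg _ _

open scoped Classical in
theorem tp_fix (E : WeierstrassCurve.Affine K) (C : Finset (F ≃ₐ[K] F)) {h : ℕ}
    (hcomm : ∀ τ ρ : F ≃ₐ[K] F, τ * ρ = ρ * τ) (hC : ∀ g : F ≃ₐ[K] F, g ∈ C ↔ g ^ h = 1)
    {g : F ≃ₐ[K] F} (hg : g ∈ C) (P : (E⁄F).Point) : mp E g (tp E C P) = tp E C P := by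
  rw [tp, map_sum]
  have hgc : ∀ f : F ≃ₐ[K] F, Commute g f := fun f => hcomm g f
  refine Finset.sum_bij' (fun f _ => g * f) (fun f _ => g⁻¹ * f) ?_ ?_ ?_ ?_ ?_
  · intro f hf
    rw [hC] at hf hg ⊢
    rw [(hgc f).mul_pow, hg, hf, one_mul]
  · intro f hf
    rw [hC] at hf hg ⊢
    rw [((hgc f).inv_left).mul_pow, inv_pow, hg, hf, inv_one, one_mul]
  · intro f _
    exact inv_mul_cancel_left g f
  · intro f _
    exact mul_inv_cancel_left g f
  · intro f _
    exact (mp_mul E g f P).symm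

theorem nm_mul (C : Finset (F ≃ₐ[K] F)) (x y : F) : nm C (x * y) = nm C x * nm C y := by
  rw [nm, nm, nm, ← Finset.prod_mul_distrib]
  exact Finset.prod_congr rfl fun g _ => map_mul g x y

theorem nm_pow (C : Finset (F ≃ₐ[K] F)) (x : F) (k : ℕ) : nm C (x ^ k) = nm C x ^ k := by
  rw [nm, nm, ← Finset.prod_pow]
  exact Finset.prod_congr rfl fun g _ => map_pow g x k

theorem nm_inv (C : Finset (F ≃ₐ[K] F)) (x : F) : nm C x⁻¹ = (nm C x)⁻¹ := by
  rw [nm, nm, ← Finset.prod_inv_distrib]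
  exact Finset.prod_congr rfl fun g _ => map_inv₀ g x

theorem nm_div (C : Finset (F ≃ₐ[K] F)) (x y : F) : nm C (x / y) = nm C x / nm C y := by
  rw [div_eq_mul_inv, nm_mul, nm_inv, div_eq_mul_inv]

theorem nm_ne (C : Finset (F ≃ₐ[K] F)) {x : F} (hx : x ≠ 0) : nm C x ≠ 0 :=
  Finset.prod_ne_zero_iff.2 fun g _ => (map_ne_zero g).2 hx

theorem nm_base (C : Finset (F ≃ₐ[K] F)) (x : K) :
    nm C (algebraMap K F x) = algebraMap K F x ^ C.card := by
  rw [nm, Finset.prod_congr rfl fun g _ => g.commutes x, Finset.prod_const]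

theorem map_nm (hcomm : ∀ τ ρ : F ≃ₐ[K] F, τ * ρ = ρ * τ) (C : Finset (F ≃ₐ[K] F))
    (f : F ≃ₐ[K] F) (x : F) : f (nm C x) = nm C (f x) := by
  rw [nm, nm, map_prod]
  refine Finset.prod_congr rfl fun g _ => ?_
  have := congrArg (fun t : F ≃ₐ[K] F => t x) (hcomm f g)
  exact this

theorem isSquare_nm (C : Finset (F ≃ₐ[K] F)) {x : F} (hx : IsSquare x) : IsSquare (nm C x) := by
  obtain ⟨y, rfl⟩ := hx
  exact ⟨nm C y, nm_mul C y y⟩

end action

section curve

variable {K F : Type*} [Field K] [Field F] [Algebra K F]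

theorem cv_baseChange (a b : K) : ((cv a b)⁄F) = cv (algebraMap K F a) (algebraMap K F b) := by
  ext <;> simp [cv]

theorem cv_twoTors {a b e2 e3 : F} (h1 : e2 + e3 = -a) (h2 : e2 * e3 = b) (h0 : b ≠ 0)
    (h3 : e2 ≠ e3) : TwoTors (cv a b) 0 e2 e3 := by
  have n2 : e2 ≠ 0 := by
    rintro rfl
    exact h0 (by rw [← h2, zero_mul])
  have n3 : e3 ≠ 0 := by
    rintro rfl
    exact h0 (by rw [← h2, mul_zero])
  refine ⟨rfl, rfl, ?_, ?_, ?_, n2.symm, h3, n3⟩
  · show a = -(0 + e2 + e3)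
    rw [zero_add, h1, neg_neg]
  · show b = 0 * e2 + e2 * e3 + e3 * 0
    rw [h2]
    ring
  · show (0 : F) = -(0 * e2 * e3)
    ring

theorem cv_twoTors' {a b : K} {e2 e3 : F} (h1 : e2 + e3 = -algebraMap K F a)
    (h2 : e2 * e3 = algebraMap K F b) (h0 : b ≠ 0) (h3 : e2 ≠ e3) :
    TwoTors ((cv a b)⁄F) 0 e2 e3 := by
  rw [cv_baseChange]
  exact cv_twoTors h1 h2 ((map_ne_zero _).2 h0) h3

theorem cv_equation (a b x y : F) : (cv a b).Equation x y ↔ y ^ 2 = x ^ 3 + a * x ^ 2 + b * x := by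
  rw [equation_iff]
  simp only [cv]
  constructor <;> intro h <;> linear_combination h

end curve

section order

variable {A B : Type*} [AddCommGroup A] [AddCommGroup B]

theorem Nt.map {P : A} (hP : Nt P) (f : A →+ B) (hf : Function.Injective f) : Nt (f P) := by
  intro m hm h0
  apply hP m hm
  apply hf
  rw [map_nsmul, h0, map_zero]

theorem Nt.of_map {P : A} (f : A →+ B) (hP : Nt (f P)) : Nt P := by
  intro m hm h0
  apply hP m hm
  rw [← map_nsmul, h0, map_zero]

theorem Nt.neg {P : A} (hP : Nt P) : Nt (-P) := by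
  intro m hm h0
  apply hP m hm
  rw [smul_neg, neg_eq_zero] at h0
  exact h0

theorem Nt.of_nsmul {P : A} {k : ℕ} (hP : Nt (k • P)) : Nt P := by
  intro m hm h0
  apply hP m hm
  rw [smul_comm, h0, smul_zero]

theorem Nt.nsmul {P : A} {k : ℕ} (hk : k ≠ 0) (hP : Nt P) : Nt (k • P) := by
  intro m hm h0
  rw [smul_smul] at h0
  exact hP (m * k) (Nat.mul_ne_zero hm hk) h0

end order

end Pool.Agent.Work.MP_787500_nt.GO
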