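import Mathlib
import Pool.Agent.Work.MP_787500_nt.GO.Basic
import Pool.Agent.Work.MP_787500_nt.HD.Defs

/-!
# Definitions for the classification block (Cl*) of the folder GO (helper7). Do not change.
-/

set_option autoImplicit false

namespace Pool.Agent.Work.MP_787500_nt.GO

open WithZero IsDedekindDomain NumberField WeierstrassCurve WeierstrassCurve.Affine

universe u

/-- The curve `y ^ 2 = x ^ 3 + a x ^ 2 + b x` over `ℚ` has discriminant plus or minus a power of 2, up to
squares: it has good reduction outside 2. -/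
def G2 (a b : ℤ) : Prop := ∃ k : ℕ, b * (a ^ 2 - 4 * b) = 2 ^ k ∨ b * (a ^ 2 - 4 * b) = -2 ^ k

open scoped Classical in
/-- Over all fields `F` between `K` and a dihedral field `F'` the group of points of `y ^ 2 = x ^ 3 + a x ^ 2 + b x`
is finitely generated, of rank `[F : K]`. -/
def AllR (K : Type u) [Field K] [NumberField K] (s : K) (a b : ℤ) : Prop :=
  ∀ (F F' : Type u) [Field F] [NumberField F] [Algebra K F] [Field F'] [NumberField F']
    [Algebra K F'] [Algebra F F'] [IsScalarTower K F F'], HD.DihField K F' s →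
    AddGroup.FG (cv (a : F) (b : F)).Point ∧
      Module.finrank ℤ (cv (a : F) (b : F)).Point = Module.finrank K F

/-- a homomorphism with kernel killed by 2 -/
def Dom (A B : Type*) [AddCommGroup A] [AddCommGroup B] : Prop :=
  ∃ φ : A →+ B, ∀ P, φ P = 0 → P + P = 0

theorem G2.ne {a b : ℤ} (h : G2 a b) : b ≠ 0 ∧ a ^ 2 - 4 * b ≠ 0 := by
  obtain ⟨k, h⟩ := h
  have h2 : (2 : ℤ) ^ k ≠ 0 := pow_ne_zero k two_ne_zero
  have h3 : b * (a ^ 2 - 4 * b) ≠ 0 := by
    rcases h with h | h
    · rw [h]; exact h2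
    · rw [h]; exact neg_ne_zero.2 h2
  exact ⟨left_ne_zero_of_mul h3, right_ne_zero_of_mul h3⟩

end Pool.Agent.Work.MP_787500_nt.GO
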