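import Mathlib
import Pool.Agent.Work.MP_787500_nt.GO.ClDef
import Pool.Agent.Work.MP_787500_nt.HD.FnD
import Pool.Agent.Work.MP_787500_nt.HC.Fin2

/-!
# Module ClI: every dihedral field is contained in one which contains the eighth roots of unity

As in `rk_sub` of HD/FnD.lean: `HD.exists_ctx_cj hb`, `hC.data.exists_sq4 1`, `HD.exists_embed h : F' ≃ₐ[K] E'`, `HD.le_layF` gives `E' ≤ layF n`, `n = m - 1`.
Let `N = max n 1`, `F'' = layF N` (`HC.layF_mono`), `HD.dihField_of hC hS le_rfl (HD.dihI_mono hC hS hc le_rfl) : DihField K F'' s`.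
Algebra structure: `F' → E' ≤ F''` (`RingHom.toAlgebra` of `(IntermediateField.inclusion _).comp e`), `IsScalarTower.of_algebraMap_eq`.
`i ∈ layF N`: `HC.i_mem_layF`. A root of 2: `r = ρ + ρ⁻¹` with `ρ = b 1 / (W 1 * W' 1)`, `ρ^2 = a 0 b 0 / (W 1 W' 1)^2 = -i`, `r^2 = ρ^2 + 2 + ρ⁻² = 2`. `ρ ∈ layM N` (`HC.mem_b`, `mem_W`, `mem_W'`);
`ρ ∈ layF N` because `τ ρ = ρ` when `τ^h` fixes `layM N` (`h = hK K` odd, `HC.odd_hK`): `(τ ρ)^2 = τ (-i) = -i` (`i ∈ layF`), so `τ ρ = ± ρ`, and `τ ρ = -ρ`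
gives `τ^h ρ = -ρ`, contradiction with `τ^h ρ = ρ ≠ 0`. (Compare `HC.i_mem_layF`.)
-/

set_option autoImplicit false

namespace Pool.Agent.Work.MP_787500_nt.GO

open WithZero IsDedekindDomain NumberField WeierstrassCurve WeierstrassCurve.Affine

universe u

/-- a square root of an element of a layer is in the layer -/
private theorem sqrt_mem_layF {K : Type u} [Field K] [NumberField K]
    {W W' : ClassGroup (𝓞 K) → AlgebraicClosure K} {i : AlgebraicClosure K}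
    {b : ℕ → AlgebraicClosure K} (hodd : Odd (HC.hK K)) {n : ℕ} {x : AlgebraicClosure K}
    (h0 : x ≠ 0) (hx : x ∈ HC.layM W W' i b n) (hx2 : x ^ 2 ∈ HC.layF W W' i b n) :
    x ∈ HC.layF W W' i b n := by
  rw [HC.mem_layF]
  refine ⟨hx, fun τ hτ => ?_⟩
  have h1 : (τ x) ^ 2 = x ^ 2 := by
    rw [← map_pow]
    exact (HC.mem_layF.1 hx2).2 τ hτ
  rcases sq_eq_sq_iff_eq_or_eq_neg.1 h1 with h2 | h2
  · exact h2
  · exfalso
    have h3 : ∀ k : ℕ, (τ ^ k) x = (-1) ^ k * x := by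
      intro k
      induction k with
      | zero => simp
      | succ k ih =>
        rw [pow_succ, AlgEquiv.mul_apply, h2, map_neg, ih, pow_succ]
        ring
    have h4 := hτ x hx
    rw [h3, hodd.neg_one_pow] at h4
    have h5 : (2 : AlgebraicClosure K) * x = 0 := by linear_combination -h4
    rcases mul_eq_zero.1 h5 with h6 | h6
    · exact two_ne_zero h6
    · exact h0 h6

private theorem sqrt_two_mem {K : Type u} [Field K] [NumberField K] {q : ℕ} {s : K}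
    {v : HeightOneSpectrum (𝓞 K)} {α : Kˣ} {W W' : ClassGroup (𝓞 K) → AlgebraicClosure K}
    {i : AlgebraicClosure K} {a b u : ℕ → AlgebraicClosure K} (hC : HC.Ctx K q s v α W W')
    (hS : ∀ n, HC.Sq4 (W 1) (W' 1) i a b u n) {n : ℕ} (hn : 1 ≤ n) :
    ∃ r ∈ HC.layF W W' i b n, r ^ 2 = 2 := by
  have hi2 := (hS 0).i2
  have hi : i ∈ HC.layF W W' i b n := HC.i_mem_layF hC hi2 n
  have hi0 : i ≠ 0 := by
    rintro rfl
    rw [zero_pow two_ne_zero] at hi2
    exact one_ne_zero (neg_eq_zero.1 hi2.symm)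
  have hW := (hS 0).w0
  have hW' := (hS 0).w0'
  have hb : b 1 ^ 2 = a 0 * b 0 := (hS 1).bs 0 one_pos
  have hρ : (b 1 / (W 1 * W' 1)) ^ 2 = -i := by
    rw [div_pow, hb, (hS 0).a0, (hS 0).b0]
    field_simp
  have hρ0 : b 1 / (W 1 * W' 1) ≠ 0 := by
    intro h
    rw [h, zero_pow two_ne_zero] at hρ
    exact hi0 (neg_eq_zero.1 hρ.symm)
  have hm : b 1 / (W 1 * W' 1) ∈ HC.layM W W' i b n :=
    div_mem (HC.mem_b hn) (mul_mem (HC.mem_W n 1) (HC.mem_W' n 1))
  have hF : b 1 / (W 1 * W' 1) ∈ HC.layF W W' i b n :=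
    sqrt_mem_layF (HC.odd_hK hC.base) hρ0 hm (by rw [hρ]; exact neg_mem hi)
  generalize b 1 / (W 1 * W' 1) = ρ at hρ hρ0 hF
  refine ⟨ρ + ρ⁻¹, add_mem hF (inv_mem hF), ?_⟩
  have h1 : ρ⁻¹ ^ 2 = i := by
    rw [inv_pow, hρ, inv_neg, inv_eq_of_mul_eq_one_right (b := -i)]
    · ring
    · linear_combination -hi2
  have h2 : ρ * ρ⁻¹ = 1 := mul_inv_cancel₀ hρ0
  linear_combination hρ + h1 + 2 * h2

theorem exists_ext {K : Type u} [Field K] [NumberField K] {q : ℕ} {s : K} (hb : IsBase K q s)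
    {F' : Type u} [Field F'] [NumberField F'] [Algebra K F'] (h : HD.DihField K F' s) :
    ∃ (F'' : Type u) (_ : Field F'') (_ : NumberField F'') (_ : Algebra K F'') (_ : Algebra F' F'')
      (_ : IsScalarTower K F' F''), HD.DihField K F'' s ∧ ∃ i r : F'', i ^ 2 = -1 ∧ r ^ 2 = 2 := by
  obtain ⟨v, α, W, W', c, hC, hc⟩ := HD.exists_ctx_cj hb
  obtain ⟨i, a, b, u, hS⟩ := hC.data.exists_sq4 1
  obtain ⟨E', hE', e, hD, hT⟩ := HD.exists_embed h
  obtain ⟨h1, ⟨m, hm⟩, h3, -⟩ := h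
  have hm' : Module.finrank K E' = 2 ^ m := by
    rw [← hm]
    exact e.toLinearEquiv.finrank_eq.symm
  have hle : E' ≤ HC.layF W W' i b (m + 1) := HD.le_layF hC hS hc hD hT hm'
  have hN := HC.layF_numberField hC hS (m + 1)
  let j : F' →ₐ[K] HC.layF W W' i b (m + 1) :=
    (IntermediateField.inclusion hle).comp (e : F' →ₐ[K] E')
  let _ : Algebra F' (HC.layF W W' i b (m + 1)) := j.toRingHom.toAlgebra
  have hST : IsScalarTower K F' (HC.layF W W' i b (m + 1)) :=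
    IsScalarTower.of_algebraMap_eq fun x => (j.commutes x).symm
  have hi2 := (hS 0).i2
  have hi : i ∈ HC.layF W W' i b (m + 1) := HC.i_mem_layF hC hi2 (m + 1)
  obtain ⟨r, hr, hr2⟩ := sqrt_two_mem hC hS (Nat.le_add_left 1 m)
  refine ⟨HC.layF W W' i b (m + 1), inferInstance, hN, inferInstance, inferInstance, hST,
    HD.dihField_of hC hS le_rfl (HD.dihI_mono hC hS hc le_rfl), ⟨i, hi⟩, ⟨r, hr⟩, ?_, ?_⟩
  · apply Subtype.ext
    push_cast
    exact hi2
  · apply Subtype.ext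
    push_cast
    exact hr2

end Pool.Agent.Work.MP_787500_nt.GO
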