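import Mathlib
import Pool.Agent.Work.MP_787500_nt.GO.ClDef

/-!
# Module ClA: the classification of the pairs (a, b) with b (a^2 - 4 b) = +- 2^k

Elementary. `b` and `a ^ 2 - 4 b` divide a power of 2, so `b = ± 2^l`, `a^2 - 4b = ± 2^m` (`Int.natAbs`, `(Nat.dvd_prime_pow Nat.prime_two).1`).
So `a^2 = ± 2^(l+2) ± 2^m`. With `n = min (l+2) m`, `d = |l + 2 - m|`:
* `d = 0`: `a = 0` (signs opposite: `b = ± 2^l`), or `a^2 = 2^(l+3)`, `b = 2^l`, `l` odd (the sign minus is impossible).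
* `d >= 1`: `a^2 = 2^n (e + e' 2^d)`, `e + e' 2^d` odd, positive; `n` is even and `e + e' 2^d` is a square `c^2`, `c` odd (a power of 2 times an odd
  number is a square iff both are): `2^d + 1 = c^2` only for `d = 3`, `c = 3` (`(c-1)(c+1) = 2^d`: two powers of 2 with difference 2),
  `2^d - 1 = c^2` only for `d = 1` (modulo 4), `1 - 2^d` and `-1 - 2^d` are negative.
A convenient way: strong induction on `k` (or on `b.natAbs`) with the descent `(a, b) -> (a/2, b/4)`: if `a` is even and `4 | b` then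
`(a/2, b/4)` satisfies the hypothesis (`b (a^2 - 4b) = 16 (b/4) ((a/2)^2 - 4 (b/4))`, so `k >= 4`), and `T` is stable under
`(a, b) -> (2a, 4b)`. Otherwise: (i) `a` odd: `a^2 - 4b` is odd, so `= ± 1`, `= 1` modulo 4, `4 b = a^2 - 1 = (a-1)(a+1)`, `b = ± 2^l`:
`(a-1)/2` and `(a+1)/2` are consecutive integers and divide a power of 2: `a = ± 3`, `b = 2` (`a = ± 1` gives `b = 0`). (ii) `a` even and `b` not divisible by 4: `b = ± 1`
or `± 2`, `a = 2c`: `4 (c^2 - b) = ± 2^m`, so `c^2 - b = ± 2^j`: `b = 1`: `(c-1)(c+1) = ± 2^j`: `c = 0`, `c = ± 3` (`c = ± 1` is excluded);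
`b = -1`: `c^2 + 1 = 2^j`: `c = 0`, `± 1`; `b = 2`: `c^2 - 2 = ± 2^j`: `c = 0, ± 1, ± 2`; `b = -2`: `c^2 + 2 = 2^j`: `c = 0` (`c` even: `c^2 + 2 = 2` modulo 4; `c` odd:
`c^2 + 2` is odd and at least 3).
(`c^2 - 2`: `c` even: `= 2` modulo 4, so `= ± 2`, `c = 0, ± 2`; `c` odd: odd, so `= ± 1`, `c = ± 1`.)
-/

set_option autoImplicit false

namespace Pool.Agent.Work.MP_787500_nt.GO

open WithZero IsDedekindDomain NumberField WeierstrassCurve WeierstrassCurve.Affine

universe u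

/-- the list of the pairs -/
def Tb (a b : ℤ) : Prop :=
  ∃ j : ℕ, ∃ e : ℤ, (e = 1 ∨ e = -1) ∧
    ((a = 0 ∧ b = e * 4 ^ j) ∨ (a = 0 ∧ b = e * (2 * 4 ^ j)) ∨ (a = e * (2 * 2 ^ j) ∧ b = -4 ^ j) ∨
      (a = e * (2 * 2 ^ j) ∧ b = 2 * 4 ^ j) ∨ (a = e * (3 * 2 ^ j) ∧ b = 2 * 4 ^ j) ∨
      (a = e * (6 * 2 ^ j) ∧ b = 4 ^ j) ∨ (a = e * (4 * 2 ^ j) ∧ b = 2 * 4 ^ j))

private theorem odd_dvd {x : ℤ} {k : ℕ} (hx : x % 2 = 1) (h : x ∣ 2 ^ k) : x = 1 ∨ x = -1 := by
  have h1 : x.natAbs ∣ 2 ^ k := by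
    have := Int.natAbs_dvd_natAbs.2 h
    rwa [Int.natAbs_pow] at this
  obtain ⟨l, -, hl⟩ := (Nat.dvd_prime_pow Nat.prime_two).1 h1
  rcases Nat.eq_zero_or_pos l with h0 | h0
  · rw [h0, pow_zero] at hl
    omega
  · exfalso
    have h2 : 2 ∣ x.natAbs := by
      rw [hl]
      exact dvd_pow_self 2 h0.ne'
    omega

private theorem even_dvd {x : ℤ} {k : ℕ} (hx : x % 4 = 2) (h : x ∣ 2 ^ k) : x = 2 ∨ x = -2 := by
  obtain ⟨y, rfl⟩ : ∃ y, x = 2 * y := ⟨x / 2, by omega⟩
  have h1 : y ∣ 2 ^ k := (Dvd.intro_left 2 rfl).trans h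
  rcases odd_dvd (by omega) h1 with h2 | h2 <;> omega

/-- consecutive divisors of a power of two -/
private theorem cons_dvd {c : ℤ} {k : ℕ} (h : c * (c + 1) ∣ 2 ^ k) : c = 1 ∨ c = -2 := by
  have h0 : c * (c + 1) ≠ 0 := by
    intro h0
    rw [h0, zero_dvd_iff] at h
    exact pow_ne_zero k two_ne_zero h
  have h1 : c ≠ 0 := left_ne_zero_of_mul h0
  have h2 : c + 1 ≠ 0 := right_ne_zero_of_mul h0
  have h3 : c ∣ 2 ^ k := (Dvd.intro _ rfl).trans h
  have h4 : c + 1 ∣ 2 ^ k := (Dvd.intro_left _ rfl).trans h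
  rcases Int.emod_two_eq_zero_or_one c with h5 | h5
  · rcases odd_dvd (by omega) h4 with h6 | h6 <;> omega
  · rcases odd_dvd (by omega) h3 with h6 | h6 <;> omega

private theorem sq_mod (c : ℤ) : (c % 2 = 0 ∧ c ^ 2 % 4 = 0) ∨ (c % 2 = 1 ∧ c ^ 2 % 4 = 1) := by
  rcases Int.emod_two_eq_zero_or_one c with h | h
  · left
    refine ⟨h, ?_⟩
    obtain ⟨d, rfl⟩ : ∃ d, c = 2 * d := ⟨c / 2, by omega⟩
    have : (2 * d) ^ 2 = 4 * d ^ 2 := by ring
    omega
  · right
    refine ⟨h, ?_⟩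
    obtain ⟨d, rfl⟩ : ∃ d, c = 2 * d + 1 := ⟨c / 2, by omega⟩
    have : (2 * d + 1) ^ 2 = 4 * (d ^ 2 + d) + 1 := by ring
    omega

private theorem sq_one {c : ℤ} (h : c ^ 2 = 1) : c = 1 ∨ c = -1 := sq_eq_one_iff_of_ne_zero' h
  where
  sq_eq_one_iff_of_ne_zero' {c : ℤ} (h : c ^ 2 = 1) : c = 1 ∨ c = -1 := by
    have : (c - 1) * (c + 1) = 0 := by linear_combination h
    rcases mul_eq_zero.1 this with h | h <;> omega

private theorem tb_double {a b : ℤ} (h : Tb a b) : Tb (2 * a) (4 * b) := by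
  obtain ⟨j, e, he, h⟩ := h
  refine ⟨j + 1, e, he, ?_⟩
  rcases h with ⟨rfl, rfl⟩ | ⟨rfl, rfl⟩ | ⟨rfl, rfl⟩ | ⟨rfl, rfl⟩ | ⟨rfl, rfl⟩ | ⟨rfl, rfl⟩ | ⟨rfl, rfl⟩
  · exact Or.inl ⟨by ring, by ring⟩
  · exact Or.inr (Or.inl ⟨by ring, by ring⟩)
  · exact Or.inr (Or.inr (Or.inl ⟨by ring, by ring⟩))
  · exact Or.inr (Or.inr (Or.inr (Or.inl ⟨by ring, by ring⟩)))
  · exact Or.inr (Or.inr (Or.inr (Or.inr (Or.inl ⟨by ring, by ring⟩))))
  · exact Or.inr (Or.inr (Or.inr (Or.inr (Or.inr (Or.inl ⟨by ring, by ring⟩)))))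
  · exact Or.inr (Or.inr (Or.inr (Or.inr (Or.inr (Or.inr ⟨by ring, by ring⟩)))))

private theorem tb_main (k : ℕ) : ∀ a b : ℤ,
    (b * (a ^ 2 - 4 * b) = 2 ^ k ∨ b * (a ^ 2 - 4 * b) = -2 ^ k) → Tb a b := by
  induction k using Nat.strong_induction_on with
  | _ k ih =>
  intro a b h
  have hne : b * (a ^ 2 - 4 * b) ≠ 0 := by
    have h2 : (2 : ℤ) ^ k ≠ 0 := pow_ne_zero k two_ne_zero
    rcases h with h | h
    · rw [h]; exact h2
    · rw [h]; exact neg_ne_zero.2 h2
  have hdvd : b * (a ^ 2 - 4 * b) ∣ 2 ^ k := by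
    rcases h with h | h
    · rw [h]
    · rw [h]; exact (neg_dvd).2 dvd_rfl
  have hb : b ∣ 2 ^ k := (Dvd.intro _ rfl).trans hdvd
  have hd : a ^ 2 - 4 * b ∣ 2 ^ k := (Dvd.intro_left _ rfl).trans hdvd
  rcases sq_mod a with ⟨ha, ha4⟩ | ⟨ha, ha4⟩
  · obtain ⟨c, rfl⟩ : ∃ c, a = 2 * c := ⟨a / 2, by omega⟩
    have hd' : c ^ 2 - b ∣ 2 ^ k := by
      refine (Dvd.intro_left 4 ?_).trans hd
      ring
    by_cases hb4 : b % 4 = 0
    · obtain ⟨b', rfl⟩ : ∃ b', b = 4 * b' := ⟨b / 4, by omega⟩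
      have h16 : (4 * b') * ((2 * c) ^ 2 - 4 * (4 * b')) = 16 * (b' * (c ^ 2 - 4 * b')) := by ring
      rw [h16] at h hdvd
      have hk : 4 ≤ k := by
        by_contra hk
        have h17 : (16 : ℤ) ∣ 2 ^ k := (Dvd.intro _ rfl).trans hdvd
        have h18 := Int.le_of_dvd (by positivity) h17
        have h19 : (2 : ℤ) ^ k ≤ 2 ^ 3 := pow_le_pow_right₀ (by norm_num) (by omega)
        norm_num at h19
        omega
      obtain ⟨m, rfl⟩ := Nat.exists_eq_add_of_le hk
      apply tb_double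
      refine ih m (by omega) c b' ?_
      rw [pow_add] at h
      rcases h with h | h
      · left; linarith
      · right; linarith
    · rcases Int.emod_two_eq_zero_or_one b with hb2 | hb2
      · rcases even_dvd (by omega) hb with rfl | rfl
        · rcases sq_mod c with ⟨hc, hc4⟩ | ⟨hc, hc4⟩
          · rcases even_dvd (by omega) hd' with h1 | h1
            · have h2 : (c - 2) * (c + 2) = 0 := by linear_combination h1
              rcases mul_eq_zero.1 h2 with h3 | h3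
              · exact ⟨0, 1, Or.inl rfl, by norm_num; omega⟩
              · exact ⟨0, -1, Or.inr rfl, by norm_num; omega⟩
            · have h2 : c ^ 2 = 0 := by linear_combination h1
              have h3 : c = 0 := pow_eq_zero_iff (two_ne_zero) |>.1 h2
              subst h3
              exact ⟨0, 1, Or.inl rfl, by norm_num⟩
          · rcases odd_dvd (by omega) hd' with h1 | h1
            · exfalso; omega
            · rcases sq_one (c := c) (by linear_combination h1) with rfl | rfl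
              · exact ⟨0, 1, Or.inl rfl, by norm_num⟩
              · exact ⟨0, -1, Or.inr rfl, by norm_num⟩
        · rcases sq_mod c with ⟨hc, hc4⟩ | ⟨hc, hc4⟩
          · rcases even_dvd (by omega) hd' with h1 | h1
            · have h2 : c ^ 2 = 0 := by linear_combination h1
              have h3 : c = 0 := pow_eq_zero_iff (two_ne_zero) |>.1 h2
              subst h3
              exact ⟨0, -1, Or.inr rfl, by norm_num⟩
            · exfalso; nlinarith [sq_nonneg c]
          · rcases odd_dvd (by omega) hd' with h1 | h1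
            · exfalso; nlinarith [sq_nonneg c]
            · exfalso; nlinarith [sq_nonneg c]
      · rcases odd_dvd hb2 hb with rfl | rfl
        · rcases sq_mod c with ⟨hc, hc4⟩ | ⟨hc, hc4⟩
          · rcases odd_dvd (by omega) hd' with h1 | h1
            · exfalso; omega
            · have h2 : c ^ 2 = 0 := by linear_combination h1
              have h3 : c = 0 := pow_eq_zero_iff (two_ne_zero) |>.1 h2
              subst h3
              exact ⟨0, 1, Or.inl rfl, by norm_num⟩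
          · obtain ⟨d, rfl⟩ : ∃ d, c = 2 * d + 1 := ⟨c / 2, by omega⟩
            have h1 : d * (d + 1) ∣ 2 ^ k := by
              refine (Dvd.intro_left 4 ?_).trans hd'
              ring
            rcases cons_dvd h1 with rfl | rfl
            · exact ⟨0, 1, Or.inl rfl, by norm_num⟩
            · exact ⟨0, -1, Or.inr rfl, by norm_num⟩
        · rcases sq_mod c with ⟨hc, hc4⟩ | ⟨hc, hc4⟩
          · rcases odd_dvd (by omega) hd' with h1 | h1
            · have h2 : c ^ 2 = 0 := by linear_combination h1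
              have h3 : c = 0 := pow_eq_zero_iff (two_ne_zero) |>.1 h2
              subst h3
              exact ⟨0, -1, Or.inr rfl, by norm_num⟩
            · exfalso; nlinarith [sq_nonneg c]
          · rcases even_dvd (by omega) hd' with h1 | h1
            · rcases sq_one (c := c) (by linear_combination h1) with rfl | rfl
              · exact ⟨0, 1, Or.inl rfl, by norm_num⟩
              · exact ⟨0, -1, Or.inr rfl, by norm_num⟩
            · exfalso; nlinarith [sq_nonneg c]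
  · rcases odd_dvd (by omega) hd with h1 | h1
    · obtain ⟨c, rfl⟩ : ∃ c, a = 2 * c + 1 := ⟨a / 2, by omega⟩
      have h2 : b = c * (c + 1) := by
        have : 4 * b = 4 * (c * (c + 1)) := by linear_combination -h1
        omega
      rw [h2] at hb
      rcases cons_dvd hb with rfl | rfl
      · subst h2
        exact ⟨0, 1, Or.inl rfl, by norm_num⟩
      · subst h2
        exact ⟨0, -1, Or.inr rfl, by norm_num⟩
    · exfalso; omega

theorem tb_of_G2 {a b : ℤ} (h : G2 a b) : Tb a b := by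
  obtain ⟨k, h⟩ := h
  exact tb_main k a b h

end Pool.Agent.Work.MP_787500_nt.GO
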