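import Mathlib
import Pool.Agent.Work.MP_787500_nt.GO.ClA

/-!
# Module ClB: the induction principle

`tb_of_G2` and the following. Write `[a, b]` for `P a b`. `[a,b] -> [2a,4b]` (`htwo`), iterated `j` times: `[a,b] -> [2^j a, 4^j b]`; `hneg`; `hiso` reads:
`[-2a, a^2-4b] -> [a,b]`.
* `(0, -4^j)`: from `h1` by `htwo`; `(0, -2 * 4^j)`: from `hA`; `(± 4 * 2^j, 2 * 4^j)`: from `hB` and `hneg`.
* `(0, 4^j)`: `hiso`: `(0, -4 * 4^j) = (0, -4^(j+1))`. `(0, 2 * 4^j)`: `hiso`: `(0, -2 * 4^(j+1))`.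
* `(e 3 * 2^j, 2 * 4^j)`: from `h3`, `hneg`, `htwo`. `(e 6 2^j, 4^j)`: `hiso`: `(-e 12 2^j, 32 4^j) = (-e 3 * 2^(j+2), 2 * 4^(j+2))`.
* `(e 4 2^j, 8 4^j)`: from `hD`, `hneg`, `htwo`. `(e 2 2^j, -4^j)`: `hiso`: `(-e 4 2^j, 8 4^j)`.
* `(e 2 2^j, 2 4^j)`: `hiso`: `(-e 4 2^j, -4 4^j) = (-e 2 2^(j+1), -4^(j+1))`, done before.
-/

set_option autoImplicit false

namespace Pool.Agent.Work.MP_787500_nt.GO

open WithZero IsDedekindDomain NumberField WeierstrassCurve WeierstrassCurve.Affine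

universe u

theorem cls_ind {P : ℤ → ℤ → Prop} (h1 : P 0 (-1)) (hA : P 0 (-2)) (hB : P 4 2) (hD : P (-4) 8)
    (h3 : P 3 2) (hneg : ∀ a b, P a b → P (-a) b) (htwo : ∀ a b, P a b → P (2 * a) (4 * b))
    (hiso : ∀ a b, b ≠ 0 → a ^ 2 - 4 * b ≠ 0 → P (-2 * a) (a ^ 2 - 4 * b) → P a b)
    {a b : ℤ} (h : G2 a b) : P a b := by
  have iter : ∀ (j : ℕ) (a b : ℤ), P a b → P (2 ^ j * a) (4 ^ j * b) := by
    intro j
    induction j with
    | zero =>
      intro a b h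
      rw [pow_zero, pow_zero, one_mul, one_mul]
      exact h
    | succ j ih =>
      intro a b h
      have h5 := htwo _ _ (ih a b h)
      have e1 : (2 : ℤ) ^ (j + 1) * a = 2 * (2 ^ j * a) := by ring
      have e2 : (4 : ℤ) ^ (j + 1) * b = 4 * (4 ^ j * b) := by ring
      rw [e1, e2]
      exact h5
  have sg : ∀ (e a b : ℤ), (e = 1 ∨ e = -1) → P a b → P (e * a) b := by
    rintro e a b (rfl | rfl) h
    · rwa [one_mul]
    · rw [neg_one_mul]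
      exact hneg a b h
  have h4 : ∀ j : ℕ, (4 : ℤ) ^ j = (2 ^ j) ^ 2 := by
    intro j
    rw [← pow_mul, mul_comm j 2, pow_mul]
    norm_num
  have p4 : ∀ j : ℕ, (4 : ℤ) ^ j ≠ 0 := fun j => pow_ne_zero j (by norm_num)
  have s4 : ∀ j : ℕ, (4 : ℤ) ^ (j + 1) = 4 * 4 ^ j := fun j => by ring
  have s2 : ∀ j : ℕ, (2 : ℤ) ^ (j + 1) = 2 * 2 ^ j := fun j => by ring
  -- the pairs `(e 4 2^j, 8 4^j)` and `(e 2 2^j, -4^j)`
  have c8 : ∀ (j : ℕ) (e : ℤ), (e = 1 ∨ e = -1) → P (e * (4 * 2 ^ j)) (8 * 4 ^ j) := by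
    intro j e he
    have h5 := sg e _ _ he (hneg _ _ (iter j _ _ hD))
    have e1 : e * (4 * (2 : ℤ) ^ j) = e * -(2 ^ j * (-4)) := by ring
    have e2 : (8 : ℤ) * 4 ^ j = 4 ^ j * 8 := by ring
    rw [e1, e2]
    exact h5
  have cm : ∀ (j : ℕ) (e : ℤ), (e = 1 ∨ e = -1) → P (e * (2 * 2 ^ j)) (-4 ^ j) := by
    intro j e he
    have hsq : e ^ 2 = 1 := by rcases he with rfl | rfl <;> norm_num
    have e2 : (e * (2 * (2 : ℤ) ^ j)) ^ 2 - 4 * (-4 ^ j) = 8 * 4 ^ j := by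
      rw [mul_pow, hsq, h4 j]
      ring
    refine hiso _ _ (neg_ne_zero.2 (p4 j)) ?_ ?_
    · rw [e2]
      exact mul_ne_zero (by norm_num) (p4 j)
    · rw [e2]
      have he' : -e = 1 ∨ -e = -1 := by
        rcases he with rfl | rfl
        · right; rfl
        · left; norm_num
      have h5 := c8 j (-e) he'
      have e1 : -2 * (e * (2 * (2 : ℤ) ^ j)) = -e * (4 * 2 ^ j) := by ring
      rw [e1]
      exact h5
  obtain ⟨j, e, he, h⟩ := tb_of_G2 h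
  have hsq : e ^ 2 = 1 := by rcases he with rfl | rfl <;> norm_num
  have he' : -e = 1 ∨ -e = -1 := by
    rcases he with rfl | rfl
    · right; rfl
    · left; norm_num
  rcases h with ⟨rfl, rfl⟩ | ⟨rfl, rfl⟩ | ⟨rfl, rfl⟩ | ⟨rfl, rfl⟩ | ⟨rfl, rfl⟩ | ⟨rfl, rfl⟩ | ⟨rfl, rfl⟩
  · rcases he with rfl | rfl
    · have e2 : (0 : ℤ) ^ 2 - 4 * (1 * 4 ^ j) = 4 ^ (j + 1) * (-1) := by
        rw [s4]
        ring
      refine hiso _ _ (mul_ne_zero one_ne_zero (p4 j)) ?_ ?_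
      · rw [e2]
        exact mul_ne_zero (p4 _) (by norm_num)
      · rw [e2]
        have h5 := iter (j + 1) _ _ h1
        rw [mul_zero] at h5 ⊢
        exact h5
    · have h5 := iter j _ _ h1
      rw [mul_zero] at h5
      have e2 : -1 * (4 : ℤ) ^ j = 4 ^ j * (-1) := by ring
      rw [e2]
      exact h5
  · rcases he with rfl | rfl
    · have e2 : (0 : ℤ) ^ 2 - 4 * (1 * (2 * 4 ^ j)) = 4 ^ (j + 1) * (-2) := by
        rw [s4]
        ring
      refine hiso _ _ (mul_ne_zero one_ne_zero (mul_ne_zero two_ne_zero (p4 j))) ?_ ?_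
      · rw [e2]
        exact mul_ne_zero (p4 _) (by norm_num)
      · rw [e2]
        have h5 := iter (j + 1) _ _ hA
        rw [mul_zero] at h5 ⊢
        exact h5
    · have h5 := iter j _ _ hA
      rw [mul_zero] at h5
      have e2 : -1 * (2 * (4 : ℤ) ^ j) = 4 ^ j * (-2) := by ring
      rw [e2]
      exact h5
  · exact cm j e he
  · have e2 : (e * (2 * (2 : ℤ) ^ j)) ^ 2 - 4 * (2 * 4 ^ j) = -4 ^ (j + 1) := by
      rw [mul_pow, hsq, s4, h4 j]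
      ring
    refine hiso _ _ (mul_ne_zero two_ne_zero (p4 j)) ?_ ?_
    · rw [e2]
      exact neg_ne_zero.2 (p4 _)
    · rw [e2]
      have h5 := cm (j + 1) (-e) he'
      have e1 : -2 * (e * (2 * (2 : ℤ) ^ j)) = -e * (2 * 2 ^ (j + 1)) := by
        rw [s2]
        ring
      rw [e1]
      exact h5
  · have h5 := sg e _ _ he (iter j _ _ h3)
    have e1 : e * (3 * (2 : ℤ) ^ j) = e * (2 ^ j * 3) := by ring
    have e2 : (2 : ℤ) * 4 ^ j = 4 ^ j * 2 := by ring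
    rw [e1, e2]
    exact h5
  · have e2 : (e * (6 * (2 : ℤ) ^ j)) ^ 2 - 4 * 4 ^ j = 4 ^ (j + 2) * 2 := by
      have e3 : (4 : ℤ) ^ (j + 2) = 16 * 4 ^ j := by ring
      rw [mul_pow, hsq, e3, h4 j]
      ring
    refine hiso _ _ (p4 j) ?_ ?_
    · rw [e2]
      exact mul_ne_zero (p4 _) two_ne_zero
    · rw [e2]
      have h5 := sg (-e) _ _ he' (iter (j + 2) _ _ h3)
      have e1 : -2 * (e * (6 * (2 : ℤ) ^ j)) = -e * (2 ^ (j + 2) * 3) := by ring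
      rw [e1]
      exact h5
  · have h5 := sg e _ _ he (iter j _ _ hB)
    have e1 : e * (4 * (2 : ℤ) ^ j) = e * (2 ^ j * 4) := by ring
    have e2 : (2 : ℤ) * 4 ^ j = 4 ^ j * 2 := by ring
    rw [e1, e2]
    exact h5

end Pool.Agent.Work.MP_787500_nt.GO
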