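import Mathlib
import Pool.Agent.Work.MP_787500_nt.GO.ClDef
import Pool.Agent.Work.MP_787500_nt.RS.Isog
import Pool.Agent.Work.MP_787500_nt.RS.Isom

/-!
# Module ClC: the isogeny of degree two over a field without the two-torsion

`F` of characteristic zero. Over `Ω = AlgebraicClosure F` there are roots `e2, e3` of `x^2 + a x + b` (distinct, not zero: `e2 + e3 = -a`,
`e2 e3 = b`, `(e2 - e3)^2 = a^2 - 4b`), and `d` with `d^2 = b = (0 - e2)(0 - e3)`; the curve `cv (-2a) (a^2-4b)` has the points of order two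
with `f1 = 0`, `f2 = a + 2 d`, `f3 = a - 2 d` (`f2 + f3 = 2a`, `f2 f3 = a^2 - 4b`). `RS.IsogData 0 e2 e3 0 f2 f3 d 1`, and
`RS.exists_isog` gives `φ` over `Ω` with `φ (x, y) = (y^2/x^2, y (b - x^2)/x^2)` for `x ≠ 0` and `φ (0,0) = 0` (`isogX`, `isogY`). The coefficients are in
`F`, so `φ` maps the image of the points over `F` (`Point.map` of the inclusion `F → Ω`, injective) into the image of the points over `F`
(`P = (x, y)` over `F`, `x ≠ 0`: the formula with `x, y ∈ F` is a point over `F`, `Point.map` of it is `φ (ι P)`; nonsingularity over `F` from the one over `Ω`,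
`baseChange_nonsingular`, compare `finrank_iso` in HD/FnC). Define the homomorphism over `F` by the preimage (`AddMonoidHom.codRestrict`
to the range and `AddMonoidHom.ofInjective`). Its kernel: `φ (ι P) = 0` only for `P = 0` or `x = 0` (then `y = 0`), so `P + P = 0`.
(`cv a b` over `F` and its base change: `cv_baseChange`; `(cv a b)⁄F = cv a b` by `ext <;> simp [cv]`.)
-/

set_option autoImplicit false

namespace Pool.Agent.Work.MP_787500_nt.GO

open WithZero IsDedekindDomain NumberField WeierstrassCurve WeierstrassCurve.Affine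

universe u

variable {F : Type u} [Field F] [CharZero F]

omit [CharZero F] in
private theorem cv_self (a b : F) : ((cv a b)⁄F) = cv a b := by
  ext <;> simp [cv]

private theorem cv_nonsingular {a b x y : F} (hb : b ≠ 0) (hab : a ^ 2 - 4 * b ≠ 0)
    (h : (cv a b).Equation x y) : (cv a b).Nonsingular x y := by
  have hE : (cv a b).IsElliptic := by
    rw [isElliptic_iff, isUnit_iff_ne_zero]
    have e : (cv a b).Δ = 16 * b ^ 2 * (a ^ 2 - 4 * b) := by
      simp only [Δ, b₂, b₄, b₆, b₈, cv]
      ring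
    rw [e]
    exact mul_ne_zero (mul_ne_zero (by norm_num) (pow_ne_zero 2 hb)) hab
  exact equation_iff_nonsingular.1 h

private theorem img_nonsingular {a b x y : F} (hb : b ≠ 0) (hab : a ^ 2 - 4 * b ≠ 0)
    (h : ((cv a b)⁄F).Nonsingular x y) (hx : x ≠ 0) :
    ((cv (-2 * a) (a ^ 2 - 4 * b))⁄F).Nonsingular (y ^ 2 / x ^ 2)
      (y * (b - x ^ 2) / x ^ 2) := by
  rw [cv_self] at h ⊢
  apply cv_nonsingular hab
  · have e : (-2 * a) ^ 2 - 4 * (a ^ 2 - 4 * b) = 16 * b := by ring
    rw [e]
    exact mul_ne_zero (by norm_num) hb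
  · rw [cv_equation]
    have h5 := (cv_equation a b x y).1 h.1
    have h6 : y ^ 2 / x ^ 2 = (x ^ 2 + a * x + b) / x := by
      rw [h5]
      field_simp
    have h7 : (y * (b - x ^ 2) / x ^ 2) ^ 2 = (y ^ 2 / x ^ 2) * (b - x ^ 2) ^ 2 / x ^ 2 := by
      field_simp
    rw [h7, h6]
    field_simp
    ring

open scoped Classical in
/-- the isogeny over `F` as a map of sets -/
private noncomputable def ph {a b : F} (hb : b ≠ 0) (hab : a ^ 2 - 4 * b ≠ 0) :
    ((cv a b)⁄F).Point → ((cv (-2 * a) (a ^ 2 - 4 * b))⁄F).Point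
  | .zero => 0
  | .some x _ hn => if hx : x = 0 then 0 else .some _ _ (img_nonsingular hb hab hn hx)

open scoped Classical in
private theorem ph_of_eq {a b : F} (hb : b ≠ 0) (hab : a ^ 2 - 4 * b ≠ 0) {x y : F}
    (hn : ((cv a b)⁄F).Nonsingular x y) (hx : x = 0) : ph hb hab (.some x y hn) = 0 :=
  dif_pos hx

open scoped Classical in
private theorem ph_of_ne {a b : F} (hb : b ≠ 0) (hab : a ^ 2 - 4 * b ≠ 0) {x y : F}
    (hn : ((cv a b)⁄F).Nonsingular x y) (hx : x ≠ 0) :
    ph hb hab (.some x y hn) = .some _ _ (img_nonsingular hb hab hn hx) :=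
  dif_neg hx

open scoped Classical in
/-- comparison with the isogeny over the algebraic closure -/
private theorem ph_map {a b : F} (hb : b ≠ 0) (hab : a ^ 2 - 4 * b ≠ 0)
    {e2 e3 f2 f3 d : AlgebraicClosure F}
    (h : TwoTors ((cv a b)⁄(AlgebraicClosure F)) 0 e2 e3)
    (h' : TwoTors ((cv (-2 * a) (a ^ 2 - 4 * b))⁄(AlgebraicClosure F)) 0 f2 f3)
    (D : RS.IsogData 0 e2 e3 0 f2 f3 d 1)
    (he : e2 * e3 = algebraMap F (AlgebraicClosure F) b) (P : ((cv a b)⁄F).Point) :
    Point.map (W' := cv (-2 * a) (a ^ 2 - 4 * b)) (Algebra.ofId F (AlgebraicClosure F))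
        (ph hb hab P) =
      RS.isogFun h h' D
        (Point.map (W' := cv a b) (Algebra.ofId F (AlgebraicClosure F)) P) := by
  rcases P with _ | ⟨x, y, hn⟩
  · rfl
  · by_cases hx : x = 0
    · rw [ph_of_eq hb hab hn hx, map_zero, Point.map_some, RS.isogFun_of_eq]
      rw [hx]
      exact map_zero _
    · have hx' : Algebra.ofId F (AlgebraicClosure F) x ≠ 0 :=
        (map_ne_zero (algebraMap F (AlgebraicClosure F))).2 hx
      rw [ph_of_ne hb hab hn hx, Point.map_some, Point.map_some, RS.isogFun_some h h' D _ hx',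
        Point.some.injEq]
      have e : ∀ t : F, Algebra.ofId F (AlgebraicClosure F) t =
        algebraMap F (AlgebraicClosure F) t := fun t => rfl
      constructor
      · rw [RS.isogX, e, e, e, map_div₀, map_pow, map_pow]
        ring
      · rw [RS.isogY, e, e, e, map_div₀, map_mul, map_sub, map_pow, ← he]
        ring

open scoped Classical in
private theorem dom_self {a b : F} (hb : b ≠ 0) (hab : a ^ 2 - 4 * b ≠ 0) :
    Dom ((cv a b)⁄F).Point ((cv (-2 * a) (a ^ 2 - 4 * b))⁄F).Point := by
  set am := algebraMap F (AlgebraicClosure F) with ham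
  obtain ⟨r, hr⟩ := IsAlgClosed.exists_pow_nat_eq (am (a ^ 2 - 4 * b)) (n := 2) (by norm_num)
  obtain ⟨d, hd⟩ := IsAlgClosed.exists_pow_nat_eq (am b) (n := 2) (by norm_num)
  have hr0 : r ≠ 0 := by
    rintro rfl
    rw [zero_pow two_ne_zero] at hr
    exact (map_ne_zero am).2 hab hr.symm
  have hd0 : d ≠ 0 := by
    rintro rfl
    rw [zero_pow two_ne_zero] at hd
    exact (map_ne_zero am).2 hb hd.symm
  have hr' : r ^ 2 = am a ^ 2 - 4 * am b := by
    rw [hr, map_sub, map_pow, map_mul, map_ofNat]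
  have he : ((-am a + r) / 2) * ((-am a - r) / 2) = am b := by
    field_simp
    linear_combination -hr'
  have h : TwoTors ((cv a b)⁄(AlgebraicClosure F)) 0 ((-am a + r) / 2) ((-am a - r) / 2) := by
    refine cv_twoTors' ?_ he hb ?_
    · rw [← ham]
      ring
    · intro h0
      apply hr0
      linear_combination h0
  have h' : TwoTors ((cv (-2 * a) (a ^ 2 - 4 * b))⁄(AlgebraicClosure F)) 0
      (am a + 2 * d) (am a - 2 * d) := by
    refine cv_twoTors' ?_ ?_ hab ?_
    · rw [← ham, map_mul, map_neg, map_ofNat]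
      ring
    · rw [← ham, map_sub, map_pow, map_mul, map_ofNat]
      linear_combination -4 * hd
    · intro h0
      apply hd0
      linear_combination h0 / 4
  have D : RS.IsogData 0 ((-am a + r) / 2) ((-am a - r) / 2) 0 (am a + 2 * d) (am a - 2 * d) d 1 :=
    ⟨by rw [hd, ← he]; ring, one_ne_zero, by ring, by ring⟩
  have key := ph_map hb hab h h' D he
  have hinj := Point.map_injective (W' := cv (-2 * a) (a ^ 2 - 4 * b))
    (Algebra.ofId F (AlgebraicClosure F))
  refine ⟨⟨⟨ph hb hab, rfl⟩, ?_⟩, ?_⟩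
  · intro P Q
    apply hinj
    show Point.map (W' := cv (-2 * a) (a ^ 2 - 4 * b)) (Algebra.ofId F (AlgebraicClosure F))
      (ph hb hab (P + Q)) = Point.map (W' := cv (-2 * a) (a ^ 2 - 4 * b))
      (Algebra.ofId F (AlgebraicClosure F)) (ph hb hab P + ph hb hab Q)
    rw [map_add, key, key, key, map_add, RS.isogFun_add]
  · intro P hP
    change ph hb hab P = 0 at hP
    rcases P with _ | ⟨x, y, hn⟩
    · rfl
    · by_cases hx : x = 0
      · have hy : y = 0 := by
          have hE := hn.1
          rw [cv_self, cv_equation, hx] at hE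
          have : y ^ 2 = 0 := by rw [hE]; ring
          exact pow_eq_zero_iff (two_ne_zero) |>.1 this
        apply Point.add_self_of_Y_eq
        rw [cv_self, negY, cv, hy]
        ring
      · rw [ph_of_ne hb hab hn hx] at hP
        exact absurd hP (Point.some_ne_zero _)

open scoped Classical in
theorem isog_dom {a b : F} (hb : b ≠ 0) (hab : a ^ 2 - 4 * b ≠ 0) :
    Dom (cv a b).Point (cv (-2 * a) (a ^ 2 - 4 * b)).Point := by
  have h := dom_self hb hab
  rw [cv_self, cv_self] at h
  exact h

end Pool.Agent.Work.MP_787500_nt.GO
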