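import Mathlib
import Pool.Agent.Work.MP_787500_nt.GO.ClDef
import Pool.Agent.Work.MP_787500_nt.RS.Isog
import Pool.Agent.Work.MP_787500_nt.RS.Isom

/-!
# Module ClD: scaling over the field, and the translation

`scale_equiv`: `(x, y) -> (d^2 x, d^3 y)`, `d ≠ 0`; over a field without the full two-torsion. Either directly (additivity as in `RS.exists_isom`, whose
proof can be copied: the slopes are multiplied by `d`), or over the algebraic closure by `RS.exists_isom` and restricted to the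
points over `F` as in module ClC. The inverse is given by `d⁻¹`.
`trans_equiv`: `RS.exists_isom` with `u = 1`, `r = 1` from `cv 3 2` (`TwoTors` with `0, -1, -2`) to `cv 0 (-1)` (`TwoTors` with `1, 0, -1`), and its
inverse with `r = -1`.
-/

set_option autoImplicit false

namespace Pool.Agent.Work.MP_787500_nt.GO

open WithZero IsDedekindDomain NumberField WeierstrassCurve WeierstrassCurve.Affine

universe u

variable {F : Type u} [Field F] [CharZero F]

private structure Tr (W W' : WeierstrassCurve.Affine F) (u r : F) : Prop where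
  a1 : W.a₁ = 0
  a3 : W.a₃ = 0
  a1' : W'.a₁ = 0
  a3' : W'.a₃ = 0
  hu : u ≠ 0
  h2 : W'.a₂ = u ^ 2 * W.a₂ - 3 * r
  h4 : W'.a₄ = u ^ 4 * W.a₄ - 2 * r * u ^ 2 * W.a₂ + 3 * r ^ 2
  h6 : W'.a₆ = u ^ 6 * W.a₆ - r * u ^ 4 * W.a₄ + r ^ 2 * u ^ 2 * W.a₂ - r ^ 3

variable {W W' : WeierstrassCurve.Affine F} {u r : F}

omit [CharZero F] in
private theorem Tr.negY (T : Tr W W' u r) (x y : F) : W.negY x y = -y := by
  rw [WeierstrassCurve.Affine.negY, T.a1, T.a3]
  ring

omit [CharZero F] in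
private theorem Tr.negY' (T : Tr W W' u r) (x y : F) : W'.negY x y = -y := by
  rw [WeierstrassCurve.Affine.negY, T.a1', T.a3']
  ring

omit [CharZero F] in
private theorem Tr.eqn (T : Tr W W' u r) (x y : F) :
    W'.Equation (u ^ 2 * x + r) (u ^ 3 * y) ↔ W.Equation x y := by
  rw [equation_iff, equation_iff, T.a1, T.a3, T.a1', T.a3', T.h2, T.h4, T.h6]
  constructor
  · intro h
    have h5 : u ^ 6 * (y ^ 2 + 0 * x * y + 0 * y - (x ^ 3 + W.a₂ * x ^ 2 + W.a₄ * x + W.a₆)) = 0 := by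
      linear_combination h
    exact sub_eq_zero.1 ((mul_eq_zero.1 h5).resolve_left (pow_ne_zero 6 T.hu))
  · intro h
    linear_combination u ^ 6 * h

omit [CharZero F] in
private theorem Tr.ns (T : Tr W W' u r) (x y : F) :
    W'.Nonsingular (u ^ 2 * x + r) (u ^ 3 * y) ↔ W.Nonsingular x y := by
  rw [nonsingular_iff, nonsingular_iff, T.eqn, T.a1, T.a3, T.a1', T.a3', T.h2, T.h4]
  refine and_congr Iff.rfl (or_congr (not_congr ?_) (not_congr ?_))
  · have e : 3 * (u ^ 2 * x + r) ^ 2 + 2 * (u ^ 2 * W.a₂ - 3 * r) * (u ^ 2 * x + r) +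
        (u ^ 4 * W.a₄ - 2 * r * u ^ 2 * W.a₂ + 3 * r ^ 2) =
        u ^ 4 * (3 * x ^ 2 + 2 * W.a₂ * x + W.a₄) := by ring
    rw [e, zero_mul, zero_mul]
    constructor
    · intro h
      exact ((mul_eq_zero.1 h.symm).resolve_left (pow_ne_zero 4 T.hu)).symm
    · intro h
      rw [← h, mul_zero]
  · constructor
    · intro h
      have h5 : u ^ 3 * (y - (-y - 0 * x - 0)) = 0 := by linear_combination h
      exact sub_eq_zero.1 ((mul_eq_zero.1 h5).resolve_left (pow_ne_zero 3 T.hu))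
    · intro h
      linear_combination u ^ 3 * h

open scoped Classical in
private theorem Tr.slope (T : Tr W W' u r) {x1 y1 x2 y2 : F} (n1 : W.Nonsingular x1 y1)
    (n2 : W.Nonsingular x2 y2) (hxy : ¬(x1 = x2 ∧ y1 = W.negY x2 y2)) :
    W'.slope (u ^ 2 * x1 + r) (u ^ 2 * x2 + r) (u ^ 3 * y1) (u ^ 3 * y2) =
      u * W.slope x1 x2 y1 y2 := by
  have hu := T.hu
  have q1 := n1.1
  have q2 := n2.1
  rw [equation_iff, T.a1, T.a3] at q1 q2
  by_cases hx : x1 = x2
  · subst hx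
    have hyn : y1 ≠ W.negY x1 y2 := fun hh => hxy ⟨rfl, hh⟩
    rw [T.negY] at hyn
    have hyy : y1 = y2 := by
      have : y1 = y2 ∨ y1 = -y2 := by
        apply sq_eq_sq_iff_eq_or_eq_neg.1
        linear_combination q1 - q2
      exact this.resolve_right hyn
    subst hyy
    have hy : y1 ≠ 0 := by
      intro h0
      apply hyn
      rw [h0, neg_zero]
    have h2y : (2 : F) * y1 ≠ 0 := mul_ne_zero two_ne_zero hy
    have hyn1 : y1 ≠ W.negY x1 y1 := by rw [T.negY]; exact hyn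
    have hyn2 : u ^ 3 * y1 ≠ W'.negY (u ^ 2 * x1 + r) (u ^ 3 * y1) := by
      rw [T.negY']
      intro hh
      have h5 : u ^ 3 * (2 * y1) = 0 := by linear_combination hh
      exact (mul_ne_zero (pow_ne_zero 3 hu) h2y) h5
    rw [slope_of_Y_ne rfl hyn2, slope_of_Y_ne rfl hyn1, T.negY', T.negY, T.a1', T.h2, T.h4,
      T.a1]
    have e1' : y1 - -y1 = 2 * y1 := by ring
    have e2' : u ^ 3 * y1 - -(u ^ 3 * y1) = u ^ 3 * (2 * y1) := by ring
    rw [e1', e2']
    field_simp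
    ring
  · have hx' : u ^ 2 * x1 + r ≠ u ^ 2 * x2 + r := by
      intro hh
      apply hx
      have h5 : u ^ 2 * (x1 - x2) = 0 := by linear_combination hh
      exact sub_eq_zero.1 ((mul_eq_zero.1 h5).resolve_left (pow_ne_zero 2 hu))
    have hx0 : x1 - x2 ≠ 0 := sub_ne_zero.2 hx
    rw [slope_of_X_ne hx', slope_of_X_ne hx]
    have e1' : u ^ 2 * x1 + r - (u ^ 2 * x2 + r) = u ^ 2 * (x1 - x2) := by ring
    rw [e1']
    field_simp

open scoped Classical in
private theorem Tr.hom (T : Tr W W' u r) :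
    ∃ φ : W.Point →+ W'.Point, φ.toFun 0 = 0 ∧ ∀ (x y : F) (hn : W.Nonsingular x y),
      φ (Point.some x y hn) = Point.some (u ^ 2 * x + r) (u ^ 3 * y) ((T.ns x y).2 hn) := by
  have hu := T.hu
  let f : W.Point → W'.Point := fun P => match P with
    | .zero => .zero
    | .some x y hn => .some (u ^ 2 * x + r) (u ^ 3 * y) ((T.ns x y).2 hn)
  have f0 : f 0 = 0 := rfl
  have fs : ∀ (x y : F) (hn : W.Nonsingular x y), f (Point.some x y hn) =
      Point.some (u ^ 2 * x + r) (u ^ 3 * y) ((T.ns x y).2 hn) := fun _ _ _ => rfl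
  refine ⟨⟨⟨f, f0⟩, ?_⟩, f0, fs⟩
  intro P Q
  show f (P + Q) = f P + f Q
  rcases P with _ | ⟨x1, y1, n1⟩
  · rw [← Point.zero_def, zero_add, f0, zero_add]
  rcases Q with _ | ⟨x2, y2, n2⟩
  · rw [← Point.zero_def, add_zero, f0, add_zero]
  by_cases hxy : x1 = x2 ∧ y1 = W.negY x2 y2
  · obtain ⟨hx, hy⟩ := hxy
    rw [Point.add_of_Y_eq hx hy, f0, fs x1 y1 n1, fs x2 y2 n2]
    symm
    apply Point.add_of_Y_eq
    · rw [hx]
    · rw [T.negY', hy, T.negY]; ring
  · have hxy' : ¬(u ^ 2 * x1 + r = u ^ 2 * x2 + r ∧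
        u ^ 3 * y1 = W'.negY (u ^ 2 * x2 + r) (u ^ 3 * y2)) := by
      rintro ⟨hh1, hh2⟩
      apply hxy
      constructor
      · have h5 : u ^ 2 * (x1 - x2) = 0 := by linear_combination hh1
        exact sub_eq_zero.1 ((mul_eq_zero.1 h5).resolve_left (pow_ne_zero 2 hu))
      · rw [T.negY'] at hh2
        rw [T.negY]
        have h5 : u ^ 3 * (y1 + y2) = 0 := by linear_combination hh2
        have h6 := (mul_eq_zero.1 h5).resolve_left (pow_ne_zero 3 hu)
        linear_combination h6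
    have hs := T.slope n1 n2 hxy
    rw [Point.add_some hxy, fs x1 y1 n1, fs x2 y2 n2, fs _ _ (nonsingular_add n1 n2 hxy),
      Point.add_some hxy']
    simp only [Point.some.injEq]
    rw [addX, addX, addY, addY, negAddY, negAddY, addX, addX, hs, T.negY, T.negY', T.a1, T.a1',
      T.h2]
    constructor <;> ring

open scoped Classical in
private theorem Tr.equiv (T : Tr W W' u r) : Nonempty (W.Point ≃+ W'.Point) := by
  have hu := T.hu
  obtain ⟨φ, h0, hφ⟩ := T.hom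
  refine ⟨AddEquiv.ofBijective φ ⟨?_, ?_⟩⟩
  · rw [injective_iff_map_eq_zero]
    intro P hP
    rcases P with _ | ⟨x, y, hn⟩
    · rfl
    · rw [hφ] at hP
      exact absurd hP (by simp [Point.zero_def])
  · intro Q
    rcases Q with _ | ⟨x, y, hn⟩
    · exact ⟨0, h0⟩
    · have ex : u ^ 2 * ((x - r) / u ^ 2) + r = x := by
        rw [mul_div_cancel₀ _ (pow_ne_zero 2 hu)]
        ring
      have ey : u ^ 3 * (y / u ^ 3) = y := mul_div_cancel₀ _ (pow_ne_zero 3 hu)
      have hn' : W.Nonsingular ((x - r) / u ^ 2) (y / u ^ 3) := by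
        rw [← T.ns, ex, ey]
        exact hn
      refine ⟨Point.some _ _ hn', ?_⟩
      rw [hφ]
      simp only [Point.some.injEq]
      exact ⟨ex, ey⟩

open scoped Classical in
theorem scale_equiv (a b : F) (hb : b ≠ 0) (hab : a ^ 2 - 4 * b ≠ 0) {d : F} (hd : d ≠ 0) :
    Nonempty ((cv a b).Point ≃+ (cv (d ^ 2 * a) (d ^ 4 * b)).Point) := by
  refine Tr.equiv (u := d) (r := 0) ⟨rfl, rfl, rfl, rfl, hd, ?_, ?_, ?_⟩
  · show d ^ 2 * a = d ^ 2 * a - 3 * 0
    ring
  · show d ^ 4 * b = d ^ 4 * b - 2 * 0 * d ^ 2 * a + 3 * 0 ^ 2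
    ring
  · show (0 : F) = d ^ 6 * 0 - 0 * d ^ 4 * b + 0 ^ 2 * d ^ 2 * a - 0 ^ 3
    ring

open scoped Classical in
theorem trans_equiv : Nonempty ((cv (3 : F) 2).Point ≃+ (cv (0 : F) (-1)).Point) := by
  refine Tr.equiv (u := 1) (r := 1) ⟨rfl, rfl, rfl, rfl, one_ne_zero, ?_, ?_, ?_⟩
  · show (0 : F) = 1 ^ 2 * 3 - 3 * 1
    ring
  · show (-1 : F) = 1 ^ 4 * 2 - 2 * 1 * 1 ^ 2 * 3 + 3 * 1 ^ 2
    ring
  · show (0 : F) = 1 ^ 6 * 0 - 1 * 1 ^ 4 * 2 + 1 ^ 2 * 1 ^ 2 * 3 - 1 ^ 3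
    ring

end Pool.Agent.Work.MP_787500_nt.GO
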