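import Mathlib
import Pool.Agent.Work.MP_787500_nt.GO.ClDef

/-!
# Module ClF: groups that map to each other with small kernels

`A → B` with kernel killed by 2, `B` finitely generated: `A` is finitely generated (the image is a subgroup of a finitely generated abelian
group; the kernel is a subgroup of exponent 2 - not enough by itself: use BOTH maps or the following: `A` finitely generated iff ...). Simplest: hypothesis
that `B` is finitely generated, maps in both directions. `φ : A → B`, `ψ : B → A`. The kernel of `φ` must be finite: hypothesis `hK`.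
So: `A` is an extension of a finitely generated group by a finite group (`Module.Finite.of_submodule_quotient` or
`AddGroup.fg_of_...`; for modules over `ℤ`: `Submodule.fg_of_fg_map_of_fg_inf_ker`). The ranks: `finrank A = finrank (range φ) ≤ finrank B` (kernel torsion:
`LinearMap.rank_range_add_rank_ker`, see `finrank_split` in HD/TwQ.lean) and symmetrically.
-/

set_option autoImplicit false

namespace Pool.Agent.Work.MP_787500_nt.GO

open WithZero IsDedekindDomain NumberField WeierstrassCurve WeierstrassCurve.Affine

universe u

theorem fg_of_dom {A B : Type*} [AddCommGroup A] [AddCommGroup B] (hA : {P : A | P + P = 0}.Finite)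
    (h : Dom A B) (hB : AddGroup.FG B) : AddGroup.FG A := by
  obtain ⟨φ, hφ⟩ := h
  have hB' : Module.Finite ℤ B := Module.Finite.iff_addGroup_fg.2 hB
  rw [← Module.Finite.iff_addGroup_fg]
  have hfin : Finite (LinearMap.ker φ.toIntLinearMap) := by
    refine (hA.subset ?_).to_subtype
    intro P hP
    exact hφ P hP
  refine ⟨Submodule.fg_of_fg_map_of_fg_inf_ker φ.toIntLinearMap ?_ ?_⟩
  · exact IsNoetherian.noetherian _
  · rw [top_inf_eq]
    exact Module.Finite.iff_fg.1 Module.Finite.of_finite

theorem finrank_le_of_dom {A B : Type*} [AddCommGroup A] [AddCommGroup B] (h : Dom A B)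
    (hB : AddGroup.FG B) : Module.finrank ℤ A ≤ Module.finrank ℤ B := by
  obtain ⟨φ, hφ⟩ := h
  have hB' : Module.Finite ℤ B := Module.Finite.iff_addGroup_fg.2 hB
  have hk : Module.rank ℤ (LinearMap.ker φ.toIntLinearMap) = 0 := by
    rw [rank_eq_zero_iff]
    intro x
    refine ⟨2, two_ne_zero, ?_⟩
    have h1 := hφ x.1 x.2
    ext
    rw [two_smul]
    exact h1
  have h1 := LinearMap.lift_rank_range_add_rank_ker φ.toIntLinearMap
  rw [hk, Cardinal.lift_zero, add_zero] at h1
  have h2 := congrArg Cardinal.toNat h1
  rw [Cardinal.toNat_lift, Cardinal.toNat_lift] at h2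
  have h3 : Module.finrank ℤ (LinearMap.range φ.toIntLinearMap) = Module.finrank ℤ A := h2
  rw [← h3]
  exact Submodule.finrank_le _

theorem dom_of_equiv {A B : Type*} [AddCommGroup A] [AddCommGroup B] (e : A ≃+ B) : Dom A B := by
  refine ⟨e.toAddMonoidHom, fun P hP => ?_⟩
  have h : P = 0 := (AddEquiv.map_eq_zero_iff e).1 hP
  rw [h, add_zero]

end Pool.Agent.Work.MP_787500_nt.GO
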