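import Mathlib
import Pool.Agent.Work.MP_787500_nt.GO.ClDef

/-!
# Module ClG: finitely many points of order two

A point `(x, y)` with `2 (x, y) = 0` has `y = negY x y = -y` (`Point.add_eq_zero`, or `P = -P`), so `y = 0` and `x` is a root of `x^3 + a x^2 + b x`: finitely many
(`cv_equation`; `Polynomial.card_roots`, or: `x = 0` or `x^2 + a x + b = 0`).
-/

set_option autoImplicit false

namespace Pool.Agent.Work.MP_787500_nt.GO

open WithZero IsDedekindDomain NumberField WeierstrassCurve WeierstrassCurve.Affine

universe u

private theorem clg_roots {F : Type u} [Field F] (a b : F) :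
    {x : F | x ^ 3 + a * x ^ 2 + b * x = 0}.Finite := by
  have h : {x : F | x ^ 3 + a * x ^ 2 + b * x = 0} ⊆ {0} ∪ {x : F | x ^ 2 + a * x + b = 0} := by
    intro x hx
    have h1 : x * (x ^ 2 + a * x + b) = 0 := by
      have : x ^ 3 + a * x ^ 2 + b * x = 0 := hx
      linear_combination this
    rcases mul_eq_zero.1 h1 with h2 | h2
    · exact Or.inl h2
    · exact Or.inr h2
  refine Set.Finite.subset ((Set.finite_singleton 0).union ?_) h
  by_cases hr : ∃ r : F, r ^ 2 + a * r + b = 0
  · obtain ⟨r, hr⟩ := hr
    refine Set.Finite.subset ((Set.finite_singleton r).union (Set.finite_singleton (-a - r))) ?_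
    intro x hx
    have hx' : x ^ 2 + a * x + b = 0 := hx
    have h1 : (x - r) * (x - (-a - r)) = 0 := by linear_combination hx' - hr
    rcases mul_eq_zero.1 h1 with h2 | h2
    · exact Or.inl (sub_eq_zero.1 h2)
    · exact Or.inr (sub_eq_zero.1 h2)
  · refine Set.Finite.subset Set.finite_empty ?_
    intro x hx
    exact hr ⟨x, hx⟩

private noncomputable def clgX {F : Type u} [Field F] {W : WeierstrassCurve.Affine F} :
    W.Point → Option F
  | .zero => none
  | .some x _ _ => some x

open scoped Classical in
private theorem clg_two {F : Type u} [Field F] [CharZero F] (a b : F) {x y : F}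
    (h : (cv a b).Nonsingular x y) (hP : Point.some x y h + Point.some x y h = 0) :
    y = 0 ∧ x ^ 3 + a * x ^ 2 + b * x = 0 := by
  have h1 : Point.some x y h = -Point.some x y h := eq_neg_of_add_eq_zero_left hP
  rw [Point.neg_some] at h1
  have h2 : y = (cv a b).negY x y := by
    injection h1
  have h3 : (cv a b).negY x y = -y := by
    simp [WeierstrassCurve.Affine.negY, cv]
  rw [h3] at h2
  have hy : y = 0 := by
    have : (2 : F) * y = 0 := by linear_combination h2
    rcases mul_eq_zero.1 this with h4 | h4
    · exact absurd h4 two_ne_zero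
    · exact h4
  refine ⟨hy, ?_⟩
  have h5 := (WeierstrassCurve.Affine.equation_iff _ _).1 h.1
  simp only [cv] at h5
  rw [hy] at h5
  linear_combination -h5

open scoped Classical in
theorem finite_two {F : Type u} [Field F] [CharZero F] (a b : F) (hb : b ≠ 0)
    (hab : a ^ 2 - 4 * b ≠ 0) : {P : (cv a b).Point | P + P = 0}.Finite := by
  refine Set.Finite.of_injOn (f := clgX)
    (t := {none} ∪ some '' {x : F | x ^ 3 + a * x ^ 2 + b * x = 0}) ?_ ?_
    ((Set.finite_singleton none).union ((clg_roots a b).image some))
  · rintro (_ | ⟨x, y, h⟩) hP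
    · exact Or.inl rfl
    · exact Or.inr ⟨x, (clg_two a b h hP).2, rfl⟩
  · rintro (_ | ⟨x, y, h⟩) hP (_ | ⟨x', y', h'⟩) hP' heq
    · rfl
    · cases heq
    · cases heq
    · have hx : x = x' := Option.some.inj heq
      have hy := (clg_two a b h hP).1
      have hy' := (clg_two a b h' hP').1
      subst hx hy hy'
      rfl

end Pool.Agent.Work.MP_787500_nt.GO
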