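import Mathlib
import Pool.Agent.Work.MP_787500_nt.GO.ClC
import Pool.Agent.Work.MP_787500_nt.GO.ClD
import Pool.Agent.Work.MP_787500_nt.GO.ClF
import Pool.Agent.Work.MP_787500_nt.GO.ClG

/-!
# Module ClH: the rank is invariant under the isogeny

`isog_dom` for `(a, b)` gives `Dom E E'`, `E' = cv (-2a) (a^2-4b)`; `isog_dom` for `(-2a, a^2-4b)` gives `Dom E' (cv (4a) (16 b))`
(`4 a^2 - 4 (a^2 - 4b) = 16 b`), and `cv (4a) (16b) ≃ cv a b` by `scale_equiv` with `d = 2`. Compose (`Dom` and an equivalence). Hypothesis: `E'` is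
finitely generated; then `E` is (`fg_of_dom`, `finite_two`), and the ranks are equal (`finrank_le_of_dom` twice).
-/

set_option autoImplicit false

namespace Pool.Agent.Work.MP_787500_nt.GO

open WithZero IsDedekindDomain NumberField WeierstrassCurve WeierstrassCurve.Affine

universe u

open scoped Classical in
theorem isog_rank {F : Type u} [Field F] [CharZero F] {a b : F} (hb : b ≠ 0)
    (hab : a ^ 2 - 4 * b ≠ 0) (hfg : AddGroup.FG (cv (-2 * a) (a ^ 2 - 4 * b)).Point) :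
    AddGroup.FG (cv a b).Point ∧ Module.finrank ℤ (cv a b).Point =
      Module.finrank ℤ (cv (-2 * a) (a ^ 2 - 4 * b)).Point := by
  have h1 := isog_dom hb hab
  have hfgE := fg_of_dom (finite_two a b hb hab) h1 hfg
  refine ⟨hfgE, le_antisymm (finrank_le_of_dom h1 hfg) ?_⟩
  have e16 : (-2 * a) ^ 2 - 4 * (a ^ 2 - 4 * b) = 2 ^ 4 * b := by ring
  have e4 : -2 * (-2 * a) = 2 ^ 2 * a := by ring
  have hb16 : (-2 * a) ^ 2 - 4 * (a ^ 2 - 4 * b) ≠ 0 := by
    rw [e16]
    exact mul_ne_zero (pow_ne_zero 4 two_ne_zero) hb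
  have h2 := isog_dom (a := -2 * a) (b := a ^ 2 - 4 * b) hab hb16
  rw [e16, e4] at h2
  obtain ⟨e⟩ := scale_equiv a b hb hab (two_ne_zero : (2 : F) ≠ 0)
  obtain ⟨φ, hφ⟩ := h2
  refine finrank_le_of_dom ⟨(e.symm : (cv (2 ^ 2 * a) (2 ^ 4 * b)).Point →+ (cv a b).Point).comp φ,
    fun P hP => hφ P ?_⟩ hfgE
  have h3 : e.symm (φ P) = 0 := hP
  exact (map_eq_zero_iff e.symm e.symm.injective).1 h3

end Pool.Agent.Work.MP_787500_nt.GO
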