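import Mathlib
import Pool.Agent.Work.MP_787500_nt.GO.ClDef
import Pool.Agent.Work.MP_787500_nt.HD.TwQ
import Pool.Agent.Work.MP_787500_nt.RS.Isom
import Pool.Agent.Work.MP_787500_nt.RS.RankSplit

/-!
# Module ClE: quadratic twist

`F'/F` quadratic, `δ ∈ F'`, `δ^2 = d ∈ F`, `δ ∉ F`. As `HD.finrank_twist` (HD/TwQ.lean, copy its private lemmas), for the curve `cv a b` over `F` instead
of `y^2 = x^3 - x`. `A` = the points over `F'`, `g` the nontrivial automorphism; `B = {g P = P}` = the points over `F`, `B' = {g P = -P}` is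
isomorphic to the points of `cv (d a) (d^2 b)` over `F` by `(x, y) -> (d x, d δ y)`, the restriction of the isomorphism `(x,y) -> (δ^2 x, δ^3 y)` over `F'`
(`RS.exists_isom` needs the two-torsion over the field: pass to the algebraic closure of `F'`, or use `ClD.scale_equiv`-type isomorphism;
all that is needed of it: it is additive, and the formula). `2 A ⊆ B + B'`, `B ∩ B'` is killed by 2.
The second claim: `E^(d)(F)` embeds into the finitely generated group `A` (subgroups of finitely generated abelian groups are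
finitely generated), and so does `E(F)`.
-/

set_option autoImplicit false

namespace Pool.Agent.Work.MP_787500_nt.GO

open WithZero IsDedekindDomain NumberField WeierstrassCurve WeierstrassCurve.Affine

universe u

section trans

variable {F : Type u} [Field F] [CharZero F]

private structure Tr (W W' : WeierstrassCurve.Affine F) (u r : F) : Prop where
  a1 : W.a₁ = 0
  a3 : W.a₃ = 0
  a1' : W'.a₁ = 0
  a3' : W'.a₃ = 0
  hu : u ≠ 0
  h2 : W'.a₂ = u ^ 2 * W.a₂ - 3 * r
  h4 : W'.a₄ = u ^ 4 * W.a₄ - 2 * r * u ^ 2 * W.a₂ + 3 * r ^ 2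
  h6 : W'.a₆ = u ^ 6 * W.a₆ - r * u ^ 4 * W.a₄ + r ^ 2 * u ^ 2 * W.a₂ - r ^ 3

variable {W W' : WeierstrassCurve.Affine F} {u r : F}

omit [CharZero F] in
private theorem Tr.negY (T : Tr W W' u r) (x y : F) : W.negY x y = -y := by
  rw [WeierstrassCurve.Affine.negY, T.a1, T.a3]
  ring

omit [CharZero F] in
private theorem Tr.negY' (T : Tr W W' u r) (x y : F) : W'.negY x y = -y := by
  rw [WeierstrassCurve.Affine.negY, T.a1', T.a3']
  ring

omit [CharZero F] in
private theorem Tr.eqn (T : Tr W W' u r) (x y : F) :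
    W'.Equation (u ^ 2 * x + r) (u ^ 3 * y) ↔ W.Equation x y := by
  rw [equation_iff, equation_iff, T.a1, T.a3, T.a1', T.a3', T.h2, T.h4, T.h6]
  constructor
  · intro h
    have h5 : u ^ 6 * (y ^ 2 + 0 * x * y + 0 * y - (x ^ 3 + W.a₂ * x ^ 2 + W.a₄ * x + W.a₆)) = 0 := by
      linear_combination h
    exact sub_eq_zero.1 ((mul_eq_zero.1 h5).resolve_left (pow_ne_zero 6 T.hu))
  · intro h
    linear_combination u ^ 6 * h

omit [CharZero F] in
private theorem Tr.ns (T : Tr W W' u r) (x y : F) :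
    W'.Nonsingular (u ^ 2 * x + r) (u ^ 3 * y) ↔ W.Nonsingular x y := by
  rw [nonsingular_iff, nonsingular_iff, T.eqn, T.a1, T.a3, T.a1', T.a3', T.h2, T.h4]
  refine and_congr Iff.rfl (or_congr (not_congr ?_) (not_congr ?_))
  · have e : 3 * (u ^ 2 * x + r) ^ 2 + 2 * (u ^ 2 * W.a₂ - 3 * r) * (u ^ 2 * x + r) +
        (u ^ 4 * W.a₄ - 2 * r * u ^ 2 * W.a₂ + 3 * r ^ 2) =
        u ^ 4 * (3 * x ^ 2 + 2 * W.a₂ * x + W.a₄) := by ring
    rw [e, zero_mul, zero_mul]
    constructor
    · intro h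
      exact ((mul_eq_zero.1 h.symm).resolve_left (pow_ne_zero 4 T.hu)).symm
    · intro h
      rw [← h, mul_zero]
  · constructor
    · intro h
      have h5 : u ^ 3 * (y - (-y - 0 * x - 0)) = 0 := by linear_combination h
      exact sub_eq_zero.1 ((mul_eq_zero.1 h5).resolve_left (pow_ne_zero 3 T.hu))
    · intro h
      linear_combination u ^ 3 * h

open scoped Classical in
private theorem Tr.slope (T : Tr W W' u r) {x1 y1 x2 y2 : F} (n1 : W.Nonsingular x1 y1)
    (n2 : W.Nonsingular x2 y2) (hxy : ¬(x1 = x2 ∧ y1 = W.negY x2 y2)) :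
    W'.slope (u ^ 2 * x1 + r) (u ^ 2 * x2 + r) (u ^ 3 * y1) (u ^ 3 * y2) =
      u * W.slope x1 x2 y1 y2 := by
  have hu := T.hu
  have q1 := n1.1
  have q2 := n2.1
  rw [equation_iff, T.a1, T.a3] at q1 q2
  by_cases hx : x1 = x2
  · subst hx
    have hyn : y1 ≠ W.negY x1 y2 := fun hh => hxy ⟨rfl, hh⟩
    rw [T.negY] at hyn
    have hyy : y1 = y2 := by
      have : y1 = y2 ∨ y1 = -y2 := by
        apply sq_eq_sq_iff_eq_or_eq_neg.1
        linear_combination q1 - q2
      exact this.resolve_right hyn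
    subst hyy
    have hy : y1 ≠ 0 := by
      intro h0
      apply hyn
      rw [h0, neg_zero]
    have h2y : (2 : F) * y1 ≠ 0 := mul_ne_zero two_ne_zero hy
    have hyn1 : y1 ≠ W.negY x1 y1 := by rw [T.negY]; exact hyn
    have hyn2 : u ^ 3 * y1 ≠ W'.negY (u ^ 2 * x1 + r) (u ^ 3 * y1) := by
      rw [T.negY']
      intro hh
      have h5 : u ^ 3 * (2 * y1) = 0 := by linear_combination hh
      exact (mul_ne_zero (pow_ne_zero 3 hu) h2y) h5
    rw [slope_of_Y_ne rfl hyn2, slope_of_Y_ne rfl hyn1, T.negY', T.negY, T.a1', T.h2, T.h4,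
      T.a1]
    have e1' : y1 - -y1 = 2 * y1 := by ring
    have e2' : u ^ 3 * y1 - -(u ^ 3 * y1) = u ^ 3 * (2 * y1) := by ring
    rw [e1', e2']
    field_simp
    ring
  · have hx' : u ^ 2 * x1 + r ≠ u ^ 2 * x2 + r := by
      intro hh
      apply hx
      have h5 : u ^ 2 * (x1 - x2) = 0 := by linear_combination hh
      exact sub_eq_zero.1 ((mul_eq_zero.1 h5).resolve_left (pow_ne_zero 2 hu))
    have hx0 : x1 - x2 ≠ 0 := sub_ne_zero.2 hx
    rw [slope_of_X_ne hx', slope_of_X_ne hx]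
    have e1' : u ^ 2 * x1 + r - (u ^ 2 * x2 + r) = u ^ 2 * (x1 - x2) := by ring
    rw [e1']
    field_simp

open scoped Classical in
private theorem Tr.hom (T : Tr W W' u r) :
    ∃ φ : W.Point →+ W'.Point, φ.toFun 0 = 0 ∧ ∀ (x y : F) (hn : W.Nonsingular x y),
      φ (Point.some x y hn) = Point.some (u ^ 2 * x + r) (u ^ 3 * y) ((T.ns x y).2 hn) := by
  have hu := T.hu
  let f : W.Point → W'.Point := fun P => match P with
    | .zero => .zero
    | .some x y hn => .some (u ^ 2 * x + r) (u ^ 3 * y) ((T.ns x y).2 hn)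
  have f0 : f 0 = 0 := rfl
  have fs : ∀ (x y : F) (hn : W.Nonsingular x y), f (Point.some x y hn) =
      Point.some (u ^ 2 * x + r) (u ^ 3 * y) ((T.ns x y).2 hn) := fun _ _ _ => rfl
  refine ⟨⟨⟨f, f0⟩, ?_⟩, f0, fs⟩
  intro P Q
  show f (P + Q) = f P + f Q
  rcases P with _ | ⟨x1, y1, n1⟩
  · rw [← Point.zero_def, zero_add, f0, zero_add]
  rcases Q with _ | ⟨x2, y2, n2⟩
  · rw [← Point.zero_def, add_zero, f0, add_zero]
  by_cases hxy : x1 = x2 ∧ y1 = W.negY x2 y2
  · obtain ⟨hx, hy⟩ := hxy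
    rw [Point.add_of_Y_eq hx hy, f0, fs x1 y1 n1, fs x2 y2 n2]
    symm
    apply Point.add_of_Y_eq
    · rw [hx]
    · rw [T.negY', hy, T.negY]; ring
  · have hxy' : ¬(u ^ 2 * x1 + r = u ^ 2 * x2 + r ∧
        u ^ 3 * y1 = W'.negY (u ^ 2 * x2 + r) (u ^ 3 * y2)) := by
      rintro ⟨hh1, hh2⟩
      apply hxy
      constructor
      · have h5 : u ^ 2 * (x1 - x2) = 0 := by linear_combination hh1
        exact sub_eq_zero.1 ((mul_eq_zero.1 h5).resolve_left (pow_ne_zero 2 hu))
      · rw [T.negY'] at hh2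
        rw [T.negY]
        have h5 : u ^ 3 * (y1 + y2) = 0 := by linear_combination hh2
        have h6 := (mul_eq_zero.1 h5).resolve_left (pow_ne_zero 3 hu)
        linear_combination h6
    have hs := T.slope n1 n2 hxy
    rw [Point.add_some hxy, fs x1 y1 n1, fs x2 y2 n2, fs _ _ (nonsingular_add n1 n2 hxy),
      Point.add_some hxy']
    simp only [Point.some.injEq]
    rw [addX, addX, addY, addY, negAddY, negAddY, addX, addX, hs, T.negY, T.negY', T.a1, T.a1',
      T.h2]
    constructor <;> ring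

omit [CharZero F] in
private theorem Tr.inv (T : Tr W W' u 0) : Tr W' W u⁻¹ 0 := by
  have hu := T.hu
  refine ⟨T.a1', T.a3', T.a1, T.a3, inv_ne_zero hu, ?_, ?_, ?_⟩
  · rw [T.h2]
    field_simp
    ring
  · rw [T.h4]
    field_simp
    ring
  · rw [T.h6]
    field_simp
    ring

open scoped Classical in
/-- an isomorphism and its inverse -/
private theorem isomE (T : Tr W W' u 0) :
    ∃ (φ : W.Point →+ W'.Point) (ψ : W'.Point →+ W.Point), (∀ P, ψ (φ P) = P) ∧
      (∀ Q, φ (ψ Q) = Q) ∧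
      (∀ (x y : F) (hn : W.Nonsingular x y), ∃ hn' : W'.Nonsingular (u ^ 2 * x) (u ^ 3 * y),
        φ (Point.some x y hn) = Point.some _ _ hn') ∧
      (∀ (x y : F) (hn : W'.Nonsingular x y),
        ∃ hn' : W.Nonsingular ((u ^ 2)⁻¹ * x) ((u ^ 3)⁻¹ * y),
        ψ (Point.some x y hn) = Point.some _ _ hn') := by
  have hu := T.hu
  have hu2 : u ^ 2 ≠ 0 := pow_ne_zero 2 hu
  have hu3 : u ^ 3 ≠ 0 := pow_ne_zero 3 hu
  obtain ⟨φ, -, hφ⟩ := T.hom
  obtain ⟨ψ, -, hψ⟩ := T.inv.hom
  have hφ' : ∀ (x y : F) (hn : W.Nonsingular x y),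
      ∃ hn' : W'.Nonsingular (u ^ 2 * x) (u ^ 3 * y),
        φ (Point.some x y hn) = Point.some _ _ hn' := by
    intro x y hn
    have e1 : u ^ 2 * x + 0 = u ^ 2 * x := add_zero _
    refine ⟨by rw [← e1]; exact (T.ns x y).2 hn, ?_⟩
    rw [hφ]
    simp only [Point.some.injEq]
    exact ⟨e1, trivial⟩
  have hψ' : ∀ (x y : F) (hn : W'.Nonsingular x y),
      ∃ hn' : W.Nonsingular ((u ^ 2)⁻¹ * x) ((u ^ 3)⁻¹ * y),
        ψ (Point.some x y hn) = Point.some _ _ hn' := by
    intro x y hn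
    have e1 : u⁻¹ ^ 2 * x + 0 = (u ^ 2)⁻¹ * x := by rw [add_zero, inv_pow]
    have e2 : u⁻¹ ^ 3 * y = (u ^ 3)⁻¹ * y := by rw [inv_pow]
    refine ⟨by rw [← e1, ← e2]; exact (T.inv.ns x y).2 hn, ?_⟩
    rw [hψ]
    simp only [Point.some.injEq]
    exact ⟨e1, e2⟩
  refine ⟨φ, ψ, ?_, ?_, hφ', hψ'⟩
  · intro P
    rcases P with _ | ⟨x, y, hn⟩
    · change ψ (φ 0) = 0
      rw [map_zero, map_zero]
    · obtain ⟨n1, e1⟩ := hφ' x y hn
      obtain ⟨n2, e2⟩ := hψ' _ _ n1
      rw [e1, e2]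
      simp only [Point.some.injEq]
      exact ⟨by field_simp, by field_simp⟩
  · intro P
    rcases P with _ | ⟨x, y, hn⟩
    · change φ (ψ 0) = 0
      rw [map_zero, map_zero]
    · obtain ⟨n1, e1⟩ := hψ' x y hn
      obtain ⟨n2, e2⟩ := hφ' _ _ n1
      rw [e1, e2]
      simp only [Point.some.injEq]
      exact ⟨by field_simp, by field_simp⟩

end trans

/-- rank of a group `A` with two almost disjoint subgroups which contain `2 A` -/
private theorem finrank_split {A B C : Type*} [AddCommGroup A] [AddCommGroup B] [AddCommGroup C]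
    [Module.Finite ℤ A] (i : B →+ A) (j : C →+ A) (hi : Function.Injective i)
    (hj : Function.Injective j) (h1 : ∀ x ∈ i.range, x ∈ j.range → x + x = 0)
    (h2 : ∀ x : A, ∃ b c, x + x = i b + j c) :
    Module.finrank ℤ A = Module.finrank ℤ B + Module.finrank ℤ C := by
  have eB : Module.finrank ℤ B = Module.finrank ℤ i.range :=
    LinearEquiv.finrank_eq (AddMonoidHom.ofInjective hi).toIntLinearEquiv
  have eC : Module.finrank ℤ C = Module.finrank ℤ j.range :=
    LinearEquiv.finrank_eq (AddMonoidHom.ofInjective hj).toIntLinearEquiv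
  refine le_antisymm ?_ ?_
  · -- doubling
    let s : Submodule ℤ A := AddSubgroup.toIntSubmodule i.range
    let t : Submodule ℤ A := AddSubgroup.toIntSubmodule j.range
    have hdbl : LinearMap.range (LinearMap.lsmul ℤ A (2 : ℤ)) ≤ s ⊔ t := by
      rintro _ ⟨x, rfl⟩
      obtain ⟨b, c, hbc⟩ := h2 x
      have : (LinearMap.lsmul ℤ A (2 : ℤ)) x = i b + j c := by
        rw [← hbc]
        simp [two_smul]
      rw [this]
      exact Submodule.add_mem_sup ⟨b, rfl⟩ ⟨c, rfl⟩
    have hker : Module.rank ℤ (LinearMap.ker (LinearMap.lsmul ℤ A (2 : ℤ))) = 0 := by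
      rw [rank_eq_zero_iff]
      rintro ⟨x, hx⟩
      refine ⟨2, two_ne_zero, ?_⟩
      apply Subtype.ext
      exact hx
    have hrn : Module.finrank ℤ (LinearMap.range (LinearMap.lsmul ℤ A (2 : ℤ))) =
        Module.finrank ℤ A := by
      have h := LinearMap.rank_range_add_rank_ker (LinearMap.lsmul ℤ A (2 : ℤ))
      rw [hker, add_zero] at h
      rw [Module.finrank, Module.finrank, h]
    have h3 : Module.finrank ℤ (LinearMap.range (LinearMap.lsmul ℤ A (2 : ℤ))) ≤
        Module.finrank ℤ (s ⊔ t : Submodule ℤ A) := Submodule.finrank_mono hdbl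
    have h4 : Module.finrank ℤ (s ⊔ t : Submodule ℤ A) =
        Module.finrank ℤ s + Module.finrank ℤ t := by
      have k1 := Submodule.rank_sup_add_rank_inf_eq s t
      have k2 : Module.rank ℤ (s ⊓ t : Submodule ℤ A) = 0 := by
        rw [rank_eq_zero_iff]
        rintro ⟨x, hx⟩
        refine ⟨2, two_ne_zero, ?_⟩
        apply Subtype.ext
        have h3 := h1 x hx.1 hx.2
        show (2 : ℤ) • x = 0
        rw [two_smul, h3]
      rw [k2, add_zero] at k1
      have k5 : Module.rank ℤ s < Cardinal.aleph0 := Module.rank_lt_aleph0 ℤ s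
      have k6 : Module.rank ℤ t < Cardinal.aleph0 := Module.rank_lt_aleph0 ℤ t
      unfold Module.finrank
      rw [k1, Cardinal.toNat_add k5 k6]
    have h5 : Module.finrank ℤ s = Module.finrank ℤ B := eB.symm
    have h6 : Module.finrank ℤ t = Module.finrank ℤ C := eC.symm
    omega
  · rw [eB, eC]
    exact RS.finrank_add_le i.range j.range h1

open scoped Classical in
/-- the twist over a quadratic extension with automorphism `σ` -/
private theorem twist_aux {F F' : Type u} [Field F] [CharZero F] [Field F'] [CharZero F']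
    [Algebra F F'] {W Wd : WeierstrassCurve.Affine F} {d : F} {δ : F'}
    (T : Tr (W⁄F') (Wd⁄F') δ 0) (σ : F' ≃ₐ[F] F')
    (hσδ : σ δ = -δ) (hσσ : ∀ x, σ (σ x) = x)
    (hfix : ∀ x, σ x = x → x ∈ Set.range (algebraMap F F'))
    (hδ : δ ^ 2 = algebraMap F F' d) (hδ0 : δ ≠ 0) [Module.Finite ℤ (W⁄F').Point] :
    Module.Finite ℤ (Wd⁄F).Point ∧ Module.finrank ℤ (W⁄F').Point =
      Module.finrank ℤ (W⁄F).Point + Module.finrank ℤ (Wd⁄F).Point := by
  obtain ⟨φ, ψ, hψφ, hφψ, hφ, hψ⟩ := isomE T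
  have hδ2 : δ ^ 2 ≠ 0 := pow_ne_zero 2 hδ0
  have hδ3 : δ ^ 3 ≠ 0 := pow_ne_zero 3 hδ0
  let τ : (W⁄F').Point →+ (W⁄F').Point := Point.map (W' := W) (σ : F' →ₐ[F] F')
  have hτs : ∀ (x y : F') (hn : (W⁄F').Nonsingular x y),
      ∃ hn' : (W⁄F').Nonsingular (σ x) (σ y), τ (Point.some x y hn) = Point.some _ _ hn' :=
    fun x y hn => ⟨(W.baseChange_nonsingular (f := (σ : F' →ₐ[F] F')) σ.injective x y).mpr hn, rfl⟩
  have hneg : ∀ (x y : F') (hn : (W⁄F').Nonsingular x y), ∃ hn' : (W⁄F').Nonsingular x (-y),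
      -(Point.some x y hn) = Point.some _ _ hn' := by
    intro x y hn
    refine ⟨by rw [← T.negY x y]; exact (nonsingular_neg ..).2 hn, ?_⟩
    rw [Point.neg_some]
    simp only [Point.some.injEq, true_and]
    exact T.negY x y
  have hττ : ∀ P, τ (τ P) = P := by
    intro P
    rcases P with _ | ⟨x, y, hn⟩
    · change τ (τ 0) = 0
      rw [map_zero, map_zero]
    · obtain ⟨n1, e1⟩ := hτs x y hn
      obtain ⟨n2, e2⟩ := hτs _ _ n1
      rw [e1, e2]
      simp only [Point.some.injEq]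
      exact ⟨hσσ x, hσσ y⟩
  let ι : (W⁄F).Point →+ (W⁄F').Point := Point.map (W' := W) (Algebra.ofId F F')
  let ιd : (Wd⁄F).Point →+ (Wd⁄F').Point := Point.map (W' := Wd) (Algebra.ofId F F')
  have hσa : ∀ a : F, σ (algebraMap F F' a) = algebraMap F F' a := fun a => σ.commutes a
  -- fixed points
  have hιfix : ∀ P, τ (ι P) = ι P := by
    intro P
    rcases P with _ | ⟨x, y, hn⟩
    · change τ (ι 0) = ι 0
      rw [map_zero, map_zero]
    · obtain ⟨n1, e1⟩ := hτs _ _ ((W.baseChange_nonsingular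
        (f := Algebra.ofId F F') (Algebra.ofId F F').injective x y).mpr hn)
      refine e1.trans ?_
      change _ = Point.some _ _ _
      simp only [Point.some.injEq]
      exact ⟨hσa x, hσa y⟩
  have hfixι : ∀ P, τ P = P → ∃ Q, P = ι Q := by
    intro P hP
    rcases P with _ | ⟨x, y, hn⟩
    · exact ⟨0, (map_zero ι).symm⟩
    · obtain ⟨n1, e1⟩ := hτs x y hn
      rw [e1] at hP
      simp only [Point.some.injEq] at hP
      obtain ⟨a, ha⟩ := hfix x hP.1
      obtain ⟨b, hb⟩ := hfix y hP.2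
      subst ha hb
      exact ⟨Point.some a b ((W.baseChange_nonsingular
        (f := Algebra.ofId F F') (Algebra.ofId F F').injective a b).mp hn), rfl⟩
  -- the twist
  have hjneg : ∀ Q, τ (ψ (ιd Q)) = -(ψ (ιd Q)) := by
    intro Q
    rcases Q with _ | ⟨x, y, hn⟩
    · change τ (ψ (ιd 0)) = -(ψ (ιd 0))
      rw [map_zero, map_zero, map_zero, neg_zero]
    · obtain ⟨n1, e1⟩ := hψ _ _ ((Wd.baseChange_nonsingular
        (f := Algebra.ofId F F') (Algebra.ofId F F').injective x y).mpr hn)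
      have e2 : ψ (ιd (Point.some x y hn)) = Point.some _ _ n1 := e1
      rw [e2]
      obtain ⟨n2, e3⟩ := hτs _ _ n1
      obtain ⟨n3, e4⟩ := hneg _ _ n1
      rw [e3, e4]
      simp only [Point.some.injEq]
      have hx : σ ((Algebra.ofId F F') x) = (Algebra.ofId F F') x := hσa x
      have hy : σ ((Algebra.ofId F F') y) = (Algebra.ofId F F') y := hσa y
      rw [map_mul, map_mul, map_inv₀, map_inv₀, map_pow, map_pow, hσδ, hx, hy]
      constructor
      · rw [neg_pow_two]
      · have : (-δ) ^ 3 = -δ ^ 3 := by ring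
        rw [this, inv_neg, neg_mul]
  have hnegj : ∀ P, τ P = -P → ∃ Q, P = ψ (ιd Q) := by
    intro P hP
    rcases P with _ | ⟨x, y, hn⟩
    · exact ⟨0, by rw [map_zero, map_zero]; rfl⟩
    · obtain ⟨n1, e1⟩ := hτs x y hn
      obtain ⟨n2, e2⟩ := hneg x y hn
      rw [e1, e2] at hP
      simp only [Point.some.injEq] at hP
      obtain ⟨n3, e3⟩ := hφ x y hn
      obtain ⟨a, ha⟩ := hfix (δ ^ 2 * x) (by rw [map_mul, map_pow, hσδ, hP.1, neg_pow_two])
      obtain ⟨b, hb⟩ := hfix (δ ^ 3 * y) (by rw [map_mul, map_pow, hσδ, hP.2]; ring)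
      have n4 : (Wd⁄F').Nonsingular ((Algebra.ofId F F') a) ((Algebra.ofId F F') b) := by
        change (Wd⁄F').Nonsingular (algebraMap F F' a) (algebraMap F F' b)
        rw [ha, hb]; exact n3
      have n5 : (Wd⁄F).Nonsingular a b := (Wd.baseChange_nonsingular
        (f := Algebra.ofId F F') (Algebra.ofId F F').injective a b).mp n4
      refine ⟨Point.some a b n5, ?_⟩
      have e4 : ιd (Point.some a b n5) = φ (Point.some x y hn) := by
        rw [e3]
        change Point.some _ _ _ = _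
        simp only [Point.some.injEq]
        exact ⟨ha, hb⟩
      rw [e4, hψφ]
  have hinj : Function.Injective (ψ.comp ιd) := by
    intro P Q h
    have h5 : ιd P = ιd Q := by
      have h6 := congrArg φ h
      simp only [AddMonoidHom.comp_apply, hφψ] at h6
      exact h6
    exact Point.map_injective (W' := Wd) _ h5
  refine ⟨Module.Finite.of_injective (ψ.comp ιd).toIntLinearMap hinj, ?_⟩
  refine finrank_split ι (ψ.comp ιd) (Point.map_injective _) hinj ?_ ?_
  · rintro _ ⟨P, rfl⟩ ⟨Q, hQ⟩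
    have h5 := hjneg Q
    have h6 : ψ (ιd Q) = ι P := hQ
    rw [h6, hιfix] at h5
    nth_rw 1 [h5]
    exact neg_add_cancel _
  · intro P
    obtain ⟨Q, hQ⟩ := hfixι (P + τ P) (by rw [map_add, hττ, add_comm])
    obtain ⟨R, hR⟩ := hnegj (P - τ P) (by rw [map_sub, hττ, neg_sub])
    refine ⟨Q, R, ?_⟩
    rw [AddMonoidHom.comp_apply, ← hQ, ← hR]
    abel

private theorem cv_bc {F F' : Type*} [Field F] [Field F'] [Algebra F F'] (a b : F) :
    ((cv a b)⁄F') = cv (algebraMap F F' a) (algebraMap F F' b) := by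
  ext <;> simp [cv]

open scoped Classical in
theorem finrank_twist_cv {F F' : Type u} [Field F] [NumberField F] [Field F'] [NumberField F']
    [Algebra F F'] (h2 : Module.finrank F F' = 2) {a b : F} (hb : b ≠ 0) (hab : a ^ 2 - 4 * b ≠ 0)
    {d : F} {δ : F'} (hδ : δ ^ 2 = algebraMap F F' d) (hne : δ ∉ Set.range (algebraMap F F'))
    (hfg : AddGroup.FG (cv (algebraMap F F' a) (algebraMap F F' b)).Point) :
    AddGroup.FG (cv (d * a) (d ^ 2 * b)).Point ∧
    Module.finrank ℤ (cv (algebraMap F F' a) (algebraMap F F' b)).Point =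
      Module.finrank ℤ (cv a b).Point + Module.finrank ℤ (cv (d * a) (d ^ 2 * b)).Point := by
  have hδ0 : δ ≠ 0 := by
    rintro rfl
    exact hne ⟨0, map_zero _⟩
  have hq : Algebra.IsQuadraticExtension F F' := ⟨h2⟩
  have hcard : Nat.card (F' ≃ₐ[F] F') = 2 := by
    rw [IsGalois.card_aut_eq_finrank, h2]
  obtain ⟨σ, hσ1, hσu⟩ := (Nat.card_eq_two_iff' (1 : F' ≃ₐ[F] F')).1 hcard
  have hfix : ∀ x, σ x = x → x ∈ Set.range (algebraMap F F') := by
    intro x hx
    rw [IsGalois.mem_range_algebraMap_iff_fixed]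
    intro g
    by_cases hg : g = 1
    · rw [hg]; rfl
    · rw [hσu g hg]; exact hx
  have hσσ : ∀ x, σ (σ x) = x := by
    intro x
    by_cases h : σ * σ = 1
    · have := congrArg (fun g : F' ≃ₐ[F] F' => g x) h
      exact this
    · have h3 := hσu _ h
      exact absurd (mul_eq_left.1 h3) hσ1
  have hσδ : σ δ = -δ := by
    have h3 : σ δ ^ 2 = δ ^ 2 := by
      rw [← map_pow, hδ]; exact σ.commutes d
    rcases sq_eq_sq_iff_eq_or_eq_neg.1 h3 with h4 | h4
    · exact absurd (hfix δ h4) hne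
    · exact h4
  have hE1 : cv (algebraMap F F' a) (algebraMap F F' b) = ((cv a b)⁄F') := (cv_bc a b).symm
  have hE0 : ((cv a b)⁄F) = cv a b := cv_bc a b
  have hEd : ((cv (d * a) (d ^ 2 * b))⁄F) = cv (d * a) (d ^ 2 * b) := cv_bc _ _
  have hT : Tr ((cv a b)⁄F') ((cv (d * a) (d ^ 2 * b))⁄F') δ 0 := by
    rw [cv_bc, cv_bc]
    refine ⟨rfl, rfl, rfl, rfl, hδ0, ?_, ?_, ?_⟩
    · show algebraMap F F' (d * a) = δ ^ 2 * algebraMap F F' a - 3 * 0
      rw [map_mul, hδ]
      ring
    · show algebraMap F F' (d ^ 2 * b) = δ ^ 4 * algebraMap F F' b -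
        2 * 0 * δ ^ 2 * algebraMap F F' a + 3 * 0 ^ 2
      rw [map_mul, map_pow, ← hδ]
      ring
    · show (0 : F') = δ ^ 6 * 0 - 0 * δ ^ 4 * algebraMap F F' b +
        0 ^ 2 * δ ^ 2 * algebraMap F F' a - 0 ^ 3
      ring
  rw [hE1] at hfg ⊢
  have : Module.Finite ℤ ((cv a b)⁄F').Point := Module.Finite.iff_addGroup_fg.2 hfg
  have h4 := twist_aux hT σ hσδ hσσ hfix hδ hδ0
  rw [hE0, hEd] at h4
  exact ⟨Module.Finite.iff_addGroup_fg.1 h4.1, h4.2⟩

end Pool.Agent.Work.MP_787500_nt.GO
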