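import Mathlib
import Pool.Agent.Work.MP_787500_nt.GO.ClDef
import Pool.Agent.Work.MP_787500_nt.GO.ClD
import Pool.Agent.Work.MP_787500_nt.GO.ClE
import Pool.Agent.Work.MP_787500_nt.GO.ClI

/-!
# Module ClJ: twists

`d : ℤ`, `d ≠ 0`, `d` a square in every field which contains square roots of `-1` and `2`. Let `F ≤ F'`, `F'` dihedral; by `exists_ext` we may enlarge `F'` (`F''`: algebra structure `F → F''`
by composition, `IsScalarTower K F F''`) so that `F'` contains `i`, `r`, hence `δ` with `δ^2 = d`. If `δ ∈ F` (the range of `algebraMap`): `d = δ₀^2`,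
`cv (d a) (d^2 b) = cv (δ₀^2 a) (δ₀^4 b)`, `scale_equiv` (`LinearEquiv.finrank_eq`, the group is finitely generated with the isomorphic one).
Otherwise `F₁ = IntermediateField.adjoin F {δ} ≤ F''`, of degree 2 over `F` (see `rank_twist` in HD/FnD.lean, the same construction: number field, scalar towers).
`h F₁ F''` gives FG and rank `[F₁ : K] = 2 [F : K]` for `cv a b` over `F₁`, `h F F''` gives rank `[F : K]` over `F`, and `finrank_twist_cv` gives the claim.
(Casts: `((d * a : ℤ) : F) = d * a`, `algebraMap F F₁ (a : F) = (a : F₁)`.)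
-/

set_option autoImplicit false

namespace Pool.Agent.Work.MP_787500_nt.GO

open WithZero IsDedekindDomain NumberField WeierstrassCurve WeierstrassCurve.Affine

universe u

open scoped Classical in
private theorem clj_sq {K : Type u} [Field K] [NumberField K] {s : K} {a b : ℤ} (h0 : b ≠ 0)
    (h1 : a ^ 2 - 4 * b ≠ 0) (h : AllR K s a b) {d : ℤ} (hd : d ≠ 0)
    {F F' : Type u} [Field F] [NumberField F] [Algebra K F] [Field F'] [NumberField F']
    [Algebra K F'] [Algebra F F'] [IsScalarTower K F F'] (hD : HD.DihField K F' s) {δ : F}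
    (hδ : δ ^ 2 = (d : F)) :
    AddGroup.FG (cv ((d * a : ℤ) : F) ((d ^ 2 * b : ℤ) : F)).Point ∧
      Module.finrank ℤ (cv ((d * a : ℤ) : F) ((d ^ 2 * b : ℤ) : F)).Point =
        Module.finrank K F := by
  have hb' : (b : F) ≠ 0 := Int.cast_ne_zero.2 h0
  have hab' : (a : F) ^ 2 - 4 * (b : F) ≠ 0 := by exact_mod_cast Int.cast_ne_zero.2 h1
  have hδ0 : δ ≠ 0 := by
    rintro rfl
    rw [zero_pow two_ne_zero] at hδ
    exact Int.cast_ne_zero.2 hd hδ.symm
  obtain ⟨hFG, hrk⟩ := h F F' hD
  obtain ⟨e⟩ := scale_equiv (a : F) (b : F) hb' hab' hδ0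
  have e1 : δ ^ 2 * (a : F) = ((d * a : ℤ) : F) := by rw [hδ]; push_cast; ring
  have e2 : δ ^ 4 * (b : F) = ((d ^ 2 * b : ℤ) : F) := by
    rw [show δ ^ 4 = (δ ^ 2) ^ 2 by ring, hδ]; push_cast; ring
  rw [e1, e2] at e
  refine ⟨?_, ?_⟩
  · have := hFG
    exact AddGroup.fg_of_surjective (f := e.toAddMonoidHom) e.surjective
  · rw [← hrk]
    exact (LinearEquiv.finrank_eq e.toIntLinearEquiv).symm

open scoped Classical in
private theorem clj_step {K : Type u} [Field K] [NumberField K] {s : K} {a b : ℤ} (h0 : b ≠ 0)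
    (h1 : a ^ 2 - 4 * b ≠ 0) (h : AllR K s a b) {d : ℤ} (hd : d ≠ 0)
    {F F' : Type u} [Field F] [NumberField F] [Algebra K F] [Field F'] [NumberField F']
    [Algebra K F'] [Algebra F F'] [IsScalarTower K F F'] (hD : HD.DihField K F' s) {δ : F'}
    (hδ : δ ^ 2 = (d : F')) :
    AddGroup.FG (cv ((d * a : ℤ) : F) ((d ^ 2 * b : ℤ) : F)).Point ∧
      Module.finrank ℤ (cv ((d * a : ℤ) : F) ((d ^ 2 * b : ℤ) : F)).Point =
        Module.finrank K F := by
  by_cases hr : δ ∈ Set.range (algebraMap F F')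
  · obtain ⟨δ₀, rfl⟩ := hr
    have hδ' : δ₀ ^ 2 = (d : F) := by
      apply (algebraMap F F').injective
      rw [map_pow, hδ, map_intCast]
    exact clj_sq h0 h1 h hd hD hδ'
  · have hb' : (b : F) ≠ 0 := Int.cast_ne_zero.2 h0
    have hab' : (a : F) ^ 2 - 4 * (b : F) ≠ 0 := by exact_mod_cast Int.cast_ne_zero.2 h1
    have hfin : Module.Finite F F' := Module.Finite.of_restrictScalars_finite ℚ F F'
    have hint : IsIntegral F δ := Algebra.IsIntegral.isIntegral δ
    have hN : NumberField (IntermediateField.adjoin F {δ}) := NumberField.of_module_finite F _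
    have h2 : Module.finrank F (IntermediateField.adjoin F {δ}) = 2 := by
      rw [IntermediateField.adjoin.finrank hint]
      have hmin : minpoly F δ ∣ Polynomial.X ^ 2 - Polynomial.C (d : F) := by
        apply minpoly.dvd
        rw [map_sub, map_pow, Polynomial.aeval_X, Polynomial.aeval_C, hδ, map_intCast, sub_self]
      have hdeg : (minpoly F δ).natDegree ≤ 2 := by
        have h3 := Polynomial.natDegree_le_of_dvd hmin
          (Polynomial.X_pow_sub_C_ne_zero (by norm_num) (d : F))
        rwa [Polynomial.natDegree_X_pow_sub_C] at h3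
      have hpos : 0 < (minpoly F δ).natDegree := minpoly.natDegree_pos hint
      have hne1 : (minpoly F δ).natDegree ≠ 1 := by
        intro h3
        exact hr (minpoly.mem_range_of_degree_eq_one F δ (by
          rw [Polynomial.degree_eq_natDegree (minpoly.ne_zero hint), h3]
          rfl))
      omega
    have hST : IsScalarTower K (IntermediateField.adjoin F {δ}) F' :=
      IsScalarTower.of_algebraMap_eq fun x => by
        rw [IsScalarTower.algebraMap_apply K F F' x,
          IsScalarTower.algebraMap_apply K F (IntermediateField.adjoin F {δ}) x]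
        rfl
    obtain ⟨hFG, hrk⟩ := h F F' hD
    obtain ⟨hFG₁, hrk₁⟩ := h (IntermediateField.adjoin F {δ}) F' hD
    have ea : algebraMap F (IntermediateField.adjoin F {δ}) (a : F) =
      (a : IntermediateField.adjoin F {δ}) := map_intCast _ _
    have eb : algebraMap F (IntermediateField.adjoin F {δ}) (b : F) =
      (b : IntermediateField.adjoin F {δ}) := map_intCast _ _
    rw [← ea, ← eb] at hFG₁ hrk₁
    have hne : (⟨δ, IntermediateField.mem_adjoin_simple_self F δ⟩ :
        IntermediateField.adjoin F {δ}) ∉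
        Set.range (algebraMap F (IntermediateField.adjoin F {δ})) := by
      rintro ⟨x, hx⟩
      exact hr ⟨x, congrArg Subtype.val hx⟩
    have hδ₁ : (⟨δ, IntermediateField.mem_adjoin_simple_self F δ⟩ :
        IntermediateField.adjoin F {δ}) ^ 2 =
        algebraMap F (IntermediateField.adjoin F {δ}) (d : F) := by
      apply Subtype.ext
      rw [map_intCast]
      show δ ^ 2 = _
      rw [hδ]
      rfl
    obtain ⟨g1, g2⟩ := finrank_twist_cv h2 hb' hab' hδ₁ hne hFG₁
    have e1 : (d : F) * (a : F) = ((d * a : ℤ) : F) := by push_cast; ring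
    have e2 : (d : F) ^ 2 * (b : F) = ((d ^ 2 * b : ℤ) : F) := by push_cast; ring
    rw [e1, e2] at g1 g2
    refine ⟨g1, ?_⟩
    have h7 : Module.finrank K (IntermediateField.adjoin F {δ}) = Module.finrank K F * 2 := by
      rw [← h2]
      exact (Module.finrank_mul_finrank K F (IntermediateField.adjoin F {δ})).symm
    rw [hrk₁, hrk, h7] at g2
    omega

theorem AllR.tw {K : Type u} [Field K] [NumberField K] {q : ℕ} {s : K} (hb : IsBase K q s)
    {a b : ℤ} (h0 : b ≠ 0) (h1 : a ^ 2 - 4 * b ≠ 0) (h : AllR K s a b) {d : ℤ} (hd : d ≠ 0)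
    (hsq : ∀ (L : Type u) [Field L] [NumberField L], ∀ i r : L, i ^ 2 = -1 → r ^ 2 = 2 →
      ∃ δ : L, δ ^ 2 = d) : AllR K s (d * a) (d ^ 2 * b) := by
  intro F F' _ _ _ _ _ _ _ _ hD
  obtain ⟨F'', j1, j2, j3, j4, j5, hD'', i, r, hi, hr⟩ := exists_ext hb hD
  obtain ⟨δ, hδ⟩ := hsq F'' i r hi hr
  let _ : Algebra F F'' := ((algebraMap F' F'').comp (algebraMap F F')).toAlgebra
  have _ : IsScalarTower K F F'' := IsScalarTower.of_algebraMap_eq fun x => by
    show algebraMap K F'' x = algebraMap F' F'' (algebraMap F F' (algebraMap K F x))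
    rw [← IsScalarTower.algebraMap_apply K F F' x, ← IsScalarTower.algebraMap_apply K F' F'' x]
  exact clj_step h0 h1 h hd hD'' hδ

end Pool.Agent.Work.MP_787500_nt.GO
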