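import Mathlib
import Pool.Agent.Work.MP_787500_nt.GO.ClB
import Pool.Agent.Work.MP_787500_nt.GO.ClH
import Pool.Agent.Work.MP_787500_nt.GO.ClJ

/-!
# Module ClK: the reduction to three curves

`cls_ind` for `P a b := b ≠ 0 ∧ a ^ 2 - 4 b ≠ 0 ∧ AllR K s a b`.
* `P 0 (-1)`: `h0`; see below. `P 3 2`: from `AllR K s 0 (-1)` by `trans_equiv` (`(3 : ℤ)` cast to `F`).
* `hneg`: `AllR.tw` with `d = -1` (`δ = i`), `((-1) * a, (-1)^2 * b) = (-a, b)`; `htwo`: `d = 2` (`δ = r`).
* `hiso`: `isog_rank` over `F` (casts: `((-2 * a : ℤ) : F) = -2 * (a : F)` etc.; the integers `b`, `a^2-4b` are nonzero in `F`).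
`allR_zero`: `HD.rank_twist hb h (d := 1) (δ := 1)` and `RS.bound hb` for FG: `cv 0 (-1) = legendre 0 1 (-1)` (`ext <;> simp [cv, legendre]`); `InTwoTower K F` from `DihField K F' s` as in
`HD/Fin.lean`; finitely generated: `(RS.bound hb hT h12 h23 h31).2.1`.
-/

set_option autoImplicit false

namespace Pool.Agent.Work.MP_787500_nt.GO

open WithZero IsDedekindDomain NumberField WeierstrassCurve WeierstrassCurve.Affine

universe u

private theorem clk_tower {K F F' : Type u} [Field K] [NumberField K] {s : K}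
    [Field F] [NumberField F] [Algebra K F] [Field F'] [NumberField F']
    [Algebra K F'] [Algebra F F'] [IsScalarTower K F F'] (h : HD.DihField K F' s) :
    InTwoTower K F := by
  obtain ⟨h1, h2, h3, -⟩ := h
  have : IsGalois K F' := IsGalois.tower_top_of_isGalois ℚ K F'
  exact ⟨F', inferInstance, inferInstance, inferInstance, inferInstance, inferInstance, this, h2, h3⟩

private theorem clk_leg {F : Type u} [Field F] : cv ((0 : ℤ) : F) ((-1 : ℤ) : F) = legendre 0 1 (-1) := by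
  ext <;> simp [cv, legendre]

theorem allR_zero {K : Type u} [Field K] [NumberField K] {q : ℕ} {s : K} (hb : IsBase K q s) :
    AllR K s 0 (-1) := by
  classical
  intro F F' _ _ _ _ _ _ _ _ hD
  have h1 := HD.rank_twist hb hD (d := (1 : F)) (δ := (1 : F')) one_ne_zero
    (by rw [map_one, one_pow])
  obtain ⟨-, hFG, -⟩ := RS.bound hb (clk_tower hD) (zero_ne_one : (0 : F) ≠ 1)
    (by norm_num : (1 : F) ≠ -1) (by norm_num)
  rw [clk_leg]
  refine ⟨?_, h1⟩
  convert hFG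

open scoped Classical in
private theorem clk_iso {F : Type u} [Field F] {n : ℕ} {E E' : WeierstrassCurve.Affine F}
    (e : E.Point ≃+ E'.Point) (h : AddGroup.FG E'.Point ∧ Module.finrank ℤ E'.Point = n) :
    AddGroup.FG E.Point ∧ Module.finrank ℤ E.Point = n := by
  obtain ⟨hFG, hrk⟩ := h
  refine ⟨?_, ?_⟩
  · have := hFG
    exact AddGroup.fg_of_surjective (f := e.symm.toAddMonoidHom) e.symm.surjective
  · rw [← hrk]
    exact LinearEquiv.finrank_eq e.toIntLinearEquiv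

theorem allR_all {K : Type u} [Field K] [NumberField K] {q : ℕ} {s : K} (hb : IsBase K q s)
    (hA : AllR K s 0 (-2)) (hB : AllR K s 4 2) (hD : AllR K s (-4) 8) {a b : ℤ} (h : G2 a b) :
    AllR K s a b := by
  have key := cls_ind (P := fun a b => b ≠ 0 ∧ a ^ 2 - 4 * b ≠ 0 ∧ AllR K s a b)
    ⟨by norm_num, by norm_num, allR_zero hb⟩ ⟨by norm_num, by norm_num, hA⟩
    ⟨by norm_num, by norm_num, hB⟩ ⟨by norm_num, by norm_num, hD⟩
    ⟨by norm_num, by norm_num, ?_⟩ ?_ ?_ ?_ h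
  · exact key.2.2
  · intro F F' _ _ _ _ _ _ _ _ hDF
    have h0 := allR_zero hb F F' hDF
    obtain ⟨e⟩ := trans_equiv (F := F)
    have e1 : ((0 : ℤ) : F) = 0 := by norm_num
    have e2 : ((-1 : ℤ) : F) = -1 := by norm_num
    have e3 : ((3 : ℤ) : F) = 3 := by norm_num
    have e4 : ((2 : ℤ) : F) = 2 := by norm_num
    rw [e1, e2] at h0
    rw [e3, e4]
    exact clk_iso e h0
  · rintro a b ⟨h0, h1, h2⟩
    have h3 := h2.tw hb h0 h1 (d := -1) (by norm_num) fun L _ _ i r hi _ =>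
      ⟨i, by rw [hi]; norm_num⟩
    have e1 : (-1 : ℤ) * a = -a := by ring
    have e2 : (-1 : ℤ) ^ 2 * b = b := by ring
    rw [e1, e2] at h3
    exact ⟨h0, by rwa [neg_sq], h3⟩
  · rintro a b ⟨h0, h1, h2⟩
    have h3 := h2.tw hb h0 h1 (d := 2) (by norm_num) fun L _ _ i r _ hr =>
      ⟨r, by rw [hr]; norm_num⟩
    have e2 : (2 : ℤ) ^ 2 * b = 4 * b := by ring
    rw [e2] at h3
    refine ⟨by omega, ?_, h3⟩
    intro h4
    apply h1
    have : 4 * (a ^ 2 - 4 * b) = 0 := by linear_combination h4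
    omega
  · rintro a b h0 h1 ⟨h2, h3, h4⟩
    refine ⟨h0, h1, ?_⟩
    intro F F' _ _ _ _ _ _ _ _ hDF
    obtain ⟨hFG, hrk⟩ := h4 F F' hDF
    have hb' : (b : F) ≠ 0 := Int.cast_ne_zero.2 h0
    have hab' : (a : F) ^ 2 - 4 * (b : F) ≠ 0 := by exact_mod_cast Int.cast_ne_zero.2 h1
    have e1 : ((-2 * a : ℤ) : F) = -2 * (a : F) := by push_cast; ring
    have e2 : ((a ^ 2 - 4 * b : ℤ) : F) = (a : F) ^ 2 - 4 * (b : F) := by push_cast; ring
    rw [e1, e2] at hFG hrk
    obtain ⟨g1, g2⟩ := isog_rank hb' hab' hFG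
    exact ⟨g1, g2.trans hrk⟩

end Pool.Agent.Work.MP_787500_nt.GO
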