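import Mathlib
import Pool.Agent.Work.MP_787500_nt.GO.ClA
import Pool.Agent.Work.MP_787500_nt.H10_Defs

/-!
# Module ClL: the points of order two, and good reduction

`roots_exist`: by `tb_of_G2` (or directly: `a^2 - 4b = ± 2^m` is a square in `F`, because `-1 = i^2`, `2 = r^2`: `± 2^m = (i^ε r^m)^2`; take `t` with
`t^2 = a^2 - 4b`, `e2 = (-a + t)/2`, `e3 = (-a - t)/2`). `a^2-4b` divides a power of 2, so it is `± 2^m` (`Int.natAbs_dvd`, `Nat.dvd_prime_pow`).
`good_of_G2`: let `v` be a place with `2 ∉ v`. `v(2) = 1` (`fne_two` of HD/FnE.lean). `e1, e2, e3` are roots of the monic polynomial `x^3 + a x^2 + b x` with integer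
coefficients, so `v(e_i) ≤ 1` (if `v(x) > 1` then `v(x^3) > v(a x^2 + b x)`; `v(n) ≤ 1` for integers: `HC.val_nat_le`). The product of the differences squared is
`b^2 (a^2 - 4b)`, which divides a power of 2, so of valuation 1, hence all `v(e_i - e_j) = 1`; `diffVal = 1 = 1 * 1` is a square.
-/

set_option autoImplicit false

namespace Pool.Agent.Work.MP_787500_nt.GO

open WithZero IsDedekindDomain NumberField WeierstrassCurve WeierstrassCurve.Affine

universe u

private theorem sq_disc {a b : ℤ} (h : G2 a b) : ∃ m : ℕ, a ^ 2 - 4 * b = 2 ^ m ∨ a ^ 2 - 4 * b = -2 ^ m := by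
  obtain ⟨k, h⟩ := h
  have hd : (a ^ 2 - 4 * b) ∣ 2 ^ k := by
    rcases h with h | h
    · exact ⟨b, by rw [← h]; ring⟩
    · exact ⟨-b, by linarith⟩
  have h1 : (a ^ 2 - 4 * b).natAbs ∣ 2 ^ k := by
    have := Int.natAbs_dvd_natAbs.2 hd
    rwa [Int.natAbs_pow] at this
  obtain ⟨m, -, hm⟩ := (Nat.dvd_prime_pow Nat.prime_two).1 h1
  refine ⟨m, ?_⟩
  rcases Int.natAbs_eq (a ^ 2 - 4 * b) with h2 | h2
  · left
    rw [h2, hm]
    push_cast
    rfl
  · right
    rw [h2, hm]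
    push_cast
    rfl

private theorem one_one {x y : ℤᵐ⁰} (hx : x ≤ 1) (hy : y ≤ 1) (h : x * y = 1) : x = 1 ∧ y = 1 := by
  constructor
  · refine le_antisymm hx ?_
    calc (1 : ℤᵐ⁰) = x * y := h.symm
      _ ≤ x * 1 := mul_le_mul_right hy x
      _ = x := mul_one x
  · refine le_antisymm hy ?_
    calc (1 : ℤᵐ⁰) = x * y := h.symm
      _ ≤ 1 * y := mul_le_mul_left hx y
      _ = y := one_mul y

private theorem two_val {F : Type u} [Field F] [NumberField F] {v : HeightOneSpectrum (𝓞 F)}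
    (hv : (2 : 𝓞 F) ∉ v.asIdeal) : v.valuation F (2 : F) = 1 := by
  have h1 : (2 : F) = algebraMap (𝓞 F) F 2 := by rw [map_ofNat]
  rw [h1, HeightOneSpectrum.valuation_eq_one_iff_notMem]
  exact hv

private theorem int_val {F : Type u} [Field F] [NumberField F] (v : HeightOneSpectrum (𝓞 F)) {x : F}
    (hx : IsIntegral ℤ x) : v.valuation F x ≤ 1 := by
  obtain ⟨y, rfl⟩ : ∃ y : 𝓞 F, algebraMap (𝓞 F) F y = x := ⟨⟨x, hx⟩, rfl⟩
  exact v.valuation_le_one y

theorem roots_exist {F : Type u} [Field F] [CharZero F] {i r : F} (hi : i ^ 2 = -1) (hr : r ^ 2 = 2)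
    {a b : ℤ} (h : G2 a b) : ∃ e2 e3 : F, e2 + e3 = -a ∧ e2 * e3 = b ∧ e2 ≠ e3 ∧ e2 ≠ 0 ∧ e3 ≠ 0 := by
  obtain ⟨m, hm⟩ := sq_disc h
  have hne := h.ne
  obtain ⟨t, ht⟩ : ∃ t : F, t ^ 2 = (a : F) ^ 2 - 4 * b := by
    rcases hm with hm | hm
    · refine ⟨r ^ m, ?_⟩
      have h1 : (a : F) ^ 2 - 4 * b = 2 ^ m := by exact_mod_cast congrArg (fun z : ℤ => (z : F)) hm
      rw [h1, ← pow_mul, mul_comm, pow_mul, hr]
    · refine ⟨i * r ^ m, ?_⟩
      have h1 : (a : F) ^ 2 - 4 * b = -2 ^ m := by exact_mod_cast congrArg (fun z : ℤ => (z : F)) hm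
      rw [h1, mul_pow, hi, ← pow_mul, mul_comm m 2, pow_mul, hr]
      ring
  have hb : (b : F) ≠ 0 := by exact_mod_cast hne.1
  have hd : (a : F) ^ 2 - 4 * b ≠ 0 := by exact_mod_cast hne.2
  have ht0 : t ≠ 0 := by
    intro h0
    rw [h0] at ht
    apply hd
    rw [← ht]
    ring
  have h2 : (2 : F) ≠ 0 := two_ne_zero
  have hprod : (-(a : F) + t) / 2 * ((-a - t) / 2) = b := by
    have h3 : (-(a : F) + t) / 2 * ((-a - t) / 2) = (a ^ 2 - t ^ 2) / 4 := by ring
    rw [h3, ht]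
    ring
  refine ⟨(-a + t) / 2, (-a - t) / 2, by ring, hprod, ?_, ?_, ?_⟩
  · intro h3
    apply ht0
    have h4 : (-(a : F) + t) / 2 - (-a - t) / 2 = t := by ring
    rw [← h4, h3, sub_self]
  · intro h3
    rw [h3, zero_mul] at hprod
    exact hb hprod.symm
  · intro h3
    rw [h3, mul_zero] at hprod
    exact hb hprod.symm

theorem good_of_G2 {F : Type u} [Field F] [NumberField F] {a b : ℤ} (h : G2 a b) {e1 e2 e3 : F}
    (h12 : e1 ≠ e2) (h23 : e2 ≠ e3) (h31 : e3 ≠ e1) (he : legendre e1 e2 e3 = cv (a : F) (b : F)) :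
    multPlaces e1 e2 e3 ∪ addPlaces e1 e2 e3 = ∅ := by
  have e1s : -(e1 + e2 + e3) = (a : F) := congrArg WeierstrassCurve.a₂ he
  have e2s : e1 * e2 + e2 * e3 + e3 * e1 = (b : F) := congrArg WeierstrassCurve.a₄ he
  have e3s : -(e1 * e2 * e3) = 0 := congrArg WeierstrassCurve.a₆ he
  have hint : ∀ e : F, e ^ 3 + a * e ^ 2 + b * e = 0 → IsIntegral ℤ e := by
    intro e hroot
    refine ⟨Polynomial.X ^ 3 + Polynomial.C a * Polynomial.X ^ 2 + Polynomial.C b * Polynomial.X,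
      ?_, ?_⟩
    · monicity!
    · simp only [Polynomial.eval₂_add, Polynomial.eval₂_mul, Polynomial.eval₂_pow,
        Polynomial.eval₂_X, Polynomial.eval₂_C]
      exact_mod_cast hroot
  have hi1 : IsIntegral ℤ e1 := hint e1 (by
    rw [← e1s, ← e2s]
    linear_combination -e3s)
  have hi2 : IsIntegral ℤ e2 := hint e2 (by
    rw [← e1s, ← e2s]
    linear_combination -e3s)
  have hi3 : IsIntegral ℤ e3 := hint e3 (by
    rw [← e1s, ← e2s]
    linear_combination -e3s)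
  have hall : ∀ v : HeightOneSpectrum (𝓞 F), (2 : 𝓞 F) ∉ v.asIdeal →
      v.valuation F (e1 - e2) = 1 ∧ v.valuation F (e2 - e3) = 1 ∧ v.valuation F (e3 - e1) = 1 := by
    intro v hv
    have h2 := two_val hv
    have hz : ∀ n : ℤ, v.valuation F (n : F) ≤ 1 := fun n =>
      int_val v (by simpa using (isIntegral_algebraMap (R := ℤ) (A := F) (x := n)))
    have hbd : v.valuation F (b : F) = 1 ∧ v.valuation F ((a : F) ^ 2 - 4 * b) = 1 := by
      apply one_one (hz b)
      · have := hz (a ^ 2 - 4 * b)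
        push_cast at this
        exact this
      · rw [← map_mul]
        obtain ⟨k, hk⟩ := h
        rcases hk with hk | hk
        · have h1 : (b : F) * ((a : F) ^ 2 - 4 * b) = 2 ^ k := by
            exact_mod_cast congrArg (fun z : ℤ => (z : F)) hk
          rw [h1, map_pow, h2, one_pow]
        · have h1 : (b : F) * ((a : F) ^ 2 - 4 * b) = -2 ^ k := by
            exact_mod_cast congrArg (fun z : ℤ => (z : F)) hk
          rw [h1, Valuation.map_neg, map_pow, h2, one_pow]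
    have hdisc : ((e1 - e2) * ((e2 - e3) * (e3 - e1))) ^ 2 = (b : F) ^ 2 * ((a : F) ^ 2 - 4 * b) := by
      rw [← e1s, ← e2s]
      have h0 : e1 * e2 * e3 = 0 := neg_eq_zero.1 e3s
      linear_combination (-4 * (e1 + e2 + e3) ^ 3 + 18 * (e1 + e2 + e3) *
        (e1 * e2 + e2 * e3 + e3 * e1) - 27 * (e1 * e2 * e3)) * h0
    have hv2 : v.valuation F ((e1 - e2) * ((e2 - e3) * (e3 - e1))) ^ 2 = 1 := by
      rw [← map_pow, hdisc, map_mul, map_pow, hbd.1, hbd.2, one_pow, one_mul]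
    have l1 := int_val v (hi1.sub hi2)
    have l2 := int_val v (hi2.sub hi3)
    have l3 := int_val v (hi3.sub hi1)
    have l23 : v.valuation F ((e2 - e3) * (e3 - e1)) ≤ 1 := int_val v ((hi2.sub hi3).mul (hi3.sub hi1))
    have l123 : v.valuation F ((e1 - e2) * ((e2 - e3) * (e3 - e1))) ≤ 1 :=
      int_val v ((hi1.sub hi2).mul ((hi2.sub hi3).mul (hi3.sub hi1)))
    have h3 := (one_one l123 l123 (by rw [← sq]; exact hv2)).1
    rw [map_mul] at h3
    obtain ⟨k1, k2⟩ := one_one l1 l23 h3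
    rw [map_mul] at k2
    obtain ⟨k3, k4⟩ := one_one l2 l3 k2
    exact ⟨k1, k3, k4⟩
  ext v
  simp only [Set.mem_union, Set.mem_empty_iff_false, iff_false, not_or]
  constructor
  · rintro ⟨h1, -, h3⟩
    obtain ⟨x, y, z⟩ := hall v h1
    exact h3 ⟨x.trans y.symm, y.trans z.symm⟩
  · rintro ⟨h1, h2⟩
    obtain ⟨x, y, z⟩ := hall v h1
    apply h2
    unfold diffVal
    rw [x, y, z, max_self, max_self]
    exact ⟨1, (one_mul 1).symm⟩

end Pool.Agent.Work.MP_787500_nt.GO
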