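import Mathlib
import Pool.Agent.Work.MP_787500_nt.GO.ClDef
import Pool.Agent.Work.MP_787500_nt.GO.ClD
import Pool.Agent.Work.MP_787500_nt.GO.ClE

/-!
# Module FiA: the quadratic twists by elements of the field
-/

set_option autoImplicit false

namespace Pool.Agent.Work.MP_787500_nt.GO

open WithZero IsDedekindDomain NumberField WeierstrassCurve WeierstrassCurve.Affine

universe u

open scoped Classical in
private theorem tw_step {K : Type u} [Field K] [NumberField K]
    {F F₁ : Type u} [Field F] [NumberField F] [Algebra K F] [Field F₁]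
    [NumberField F₁] [Algebra K F₁] [Algebra F F₁] [IsScalarTower K F F₁]
    (h2 : Module.finrank F F₁ = 2) {a b : ℤ} (h0 : b ≠ 0) (h1 : a ^ 2 - 4 * b ≠ 0)
    {d : F} {δ : F₁} (hδ : δ ^ 2 = algebraMap F F₁ d)
    (hne : δ ∉ Set.range (algebraMap F F₁))
    (hF : Module.finrank ℤ (cv (a : F) (b : F)).Point = Module.finrank K F)
    (hF₁ : AddGroup.FG (cv (a : F₁) (b : F₁)).Point ∧
      Module.finrank ℤ (cv (a : F₁) (b : F₁)).Point = Module.finrank K F₁) :
    AddGroup.FG (cv (d * (a : F)) (d ^ 2 * (b : F))).Point ∧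
      Module.finrank ℤ (cv (d * (a : F)) (d ^ 2 * (b : F))).Point = Module.finrank K F := by
  have hb' : (b : F) ≠ 0 := Int.cast_ne_zero.2 h0
  have hab' : (a : F) ^ 2 - 4 * (b : F) ≠ 0 := by
    have : ((a ^ 2 - 4 * b : ℤ) : F) ≠ 0 := Int.cast_ne_zero.2 h1
    push_cast at this
    exact this
  obtain ⟨hfg, hrk⟩ := hF₁
  have key := finrank_twist_cv (F := F) (F' := F₁) h2 hb' hab' hδ hne
  rw [map_intCast, map_intCast] at key
  obtain ⟨k1, k2⟩ := key hfg
  refine ⟨k1, ?_⟩
  have h7 : Module.finrank K F₁ = Module.finrank K F * 2 := by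
    rw [← h2]
    exact (Module.finrank_mul_finrank K F F₁).symm
  rw [hrk, hF, h7] at k2
  omega

open scoped Classical in
theorem AllR.twist {K : Type u} [Field K] [NumberField K] {s : K} {a b : ℤ} (h0 : b ≠ 0)
    (h1 : a ^ 2 - 4 * b ≠ 0) (h : AllR K s a b) {F F' : Type u} [Field F] [NumberField F]
    [Algebra K F] [Field F'] [NumberField F'] [Algebra K F'] [Algebra F F'] [IsScalarTower K F F']
    (hD : HD.DihField K F' s) {d : F} {δ : F'} (hd : d ≠ 0) (hδ : δ ^ 2 = algebraMap F F' d) :
    AddGroup.FG (cv (d * (a : F)) (d ^ 2 * (b : F))).Point ∧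
      Module.finrank ℤ (cv (d * (a : F)) (d ^ 2 * (b : F))).Point = Module.finrank K F := by
  by_cases hr : δ ∈ Set.range (algebraMap F F')
  · obtain ⟨δ₀, rfl⟩ := hr
    rw [← map_pow] at hδ
    have hd' : d = δ₀ ^ 2 := (algebraMap F F').injective hδ.symm
    subst hd'
    have hδ₀ : δ₀ ≠ 0 := fun h0 => hd (by rw [h0]; ring)
    have hb' : (b : F) ≠ 0 := Int.cast_ne_zero.2 h0
    have hab' : (a : F) ^ 2 - 4 * (b : F) ≠ 0 := by
      have : ((a ^ 2 - 4 * b : ℤ) : F) ≠ 0 := Int.cast_ne_zero.2 h1
      push_cast at this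
      exact this
    obtain ⟨e⟩ := scale_equiv (a : F) (b : F) hb' hab' hδ₀
    obtain ⟨hfg, hrk⟩ := h F F' hD
    have e4 : (δ₀ ^ 2) ^ 2 * (b : F) = δ₀ ^ 4 * (b : F) := by ring
    rw [e4]
    refine ⟨?_, ?_⟩
    · have := hfg
      exact AddGroup.fg_of_surjective (f := e.toAddMonoidHom) e.surjective
    · rw [← hrk]
      exact e.symm.toIntLinearEquiv.finrank_eq
  · have hfin : Module.Finite F F' := Module.Finite.of_restrictScalars_finite ℚ F F'
    have hint : IsIntegral F δ := Algebra.IsIntegral.isIntegral δ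
    have hN : NumberField (IntermediateField.adjoin F {δ}) := NumberField.of_module_finite F _
    have h2 : Module.finrank F (IntermediateField.adjoin F {δ}) = 2 := by
      rw [IntermediateField.adjoin.finrank hint]
      have hmin : minpoly F δ ∣ Polynomial.X ^ 2 - Polynomial.C d := by
        apply minpoly.dvd
        rw [map_sub, map_pow, Polynomial.aeval_X, Polynomial.aeval_C, hδ, sub_self]
      have hdeg : (minpoly F δ).natDegree ≤ 2 := by
        have h3 := Polynomial.natDegree_le_of_dvd hmin
          (Polynomial.X_pow_sub_C_ne_zero (by norm_num) d)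
        rwa [Polynomial.natDegree_X_pow_sub_C] at h3
      have hpos : 0 < (minpoly F δ).natDegree := minpoly.natDegree_pos hint
      have hne1 : (minpoly F δ).natDegree ≠ 1 := by
        intro h3
        exact hr (minpoly.mem_range_of_degree_eq_one F δ (by
          rw [Polynomial.degree_eq_natDegree (minpoly.ne_zero hint), h3]
          rfl))
      omega
    have hST : IsScalarTower K (IntermediateField.adjoin F {δ}) F' :=
      IsScalarTower.of_algebraMap_eq fun x => by
        rw [IsScalarTower.algebraMap_apply K F F' x,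
          IsScalarTower.algebraMap_apply K F (IntermediateField.adjoin F {δ}) x]
        rfl
    refine tw_step h2 h0 h1 (δ := (⟨δ, IntermediateField.mem_adjoin_simple_self F δ⟩ :
      IntermediateField.adjoin F {δ})) (Subtype.ext hδ) ?_ (h F F' hD).2
      (h (IntermediateField.adjoin F {δ}) F' hD)
    rintro ⟨x, hx⟩
    exact hr ⟨x, congrArg Subtype.val hx⟩

end Pool.Agent.Work.MP_787500_nt.GO
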