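import Mathlib
import Pool.Agent.Work.MP_787500_nt.H10_Kappa
import Pool.Agent.Work.MP_787500_nt.AC.IsoDefs

/-!
# Definitions for the modules De of the folder GO. Do not change.

`L` is a finite extension of `F`, `W` a curve over `F`. Points over the algebraic closures of `L` and `F`.
-/

set_option autoImplicit false

namespace Pool.Agent.Work.MP_787500_nt.GO

open IsDedekindDomain NumberField WeierstrassCurve WeierstrassCurve.Affine
open Pool.Agent.Work.MP_787500_nt
open Pool.Agent.Work.MP_787500_nt.AC
open Pool.Agent.Work.MP_787500_nt.OddP (AbsGal cocycles cobLin)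

universe u

section cast

theorem bc_bc {F L Ω : Type*} [Field F] [Field L] [Field Ω] [Algebra F L] [Algebra F Ω] [Algebra L Ω]
    [IsScalarTower F L Ω] (W : WeierstrassCurve.Affine F) : ((W⁄L)⁄Ω) = (W⁄Ω) := by
  have h : (algebraMap L Ω).comp (algebraMap F L) = algebraMap F Ω :=
    (IsScalarTower.algebraMap_eq F L Ω).symm
  show WeierstrassCurve.map (WeierstrassCurve.map W (algebraMap F L)) (algebraMap L Ω) =
    WeierstrassCurve.map W (algebraMap F Ω)
  rw [WeierstrassCurve.map_map, h]

open scoped Classical in
/-- the points on equal curves -/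
noncomputable def castPt {Ω : Type*} [Field Ω] {E E' : WeierstrassCurve.Affine Ω} (h : E = E') :
    E.Point ≃+ E'.Point := by
  subst h
  exact AddEquiv.refl _

open scoped Classical in
theorem castPt_some {Ω : Type*} [Field Ω] {E E' : WeierstrassCurve.Affine Ω} (h : E = E') {x y : Ω}
    (hn : E.Nonsingular x y) :
    ∃ hn' : E'.Nonsingular x y, castPt h (Point.some x y hn) = Point.some x y hn' := by
  subst h
  exact ⟨hn, rfl⟩

open scoped Classical in
/-- The points of the curve `W` over an extension `Ω` of `L`. -/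
noncomputable def cst {F : Type*} (L Ω : Type*) [Field F] [Field L] [Field Ω] [Algebra F L]
    [Algebra F Ω] [Algebra L Ω] [IsScalarTower F L Ω] (W : WeierstrassCurve.Affine F) :
    ((W⁄L)⁄Ω).Point ≃+ (W⁄Ω).Point := castPt (bc_bc W)

open scoped Classical in
theorem cst_some {F L Ω : Type*} [Field F] [Field L] [Field Ω] [Algebra F L]
    [Algebra F Ω] [Algebra L Ω] [IsScalarTower F L Ω] (W : WeierstrassCurve.Affine F) {x y : Ω}
    (hn : ((W⁄L)⁄Ω).Nonsingular x y) :
    ∃ hn' : (W⁄Ω).Nonsingular x y, cst L Ω W (Point.some x y hn) = Point.some x y hn' :=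
  castPt_some (bc_bc W) hn

open scoped Classical in
theorem cst_map {F L Ω Ω' : Type*} [Field F] [Field L] [Field Ω] [Field Ω'] [Algebra F L]
    [Algebra F Ω] [Algebra L Ω] [IsScalarTower F L Ω] [Algebra F Ω'] [Algebra L Ω']
    [IsScalarTower F L Ω'] (W : WeierstrassCurve.Affine F) (f : Ω →ₐ[L] Ω')
    (P : ((W⁄L)⁄Ω).Point) :
    cst L Ω' W (Point.map (W' := (W⁄L)) f P) =
      Point.map (W' := W) (f.restrictScalars F) (cst L Ω W P) := by
  rcases P with _ | ⟨x, y, hn⟩
  · show cst L Ω' W (Point.map (W' := (W⁄L)) f 0) =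
      Point.map (W' := W) (f.restrictScalars F) (cst L Ω W 0)
    rw [map_zero, map_zero, map_zero, map_zero]
  · rw [Point.map_some]
    obtain ⟨h1, h2⟩ := cst_some (L := L) W hn
    rw [h2, Point.map_some]
    obtain ⟨h3, h4⟩ := cst_some (L := L) (Ω := Ω') W
      (((W⁄L).baseChange_nonsingular f.injective x y).mpr hn)
    exact h4

end cast

section closure

variable {F L : Type u} [Field F] [Field L] [Algebra F L]

/-- the restriction of the automorphisms to the closure of `F` -/
noncomputable def resG (φ : AlgebraicClosure L ≃ₐ[F] AlgebraicClosure F) : AbsGal L →* AbsGal F where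
  toFun σ := φ.symm.trans ((AlgEquiv.restrictScalars F σ).trans φ)
  map_one' := by
    ext x
    exact φ.apply_symm_apply x
  map_mul' σ τ := by
    ext x
    show φ (σ (τ (φ.symm x))) = φ (σ (φ.symm (φ (τ (φ.symm x)))))
    rw [φ.symm_apply_apply]

theorem resG_apply (φ : AlgebraicClosure L ≃ₐ[F] AlgebraicClosure F) (σ : AbsGal L)
    (x : AlgebraicClosure L) : resG φ σ (φ x) = φ (σ x) := by
  show φ (σ (φ.symm (φ x))) = _
  rw [φ.symm_apply_apply]

open scoped Classical in
/-- The points over the closure of `L` and over the closure of `F`. -/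
noncomputable def ptT (W : WeierstrassCurve.Affine F)
    (φ : AlgebraicClosure L ≃ₐ[F] AlgebraicClosure F) :
    ((W⁄L)⁄(AlgebraicClosure L)).Point ≃+ (W⁄(AlgebraicClosure F)).Point :=
  (cst L (AlgebraicClosure L) W).trans
    { toFun := Point.map (W' := W) (φ : AlgebraicClosure L →ₐ[F] AlgebraicClosure F)
      invFun := Point.map (W' := W) (φ.symm : AlgebraicClosure F →ₐ[F] AlgebraicClosure L)
      left_inv := fun P => by
        rw [Point.map_map]
        have h : (φ.symm : AlgebraicClosure F →ₐ[F] AlgebraicClosure L).comp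
            (φ : AlgebraicClosure L →ₐ[F] AlgebraicClosure F) = AlgHom.id F _ := by
          ext x
          exact φ.symm_apply_apply x
        rw [h]
        rcases P with _ | ⟨x, y, hn⟩
        · rfl
        · rfl
      right_inv := fun P => by
        rw [Point.map_map]
        have h : (φ : AlgebraicClosure L →ₐ[F] AlgebraicClosure F).comp
            (φ.symm : AlgebraicClosure F →ₐ[F] AlgebraicClosure L) = AlgHom.id F _ := by
          ext x
          exact φ.apply_symm_apply x
        rw [h]
        rcases P with _ | ⟨x, y, hn⟩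
        · rfl
        · rfl
      map_add' := map_add _ }

open scoped Classical in
theorem ptT_apply (W : WeierstrassCurve.Affine F)
    (φ : AlgebraicClosure L ≃ₐ[F] AlgebraicClosure F) (P : ((W⁄L)⁄(AlgebraicClosure L)).Point) :
    ptT W φ P = Point.map (W' := W) (φ : AlgebraicClosure L →ₐ[F] AlgebraicClosure F)
      (cst L (AlgebraicClosure L) W P) := rfl

open scoped Classical in
/-- the automorphisms act on the points -/
theorem ptT_gact (W : WeierstrassCurve.Affine F)
    (φ : AlgebraicClosure L ≃ₐ[F] AlgebraicClosure F) (σ : AbsGal L)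
    (P : ((W⁄L)⁄(AlgebraicClosure L)).Point) :
    ptT W φ (gact (W⁄L) σ P) = gact W (resG φ σ) (ptT W φ P) := by
  rw [ptT_apply, ptT_apply, gact, gact, cst_map, Point.map_map, Point.map_map]
  congr 1
  congr 1
  ext x
  exact (resG_apply φ σ x).symm

/-- the closure of `L` is a closure of `F` -/
theorem exists_phi [Algebra.IsAlgebraic F L] :
    Nonempty (AlgebraicClosure L ≃ₐ[F] AlgebraicClosure F) := by
  have : Algebra.IsAlgebraic F (AlgebraicClosure L) := Algebra.IsAlgebraic.trans F L _
  have : IsAlgClosure F (AlgebraicClosure L) := ⟨inferInstance, inferInstance⟩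
  exact ⟨IsAlgClosure.equiv F (AlgebraicClosure L) (AlgebraicClosure F)⟩

end closure

end Pool.Agent.Work.MP_787500_nt.GO
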