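import Mathlib
import Pool.Agent.Work.MP_787500_nt.GO.DeDefs

/-!
# Module DeB (size S-M): the restriction of the Galois groups is continuous, with open image

`resG φ` (in `DeDefs.lean`) is `σ ↦ φ σ φ⁻¹`, `resG_apply`. `L` is finite over `F`.
* `resG_injective`: from `resG_apply`, injectivity of `φ`.
* `resG_continuous`: both groups have the Krull topology. By `continuous_of_continuousAt_one` and
  `krullTopology_mem_nhds_one_iff` (basis of neighbourhoods of 1: the `fixingSubgroup` of the intermediate fields of finite
  degree): let `E` be of finite degree over `F` in the closure of `F`, `E = F(S)` with `S` finite (or take `S` the set of a finite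
  basis of `E` over `F`); let `E' = L(φ⁻¹ S)` (`IntermediateField.adjoin L (φ.symm '' S)`, of finite degree over `L` because
  the elements are integral, `IntermediateField.finiteDimensional_adjoin`). If `σ` fixes `E'` then `φ σ φ⁻¹` fixes `F` and `S`, so
  it fixes `E`.
* `resG_finiteIndex`: the range of `resG φ` is the fixing subgroup of the intermediate field `E₀ = φ(L)` (the field range of
  `φ ∘ (algebraMap L _)`, of finite degree over `F`): if `g` fixes `E₀` then `φ⁻¹ g φ` is an automorphism of the closure of `L` that
  is the identity on `L` (`AlgEquiv.ofRingEquiv`), and `resG φ` maps it to `g`. `IntermediateField.fixingSubgroup_isOpen` and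
  compactness (`krullTopology` compact: instance in `Mathlib/FieldTheory/Galois/Profinite.lean`, needs
  `IsGalois F (AlgebraicClosure F)`, true in characteristic 0) give the finite index
  (`Subgroup.finiteIndex_of_finite_quotient`, `Subgroup.quotient_finite_of_isOpen`); or use
  `IntermediateField` lemmas on the index of `fixingSubgroup`. It is enough that the range CONTAINS this open subgroup
  (`Subgroup.finiteIndex_of_le`).
-/

set_option autoImplicit false

namespace Pool.Agent.Work.MP_787500_nt.GO

open IsDedekindDomain NumberField WeierstrassCurve WeierstrassCurve.Affine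
open Pool.Agent.Work.MP_787500_nt
open Pool.Agent.Work.MP_787500_nt.AC
open Pool.Agent.Work.MP_787500_nt.OddP (AbsGal cocycles cobLin)

universe u

variable {F L : Type u} [Field F] [Field L] [Algebra F L]

theorem resG_injective (φ : AlgebraicClosure L ≃ₐ[F] AlgebraicClosure F) :
    Function.Injective (resG φ) := by
  intro σ τ h
  apply AlgEquiv.ext
  intro x
  apply φ.injective
  rw [← resG_apply, ← resG_apply, h]

theorem resG_continuous (φ : AlgebraicClosure L ≃ₐ[F] AlgebraicClosure F) :
    Continuous (resG φ) := by
  apply continuous_of_continuousAt_one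
  rw [ContinuousAt, map_one]
  intro s hs
  rw [krullTopology_mem_nhds_one_iff] at hs
  obtain ⟨E, hE, hEs⟩ := hs
  rw [Filter.mem_map, krullTopology_mem_nhds_one_iff]
  set b := Module.finBasis F E with hb
  set S : Set (AlgebraicClosure L) := Set.range fun i => φ.symm (b i : AlgebraicClosure F) with hS
  have hfin : Finite S := Set.finite_range _
  refine ⟨IntermediateField.adjoin L S, ?_, ?_⟩
  · exact IntermediateField.finiteDimensional_adjoin fun x _ =>
      Algebra.IsIntegral.isIntegral x
  · intro σ hσ
    apply hEs
    rw [SetLike.mem_coe, IntermediateField.mem_fixingSubgroup_iff] at hσ ⊢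
    have h1 : ∀ i, resG φ σ (b i : AlgebraicClosure F) = b i := by
      intro i
      have h2 := hσ (φ.symm (b i : AlgebraicClosure F))
        (IntermediateField.subset_adjoin L S ⟨i, rfl⟩)
      have h3 := resG_apply φ σ (φ.symm (b i : AlgebraicClosure F))
      rwa [h2, φ.apply_symm_apply] at h3
    intro x hx
    have h4 : (x : AlgebraicClosure F) = ∑ i, b.repr ⟨x, hx⟩ i • (b i : AlgebraicClosure F) := by
      have h5 := congrArg E.val (b.sum_repr ⟨x, hx⟩)
      rw [map_sum] at h5
      simp only [map_smul] at h5
      exact h5.symm
    rw [h4, map_sum]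
    refine Finset.sum_congr rfl fun i _ => ?_
    rw [map_smul, h1]

theorem resG_finiteIndex [CharZero F] [FiniteDimensional F L]
    (φ : AlgebraicClosure L ≃ₐ[F] AlgebraicClosure F) : (resG φ).range.FiniteIndex := by
  set ψ : L →ₐ[F] AlgebraicClosure F :=
    (φ : AlgebraicClosure L →ₐ[F] AlgebraicClosure F).comp
      (IsScalarTower.toAlgHom F L (AlgebraicClosure L)) with hψ
  have hψa : ∀ l : L, ψ l = φ (algebraMap L (AlgebraicClosure L) l) := fun l => rfl
  have hfd : FiniteDimensional F ψ.fieldRange := by
    have h1 : FiniteDimensional F (LinearMap.range ψ.toLinearMap) := inferInstance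
    exact h1
  have h1 : ψ.fieldRange.fixingSubgroup ≤ (resG φ).range := by
    intro g hg
    rw [IntermediateField.mem_fixingSubgroup_iff] at hg
    refine ⟨AlgEquiv.ofRingEquiv (f := ((φ.trans g).trans φ.symm).toRingEquiv) ?_, ?_⟩
    · intro l
      show φ.symm (g (φ (algebraMap L (AlgebraicClosure L) l))) = algebraMap L (AlgebraicClosure L) l
      rw [← hψa, hg (ψ l) ⟨l, rfl⟩, hψa, φ.symm_apply_apply]
    · apply AlgEquiv.ext
      intro x
      show φ (φ.symm (g (φ (φ.symm x)))) = g x
      rw [φ.apply_symm_apply, φ.apply_symm_apply]
  have h2 : ψ.fieldRange.fixingSubgroup.FiniteIndex := by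
    constructor
    rw [← IntermediateField.finrank_eq_fixingSubgroup_index]
    exact Module.finrank_pos.ne'
  exact Subgroup.finiteIndex_of_le h1

end Pool.Agent.Work.MP_787500_nt.GO
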