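import Mathlib
import Pool.Agent.Work.MP_787500_nt.H10_Local
import Pool.Agent.Work.MP_787500_nt.RS.Defs

/-!
# Module DeC (size M): the completions of a number field and of an extension

`w` is a finite place of `L`, `v` the place of `F` below (the ideal `w.asIdeal.comap (algebraMap (𝓞 F) (𝓞 L))`, prime, not zero
because `𝓞 L` is integral over `𝓞 F`: `Ideal.comap_ne_bot_of_integral_mem` or `Ideal.IsIntegralClosure.comap_ne_bot`; see also
`H10_Val.lean`). The ring homomorphism `F → L → L_w` is continuous for the topology of `v` on `F` and extends to the completion: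
`L_w` is complete. Ways to do it:
* (a) `v.adicCompletion F` is a structure around `UniformSpace.Completion (WithVal (v.valuation F))` (`toCompletion`,
  `adicCompletion` in `Mathlib/RingTheory/DedekindDomain/AdicValuation.lean`), use `UniformSpace.Completion.extensionHom` (it needs
  continuity of the ring homomorphism from `WithVal (v.valuation F)`), or
* (b) `IsDenseInducing.extendRingHom` / `IsDenseInducing.extend` for the dense map `algebraMap F (v.adicCompletion F)`
  (`denseRange_algebraMap`) whose uniform structure is induced.
Continuity: for `x : F`, `v.valuation F x < 1` implies `w.valuation L (algebraMap F L x) < 1`, and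
`w.valuation L (algebraMap F L x) = (v.valuation F x) ^ e` for the ramification index `e ≥ 1` (search Mathlib:
`IsDedekindDomain.HeightOneSpectrum.valuation_comap` / `valuation_liesOver`), or weaker:
if `v.valuation F x ≤ exp (-n)` then `w.valuation L (algebraMap F L x) ≤ exp (-n)` for `n : ℕ` (for `x` a quotient `a / b` with
`b ∉ v`: `a ∈ v ^ n`, so its image is in `w ^ n`; `H10_Val.lean` has such lemmas, also `exists_close`,
`VC` in `H10_Local.lean`, `H10_Gen.lean`, `RS/ComplA.lean`, `RS/ComplB.lean` on the completion).
-/

set_option autoImplicit false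

namespace Pool.Agent.Work.MP_787500_nt.GO

open WithZero IsDedekindDomain NumberField
open Pool.Agent.Work.MP_787500_nt

theorem exists_compl {F L : Type*} [Field F] [NumberField F] [Field L] [NumberField L] [Algebra F L]
    (w : HeightOneSpectrum (𝓞 L)) :
    ∃ (v : HeightOneSpectrum (𝓞 F)) (j : v.adicCompletion F →+* w.adicCompletion L), ∀ x : F,
      j (algebraMap F (v.adicCompletion F) x) =
        algebraMap L (w.adicCompletion L) (algebraMap F L x) := by
  have hb : w.asIdeal.comap (algebraMap (𝓞 F) (𝓞 L)) ≠ ⊥ := by
    haveI := w.isPrime
    exact Ideal.comap_ne_bot_of_integral_mem (I := w.asIdeal) (x := (Classical.choose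
      (Submodule.exists_mem_ne_zero_of_ne_bot w.ne_bot)))
      (Classical.choose_spec (Submodule.exists_mem_ne_zero_of_ne_bot w.ne_bot)).2
      (Classical.choose_spec (Submodule.exists_mem_ne_zero_of_ne_bot w.ne_bot)).1
      (Algebra.IsIntegral.isIntegral _)
  let v : HeightOneSpectrum (𝓞 F) :=
    ⟨w.asIdeal.comap (algebraMap (𝓞 F) (𝓞 L)), w.isPrime.comap _, hb⟩
  haveI : w.asIdeal.LiesOver v.asIdeal := ⟨rfl⟩
  let f := algebraMap (WithVal (v.valuation F)) (WithVal (w.valuation L))
  have hf : Continuous f :=
    (HeightOneSpectrum.uniformContinuous_algebraMap_liesOver F L v w).continuous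
  refine ⟨v, (HeightOneSpectrum.adicCompletion.equiv L w).symm.toRingHom.comp
    ((UniformSpace.Completion.mapRingHom f hf).comp
      (HeightOneSpectrum.adicCompletion.equiv F v).toRingHom), fun x => ?_⟩
  apply HeightOneSpectrum.adicCompletion.ext
  show UniformSpace.Completion.mapRingHom f hf ((algebraMap F (v.adicCompletion F) x).toCompletion) = _
  rw [HeightOneSpectrum.algebraMap_adicCompletion_toCompletion,
    HeightOneSpectrum.algebraMap_adicCompletion_toCompletion]
  exact UniformSpace.Completion.mapRingHom_coe hf _

end Pool.Agent.Work.MP_787500_nt.GO
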