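import Mathlib
import Pool.Agent.Work.MP_787500_nt.GO.DeDefs
import Pool.Agent.Work.MP_787500_nt.AC.SelL

/-!
# Module DeD (size M): local triviality over an extension

`E` is an extension of `F` (a completion), `E'` an extension of `L`, `j : E → E'` a ring homomorphism compatible with `F → L`. `c` is a
cocycle of the absolute Galois group of `F`, trivial over `E`. The restriction of `c` to the absolute Galois group of `L` is
trivial over `E'`.
PROOF. Write `Ω = AlgebraicClosure F`, `ΩL = AlgebraicClosure L`, `ΩE`, `ΩE'`. Algebra structures: `Algebra E E'` from `j`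
(`let _ := j.toAlgebra`), `ΩE'` is an algebra over `E`, over `L`, over `F` (`Algebra F E'` from `Algebra L E'`:
`((algebraMap L E').comp (algebraMap F L)).toAlgebra`), towers `F E ΩE'`, `F L ΩE'`.
(1) `ι : ΩL →ₐ[L] ΩE'` any embedding (`IsAlgClosed.lift`), `λ : ΩE →ₐ[E] ΩE'` any embedding, `ι₀ : Ω →ₐ[F] ΩE` any. The maps
`ι ∘ φ.symm` and `λ ∘ ι₀` from `Ω` to `ΩE'` are maps over `F`; as in the proof of `exists_aut` in `AC/SelL.lean`
(`Normal.algHomEquivAut`) they differ by an automorphism `g` of `Ω` over `F`: `λ (ι₀ (g x)) = ι (φ.symm x)`. Put `ι' = ι₀ ∘ g`.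
(2) `locTriv_at hc h ι'` (`AC/SelL.lean`) gives `P` over `ΩE` with `ι' (c σ) = τ P - P` for all `τ`, `σ` with `τ ∘ ι' = ι' ∘ σ`.
(3) Claim: `ι` and `P' = (cst L ΩE' W).symm (Point.map λ P)` show the local triviality over `E'`. Let `τ'` be an automorphism of
`ΩE'` over `E'`, `σ'` one of `ΩL` over `L`, `τ' (ι x) = ι (σ' x)`. As `ΩE / E` is normal, `τ' ∘ λ = λ ∘ τ` for an automorphism `τ` of `ΩE`
over `E` (`Normal.algHomEquivAut` again, or `AlgEquiv.restrictNormal`, applied to `τ' ∘ λ` as a map over `E`). With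
`σ = resG φ σ'`: `λ (τ (ι' x)) = τ' (λ (ι' x)) = τ' (ι (φ.symm x)) = ι (σ' (φ.symm x)) = ι (φ.symm (σ x)) = λ (ι' (σ x))`, so
`τ ∘ ι' = ι' ∘ σ`, and (2) gives `ι' (c σ) = τ P - P`. Apply `Point.map λ` and the inverse of `cst` (`cst_map` for `τ'` and for `ι`): this is
the claim; for the left side: `cst (Point.map ι ((ptT W φ).symm R)) = Point.map λ (Point.map ι' R)`: put `R = ptT W φ R'`,
`ptT_apply`, `cst_map`, `Point.map_map`, and the two algebra homomorphisms are equal by (1).
-/

set_option autoImplicit false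

namespace Pool.Agent.Work.MP_787500_nt.GO

open IsDedekindDomain NumberField WeierstrassCurve WeierstrassCurve.Affine
open Pool.Agent.Work.MP_787500_nt
open Pool.Agent.Work.MP_787500_nt.AC
open Pool.Agent.Work.MP_787500_nt.OddP (AbsGal cocycles cobLin)

universe u

private theorem aut_of_hom {F M : Type*} [Field F] [Field M] [Algebra F M]
    (ι ι' : AlgebraicClosure F →ₐ[F] M) :
    ∃ g : AlgebraicClosure F ≃ₐ[F] AlgebraicClosure F, ∀ x, ι (g x) = ι' x := by
  let _ : Algebra (AlgebraicClosure F) M := ι.toRingHom.toAlgebra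
  have : IsScalarTower F (AlgebraicClosure F) M :=
    IsScalarTower.of_algebraMap_eq fun x => (ι.commutes x).symm
  refine ⟨Normal.algHomEquivAut F M (AlgebraicClosure F) ι', fun x => ?_⟩
  have h := (Normal.algHomEquivAut F M (AlgebraicClosure F)).symm_apply_apply ι'
  exact DFunLike.congr_fun h x

open scoped Classical in
private theorem map_restrict {R S A B : Type*} [CommRing R] [CommRing S] [Field A] [Field B]
    [Algebra R S] [Algebra R A] [Algebra S A] [IsScalarTower R S A] [Algebra R B] [Algebra S B]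
    [IsScalarTower R S B] (W : WeierstrassCurve.Affine R) (f : A →ₐ[S] B) (P : (W⁄A).Point) :
    Point.map (W' := W) f P = Point.map (W' := W) (f.restrictScalars R) P := by
  rcases P with _ | ⟨x, y, hn⟩
  · rfl
  · rfl

open scoped Classical in
private theorem map_of_eq {R A : Type*} [CommRing R] [Field A] [Algebra R A]
    (W : WeierstrassCurve.Affine R) (f : A →ₐ[R] A) (hf : ∀ x, f x = x) (P : (W⁄A).Point) :
    P = Point.map (W' := W) f P := by
  have h : f = AlgHom.id R A := by
    ext x
    exact hf x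
  rw [h]
  rcases P with _ | ⟨x, y, hn⟩
  · rfl
  · rfl

open scoped Classical in
theorem locTriv_bc {F L : Type u} [Field F] [Field L] [Algebra F L]
    (φ : AlgebraicClosure L ≃ₐ[F] AlgebraicClosure F) {W : WeierstrassCurve.Affine F}
    {c : AbsGal F → (W⁄(AlgebraicClosure F)).Point}
    (hc : ∀ σ τ, c (σ * τ) = c σ + gact W σ (c τ)) {E E' : Type u} [Field E] [Field E']
    [Algebra F E] [Algebra L E'] (j : E →+* E')
    (hj : ∀ x : F, j (algebraMap F E x) = algebraMap L E' (algebraMap F L x))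
    (h : LocTriv W E c) :
    LocTriv (W⁄L) E' (fun σ => (ptT W φ).symm (c (resG φ σ))) := by
  let _ : Algebra F E' := ((algebraMap L E').comp (algebraMap F L)).toAlgebra
  have t1 : IsScalarTower F L E' := IsScalarTower.of_algebraMap_eq fun x => rfl
  let _ : Algebra E E' := j.toAlgebra
  have t2 : IsScalarTower F E E' := IsScalarTower.of_algebraMap_eq fun x => (hj x).symm
  let ι : AlgebraicClosure L →ₐ[L] AlgebraicClosure E' := IsAlgClosed.lift
  let l : AlgebraicClosure E →ₐ[E] AlgebraicClosure E' := IsAlgClosed.lift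
  obtain ⟨ι0, P0, hP0⟩ := id h
  obtain ⟨g, hg⟩ := aut_of_hom ((l.restrictScalars F).comp ι0)
    ((ι.restrictScalars F).comp (φ.symm : AlgebraicClosure F →ₐ[F] AlgebraicClosure L))
  let ι' : AlgebraicClosure F →ₐ[F] AlgebraicClosure E :=
    ι0.comp (g : AlgebraicClosure F →ₐ[F] AlgebraicClosure F)
  have hι' : ∀ x, l (ι' x) = ι (φ.symm x) := hg
  obtain ⟨P, hP⟩ := locTriv_at hc h ι'
  refine ⟨ι, (cst L (AlgebraicClosure E') W).symm
    (Point.map (W' := W) (l.restrictScalars F) P), fun τ' σ' hτ => ?_⟩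
  obtain ⟨τ, hτ2⟩ := aut_of_hom l
    (((τ' : AlgebraicClosure E' →ₐ[E'] AlgebraicClosure E').restrictScalars E).comp l)
  have hτ3 : ∀ x, l (τ x) = τ' (l x) := hτ2
  have hσ : ∀ x, τ (ι' x) = ι' (resG φ σ' x) := by
    intro x
    have key : l (τ (ι' x)) = l (ι' (resG φ σ' x)) := by
      rw [hτ3, hι', hι', hτ]
      congr 1
      show σ' (φ.symm x) = φ.symm (φ (σ' (φ.symm x)))
      rw [φ.symm_apply_apply]
    exact l.toRingHom.injective key
  have h1 := hP τ _ hσ
  have h2 : cst L (AlgebraicClosure L) W ((ptT W φ).symm (c (resG φ σ'))) =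
      Point.map (W' := W) (φ.symm : AlgebraicClosure F →ₐ[F] AlgebraicClosure L)
        (c (resG φ σ')) := by
    have h3 := ptT_apply W φ ((ptT W φ).symm (c (resG φ σ')))
    rw [(ptT W φ).apply_symm_apply] at h3
    conv_rhs => rw [h3, Point.map_map]
    exact map_of_eq W ((φ.symm : AlgebraicClosure F →ₐ[F] AlgebraicClosure L).comp
      (φ : AlgebraicClosure L →ₐ[F] AlgebraicClosure F)) (fun x => φ.symm_apply_apply x) _
  apply (cst L (AlgebraicClosure E') W).injective
  rw [map_sub, AddEquiv.apply_symm_apply, cst_map, h2, Point.map_map,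
    map_restrict (W⁄L) (τ' : AlgebraicClosure E' →ₐ[E'] AlgebraicClosure E'), cst_map,
    AddEquiv.apply_symm_apply, Point.map_map]
  have h4 : (ι.restrictScalars F).comp (φ.symm : AlgebraicClosure F →ₐ[F] AlgebraicClosure L) =
      (l.restrictScalars F).comp ι' := by
    ext x
    exact (hι' x).symm
  rw [h4, ← Point.map_map, h1, map_sub]
  congr 1
  rw [map_restrict W (τ : AlgebraicClosure E →ₐ[E] AlgebraicClosure E), Point.map_map]
  congr 1
  congr 1
  ext x
  exact hτ3 x

end Pool.Agent.Work.MP_787500_nt.GO
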