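import Mathlib
import Pool.Agent.Work.MP_787500_nt.GO.DeDefs
import Pool.Agent.Work.MP_787500_nt.GO.DeB
import Pool.Agent.Work.MP_787500_nt.GO.DeC
import Pool.Agent.Work.MP_787500_nt.GO.DeD
import Pool.Agent.Work.MP_787500_nt.AC.Gal
import Pool.Agent.Work.MP_787500_nt.AC.EYB

/-!
# Module DeE (size M): the Tate module and the Selmer cocycles over an extension

`tL W φ t` is the basis `t` as a sequence of points over the closure of `L`.
* `tateRep_bc`: `IsTateBasis` is invariant under the additive isomorphism `(ptT W φ).symm`; the action: `ptT_gact`, and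
  `(ptT W φ).symm (ev t c n) = ev (tL W φ t) c n` (`ev` is a combination with natural coefficients, `map_add`, `map_nsmul`).
* `exists_rep_bc`: transport the basis with `ptT W φ` (again `IsTateBasis`); the representation from `exists_rep` (used in the proof of
  `exists_tateRep` in `AC/Gal.lean`) with `gact_one`, `gact_mul`.
* `selE_bc`: `selE` is in `AC/EYDefs.lean`. Continuity: `resG_continuous`. The cocycle relation: `map_mul`. `KumLoc`: take the same `N` and
  `y (resG φ σ)`. For `n` and a place `w` of `L`: `exists_compl w` gives `v`, `j`; `locTriv_bc φ _ j hj (h n v)` for the function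
  `fun σ => ev t (y σ) n`, whose cocycle relation follows from that of `x`: `y (σ τ) = y σ + (ρ σ) (y τ)` (`int_coc` in `AC/SelL.lean`; the
  relation between `selE` and `cocycles ρ`: see `AC/EYB.lean`) and `map_ev`, `ev_add` (as in `AC/SelL.lean` or `kum_coc` in
  `AC/KumA.lean`).
-/

set_option autoImplicit false

namespace Pool.Agent.Work.MP_787500_nt.GO

open IsDedekindDomain NumberField WeierstrassCurve WeierstrassCurve.Affine
open Pool.Agent.Work.MP_787500_nt
open Pool.Agent.Work.MP_787500_nt.AC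
open Pool.Agent.Work.MP_787500_nt.OddP (AbsGal cocycles cobLin)

universe u

section

variable {F L : Type u} [Field F] [Field L] [Algebra F L]

private theorem basis_map {A B : Type*} [AddCommGroup A] [AddCommGroup B] (e : A ≃+ B)
    {t : Fin 2 → ℕ → A} (ht : IsTateBasis t) : IsTateBasis (fun j n => e (t j n)) := by
  refine ⟨fun j => ?_, fun j n => ?_, fun n Q hQ => ?_, fun n m hm => ?_⟩
  · show e (t j 0) = 0
    rw [ht.zero, map_zero]
  · show 2 • e (t j (n + 1)) = e (t j n)
    rw [← map_nsmul, ht.dbl]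
  · obtain ⟨m, hm⟩ := ht.span n (e.symm Q) (by rw [← map_nsmul, hQ, map_zero])
    refine ⟨m, ?_⟩
    show Q = m 0 • e (t 0 n) + m 1 • e (t 1 n)
    rw [← map_zsmul, ← map_zsmul, ← map_add, ← hm, e.apply_symm_apply]
  · apply ht.indep n m
    apply e.injective
    have h1 : m 0 • e (t 0 n) + m 1 • e (t 1 n) = 0 := hm
    rw [map_add, map_zsmul, map_zsmul, h1, map_zero]

private theorem ev_map {A B : Type*} [AddCommGroup A] [AddCommGroup B] (e : A →+ B)
    (t : Fin 2 → ℕ → A) (c : Fin 2 → ℤ_[2]) (n : ℕ) :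
    e (ev t c n) = ev (fun j n => e (t j n)) c n := by
  unfold ev
  rw [map_add, map_nsmul, map_nsmul]

open scoped Classical in
/-- the basis `t` over the closure of `L` -/
noncomputable def tL (W : WeierstrassCurve.Affine F)
    (φ : AlgebraicClosure L ≃ₐ[F] AlgebraicClosure F)
    (t : Fin 2 → ℕ → (W⁄(AlgebraicClosure F)).Point) :
    Fin 2 → ℕ → ((W⁄L)⁄(AlgebraicClosure L)).Point := fun j n => (ptT W φ).symm (t j n)

theorem tateRep_bc (φ : AlgebraicClosure L ≃ₐ[F] AlgebraicClosure F) {W : WeierstrassCurve.Affine F}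
    {t : Fin 2 → ℕ → (W⁄(AlgebraicClosure F)).Point}
    {ρ : AbsGal F →* Matrix (Fin 2) (Fin 2) ℤ_[2]} (hr : IsTateRep W t ρ) :
    IsTateRep (W⁄L) (tL W φ t) (ρ.comp (resG φ)) := by
  classical
  refine ⟨basis_map (ptT W φ).symm hr.1, fun σ j n => ?_⟩
  apply (ptT W φ).injective
  rw [ptT_gact]
  have h1 : ptT W φ (tL W φ t j n) = t j n := (ptT W φ).apply_symm_apply _
  rw [h1, hr.2]
  have h2 := ev_map (ptT W φ).toAddMonoidHom (tL W φ t) (fun i => ρ (resG φ σ) i j) n
  have h3 : (fun j n => (ptT W φ).toAddMonoidHom (tL W φ t j n)) = t := by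
    funext j n
    exact (ptT W φ).apply_symm_apply _
  rw [h3] at h2
  exact h2.symm

theorem exists_rep_bc (φ : AlgebraicClosure L ≃ₐ[F] AlgebraicClosure F)
    {W : WeierstrassCurve.Affine F} {t' : Fin 2 → ℕ → ((W⁄L)⁄(AlgebraicClosure L)).Point}
    {ρ' : AbsGal L →* Matrix (Fin 2) (Fin 2) ℤ_[2]} (hr : IsTateRep (W⁄L) t' ρ') :
    ∃ t ρ, IsTateRep W t ρ := by
  classical
  obtain ⟨ρ, hρ⟩ := exists_rep (basis_map (ptT W φ) hr.1) (fun σ : AbsGal F => gact W σ)
    AC.gact_one AC.gact_mul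
  exact ⟨_, ρ, basis_map (ptT W φ) hr.1, hρ⟩

end

theorem selE_bc {F L : Type u} [Field F] [NumberField F] [Field L] [NumberField L] [Algebra F L]
    (φ : AlgebraicClosure L ≃ₐ[F] AlgebraicClosure F) {W : WeierstrassCurve.Affine F}
    {t : Fin 2 → ℕ → (W⁄(AlgebraicClosure F)).Point}
    {ρ : AbsGal F →* Matrix (Fin 2) (Fin 2) ℤ_[2]} (hr : IsTateRep W t ρ)
    {y : AbsGal F → Fin 2 → ℚ_[2]} (hy : y ∈ selE W t ρ) :
    (fun σ => y (resG φ σ)) ∈ selE (W⁄L) (tL W φ t) (ρ.comp (resG φ)) := by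
  classical
  obtain ⟨hcont, hcoc, N, y', hy', hloc⟩ := hy
  refine ⟨hcont.comp (resG_continuous φ), fun σ τ => ?_, N, fun σ => y' (resG φ σ),
    fun σ j => hy' _ j, fun n w => ?_⟩
  · show y (resG φ (σ * τ)) = y (resG φ σ) + mulM (ρ (resG φ σ)) (y (resG φ τ))
    rw [map_mul]
    exact hcoc _ _
  · obtain ⟨v, j, hj⟩ := exists_compl (F := F) w
    have hc : ∀ σ τ, ev t (y' (σ * τ)) n = ev t (y' σ) n + gact W σ (ev t (y' τ) n) := by
      intro σ τ
      rw [int_coc (ρ := ρ) ⟨hcont, hcoc⟩ hy' σ τ, ev_add hr.1,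
        map_ev hr.1 (f := gact W σ) (fun j => hr.2 σ j n)]
    have h1 := locTriv_bc φ (c := fun σ => ev t (y' σ) n) hc j hj (hloc n v)
    have h2 : (fun σ => (ptT W φ).symm (ev t (y' (resG φ σ)) n)) =
        fun σ => ev (tL W φ t) (y' (resG φ σ)) n := by
      funext σ
      exact ev_map (ptT W φ).symm.toAddMonoidHom t (y' (resG φ σ)) n
    rw [h2] at h1
    exact h1

end Pool.Agent.Work.MP_787500_nt.GO
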