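import Mathlib
import Pool.Agent.Work.MP_787500_nt.GO.DeDefs
import Pool.Agent.Work.MP_787500_nt.GO.DeB
import Pool.Agent.Work.MP_787500_nt.GO.DeE
import Pool.Agent.Work.MP_787500_nt.AC.KumA
import Pool.Agent.Work.MP_787500_nt.AC.KumB
import Pool.Agent.Work.MP_787500_nt.AC.EYB

/-!
# Module DeF (size M): the corestriction

`H = (resG φ).range` has finite index in `Γ = AbsGal F` (`resG_finiteIndex`). Let `X = Γ ⧸ H` (finite), `s x = Quotient.out x`
(`QuotientGroup.out_eq'`). For `γ ∈ Γ` and `x ∈ X`: `s (γ • x)⁻¹ * γ * s x ∈ H` (`QuotientGroup.eq`, `mul_smul`), so it is `resG φ (h γ x)` for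
some `h γ x : AbsGal L` (choose). Define `(cor c) γ = ∑ x, mulM (ρ (s (γ • x))) (c (h γ x))`, linear in `c` (`mulM` is in
`AC/EYDefs.lean`).
* Cocycles of `Γ`: `y` satisfies `y (σ τ) = y σ + mulM (ρ σ) (y τ)`, so `y 1 = 0`. With `a = s (γ • x)`, `b = s x`, `g = a⁻¹ γ b`:
  `mulM (ρ a) (y g) = y (a g) - y a = y (γ b) - y a = y γ + mulM (ρ γ) (y b) - y a`. The sum over `x`:
  `(cor (y ∘ resG φ)) γ = N y γ + mulM (ρ γ) Y - Y` with `Y = ∑ x, y (s x)`, `N = card X` (reindex the last sum by the permutation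
  `x ↦ γ • x`).
* Coboundaries: `c h = mulM (ρ (resG φ h)) v - v` gives `(cor c) γ = ∑ x, (mulM (ρ (γ s x)) v - mulM (ρ (s (γ • x))) v) =
  mulM (ρ γ) V - V`, `V = ∑ x, mulM (ρ (s x)) v`.
* Kummer cocycles: let `d`, `y` show that `c` is a Kummer cocycle of a point `P` over `L` (`IsKummer` in `AC/Defs.lean`). Let
  `D n = ∑ x, gact W (s x) (ptT W φ (d n))` and `Y γ = ∑ x, (ρ (s (γ • x))).mulVec (y (h γ x))` (integral). Then `2 • D (n + 1) = D n`, and
  `ev t (Y γ) n = ∑ x, gact W (s (γ • x)) (ev t (y (h γ x)) n)` (`map_ev`, `ev_add`, `ev_zero` from `AC/Ev.lean`, induction on the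
  finite set), `ev t (y (h γ x)) n = ptT W φ (ev (tL W φ t) (y (h γ x)) n) = ptT W φ (gact _ (h γ x) (d n) - d n) =
  gact W (resG φ (h γ x)) (ptT W φ (d n)) - ptT W φ (d n)` (`ptT_gact`), so the sum is `gact W γ (D n) - D n` (`gact_mul`, reindex). For
  `n = 0`: `ev t _ 0 = 0`, so `D 0` is fixed by all `γ`, hence `D 0 = incl W P'` for a point `P'` over `F` (`exists_incl` in
  `AC/KumB.lean`; `incl` is `Point.map (Algebra.ofId ..)`). So `cor c ∈ kum W t`.
-/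

set_option autoImplicit false

namespace Pool.Agent.Work.MP_787500_nt.GO

open IsDedekindDomain NumberField WeierstrassCurve WeierstrassCurve.Affine
open Pool.Agent.Work.MP_787500_nt
open Pool.Agent.Work.MP_787500_nt.AC
open Pool.Agent.Work.MP_787500_nt.OddP (AbsGal cocycles cobLin)

universe u

/-! ### the matrices -/

private theorem mulM_add' (M : Matrix (Fin 2) (Fin 2) ℤ_[2]) (x y : Fin 2 → ℚ_[2]) :
    mulM M (x + y) = mulM M x + mulM M y := by
  funext j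
  show ∑ l, (M j l : ℚ_[2]) * (x l + y l) = ∑ l, (M j l : ℚ_[2]) * x l + ∑ l, (M j l : ℚ_[2]) * y l
  simp only [mul_add, Finset.sum_add_distrib]

private theorem mulM_smul' (M : Matrix (Fin 2) (Fin 2) ℤ_[2]) (a : ℚ_[2]) (x : Fin 2 → ℚ_[2]) :
    mulM M (a • x) = a • mulM M x := by
  funext j
  show ∑ l, (M j l : ℚ_[2]) * (a * x l) = a * ∑ l, (M j l : ℚ_[2]) * x l
  rw [Finset.mul_sum]
  exact Finset.sum_congr rfl fun l _ => mul_left_comm _ _ _

private noncomputable def mulL (M : Matrix (Fin 2) (Fin 2) ℤ_[2]) :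
    (Fin 2 → ℚ_[2]) →ₗ[ℚ_[2]] (Fin 2 → ℚ_[2]) where
  toFun := mulM M
  map_add' := mulM_add' M
  map_smul' := mulM_smul' M

private theorem mulL_apply (M : Matrix (Fin 2) (Fin 2) ℤ_[2]) (x : Fin 2 → ℚ_[2]) :
    mulL M x = mulM M x := rfl

private theorem mulM_mul' (M N : Matrix (Fin 2) (Fin 2) ℤ_[2]) (x : Fin 2 → ℚ_[2]) :
    mulM (M * N) x = mulM M (mulM N x) := by
  funext j
  show ∑ l, ((M * N) j l : ℚ_[2]) * x l = ∑ l, (M j l : ℚ_[2]) * ∑ k, (N l k : ℚ_[2]) * x k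
  simp only [Matrix.mul_apply, Fin.sum_univ_two, PadicInt.coe_add, PadicInt.coe_mul]
  ring

private theorem mulM_one' (x : Fin 2 → ℚ_[2]) :
    mulM (1 : Matrix (Fin 2) (Fin 2) ℤ_[2]) x = x := by
  funext j
  show ∑ l, ((1 : Matrix (Fin 2) (Fin 2) ℤ_[2]) j l : ℚ_[2]) * x l = x j
  rw [Finset.sum_eq_single j]
  · rw [Matrix.one_apply_eq, PadicInt.coe_one, one_mul]
  · intro b _ hb
    rw [Matrix.one_apply_ne hb.symm, PadicInt.coe_zero, zero_mul]
  · intro h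
    exact absurd (Finset.mem_univ j) h

private theorem mulM_coe (M : Matrix (Fin 2) (Fin 2) ℤ_[2]) (v : Fin 2 → ℤ_[2]) :
    mulM M (fun j => (v j : ℚ_[2])) = fun j => ((M.mulVec v j : ℤ_[2]) : ℚ_[2]) := by
  funext j
  show ∑ l, (M j l : ℚ_[2]) * (v l : ℚ_[2]) = ((∑ l, M j l * v l : ℤ_[2]) : ℚ_[2])
  simp only [Fin.sum_univ_two, PadicInt.coe_add, PadicInt.coe_mul]

private theorem ev_sum {A : Type*} [AddCommGroup A] {t : Fin 2 → ℕ → A} (ht : IsTateBasis t)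
    {ι : Type*} (S : Finset ι) (c : ι → Fin 2 → ℤ_[2]) (n : ℕ) :
    ev t (∑ x ∈ S, c x) n = ∑ x ∈ S, ev t (c x) n := by
  classical
  induction S using Finset.induction_on with
  | empty => rw [Finset.sum_empty, Finset.sum_empty, ev_zero ht]
  | insert a S ha ih => rw [Finset.sum_insert ha, Finset.sum_insert ha, ev_add ht, ih]

section cor

variable {F L : Type u} [Field F] [Field L] [Algebra F L]

/-- Representatives of the cosets, and the elements `h γ x`. -/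
private theorem exists_h (φ : AlgebraicClosure L ≃ₐ[F] AlgebraicClosure F) :
    ∃ (s : (AbsGal F ⧸ (resG φ).range) → AbsGal F)
      (h : AbsGal F → (AbsGal F ⧸ (resG φ).range) → AbsGal L),
      ∀ γ x, s (γ • x) * resG φ (h γ x) = γ * s x := by
  have h1 : ∀ (γ : AbsGal F) (x : AbsGal F ⧸ (resG φ).range),
      ∃ k : AbsGal L, resG φ k = (Quotient.out (γ • x))⁻¹ * (γ * Quotient.out x) := by
    intro γ x
    have h2 : (QuotientGroup.mk (Quotient.out (γ • x)) : AbsGal F ⧸ (resG φ).range) =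
        QuotientGroup.mk (γ * Quotient.out x) := by
      rw [QuotientGroup.out_eq']
      have h3 : (QuotientGroup.mk (γ * Quotient.out x) : AbsGal F ⧸ (resG φ).range) =
          γ • (QuotientGroup.mk (Quotient.out x) : AbsGal F ⧸ (resG φ).range) := rfl
      rw [h3, QuotientGroup.out_eq']
    have h4 := QuotientGroup.eq.1 h2
    obtain ⟨k, hk⟩ := h4
    exact ⟨k, hk⟩
  choose h hh using h1
  refine ⟨fun x => Quotient.out x, h, fun γ x => ?_⟩
  rw [hh, mul_inv_cancel_left]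

private noncomputable def corL {X : Type*} [Fintype X] [MulAction (AbsGal F) X]
    (ρ : AbsGal F →* Matrix (Fin 2) (Fin 2) ℤ_[2]) (s : X → AbsGal F)
    (h : AbsGal F → X → AbsGal L) :
    (AbsGal L → Fin 2 → ℚ_[2]) →ₗ[ℚ_[2]] (AbsGal F → Fin 2 → ℚ_[2]) where
  toFun c := fun γ => ∑ x, mulM (ρ (s (γ • x))) (c (h γ x))
  map_add' c c' := by
    funext γ
    show ∑ x, mulM (ρ (s (γ • x))) (c (h γ x) + c' (h γ x)) =
      ∑ x, mulM (ρ (s (γ • x))) (c (h γ x)) + ∑ x, mulM (ρ (s (γ • x))) (c' (h γ x))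
    rw [← Finset.sum_add_distrib]
    exact Finset.sum_congr rfl fun x _ => mulM_add' _ _ _
  map_smul' a c := by
    funext γ
    show ∑ x, mulM (ρ (s (γ • x))) (a • c (h γ x)) = a • ∑ x, mulM (ρ (s (γ • x))) (c (h γ x))
    rw [Finset.smul_sum]
    exact Finset.sum_congr rfl fun x _ => mulM_smul' _ _ _

private theorem corL_apply {X : Type*} [Fintype X] [MulAction (AbsGal F) X]
    (ρ : AbsGal F →* Matrix (Fin 2) (Fin 2) ℤ_[2]) (s : X → AbsGal F)
    (h : AbsGal F → X → AbsGal L) (c : AbsGal L → Fin 2 → ℚ_[2]) (γ : AbsGal F) :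
    corL ρ s h c γ = ∑ x, mulM (ρ (s (γ • x))) (c (h γ x)) := rfl

private theorem sum_smul_perm {X : Type*} [Fintype X] [MulAction (AbsGal F) X] {B : Type*}
    [AddCommMonoid B] (γ : AbsGal F) (f : X → B) : ∑ x, f (γ • x) = ∑ x, f x :=
  Equiv.sum_comp (MulAction.toPerm γ) f

private theorem cor_res {X : Type*} [Fintype X] [MulAction (AbsGal F) X] [Nonempty X]
    (φ : AlgebraicClosure L ≃ₐ[F] AlgebraicClosure F)
    (ρ : AbsGal F →* Matrix (Fin 2) (Fin 2) ℤ_[2]) {s : X → AbsGal F}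
    {h : AbsGal F → X → AbsGal L} (hh : ∀ γ x, s (γ • x) * resG φ (h γ x) = γ * s x)
    {y : AbsGal F → Fin 2 → ℚ_[2]} (hy : ∀ σ τ, y (σ * τ) = y σ + mulM (ρ σ) (y τ)) :
    ∃ N : ℕ, N ≠ 0 ∧ corL ρ s h (fun σ => y (resG φ σ)) - (N : ℚ_[2]) • y ∈ cobE ρ := by
  refine ⟨Fintype.card X, Fintype.card_ne_zero, ∑ x, y (s x), fun γ => ?_⟩
  have h1 : ∀ x, mulM (ρ (s (γ • x))) (y (resG φ (h γ x))) =
      y γ + mulL (ρ γ) (y (s x)) - y (s (γ • x)) := by
    intro x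
    have h2 := hy (s (γ • x)) (resG φ (h γ x))
    rw [hh, hy] at h2
    rw [mulL_apply, h2]
    abel
  show corL ρ s h (fun σ => y (resG φ σ)) γ - (Fintype.card X : ℚ_[2]) • y γ = _
  rw [corL_apply]
  simp only [h1]
  rw [Finset.sum_sub_distrib, Finset.sum_add_distrib, Finset.sum_const, Finset.card_univ,
    ← map_sum, mulL_apply, sum_smul_perm γ (fun x => y (s x)), Nat.cast_smul_eq_nsmul]
  abel

private theorem cor_cob {X : Type*} [Fintype X] [MulAction (AbsGal F) X]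
    (φ : AlgebraicClosure L ≃ₐ[F] AlgebraicClosure F)
    (ρ : AbsGal F →* Matrix (Fin 2) (Fin 2) ℤ_[2]) {s : X → AbsGal F}
    {h : AbsGal F → X → AbsGal L} (hh : ∀ γ x, s (γ • x) * resG φ (h γ x) = γ * s x)
    {z : AbsGal L → Fin 2 → ℚ_[2]} (hz : z ∈ cobE (ρ.comp (resG φ))) :
    corL ρ s h z ∈ cobE ρ := by
  obtain ⟨v, hv⟩ := hz
  refine ⟨∑ x, mulM (ρ (s x)) v, fun γ => ?_⟩
  have h1 : ∀ x, mulM (ρ (s (γ • x))) (z (h γ x)) =
      mulL (ρ γ) (mulM (ρ (s x)) v) - mulM (ρ (s (γ • x))) v := by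
    intro x
    rw [hv]
    show mulL (ρ (s (γ • x))) (mulM (ρ (resG φ (h γ x))) v - v) = _
    rw [map_sub, mulL_apply, mulL_apply, mulL_apply, ← mulM_mul', ← mulM_mul', ← map_mul, hh,
      map_mul]
  rw [corL_apply]
  simp only [h1]
  rw [Finset.sum_sub_distrib, ← map_sum, mulL_apply,
    sum_smul_perm γ (fun x => mulM (ρ (s x)) v)]

open scoped Classical in
private theorem ev_tL (φ : AlgebraicClosure L ≃ₐ[F] AlgebraicClosure F)
    {W : WeierstrassCurve.Affine F} (t : Fin 2 → ℕ → (W⁄(AlgebraicClosure F)).Point)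
    (c : Fin 2 → ℤ_[2]) (n : ℕ) : ptT W φ (ev (tL W φ t) c n) = ev t c n := by
  rw [ev, ev, map_add, map_nsmul, map_nsmul, tL, tL, AddEquiv.apply_symm_apply,
    AddEquiv.apply_symm_apply]

open scoped Classical in
private theorem cor_kum {F L : Type u} [Field F] [NumberField F] [Field L] [NumberField L]
    [Algebra F L] {X : Type*} [Fintype X] [MulAction (AbsGal F) X]
    (φ : AlgebraicClosure L ≃ₐ[F] AlgebraicClosure F) {W : WeierstrassCurve.Affine F}
    {t : Fin 2 → ℕ → (W⁄(AlgebraicClosure F)).Point}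
    {ρ : AbsGal F →* Matrix (Fin 2) (Fin 2) ℤ_[2]} (hr : IsTateRep W t ρ) {s : X → AbsGal F}
    {h : AbsGal F → X → AbsGal L} (hh : ∀ γ x, s (γ • x) * resG φ (h γ x) = γ * s x)
    {z : AbsGal L → Fin 2 → ℚ_[2]} (hz : z ∈ kum (W⁄L) (tL W φ t)) :
    corL ρ s h z ∈ kum W t := by
  obtain ⟨P, d, y, -, hd2, hdy, hzy⟩ := hz
  set p : ℕ → (W⁄(AlgebraicClosure F)).Point := fun n => ptT W φ (d n) with hp
  set D : ℕ → (W⁄(AlgebraicClosure F)).Point := fun n => ∑ x, gact W (s x) (p n) with hD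
  set Y : AbsGal F → Fin 2 → ℤ_[2] := fun γ => ∑ x, (ρ (s (γ • x))).mulVec (y (h γ x)) with hY
  have h1 : ∀ γ x n, gact W (s (γ • x)) (ev t (y (h γ x)) n) =
      gact W γ (gact W (s x) (p n)) - gact W (s (γ • x)) (p n) := by
    intro γ x n
    rw [← ev_tL φ t, ← hdy, map_sub, ptT_gact, map_sub, ← gact_mul, hh, gact_mul]
  have h2 : ∀ γ n, gact W γ (D n) - D n = ev t (Y γ) n := by
    intro γ n
    rw [hY, ev_sum hr.1]
    have h3 : ∀ x, ev t ((ρ (s (γ • x))).mulVec (y (h γ x))) n =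
        gact W γ (gact W (s x) (p n)) - gact W (s (γ • x)) (p n) := by
      intro x
      rw [← map_ev hr.1 (f := gact W (s (γ • x))) (M := ρ (s (γ • x))) (n := n)
        (fun j => hr.2 _ j n), h1]
    simp only [h3]
    rw [Finset.sum_sub_distrib, ← map_sum, sum_smul_perm γ (fun x => gact W (s x) (p n))]
  have h4 : ∀ γ : AbsGal F, gact W γ (D 0) = D 0 := by
    intro γ
    have h5 := h2 γ 0
    rw [ev, hr.1.zero, hr.1.zero, nsmul_zero, nsmul_zero, add_zero, sub_eq_zero] at h5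
    exact h5
  obtain ⟨P', hP'⟩ := exists_incl h4
  refine ⟨P', D, Y, hP'.symm, fun n => ?_, h2, fun γ j => ?_⟩
  · show 2 • ∑ x, gact W (s x) (p (n + 1)) = ∑ x, gact W (s x) (p n)
    rw [Finset.smul_sum]
    refine Finset.sum_congr rfl fun x _ => ?_
    rw [← map_nsmul]
    congr 1
    show 2 • ptT W φ (d (n + 1)) = ptT W φ (d n)
    rw [← map_nsmul, hd2]
  · rw [corL_apply]
    have h6 : ∀ x, mulM (ρ (s (γ • x))) (z (h γ x)) =
        fun j => (((ρ (s (γ • x))).mulVec (y (h γ x)) j : ℤ_[2]) : ℚ_[2]) := by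
      intro x
      rw [← mulM_coe]
      congr 1
      funext j
      exact hzy _ j
    simp only [h6]
    rw [Finset.sum_apply, hY]
    show ∑ x, (((ρ (s (γ • x))).mulVec (y (h γ x)) j : ℤ_[2]) : ℚ_[2]) =
      (((∑ x, (ρ (s (γ • x))).mulVec (y (h γ x))) j : ℤ_[2]) : ℚ_[2])
    rw [Finset.sum_apply, PadicInt.coe_sum]

end cor

theorem exists_cor {F L : Type u} [Field F] [NumberField F] [Field L] [NumberField L] [Algebra F L]
    (φ : AlgebraicClosure L ≃ₐ[F] AlgebraicClosure F) {W : WeierstrassCurve.Affine F}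
    {t : Fin 2 → ℕ → (W⁄(AlgebraicClosure F)).Point}
    {ρ : AbsGal F →* Matrix (Fin 2) (Fin 2) ℤ_[2]} (hr : IsTateRep W t ρ) :
    ∃ cor : (AbsGal L → Fin 2 → ℚ_[2]) →ₗ[ℚ_[2]] (AbsGal F → Fin 2 → ℚ_[2]),
      (∀ y : AbsGal F → Fin 2 → ℚ_[2], (∀ σ τ, y (σ * τ) = y σ + mulM (ρ σ) (y τ)) →
        ∃ N : ℕ, N ≠ 0 ∧ cor (fun σ => y (resG φ σ)) - (N : ℚ_[2]) • y ∈ cobE ρ) ∧
      (∀ z ∈ cobE (ρ.comp (resG φ)), cor z ∈ cobE ρ) ∧
      ∀ z ∈ kum (W⁄L) (tL W φ t), cor z ∈ kum W t := by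
  classical
  have hfi : (resG φ).range.FiniteIndex := resG_finiteIndex φ
  have hfin : Finite (AbsGal F ⧸ (resG φ).range) := Subgroup.finite_quotient_of_finiteIndex
  let _ : Fintype (AbsGal F ⧸ (resG φ).range) := Fintype.ofFinite _
  obtain ⟨s, h, hh⟩ := exists_h φ
  have hne : Nonempty (AbsGal F ⧸ (resG φ).range) := ⟨QuotientGroup.mk 1⟩
  exact ⟨corL ρ s h, fun y hy => cor_res φ ρ hh hy, fun z hz => cor_cob φ ρ hh hz,
    fun z hz => cor_kum φ hr hh hz⟩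

end Pool.Agent.Work.MP_787500_nt.GO
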