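import Mathlib
import Pool.Agent.Work.MP_787500_nt.GO.DeE
import Pool.Agent.Work.MP_787500_nt.GO.DeF
import Pool.Agent.Work.MP_787500_nt.AC.Iso
import Pool.Agent.Work.MP_787500_nt.AC.SelF
import Pool.Agent.Work.MP_787500_nt.AC.Gen
import Pool.Agent.Work.MP_787500_nt.AC.KumG

/-!
# Module DeG (size M): the Kummer isomorphism over a subfield

`kummerIso_of`: the proof of `kummerIso` in `AC/Iso.lean` uses the hypothesis `TwoTors W e1 e2 e3` only for `exists_kummer`: the same proof with
the hypothesis `hex`.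
`kummerIso_bc`: let `L` be a finite extension of `F` over which the span of the Selmer cocycles is the span of the coboundaries and the
Kummer cocycles. (1) `hex`: all points over the closure are divisible by 2 (`exists_div` for `W⁄L`, transported with
`ptT W φ`); the proof of `exists_kummer` in `AC/KumA.lean` uses only this. (2) `E(F)` is finitely generated: `E(F) → E(L)` is
injective (`Point.map_injective`; `cst` or `Point.baseChange`), subgroups of finitely generated abelian groups are finitely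
generated. (3) For `y ∈ selE W t ρ`: `selE_bc`, `tateRep_bc`, the hypothesis and `exists_cor`: `cor (y ∘ resG φ)` is in the span of
`cobE ρ ∪ kum W t` (`Submodule.span_induction` or `Submodule.map_span_le`), so `N • y` too, and `N ≠ 0` in `ℚ_[2]`. Conversely
`kummer_le` (`AC/KumG.lean`; it gives membership in `cocycles ρ` and `KumLoc`, see `AC/EYB.lean` for the relation with `selE`, `cobE`).
-/

set_option autoImplicit false

namespace Pool.Agent.Work.MP_787500_nt.GO

open IsDedekindDomain NumberField WeierstrassCurve WeierstrassCurve.Affine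
open Pool.Agent.Work.MP_787500_nt
open Pool.Agent.Work.MP_787500_nt.AC
open Pool.Agent.Work.MP_787500_nt.OddP (AbsGal cocycles cobLin)
open scoped TensorProduct

universe u

/-- every element of `ℚ_[2] ⊗ B` is a combination of the `1 ⊗ b i`, if the `b i` generate `B` modulo
torsion -/
private theorem tensor_comb {B : Type*} [AddCommGroup B] {l : ℕ} (b : Fin l → B)
    (hb : ∀ P : B, ∃ (m : Fin l → ℤ) (k : ℤ), k ≠ 0 ∧ k • (P - ∑ i, m i • b i) = 0)
    (z : ℚ_[2] ⊗[ℤ] B) : ∃ a : Fin l → ℚ_[2], z = ∑ i, a i ⊗ₜ[ℤ] b i := by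
  induction z using TensorProduct.induction_on with
  | zero => exact ⟨0, by simp⟩
  | add x y hx hy =>
    obtain ⟨a, rfl⟩ := hx
    obtain ⟨a', rfl⟩ := hy
    exact ⟨a + a', by simp [TensorProduct.add_tmul, Finset.sum_add_distrib]⟩
  | tmul c P =>
    obtain ⟨m, k, hk, hk0⟩ := hb P
    have h1 : c ⊗ₜ[ℤ] (P - ∑ i, m i • b i) = 0 := by
      have h2 : c = k • ((k : ℚ_[2])⁻¹ * c) := by
        rw [zsmul_eq_mul, mul_inv_cancel_left₀ (by exact_mod_cast hk)]
      rw [h2, TensorProduct.smul_tmul, hk0, TensorProduct.tmul_zero]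
    have h3 : P = (P - ∑ i, m i • b i) + ∑ i, m i • b i := by abel
    refine ⟨fun i => m i • c, ?_⟩
    rw [h3, TensorProduct.tmul_add, h1, zero_add, TensorProduct.tmul_sum]
    refine Finset.sum_congr rfl fun i _ => ?_
    rw [TensorProduct.smul_tmul]

variable {F : Type u} [Field F] [NumberField F] {W : WeierstrassCurve.Affine F}
variable {t : Fin 2 → ℕ → (W⁄(AlgebraicClosure F)).Point}
variable {ρ : AbsGal F →* Matrix (Fin 2) (Fin 2) ℤ_[2]}

open scoped Classical in
theorem kummerIso_of (hex : ∀ P : (W⁄F).Point, ∃ c, IsKummer W t P c) (hr : IsTateRep W t ρ)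
    (hFG : AddGroup.FG (W⁄F).Point)
    (hsp : Submodule.span ℚ_[2] (selE W t ρ) = Submodule.span ℚ_[2] (cobE ρ ∪ kum W t)) :
    KummerIso W t ρ := by
  have := hFG
  have hkS : ∀ {P : (W⁄F).Point} {c}, IsKummer W t P c →
      c ∈ Submodule.span ℚ_[2] (selE W t ρ) := by
    intro P c hc
    rw [hsp]
    exact Submodule.subset_span (Or.inr ⟨P, hc⟩)
  set S := Submodule.span ℚ_[2] (selE W t ρ) with hS
  set C := (Submodule.span ℚ_[2] (cobE ρ)).submoduleOf S with hC
  have hmk : ∀ {x y : OddP.AbsGal F → Fin 2 → ℚ_[2]} (hx : x ∈ S) (hy : y ∈ S),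
      x - y ∈ LinearMap.range (cobLin ρ) →
        (Submodule.Quotient.mk ⟨x, hx⟩ : S ⧸ C) = Submodule.Quotient.mk ⟨y, hy⟩ := by
    intro x y hx hy hxy
    rw [Submodule.Quotient.eq, hC, Submodule.submoduleOf, Submodule.mem_comap,
      Submodule.subtype_apply, span_cobE]
    exact hxy
  choose c hc using hex
  let f : (W⁄F).Point →+ S ⧸ C := AddMonoidHom.mk'
    (fun P => Submodule.Quotient.mk ⟨c P, hkS (hc P)⟩) (by
      intro P Q
      rw [← Submodule.Quotient.mk_add]
      refine hmk _ _ ?_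
      exact (hc (P + Q)).sub_mem hr ((hc P).add hr (hc Q)))
  have hf : ∀ {P : (W⁄F).Point} {x} (hx : IsKummer W t P x),
      f P = Submodule.Quotient.mk ⟨x, hkS hx⟩ := by
    intro P x hx
    exact hmk _ _ ((hc P).sub_mem hr hx)
  let κ : (ℚ_[2] ⊗[ℤ] (W⁄F).Point) →ₗ[ℚ_[2]] S ⧸ C :=
    f.toIntLinearMap.liftBaseChange ℚ_[2]
  have hκ : ∀ (a : ℚ_[2]) (P : (W⁄F).Point), κ (a ⊗ₜ P) = a • f P := fun a P => rfl
  have hinj : Function.Injective κ := by
    rw [← LinearMap.ker_eq_bot, LinearMap.ker_eq_bot']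
    intro z hz
    obtain ⟨b, hb1, hb2⟩ := exists_basis_mod_torsion (W⁄F).Point
    obtain ⟨a, rfl⟩ := tensor_comb b hb1 z
    have h1 : (Submodule.Quotient.mk (∑ i, a i • (⟨c (b i), hkS (hc (b i))⟩ : S)) : S ⧸ C) = 0 := by
      rw [← hz, map_sum, ← Submodule.mkQ_apply, map_sum]
      refine Finset.sum_congr rfl fun i _ => ?_
      rw [hκ, map_smul]
      rfl
    rw [Submodule.Quotient.mk_eq_zero, hC, Submodule.submoduleOf, Submodule.mem_comap,
      Submodule.subtype_apply, span_cobE, Submodule.coe_sum] at h1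
    have h2 := kummer_indep hr hb2 (fun i => hc (b i)) (a := a) h1
    rw [h2]
    simp
  have hsurj : Function.Surjective κ := by
    intro y
    obtain ⟨⟨x, hx⟩, rfl⟩ := Submodule.mkQ_surjective C y
    have hx' : x ∈ Submodule.span ℚ_[2] (cobE ρ ∪ kum W t) := by
      rw [← hsp]
      exact hx
    have key : ∀ x ∈ Submodule.span ℚ_[2] (cobE ρ ∪ kum W t), ∀ hx : x ∈ S,
        ∃ z, κ z = C.mkQ ⟨x, hx⟩ := by
      intro x hx'
      induction hx' using Submodule.span_induction with
      | mem x hx' =>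
        intro hx
        rcases hx' with hx' | ⟨P, hP⟩
        · refine ⟨0, ?_⟩
          rw [map_zero, Submodule.mkQ_apply, eq_comm, Submodule.Quotient.mk_eq_zero, hC,
            Submodule.submoduleOf, Submodule.mem_comap, Submodule.subtype_apply]
          exact Submodule.subset_span hx'
        · refine ⟨1 ⊗ₜ P, ?_⟩
          rw [hκ, one_smul, hf hP]
          rfl
      | zero =>
        intro hx
        refine ⟨0, ?_⟩
        rw [map_zero]
        exact (map_zero C.mkQ).symm
      | add x y hx1 hy1 ihx ihy =>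
        intro hxy
        have hx2 : x ∈ S := by rw [hsp]; exact hx1
        have hy2 : y ∈ S := by rw [hsp]; exact hy1
        obtain ⟨z, hz⟩ := ihx hx2
        obtain ⟨z', hz'⟩ := ihy hy2
        refine ⟨z + z', ?_⟩
        rw [map_add, hz, hz', ← map_add]
        rfl
      | smul a x hx1 ih =>
        intro hax
        have hx2 : x ∈ S := by rw [hsp]; exact hx1
        obtain ⟨z, hz⟩ := ih hx2
        refine ⟨a • z, ?_⟩
        rw [map_smul, hz, ← map_smul]
        rfl
    exact key x hx' hx
  refine ⟨κ, ⟨⟨hinj, hsurj⟩, fun x y => κ.map_add x y, fun a x => κ.map_smul a x⟩,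
    fun P => ⟨⟨c P, hc P⟩, fun x hx => ⟨hkS hx, ?_⟩⟩⟩
  have h1 : κ (1 ⊗ₜ P) = Submodule.Quotient.mk ⟨x, hkS hx⟩ := by
    rw [hκ, one_smul, hf hx]
  exact h1

open scoped Classical in
theorem kummerIso_bc {L : Type u} [Field L] [NumberField L] [Algebra F L]
    (φ : AlgebraicClosure L ≃ₐ[F] AlgebraicClosure F) {e1 e2 e3 : L} (h : TwoTors (W⁄L) e1 e2 e3)
    (hr : IsTateRep W t ρ) (hFG : AddGroup.FG ((W⁄L)⁄L).Point)
    (hsp : Submodule.span ℚ_[2] (selE (W⁄L) (tL W φ t) (ρ.comp (resG φ))) =
      Submodule.span ℚ_[2] (cobE (ρ.comp (resG φ)) ∪ kum (W⁄L) (tL W φ t))) :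
    KummerIso W t ρ := by
  -- (1) points over the closure are divisible by 2
  have hdiv : ∀ R : (W⁄(AlgebraicClosure F)).Point, ∃ Q, 2 • Q = R := by
    intro R
    obtain ⟨Q, hQ⟩ := exists_div h ((ptT W φ).symm R)
    refine ⟨ptT W φ Q, ?_⟩
    rw [two_nsmul, ← map_add]
    apply (ptT W φ).symm.injective
    rw [AddEquiv.symm_apply_apply]
    convert hQ
  have hex : ∀ P : (W⁄F).Point, ∃ c, IsKummer W t P c := by
    intro P
    choose half hhalf using hdiv
    set d : ℕ → (W⁄(AlgebraicClosure F)).Point := fun n => half^[n] (incl W P) with hd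
    have hd2 : ∀ n, 2 • d (n + 1) = d n := by
      intro n
      simp only [hd]
      rw [Function.iterate_succ_apply']
      exact hhalf _
    have hc : ∀ σ : AbsGal F, ∃ c : Fin 2 → ℤ_[2], ∀ n, gact W σ (d n) - d n = ev t c n := by
      intro σ
      refine exists_coord hr.1 (fun n => gact W σ (d n) - d n) ?_ fun n => ?_
      · show gact W σ (incl W P) - incl W P = 0
        rw [gact_incl, sub_self]
      · rw [nsmul_sub, ← map_nsmul, hd2]
    choose y hy using hc
    exact ⟨fun σ j => (y σ j : ℚ_[2]), d, y, rfl, hd2, hy, fun σ j => rfl⟩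
  -- (2) finite generation
  have hFG' : AddGroup.FG (W⁄F).Point := by
    let g : (W⁄F).Point →+ ((W⁄L)⁄L).Point :=
      (cst L L W).symm.toAddMonoidHom.comp (Point.map (W' := W) (Algebra.ofId F L))
    have hg : Function.Injective g :=
      (cst L L W).symm.injective.comp (Point.map_injective (Algebra.ofId F L))
    have h1 : Module.Finite ℤ ((W⁄L)⁄L).Point := Module.Finite.iff_addGroup_fg.2 hFG
    have h2 : IsNoetherian ℤ ((W⁄L)⁄L).Point := isNoetherian_of_isNoetherianRing_of_finite ℤ _
    have h3 : Module.Finite ℤ (W⁄F).Point :=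
      Module.Finite.of_injective g.toIntLinearMap hg
    exact Module.Finite.iff_addGroup_fg.1 h3
  -- (3) the spans
  refine kummerIso_of hex hr hFG' (le_antisymm ?_ ?_)
  · rw [Submodule.span_le]
    intro y hy
    obtain ⟨cor, c1, c2, c3⟩ := exists_cor φ hr
    obtain ⟨N, hN, hc⟩ := c1 y hy.2.1
    have h1 : (fun σ => y (resG φ σ)) ∈ Submodule.span ℚ_[2]
        (cobE (ρ.comp (resG φ)) ∪ kum (W⁄L) (tL W φ t)) := by
      rw [← hsp]
      exact Submodule.subset_span (selE_bc φ hr hy)
    have h2 : cor (fun σ => y (resG φ σ)) ∈ Submodule.span ℚ_[2] (cobE ρ ∪ kum W t) := by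
      refine Submodule.span_induction (p := fun z _ => cor z ∈
        Submodule.span ℚ_[2] (cobE ρ ∪ kum W t)) ?_ ?_ ?_ ?_ h1
      · rintro z (hz | hz)
        · exact Submodule.subset_span (Or.inl (c2 z hz))
        · exact Submodule.subset_span (Or.inr (c3 z hz))
      · rw [map_zero]
        exact Submodule.zero_mem _
      · intro a b _ _ ha hb
        rw [map_add]
        exact Submodule.add_mem _ ha hb
      · intro a b _ hb
        rw [map_smul]
        exact Submodule.smul_mem _ _ hb
    have h3 : (N : ℚ_[2]) • y ∈ Submodule.span ℚ_[2] (cobE ρ ∪ kum W t) := by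
      have h4 := Submodule.sub_mem _ h2
        (Submodule.subset_span (R := ℚ_[2]) (Or.inl hc : _ ∈ cobE ρ ∪ kum W t))
      rwa [sub_sub_cancel] at h4
    have hN' : (N : ℚ_[2]) ≠ 0 := by exact_mod_cast hN
    have h5 := Submodule.smul_mem _ ((N : ℚ_[2])⁻¹) h3
    rwa [smul_smul, inv_mul_cancel₀ hN', one_smul] at h5
  · rw [Submodule.span_le]
    have h1 : ∀ z ∈ kummerSpace W t ρ, z ∈ Submodule.span ℚ_[2] (selE W t ρ) := by
      intro z hz
      refine Submodule.subset_span ?_
      have h2 := kummer_le hr hz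
      rw [selE_eq hr]
      exact h2
    rintro z (hz | hz)
    · refine h1 z ?_
      rw [cobE_eq] at hz
      exact Submodule.mem_sup_right hz
    · exact h1 z (Submodule.mem_sup_left (Submodule.subset_span hz))

end Pool.Agent.Work.MP_787500_nt.GO
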