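import Mathlib
import Pool.Agent.Work.MP_787500_nt.GO.DeG
import Pool.Agent.Work.MP_787500_nt.RS.Bound
import Pool.Agent.Work.MP_787500_nt.AC.Fin

/-!
# Module FiB: the Kummer isomorphism over a subfield of a field over which the rank is maximal
-/

set_option autoImplicit false

namespace Pool.Agent.Work.MP_787500_nt.GO

open IsDedekindDomain NumberField WeierstrassCurve WeierstrassCurve.Affine
open Pool.Agent.Work.MP_787500_nt
open Pool.Agent.Work.MP_787500_nt.AC
open Pool.Agent.Work.MP_787500_nt.OddP (AbsGal cocycles cobLin)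

universe u

open scoped Classical in
theorem kummerIso_desc {K : Type u} [Field K] [NumberField K] {q : ℕ} {s : K} (hb : IsBase K q s)
    {F L : Type u} [Field F] [NumberField F] [Field L] [NumberField L] [Algebra K L] [Algebra F L]
    (hL : InTwoTower K L) (W : WeierstrassCurve.Affine F) {e1 e2 e3 : L} (h12 : e1 ≠ e2)
    (h23 : e2 ≠ e3) (h31 : e3 ≠ e1) (hW : (W⁄L) = legendre e1 e2 e3)
    (hrk : Module.finrank ℤ (legendre e1 e2 e3).Point = Module.finrank K L + condExp e1 e2 e3) :
    (∃ t ρ, IsTateRep W t ρ) ∧ ∀ t ρ, IsTateRep W t ρ → KummerIso W t ρ := by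
  have hfd : Module.Finite F L := Module.Finite.of_restrictScalars_finite ℚ F L
  obtain ⟨φ⟩ := exists_phi (F := F) (L := L)
  have hT : TwoTors (W⁄L) e1 e2 e3 := by
    rw [hW]
    exact legendre_twoTors h12 h23 h31
  obtain ⟨hfin, hB⟩ := RS.bound hb hL h12 h23 h31
  rw [← hW] at hB hrk
  refine ⟨?_, fun t ρ hr => ?_⟩
  · obtain ⟨t', ρ', h'⟩ := exists_tateRep hT
    exact exists_rep_bc φ h'
  · have hr' := tateRep_bc φ hr
    exact kummerIso_bc φ hT hr hB.1 (selE_kum hr' (kummerOnto hT hr' hB.1 hrk (hB.2.2 hrk)))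

end Pool.Agent.Work.MP_787500_nt.GO
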