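import Mathlib
import Pool.Agent.Work.MP_787500_nt.GO.ClL
import Pool.Agent.Work.MP_787500_nt.H10_Tower

/-!
# Module FiC: the twists have good reduction outside 2
-/

set_option autoImplicit false

namespace Pool.Agent.Work.MP_787500_nt.GO

open WithZero IsDedekindDomain NumberField WeierstrassCurve WeierstrassCurve.Affine

universe u

theorem even_val {K : Type u} [Field K] [NumberField K] {s : K}
    {F F' : Type u} [Field F] [NumberField F] [Algebra K F] [Field F'] [NumberField F']
    [Algebra K F'] [Algebra F F'] [IsScalarTower K F F'] (h : HD.DihField K F' s) {d : F} {δ : F'}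
    (hδ : δ ^ 2 = algebraMap F F' d) (v : HeightOneSpectrum (𝓞 F)) (hv : (2 : 𝓞 F) ∉ v.asIdeal) :
    IsSquare (v.valuation F d) := by
  obtain ⟨Q, rfl⟩ := exists_above (L := F') v
  have hQ : (2 : 𝓞 F') ∉ Q.asIdeal := fun h1 => hv ((two_mem_below Q).2 h1)
  have hu : Algebra.IsUnramifiedAt (𝓞 K) Q.asIdeal := h.2.2.1 Q hQ
  have hu' : Algebra.IsUnramifiedAt (𝓞 F) Q.asIdeal :=
    Algebra.IsUnramifiedAt.of_restrictScalars (R := 𝓞 K) Q.asIdeal
  rw [valuation_below_of_unramified Q hu' d, ← hδ, map_pow]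
  exact ⟨_, sq _⟩

/-- good reduction is preserved by a twist of even valuation -/
theorem good_smul {F : Type u} [Field F] [NumberField F] {f1 f2 f3 d : F}
    (hv : ∀ v : HeightOneSpectrum (𝓞 F), (2 : 𝓞 F) ∉ v.asIdeal → IsSquare (v.valuation F d))
    (h : multPlaces f1 f2 f3 ∪ addPlaces f1 f2 f3 = ∅) :
    multPlaces (d * f1) (d * f2) (d * f3) ∪ addPlaces (d * f1) (d * f2) (d * f3) = ∅ := by
  have key : ∀ v : HeightOneSpectrum (𝓞 F), (2 : 𝓞 F) ∉ v.asIdeal →
      IsSquare (diffVal f1 f2 f3 v) ∧ v.valuation F (f1 - f2) = v.valuation F (f2 - f3) ∧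
      v.valuation F (f2 - f3) = v.valuation F (f3 - f1) := by
    intro v h2
    have ha : v ∉ addPlaces f1 f2 f3 := fun hm => by
      have : v ∈ multPlaces f1 f2 f3 ∪ addPlaces f1 f2 f3 := Or.inr hm
      rw [h] at this
      exact this
    have hm : v ∉ multPlaces f1 f2 f3 := fun hm => by
      have : v ∈ multPlaces f1 f2 f3 ∪ addPlaces f1 f2 f3 := Or.inl hm
      rw [h] at this
      exact this
    have hsq : IsSquare (diffVal f1 f2 f3 v) := by
      by_contra hns
      exact ha ⟨h2, hns⟩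
    refine ⟨hsq, ?_⟩
    by_contra hne
    exact hm ⟨h2, hsq, hne⟩
  have hval : ∀ (v : HeightOneSpectrum (𝓞 F)) (x y : F),
      v.valuation F (d * x - d * y) = v.valuation F d * v.valuation F (x - y) := by
    intro v x y
    rw [← mul_sub, map_mul]
  ext v
  simp only [Set.mem_union, Set.mem_empty_iff_false, iff_false, not_or]
  constructor
  · rintro ⟨h1, -, h3⟩
    obtain ⟨-, k2, k3⟩ := key v h1
    apply h3
    rw [hval, hval, hval, k2, k3]
    exact ⟨rfl, rfl⟩
  · rintro ⟨h1, h2⟩
    obtain ⟨k1, k2, k3⟩ := key v h1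
    apply h2
    unfold diffVal at k1 ⊢
    rw [hval, hval, hval, k2, k3, max_self, max_self]
    rw [k2, k3, max_self, max_self] at k1
    exact (hv v h1).mul k1

theorem good_tw {K : Type u} [Field K] [NumberField K] {s : K}
    {F F' : Type u} [Field F] [NumberField F] [Algebra K F] [Field F'] [NumberField F']
    [Algebra K F'] [Algebra F F'] [IsScalarTower K F F'] (h : HD.DihField K F' s) {d : F} {δ : F'}
    (hd : d ≠ 0) (hδ : δ ^ 2 = algebraMap F F' d) {a b : ℤ} (hG : G2 a b) {e1 e2 e3 : F}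
    (h12 : e1 ≠ e2) (h23 : e2 ≠ e3) (h31 : e3 ≠ e1)
    (he : legendre e1 e2 e3 = cv (d * (a : F)) (d ^ 2 * (b : F))) :
    multPlaces e1 e2 e3 ∪ addPlaces e1 e2 e3 = ∅ := by
  have e4 : ∀ e : F, e = d * (e / d) := fun e => by field_simp
  have hA : -(e1 + e2 + e3) = d * (a : F) := congrArg WeierstrassCurve.a₂ he
  have hB : e1 * e2 + e2 * e3 + e3 * e1 = d ^ 2 * (b : F) := congrArg WeierstrassCurve.a₄ he
  have hC : -(e1 * e2 * e3) = 0 := congrArg WeierstrassCurve.a₆ he
  have he' : legendre (e1 / d) (e2 / d) (e3 / d) = cv (a : F) (b : F) := by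
    ext
    · rfl
    · show -(e1 / d + e2 / d + e3 / d) = (a : F)
      field_simp
      linear_combination hA
    · rfl
    · show e1 / d * (e2 / d) + e2 / d * (e3 / d) + e3 / d * (e1 / d) = (b : F)
      field_simp
      linear_combination hB
    · show -(e1 / d * (e2 / d) * (e3 / d)) = 0
      field_simp
      linear_combination hC
  have hne : ∀ {x y : F}, x ≠ y → x / d ≠ y / d := by
    intro x y hxy h
    exact hxy (by rw [e4 x, e4 y, h])
  have h1 := good_of_G2 hG (hne h12) (hne h23) (hne h31) he'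
  rw [e4 e1, e4 e2, e4 e3]
  exact good_smul (even_val h hδ) h1

end Pool.Agent.Work.MP_787500_nt.GO
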