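import Mathlib
import Pool.Agent.Work.MP_787500_nt.GO.ClDef
import Pool.Agent.Work.MP_787500_nt.AC.IsoYDefs

/-!
The statement about all elliptic curves over `ℚ` with good reduction outside 2 over all dihedral fields.
-/

set_option autoImplicit false

namespace Pool.Agent.Work.MP_787500_nt.GO

open NumberField WeierstrassCurve WeierstrassCurve.Affine
open Pool.Agent.Work.MP_787500_nt.AC

universe u

open scoped Classical in
/-- The group of points of `W` over `F` is finitely generated of rank `N`, and the Kummer map is an isomorphism; if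
`q = 7`, then for all `i`, for the product with the power `E0 ^ (2 i)` of the curve
`E0 : y ^ 2 = x (x - 1) (x - (1 - 3 s) / 2)`, the Selmer space modulo the coboundaries is the tensor product of the
one of `W` and `U_0 ^ i * U_1 ^ i`, and also of `ℚ_[2] ⊗ W(F)` and `U_0 ^ i * U_1 ^ i`. -/
def AllIso {F : Type u} [Field F] [NumberField F] (q : ℕ) (s : F) (W : WeierstrassCurve.Affine F)
    (N : ℕ) : Prop :=
  AddGroup.FG W.Point ∧ Module.finrank ℤ W.Point = N ∧ (∃ t ρ, IsTateRep W t ρ) ∧
    ∀ t ρ, IsTateRep W t ρ → KummerIso W t ρ ∧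
      (q = 7 → ∀ t' ψ, IsTateEigen (legendre 0 1 ((1 - 3 * s) / 2)) t' ψ →
        ∀ i : ℕ, SelWedge i W t ρ ψ ∧ KumWedge i W t ρ ψ)

open scoped Classical in
/-- Let `F'` be a number field with `DihField K F' s`, `F` a field between `K` and `F'`, and `d ≠ 0` an element of `F`
which is a square in `F'`. Then `F` is in the maximal 2-extension of `K` unramified outside 2, and for all integers
`a`, `b` such that `b (a ^ 2 - 4 b)` is plus or minus a power of 2, `AllIso` holds for the curve
`y ^ 2 = x ^ 3 + d a x ^ 2 + d ^ 2 b x` over `F`, with the rank `[F : K]`. There are such fields `F'` of all degrees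
`2 ^ n`. -/
def AllLayers (K : Type u) [Field K] [NumberField K] (q : ℕ) (s : K) : Prop :=
  (∀ (F F' : Type u) [Field F] [NumberField F] [Algebra K F] [Field F'] [NumberField F']
    [Algebra K F'] [Algebra F F'] [IsScalarTower K F F'], HD.DihField K F' s →
    ∀ (d : F) (r : F'), d ≠ 0 → r ^ 2 = algebraMap F F' d → ∀ a b : ℤ, G2 a b →
      InTwoTower K F ∧
        AllIso q (algebraMap K F s) (cv (d * (a : F)) (d ^ 2 * (b : F))) (Module.finrank K F)) ∧
  ∀ n : ℕ, ∃ (F : Type u) (_ : Field F) (_ : NumberField F) (_ : Algebra K F),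
    HD.DihField K F s ∧ Module.finrank K F = 2 ^ n

end Pool.Agent.Work.MP_787500_nt.GO
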