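import Mathlib
import Pool.Agent.Work.MP_787500_nt.GO.DeDefs
import Pool.Agent.Work.MP_787500_nt.GO.DeB
import Pool.Agent.Work.MP_787500_nt.H67_Coh

/-!
# Module DeN: vanishing of Selmer groups over a subfield
-/

set_option autoImplicit false

namespace Pool.Agent.Work.MP_787500_nt.GO

open IsDedekindDomain NumberField WeierstrassCurve WeierstrassCurve.Affine
open Pool.Agent.Work.MP_787500_nt
open Pool.Agent.Work.MP_787500_nt.AC
open Pool.Agent.Work.MP_787500_nt.OddP (AbsGal cocycles cobLin actLin locally)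
open scoped Pointwise

universe u

section alg

/-- a cocycle which is a coboundary on a subgroup of finite index is a coboundary -/
theorem cob_of_index {Γ V : Type*} [Group Γ] [AddCommGroup V] [Module ℚ_[2] V]
    (A : Γ → V →ₗ[ℚ_[2]] V) (hA : ∀ g h v, A (g * h) v = A g (A h v)) (H : Subgroup Γ)
    [H.FiniteIndex] {y : Γ → V} (hy : ∀ g h, y (g * h) = y g + A g (y h)) {v : V}
    (hv : ∀ h ∈ H, y h = A h v - v) : ∃ w, ∀ g, y g = A g w - w := by
  classical
  have : Fintype (Γ ⧸ H) := Fintype.ofFinite _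
  set z : Γ → V := fun g => y g - (A g v - v) with hz
  have hzc : ∀ g h, z (g * h) = z g + A g (z h) := by
    intro g h
    simp only [hz]
    rw [hy, hA, map_sub, map_sub]
    abel
  have hz0 : ∀ h ∈ H, z h = 0 := by
    intro h hh
    simp only [hz]
    rw [hv h hh, sub_self]
  have hzH : ∀ g h, h ∈ H → z (g * h) = z g := by
    intro g h hh
    rw [hzc, hz0 h hh, map_zero, add_zero]
  set Y : Γ ⧸ H → V := fun x => z (Quotient.out x) with hY
  have hYm : ∀ g : Γ, Y (QuotientGroup.mk g) = z g := by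
    intro g
    obtain ⟨h, hh⟩ := QuotientGroup.mk_out_eq_mul H g
    simp only [hY]
    rw [show (Quotient.out (QuotientGroup.mk g : Γ ⧸ H)) = g * h from hh]
    exact hzH g h h.2
  set S : V := ∑ x, Y x with hS
  set N : ℕ := Fintype.card (Γ ⧸ H) with hN
  have hN0 : (N : ℚ_[2]) ≠ 0 := by
    rw [Nat.cast_ne_zero]
    exact Fintype.card_ne_zero
  have hAS : ∀ g, A g S = S - (N : ℚ_[2]) • z g := by
    intro g
    have h1 : ∀ x : Γ ⧸ H, A g (Y x) = Y (g • x) - z g := by
      intro x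
      obtain ⟨k, rfl⟩ := QuotientGroup.mk_surjective x
      have h2 : g • (QuotientGroup.mk k : Γ ⧸ H) = QuotientGroup.mk (g * k) := rfl
      rw [h2, hYm, hYm, hzc]
      abel
    rw [hS, map_sum, Finset.sum_congr rfl fun x _ => h1 x, Finset.sum_sub_distrib]
    congr 1
    · exact Fintype.sum_equiv (MulAction.toPerm g) _ _ fun x => rfl
    · rw [Finset.sum_const, Finset.card_univ, Nat.cast_smul_eq_nsmul]
  refine ⟨-((N : ℚ_[2])⁻¹ • S) + v, fun g => ?_⟩
  have h3 : z g = A g (-((N : ℚ_[2])⁻¹ • S)) - -((N : ℚ_[2])⁻¹ • S) := by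
    rw [map_neg, map_smul, hAS, smul_sub, smul_smul, inv_mul_cancel₀ hN0, one_smul]
    abel
  have h4 : y g = z g + (A g v - v) := by
    simp only [hz]
    abel
  rw [h4, h3, map_add]
  abel

end alg

section primes

variable {F L : Type u} [Field F] [Field L] [Algebra F L]

/-- the image of a prime of the closure of `L` -/
private noncomputable def prm (φ : AlgebraicClosure L ≃ₐ[F] AlgebraicClosure F)
    (Q : Ideal (𝓞 (AlgebraicClosure L))) : Ideal (𝓞 (AlgebraicClosure F)) :=
  Q.comap (RingOfIntegers.mapRingEquiv (φ.symm : AlgebraicClosure F ≃+* AlgebraicClosure L))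

private theorem smul_symm (φ : AlgebraicClosure L ≃ₐ[F] AlgebraicClosure F) (σ : AbsGal L)
    (z : 𝓞 (AlgebraicClosure F)) :
    RingOfIntegers.mapRingEquiv (φ.symm : AlgebraicClosure F ≃+* AlgebraicClosure L)
      (resG φ σ • z) =
    σ • RingOfIntegers.mapRingEquiv (φ.symm : AlgebraicClosure F ≃+* AlgebraicClosure L) z := by
  apply RingOfIntegers.ext
  show φ.symm (resG φ σ (z : AlgebraicClosure F)) = σ (φ.symm (z : AlgebraicClosure F))
  have h := resG_apply φ σ (φ.symm (z : AlgebraicClosure F))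
  rw [φ.apply_symm_apply] at h
  rw [h, φ.symm_apply_apply]

private theorem prm_prime (φ : AlgebraicClosure L ≃ₐ[F] AlgebraicClosure F)
    {Q : Ideal (𝓞 (AlgebraicClosure L))} (hQ : Q.IsPrime) : (prm φ Q).IsPrime :=
  Ideal.comap_isPrime _ _

private theorem two_mem_prm (φ : AlgebraicClosure L ≃ₐ[F] AlgebraicClosure F)
    {Q : Ideal (𝓞 (AlgebraicClosure L))} :
    (2 : 𝓞 (AlgebraicClosure F)) ∈ prm φ Q ↔ (2 : 𝓞 (AlgebraicClosure L)) ∈ Q := by
  rw [prm, Ideal.mem_comap, map_ofNat]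

private theorem inertia_prm (φ : AlgebraicClosure L ≃ₐ[F] AlgebraicClosure F)
    {Q : Ideal (𝓞 (AlgebraicClosure L))} {σ : AbsGal L} (h : σ ∈ Q.inertia (AbsGal L)) :
    resG φ σ ∈ (prm φ Q).inertia (AbsGal F) := by
  intro z
  have h1 := h (RingOfIntegers.mapRingEquiv
    (φ.symm : AlgebraicClosure F ≃+* AlgebraicClosure L) z)
  show RingOfIntegers.mapRingEquiv (φ.symm : AlgebraicClosure F ≃+* AlgebraicClosure L)
    (resG φ σ • z - z) ∈ Q
  rw [map_sub, smul_symm]
  exact h1

private theorem stab_prm (φ : AlgebraicClosure L ≃ₐ[F] AlgebraicClosure F)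
    {Q : Ideal (𝓞 (AlgebraicClosure L))} {σ : AbsGal L}
    (h : σ ∈ MulAction.stabilizer (AbsGal L) Q) :
    resG φ σ ∈ MulAction.stabilizer (AbsGal F) (prm φ Q) := by
  rw [MulAction.mem_stabilizer_iff] at h ⊢
  have h' : σ⁻¹ • Q = Q := by
    rw [inv_smul_eq_iff, h]
  ext z
  rw [Ideal.mem_pointwise_smul_iff_inv_smul_mem, ← map_inv, prm, Ideal.mem_comap, Ideal.mem_comap,
    smul_symm]
  have h2 := Ideal.mem_inv_pointwise_smul_iff (a := σ) (S := Q)
    (x := RingOfIntegers.mapRingEquiv (φ.symm : AlgebraicClosure F ≃+* AlgebraicClosure L) z)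
  have h3 := Ideal.mem_pointwise_smul_iff_inv_smul_mem (a := σ) (S := Q)
    (x := RingOfIntegers.mapRingEquiv (φ.symm : AlgebraicClosure F ≃+* AlgebraicClosure L) z)
  rw [h] at h3
  exact h3.symm

end primes

theorem noSelmer_bc {F L : Type u} [Field F] [NumberField F] [Field L] [NumberField L] [Algebra F L]
    (φ : AlgebraicClosure L ≃ₐ[F] AlgebraicClosure F) {n : ℕ}
    {ρ : AbsGal F →* Matrix (Fin n) (Fin n) ℤ_[2]} (h : NoSelmer (ρ.comp (resG φ))) :
    NoSelmer ρ := by
  intro x hx hin ⟨P, hP, h2P, hxP⟩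
  have hfd : Module.Finite F L := Module.Finite.of_restrictScalars_finite ℚ F L
  have hidx : (resG φ).range.FiniteIndex := resG_finiteIndex φ
  set ψ : AlgebraicClosure F ≃+* AlgebraicClosure L :=
    (φ.symm : AlgebraicClosure F ≃+* AlgebraicClosure L) with hψ
  have h1 : (fun σ => x (resG φ σ)) ∈ LinearMap.range (cobLin (ρ.comp (resG φ))) := by
    refine h _ ⟨hx.1.comp (resG_continuous φ), fun σ τ => ?_⟩ ?_ ?_
    · show x (resG φ (σ * τ)) = _
      rw [map_mul, hx.2]
      rfl
    · intro Q hQ h2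
      obtain ⟨v, hv⟩ := OddP.COH.mem_locally.1
        (hin (prm φ Q) (prm_prime φ hQ) fun h3 => h2 ((two_mem_prm φ).1 h3))
      exact OddP.COH.mem_locally.2 ⟨v, fun σ hσ => hv _ (inertia_prm φ hσ)⟩
    · have hPP : prm φ (P.comap (RingOfIntegers.mapRingEquiv ψ.symm)) = P := by
        ext z
        rw [prm, Ideal.mem_comap, Ideal.mem_comap]
        have h3 : RingOfIntegers.mapRingEquiv ψ.symm (RingOfIntegers.mapRingEquiv
            (φ.symm : AlgebraicClosure F ≃+* AlgebraicClosure L) z) = z := by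
          apply RingOfIntegers.ext
          exact φ.apply_symm_apply _
        rw [h3]
      refine ⟨P.comap (RingOfIntegers.mapRingEquiv ψ.symm), Ideal.comap_isPrime _ _, ?_, ?_⟩
      · rw [← two_mem_prm φ, hPP]
        exact h2P
      · obtain ⟨v, hv⟩ := OddP.COH.mem_locally.1 hxP
        refine OddP.COH.mem_locally.2 ⟨v, fun σ hσ => hv _ ?_⟩
        have h4 := stab_prm φ hσ
        rw [hPP] at h4
        exact h4
  obtain ⟨v, hv⟩ := h1
  obtain ⟨w, hw⟩ := cob_of_index (fun g => actLin (ρ g)) (fun g k u => by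
      simp only [map_mul]
      exact OddP.COH.act_mul _ _ u) (resG φ).range hx.2 (v := v) (by
    rintro _ ⟨σ, rfl⟩
    exact (congrFun hv σ).symm)
  exact ⟨w, funext fun g => (hw g).symm⟩

end Pool.Agent.Work.MP_787500_nt.GO
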