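import Mathlib
import Pool.Agent.Work.MP_787500_nt.GO.DeE
import Pool.Agent.Work.MP_787500_nt.GO.DeN
import Pool.Agent.Work.MP_787500_nt.RS.Bound
import Pool.Agent.Work.MP_787500_nt.AC.Gen
import Pool.Agent.Work.MP_787500_nt.AC.IsoY

/-!
# Module FiE: all codimensions, over a subfield
-/

set_option autoImplicit false

namespace Pool.Agent.Work.MP_787500_nt.GO

open IsDedekindDomain NumberField WeierstrassCurve WeierstrassCurve.Affine
open Pool.Agent.Work.MP_787500_nt
open Pool.Agent.Work.MP_787500_nt.AC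
open Pool.Agent.Work.MP_787500_nt.OddP (AbsGal cocycles cobLin)

universe u

section

variable {F L : Type u} [Field F] [Field L] [Algebra F L]

theorem tateEigen_bc (φ : AlgebraicClosure L ≃ₐ[F] AlgebraicClosure F)
    {W : WeierstrassCurve.Affine F} {t : Fin 2 → ℕ → (W⁄(AlgebraicClosure F)).Point}
    {ψ : Fin 2 → AbsGal F →* ℤ_[2]ˣ} (h : IsTateEigen W t ψ) :
    IsTateEigen (W⁄L) (tL W φ t) (fun j => (ψ j).comp (resG φ)) := by
  classical
  obtain ⟨ρ, hρ, -⟩ := eigen_rep h
  refine ⟨(tateRep_bc φ hρ).1, fun σ j n => ?_⟩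
  apply (ptT W φ).injective
  rw [ptT_gact, map_nsmul]
  have h1 : ptT W φ (tL W φ t j n) = t j n := (ptT W φ).apply_symm_apply _
  rw [h1]
  exact h.2 _ _ _

end

/-- the isomorphism of the tensor product of the Selmer space of `E` and `U_0 ^ i * U_1 ^ i` with the Selmer
space of `E × E0 ^ (2 i)`, over a field over which the points of order two are not rational -/
theorem selWedge_desc {K : Type u} [Field K] [NumberField K] {s : K}
    (hK : Module.finrank ℚ K = 2) (hs : s ^ 2 = -7) {F L : Type u} [Field F] [NumberField F]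
    [Field L] [NumberField L] [Algebra K F] [Algebra K L] [Algebra F L] [IsScalarTower K F L]
    (hF : InTwoTower K F) (hL : InTwoTower K L) {W : WeierstrassCurve.Affine F} {e1 e2 e3 : L}
    (h12 : e1 ≠ e2) (h23 : e2 ≠ e3) (h31 : e3 ≠ e1) (hW : (W⁄L) = legendre e1 e2 e3)
    (hgood : multPlaces e1 e2 e3 ∪ addPlaces e1 e2 e3 = ∅)
    {t : Fin 2 → ℕ → (W⁄(AlgebraicClosure F)).Point}
    {ρ : AbsGal F →* Matrix (Fin 2) (Fin 2) ℤ_[2]} (hr : IsTateRep W t ρ)
    {t' : Fin 2 → ℕ → ((legendre 0 1 ((1 - 3 * algebraMap K F s) / 2))⁄(AlgebraicClosure F)).Point}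
    {ψ : Fin 2 → AbsGal F →* ℤ_[2]ˣ}
    (hψ : IsTateEigen (legendre 0 1 ((1 - 3 * algebraMap K F s) / 2)) t' ψ) (i : ℕ) :
    SelWedge i W t ρ ψ := by
  classical
  have hfd : Module.Finite F L := Module.Finite.of_restrictScalars_finite ℚ F L
  obtain ⟨φ⟩ := exists_phi (F := F) (L := L)
  have hT : TwoTors (W⁄L) e1 e2 e3 := by
    rw [hW]
    exact legendre_twoTors h12 h23 h31
  have hfin : (multPlaces e1 e2 e3 ∪ addPlaces e1 e2 e3).Finite := by
    rw [hgood]
    exact Set.finite_empty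
  have hc : condExp e1 e2 e3 = 0 := by
    rw [Set.union_empty_iff] at hgood
    rw [condExp, hgood.1, hgood.2, Set.ncard_empty]
  have hr' := tateRep_bc φ hr
  have hE : ((legendre 0 1 ((1 - 3 * algebraMap K F s) / 2))⁄L) =
      legendre 0 1 ((1 - 3 * algebraMap K L s) / 2) := by
    have hsL : algebraMap K L s = algebraMap F L (algebraMap K F s) :=
      IsScalarTower.algebraMap_apply K F L s
    have h3 : algebraMap F L ((1 - 3 * algebraMap K F s) / 2) =
        (1 - 3 * algebraMap K L s) / 2 := by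
      rw [map_div₀, map_sub, map_mul, map_one, map_ofNat, map_ofNat, hsL]
    ext
    · exact map_zero _
    · show algebraMap F L (-(0 + 1 + (1 - 3 * algebraMap K F s) / 2)) = _
      rw [map_neg, map_add, map_add, map_zero, map_one, h3]
      rfl
    · exact map_zero _
    · show algebraMap F L (0 * 1 + 1 * ((1 - 3 * algebraMap K F s) / 2) +
        (1 - 3 * algebraMap K F s) / 2 * 0) = _
      rw [map_add, map_add, map_mul, map_mul, map_mul, map_zero, map_one, h3]
      rfl
    · show algebraMap F L (-(0 * 1 * ((1 - 3 * algebraMap K F s) / 2))) = _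
      rw [map_neg, map_mul, map_mul, map_zero, map_one, h3]
      rfl
  have hψ' : ∃ t'', IsTateEigen (legendre 0 1 ((1 - 3 * algebraMap K L s) / 2)) t''
      (fun j => (ψ j).comp (resG φ)) := by
    rw [← hE]
    exact ⟨_, tateEigen_bc φ hψ⟩
  obtain ⟨t'', hψ''⟩ := hψ'
  have hsp : Submodule.span ℚ_[2] (selY i W t ρ ψ) =
      Submodule.span ℚ_[2] (cobs i ρ ψ ∪ wedges i (selE W t ρ)) := by
    refine selY_span detChar_apply (fun a b => noSelmer_char hK hs hF hψ a b 1)
      (fun a b => noSelmer_bc φ ?_) (fun a b => noSelmer_bc φ ?_)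
    · have h1 := noSelmer_twist hK hs hL hT hfin hc hr' hψ'' a b
      convert h1 using 1
      refine MonoidHom.ext fun σ => ?_
      have h2 : (ψ 0 ^ a * ψ 1 ^ b) (resG φ σ) =
          ((ψ 0).comp (resG φ) ^ a * (ψ 1).comp (resG φ) ^ b) σ := by
        rw [MonoidHom.mul_apply, MonoidHom.mul_apply, MonoidHom.zpow_apply, MonoidHom.zpow_apply,
          MonoidHom.zpow_apply, MonoidHom.zpow_apply]
        rfl
      show ((ψ 0 ^ a * ψ 1 ^ b) (resG φ σ) : ℤ_[2]) • ρ (resG φ σ) = _
      rw [h2]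
      rfl
    · have h1 := noSelmer_det hK hs hL hT hfin hc hr' hψ'' a b 1
      convert h1 using 1
      refine MonoidHom.ext fun σ => ?_
      have h2 : (ψ 0 ^ a * ψ 1 ^ b * detChar ρ) (resG φ σ) =
          ((ψ 0).comp (resG φ) ^ a * (ψ 1).comp (resG φ) ^ b * detChar (ρ.comp (resG φ))) σ := by
        rw [MonoidHom.mul_apply, MonoidHom.mul_apply, MonoidHom.mul_apply, MonoidHom.mul_apply,
          MonoidHom.zpow_apply, MonoidHom.zpow_apply, MonoidHom.zpow_apply, MonoidHom.zpow_apply]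
        rfl
      show ((ψ 0 ^ a * ψ 1 ^ b * detChar ρ) (resG φ σ) : ℤ_[2]) •
        (1 : AbsGal F →* Matrix (Fin 1) (Fin 1) ℤ_[2]) (resG φ σ) = _
      rw [h2]
      rfl
  exact selWedge hr hsp

end Pool.Agent.Work.MP_787500_nt.GO
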