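import Mathlib
import Pool.Agent.Work.MP_787500_nt.GO.FiDef
import Pool.Agent.Work.MP_787500_nt.GO.FiA
import Pool.Agent.Work.MP_787500_nt.GO.FiB
import Pool.Agent.Work.MP_787500_nt.GO.FiC
import Pool.Agent.Work.MP_787500_nt.GO.FiE
import Pool.Agent.Work.MP_787500_nt.GO.ClI
import Pool.Agent.Work.MP_787500_nt.GO.ClK
import Pool.Agent.Work.MP_787500_nt.GO.ClL

/-!
# Module FiD: assembly
-/

set_option autoImplicit false

namespace Pool.Agent.Work.MP_787500_nt.GO

open IsDedekindDomain NumberField WeierstrassCurve WeierstrassCurve.Affine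
open Pool.Agent.Work.MP_787500_nt
open Pool.Agent.Work.MP_787500_nt.AC

universe u

open scoped Classical in
private theorem kum_tw {K : Type u} [Field K] [NumberField K] {q : ℕ} {s : K} (hb : IsBase K q s)
    {a b : ℤ} (hG : G2 a b) (hR : AllR K s a b) {F F' : Type u} [Field F] [NumberField F]
    [Algebra K F] [Field F'] [NumberField F'] [Algebra K F'] [Algebra F F'] [IsScalarTower K F F']
    (hD : HD.DihField K F' s) (hF : InTwoTower K F) {d : F} {δ : F'} (hd : d ≠ 0)
    (hδ : δ ^ 2 = algebraMap F F' d) :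
    (∃ t ρ, IsTateRep (cv (d * (a : F)) (d ^ 2 * (b : F))) t ρ) ∧
      ∀ t ρ, IsTateRep (cv (d * (a : F)) (d ^ 2 * (b : F))) t ρ →
        KummerIso (cv (d * (a : F)) (d ^ 2 * (b : F))) t ρ ∧
        (q = 7 → ∀ t' ψ, IsTateEigen (legendre 0 1 ((1 - 3 * algebraMap K F s) / 2)) t' ψ →
          ∀ i : ℕ, SelWedge i (cv (d * (a : F)) (d ^ 2 * (b : F))) t ρ ψ ∧
            KumWedge i (cv (d * (a : F)) (d ^ 2 * (b : F))) t ρ ψ) := by
  obtain ⟨L, f1, f2, f3, f4, f5, hL, i, r, hi, hr⟩ := exists_ext hb hD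
  let _ : Algebra F L := ((algebraMap F' L).comp (algebraMap F F')).toAlgebra
  have hST : IsScalarTower K F L := IsScalarTower.of_algebraMap_eq fun x => by
    rw [IsScalarTower.algebraMap_apply K F' L, IsScalarTower.algebraMap_apply K F F']
    rfl
  obtain ⟨e2, e3, h1, h2, h23, n2, n3⟩ := roots_exist hi hr hG
  have hdL : algebraMap F L d = algebraMap F' L δ ^ 2 := by
    rw [← map_pow, hδ]
    rfl
  have hd0 : algebraMap F L d ≠ 0 := (map_ne_zero _).2 hd
  have hW : ((cv (d * (a : F)) (d ^ 2 * (b : F)))⁄L) =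
      legendre 0 (algebraMap F L d * e2) (algebraMap F L d * e3) := by
    rw [cv_baseChange]
    ext
    · rfl
    · show algebraMap F L (d * (a : F)) = -(0 + algebraMap F L d * e2 + algebraMap F L d * e3)
      rw [map_mul, map_intCast]
      linear_combination algebraMap F L d * h1
    · rfl
    · show algebraMap F L (d ^ 2 * (b : F)) = 0 * (algebraMap F L d * e2) +
        algebraMap F L d * e2 * (algebraMap F L d * e3) + algebraMap F L d * e3 * 0
      rw [map_mul, map_intCast, map_pow]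
      linear_combination -algebraMap F L d ^ 2 * h2
    · show (0 : L) = -(0 * (algebraMap F L d * e2) * (algebraMap F L d * e3))
      ring
  have hL' := hL
  obtain ⟨g1, g2, g3, -⟩ := hL'
  have hG1 : IsGalois K L := IsGalois.tower_top_of_isGalois ℚ K L
  have hT : InTwoTower K L :=
    ⟨L, inferInstance, inferInstance, inferInstance, inferInstance, inferInstance, hG1, g2, g3⟩
  have hne1 : (0 : L) ≠ algebraMap F L d * e2 := (mul_ne_zero hd0 n2).symm
  have hne2 : algebraMap F L d * e2 ≠ algebraMap F L d * e3 := fun h =>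
    h23 (mul_left_cancel₀ hd0 h)
  have hne3 : algebraMap F L d * e3 ≠ 0 := mul_ne_zero hd0 n3
  have hcv : legendre 0 (algebraMap F L d * e2) (algebraMap F L d * e3) =
      cv (algebraMap F L d * (a : L)) (algebraMap F L d ^ 2 * (b : L)) := by
    rw [← hW, cv_baseChange, map_mul, map_mul, map_pow, map_intCast, map_intCast]
  have hδ' : (algebraMap F' L δ) ^ 2 = algebraMap L L (algebraMap F L d) := hdL.symm
  obtain ⟨-, hrk⟩ := hR.twist hG.ne.1 hG.ne.2 (F := L) (F' := L) hL hd0 hδ'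
  have hgood := good_tw (F := L) (F' := L) hL hd0 hδ' hG hne1 hne2 hne3 hcv
  have hce : condExp 0 (algebraMap F L d * e2) (algebraMap F L d * e3) = 0 := by
    rw [Set.union_empty_iff] at hgood
    rw [condExp, hgood.1, hgood.2, Set.ncard_empty]
  rw [← hcv] at hrk
  obtain ⟨k1, k2⟩ := kummerIso_desc hb hT (cv (d * (a : F)) (d ^ 2 * (b : F))) hne1 hne2 hne3 hW
    (by rw [hce, add_zero]; exact hrk)
  refine ⟨k1, fun t ρ hρ => ⟨k2 t ρ hρ, ?_⟩⟩
  rintro rfl t' ψ hψ i
  have hs : s ^ 2 = -7 := by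
    rw [hb.2.1]
    norm_num
  have hw := selWedge_desc hb.1 hs hF hT hne1 hne2 hne3 hW hgood hρ hψ i
  exact ⟨hw, kumWedge (k2 t ρ hρ) hw⟩

theorem allLayers {K : Type u} [Field K] [NumberField K] {q : ℕ} {s : K} (hb : IsBase K q s)
    (hA : AllR K s 0 (-2)) (hB : AllR K s 4 2) (hD : AllR K s (-4) 8) : AllLayers K q s := by
  classical
  refine ⟨fun F F' _ _ _ _ _ _ _ _ h d r hd hr a b hG => ?_, HD.exists_dih hb⟩
  have hF : InTwoTower K F := by
    obtain ⟨h1, h2, h3, -⟩ := h
    have : IsGalois K F' := IsGalois.tower_top_of_isGalois ℚ K F'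
    exact ⟨F', inferInstance, inferInstance, inferInstance, inferInstance, inferInstance, this,
      h2, h3⟩
  have hR := allR_all hb hA hB hD hG
  obtain ⟨h1, h2⟩ := hR.twist hG.ne.1 hG.ne.2 h hd hr
  obtain ⟨h3, h4⟩ := kum_tw hb hG hR h hF hd hr
  exact ⟨hF, h1, h2, h3, h4⟩

end Pool.Agent.Work.MP_787500_nt.GO
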