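import Mathlib
import Pool.Agent.Work.MP_787500_nt.GO.Basic
import Pool.Agent.Work.MP_787500_nt.HC.LyA

/-!
# Further definitions for the modules on the layers (proved, do not change)
-/

set_option autoImplicit false

namespace Pool.Agent.Work.MP_787500_nt.GO

open WithZero IsDedekindDomain NumberField WeierstrassCurve WeierstrassCurve.Affine
open Pool.Agent.Work.MP_787500_nt.HC

universe u

/-- the elements on which `f` acts as multiplication by `s` -/
def eig {A : Type*} [AddCommGroup A] (f : A →+ A) (s : ℤ) : AddSubgroup A where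
  carrier := {x | f x = s • x}
  add_mem' := by
    intro x y (hx : f x = s • x) (hy : f y = s • y)
    show f (x + y) = s • (x + y)
    rw [map_add, hx, hy, smul_add]
  zero_mem' := by
    show f 0 = s • 0
    rw [map_zero, smul_zero]
  neg_mem' := by
    intro x (hx : f x = s • x)
    show f (-x) = s • (-x)
    rw [map_neg, hx, smul_neg]

theorem mem_eig {A : Type*} [AddCommGroup A] {f : A →+ A} {s : ℤ} {x : A} :
    x ∈ eig f s ↔ f x = s • x := Iff.rfl

section fields

variable {K : Type*} [Field K] (E : WeierstrassCurve.Affine K)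

open scoped Classical in
/-- the rank of `E` over `F` -/
noncomputable def rkE (F : Type*) [Field F] [Algebra K F] : ℕ := Module.finrank ℤ (E⁄F).Point

open scoped Classical in
/-- the group of points over `F` is finitely generated -/
def FGE (F : Type*) [Field F] [Algebra K F] : Prop := AddGroup.FG (E⁄F).Point

variable {F M : Type*} [Field F] [Field M] [Algebra K F] [Algebra K M]

open scoped Classical in
/-- the rank of the group of the points on which the automorphism `f` acts as `s` -/
noncomputable def rkEig (f : F ≃ₐ[K] F) (s : ℤ) : ℕ :=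
  Module.finrank ℤ (eig (mp E f) s)

open scoped Classical in
/-- Two points of infinite order over `F` on which `g ^ (2 ^ n)` acts as `-1`, one for each sign of `e`. -/
def StepF (g e : F ≃ₐ[K] F) (n : ℕ) : Prop :=
  ∃ R R' : (E⁄F).Point, Nt R ∧ Nt R' ∧ mp E (g ^ 2 ^ n) R = -R ∧ mp E (g ^ 2 ^ n) R' = -R' ∧
    mp E e R = R ∧ mp E e R' = -R'

open scoped Classical in
/-- Points of infinite order over `F` in the four eigenspaces of `g` and `e`. -/
def BaseF (g e : F ≃ₐ[K] F) : Prop :=
  ∀ s t : ℤ, (s = 1 ∨ s = -1) → (t = 1 ∨ t = -1) → ∃ R : (E⁄F).Point, Nt R ∧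
    mp E g R = s • R ∧ mp E e R = t • R

variable [Algebra F M] [IsScalarTower K F M]

open scoped Classical in
/-- the points over a smaller field -/
noncomputable def inc (F M : Type*) [Field F] [Field M] [Algebra K F] [Algebra K M] [Algebra F M]
    [IsScalarTower K F M] : (E⁄F).Point →+ (E⁄M).Point :=
  Point.map (W' := E) (IsScalarTower.toAlgHom K F M)

open scoped Classical in
theorem inc_injective : Function.Injective (inc E F M) :=
  Point.map_injective (W' := E) _

end fields

/-- An automorphism of a subfield is the restriction of an automorphism of `Ω`. -/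
def Restr {K Ω : Type*} [Field K] [Field Ω] [Algebra K Ω] {F : IntermediateField K Ω}
    (g : F ≃ₐ[K] F) (τ : Ω ≃ₐ[K] Ω) : Prop := ∀ x : F, ((g x : F) : Ω) = τ x

section layers

variable {K : Type u} [Field K] [NumberField K] {q : ℕ} {s : K} {v : HeightOneSpectrum (𝓞 K)}

/-- `σ`, `ε` are automorphisms which generate the 2-part of the Galois group of the layers up to `N`. -/
structure Gens (W W' : ClassGroup (𝓞 K) → AlgebraicClosure K) (i : AlgebraicClosure K)
    (b : ℕ → AlgebraicClosure K) (N : ℕ) (σ ε : AlgebraicClosure K ≃ₐ[K] AlgebraicClosure K) :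
    Prop where
  sig : ∃ g : AlgebraicClosure K ≃ₐ[K] AlgebraicClosure K, σ = g ^ hK K
  sigi : σ i = i
  sigW : ∀ c, σ (W c) = W c ∧ σ (W' c) = W' c
  sigb : ∀ n, (σ ^ 2 ^ n) (b (n + 1)) = -b (n + 1) ∧ ∀ m ≤ n, (σ ^ 2 ^ n) (b m) = b m
  eps : ∃ c : AlgebraicClosure K ≃ₐ[K] AlgebraicClosure K,
    ∀ x ∈ layM W W' i b N, ε x = (c ^ hK K) x
  epsi : ε i = -i
  epsr : ε (b 1 / (W 1 * W' 1)) = (b 1 / (W 1 * W' 1))⁻¹
  eps2 : ∀ x ∈ layM W W' i b N, ε (ε x) = x

/-- The layer `layM n` with the group `C` and the automorphisms `σ`, `ε` has the structure `Lay`. -/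
def LayN (v : HeightOneSpectrum (𝓞 K)) (α : K) (W W' : ClassGroup (𝓞 K) → AlgebraicClosure K)
    (i : AlgebraicClosure K) (a b u : ℕ → AlgebraicClosure K) (n : ℕ)
    (C : Finset (layM W W' i b n ≃ₐ[K] layM W W' i b n))
    (σ ε : layM W W' i b n ≃ₐ[K] layM W W' i b n) : Prop :=
  Lay K (cl (pr v)⁻¹) (hK K) α (res (layM W W' i b n) W) (res (layM W W' i b n) W')
    ⟨i, mem_i n⟩ (res (layM W W' i b n) a) (res (layM W W' i b n) b) (res (layM W W' i b n) u)
    n C σ ε

/-- The points on `E` over the layers. -/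
structure PtsAll (E : WeierstrassCurve.Affine K) (v : HeightOneSpectrum (𝓞 K)) (α : K)
    (W W' : ClassGroup (𝓞 K) → AlgebraicClosure K) (i : AlgebraicClosure K)
    (a b u : ℕ → AlgebraicClosure K) : Prop where
  base : ∀ C σ ε, LayN v α W W' i a b u 1 C σ ε → BasePts E C σ ε
  step : ∀ m, 1 ≤ m → ∀ C σ ε, LayN v α W W' i a b u (m + 1) C σ ε → StepPts E C σ ε m

end layers

end Pool.Agent.Work.MP_787500_nt.GO
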