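import Mathlib
import Pool.Agent.Work.MP_787500_nt.GO.ClDef
import Pool.Agent.Work.MP_787500_nt.GO.LDefs
import Pool.Agent.Work.MP_787500_nt.HD.FnD

/-!
# Module FiF: from the subfields of the layers to all dihedral fields
-/

set_option autoImplicit false

namespace Pool.Agent.Work.MP_787500_nt.GO

open WithZero IsDedekindDomain NumberField WeierstrassCurve WeierstrassCurve.Affine
open Pool.Agent.Work.MP_787500_nt.HC

universe u

open scoped Classical in
/-- the points over isomorphic fields -/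
private noncomputable def ptE {K F F' : Type*} [Field K] [Field F] [Field F'] [Algebra K F]
    [Algebra K F'] (E : WeierstrassCurve.Affine K) (e : F ≃ₐ[K] F') :
    (E⁄F).Point ≃+ (E⁄F').Point where
  toFun := Point.map (W' := E) (e : F →ₐ[K] F')
  invFun := Point.map (W' := E) (e.symm : F' →ₐ[K] F)
  left_inv P := by
    rw [Point.map_map]
    have h : (e.symm : F' →ₐ[K] F).comp (e : F →ₐ[K] F') = AlgHom.id K _ := by
      ext x
      exact e.symm_apply_apply x
    rw [h]
    rcases P with _ | ⟨x, y, hn⟩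
    · rfl
    · rfl
  right_inv P := by
    rw [Point.map_map]
    have h : (e : F →ₐ[K] F').comp (e.symm : F' →ₐ[K] F) = AlgHom.id K _ := by
      ext x
      exact e.apply_symm_apply x
    rw [h]
    rcases P with _ | ⟨x, y, hn⟩
    · rfl
    · rfl
  map_add' := map_add _

theorem rkE_equiv {K F F' : Type*} [Field K] [Field F] [Field F'] [Algebra K F] [Algebra K F']
    (E : WeierstrassCurve.Affine K) (e : F ≃ₐ[K] F') (h : FGE E F') :
    FGE E F ∧ rkE E F = rkE E F' := by
  classical
  unfold FGE at h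
  unfold FGE rkE
  exact ⟨AddGroup.fg_of_surjective (f := (ptE E e).symm.toAddMonoidHom) (ptE E e).symm.surjective,
    (ptE E e).toIntLinearEquiv.finrank_eq⟩

open scoped Classical in
theorem rkE_cv {K F : Type*} [Field K] [Field F] [Algebra K F] (a b : ℤ)
    (h : FGE (cv (a : K) (b : K)) F) : AddGroup.FG (cv (a : F) (b : F)).Point ∧
      Module.finrank ℤ (cv (a : F) (b : F)).Point = rkE (cv (a : K) (b : K)) F := by
  have he : ((cv (a : K) (b : K))⁄F) = cv (a : F) (b : F) := by
    rw [cv_baseChange, map_intCast, map_intCast]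
  unfold FGE at h
  unfold rkE
  rw [he] at h ⊢
  exact ⟨h, rfl⟩

/-- from all fields in the union of the layers to all dihedral fields -/
theorem allR_of {K : Type u} [Field K] [NumberField K] {q : ℕ} {s : K} (hb : IsBase K q s) {a b : ℤ}
    (H : ∀ (v : HeightOneSpectrum (𝓞 K)) (α : Kˣ) (W W' : ClassGroup (𝓞 K) → AlgebraicClosure K)
      (i : AlgebraicClosure K) (x y u : ℕ → AlgebraicClosure K), Ctx K q s v α W W' →
      (∀ n, Sq4 (W 1) (W' 1) i x y u n) → ∀ F : IntermediateField K (AlgebraicClosure K),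
        F ≤ ⨆ n, layF W W' i y n → FiniteDimensional K F →
        FGE (cv (a : K) (b : K)) F ∧ rkE (cv (a : K) (b : K)) F = Module.finrank K F) :
    AllR K s a b := by
  intro F F' _ _ _ _ _ _ _ _ h
  classical
  obtain ⟨v, α, W, W', c, hC, hc⟩ := HD.exists_ctx_cj hb
  obtain ⟨i, x, y, u, hS⟩ := hC.data.exists_sq4 1
  obtain ⟨E', hE', e, hD, hT⟩ := HD.exists_embed h
  obtain ⟨h1, ⟨m, hm⟩, h3, -⟩ := h
  have hm' : Module.finrank K E' = 2 ^ m := by
    rw [← hm]
    exact e.toLinearEquiv.finrank_eq.symm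
  have hle := HD.le_layF hC hS hc hD hT hm'
  let ψ : F →ₐ[K] AlgebraicClosure K :=
    E'.val.comp (e.toAlgHom.comp (IsScalarTower.toAlgHom K F F'))
  let e1 : F ≃ₐ[K] ψ.fieldRange := ψ.equivFieldRange
  have hEE : ψ.fieldRange ≤ E' := by
    rintro _ ⟨x, rfl⟩
    exact (e (algebraMap F F' x)).2
  have hfd : FiniteDimensional K F := Module.Finite.of_restrictScalars_finite ℚ K F
  have hfd' : FiniteDimensional K ψ.fieldRange := Module.Finite.equiv e1.toLinearEquiv
  obtain ⟨g1, g2⟩ := H v α W W' i x y u hC hS ψ.fieldRange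
    (hEE.trans (hle.trans (layF_le_sup _))) hfd'
  obtain ⟨k1, k2⟩ := rkE_equiv (cv (a : K) (b : K)) e1 g1
  obtain ⟨l1, l2⟩ := rkE_cv a b k1
  refine ⟨l1, ?_⟩
  rw [l2, k2, g2]
  exact e1.toLinearEquiv.finrank_eq.symm

end Pool.Agent.Work.MP_787500_nt.GO
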