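import Mathlib
import Pool.Agent.Work.MP_787500_nt.GO.Basic
import Pool.Agent.Work.MP_787500_nt.GO.LDefs
import Pool.Agent.Work.MP_787500_nt.HC.LyA
import Pool.Agent.Work.MP_787500_nt.HC.LyB
import Pool.Agent.Work.MP_787500_nt.HC.LyC
import Pool.Agent.Work.MP_787500_nt.HC.LyD
import Pool.Agent.Work.MP_787500_nt.HC.LyE

/-!
# Module LgA: the automorphisms `σ` and `ε`  [size M-L]
`σ = g ^ h` (`exists_gen4`), it fixes the values of `W`, `W'` (`pow_fix`). `M = layM (N + 2)`, abelian over `K` (`ab_galois`, `layM_le_ab`). `c' = c ^ h` (`exists_c`), `c' i = -i`, fixes the `W`, `W'` (`pow_fix`).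
`r = b 1 / (W 1 W' 1)`, `r ^ 2 = -i` (`b 1 ^ 2 = a 0 b 0`), so `(c' r)^2 = i = (r⁻¹)^2`, `c' r = ± r⁻¹`; `σ r = -r`. Let `ε0 = c'` or `σ c'`, so that `ε0 r = r⁻¹`, `ε0 i = -i`.
`ε0 ^ 2` fixes `i`, `W`, `W'`, so `ε0 ^ 2 = σ ^ k` on `M` (`aut_eq_pow`). It fixes `r`, `σ r = -r`: `k = 2 j`.
`z1 = b 1/a 0 = r W'/W`, `z2 = b 2/a 1`, `z2 ^ 2 (1 + z1 ^ 2) = 2 z1` (`bs`, `as`). `ε0 z1 = r⁻¹ W'/W`; `(z2 * ε0 z2)^2 = 4 x^2/((1 - i x^2)(1 + i x^2)) = 4 x^2 W^4 = (2 W W')^2`, `x = W'/W`, since `1 + x^4 = 1/W^4` (`four`). So `z2 * ε0 z2 = ± 2 W W'` is fixed by `ε0`, so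
`ε0 z2 * ε0 (ε0 z2) = z2 * ε0 z2` and `ε0 (ε0 z2) = z2` (`ε0 z2 ≠ 0`). But `σ ^ 2` negates `z2` (`σ^2` negates `b 2`, fixes `b 1`, `a 0`, `a 1`), so `j` is even, `k = 4 l`.
`ε = ε0 * (σ ^ (2 l))⁻¹`: `ε i = -i`, `ε r = r⁻¹` (`σ^2 r = r`), on `M` everything commutes, so `ε ^ 2 = ε0 ^ 2 σ ^ (-4 l) = 1` on `M`; and `ε` is equal to the `h`-th power of `c * g^m` (or `g c g^m`), `m = -2 l`, on `M` (restrict to `M`, `Commute.mul_pow`).
For `x ∈ layM N ⊆ layM (N + 2)` everything holds. (`ε` may be replaced by any lift of its restriction to `M`.)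
-/

set_option autoImplicit false

namespace Pool.Agent.Work.MP_787500_nt.GO

open WithZero IsDedekindDomain NumberField WeierstrassCurve WeierstrassCurve.Affine
open Pool.Agent.Work.MP_787500_nt.HC

universe u

variable {K : Type u} [Field K] [NumberField K] {q : ℕ} {s : K} {v : HeightOneSpectrum (𝓞 K)}
variable {α : Kˣ} {W W' : ClassGroup (𝓞 K) → AlgebraicClosure K} {i : AlgebraicClosure K}
variable {a b u : ℕ → AlgebraicClosure K}

private theorem lga_res (hC : Ctx K q s v α W W') (hS : ∀ n, Sq4 (W 1) (W' 1) i a b u n) (n : ℕ) :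
    ∃ R : (AlgebraicClosure K ≃ₐ[K] AlgebraicClosure K) →*
        (layM W W' i b n ≃ₐ[K] layM W W' i b n),
      (∀ (σ : AlgebraicClosure K ≃ₐ[K] AlgebraicClosure K) (x : layM W W' i b n),
        ((R σ x : layM W W' i b n) : AlgebraicClosure K) = σ (x : AlgebraicClosure K)) ∧
      ∀ σ τ : layM W W' i b n ≃ₐ[K] layM W W' i b n, σ * τ = τ * σ := by
  have := layM_finite (K := K) (W := W) (W' := W') (i := i) (b := b) n
  obtain ⟨hG, hcomm, -, hres, hlift⟩ := ab_galois (layM W W' i b n) (layM_le_ab hC hS n)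
  choose r hr using hres
  refine ⟨MonoidHom.mk' r ?_, fun σ x => hr σ x, hcomm⟩
  intro σ τ
  apply AlgEquiv.ext
  intro x
  apply Subtype.ext
  rw [hr, AlgEquiv.mul_apply, AlgEquiv.mul_apply, hr, hr]

omit [NumberField K] in
private theorem lga_neg {τ : AlgebraicClosure K ≃ₐ[K] AlgebraicClosure K}
    {x : AlgebraicClosure K} (h : τ x = -x) (k : ℕ) : (τ ^ k) x = (-1) ^ k * x := by
  induction k with
  | zero =>
    rw [pow_zero, pow_zero, one_mul]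
    rfl
  | succ k ih =>
    rw [pow_succ, AlgEquiv.mul_apply, h, map_neg, ih, pow_succ]
    ring

omit [NumberField K] in
private theorem lga_id {τ : AlgebraicClosure K ≃ₐ[K] AlgebraicClosure K}
    {x : AlgebraicClosure K} (h : τ x = x) (k : ℕ) : (τ ^ k) x = x := by
  induction k with
  | zero => rfl
  | succ k ih => rw [pow_succ, AlgEquiv.mul_apply, h, ih]

omit [NumberField K] in
private theorem lga_inv {τ : AlgebraicClosure K ≃ₐ[K] AlgebraicClosure K}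
    {x : AlgebraicClosure K} (h : τ x = x) : τ⁻¹ x = x := by
  conv_lhs => rw [← h]
  rw [← AlgEquiv.mul_apply, inv_mul_cancel, AlgEquiv.one_apply]

private theorem lga_even {x : AlgebraicClosure K} (hx : x ≠ 0) {k : ℕ}
    (h : (-1) ^ k * x = x) : Even k := by
  rcases Nat.even_or_odd k with h1 | h1
  · exact h1
  · exfalso
    rw [h1.neg_one_pow, neg_one_mul] at h
    apply hx
    have h4 : (2 : AlgebraicClosure K) * x = 0 := by linear_combination -h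
    exact (mul_eq_zero.mp h4).resolve_left two_ne_zero

/-- the first step: an automorphism with `i ↦ -i`, `r ↦ r⁻¹` -/
private theorem lga_eps0 (hC : Ctx K q s v α W W') (hS : ∀ n, Sq4 (W 1) (W' 1) i a b u n)
    {g : AlgebraicClosure K ≃ₐ[K] AlgebraicClosure K} (hgi : (g ^ hK K) i = i)
    (hgb : (g ^ hK K) (b 1) = -b 1) {r : AlgebraicClosure K}
    (hrb : r = b 1 / (W 1 * W' 1)) (hr : r ^ 2 = -i)
    {M : Type u} [Field M] [Algebra K M]
    (R : (AlgebraicClosure K ≃ₐ[K] AlgebraicClosure K) →* (M ≃ₐ[K] M))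
    (hcomm : ∀ σ τ : M ≃ₐ[K] M, σ * τ = τ * σ) :
    ∃ ε0 d : AlgebraicClosure K ≃ₐ[K] AlgebraicClosure K, ε0 i = -i ∧ ε0 r = r⁻¹ ∧
      (∀ c, ε0 (W c) = W c ∧ ε0 (W' c) = W' c) ∧ R ε0 = R d ^ hK K := by
  have hi2 : i ^ 2 = -1 := (hS 0).i2
  have hi0 : i ≠ 0 := by
    rintro rfl
    rw [zero_pow two_ne_zero] at hi2
    exact one_ne_zero (neg_eq_zero.1 hi2.symm)
  have hr0 : r ≠ 0 := by
    rintro rfl
    rw [zero_pow two_ne_zero] at hr
    exact hi0 (neg_eq_zero.1 hr.symm)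
  have hσr : (g ^ hK K) r = -r := by
    rw [hrb, map_div₀, map_mul, (pow_fix hC g 1).1, (pow_fix hC g 1).2, hgb, neg_div]
  obtain ⟨c, hc⟩ := exists_c hC hi2
  have hcr : ((c ^ hK K) r) ^ 2 = (r⁻¹) ^ 2 := by
    rw [← map_pow, hr, map_neg, hc, inv_pow, hr, neg_neg]
    exact (inv_eq_of_mul_eq_one_right (by linear_combination -hi2)).symm
  rcases sq_eq_sq_iff_eq_or_eq_neg.1 hcr with h1 | h1
  · exact ⟨c ^ hK K, c, hc, h1, pow_fix hC c, map_pow _ _ _⟩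
  · refine ⟨g ^ hK K * c ^ hK K, g * c, ?_, ?_, fun x => ⟨?_, ?_⟩, ?_⟩
    · rw [AlgEquiv.mul_apply, hc, map_neg, hgi]
    · rw [AlgEquiv.mul_apply, h1, map_neg, map_inv₀, hσr, inv_neg, neg_neg]
    · rw [AlgEquiv.mul_apply, (pow_fix hC c x).1, (pow_fix hC g x).1]
    · rw [AlgEquiv.mul_apply, (pow_fix hC c x).2, (pow_fix hC g x).2]
    · have h2 : Commute (R g) (R c) := hcomm _ _
      rw [map_mul, map_mul, map_pow, map_pow, h2.mul_pow]

/-- the second step: the square of `ε0` fixes `b 2 / a 1` -/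
private theorem lga_z2 (hS : ∀ n, Sq4 (W 1) (W' 1) i a b u n)
    {r : AlgebraicClosure K} (hrb : r = b 1 / (W 1 * W' 1)) (hr : r ^ 2 = -i)
    {e : AlgebraicClosure K ≃ₐ[K] AlgebraicClosure K} (hei : e i = -i) (her : e r = r⁻¹)
    (heW : e (W 1) = W 1) (heW' : e (W' 1) = W' 1) : e (e (b 2 / a 1)) = b 2 / a 1 := by
  have hi2 : i ^ 2 = -1 := (hS 0).i2
  have hw := (hS 0).w0
  have hw' := (hS 0).w0'
  have h4 := (hS 0).four
  have hi0 : i ≠ 0 := by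
    rintro rfl
    rw [zero_pow two_ne_zero] at hi2
    exact one_ne_zero (neg_eq_zero.1 hi2.symm)
  have hr0 : r ≠ 0 := by
    rintro rfl
    rw [zero_pow two_ne_zero] at hr
    exact hi0 (neg_eq_zero.1 hr.symm)
  obtain ⟨ha1, hb1, -, -, -, -⟩ := sq4_ne (hS 1) (m := 1) le_rfl
  obtain ⟨-, hb2, -, -, -, -⟩ := sq4_ne (hS 2) (m := 2) le_rfl
  set z := b 2 / a 1 with hz
  have hz0 : z ≠ 0 := div_ne_zero hb2 ha1
  -- the square of `z`
  have ea1 : 2 * a 1 = W 1 ^ 2 - i * W' 1 ^ 2 := by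
    rw [(hS 1).as 0 (by norm_num), (hS 0).a0, (hS 0).b0]
    ring
  have eb1 : b 1 = r * (W 1 * W' 1) := by
    rw [hrb, div_mul_cancel₀ _ (mul_ne_zero hw hw')]
  have hz2 : z ^ 2 * (W 1 ^ 2 - i * W' 1 ^ 2) = 2 * (r * (W 1 * W' 1)) := by
    rw [hz, div_pow, (hS 2).bs 1 (by norm_num), ← ea1, ← eb1]
    field_simp
  have hez2 : (e z) ^ 2 * (W 1 ^ 2 + i * W' 1 ^ 2) = 2 * (r⁻¹ * (W 1 * W' 1)) := by
    have h := congrArg e hz2
    simp only [map_mul, map_pow, map_sub, heW, heW', hei, her, map_ofNat] at h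
    rw [← h]
    ring
  have hprod : (z * e z) ^ 2 = (2 * (W 1 * W' 1)) ^ 2 := by
    have h5 : (z * e z) ^ 2 * ((W 1 ^ 2 - i * W' 1 ^ 2) * (W 1 ^ 2 + i * W' 1 ^ 2)) =
        (2 * (W 1 * W' 1)) ^ 2 := by
      calc (z * e z) ^ 2 * ((W 1 ^ 2 - i * W' 1 ^ 2) * (W 1 ^ 2 + i * W' 1 ^ 2))
          = (z ^ 2 * (W 1 ^ 2 - i * W' 1 ^ 2)) * ((e z) ^ 2 * (W 1 ^ 2 + i * W' 1 ^ 2)) := by
            ring
        _ = (2 * (r * (W 1 * W' 1))) * (2 * (r⁻¹ * (W 1 * W' 1))) := by rw [hz2, hez2]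
        _ = (2 * (W 1 * W' 1)) ^ 2 := by
            field_simp
    have h6 : (W 1 ^ 2 - i * W' 1 ^ 2) * (W 1 ^ 2 + i * W' 1 ^ 2) = 1 := by
      linear_combination h4 - W' 1 ^ 4 * hi2
    rw [h6, mul_one] at h5
    exact h5
  have hfix : e (z * e z) = z * e z := by
    rcases sq_eq_sq_iff_eq_or_eq_neg.1 hprod with h7 | h7
    · rw [h7, map_mul, map_mul, map_ofNat, heW, heW']
    · rw [h7, map_neg, map_mul, map_mul, map_ofNat, heW, heW']
  rw [map_mul] at hfix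
  have hez0 : e z ≠ 0 := (map_ne_zero e).2 hz0
  apply mul_left_cancel₀ hez0
  rw [hfix, mul_comm]

theorem exists_eps (hC : Ctx K q s v α W W') (hS : ∀ n, Sq4 (W 1) (W' 1) i a b u n) (N : ℕ) :
    ∃ σ ε : AlgebraicClosure K ≃ₐ[K] AlgebraicClosure K, Gens W W' i b N σ ε := by
  have hi2 : i ^ 2 = -1 := (hS 0).i2
  have hW0 : W 1 * W' 1 ≠ 0 := mul_ne_zero (hS 0).w0 (hS 0).w0'
  obtain ⟨g, hgi, hg⟩ := exists_gen4 hC hS
  obtain ⟨R, hR, hcomm⟩ := lga_res hC hS (N + 2)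
  set r := b 1 / (W 1 * W' 1) with hrb
  have hr : r ^ 2 = -i := by
    rw [hrb, div_pow, (hS 1).bs 0 (by norm_num), (hS 0).a0, (hS 0).b0,
      div_eq_iff (pow_ne_zero 2 hW0)]
    ring
  have hi0 : i ≠ 0 := by
    rintro rfl
    rw [zero_pow two_ne_zero] at hi2
    exact one_ne_zero (neg_eq_zero.1 hi2.symm)
  have hr0 : r ≠ 0 := by
    intro h0
    rw [h0, zero_pow two_ne_zero] at hr
    exact hi0 (neg_eq_zero.1 hr.symm)
  have hgb : (g ^ hK K) (b 1) = -b 1 := by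
    have h := (hg 0).1
    rwa [pow_zero, pow_one] at h
  obtain ⟨e, d, hei, her, heW, hRe⟩ := lga_eps0 hC hS hgi hgb hrb hr R hcomm
  have hgW := pow_fix hC g
  set σ := g ^ hK K with hσ
  have hσr : σ r = -r := by
    rw [hrb, map_div₀, map_mul, (hgW 1).1, (hgW 1).2, hgb, neg_div]
  -- the square of `e`
  obtain ⟨k, hk⟩ := aut_eq_pow hS hgi hgW hg (g := e * e)
    (by rw [AlgEquiv.mul_apply, hei, map_neg, hei, neg_neg])
    (fun c => ⟨by rw [AlgEquiv.mul_apply, (heW c).1, (heW c).1],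
      by rw [AlgEquiv.mul_apply, (heW c).2, (heW c).2]⟩) (N + 2)
  have hrM : r ∈ layM W W' i b (N + 2) := by
    rw [hrb]
    exact div_mem (mem_b (by omega)) (mul_mem (mem_W _ 1) (mem_W' _ 1))
  have hzM : b 2 / a 1 ∈ layM W W' i b (N + 2) := div_mem (mem_b (by omega)) (mem_a hS (by omega))
  have hk2 : Even k := by
    have h1 := hk r hrM
    rw [AlgEquiv.mul_apply, her, map_inv₀, her, inv_inv, lga_neg hσr] at h1
    exact lga_even hr0 h1.symm
  obtain ⟨j, hj⟩ := hk2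
  have hσz : (σ ^ 2) (b 2 / a 1) = -(b 2 / a 1) := by
    have h1 := (hg 1).1
    have h0 := (hg 0).2 0 le_rfl
    rw [pow_zero, pow_one] at h0
    rw [pow_one] at h1
    have ha0 : σ (a 0) = a 0 := by rw [(hS 0).a0, map_pow, (hgW 1).1]
    have ha1 : σ (a 1) = a 1 := by
      rw [(hS 1).as 0 (by norm_num), map_div₀, map_add, map_ofNat, ha0, h0]
    rw [map_div₀, h1, pow_two, AlgEquiv.mul_apply, ha1, ha1, neg_div]
  have hz0 : b 2 / a 1 ≠ 0 := div_ne_zero (sq4_ne (hS 2) (m := 2) le_rfl).2.1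
    (sq4_ne (hS 1) (m := 1) le_rfl).1
  have hj2 : Even j := by
    have h1 := hk _ hzM
    rw [AlgEquiv.mul_apply, lga_z2 hS hrb hr hei her (heW 1).1 (heW 1).2, hj, ← two_mul, pow_mul,
      lga_neg hσz] at h1
    exact lga_even hz0 h1.symm
  obtain ⟨l, hl⟩ := hj2
  have hkl : k = 2 * l + 2 * l := by omega
  have hRee : R e * R e = R σ ^ k := by
    rw [← map_mul, ← map_pow]
    apply AlgEquiv.ext
    intro x
    apply Subtype.ext
    rw [hR, hR]
    exact hk x x.2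
  set ρ := (σ ^ (2 * l))⁻¹ with hρ
  have hρi : ρ i = i := lga_inv (lga_id hgi _)
  have hσ2r : (σ ^ (2 * l)) r = r := by
    rw [lga_neg hσr, (even_two_mul l).neg_one_pow, one_mul]
  have hρr : ρ r = r := lga_inv hσ2r
  have hRρ : R ρ = (R σ ^ (2 * l))⁻¹ := by rw [hρ, map_inv, map_pow]
  have hRval : ∀ {σ τ : AlgebraicClosure K ≃ₐ[K] AlgebraicClosure K}, R σ = R τ →
      ∀ x ∈ layM W W' i b (N + 2), σ x = τ x := by
    intro σ τ h x hx
    have h1 := hR σ ⟨x, hx⟩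
    rw [h, hR] at h1
    exact h1.symm
  refine ⟨σ, e * ρ, ⟨g, rfl⟩, hgi, hgW, hg, ⟨d * (g⁻¹) ^ (2 * l), ?_⟩, ?_, ?_, ?_⟩
  · intro x hx
    refine hRval ?_ x (layM_mono (by omega) hx)
    have h2 : Commute (R d) (R g⁻¹ ^ (2 * l)) := hcomm _ _
    have h5 : R ρ = (R g⁻¹ ^ (2 * l)) ^ hK K := by
      rw [hRρ, hσ, map_pow, map_inv, ← pow_mul, ← pow_mul, inv_pow, mul_comm]
    rw [map_mul, map_pow, map_mul, map_pow, h2.mul_pow, hRe, h5]
  · rw [AlgEquiv.mul_apply, hρi, hei]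
  · rw [AlgEquiv.mul_apply, hρr, her]
  · intro x hx
    have h3 : R ((e * ρ) * (e * ρ)) = R 1 := by
      rw [map_mul, map_mul, map_one]
      calc R e * R ρ * (R e * R ρ) = R e * (R ρ * R e) * R ρ := by group
        _ = R e * (R e * R ρ) * R ρ := by rw [hcomm (R ρ) (R e)]
        _ = (R e * R e) * (R ρ * R ρ) := by group
        _ = 1 := by
            rw [hRee, hRρ, hkl, pow_add]
            group
    have h4 := hRval h3 x (layM_mono (by omega) hx)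
    rwa [AlgEquiv.mul_apply, AlgEquiv.one_apply] at h4

end Pool.Agent.Work.MP_787500_nt.GO
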