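import Mathlib
import Pool.Agent.Work.MP_787500_nt.GO.Basic
import Pool.Agent.Work.MP_787500_nt.GO.LDefs

/-!
# Module LnA: points over subfields  [size S-M]
All by cases on the point (`0` or `some x y`): `inc E F M` is `(x, y) ↦ (x, y)` (`Point.map_some`), `mp E τ` is `(x, y) ↦ (τ x, τ y)`.
`inc_surj`: `mp E τ (some x y) = some x y` gives `τ x = x`, `τ y = y` for `τ ∈ H`, so `x, y` come from `F`; nonsingular over `F` since it is nonsingular over `M` (injective map; see `HC/LyK.lean` for the same descent).
`rkE_eq`: `inc E F M` is a bijection of `(E⁄F).Point` and `eig (mp E g) 1` (`inc_injective`, `inc_surj` with `H = {g}`), a linear equivalence over `ℤ` (`LinearEquiv.finrank_eq`).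
`rkEig_le`: `inc E F M` maps the eigenspace of `f` injectively into the set of the `P` with `τ P = s P`; stated with `B` as an additive subgroup that contains the image.
-/

set_option autoImplicit false

namespace Pool.Agent.Work.MP_787500_nt.GO

open WithZero IsDedekindDomain NumberField WeierstrassCurve WeierstrassCurve.Affine
open Pool.Agent.Work.MP_787500_nt.HC

universe u

variable {K F M : Type*} [Field K] [Field F] [Field M] [Algebra K F] [Algebra K M] [Algebra F M]
variable [IsScalarTower K F M] (E : WeierstrassCurve.Affine K)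

open scoped Classical in
theorem inc_mp (g : F ≃ₐ[K] F) (τ : M ≃ₐ[K] M)
    (hc : ∀ x : F, algebraMap F M (g x) = τ (algebraMap F M x)) (P : (E⁄F).Point) :
    inc E F M (mp E g P) = mp E τ (inc E F M P) := by
  cases P with
  | zero => rfl
  | some x y hn =>
    rw [inc, mp, mp, Point.map_some, Point.map_some, Point.map_some, Point.map_some]
    simp only [Point.some.injEq]
    exact ⟨hc x, hc y⟩

open scoped Classical in
theorem inc_surj (H : Set (M ≃ₐ[K] M))
    (hH : ∀ x : M, (∀ τ ∈ H, τ x = x) → ∃ y : F, algebraMap F M y = x) (P : (E⁄M).Point)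
    (hP : ∀ τ ∈ H, mp E τ P = P) : ∃ Q : (E⁄F).Point, inc E F M Q = P := by
  cases P with
  | zero => exact ⟨0, rfl⟩
  | some x y hn =>
    have h1 : ∀ τ ∈ H, τ x = x ∧ τ y = y := by
      intro τ hτ
      have h2 := hP τ hτ
      rw [mp, Point.map_some] at h2
      simp only [Point.some.injEq] at h2
      exact h2
    obtain ⟨x', hx'⟩ := hH x fun τ hτ => (h1 τ hτ).1
    obtain ⟨y', hy'⟩ := hH y fun τ hτ => (h1 τ hτ).2
    subst hx' hy'
    have hn' : (E⁄F).Nonsingular x' y' :=
      (E.baseChange_nonsingular (f := IsScalarTower.toAlgHom K F M)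
        (IsScalarTower.toAlgHom K F M).injective x' y').mp hn
    exact ⟨Point.some x' y' hn', rfl⟩

theorem rkE_eq (g : M ≃ₐ[K] M) (hg : ∀ x : M, g x = x ↔ ∃ y : F, algebraMap F M y = x) :
    rkE E F = rkEig E g 1 := by
  classical
  have h1 : ∀ P : (E⁄F).Point, inc E F M P ∈ eig (mp E g) 1 := by
    intro P
    rw [mem_eig, one_smul]
    cases P with
    | zero => rfl
    | some x y hn =>
      rw [inc, mp, Point.map_some, Point.map_some]
      simp only [Point.some.injEq]
      exact ⟨(hg _).2 ⟨x, rfl⟩, (hg _).2 ⟨y, rfl⟩⟩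
  let ι : (E⁄F).Point →+ eig (mp E g) 1 := (inc E F M).codRestrict (eig (mp E g) 1) h1
  have hinj : Function.Injective ι := fun P Q h =>
    inc_injective E (congrArg Subtype.val h)
  have hsurj : Function.Surjective ι := by
    rintro ⟨P, hP⟩
    rw [mem_eig, one_smul] at hP
    obtain ⟨Q, hQ⟩ := inc_surj (F := F) E {g} (fun x hx => (hg x).1 (hx g rfl)) P
      (fun τ hτ => by rw [Set.mem_singleton_iff.1 hτ]; exact hP)
    exact ⟨Q, Subtype.ext hQ⟩
  exact (LinearEquiv.ofBijective ι.toIntLinearMap ⟨hinj, hsurj⟩).finrank_eq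

open scoped Classical in
theorem rkEig_le (f : F ≃ₐ[K] F) (τ : M ≃ₐ[K] M)
    (hc : ∀ x : F, algebraMap F M (f x) = τ (algebraMap F M x)) (s : ℤ)
    (hFG : FGE E M) (B : AddSubgroup (E⁄M).Point)
    (hB : ∀ P : (E⁄F).Point, mp E τ (inc E F M P) = s • inc E F M P → inc E F M P ∈ B) :
    rkEig E f s ≤ Module.finrank ℤ B := by
  have hfin : Module.Finite ℤ (E⁄M).Point := Module.Finite.iff_addGroup_fg.2 hFG
  have hfinB : Module.Finite ℤ B :=
    inferInstanceAs (Module.Finite ℤ (AddSubgroup.toIntSubmodule B))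
  let ι : eig (mp E f) s →+ B :=
    ((inc E F M).comp (eig (mp E f) s).subtype).codRestrict B (by
      rintro ⟨P, hP⟩
      rw [mem_eig] at hP
      refine hB P ?_
      rw [← inc_mp E f τ hc, hP, map_zsmul])
  have hinj : Function.Injective ι.toIntLinearMap := by
    intro P Q h
    apply Subtype.ext
    exact inc_injective (M := M) E (congrArg Subtype.val h)
  exact LinearMap.finrank_le_finrank_of_injective hinj

end Pool.Agent.Work.MP_787500_nt.GO
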