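import Mathlib
import Pool.Agent.Work.MP_787500_nt.GO.Basic
import Pool.Agent.Work.MP_787500_nt.GO.LDefs
import Pool.Agent.Work.MP_787500_nt.RS.RankAlg

/-!
# Module RkA: `g ^ (2 ^ n) = -1` and one point of infinite order give rank `2 ^ n`  [size S-M]
Near copy of `finrank_ge` and `lin_ge` of `RS/RankAlg.lean`, without `J`, `c`: `V = ℚ ⊗ A` is a nonzero vector space over the field `ℚ[X]/(X ^ (2 ^ n) + 1)` of degree `2 ^ n` (cyclotomic polynomial),
so `finrank ℚ V = 2 ^ n * dim ≥ 2 ^ n`. (Alternative: the map `ℤ[X]_{< 2 ^ n} → A`, `q ↦ q(g) P` is injective, since `q(g) P = 0` and `(X^(2^n) + 1)(g) P = 0` give `c P = 0` for an integer `c ≠ 0`.)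
-/

set_option autoImplicit false

namespace Pool.Agent.Work.MP_787500_nt.GO

open WithZero IsDedekindDomain NumberField WeierstrassCurve WeierstrassCurve.Affine
open Pool.Agent.Work.MP_787500_nt.HC

universe u

open scoped TensorProduct

open Polynomial in
private theorem rk_cyc_eq (n : ℕ) : cyclotomic (2 ^ (n + 1)) ℚ = (X ^ (2 ^ n) + 1 : ℚ[X]) := by
  rw [cyclotomic_prime_pow_eq_geom_sum Nat.prime_two]
  simp [Finset.sum_range_succ]
  ring

open Polynomial in
private theorem rk_cyc_irr (n : ℕ) : Irreducible (X ^ (2 ^ n) + 1 : ℚ[X]) := by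
  rw [← rk_cyc_eq n]
  exact cyclotomic.irreducible_rat (n := 2 ^ (n + 1)) (by positivity)

open Polynomial in
/-- linear algebra over `ℚ` -/
private theorem rk_lin_ge {V : Type*} [AddCommGroup V] [Module ℚ V] [Module.Finite ℚ V]
    [Nontrivial V] (n : ℕ) (g : Module.End ℚ V) (hg : g ^ (2 ^ n) = -1) :
    2 ^ n ≤ Module.finrank ℚ V := by
  have hirr := rk_cyc_irr n
  have : Fact (Irreducible (X ^ (2 ^ n) + 1 : ℚ[X])) := ⟨hirr⟩
  set p : ℚ[X] := X ^ (2 ^ n) + 1 with hp
  have hp0 : aeval g p = 0 := by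
    rw [hp, map_add, map_pow, aeval_X, map_one, hg]
    simp
  let φ : AdjoinRoot p →ₐ[ℚ] Module.End ℚ V := Ideal.Quotient.liftₐ (Ideal.span {p}) (aeval g) (by
    intro a ha
    obtain ⟨b, rfl⟩ := Ideal.mem_span_singleton'.1 ha
    rw [map_mul, hp0, mul_zero])
  let : Module (AdjoinRoot p) V := Module.compHom V φ.toRingHom
  have hsmul : ∀ (e : AdjoinRoot p) (v : V), e • v = φ e v := fun _ _ => rfl
  have : IsScalarTower ℚ (AdjoinRoot p) V := ⟨fun r e v => by
    rw [hsmul, hsmul, map_smul]; rfl⟩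
  have hdeg : Module.finrank ℚ (AdjoinRoot p) = 2 ^ n := by
    have h1 : p ≠ 0 := hirr.ne_zero
    rw [(AdjoinRoot.powerBasis h1).finrank, AdjoinRoot.powerBasis_dim]
    rw [hp]
    compute_degree!
  have hmul := Module.finrank_mul_finrank ℚ (AdjoinRoot p) V
  have : Module.Finite (AdjoinRoot p) V := Module.Finite.of_restrictScalars_finite ℚ _ _
  have h2 : 0 < Module.finrank (AdjoinRoot p) V := Module.finrank_pos
  rw [← hmul, hdeg]
  exact Nat.le_mul_of_pos_right _ h2

theorem finrank_ge_pow {A : Type*} [AddCommGroup A] [Module.Finite ℤ A] (n : ℕ) (g : A →+ A)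
    (hg : ∀ x, (g^[2 ^ n]) x = -x) {P : A} (hP : Nt P) : 2 ^ n ≤ Module.finrank ℤ A := by
  let f : A →ₗ[ℤ] TensorProduct ℤ ℚ A := TensorProduct.mk ℤ ℚ A 1
  have hb : IsBaseChange ℚ f := TensorProduct.isBaseChange ℤ A ℚ
  rw [← hb.finrank_eq]
  let Φ := Module.End.baseChangeHom ℤ ℚ A
  have hP0 : (1 : ℚ) ⊗ₜ[ℤ] P ≠ 0 := by
    let e : ℤ →ₗ[ℤ] A := LinearMap.toSpanSingleton ℤ A P
    have he : Function.Injective e := by
      rw [injective_iff_map_eq_zero]
      intro m hm
      by_contra hm0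
      have h1 : m • P = 0 := hm
      apply hP m.natAbs (Int.natAbs_ne_zero.2 hm0)
      rcases Int.natAbs_eq m with h | h
      · rw [h] at h1
        rw [← natCast_zsmul]
        exact h1
      · rw [h, neg_smul] at h1
        rw [← natCast_zsmul]
        exact neg_eq_zero.1 h1
    have h2 := Module.Flat.lTensor_preserves_injective_linearMap (M := ℚ) e he
    intro h3
    have h4 : e.lTensor ℚ ((1 : ℚ) ⊗ₜ[ℤ] (1 : ℤ)) = 0 := by
      rw [LinearMap.lTensor_tmul]
      have : e 1 = P := by simp [e]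
      rw [this, h3]
    have h5 := h2 (h4.trans (map_zero _).symm)
    have h6 := congrArg (TensorProduct.rid ℤ ℚ) h5
    simp at h6
  have : Nontrivial (TensorProduct ℤ ℚ A) := ⟨_, _, hP0⟩
  refine rk_lin_ge n (Φ g.toIntLinearMap) ?_
  rw [← map_pow, ← map_one Φ, ← map_neg]
  congr 1
  ext x
  rw [Module.End.pow_apply]
  exact hg x

end Pool.Agent.Work.MP_787500_nt.GO
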