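import Mathlib
import Pool.Agent.Work.MP_787500_nt.GO.Basic
import Pool.Agent.Work.MP_787500_nt.GO.LDefs
import Pool.Agent.Work.MP_787500_nt.GO.RkA
import Pool.Agent.Work.MP_787500_nt.RS.RankSplit

/-!
# Module RkB: growth of the eigenspaces  [size M]
`eig_add`: `eig e 1 ⊓ eig e (-1)` is killed by 2: `RS.finrank_add_le`.
`eig_step`: `A' = eig e s` is stable under `g` (commutes with `e`), a subgroup of `A`, so finitely generated (noetherian). In `A'`: `B` (as a subgroup: `AddSubgroup.addSubgroupOf` or comap) and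
`B' = {x ∈ A' | g^[2^n] x = -x}`, `B ⊓ B'` is killed by 2, so `finrank B + finrank B' ≤ finrank A'` (`RS.finrank_add_le`); `g` acts on `B'` with `g^[2^n] = -1`, `R ∈ B'`: `finrank_ge_pow`. (Model: the end of `RS/RankStep.lean`.)
-/

set_option autoImplicit false

namespace Pool.Agent.Work.MP_787500_nt.GO

open WithZero IsDedekindDomain NumberField WeierstrassCurve WeierstrassCurve.Affine
open Pool.Agent.Work.MP_787500_nt.HC

universe u

theorem eig_add {A : Type*} [AddCommGroup A] [Module.Finite ℤ A] (e : A →+ A) :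
    Module.finrank ℤ (eig e 1) + Module.finrank ℤ (eig e (-1)) ≤ Module.finrank ℤ A := by
  refine RS.finrank_add_le (eig e 1) (eig e (-1)) ?_
  intro x h1 h2
  rw [mem_eig] at h1 h2
  rw [h1, one_smul, neg_smul, one_smul] at h2
  nth_rewrite 2 [h2]
  exact add_neg_cancel x

theorem eig_step {A : Type*} [AddCommGroup A] [Module.Finite ℤ A] (n : ℕ) (g e : A →+ A)
    (hge : ∀ x, g (e x) = e (g x)) (s : ℤ) (B : AddSubgroup A)
    (hB : ∀ x ∈ B, (g^[2 ^ n]) x = x ∧ e x = s • x) {R : A} (hR : Nt R)
    (h1 : (g^[2 ^ n]) R = -R) (h2 : e R = s • R) :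
    Module.finrank ℤ B + 2 ^ n ≤ Module.finrank ℤ (eig e s) := by
  have hfin : Module.Finite ℤ (eig e s) :=
    inferInstanceAs (Module.Finite ℤ (AddSubgroup.toIntSubmodule (eig e s)))
  let g' : eig e s →+ eig e s := (g.comp (eig e s).subtype).codRestrict (eig e s) (by
    rintro ⟨x, hx⟩
    rw [mem_eig] at hx
    show e (g x) = s • g x
    rw [← hge, hx, map_zsmul])
  have hg' : ∀ x : eig e s, ((g' x : eig e s) : A) = g x := fun _ => rfl
  have hit : ∀ (k : ℕ) (x : eig e s), ((g'^[k] x : eig e s) : A) = g^[k] (x : A) := by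
    intro k
    induction k with
    | zero => intro x; rfl
    | succ k ih =>
      intro x
      rw [Function.iterate_succ_apply, ih, hg', Function.iterate_succ_apply]
  let B1 : AddSubgroup (eig e s) := B.addSubgroupOf (eig e s)
  let B' : AddSubgroup (eig e s) :=
    { carrier := {x | g'^[2 ^ n] x = -x}
      add_mem' := by
        intro x y (hx : g'^[2 ^ n] x = -x) (hy : g'^[2 ^ n] y = -y)
        show g'^[2 ^ n] (x + y) = -(x + y)
        rw [iterate_map_add, hx, hy, neg_add]
      zero_mem' := by
        show g'^[2 ^ n] 0 = -0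
        rw [iterate_map_zero, neg_zero]
      neg_mem' := by
        intro x (hx : g'^[2 ^ n] x = -x)
        show g'^[2 ^ n] (-x) = -(-x)
        rw [iterate_map_neg, hx] }
  have mB' : ∀ x : eig e s, x ∈ B' ↔ g'^[2 ^ n] x = -x := fun _ => Iff.rfl
  have key := RS.finrank_add_le B1 B' (by
    intro x hx hx'
    rw [mB'] at hx'
    have h3 : (x : A) ∈ B := AddSubgroup.mem_addSubgroupOf.1 hx
    have h4 : g'^[2 ^ n] x = x := by
      apply Subtype.ext
      rw [hit]
      exact (hB _ h3).1
    rw [h4] at hx'
    nth_rewrite 2 [hx']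
    exact add_neg_cancel x)
  have h3 : Module.finrank ℤ B ≤ Module.finrank ℤ B1 := by
    have hfin1 : Module.Finite ℤ B1 :=
      inferInstanceAs (Module.Finite ℤ (AddSubgroup.toIntSubmodule B1))
    let ι : B →+ B1 :=
      { toFun := fun x => ⟨⟨(x : A), (hB x x.2).2⟩, AddSubgroup.mem_addSubgroupOf.2 x.2⟩
        map_zero' := rfl
        map_add' := fun _ _ => rfl }
    have hinj : Function.Injective ι.toIntLinearMap := by
      intro x y hxy
      apply Subtype.ext
      exact congrArg (fun z : B1 => ((z : eig e s) : A)) hxy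
    exact LinearMap.finrank_le_finrank_of_injective hinj
  have h4 : 2 ^ n ≤ Module.finrank ℤ B' := by
    have hfin1 : Module.Finite ℤ B' :=
      inferInstanceAs (Module.Finite ℤ (AddSubgroup.toIntSubmodule B'))
    let gB : B' →+ B' := (g'.comp B'.subtype).codRestrict B' (by
      rintro ⟨x, hx⟩
      rw [mB'] at hx
      show g'^[2 ^ n] (g' x) = -(g' x)
      rw [← Function.iterate_succ_apply, Function.iterate_succ_apply', hx, map_neg])
    have hgB : ∀ x : B', ((gB x : B') : eig e s) = g' x := fun _ => rfl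
    have hitB : ∀ (k : ℕ) (x : B'), ((gB^[k] x : B') : eig e s) = g'^[k] (x : eig e s) := by
      intro k
      induction k with
      | zero => intro x; rfl
      | succ k ih =>
        intro x
        rw [Function.iterate_succ_apply, ih, hgB, Function.iterate_succ_apply]
    have hRe : R ∈ eig e s := h2
    have hRB : (⟨R, hRe⟩ : eig e s) ∈ B' := by
      rw [mB']
      apply Subtype.ext
      rw [hit]
      exact h1
    refine finrank_ge_pow n gB ?_ (P := ⟨⟨R, hRe⟩, hRB⟩) ?_
    · intro x
      apply Subtype.ext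
      rw [hitB]
      exact x.2
    · intro m hm h0
      exact hR m hm (congrArg (fun z : B' => ((z : eig e s) : A)) h0)
  omega

end Pool.Agent.Work.MP_787500_nt.GO
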