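import Mathlib
import Pool.Agent.Work.MP_787500_nt.GO.Basic
import Pool.Agent.Work.MP_787500_nt.GO.LDefs
import Pool.Agent.Work.MP_787500_nt.GO.LnA
import Pool.Agent.Work.MP_787500_nt.GO.RkA
import Pool.Agent.Work.MP_787500_nt.GO.RkB

/-!
# Module LnD: growth of the eigenspaces (fields)  [size M]
`A = (E⁄F').Point`, `g`, `e` act by `mp E g`, `mp E e` (commute: `mp_mul`), `(mp E g)^[2^n] = mp E (g ^ 2^n)` (`mp_pow`).
`grow`: `eig_step` with `B` = image under `inc E F F'` of `eig (mp E f) s` (`AddSubgroup.map`; same rank, `inc_injective`): on it `g ^ 2^n` acts trivially (`hgF`, `mp_some`) and `e` as `s` (`inc_mp`). `R` from `StepF`: for `s = 1` the first, for `s = -1` the second.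
`grow_mix`: the same with `e' = e * g ^ 2^n`: on `B` it acts as `s`, and on `R` with `e R = -s R`, `g^(2^n) R = -R` as `s`.
`base_eig`: three times `eig_step` with `n = 0`: for `e`: `B = {P | g P = P, e P = s P}` (`eig (mp E g) 1 ⊓ eig (mp E e) s`), its rank is at least 1: `finrank_ge_pow` with `n = 0` and the map `-1`; it contains a point of infinite order. The point `R` with `g R = -R`, `e R = s R`.
For `e * g`: the same `B`, `R` with `g R = -R`, `e R = -s R`. For `g`: exchange `g` and `e`: `B = {P | e P = P, g P = s P}`, `R` with `e R = -R`, `g R = s R` (`eig_step` for the pair `(e, g)`; `R` from `BaseF`).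
`eig_sum`: `eig_add`.
-/

set_option autoImplicit false

namespace Pool.Agent.Work.MP_787500_nt.GO

open WithZero IsDedekindDomain NumberField WeierstrassCurve WeierstrassCurve.Affine
open Pool.Agent.Work.MP_787500_nt.HC

universe u

variable {K F F' : Type*} [Field K] [Field F] [Field F'] [Algebra K F] [Algebra K F']
variable [Algebra F F'] [IsScalarTower K F F'] (E : WeierstrassCurve.Affine K)

open scoped Classical in
private theorem lnd_gen (hFG : FGE E F') {g e : F' ≃ₐ[K] F'} (hge : g * e = e * g)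
    {f : F ≃ₐ[K] F} {n : ℕ}
    (hgF : ∀ x : F, (g ^ 2 ^ n) (algebraMap F F' x) = algebraMap F F' x)
    (hef : ∀ x : F, algebraMap F F' (f x) = e (algebraMap F F' x)) {s : ℤ}
    {R : (E⁄F').Point} (hR : Nt R) (h1 : mp E (g ^ 2 ^ n) R = -R) (h2 : mp E e R = s • R) :
    rkEig E f s + 2 ^ n ≤ rkEig E e s := by
  have hfin : Module.Finite ℤ (E⁄F').Point := Module.Finite.iff_addGroup_fg.2 hFG
  let B : AddSubgroup (E⁄F').Point := (inc E F F').range ⊓ eig (mp E e) s
  have h3 : rkEig E f s ≤ Module.finrank ℤ B := by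
    refine rkEig_le E f e hef s hFG B ?_
    intro P hP
    exact ⟨⟨P, rfl⟩, hP⟩
  have h4 : Module.finrank ℤ B + 2 ^ n ≤ Module.finrank ℤ (eig (mp E e) s) := by
    refine eig_step n (mp E g) (mp E e) ?_ s B ?_ hR ?_ h2
    · intro x
      rw [← mp_mul, hge, mp_mul]
    · rintro x ⟨⟨P, rfl⟩, hx⟩
      refine ⟨?_, hx⟩
      rw [← mp_pow]
      have h5 := inc_mp E (1 : F ≃ₐ[K] F) (g ^ 2 ^ n) (fun x => (hgF x).symm) P
      rw [mp_one] at h5
      exact h5.symm
    · rw [← mp_pow]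
      exact h1
  exact (Nat.add_le_add_right h3 _).trans h4

private theorem lnd_base {A : Type*} [AddCommGroup A] [Module.Finite ℤ A] (g e : A →+ A)
    (hge : ∀ x, g (e x) = e (g x)) {s : ℤ} {P Q : A} (hP : Nt P) (hQ : Nt Q) (hgP : g P = P)
    (heP : e P = s • P) (hgQ : g Q = -Q) (heQ : e Q = s • Q) :
    2 ≤ Module.finrank ℤ (eig e s) := by
  let B : AddSubgroup A := eig g 1 ⊓ eig e s
  have hfinB : Module.Finite ℤ B :=
    inferInstanceAs (Module.Finite ℤ (AddSubgroup.toIntSubmodule B))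
  have hgP' : P ∈ eig g 1 := by
    rw [mem_eig, one_smul]
    exact hgP
  have hPB : P ∈ B := ⟨hgP', heP⟩
  have h1 : 2 ^ 0 ≤ Module.finrank ℤ B := by
    refine finrank_ge_pow 0 (-(AddMonoidHom.id B)) ?_ (P := ⟨P, hPB⟩) ?_
    · intro x
      rfl
    · intro m hm h0
      exact hP m hm (congrArg (fun z : B => (z : A)) h0)
  have h2 : Module.finrank ℤ B + 2 ^ 0 ≤ Module.finrank ℤ (eig e s) := by
    refine eig_step 0 g e hge s B ?_ hQ hgQ heQ
    rintro x ⟨hx1, hx2⟩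
    have hx3 : g x = (1 : ℤ) • x := hx1
    rw [one_smul] at hx3
    exact ⟨hx3, hx2⟩
  rw [pow_zero] at h1 h2
  omega

theorem grow (hFG : FGE E F') {g e : F' ≃ₐ[K] F'} (hge : g * e = e * g) {f : F ≃ₐ[K] F} {n : ℕ}
    (hgF : ∀ x : F, (g ^ 2 ^ n) (algebraMap F F' x) = algebraMap F F' x)
    (hef : ∀ x : F, algebraMap F F' (f x) = e (algebraMap F F' x)) (h : StepF E g e n) {s : ℤ}
    (hs : s = 1 ∨ s = -1) : rkEig E f s + 2 ^ n ≤ rkEig E e s := by
  classical
  obtain ⟨R, R', hR, hR', h1, h1', h2, h2'⟩ := h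
  rcases hs with rfl | rfl
  · exact lnd_gen E hFG hge hgF hef hR h1 (by rw [one_smul]; exact h2)
  · exact lnd_gen E hFG hge hgF hef hR' h1' (by rw [neg_smul, one_smul]; exact h2')

theorem grow_mix (hFG : FGE E F') {g e : F' ≃ₐ[K] F'} (hge : g * e = e * g) {f : F ≃ₐ[K] F}
    {n : ℕ} (hgF : ∀ x : F, (g ^ 2 ^ n) (algebraMap F F' x) = algebraMap F F' x)
    (hef : ∀ x : F, algebraMap F F' (f x) = e (algebraMap F F' x)) (h : StepF E g e n) {s : ℤ}
    (hs : s = 1 ∨ s = -1) : rkEig E f s + 2 ^ n ≤ rkEig E (e * g ^ 2 ^ n) s := by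
  classical
  obtain ⟨R, R', hR, hR', h1, h1', h2, h2'⟩ := h
  have hge' : g * (e * g ^ 2 ^ n) = e * g ^ 2 ^ n * g := by
    rw [← mul_assoc, hge, mul_assoc, mul_assoc, ← pow_succ', pow_succ]
  have hef' : ∀ x : F, algebraMap F F' (f x) = (e * g ^ 2 ^ n) (algebraMap F F' x) := by
    intro x
    rw [AlgEquiv.mul_apply, hgF, hef]
  rcases hs with rfl | rfl
  · refine lnd_gen E hFG hge' hgF hef' hR' h1' ?_
    rw [mp_mul, h1', map_neg, h2', neg_neg, one_smul]
  · refine lnd_gen E hFG hge' hgF hef' hR h1 ?_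
    rw [mp_mul, h1, map_neg, h2, neg_smul, one_smul]

theorem base_eig (hFG : FGE E F) {g e : F ≃ₐ[K] F} (hge : g * e = e * g) (h : BaseF E g e)
    {s : ℤ} (hs : s = 1 ∨ s = -1) :
    2 ≤ rkEig E e s ∧ 2 ≤ rkEig E (e * g) s ∧ 2 ≤ rkEig E g s := by
  classical
  have hfin : Module.Finite ℤ (E⁄F).Point := Module.Finite.iff_addGroup_fg.2 hFG
  have hge1 : ∀ x, mp E g (mp E e x) = mp E e (mp E g x) := by
    intro x
    rw [← mp_mul, hge, mp_mul]
  have hs' : -s = 1 ∨ -s = -1 := by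
    rcases hs with rfl | rfl
    · exact Or.inr rfl
    · exact Or.inl (neg_neg 1)
  refine ⟨?_, ?_, ?_⟩
  · obtain ⟨P, hP, h1, h2⟩ := h 1 s (Or.inl rfl) hs
    obtain ⟨Q, hQ, h3, h4⟩ := h (-1) s (Or.inr rfl) hs
    rw [one_smul] at h1
    rw [neg_smul, one_smul] at h3
    exact lnd_base (mp E g) (mp E e) hge1 hP hQ h1 h2 h3 h4
  · obtain ⟨P, hP, h1, h2⟩ := h 1 s (Or.inl rfl) hs
    obtain ⟨Q, hQ, h3, h4⟩ := h (-1) (-s) (Or.inr rfl) hs'
    rw [one_smul] at h1
    rw [neg_smul, one_smul] at h3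
    refine lnd_base (mp E g) (mp E (e * g)) ?_ hP hQ h1 ?_ h3 ?_
    · intro x
      rw [mp_mul, mp_mul, hge1]
    · rw [mp_mul, h1, h2]
    · rw [mp_mul, h3, map_neg, h4, neg_smul, neg_neg]
  · obtain ⟨P, hP, h1, h2⟩ := h s 1 hs (Or.inl rfl)
    obtain ⟨Q, hQ, h3, h4⟩ := h s (-1) hs (Or.inr rfl)
    rw [one_smul] at h2
    rw [neg_smul, one_smul] at h4
    exact lnd_base (mp E e) (mp E g) (fun x => (hge1 x).symm) hP hQ h2 h1 h4 h3

theorem eig_sum (hFG : FGE E F) (e : F ≃ₐ[K] F) : rkEig E e 1 + rkEig E e (-1) ≤ rkE E F := by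
  classical
  have hfin : Module.Finite ℤ (E⁄F).Point := Module.Finite.iff_addGroup_fg.2 hFG
  exact eig_add (mp E e)

end Pool.Agent.Work.MP_787500_nt.GO
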