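import Mathlib
import Pool.Agent.Work.MP_787500_nt.GO.Basic
import Pool.Agent.Work.MP_787500_nt.GO.LDefs
import Pool.Agent.Work.MP_787500_nt.HC.TwB
import Pool.Agent.Work.MP_787500_nt.HC.TwC
import Pool.Agent.Work.MP_787500_nt.HC.LyO

/-!
# Module LnE: the involutions of a layer  [size M]
`F = layF m`, abelian over `K`, every automorphism of `F` lifts to `Ω` and conversely (`ab_galois (layF m)`, `(layF_le m).trans (layM_le_ab hC hS m)`, `layF_finite`). Let `h'` be a lift of `h`; `ε * h'` fixes `i`, so `ε (h' x) = (σ ^ k) x` on `F` (`aut_layF`), so `h = e * g ^ k` (`e * e = 1` by `hε2`, `Restr`).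
`h * h = 1` and commutativity: `g ^ (2 k) = 1`. The order of `g` is `2 ^ m`: `g ^ (2^m) = 1` (`fix_layM`: `σ ^ 2^m` fixes `i`, `b 0, .., b m`, the `W`, `W'`); every element of the group is `g ^ k` or `e * g ^ k` (the same argument), the group has `2 ^ (m+1)` elements (`finrank_layF`, `IsGalois.card_aut_eq_finrank`), so `2^(m+1) ≤ 2 * orderOf g`.
So `2 ^ m ∣ 2 k`: for `m = 0` `g = 1`, `h = e`; for `m ≥ 1` `2^(m-1) ∣ k`, `g ^ k` is `1` or `g ^ 2^(m-1)`.
`fix_layF`: `mem_layF_of_fixed` and `fix_layM` (`layF_le`), `((g ^ 2^m) x : Ω) = (σ ^ 2^m) x` (`apply_pow_coe`).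
-/

set_option autoImplicit false

namespace Pool.Agent.Work.MP_787500_nt.GO

open WithZero IsDedekindDomain NumberField WeierstrassCurve WeierstrassCurve.Affine
open Pool.Agent.Work.MP_787500_nt.HC

universe u

variable {K : Type u} [Field K] [NumberField K] {q : ℕ} {s : K} {v : HeightOneSpectrum (𝓞 K)}
variable {α : Kˣ} {W W' : ClassGroup (𝓞 K) → AlgebraicClosure K} {i : AlgebraicClosure K}
variable {a b u : ℕ → AlgebraicClosure K}

omit [NumberField K] in
private theorem pow_apply_eq' {x : AlgebraicClosure K}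
    {τ : AlgebraicClosure K ≃ₐ[K] AlgebraicClosure K} (h : τ x = x) (k : ℕ) : (τ ^ k) x = x := by
  induction k with
  | zero => rfl
  | succ k ih => rw [pow_succ, AlgEquiv.mul_apply, h, ih]

private theorem fix_pow {N m : ℕ} {σ ε : AlgebraicClosure K ≃ₐ[K] AlgebraicClosure K}
    (hG : Gens W W' i b N σ ε) {x : AlgebraicClosure K} (hx : x ∈ layM W W' i b m) :
    (σ ^ 2 ^ m) x = x :=
  fix_layM (pow_apply_eq' hG.sigi _) (hG.sigb m).2
    (fun c => ⟨pow_apply_eq' (hG.sigW c).1 _, pow_apply_eq' (hG.sigW c).2 _⟩) hx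

theorem inv_layF (hC : Ctx K q s v α W W') (hS : ∀ n, Sq4 (W 1) (W' 1) i a b u n) {N m : ℕ}
    (hm : m ≤ N) {σ ε : AlgebraicClosure K ≃ₐ[K] AlgebraicClosure K} (hG : Gens W W' i b N σ ε)
    {h g e : layF W W' i b m ≃ₐ[K] layF W W' i b m} (hg : Restr g σ) (he : Restr e ε)
    {j : layF W W' i b m} (hj : (j : AlgebraicClosure K) = i) (hhj : h j = -j)
    (hh : ∀ x, h (h x) = x) : h = e ∨ (1 ≤ m ∧ h = e * g ^ 2 ^ (m - 1)) := by
  have hfd : FiniteDimensional K (layF W W' i b m) := layF_finite m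
  obtain ⟨hgal, hcomm, -, -, hlift⟩ := ab_galois (layF W W' i b m)
    ((layF_le m).trans (layM_le_ab hC hS m))
  have hee : e * e = 1 := by
    apply AlgEquiv.ext
    intro x
    apply Subtype.ext
    rw [AlgEquiv.mul_apply, he, he]
    exact hG.eps2 x (layM_mono hm (layF_le m x.2))
  have hgen : ∀ t : layF W W' i b m ≃ₐ[K] layF W W' i b m, t j = -j →
      ∃ k : ℕ, t = e * g ^ k := by
    intro t ht
    obtain ⟨τ, hτ⟩ := hlift t
    have h1 : τ i = -i := by
      rw [← hj, ← hτ, ht]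
      rfl
    have h2 : (ε * τ) i = i := by
      rw [AlgEquiv.mul_apply, h1, map_neg, hG.epsi, neg_neg]
    obtain ⟨k, hk⟩ := aut_layF hC hS hG.sigi hG.sigW hG.sigb h2 m
    refine ⟨k, ?_⟩
    have h3 : e * t = g ^ k := by
      apply AlgEquiv.ext
      intro x
      apply Subtype.ext
      rw [AlgEquiv.mul_apply, he, hτ, apply_pow_coe hg, ← hk x x.2, AlgEquiv.mul_apply]
    rw [← h3, ← mul_assoc, hee, one_mul]
  have hgen' : ∀ t : layF W W' i b m ≃ₐ[K] layF W W' i b m,
      (∃ k : ℕ, t = g ^ k) ∨ ∃ k : ℕ, t = e * g ^ k := by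
    intro t
    have hj2 : j ^ 2 = -1 := by
      apply Subtype.ext
      show (j : AlgebraicClosure K) ^ 2 = -1
      rw [hj]
      exact (hS 0).i2
    have h1 : (t j) ^ 2 = j ^ 2 := by rw [← map_pow, hj2, map_neg, map_one]
    rcases sq_eq_sq_iff_eq_or_eq_neg.1 h1 with h2 | h2
    · left
      obtain ⟨τ, hτ⟩ := hlift t
      have h3 : τ i = i := by rw [← hj, ← hτ, h2]
      obtain ⟨k, hk⟩ := aut_layF hC hS hG.sigi hG.sigW hG.sigb h3 m
      refine ⟨k, ?_⟩
      apply AlgEquiv.ext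
      intro x
      apply Subtype.ext
      rw [hτ, apply_pow_coe hg, ← hk x x.2]
    · exact Or.inr (hgen t h2)
  have hg1 : g ^ 2 ^ m = 1 := by
    apply AlgEquiv.ext
    intro x
    apply Subtype.ext
    rw [apply_pow_coe hg]
    exact fix_pow hG (layF_le m x.2)
  have hcard : Nat.card (layF W W' i b m ≃ₐ[K] layF W W' i b m) = 2 ^ (m + 1) := by
    rw [IsGalois.card_aut_eq_finrank, finrank_layF hC hS m]
  have hfin : Finite (layF W W' i b m ≃ₐ[K] layF W W' i b m) :=
    Nat.finite_of_card_ne_zero (by rw [hcard]; positivity)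
  have hord : orderOf g = 2 ^ m := by
    have h1 : orderOf g ∣ 2 ^ m := orderOf_dvd_of_pow_eq_one hg1
    have h2 : Nat.card (layF W W' i b m ≃ₐ[K] layF W W' i b m) ≤ 2 * orderOf g := by
      have h3 : Function.Surjective (fun y : Bool × Subgroup.zpowers g =>
          (if y.1 then (y.2 : layF W W' i b m ≃ₐ[K] layF W W' i b m) else e * y.2)) := by
        intro t
        rcases hgen' t with ⟨k, hk⟩ | ⟨k, hk⟩
        · refine ⟨(true, ⟨g ^ k, Subgroup.npow_mem_zpowers g k⟩), ?_⟩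
          rw [hk]
          rfl
        · refine ⟨(false, ⟨g ^ k, Subgroup.npow_mem_zpowers g k⟩), ?_⟩
          rw [hk]
          rfl
      have h4 := Nat.card_le_card_of_surjective _ h3
      have h5 : Nat.card Bool = 2 := by simp
      rwa [Nat.card_prod, Nat.card_zpowers, h5] at h4
    rw [hcard, pow_succ, mul_comm] at h2
    exact le_antisymm (Nat.le_of_dvd (by positivity) h1) (by omega)
  obtain ⟨k, hk⟩ := hgen h hhj
  have h2k : g ^ (2 * k) = 1 := by
    have h1 : h * h = 1 := by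
      apply AlgEquiv.ext
      intro x
      exact hh x
    rw [hk] at h1
    calc g ^ (2 * k) = (e * e) * (g ^ k * g ^ k) := by rw [hee, one_mul, two_mul, pow_add]
      _ = e * g ^ k * (e * g ^ k) := by
        rw [mul_assoc, mul_assoc, ← mul_assoc e (g ^ k), hcomm e (g ^ k), mul_assoc (g ^ k)]
        rw [hcomm e (g ^ k)]
      _ = 1 := h1
  have hdvd : 2 ^ m ∣ 2 * k := by
    rw [← hord]
    exact orderOf_dvd_of_pow_eq_one h2k
  rcases Nat.eq_zero_or_pos m with hm0 | hm0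
  · left
    have h1 : g = 1 := by
      have h2 : orderOf g = 1 := by rw [hord, hm0, pow_zero]
      exact orderOf_eq_one_iff.mp h2
    rw [hk, h1, one_pow, mul_one]
  · obtain ⟨m', rfl⟩ : ∃ m', m = m' + 1 := ⟨m - 1, by omega⟩
    rw [pow_succ, mul_comm (2 ^ m') 2] at hdvd
    obtain ⟨l, hl⟩ := Nat.dvd_of_mul_dvd_mul_left (by norm_num) hdvd
    have h5 : (g ^ 2 ^ m') ^ 2 = 1 := by rw [← pow_mul, ← pow_succ, hg1]
    rcases Nat.even_or_odd' l with ⟨r, hr | hr⟩
    · left
      rw [hk, hl, pow_mul, hr, pow_mul, h5, one_pow, mul_one]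
    · right
      refine ⟨hm0, ?_⟩
      rw [hk, hl, pow_mul, hr, pow_succ, pow_mul, h5, one_pow, one_mul]
      rfl

theorem fix_layF (hC : Ctx K q s v α W W') (hS : ∀ n, Sq4 (W 1) (W' 1) i a b u n) {N m : ℕ}
    {σ ε : AlgebraicClosure K ≃ₐ[K] AlgebraicClosure K} (hG : Gens W W' i b N σ ε)
    {g : layF W W' i b (m + 1) ≃ₐ[K] layF W W' i b (m + 1)} (hg : Restr g σ)
    (x : layF W W' i b (m + 1)) :
    (g ^ 2 ^ m) x = x ↔ (x : AlgebraicClosure K) ∈ layF W W' i b m := by
  have h1 := apply_pow_coe hg (2 ^ m) x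
  constructor
  · intro h
    rw [h] at h1
    exact mem_layF_of_fixed hC hS hG.sigi hG.sigW hG.sigb x.2 h1.symm
  · intro h
    apply Subtype.ext
    rw [h1]
    exact fix_pow hG (layF_le m h)

end Pool.Agent.Work.MP_787500_nt.GO
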