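import Mathlib
import Pool.Agent.Work.MP_787500_nt.GO.Basic
import Pool.Agent.Work.MP_787500_nt.GO.LDefs
import Pool.Agent.Work.MP_787500_nt.HC.LyA
import Pool.Agent.Work.MP_787500_nt.HC.LyB
import Pool.Agent.Work.MP_787500_nt.HC.LyC
import Pool.Agent.Work.MP_787500_nt.HC.LyD
import Pool.Agent.Work.MP_787500_nt.HC.LyE
import Pool.Agent.Work.MP_787500_nt.HC.LyJ
import Pool.Agent.Work.MP_787500_nt.HC.LyO

/-!
# Module LgB: the layers have the structure `Lay`  [size M]
`M = layM n`, `n ≤ N`, so `M ≤ layM N`. `σ'`, `ε'`: restrictions to `M` (`ab_galois (layM n)`, `layM_le_ab`, `layM_finite`), `C = {g | g ^ h = 1}` (finite: `Set.toFinite .. |>.toFinset`).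
`odd`: `odd_hK`. `exp`: `pow_pow_eq_one` with `e = n + 1`. `data`: `wdata_res`. `act`: `act_res`. `fixW`: `res_fix`. `seq`: `sq4_res`. `sig`: the restriction of `g`. `eps`: the restriction of `c`. `sigb`: `(σ' ^ k) x = (σ ^ k) x` (`apply_pow_coe` in `HC/LyO.lean`), `res_coe (mem_b ..)`.
`eps2`: on `layM n ≤ layM N`. `epsr`: `res_coe`. `gen`: lift `τ` to `Ω` (`ab_galois`), `ρ = τ ^ h` fixes `W`, `W'` (`pow_fix`), `ρ i = ± i`. If `ρ i = i`: `aut_eq_pow`. If `ρ i = -i`: `ε * ρ` fixes `i` and `W`, `W'` (`ε (W c) = (c ^ h) (W c)`), so `ε ρ = σ ^ k` on `M`, `ρ = ε σ ^ k` on `M`.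
`mem_of_fix`: `mem_layF`: if `τ` in `Gal(Ω/K)` has `τ ^ h = 1` on `layM n`, then its restriction to `layM n` is in `C` (`L.memC`), so `τ x = x`.
-/

set_option autoImplicit false

namespace Pool.Agent.Work.MP_787500_nt.GO

open WithZero IsDedekindDomain NumberField WeierstrassCurve WeierstrassCurve.Affine
open Pool.Agent.Work.MP_787500_nt.HC

universe u

variable {K : Type u} [Field K] [NumberField K] {q : ℕ} {s : K} {v : HeightOneSpectrum (𝓞 K)}
variable {α : Kˣ} {W W' : ClassGroup (𝓞 K) → AlgebraicClosure K} {i : AlgebraicClosure K}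
variable {a b u : ℕ → AlgebraicClosure K}

omit [NumberField K] in
private theorem apply_pow_lgb {E : IntermediateField K (AlgebraicClosure K)} {τ : E ≃ₐ[K] E}
    {σ : AlgebraicClosure K ≃ₐ[K] AlgebraicClosure K}
    (h : ∀ x : E, ((τ x : E) : AlgebraicClosure K) = σ x) (k : ℕ)
    (x : E) : (((τ ^ k) x : E) : AlgebraicClosure K) = (σ ^ k) x := by
  induction k generalizing x with
  | zero => rfl
  | succ k ih => rw [pow_succ, pow_succ, AlgEquiv.mul_apply, AlgEquiv.mul_apply, ih, h]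

theorem exists_lay (hC : Ctx K q s v α W W') (hS : ∀ n, Sq4 (W 1) (W' 1) i a b u n) {N n : ℕ}
    (h1 : 1 ≤ n) (hn : n ≤ N) {σ ε : AlgebraicClosure K ≃ₐ[K] AlgebraicClosure K}
    (hG : Gens W W' i b N σ ε) :
    ∃ (C : Finset (layM W W' i b n ≃ₐ[K] layM W W' i b n))
      (σ' ε' : layM W W' i b n ≃ₐ[K] layM W W' i b n), Restr σ' σ ∧ Restr ε' ε ∧
      LayN v (α : K) W W' i a b u n C σ' ε' := by
  have hfin : FiniteDimensional K (layM W W' i b n) := layM_finite n
  obtain ⟨hgal, hcomm, hst, hres, hlift⟩ := ab_galois (layM W W' i b n) (layM_le_ab hC hS n)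
  have hle : layM W W' i b n ≤ layM W W' i b N := layM_mono hn
  obtain ⟨g, hg⟩ := hG.sig
  obtain ⟨c, hc⟩ := hG.eps
  obtain ⟨g', hg'⟩ := hres g
  obtain ⟨c', hc'⟩ := hres c
  obtain ⟨ε', hε'⟩ := hres ε
  have hσ' : ∀ x : layM W W' i b n,
      (((g' ^ hK K) x : layM W W' i b n) : AlgebraicClosure K) = σ x := by
    intro x
    rw [apply_pow_lgb hg', hg]
  have hσk : ∀ (k : ℕ) (x : layM W W' i b n),
      ((((g' ^ hK K) ^ k) x : layM W W' i b n) : AlgebraicClosure K) = (σ ^ k) x :=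
    fun k x => apply_pow_lgb hσ' k x
  have hεW : ∀ d, ε (W d) = W d ∧ ε (W' d) = W' d := by
    intro d
    rw [hc _ (mem_W N d), hc _ (mem_W' N d)]
    exact pow_fix hC c d
  refine ⟨(Set.toFinite {x : layM W W' i b n ≃ₐ[K] layM W W' i b n | x ^ hK K = 1}).toFinset,
    g' ^ hK K, ε', hσ', hε', ?_⟩
  refine
    { gal := hgal
      odd := odd_hK hC.base
      comm := hcomm
      exp := ⟨n + 1, pow_pow_eq_one hC hS n⟩
      memC := fun x => by rw [Set.Finite.mem_toFinset]; rfl
      data := wdata_res hC n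
      act := act_res hC hS n
      fixW := res_fix hC hS n
      pos := h1
      seq := sq4_res hS n
      sig := ⟨g', rfl⟩
      eps := ⟨c', ?_⟩
      sigi := ?_
      sigb := ?_
      epsi := ?_
      eps2 := ?_
      epsr := ?_
      gen := ?_ }
  · apply AlgEquiv.ext
    intro x
    apply Subtype.ext
    rw [hε', apply_pow_lgb hc', hc _ (hle x.2)]
  · apply Subtype.ext
    rw [hσ']
    exact hG.sigi
  · intro m hm
    refine ⟨?_, fun j hj => ?_⟩
    · apply Subtype.ext
      rw [hσk]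
      have h2 : ((res (layM W W' i b n) b (m + 1) : layM W W' i b n) : AlgebraicClosure K) =
          b (m + 1) := res_coe (mem_b (by omega))
      rw [h2, (hG.sigb m).1]
      show -b (m + 1) = -((res (layM W W' i b n) b (m + 1) : layM W W' i b n) : AlgebraicClosure K)
      rw [h2]
    · apply Subtype.ext
      rw [hσk]
      have h2 : ((res (layM W W' i b n) b j : layM W W' i b n) : AlgebraicClosure K) =
          b j := res_coe (mem_b (by omega))
      rw [h2, (hG.sigb m).2 j hj]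
  · apply Subtype.ext
    rw [hε']
    exact hG.epsi
  · apply AlgEquiv.ext
    intro x
    apply Subtype.ext
    rw [AlgEquiv.mul_apply, hε', hε', AlgEquiv.one_apply]
    exact hG.eps2 _ (hle x.2)
  · apply Subtype.ext
    rw [hε']
    have h2 : ((res (layM W W' i b n) b 1 : layM W W' i b n) : AlgebraicClosure K) = b 1 :=
      res_coe (mem_b h1)
    have h3 : ((res (layM W W' i b n) W 1 : layM W W' i b n) : AlgebraicClosure K) = W 1 :=
      res_coe (mem_W n 1)
    have h4 : ((res (layM W W' i b n) W' 1 : layM W W' i b n) : AlgebraicClosure K) = W' 1 :=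
      res_coe (mem_W' n 1)
    show ε (((res (layM W W' i b n) b 1 : layM W W' i b n) : AlgebraicClosure K) /
      (((res (layM W W' i b n) W 1 : layM W W' i b n) : AlgebraicClosure K) *
        ((res (layM W W' i b n) W' 1 : layM W W' i b n) : AlgebraicClosure K))) =
      (((res (layM W W' i b n) b 1 : layM W W' i b n) : AlgebraicClosure K) /
      (((res (layM W W' i b n) W 1 : layM W W' i b n) : AlgebraicClosure K) *
        ((res (layM W W' i b n) W' 1 : layM W W' i b n) : AlgebraicClosure K)))⁻¹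
    rw [h2, h3, h4]
    exact hG.epsr
  · intro τ
    obtain ⟨T, hT⟩ := hlift τ
    have hTk : ∀ x : layM W W' i b n,
        (((τ ^ hK K) x : layM W W' i b n) : AlgebraicClosure K) = (T ^ hK K) x :=
      fun x => apply_pow_lgb hT _ x
    have h2 : ((T ^ hK K) i) ^ 2 = i ^ 2 := by
      rw [← map_pow, (hS 0).i2, map_neg, map_one]
    rcases sq_eq_sq_iff_eq_or_eq_neg.1 h2 with h3 | h3
    · obtain ⟨k, hk⟩ := aut_eq_pow hS hG.sigi hG.sigW hG.sigb h3 (pow_fix hC T) n
      refine ⟨k, Or.inl ?_⟩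
      apply AlgEquiv.ext
      intro x
      apply Subtype.ext
      rw [hTk, hσk]
      exact hk _ x.2
    · obtain ⟨k, hk⟩ := aut_eq_pow hS (g := ε * T ^ hK K) hG.sigi hG.sigW hG.sigb
        (by rw [AlgEquiv.mul_apply, h3, map_neg, hG.epsi, neg_neg])
        (fun d => ⟨by rw [AlgEquiv.mul_apply, (pow_fix hC T d).1, (hεW d).1],
          by rw [AlgEquiv.mul_apply, (pow_fix hC T d).2, (hεW d).2]⟩) n
      refine ⟨k, Or.inr ?_⟩
      apply AlgEquiv.ext
      intro x
      apply Subtype.ext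
      rw [hTk, AlgEquiv.mul_apply, hε', hσk, ← hk _ x.2, AlgEquiv.mul_apply]
      exact (hG.eps2 _ (hle (hst _ _ x.2))).symm

theorem mem_of_fix (hC : Ctx K q s v α W W') (hS : ∀ n, Sq4 (W 1) (W' 1) i a b u n) {n : ℕ}
    {C : Finset (layM W W' i b n ≃ₐ[K] layM W W' i b n)}
    {σ' ε' : layM W W' i b n ≃ₐ[K] layM W W' i b n} (L : LayN v (α : K) W W' i a b u n C σ' ε')
    (x : layM W W' i b n) (hx : ∀ τ ∈ C, τ x = x) : (x : AlgebraicClosure K) ∈ layF W W' i b n := by
  have hfin : FiniteDimensional K (layM W W' i b n) := layM_finite n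
  obtain ⟨-, -, -, hres, -⟩ := ab_galois (layM W W' i b n) (layM_le_ab hC hS n)
  refine mem_layF.2 ⟨x.2, fun T hT => ?_⟩
  obtain ⟨τ, hτ⟩ := hres T
  have h1 : τ ^ hK K = 1 := by
    apply AlgEquiv.ext
    intro y
    apply Subtype.ext
    rw [apply_pow_lgb hτ, AlgEquiv.one_apply]
    exact hT _ y.2
  have h2 := hx τ ((L.memC τ).2 h1)
  rw [← hτ x, h2]

end Pool.Agent.Work.MP_787500_nt.GO
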