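import Mathlib
import Pool.Agent.Work.MP_787500_nt.GO.Basic
import Pool.Agent.Work.MP_787500_nt.GO.LDefs
import Pool.Agent.Work.MP_787500_nt.GO.LnA

/-!
# Module LnC: points of the layer `layM` over the layer `layF`  [size S-M]
`M = layM`, `F = layF`: the points fixed by `C` come from `F` (`inc_surj` with `H = C`), and `inc_mp`, `inc_injective` transport all equations. (`Nt Q` from `Nt (inc Q)`: `Nt.of_map`; `mp E (g ^ k)`: `hg` for the powers, by induction.)
-/

set_option autoImplicit false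

namespace Pool.Agent.Work.MP_787500_nt.GO

open WithZero IsDedekindDomain NumberField WeierstrassCurve WeierstrassCurve.Affine
open Pool.Agent.Work.MP_787500_nt.HC

universe u

variable {K F M : Type*} [Field K] [Field F] [Field M] [Algebra K F] [Algebra K M] [Algebra F M]
variable [IsScalarTower K F M] (E : WeierstrassCurve.Affine K)

omit [Algebra K F] [Algebra K M] [IsScalarTower K F M] in
private theorem lnc_pow [Algebra K F] [Algebra K M] {σ : M ≃ₐ[K] M} {g : F ≃ₐ[K] F}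
    (hg : ∀ x : F, algebraMap F M (g x) = σ (algebraMap F M x)) (k : ℕ) (x : F) :
    algebraMap F M ((g ^ k) x) = (σ ^ k) (algebraMap F M x) := by
  induction k generalizing x with
  | zero => rfl
  | succ k ih =>
    rw [pow_succ, pow_succ, AlgEquiv.mul_apply, AlgEquiv.mul_apply, ih, hg]

open scoped Classical in
private theorem lnc_neg {g : F ≃ₐ[K] F} {τ : M ≃ₐ[K] M}
    (hc : ∀ x : F, algebraMap F M (g x) = τ (algebraMap F M x)) {Q : (E⁄F).Point} {s : ℤ}
    (h : mp E τ (inc E F M Q) = s • inc E F M Q) : mp E g Q = s • Q := by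
  apply inc_injective E (F := F) (M := M)
  rw [inc_mp E g τ hc, h, map_zsmul]

open scoped Classical in
private theorem lnc_nt {Q : (E⁄F).Point} (h : Nt (inc E F M Q)) : Nt Q :=
  Nt.of_map (inc E F M) h

theorem stepF_of {C : Finset (M ≃ₐ[K] M)} {σ ε : M ≃ₐ[K] M}
    (hfix : ∀ x : M, (∀ τ ∈ C, τ x = x) → ∃ y : F, algebraMap F M y = x) {g e : F ≃ₐ[K] F}
    (hg : ∀ x : F, algebraMap F M (g x) = σ (algebraMap F M x))
    (he : ∀ x : F, algebraMap F M (e x) = ε (algebraMap F M x)) {n : ℕ}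
    (h : StepPts E C σ ε n) : StepF E g e n := by
  classical
  obtain ⟨R, R', hR, hR', hC, h1, h2, h3, h4⟩ := h
  obtain ⟨Q, rfl⟩ := inc_surj E (F := F) (C : Set (M ≃ₐ[K] M))
    (fun x hx => hfix x fun τ hτ => hx τ (Finset.mem_coe.2 hτ)) R
    fun τ hτ => (hC τ (Finset.mem_coe.1 hτ)).1
  obtain ⟨Q', rfl⟩ := inc_surj E (F := F) (C : Set (M ≃ₐ[K] M))
    (fun x hx => hfix x fun τ hτ => hx τ (Finset.mem_coe.2 hτ)) R'
    fun τ hτ => (hC τ (Finset.mem_coe.1 hτ)).2
  refine ⟨Q, Q', lnc_nt E hR, lnc_nt E hR', ?_, ?_, ?_, ?_⟩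
  · rw [← neg_one_zsmul] at h1 ⊢
    exact lnc_neg E (lnc_pow hg (2 ^ n)) h1
  · rw [← neg_one_zsmul] at h2 ⊢
    exact lnc_neg E (lnc_pow hg (2 ^ n)) h2
  · have := lnc_neg E (s := 1) he (by rw [one_zsmul]; exact h3)
    rwa [one_zsmul] at this
  · rw [← neg_one_zsmul] at h4 ⊢
    exact lnc_neg E he h4

theorem baseF_of {C : Finset (M ≃ₐ[K] M)} {σ ε : M ≃ₐ[K] M}
    (hfix : ∀ x : M, (∀ τ ∈ C, τ x = x) → ∃ y : F, algebraMap F M y = x) {g e : F ≃ₐ[K] F}
    (hg : ∀ x : F, algebraMap F M (g x) = σ (algebraMap F M x))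
    (he : ∀ x : F, algebraMap F M (e x) = ε (algebraMap F M x))
    (h : BasePts E C σ ε) : BaseF E g e := by
  classical
  intro s t hs ht
  obtain ⟨R, hR, hC, h1, h2⟩ := h s t hs ht
  obtain ⟨Q, rfl⟩ := inc_surj E (F := F) (C : Set (M ≃ₐ[K] M))
    (fun x hx => hfix x fun τ hτ => hx τ (Finset.mem_coe.2 hτ)) R
    fun τ hτ => hC τ (Finset.mem_coe.1 hτ)
  exact ⟨Q, lnc_nt E hR, lnc_neg E hg h1, lnc_neg E he h2⟩

end Pool.Agent.Work.MP_787500_nt.GO
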