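import Mathlib
import Pool.Agent.Work.MP_787500_nt.GO.Basic
import Pool.Agent.Work.MP_787500_nt.GO.LDefs
import Pool.Agent.Work.MP_787500_nt.GO.LnA
import Pool.Agent.Work.MP_787500_nt.GO.LnC
import Pool.Agent.Work.MP_787500_nt.GO.LnD
import Pool.Agent.Work.MP_787500_nt.GO.LgB
import Pool.Agent.Work.MP_787500_nt.GO.LnE

/-!
# Module LnG: the eigenspaces over the layers  [size M]
Induction on `n` (statement for all `g`, `e` with `Restr`). At level `n`: `exists_lay` gives `C`, `σ'`, `ε'` on `M = layM n` (`LayN`), `hP` gives `BasePts` (`n = 1`) or `StepPts E C σ' ε' m` (`n = m + 1`), and `baseF_of`, `stepF_of` (with `F = layF n`, `M = layM n`,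
algebra structure `(IntermediateField.inclusion (layF_le n)).toRingHom.toAlgebra`, `IsScalarTower.of_algebraMap_eq (fun _ => rfl)`, `hfix` from `mem_of_fix`, compatibility from `Restr`) give `BaseF E g e`, `StepF E g e m` over `layF n`.
`n = 1`: `base_eig` (`g ^ 2 ^ 0 = g`). Step `m → m + 1`: `f` = restriction of `ε` to `layF m` (`layF_galois`), `grow` and `grow_mix` with `F = layF m`, `F' = layF (m + 1)` (algebra by inclusion, `layF_mono`), `hgF`: `fix_layF`; `g * e = e * g`: `layF_galois`. `2^m + 2^m = 2^(m+1)`.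
-/

set_option autoImplicit false

namespace Pool.Agent.Work.MP_787500_nt.GO

open WithZero IsDedekindDomain NumberField WeierstrassCurve WeierstrassCurve.Affine
open Pool.Agent.Work.MP_787500_nt.HC

universe u

variable {K : Type u} [Field K] [NumberField K] {q : ℕ} {s : K} {v : HeightOneSpectrum (𝓞 K)}
variable {α : Kˣ} {W W' : ClassGroup (𝓞 K) → AlgebraicClosure K} {i : AlgebraicClosure K}
variable {a b u : ℕ → AlgebraicClosure K}

private theorem layF_fin (n : ℕ) : FiniteDimensional K (layF W W' i b n) := by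
  have h1 : FiniteDimensional K (layM W W' i b n) := layM_finite n
  exact FiniteDimensional.of_injective
    (IntermediateField.inclusion (layF_le n)).toLinearMap
    (IntermediateField.inclusion (layF_le n)).injective

private theorem layF_gal (hC : Ctx K q s v α W W') (hS : ∀ n, Sq4 (W 1) (W' 1) i a b u n) (n : ℕ) :
    (∀ σ τ : layF W W' i b n ≃ₐ[K] layF W W' i b n, σ * τ = τ * σ) ∧
      (∀ σ : AlgebraicClosure K ≃ₐ[K] AlgebraicClosure K,
        ∃ τ : layF W W' i b n ≃ₐ[K] layF W W' i b n, Restr τ σ) := by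
  have h0 : FiniteDimensional K (layF W W' i b n) := layF_fin n
  obtain ⟨-, h2, -, h4, -⟩ := ab_galois (layF W W' i b n)
    ((layF_le n).trans (layM_le_ab hC hS n))
  exact ⟨h2, h4⟩

private theorem mono_coe {m : ℕ} (x : layF W W' i b m) :
    ((IntermediateField.inclusion (layF_mono (Nat.le_succ m)) x : layF W W' i b (m + 1)) :
      AlgebraicClosure K) = x :=
  IntermediateField.coe_inclusion (layF_mono (Nat.le_succ m)) x

private theorem mono_restr {m : ℕ} {ε : AlgebraicClosure K ≃ₐ[K] AlgebraicClosure K}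
    (e : layF W W' i b (m + 1) ≃ₐ[K] layF W W' i b (m + 1))
    (f : layF W W' i b m ≃ₐ[K] layF W W' i b m) (hf : Restr f ε) (he : Restr e ε)
    (x : layF W W' i b m) : IntermediateField.inclusion (layF_mono (Nat.le_succ m)) (f x) =
      e (IntermediateField.inclusion (layF_mono (Nat.le_succ m)) x) := by
  apply Subtype.ext
  rw [he, mono_coe, mono_coe]
  exact hf x

private theorem step_lay (hC : Ctx K q s v α W W') (hS : ∀ n, Sq4 (W 1) (W' 1) i a b u n)
    {E : WeierstrassCurve.Affine K} (hP : PtsAll E v (α : K) W W' i a b u) {N : ℕ}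
    {σ ε : AlgebraicClosure K ≃ₐ[K] AlgebraicClosure K} (hG : Gens W W' i b N σ ε) {m : ℕ}
    (h1 : 1 ≤ m) (hn : m + 1 ≤ N)
    (g e : layF W W' i b (m + 1) ≃ₐ[K] layF W W' i b (m + 1)) (hg : Restr g σ)
    (he : Restr e ε) : StepF E g e m := by
  obtain ⟨C, σ', ε', hσ, hε, L⟩ := exists_lay hC hS (show 1 ≤ m + 1 by omega) hn hG
  letI : Algebra (layF W W' i b (m + 1)) (layM W W' i b (m + 1)) :=
    (IntermediateField.inclusion (layF_le (m + 1))).toRingHom.toAlgebra
  haveI : IsScalarTower K (layF W W' i b (m + 1)) (layM W W' i b (m + 1)) :=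
    IsScalarTower.of_algebraMap_eq (fun _ => rfl)
  refine stepF_of E (C := C) (σ := σ') (ε := ε') ?_ ?_ ?_ (hP.step m h1 C σ' ε' L)
  · intro x hx
    exact ⟨⟨x, mem_of_fix hC hS L x hx⟩, Subtype.ext rfl⟩
  · intro x
    apply Subtype.ext
    rw [hσ]
    exact hg x
  · intro x
    apply Subtype.ext
    rw [hε]
    exact he x

private theorem base_lay' (hC : Ctx K q s v α W W') (hS : ∀ n, Sq4 (W 1) (W' 1) i a b u n)
    {E : WeierstrassCurve.Affine K}
    (hP : PtsAll E v (α : K) W W' i a b u) {N : ℕ} (hN : 1 ≤ N)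
    {σ ε : AlgebraicClosure K ≃ₐ[K] AlgebraicClosure K} (hG : Gens W W' i b N σ ε)
    (g e : layF W W' i b 1 ≃ₐ[K] layF W W' i b 1) (hg : Restr g σ) (he : Restr e ε) :
    BaseF E g e := by
  obtain ⟨C, σ', ε', hσ, hε, L⟩ := exists_lay hC hS le_rfl hN hG
  letI : Algebra (layF W W' i b 1) (layM W W' i b 1) :=
    (IntermediateField.inclusion (layF_le 1)).toRingHom.toAlgebra
  haveI : IsScalarTower K (layF W W' i b 1) (layM W W' i b 1) :=
    IsScalarTower.of_algebraMap_eq (fun _ => rfl)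
  refine baseF_of E (C := C) (σ := σ') (ε := ε') ?_ ?_ ?_ (hP.base C σ' ε' L)
  · intro x hx
    exact ⟨⟨x, mem_of_fix hC hS L x hx⟩, Subtype.ext rfl⟩
  · intro x
    apply Subtype.ext
    rw [hσ]
    exact hg x
  · intro x
    apply Subtype.ext
    rw [hε]
    exact he x

theorem eig_lay (hC : Ctx K q s v α W W') (hS : ∀ n, Sq4 (W 1) (W' 1) i a b u n)
    {E : WeierstrassCurve.Affine K} (hFG : ∀ m, 1 ≤ m → FGE E (layF W W' i b m))
    (hP : PtsAll E v (α : K) W W' i a b u) {N : ℕ}
    {σ ε : AlgebraicClosure K ≃ₐ[K] AlgebraicClosure K} (hG : Gens W W' i b N σ ε) {n : ℕ}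
    (h1 : 1 ≤ n) (hn : n ≤ N) (g e : layF W W' i b n ≃ₐ[K] layF W W' i b n) (hg : Restr g σ)
    (he : Restr e ε) {t : ℤ} (ht : t = 1 ∨ t = -1) :
    2 ^ n ≤ rkEig E e t ∧ 2 ^ n ≤ rkEig E (e * g ^ 2 ^ (n - 1)) t := by
  induction n, h1 using Nat.le_induction with
  | base =>
    obtain ⟨h3, h4, -⟩ := base_eig E (hFG 1 le_rfl) ((layF_gal hC hS 1).1 g e)
      (base_lay' hC hS hP hn hG g e hg he) ht
    refine ⟨h3, ?_⟩
    have h5 : g ^ 2 ^ (1 - 1) = g := pow_one g
    rw [h5]
    exact h4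
  | succ m hm ih =>
    obtain ⟨g', hg'⟩ := (layF_gal hC hS m).2 σ
    obtain ⟨f, hf⟩ := (layF_gal hC hS m).2 ε
    obtain ⟨ih1, -⟩ := ih (by omega) g' f hg' hf
    letI : Algebra (layF W W' i b m) (layF W W' i b (m + 1)) :=
      (IntermediateField.inclusion (layF_mono (Nat.le_succ m))).toRingHom.toAlgebra
    haveI : IsScalarTower K (layF W W' i b m) (layF W W' i b (m + 1)) :=
      IsScalarTower.of_algebraMap_eq (fun _ => rfl)
    have hge : g * e = e * g := (layF_gal hC hS (m + 1)).1 g e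
    have hgF : ∀ x : layF W W' i b m, (g ^ 2 ^ m)
        (algebraMap (layF W W' i b m) (layF W W' i b (m + 1)) x) =
        algebraMap (layF W W' i b m) (layF W W' i b (m + 1)) x := by
      intro x
      show (g ^ 2 ^ m) (IntermediateField.inclusion (layF_mono (Nat.le_succ m)) x) =
        IntermediateField.inclusion (layF_mono (Nat.le_succ m)) x
      rw [fix_layF hC hS hG hg, mono_coe]
      exact x.2
    have hef : ∀ x : layF W W' i b m,
        algebraMap (layF W W' i b m) (layF W W' i b (m + 1)) (f x) =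
        e (algebraMap (layF W W' i b m) (layF W W' i b (m + 1)) x) := by
      exact mono_restr e f hf he
    have hst := step_lay hC hS hP hG hm hn g e hg he
    have h3 := grow E (hFG (m + 1) (by omega)) hge hgF hef hst ht
    have h4 := grow_mix E (hFG (m + 1) (by omega)) hge hgF hef hst ht
    have h5 : 2 ^ (m + 1) = 2 ^ m + 2 ^ m := by ring
    rw [h5, Nat.add_sub_cancel]
    exact ⟨(Nat.add_le_add_right ih1 _).trans h3, (Nat.add_le_add_right ih1 _).trans h4⟩

theorem base_lay (hC : Ctx K q s v α W W') (hS : ∀ n, Sq4 (W 1) (W' 1) i a b u n)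
    {E : WeierstrassCurve.Affine K} (hFG : ∀ m, 1 ≤ m → FGE E (layF W W' i b m))
    (hP : PtsAll E v (α : K) W W' i a b u) {N : ℕ} (hN : 1 ≤ N)
    {σ ε : AlgebraicClosure K ≃ₐ[K] AlgebraicClosure K} (hG : Gens W W' i b N σ ε)
    (g e : layF W W' i b 1 ≃ₐ[K] layF W W' i b 1) (hg : Restr g σ) (he : Restr e ε) :
    BaseF E g e := by
  exact base_lay' hC hS hP hN hG g e hg he

end Pool.Agent.Work.MP_787500_nt.GO
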