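import Mathlib
import Pool.Agent.Work.MP_787500_nt.GO.Basic
import Pool.Agent.Work.MP_787500_nt.GO.LDefs
import Pool.Agent.Work.MP_787500_nt.GO.LnA
import Pool.Agent.Work.MP_787500_nt.GO.LnD
import Pool.Agent.Work.MP_787500_nt.GO.LnG
import Pool.Agent.Work.MP_787500_nt.GO.LgA
import Pool.Agent.Work.MP_787500_nt.GO.LnE
import Pool.Agent.Work.MP_787500_nt.GO.RkA

/-!
# Module LnH: the rank over the layer `0` and over `K`  [size M]
`F = K(i) = layF 0`, `F' = layF 1`. `g`, `e` = restrictions of `σ`, `ε` (`Gens` for `N = 1`, `exists_eps`) to `layF 1`, `BaseF E g e` (`base_lay`).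
`rank_zero`: `rkE E (layF 0) = rkEig E g 1` (`rkE_eq`, `fix_layF` for `m = 0`), `2 ≤ rkEig E g 1`, `2 ≤ rkEig E g (-1)` (`base_eig`), `eig_sum`, and `rkE E (layF 1) ≤ 4`.
`eig_zero`: for `e0` = restriction of `ε` to `layF 0` and `t = ± 1`: the point `R` with `g R = R`, `e R = t R` comes from `Q` over `layF 0` (`inc_surj`, `H = {g}`), `Nt Q`, `e0 Q = t Q` (`inc_mp`, `inc_injective`), so `rkEig E e0 t ≥ 1` (`finrank_ge_pow` with `n = 0` and the map `-1`).
`FGE E (layF 0)`: the points over `layF 0` inject into the points over `layF 1` (subgroup of a finitely generated abelian group). `j`, `h` as in `sub_layF`: `inv_layF` with `m = 0` gives `h = e0`.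
-/

set_option autoImplicit false

namespace Pool.Agent.Work.MP_787500_nt.GO

open WithZero IsDedekindDomain NumberField WeierstrassCurve WeierstrassCurve.Affine
open Pool.Agent.Work.MP_787500_nt.HC

universe u

section abstractFields

variable {K F M : Type*} [Field K] [Field F] [Field M] [Algebra K F] [Algebra K M] [Algebra F M]
variable [IsScalarTower K F M] (E : WeierstrassCurve.Affine K)

private theorem lnh_fg (h : FGE E M) : FGE E F := by
  classical
  have hfin : Module.Finite ℤ (E⁄M).Point := Module.Finite.iff_addGroup_fg.2 h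
  have h2 : Module.Finite ℤ (E⁄F).Point :=
    Module.Finite.of_injective (inc E F M).toIntLinearMap (inc_injective E)
  exact Module.Finite.iff_addGroup_fg.1 h2

private theorem lnh_eig (hFG : FGE E M) {g e : M ≃ₐ[K] M} {e0 : F ≃ₐ[K] F}
    (hfix : ∀ x : M, g x = x → ∃ y : F, algebraMap F M y = x)
    (hc : ∀ x : F, algebraMap F M (e0 x) = e (algebraMap F M x)) (h : BaseF E g e) {t : ℤ}
    (ht : t = 1 ∨ t = -1) : 1 ≤ rkEig E e0 t := by
  classical
  obtain ⟨R, hR, h1, h2⟩ := h 1 t (Or.inl rfl) ht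
  rw [one_smul] at h1
  obtain ⟨Q, hQ⟩ := inc_surj (F := F) E {g} (fun x hx => hfix x (hx g rfl)) R
    (fun τ hτ => by rw [Set.mem_singleton_iff.1 hτ]; exact h1)
  have hfin : Module.Finite ℤ (E⁄F).Point :=
    Module.Finite.iff_addGroup_fg.2 (lnh_fg (F := F) E hFG)
  have hfin2 : Module.Finite ℤ (eig (mp E e0) t) :=
    inferInstanceAs (Module.Finite ℤ (AddSubgroup.toIntSubmodule (eig (mp E e0) t)))
  have hQt : mp E e0 Q = t • Q := by
    apply inc_injective (M := M) E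
    rw [inc_mp E e0 e hc, hQ, h2, map_zsmul, hQ]
  have hQn : Nt Q := Nt.of_map (inc E F M) (by rw [hQ]; exact hR)
  have h3 : 2 ^ 0 ≤ Module.finrank ℤ (eig (mp E e0) t) :=
    finrank_ge_pow 0 (-(AddMonoidHom.id (eig (mp E e0) t))) (fun x => rfl) (P := ⟨Q, hQt⟩)
      (fun m hm h0 => hQn m hm (congrArg Subtype.val h0))
  rw [pow_zero] at h3
  exact h3

end abstractFields

section subfields

variable {K Ω : Type*} [Field K] [Field Ω] [Algebra K Ω] {F₀ F₁ : IntermediateField K Ω}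
variable (E : WeierstrassCurve.Affine K)

private theorem lnh_sub_fg (hle : F₀ ≤ F₁) (h : FGE E F₁) : FGE E F₀ := by
  let _ : Algebra F₀ F₁ := (IntermediateField.inclusion hle).toRingHom.toAlgebra
  have : IsScalarTower K F₀ F₁ := IsScalarTower.of_algebraMap_eq (fun _ => rfl)
  exact lnh_fg (M := F₁) E h

private theorem lnh_sub_rank (hle : F₀ ≤ F₁) {g : F₁ ≃ₐ[K] F₁}
    (hfix : ∀ x : F₁, g x = x ↔ (x : Ω) ∈ F₀) : rkE E F₀ = rkEig E g 1 := by
  let _ : Algebra F₀ F₁ := (IntermediateField.inclusion hle).toRingHom.toAlgebra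
  have : IsScalarTower K F₀ F₁ := IsScalarTower.of_algebraMap_eq (fun _ => rfl)
  refine rkE_eq (F := F₀) (M := F₁) E g fun x => (hfix x).trans ⟨fun hx => ⟨⟨x, hx⟩, rfl⟩, ?_⟩
  rintro ⟨y, rfl⟩
  exact y.2

private theorem lnh_sub_eig (hle : F₀ ≤ F₁) (hFG : FGE E F₁) {g e : F₁ ≃ₐ[K] F₁}
    {e0 : F₀ ≃ₐ[K] F₀} (hfix : ∀ x : F₁, g x = x ↔ (x : Ω) ∈ F₀) {ε : Ω ≃ₐ[K] Ω}
    (he0 : Restr e0 ε) (he : Restr e ε) (h : BaseF E g e) {t : ℤ} (ht : t = 1 ∨ t = -1) :
    1 ≤ rkEig E e0 t := by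
  let _ : Algebra F₀ F₁ := (IntermediateField.inclusion hle).toRingHom.toAlgebra
  have : IsScalarTower K F₀ F₁ := IsScalarTower.of_algebraMap_eq (fun _ => rfl)
  refine lnh_eig (F := F₀) (M := F₁) E hFG (fun x hx => ⟨⟨x, (hfix x).1 hx⟩, rfl⟩) ?_ h ht
  intro x
  apply Subtype.ext
  rw [he]
  exact he0 x

end subfields

variable {K : Type u} [Field K] [NumberField K] {q : ℕ} {s : K} {v : HeightOneSpectrum (𝓞 K)}
variable {α : Kˣ} {W W' : ClassGroup (𝓞 K) → AlgebraicClosure K} {i : AlgebraicClosure K}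
variable {a b u : ℕ → AlgebraicClosure K}

theorem rank_zero (hC : Ctx K q s v α W W') (hS : ∀ n, Sq4 (W 1) (W' 1) i a b u n)
    {E : WeierstrassCurve.Affine K} (hFG : ∀ m, 1 ≤ m → FGE E (layF W W' i b m))
    (hle : rkE E (layF W W' i b 1) ≤ 4) (hP : PtsAll E v (α : K) W W' i a b u) :
    FGE E (layF W W' i b 0) ∧ rkE E (layF W W' i b 0) = 2 := by
  obtain ⟨σ, ε, hG⟩ := exists_eps hC hS 1
  obtain ⟨-, -, hcomm, hres⟩ := layF_galois hC hS 1
  obtain ⟨g, hg⟩ := hres σ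
  obtain ⟨e, he⟩ := hres ε
  have hbase : BaseF E g e := base_lay hC hS hFG hP le_rfl hG g e hg he
  have hfix : ∀ x : layF W W' i b 1, g x = x ↔ (x : AlgebraicClosure K) ∈ layF W W' i b 0 := by
    intro x
    have h1 := fix_layF hC hS hG (m := 0) hg x
    rw [pow_zero, pow_one] at h1
    exact h1
  have hle0 : layF W W' i b 0 ≤ layF W W' i b 1 := layF_mono (Nat.zero_le 1)
  have h1 : rkE E (layF W W' i b 0) = rkEig E g 1 := lnh_sub_rank E hle0 hfix
  have h2 := (base_eig E (hFG 1 le_rfl) (hcomm g e) hbase (Or.inl (rfl : (1 : ℤ) = 1))).2.2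
  have h3 := (base_eig E (hFG 1 le_rfl) (hcomm g e) hbase (Or.inr (rfl : (-1 : ℤ) = -1))).2.2
  have h4 := eig_sum E (hFG 1 le_rfl) g
  refine ⟨lnh_sub_fg E hle0 (hFG 1 le_rfl), ?_⟩
  omega

theorem eig_zero (hC : Ctx K q s v α W W') (hS : ∀ n, Sq4 (W 1) (W' 1) i a b u n)
    {E : WeierstrassCurve.Affine K} (hFG : ∀ m, 1 ≤ m → FGE E (layF W W' i b m))
    (hP : PtsAll E v (α : K) W W' i a b u) {h : layF W W' i b 0 ≃ₐ[K] layF W W' i b 0}
    {j : layF W W' i b 0} (hj : (j : AlgebraicClosure K) = i) (hhj : h j = -j)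
    (hh : ∀ x, h (h x) = x) {t : ℤ} (ht : t = 1 ∨ t = -1) : 1 ≤ rkEig E h t := by
  obtain ⟨σ, ε, hG⟩ := exists_eps hC hS 1
  obtain ⟨-, -, hcomm, hres⟩ := layF_galois hC hS 1
  obtain ⟨g, hg⟩ := hres σ
  obtain ⟨e, he⟩ := hres ε
  obtain ⟨-, -, -, hres0⟩ := layF_galois hC hS 0
  obtain ⟨g0, hg0⟩ := hres0 σ
  obtain ⟨e0, he0⟩ := hres0 ε
  have hbase : BaseF E g e := base_lay hC hS hFG hP le_rfl hG g e hg he
  have hhe : h = e0 := by
    rcases inv_layF hC hS (Nat.zero_le 1) hG hg0 he0 hj hhj hh with h1 | ⟨h1, -⟩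
    · exact h1
    · exact absurd h1 (by norm_num)
  subst hhe
  have hfix : ∀ x : layF W W' i b 1, g x = x ↔ (x : AlgebraicClosure K) ∈ layF W W' i b 0 := by
    intro x
    have h1 := fix_layF hC hS hG (m := 0) hg x
    rw [pow_zero, pow_one] at h1
    exact h1
  exact lnh_sub_eig E (layF_mono (Nat.zero_le 1)) (hFG 1 le_rfl) hfix he0 he hbase ht

end Pool.Agent.Work.MP_787500_nt.GO
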