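import Mathlib
import Pool.Agent.Work.MP_787500_nt.GO.Basic
import Pool.Agent.Work.MP_787500_nt.GO.LDefs
import Pool.Agent.Work.MP_787500_nt.GO.LnA
import Pool.Agent.Work.MP_787500_nt.GO.LnD
import Pool.Agent.Work.MP_787500_nt.GO.LnG
import Pool.Agent.Work.MP_787500_nt.GO.LnH
import Pool.Agent.Work.MP_787500_nt.GO.LgA
import Pool.Agent.Work.MP_787500_nt.GO.LnE
import Pool.Agent.Work.MP_787500_nt.HC.TwD
import Pool.Agent.Work.MP_787500_nt.HC.TwA

/-!
# Module LnI: the rank over all fields in the union of the layers  [size M]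
`exists_le_layF`, `sub_layF`. Take `N = m + 1`, `σ`, `ε` from `exists_eps`, `g`, `e` = restrictions to `layF m` (`layF_galois`).
Case `F = layF m`: `m = 0`: `rank_zero`. `m ≥ 1`: `eig_lay` for `t = 1, -1` and `eig_sum`: `2^m + 2^m ≤ rkE E (layF m) ≤ 2^(m+1)`; `finrank_layF`.
Case `F ≤ layF m`, `2 * finrank K F = 2^(m+1)`, `h`: the fixed field of `h` in `layF m` is contained in `F` and has degree `2^m` (`h ≠ 1`, `h * h = 1`; `IntermediateField.finrank_fixedField_eq_card` or so), so it is `F` (as subfields of `layF m`): `h x = x ↔ x ∈ F`. `rkE E F = rkEig E h 1` (`rkE_eq` with the inclusion `F → layF m`).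
`inv_layF`: `h = e` or `h = e * g ^ 2^(m-1)`, `m ≥ 1`; so for `m ≥ 1` `2^m ≤ rkEig E h t`, `t = 1, -1` (`eig_lay`), for `m = 0` `1 ≤ rkEig E h t` (`eig_zero`); `eig_sum`, upper bound `2^(m+1)` (for `m = 0`: `rank_zero`): `rkEig E h 1 = 2^m = finrank K F`.
`FGE E F`: subgroup of the points over `layF (m + 1)`.
-/

set_option autoImplicit false

namespace Pool.Agent.Work.MP_787500_nt.GO

open WithZero IsDedekindDomain NumberField WeierstrassCurve WeierstrassCurve.Affine
open Pool.Agent.Work.MP_787500_nt.HC

universe u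

variable {K : Type u} [Field K] [NumberField K] {q : ℕ} {s : K} {v : HeightOneSpectrum (𝓞 K)}
variable {α : Kˣ} {W W' : ClassGroup (𝓞 K) → AlgebraicClosure K} {i : AlgebraicClosure K}
variable {a b u : ℕ → AlgebraicClosure K}

omit [NumberField K] in
/-- a subfield of degree two which contains the fixed field of an involution is the fixed field -/
private theorem lni_fix {E F : IntermediateField K (AlgebraicClosure K)}
    [FiniteDimensional K E] [FiniteDimensional K F] {h : E ≃ₐ[K] E}
    (hh : ∀ x, h (h x) = x) (hne : ∃ x, h x ≠ x)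
    (hdeg : 2 * Module.finrank K F = Module.finrank K E)
    (hfix : ∀ x : E, h x = x → (x : AlgebraicClosure K) ∈ F) (x : E)
    (hx : (x : AlgebraicClosure K) ∈ F) : h x = x := by
  have hord : orderOf h = 2 := by
    refine orderOf_eq_prime ?_ ?_
    · rw [pow_two]
      apply AlgEquiv.ext
      intro x
      rw [AlgEquiv.mul_apply, hh, AlgEquiv.one_apply]
    · rintro rfl
      obtain ⟨x, hx⟩ := hne
      exact hx (AlgEquiv.one_apply x)
  have h1 : Module.finrank (IntermediateField.fixedField (Subgroup.zpowers h)) E = 2 := by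
    rw [IntermediateField.finrank_fixedField_eq_card, Nat.card_zpowers, hord]
  have h2 : Module.finrank K (IntermediateField.fixedField (Subgroup.zpowers h)) *
      Module.finrank (IntermediateField.fixedField (Subgroup.zpowers h)) E =
      Module.finrank K E := Module.finrank_mul_finrank _ _ _
  have h7 : Module.finrank K (IntermediateField.lift
      (IntermediateField.fixedField (Subgroup.zpowers h))) =
      Module.finrank K (IntermediateField.fixedField (Subgroup.zpowers h)) :=
    ((IntermediateField.liftAlgEquiv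
      (IntermediateField.fixedField (Subgroup.zpowers h))).toLinearEquiv.finrank_eq).symm
  have hle : IntermediateField.lift (IntermediateField.fixedField (Subgroup.zpowers h)) ≤ F := by
    intro y hy
    have hyE : y ∈ E := IntermediateField.lift_le _ hy
    have h4 := IntermediateField.mem_lift
      (E := IntermediateField.fixedField (Subgroup.zpowers h)) (⟨y, hyE⟩ : E)
    rw [show ((⟨y, hyE⟩ : E)).1 = y from rfl] at h4
    rw [h4, IntermediateField.mem_fixedField_iff] at hy
    exact hfix ⟨y, hyE⟩ (hy h (Subgroup.mem_zpowers h))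
  have heq : IntermediateField.lift (IntermediateField.fixedField (Subgroup.zpowers h)) = F := by
    refine IntermediateField.eq_of_le_of_finrank_eq hle ?_
    rw [h7]
    rw [h1] at h2
    omega
  rw [← heq] at hx
  have h4 := IntermediateField.mem_lift
    (E := IntermediateField.fixedField (Subgroup.zpowers h)) x
  rw [h4, IntermediateField.mem_fixedField_iff] at hx
  exact hx h (Subgroup.mem_zpowers h)

open scoped Classical in
omit [NumberField K] in
private theorem lni_fg {E : WeierstrassCurve.Affine K} {F M : Type*} [Field F] [Field M]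
    [Algebra K F] [Algebra K M] [Algebra F M] [IsScalarTower K F M] (h : FGE E M) : FGE E F := by
  have h1 : AddGroup.FG (E⁄M).Point := h
  have h2 : Module.Finite ℤ (E⁄M).Point := Module.Finite.iff_addGroup_fg.2 h1
  have h3 : Module.Finite ℤ (E⁄F).Point :=
    Module.Finite.of_injective (inc E F M).toIntLinearMap (inc_injective E)
  exact Module.Finite.iff_addGroup_fg.1 h3

theorem rank_sub (hC : Ctx K q s v α W W') (hS : ∀ n, Sq4 (W 1) (W' 1) i a b u n)
    {E : WeierstrassCurve.Affine K}
    (hbd : ∀ m, 1 ≤ m → FGE E (layF W W' i b m) ∧ rkE E (layF W W' i b m) ≤ 2 ^ (m + 1))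
    (hP : PtsAll E v (α : K) W W' i a b u) {F : IntermediateField K (AlgebraicClosure K)}
    (hF : F ≤ ⨆ n, layF W W' i b n) [FiniteDimensional K F] :
    FGE E F ∧ rkE E F = Module.finrank K F := by
  classical
  obtain ⟨n, hn⟩ := exists_le_layF hF
  have hFG : ∀ m, 1 ≤ m → FGE E (layF W W' i b m) := fun m hm => (hbd m hm).1
  have hle1 : rkE E (layF W W' i b 1) ≤ 4 := (hbd 1 le_rfl).2
  have h00 := rank_zero hC hS hFG hle1 hP
  have hall : ∀ m, FGE E (layF W W' i b m) ∧ rkE E (layF W W' i b m) ≤ 2 ^ (m + 1) := by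
    intro m
    rcases m with _ | m
    · exact ⟨h00.1, h00.2.le⟩
    · exact hbd (m + 1) (by omega)
  rcases sub_layF hC hS hn with ⟨m, rfl⟩ | ⟨m, hle, hdeg, h, j, hj, hhj, hh2, hfix⟩
  · refine ⟨(hall m).1, ?_⟩
    rw [finrank_layF hC hS m]
    rcases m with _ | m
    · exact h00.2
    · obtain ⟨σ, ε, hG⟩ := exists_eps hC hS (m + 1)
      obtain ⟨-, -, -, hres⟩ := layF_galois hC hS (m + 1)
      obtain ⟨g, hg⟩ := hres σ
      obtain ⟨e, he⟩ := hres ε
      have a1 := (eig_lay hC hS hFG hP hG (by omega) le_rfl g e hg he (t := 1) (Or.inl rfl)).1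
      have a2 := (eig_lay hC hS hFG hP hG (by omega) le_rfl g e hg he (t := -1) (Or.inr rfl)).1
      have a3 := eig_sum E (hall (m + 1)).1 e
      have a4 := (hall (m + 1)).2
      have a5 := pow_succ 2 (m + 1)
      omega
  · have hfd := layF_finite (W := W) (W' := W') (i := i) (b := b) m
    let _ : Algebra F (layF W W' i b m) := (IntermediateField.inclusion hle).toRingHom.toAlgebra
    have _ : IsScalarTower K F (layF W W' i b m) :=
      IsScalarTower.of_algebraMap_eq (fun _ => rfl)
    refine ⟨lni_fg (hall m).1, ?_⟩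
    have hi : i ^ 2 = -1 := (hS 0).i2
    have hi0 : i ≠ 0 := by
      rintro rfl
      rw [zero_pow two_ne_zero] at hi
      exact one_ne_zero (neg_eq_zero.1 hi.symm)
    have hne : ∃ x, h x ≠ x := by
      refine ⟨j, fun hc => ?_⟩
      have h1 := congrArg Subtype.val (hhj.symm.trans hc)
      have h2 : -(j : AlgebraicClosure K) = j := h1
      rw [hj] at h2
      have h3 : (2 : AlgebraicClosure K) * i = 0 := by linear_combination -h2
      rcases mul_eq_zero.1 h3 with h4 | h4
      · exact two_ne_zero h4
      · exact hi0 h4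
    have hdeg' : 2 * Module.finrank K F = Module.finrank K (layF W W' i b m) := by
      rw [finrank_layF hC hS m, hdeg]
    have hiff : ∀ x : layF W W' i b m, h x = x ↔
        ∃ y : F, algebraMap F (layF W W' i b m) y = x := by
      intro x
      constructor
      · intro hx
        exact ⟨⟨x, hfix x hx⟩, Subtype.ext rfl⟩
      · rintro ⟨y, rfl⟩
        exact lni_fix hh2 hne hdeg' hfix _ y.2
    rw [rkE_eq E h hiff]
    have hfr : Module.finrank K F = 2 ^ m := by
      have := pow_succ 2 m
      omega
    rw [hfr]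
    have a3 := eig_sum E (hall m).1 h
    have a4 := (hall m).2
    rcases m with _ | m
    · have a1 := eig_zero hC hS hFG hP hj hhj hh2 (t := 1) (Or.inl rfl)
      have a2 := eig_zero hC hS hFG hP hj hhj hh2 (t := -1) (Or.inr rfl)
      have a5 : rkE E (layF W W' i b 0) = 2 := h00.2
      rw [pow_zero]
      omega
    · obtain ⟨σ, ε, hG⟩ := exists_eps hC hS (m + 1)
      obtain ⟨-, -, -, hres⟩ := layF_galois hC hS (m + 1)
      obtain ⟨g, hg⟩ := hres σ
      obtain ⟨e, he⟩ := hres ε
      have b1 := eig_lay hC hS hFG hP hG (by omega) le_rfl g e hg he (t := 1) (Or.inl rfl)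
      have b2 := eig_lay hC hS hFG hP hG (by omega) le_rfl g e hg he (t := -1) (Or.inr rfl)
      have a5 := pow_succ 2 (m + 1)
      rcases inv_layF hC hS le_rfl hG hg he hj hhj hh2 with h5 | ⟨-, h5⟩
      · rw [← h5] at b1 b2
        have b3 := b1.1
        have b4 := b2.1
        omega
      · rw [← h5] at b1 b2
        have b3 := b1.2
        have b4 := b2.2
        omega

end Pool.Agent.Work.MP_787500_nt.GO
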