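import Mathlib
import Pool.Agent.Work.MP_787500_nt.GO.Basic
import Pool.Agent.Work.MP_787500_nt.GO.LDefs
import Pool.Agent.Work.MP_787500_nt.RS.Bound

/-!
# Module LnK: good reduction outside 2, upper bound of the rank  [size M]
`good_two`: let `v` be a place with `2 ∉ v`. `e2`, `e3` are roots of `X^2 + a X + b` with integral coefficients, so integral: `v e2 ≤ 1`, `v e3 ≤ 1` (if `1 < v e2` then `v (e2^2) = v (a e2 + b) ≤ max (v e2) 1`), `v (e2 - e3) ≤ 1`.
`e2 * e3 * (e2 - e3)^2 = b (a^2 - 4 b) = ± 2^k` has valuation 1, so all three valuations are 1; `diffVal = 1` is a square, and the three valuations are equal: `v` is not in `multPlaces`, `addPlaces`.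
`bound_cv`: `(cv a b)⁄F = legendre 0 e2 e3` (`ext`, `cv_baseChange`), `e2`, `e3`, `0` distinct (`b (a^2 - 4b) ≠ 0`), `RS.bound`, `condExp 0 e2 e3 = 0`. (Rewrite the curve by the equality, not the points; `rkE`, `FGE` are definitions, use `convert`.)
-/

set_option autoImplicit false

namespace Pool.Agent.Work.MP_787500_nt.GO

open WithZero IsDedekindDomain NumberField WeierstrassCurve WeierstrassCurve.Affine
open Pool.Agent.Work.MP_787500_nt.HC

universe u

private theorem val_int {F : Type u} [Field F] [NumberField F] (v : HeightOneSpectrum (𝓞 F)) (a : ℤ) :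
    v.valuation F (a : F) ≤ 1 := by
  have h := v.valuation_le_one (K := F) (a : 𝓞 F)
  have e : algebraMap (𝓞 F) F (a : 𝓞 F) = (a : F) := map_intCast (algebraMap (𝓞 F) F) a
  rw [← e]
  exact h

private theorem val_root {F : Type u} [Field F] [NumberField F] (v : HeightOneSpectrum (𝓞 F))
    {e : F} {a b : ℤ} (h : e ^ 2 + a * e + b = 0) : v.valuation F e ≤ 1 := by
  by_contra hcon
  rw [not_le] at hcon
  have h1 : e ^ 2 = -(a * e + b) := by linear_combination h
  have h2 : v.valuation F (e ^ 2) ≤ v.valuation F e := by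
    rw [h1, Valuation.map_neg]
    refine (Valuation.map_add _ _ _).trans (max_le ?_ ((val_int v b).trans hcon.le))
    rw [map_mul]
    exact mul_le_of_le_one_left' (val_int v a)
  rw [map_pow, pow_two] at h2
  have h3 : v.valuation F e * 1 < v.valuation F e * v.valuation F e :=
    mul_lt_mul_of_pos_left hcon (zero_lt_one.trans hcon)
  rw [mul_one] at h3
  exact absurd h2 (not_le.2 h3)

private theorem val_two {F : Type u} [Field F] [NumberField F] {e2 e3 : F} {a b : ℤ} {k : ℕ}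
    (h2 : e2 + e3 = -(a : F)) (h3 : e2 * e3 = (b : F))
    (hk : b * (a ^ 2 - 4 * b) = 2 ^ k ∨ b * (a ^ 2 - 4 * b) = -2 ^ k)
    (v : HeightOneSpectrum (𝓞 F)) (hv : (2 : 𝓞 F) ∉ v.asIdeal) :
    v.valuation F e2 = 1 ∧ v.valuation F e3 = 1 ∧ v.valuation F (e2 - e3) = 1 := by
  have hV2 : v.valuation F 2 = 1 := by
    have := (HeightOneSpectrum.valuation_eq_one_iff_notMem v (K := F)).2 hv
    rwa [map_ofNat] at this
  have r2 : e2 ^ 2 + a * e2 + b = 0 := by rw [← h3]; linear_combination e2 * h2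
  have r3 : e3 ^ 2 + a * e3 + b = 0 := by rw [← h3]; linear_combination e3 * h2
  have l2 := val_root v r2
  have l3 := val_root v r3
  have l23 : v.valuation F (e2 - e3) ≤ 1 :=
    (Valuation.map_sub _ _ _).trans (max_le l2 l3)
  have hprod : e2 * e3 * (e2 - e3) ^ 2 = ((b * (a ^ 2 - 4 * b) : ℤ) : F) := by
    push_cast
    rw [← h3]
    have ha : (a : F) = -(e2 + e3) := by rw [h2, neg_neg]
    rw [ha]
    ring
  have hV : v.valuation F (e2 * e3 * (e2 - e3) ^ 2) = 1 := by
    rw [hprod]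
    rcases hk with h | h
    · rw [h]
      push_cast
      rw [map_pow, hV2, one_pow]
    · rw [h]
      push_cast
      rw [Valuation.map_neg, map_pow, hV2, one_pow]
  rw [map_mul, map_mul, map_pow] at hV
  have hp : v.valuation F (e2 - e3) ^ 2 ≤ 1 := pow_le_one' l23 2
  have hq : v.valuation F e2 * v.valuation F e3 ≤ 1 := mul_le_one' l2 l3
  have k1 : v.valuation F e2 * v.valuation F e3 = 1 := by
    apply le_antisymm hq
    calc (1 : ℤᵐ⁰) = v.valuation F e2 * v.valuation F e3 * v.valuation F (e2 - e3) ^ 2 := hV.symm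
      _ ≤ _ := mul_le_of_le_one_right' hp
  have k2 : v.valuation F (e2 - e3) ^ 2 = 1 := by rwa [k1, one_mul] at hV
  refine ⟨?_, ?_, ?_⟩
  · apply le_antisymm l2
    calc (1 : ℤᵐ⁰) = v.valuation F e2 * v.valuation F e3 := k1.symm
      _ ≤ _ := mul_le_of_le_one_right' l3
  · apply le_antisymm l3
    calc (1 : ℤᵐ⁰) = v.valuation F e2 * v.valuation F e3 := k1.symm
      _ ≤ _ := mul_le_of_le_one_left' l2
  · apply le_antisymm l23
    calc (1 : ℤᵐ⁰) = v.valuation F (e2 - e3) * v.valuation F (e2 - e3) := by rw [← pow_two, k2]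
      _ ≤ _ := mul_le_of_le_one_left' l23

theorem good_two {F : Type u} [Field F] [NumberField F] {e2 e3 : F} {a b : ℤ} {k : ℕ}
    (h2 : e2 + e3 = -(a : F)) (h3 : e2 * e3 = (b : F))
    (hk : b * (a ^ 2 - 4 * b) = 2 ^ k ∨ b * (a ^ 2 - 4 * b) = -2 ^ k) :
    multPlaces 0 e2 e3 ∪ addPlaces 0 e2 e3 = ∅ := by
  have key : ∀ v : HeightOneSpectrum (𝓞 F), (2 : 𝓞 F) ∉ v.asIdeal →
      v.valuation F (0 - e2 : F) = 1 ∧ v.valuation F (e2 - e3 : F) = 1 ∧
        v.valuation F (e3 - 0 : F) = 1 := by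
    intro v hv
    obtain ⟨k1, k2, k3⟩ := val_two h2 h3 hk v hv
    exact ⟨by rw [zero_sub, Valuation.map_neg, k1], k3, by rw [sub_zero, k2]⟩
  have m0 : multPlaces (0 : F) e2 e3 = ∅ := by
    ext v
    simp only [multPlaces, Set.mem_ofPred_eq, Set.mem_empty_iff_false, iff_false]
    rintro ⟨hv, -, h⟩
    obtain ⟨k1, k2, k3⟩ := key v hv
    exact h ⟨by rw [k1, k2], by rw [k2, k3]⟩
  have a0 : addPlaces (0 : F) e2 e3 = ∅ := by
    ext v
    simp only [addPlaces, Set.mem_ofPred_eq, Set.mem_empty_iff_false, iff_false]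
    rintro ⟨hv, h⟩
    obtain ⟨k1, k2, k3⟩ := key v hv
    apply h
    rw [diffVal, k1, k2, k3, max_self, max_self]
    exact ⟨1, (mul_one 1).symm⟩
  rw [m0, a0, Set.union_empty]

theorem bound_cv {K F : Type u} [Field K] [NumberField K] [Field F] [NumberField F] [Algebra K F]
    {q : ℕ} {s : K} (hb : IsBase K q s) (hF : InTwoTower K F) {e2 e3 : F} {a b : ℤ} {k : ℕ}
    (h2 : e2 + e3 = -(a : F)) (h3 : e2 * e3 = (b : F))
    (hk : b * (a ^ 2 - 4 * b) = 2 ^ k ∨ b * (a ^ 2 - 4 * b) = -2 ^ k) :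
    FGE (cv (a : K) (b : K)) F ∧ rkE (cv (a : K) (b : K)) F ≤ Module.finrank K F := by
  have hk0 : b * (a ^ 2 - 4 * b) ≠ 0 := by
    rcases hk with h | h
    · rw [h]; positivity
    · rw [h]; exact neg_ne_zero.2 (pow_ne_zero k two_ne_zero)
  have hprod : e2 * e3 * (e2 - e3) ^ 2 ≠ 0 := by
    have hprod : e2 * e3 * (e2 - e3) ^ 2 = ((b * (a ^ 2 - 4 * b) : ℤ) : F) := by
      push_cast
      rw [← h3]
      have ha : (a : F) = -(e2 + e3) := by rw [h2, neg_neg]
      rw [ha]
      ring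
    rw [hprod]
    exact_mod_cast hk0
  have n2 : e2 ≠ 0 := fun h => hprod (by rw [h]; ring)
  have n3 : e3 ≠ 0 := fun h => hprod (by rw [h]; ring)
  have n23 : e2 ≠ e3 := fun h => hprod (by rw [h]; ring)
  have hbd := (RS.bound hb hF (e1 := 0) (e2 := e2) (e3 := e3) n2.symm n23 n3).2
  have hg := good_two h2 h3 hk
  rw [Set.union_empty_iff] at hg
  rw [condExp, hg.1, hg.2, Set.ncard_empty, mul_zero, add_zero, add_zero] at hbd
  have hE : ((cv (a : K) (b : K))⁄F) = legendre 0 e2 e3 := by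
    rw [cv_baseChange]
    ext
    · rfl
    · show algebraMap K F (a : K) = -(0 + e2 + e3)
      rw [map_intCast, zero_add, h2, neg_neg]
    · rfl
    · show algebraMap K F (b : K) = 0 * e2 + e2 * e3 + e3 * 0
      rw [map_intCast, ← h3]
      ring
    · show (0 : F) = -(0 * e2 * e3)
      ring
  obtain ⟨f1, f2, -⟩ := hbd
  constructor
  · rw [FGE, hE]
    convert f1
  · rw [rkE, hE]
    convert f2

end Pool.Agent.Work.MP_787500_nt.GO
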