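import Mathlib
import Pool.Agent.Work.MP_787500_nt.GO.Basic
import Pool.Agent.Work.MP_787500_nt.GO.LDefs
import Pool.Agent.Work.MP_787500_nt.GO.LnK
import Pool.Agent.Work.MP_787500_nt.HC.LyA
import Pool.Agent.Work.MP_787500_nt.HC.LyN
import Pool.Agent.Work.MP_787500_nt.HC.LyO
import Pool.Agent.Work.MP_787500_nt.HC.LyF

/-!
# Module LnJ: `√2` and `i` in the layers, upper bounds  [size M]
`exists_two`: `t = r + r⁻¹`, `r = b 1/(W 1 W' 1)`, `r ^ 2 = -i`, so `t ^ 2 = -i + 2 + i = 2`; in `layM m` (`mem_b`, `mem_W`, `mem_W'`). `mem_layF`: let `τ ^ h = 1` on `layM m`, then `τ i = i` (as in `i_mem_layF`), `(τ r)^2 = r^2`, `τ r = ± r`, and if `τ r = -r` then `τ ^ h r = -r` (`h` odd), a contradiction (`r ≠ 0`); so `τ t = t`.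
`bound_A`: `layF m` is a number field (`layF_numberField`), in the tower (`layF_tower`), of degree `2^(m+1)` (`finrank_layF`); `bound_cv` with `(a, b) = (0, -2)`, `e2 = t`, `e3 = -t`; `bound_B`: `(4, 2)`, `-2 ± t`; `bound_D`: `(-4, 8)`, `2 ± 2 i` (`i_mem_layF`). (`cv (((0 : ℤ)) : K) ..` and `cv 0 (-2)` by `push_cast`/`norm_num`.)
-/

set_option autoImplicit false

namespace Pool.Agent.Work.MP_787500_nt.GO

open WithZero IsDedekindDomain NumberField WeierstrassCurve WeierstrassCurve.Affine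
open Pool.Agent.Work.MP_787500_nt.HC

universe u

variable {K : Type u} [Field K] [NumberField K] {q : ℕ} {s : K} {v : HeightOneSpectrum (𝓞 K)}
variable {α : Kˣ} {W W' : ClassGroup (𝓞 K) → AlgebraicClosure K} {i : AlgebraicClosure K}
variable {a b u : ℕ → AlgebraicClosure K}

theorem exists_two (hC : Ctx K q s v α W W') (hS : ∀ n, Sq4 (W 1) (W' 1) i a b u n) {m : ℕ}
    (hm : 1 ≤ m) : ∃ t : layF W W' i b m, t ^ 2 = 2 := by
  obtain ⟨r, hr⟩ : ∃ r : AlgebraicClosure K, r = b 1 / (W 1 * W' 1) := ⟨_, rfl⟩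
  have hi := (hS 0).i2
  have hi0 : i ≠ 0 := by
    intro h0
    rw [h0] at hi
    exact one_ne_zero (α := AlgebraicClosure K) (by linear_combination hi)
  have hr2 : r ^ 2 = -i := by
    rw [hr, div_pow, (hS 1).bs 0 (by norm_num), (hS 1).a0, (hS 1).b0,
      div_eq_iff (pow_ne_zero 2 (mul_ne_zero (hC.data.ne 1) (hC.data.ne' 1)))]
    ring
  have hr0 : r ≠ 0 := by
    intro h0
    rw [h0, zero_pow two_ne_zero] at hr2
    exact hi0 (neg_eq_zero.1 hr2.symm)
  have hrM : r ∈ layM W W' i b m := by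
    rw [hr]
    exact div_mem (mem_b hm) (mul_mem (mem_W m 1) (mem_W' m 1))
  have ht2 : (r + r⁻¹) ^ 2 = 2 := by
    have h1 : (r⁻¹) ^ 2 = i := by
      rw [inv_pow, hr2]
      exact inv_eq_of_mul_eq_one_right (by linear_combination -hi)
    have h2 : r * r⁻¹ = 1 := mul_inv_cancel₀ hr0
    linear_combination hr2 + h1 + 2 * h2
  have hmem : r + r⁻¹ ∈ layF W W' i b m := by
    rw [mem_layF]
    refine ⟨add_mem hrM (inv_mem hrM), fun τ hτ => ?_⟩
    have hτi : τ i = i := (mem_layF.1 (i_mem_layF (b := b) hC hi m)).2 τ hτ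
    have h1 : (τ r) ^ 2 = r ^ 2 := by rw [← map_pow, hr2, map_neg, hτi]
    have h2 : τ r = r := by
      rcases sq_eq_sq_iff_eq_or_eq_neg.1 h1 with h2 | h2
      · exact h2
      · exfalso
        have h3 : ∀ k : ℕ, (τ ^ k) r = (-1) ^ k * r := by
          intro k
          induction k with
          | zero => simp
          | succ k ih =>
            rw [pow_succ, AlgEquiv.mul_apply, h2, map_neg, ih, pow_succ]
            ring
        have h4 := hτ r hrM
        rw [h3, (odd_hK hC.base).neg_one_pow] at h4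
        have h5 : (2 : AlgebraicClosure K) * r = 0 := by linear_combination -h4
        exact hr0 ((mul_eq_zero.1 h5).resolve_left two_ne_zero)
    rw [map_add, map_inv₀, h2]
  exact ⟨⟨r + r⁻¹, hmem⟩, Subtype.ext ht2⟩

theorem bound_A (hC : Ctx K q s v α W W') (hS : ∀ n, Sq4 (W 1) (W' 1) i a b u n) {m : ℕ}
    (hm : 1 ≤ m) : FGE (cv (0 : K) (-2)) (layF W W' i b m) ∧
      rkE (cv (0 : K) (-2)) (layF W W' i b m) ≤ 2 ^ (m + 1) := by
  have := layF_numberField hC hS m
  obtain ⟨t, ht⟩ := exists_two hC hS hm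
  have key := bound_cv (K := K) (F := layF W W' i b m) hC.base (layF_tower hC hS m)
    (e2 := t) (e3 := -t) (a := 0) (b := -2) (k := 4) (by push_cast; ring)
    (by push_cast; linear_combination -ht) (Or.inr (by norm_num))
  rw [finrank_layF hC hS m] at key
  push_cast at key
  exact key

theorem bound_B (hC : Ctx K q s v α W W') (hS : ∀ n, Sq4 (W 1) (W' 1) i a b u n) {m : ℕ}
    (hm : 1 ≤ m) : FGE (cv (4 : K) 2) (layF W W' i b m) ∧
      rkE (cv (4 : K) 2) (layF W W' i b m) ≤ 2 ^ (m + 1) := by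
  have := layF_numberField hC hS m
  obtain ⟨t, ht⟩ := exists_two hC hS hm
  have key := bound_cv (K := K) (F := layF W W' i b m) hC.base (layF_tower hC hS m)
    (e2 := -2 + t) (e3 := -2 - t) (a := 4) (b := 2) (k := 4) (by push_cast; ring)
    (by push_cast; linear_combination -ht) (Or.inl (by norm_num))
  rw [finrank_layF hC hS m] at key
  push_cast at key
  exact key

theorem bound_D (hC : Ctx K q s v α W W') (hS : ∀ n, Sq4 (W 1) (W' 1) i a b u n) {m : ℕ}
    (hm : 1 ≤ m) : FGE (cv (-4 : K) 8) (layF W W' i b m) ∧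
      rkE (cv (-4 : K) 8) (layF W W' i b m) ≤ 2 ^ (m + 1) := by
  have := layF_numberField hC hS m
  have _ := hm
  have hiF := i_mem_layF (b := b) hC (hS 0).i2 m
  obtain ⟨j, hj⟩ : ∃ j : layF W W' i b m, j ^ 2 = -1 := ⟨⟨i, hiF⟩, Subtype.ext (hS 0).i2⟩
  have key := bound_cv (K := K) (F := layF W W' i b m) hC.base (layF_tower hC hS m)
    (e2 := 2 + 2 * j) (e3 := 2 - 2 * j) (a := -4) (b := 8) (k := 7) (by push_cast; ring)
    (by push_cast; linear_combination -4 * hj) (Or.inr (by norm_num))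
  rw [finrank_layF hC hS m] at key
  push_cast at key
  exact key

end Pool.Agent.Work.MP_787500_nt.GO
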