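import Mathlib
import Pool.Agent.Work.MP_787500_nt.GO.Basic
import Pool.Agent.Work.MP_787500_nt.RS.Isom

/-!
# Module JaA: the endomorphism `[i]` of `y ^ 2 = x ^ 3 + b x`  [size M]

As the private theorem `exists_J` in `RS/RankStep.lean`: `RS.exists_isom` with `(e1,e2,e3) = (0, e, -e)`, `(f1,f2,f3) = (0, -e, e)`, scaling `-i`, `r = 0`; `φ (x, y) = (-x, i y)`. `φ` is injective (`φ (φ P) = -P`), so it preserves points of infinite order.
`f (φ P) = φ (f P)` if `f i = i`; `f (φ P) = (-f x, -i f y) = -φ (f P)` if `f i = -i` (`(x, -y) = -(x, y)`).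
-/

set_option autoImplicit false

namespace Pool.Agent.Work.MP_787500_nt.GO

open WithZero IsDedekindDomain NumberField WeierstrassCurve WeierstrassCurve.Affine
open Pool.Agent.Work.MP_787500_nt.HC

universe u

variable {K M : Type*} [Field K] [CharZero K] [Field M] [Algebra K M]

theorem hasJ_i {c : K} (hc : c ≠ 0) {i e : M} (hi : i ^ 2 = -1) (he : e ^ 2 = -algebraMap K M c) :
    HasJ (cv 0 c) i := by
  classical
  have : CharZero M := charZero_of_injective_algebraMap (algebraMap K M).injective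
  have hc' : algebraMap K M c ≠ 0 := (map_ne_zero _).2 hc
  have he0 : e ≠ 0 := by
    rintro rfl
    apply hc'
    linear_combination he
  have hee : e ≠ -e := by
    intro h
    apply he0
    have h2 : (2 : M) * e = 0 := by linear_combination h
    exact (mul_eq_zero.1 h2).resolve_left two_ne_zero
  have hF : TwoTors ((cv 0 c : WeierstrassCurve.Affine K)⁄M) 0 e (-e) :=
    cv_twoTors' (by rw [map_zero]; ring) (by linear_combination -he) hc hee
  have hF' : TwoTors ((cv 0 c : WeierstrassCurve.Affine K)⁄M) 0 (-e) e :=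
    cv_twoTors' (by rw [map_zero]; ring) (by linear_combination -he) hc hee.symm
  have hi3 : (-i) ^ 3 = i := by linear_combination (-i) * hi
  have hi2 : (-i) ^ 2 = -1 := by linear_combination hi
  have hi0 : -i ≠ 0 := by
    intro h0
    rw [h0] at hi2
    norm_num at hi2
  obtain ⟨φ, hφ⟩ := RS.exists_isom (u := -i) (r := 0) hF hF' hi0 (by ring)
    (by rw [hi2]; ring) (by rw [hi2]; ring)
  have hφ' : ∀ (x y : M) (hn : ((cv 0 c : WeierstrassCurve.Affine K)⁄M).Nonsingular x y),
      ∃ hn' : ((cv 0 c : WeierstrassCurve.Affine K)⁄M).Nonsingular (-x) (i * y),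
      φ (Point.some x y hn) = Point.some _ _ hn' := by
    intro x y hn
    obtain ⟨hn', h1⟩ := hφ x y hn
    have e1 : (-i) ^ 2 * x + 0 = -x := by rw [hi2]; ring
    have e2 : (-i) ^ 3 * y = i * y := by rw [hi3]
    refine ⟨by rw [← e1, ← e2]; exact hn', ?_⟩
    rw [h1]
    simp only [Point.some.injEq]
    exact ⟨e1, e2⟩
  have hneg : ∀ (x y : M) (hn : ((cv 0 c : WeierstrassCurve.Affine K)⁄M).Nonsingular x y),
      ∃ hn' : ((cv 0 c : WeierstrassCurve.Affine K)⁄M).Nonsingular x (-y),
      -(Point.some x y hn) = Point.some _ _ hn' := by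
    intro x y hn
    refine ⟨by rw [← hF.negY_eq x y]; exact (nonsingular_neg ..).2 hn, ?_⟩
    rw [Point.neg_some]
    simp only [Point.some.injEq, true_and]
    exact hF.negY_eq x y
  have hbn : ∀ (f : M ≃ₐ[K] M) {x y : M},
      ((cv 0 c : WeierstrassCurve.Affine K)⁄M).Nonsingular x y →
      ((cv 0 c : WeierstrassCurve.Affine K)⁄M).Nonsingular (f x) (f y) := by
    intro f x y hn
    exact ((cv 0 c : WeierstrassCurve.Affine K).baseChange_nonsingular
      (f := (f : M →ₐ[K] M)) f.injective x y).mpr hn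
  have hJJ : ∀ P, φ (φ P) = -P := by
    intro P
    rcases P with _ | ⟨x, y, hn⟩
    · change φ (φ 0) = -0
      rw [map_zero, map_zero, neg_zero]
    · obtain ⟨h1, e1⟩ := hφ' x y hn
      obtain ⟨h2, e2⟩ := hφ' _ _ h1
      obtain ⟨h3, e3⟩ := hneg x y hn
      rw [e1, e2, e3]
      simp only [Point.some.injEq]
      exact ⟨by ring, by linear_combination y * hi⟩
  refine ⟨φ, ?_, ?_, ?_⟩
  · intro P hP
    refine hP.map φ ?_
    intro Q Q' hQ
    have h1 := congrArg φ hQ
    rw [hJJ, hJJ] at h1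
    exact neg_injective h1
  · intro f hf P
    rcases P with _ | ⟨x, y, hn⟩
    · change mp _ f (φ 0) = φ (mp _ f 0)
      rw [map_zero, map_zero, map_zero]
    · obtain ⟨h1, e1⟩ := hφ' x y hn
      rw [e1, mp, Point.map_some, Point.map_some]
      obtain ⟨h2, e2⟩ := hφ' (f x) (f y) (hbn f hn)
      refine Eq.trans ?_ e2.symm
      simp only [Point.some.injEq]
      exact ⟨map_neg f x, (map_mul f i y).trans (by rw [hf])⟩
  · intro f hf P
    rcases P with _ | ⟨x, y, hn⟩
    · change mp _ f (φ 0) = -(φ (mp _ f 0))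
      rw [map_zero, map_zero, map_zero, neg_zero]
    · obtain ⟨h1, e1⟩ := hφ' x y hn
      rw [e1, mp, Point.map_some, Point.map_some]
      obtain ⟨h2, e2⟩ := hφ' (f x) (f y) (hbn f hn)
      obtain ⟨h3, e3⟩ := hneg _ _ h2
      refine Eq.trans ?_ ((congrArg (fun Q => -Q) e2).trans e3).symm
      simp only [Point.some.injEq]
      exact ⟨map_neg f x, (map_mul f i y).trans (by rw [hf]; ring)⟩

end Pool.Agent.Work.MP_787500_nt.GO
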