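import Mathlib
import Pool.Agent.Work.MP_787500_nt.GO.Basic
import Pool.Agent.Work.MP_787500_nt.RS.Isom
import Pool.Agent.Work.MP_787500_nt.RS.Isog

/-!
# Module JaB: the endomorphism of degree two of `y ^ 2 = x ^ 3 + 4 x ^ 2 + 2 x`  [size M]

Over `M ∋ i, √2`: `TwoTors (0, -2+√2, -2-√2)` (`cv_twoTors'`). `RS.exists_isog` with `(e1, e2, e3) = (0, -2+√2, -2-√2)`, `(f1, f2, f3) = (0, -2-√2, -2+√2)`, `d = √2` (`d^2 = e2 e3 = 2`), `u = 1/(i √2)`, `u^2 = -1/2`: `f2 - f1 = u^2 (4 + 2 √2)` ok, `f3 - f1 = u^2 (4 - 2 √2)` ok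
(`2 e1 - e2 - e3 = 4`). `J = φ`, `J (x, y) = (u^2 y^2/x^2, u^3 y (2 - x^2)/x^2)` for `x ≠ 0`, `J (0, 0) = 0`. Its kernel is `{0, (0,0)}`: if `J P = 0`, `P = (x, y)`, then `x = 0`, so `P + P = 0`; if `m • J P = 0` then `J (m P) = 0`, `2 m P = 0`.
If `f κ = κ`, `κ = i √2`, then `f u = u` and `f (J P) = J (f P)`; if `f κ = -κ` then `f u = -u` and the second coordinate changes sign: `f (J P) = -J (f P)` (`P = 0`, `(0,0)`: both sides 0).
-/

set_option autoImplicit false

namespace Pool.Agent.Work.MP_787500_nt.GO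

open WithZero IsDedekindDomain NumberField WeierstrassCurve WeierstrassCurve.Affine
open Pool.Agent.Work.MP_787500_nt.HC

universe u

variable {K M : Type*} [Field K] [CharZero K] [Field M] [Algebra K M]

/-- a point with first coordinate `e1` is the torsion point -/
private theorem jab_tor {L : Type*} [Field L] [CharZero L] {W : WeierstrassCurve.Affine L}
    {e1 e2 e3 : L} (h : TwoTors W e1 e2 e3) {x y : L} (hn : W.Nonsingular x y) (hx : x = e1) :
    (Point.some x y hn : W.Point) = tor h := by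
  subst hx
  have heq := h.eq_of_nonsingular hn
  have hy : y = 0 := by
    have h1 : y ^ 2 = 0 := by rw [heq]; ring
    exact pow_eq_zero_iff (two_ne_zero) |>.1 h1
  subst hy
  rfl

theorem hasJ_two {i r : M} (hi : i ^ 2 = -1) (hr : r ^ 2 = 2) : HasJ (cv (4 : K) 2) (i * r) := by
  classical
  have : CharZero M := charZero_of_injective_algebraMap (algebraMap K M).injective
  have hκ : (i * r) ^ 2 = -2 := by
    rw [mul_pow, hi, hr]
    ring
  have hr0 : r ≠ 0 := by
    rintro rfl
    norm_num at hr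
  have hκ0 : i * r ≠ 0 := by
    intro h0
    rw [h0] at hκ
    norm_num at hκ
  have h4 : algebraMap K M 4 = 4 := map_ofNat _ 4
  have h2 : algebraMap K M 2 = 2 := map_ofNat _ 2
  have hu2 : (1 / (i * r)) ^ 2 = -1 / 2 := by
    rw [div_pow, hκ]
    norm_num
  have T1 : TwoTors ((cv (4 : K) 2)⁄M) 0 (-2 + r) (-2 - r) := by
    refine cv_twoTors' (by rw [h4]; ring) (by rw [h2]; linear_combination -hr) two_ne_zero ?_
    intro h
    apply hr0
    have h5 : 2 * r = 0 := by linear_combination h
    exact (mul_eq_zero.1 h5).resolve_left two_ne_zero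
  have T2 : TwoTors ((cv (4 : K) 2)⁄M) 0 (-2 - r) (-2 + r) := by
    refine cv_twoTors' (by rw [h4]; ring) (by rw [h2]; linear_combination -hr) two_ne_zero ?_
    intro h
    apply hr0
    have h5 : 2 * r = 0 := by linear_combination -h
    exact (mul_eq_zero.1 h5).resolve_left two_ne_zero
  have D : RS.IsogData (0 : M) (-2 + r) (-2 - r) 0 (-2 - r) (-2 + r) r (1 / (i * r)) := by
    refine ⟨by linear_combination 2 * hr, div_ne_zero one_ne_zero hκ0, ?_, ?_⟩
    · rw [hu2]
      ring
    · rw [hu2]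
      ring
  obtain ⟨φ, h0, hφ⟩ := RS.exists_isog T1 T2 D
  -- the kernel
  have hker : ∀ P, φ P = 0 → P + P = 0 := by
    intro P hP
    rcases P with _ | ⟨x, y, hn⟩
    · rw [← Point.zero_def, add_zero]
    · by_cases hx : x = 0
      · rw [jab_tor T1 hn hx]
        exact tor_add_tor T1
      · obtain ⟨hn', he⟩ := hφ x y hn hx
        rw [he] at hP
        exact absurd hP (Point.some_ne_zero hn')
  have hmz : ∀ f : M ≃ₐ[K] M, mp (cv (4 : K) 2) f (tor T1) = tor T1 := by
    intro f
    obtain ⟨hn', he⟩ := mp_some (cv (4 : K) 2) f (T1.nonsingular_of_eq (x := 0) (y := 0) (by ring))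
    have h5 : mp (cv (4 : K) 2) f (tor T1) = Point.some (f 0) (f 0) hn' := he
    rw [h5]
    exact jab_tor T1 hn' (map_zero f)
  refine ⟨φ, ?_, ?_, ?_⟩
  · intro P hP m hm hmP
    rw [← map_nsmul] at hmP
    have h5 := hker _ hmP
    rw [← two_nsmul, smul_smul] at h5
    exact hP (2 * m) (Nat.mul_ne_zero two_ne_zero hm) h5
  · intro f hf P
    rcases P with _ | ⟨x, y, hn⟩
    · rw [← Point.zero_def, map_zero, map_zero, map_zero]
    · by_cases hx : x = 0
      · rw [jab_tor T1 hn hx, h0, map_zero, hmz, h0]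
      · obtain ⟨hn1, he1⟩ := hφ x y hn hx
        obtain ⟨hn2, he2⟩ := mp_some (cv (4 : K) 2) f hn1
        obtain ⟨hn3, he3⟩ := mp_some (cv (4 : K) 2) f hn
        have hfx : f x ≠ 0 := (map_ne_zero f).2 hx
        obtain ⟨hn4, he4⟩ := hφ (f x) (f y) hn3 hfx
        rw [he1, he2, he3, he4, Point.some.injEq]
        have hf2 : f (i * r) = i * r := hf
        constructor
        · rw [RS.isogX, RS.isogX, map_add, map_div₀, map_mul, map_pow, map_pow, map_pow, map_sub,
            map_div₀, map_one, map_zero, hf2]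
        · have e1 : (0 - (-2 + r)) * (0 - (-2 - r)) = (2 : M) := by linear_combination -hr
          rw [RS.isogY, RS.isogY, e1, map_div₀, map_mul, map_mul, map_pow, map_pow, map_sub,
            map_pow, map_sub, map_div₀, map_one, map_zero, hf2, map_ofNat]
  · intro f hf P
    rcases P with _ | ⟨x, y, hn⟩
    · rw [← Point.zero_def, map_zero, map_zero, map_zero, neg_zero]
    · by_cases hx : x = 0
      · rw [jab_tor T1 hn hx, h0, map_zero, hmz, h0, neg_zero]
      · obtain ⟨hn1, he1⟩ := hφ x y hn hx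
        obtain ⟨hn2, he2⟩ := mp_some (cv (4 : K) 2) f hn1
        obtain ⟨hn3, he3⟩ := mp_some (cv (4 : K) 2) f hn
        have hfx : f x ≠ 0 := (map_ne_zero f).2 hx
        obtain ⟨hn4, he4⟩ := hφ (f x) (f y) hn3 hfx
        rw [he1, he2, he3, he4, Point.neg_some, Point.some.injEq, T1.negY_eq]
        constructor
        · rw [RS.isogX, RS.isogX, map_add, map_div₀, map_mul, map_pow, map_pow, map_pow, map_sub,
            map_div₀, map_one, map_zero, hf, div_neg, neg_sq]
        · have e1 : (0 - (-2 + r)) * (0 - (-2 - r)) = (2 : M) := by linear_combination -hr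
          rw [RS.isogY, RS.isogY, e1, map_div₀, map_mul, map_mul, map_pow, map_pow, map_sub,
            map_pow, map_sub, map_div₀, map_one, map_zero, hf, map_ofNat, div_neg, Odd.neg_pow
            (by decide : Odd 3)]
          ring

end Pool.Agent.Work.MP_787500_nt.GO
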