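import Mathlib
import Pool.Agent.Work.MP_787500_nt.GO.Basic

/-!
# Module ChD: identities in a chain  [size M]

`ne1`: `c1` and `z k ≠ 0`. `quart`: `u k ^4 = u (k+1)^2 (1 + z^2)^2 = (1 - z^2)(1 + z^2)`. `ne2`: `c3` and `u (k+1) ≠ 0`: `(1 - z)(1 + z) ≠ 0`.
`id1`: `u (k+2) (1 + z (k+1)^2) = u (k+1)^2`, `(1 + z (k+1)^2)(1 + z k ^2) = (1 + z k)^2`, `u (k+1)(1 + z k ^2) = u k ^2`.
`id2`: `(z (k+1) u k)^2 = z (k+1)^2 u (k+1) (1 + z k ^2)`. `id3`: `om^2 u k ^2 = z (k+2)^2 (1 + z k)^2 u (k+1)^2`; `z (k+2)^2 (1 + z (k+1)^2) = 2 z (k+1)`,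
use `id1`. `idS`: `u^4 + z^4 = 1` at the index `k+1`.
`sq_zz`: `z k z (k+1)` is a square: `2 u (k+1) z k` and `2 u (k+1) z (k+1)` are squares (`id2`, `id3`).
`sq_uz`: `2 u (k+1) (z k)` square. `sq_one_add`: `(1 + z (k+1)^2) z (k+1)`: `1 + z (k+1)^2 = u (k+1)^2 / u (k+2)` and `2 u (k+2) z (k+1)` is a square; with `2` a square.
`one_sub`: `1 - z (k+1)^2 = (1 - z k)^2/(1 + z k ^2)`.
-/

set_option autoImplicit false

namespace Pool.Agent.Work.MP_787500_nt.GO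

open WithZero IsDedekindDomain NumberField WeierstrassCurve WeierstrassCurve.Affine
open Pool.Agent.Work.MP_787500_nt.HC

universe u

variable {F : Type*} [Field F] [CharZero F] {z u : ℕ → F} {n : ℕ}

theorem Chn.ne1 (H : Chn z u n) {k : ℕ} (hk : k < n) : 1 + z k ^ 2 ≠ 0 := by
  intro h
  have h1 := H.c1 k hk
  rw [h, mul_zero] at h1
  have h2 : (2 : F) * z k ≠ 0 := mul_ne_zero two_ne_zero (H.zne k hk.le)
  exact h2 h1.symm

theorem Chn.quart (H : Chn z u n) {k : ℕ} (hk : k < n) : u k ^ 4 + z k ^ 4 = 1 := by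
  have h2 := H.c2 k hk
  have h3 := H.c3 k hk
  linear_combination (-(u k ^ 2) - u (k + 1) * (1 + z k ^ 2)) * h2 + (1 + z k ^ 2) * h3

theorem Chn.ne2 (H : Chn z u n) {k : ℕ} (hk : k < n) : 1 + z k ≠ 0 ∧ 1 - z k ≠ 0 := by
  have h3 := H.c3 k hk
  have h4 : u (k + 1) ^ 2 * (1 + z k ^ 2) ≠ 0 :=
    mul_ne_zero (pow_ne_zero 2 (H.une (k + 1) hk)) (H.ne1 hk)
  rw [h3] at h4
  constructor
  · intro h
    apply h4
    linear_combination (1 - z k) * h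
  · intro h
    apply h4
    linear_combination (1 + z k) * h

private theorem Chn.prod1 (H : Chn z u n) {k : ℕ} (hk : k < n) :
    (1 + z (k + 1) ^ 2) * (1 + z k ^ 2) = (1 + z k) ^ 2 := by
  have h1 := H.c1 k hk
  linear_combination h1

theorem Chn.one_sub (H : Chn z u n) {k : ℕ} (hk : k < n) :
    (1 - z (k + 1) ^ 2) * (1 + z k ^ 2) = (1 - z k) ^ 2 := by
  have h1 := H.c1 k hk
  linear_combination -h1

theorem Chn.id1 (H : Chn z u n) {k : ℕ} (hk : k + 2 ≤ n) :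
    (1 + z k) ^ 2 * u (k + 2) = u k ^ 2 * u (k + 1) := by
  have h1 := H.prod1 (k := k) (by omega)
  have h2 := H.c2 k (by omega)
  have h3 := H.c2 (k + 1) (by omega)
  linear_combination -u (k + 2) * h1 + (1 + z k ^ 2) * h3 + u (k + 1) * h2

theorem Chn.id2 (H : Chn z u n) {k : ℕ} (hk : k < n) :
    2 * u (k + 1) * z k = (z (k + 1) * u k) ^ 2 := by
  have h1 := H.c1 k hk
  have h2 := H.c2 k hk
  linear_combination -u (k + 1) * h1 + z (k + 1) ^ 2 * h2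

theorem Chn.id3 (H : Chn z u n) {k : ℕ} (hk : k + 2 ≤ n) :
    om z u k ^ 2 = 2 * u (k + 1) * z (k + 1) := by
  have hu := H.une k (by omega)
  have hu2 := H.une (k + 2) (by omega)
  have h1 := H.id1 hk
  have h2 := H.id2 (k := k + 1) (by omega)
  have h3 : om z u k ^ 2 * u k ^ 2 = z (k + 2) ^ 2 * (1 + z k) ^ 2 * u (k + 1) ^ 2 := by
    rw [om]
    field_simp
  have h4 : u k ^ 2 ≠ 0 := pow_ne_zero 2 hu
  apply mul_right_cancel₀ h4
  rw [h3]
  have h5 : (z (k + 2) ^ 2 * (1 + z k) ^ 2 * u (k + 1) ^ 2) =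
      2 * u (k + 1) * z (k + 1) * u k ^ 2 := by
    have e : k + 1 + 1 = k + 2 := rfl
    rw [e] at h2
    linear_combination -(1 + z k) ^ 2 * h2 + 2 * z (k + 1) * h1
  exact h5

theorem Chn.idS (H : Chn z u n) {k : ℕ} (hk : k + 2 ≤ n) :
    (1 + u (k + 1) ^ 2 + z (k + 1) ^ 2) ^ 2 =
      2 * (1 + u (k + 1) ^ 2 + z (k + 1) ^ 2) + 2 * (u (k + 1) * z (k + 1)) ^ 2 := by
  have h := H.quart (k := k + 1) (by omega)
  linear_combination h

theorem Chn.sq_zz (H : Chn z u n) {k : ℕ} (hk : k + 2 ≤ n) : IsSquare (z k * z (k + 1)) := by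
  have h1 := H.id2 (k := k) (by omega)
  have h2 := H.id3 hk
  have hu := H.une (k + 1) (by omega)
  refine ⟨z (k + 1) * u k * om z u k / (2 * u (k + 1)), ?_⟩
  have h3 : (2 * u (k + 1)) ≠ 0 := mul_ne_zero two_ne_zero hu
  rw [div_mul_div_comm, eq_div_iff (mul_ne_zero h3 h3)]
  linear_combination 2 * u (k + 1) * z (k + 1) * h1 - (z (k + 1) * u k) ^ 2 * h2

theorem Chn.sq_one_add (H : Chn z u n) (h2 : IsSquare (2 : F)) {k : ℕ} (hk : k + 2 ≤ n) :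
    IsSquare ((1 + z (k + 1) ^ 2) * z (k + 1)) := by
  obtain ⟨t, ht⟩ := h2
  have hu := H.une (k + 2) (by omega)
  have h1 := H.id2 (k := k + 1) (by omega)
  have h3 := H.c2 (k + 1) (by omega)
  have e : k + 1 + 1 = k + 2 := rfl
  rw [e] at h1 h3
  have ht0 : t ≠ 0 := by
    rintro rfl
    rw [mul_zero] at ht
    exact two_ne_zero ht
  refine ⟨u (k + 1) * (z (k + 2) * u (k + 1)) / (t * u (k + 2)), ?_⟩
  have h5 : t * u (k + 2) ≠ 0 := mul_ne_zero ht0 hu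
  rw [div_mul_div_comm, eq_div_iff (mul_ne_zero h5 h5)]
  linear_combination -(1 + z (k + 1) ^ 2) * z (k + 1) * u (k + 2) ^ 2 * ht +
    2 * z (k + 1) * u (k + 2) * h3 + u (k + 1) ^ 2 * h1

end Pool.Agent.Work.MP_787500_nt.GO
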