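import Mathlib
import Pool.Agent.Work.MP_787500_nt.GO.Basic
import Pool.Agent.Work.MP_787500_nt.GO.ChD

/-!
# Module PtA: points on `cv 0 (-2)`, `cv (4 t) 2`, `cv 0 (-8)`  [size S-M]

`S = 1 + u^2 + z^2`, `m = u z` (index `k+1`), `om^2 = 2 m` (`Chn.id3`), `S^2 = 2 S + 2 m^2` (`Chn.idS`). `x = S/m`.
`x^3 - 2x = S (S^2 - 2 m^2)/m^3 = 2 S^2/m^3`. `x^3 + 4 t x^2 + 2 x = S (S^2 + 4 t S m + 2 m^2)/m^3`, `(u + t z)^2 = u^2 + z^2 + 2 t m = S - 1 + 2 t m`.
`x = 2/m`: `(u^2 - z^2)^2 = u^4 + z^4 - 2 m^2 = 1 - 2 m^2` (`Chn.quart`). Write everything over `m^3` (`field_simp`), `linear_combination`.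
-/

set_option autoImplicit false

namespace Pool.Agent.Work.MP_787500_nt.GO

open WithZero IsDedekindDomain NumberField WeierstrassCurve WeierstrassCurve.Affine
open Pool.Agent.Work.MP_787500_nt.HC

universe u

variable {F : Type*} [Field F] [CharZero F] {z u : ℕ → F} {n : ℕ}

private theorem pta_gen {F : Type*} [Field F] {S m o a b c : F} (hm : m ≠ 0)
    (hc : (S * o * c / m ^ 2) ^ 2 * m ^ 3 = 2 * S ^ 2 * c ^ 2)
    (h : 2 * S * c ^ 2 = S ^ 2 + a * S * m + b * m ^ 2) :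
    (S * o * c / m ^ 2) ^ 2 = (S / m) ^ 3 + a * (S / m) ^ 2 + b * (S / m) := by
  apply mul_right_cancel₀ (pow_ne_zero 3 hm)
  rw [hc]
  field_simp
  linear_combination S * h

private theorem pta_sq {F : Type*} [Field F] {S m o c : F} (hm : m ≠ 0) (ho : o ^ 2 = 2 * m) :
    (S * o * c / m ^ 2) ^ 2 * m ^ 3 = 2 * S ^ 2 * c ^ 2 := by
  rw [div_pow, mul_pow, mul_pow, ho]
  field_simp

theorem eqA (H : Chn z u n) {k : ℕ} (hk : k + 2 ≤ n) :
    yA z u k ^ 2 = xA z u k ^ 3 - 2 * xA z u k := by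
  have hz := H.zne (k + 1) (by omega)
  have hu := H.une (k + 1) (by omega)
  have hm : u (k + 1) * z (k + 1) ≠ 0 := mul_ne_zero hu hz
  have ho : om z u k ^ 2 = 2 * (u (k + 1) * z (k + 1)) := by rw [H.id3 hk, mul_assoc]
  have hS := H.idS hk
  have h := pta_gen (S := 1 + u (k + 1) ^ 2 + z (k + 1) ^ 2) (a := 0) (b := -2) (c := 1) hm
    (pta_sq hm ho) (by linear_combination -hS)
  rw [mul_one] at h
  rw [yA, xA, h]
  ring

theorem eqB (H : Chn z u n) {k : ℕ} (hk : k + 2 ≤ n) {t : F} (ht : t ^ 2 = 1) :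
    yB z u t k ^ 2 = xA z u k ^ 3 + 4 * t * xA z u k ^ 2 + 2 * xA z u k := by
  have hz := H.zne (k + 1) (by omega)
  have hu := H.une (k + 1) (by omega)
  have hm : u (k + 1) * z (k + 1) ≠ 0 := mul_ne_zero hu hz
  have ho : om z u k ^ 2 = 2 * (u (k + 1) * z (k + 1)) := by rw [H.id3 hk, mul_assoc]
  have hS := H.idS hk
  have h := pta_gen (S := 1 + u (k + 1) ^ 2 + z (k + 1) ^ 2) (a := 4 * t) (b := 2)
    (c := u (k + 1) + t * z (k + 1)) hm (pta_sq hm ho)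
    (by linear_combination hS +
      2 * (1 + u (k + 1) ^ 2 + z (k + 1) ^ 2) * z (k + 1) ^ 2 * ht)
  rw [yB, xA, h]

theorem eqC (H : Chn z u n) {k : ℕ} (hk : k + 2 ≤ n) :
    yC z u k ^ 2 = xC z u k ^ 3 - 8 * xC z u k := by
  have hz := H.zne (k + 1) (by omega)
  have hu := H.une (k + 1) (by omega)
  have hm : u (k + 1) * z (k + 1) ≠ 0 := mul_ne_zero hu hz
  have ho : om z u k ^ 2 = 2 * (u (k + 1) * z (k + 1)) := by rw [H.id3 hk, mul_assoc]
  have hq := H.quart (show k + 1 < n by omega)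
  have h1 : yC z u k ^ 2 * (u (k + 1) * z (k + 1)) ^ 3 =
      8 * (u (k + 1) ^ 2 - z (k + 1) ^ 2) ^ 2 := by
    rw [yC, div_pow, mul_pow, ho]
    field_simp
    ring
  apply mul_right_cancel₀ (pow_ne_zero 3 hm)
  rw [h1, xC]
  field_simp
  linear_combination 8 * hq

end Pool.Agent.Work.MP_787500_nt.GO
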