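import Mathlib
import Pool.Agent.Work.MP_787500_nt.GO.Basic

/-!
# Module StA: from one point to the two points of a step, in the presence of `J`  [size S-M]

`R' := R + ε R`, `R'' := R - ε R`; both are fixed by `C`, negated by `τ = σ^(2^n)` (`mp_comm L.comm`), `ε R' = R'`, `ε R'' = -R''` (`L.eps2`). If `R'` has infinite order: take `R'` and `J R'`: `J` commutes with `g ∈ C` (`g κ = κ`), with `τ` (`τ κ = κ`), and
`ε (J R') = -J (ε R') = -J R'`. Otherwise `R''` has infinite order: `m R' = 0`, `m R'' = 2 m R`, so if also `m'' R'' = 0` then `2 m m'' R = 0`. Take `J R''` (`ε (J R'') = -J (ε R'') = J R''`) and `R''`.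
-/

set_option autoImplicit false

namespace Pool.Agent.Work.MP_787500_nt.GO

open WithZero IsDedekindDomain NumberField WeierstrassCurve WeierstrassCurve.Affine
open Pool.Agent.Work.MP_787500_nt.HC

universe u

variable {K M A : Type*} [Field K] [CharZero K] [Field M] [CharZero M] [Algebra K M]
variable [CommGroup A] {p : A} {h : ℕ} {α : K} {W W' : A → M} {i : M} {a b u : ℕ → M}
variable {n : ℕ} {C : Finset (M ≃ₐ[K] M)} {σ ε : M ≃ₐ[K] M}

open scoped Classical in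
private theorem eps_eps (L : Lay K p h α W W' i a b u n C σ ε) (E : WeierstrassCurve.Affine K)
    (R : (E⁄M).Point) : mp E ε (mp E ε R) = R := by
  rw [← mp_mul, L.eps2, mp_one]

open scoped Classical in
private theorem plus_facts (L : Lay K p h α W W' i a b u n C σ ε) (E : WeierstrassCurve.Affine K)
    {m : ℕ} {R : (E⁄M).Point} (h1 : ∀ g ∈ C, mp E g R = R) (h2 : mp E (σ ^ 2 ^ m) R = -R) :
    (∀ g ∈ C, mp E g (R + mp E ε R) = R + mp E ε R) ∧
      mp E (σ ^ 2 ^ m) (R + mp E ε R) = -(R + mp E ε R) ∧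
      mp E ε (R + mp E ε R) = R + mp E ε R := by
  refine ⟨fun g hg => ?_, ?_, ?_⟩
  · rw [map_add, mp_comm L.comm E g ε, h1 g hg]
  · rw [map_add, mp_comm L.comm E (σ ^ 2 ^ m) ε, h2, map_neg, neg_add]
  · rw [map_add, eps_eps L E, add_comm]

open scoped Classical in
private theorem minus_facts (L : Lay K p h α W W' i a b u n C σ ε) (E : WeierstrassCurve.Affine K)
    {m : ℕ} {R : (E⁄M).Point} (h1 : ∀ g ∈ C, mp E g R = R) (h2 : mp E (σ ^ 2 ^ m) R = -R) :
    (∀ g ∈ C, mp E g (R - mp E ε R) = R - mp E ε R) ∧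
      mp E (σ ^ 2 ^ m) (R - mp E ε R) = -(R - mp E ε R) ∧
      mp E ε (R - mp E ε R) = -(R - mp E ε R) := by
  refine ⟨fun g hg => ?_, ?_, ?_⟩
  · rw [map_sub, mp_comm L.comm E g ε, h1 g hg]
  · rw [map_sub, mp_comm L.comm E (σ ^ 2 ^ m) ε, h2, map_neg, neg_sub', sub_eq_add_neg]
  · rw [map_sub, eps_eps L E, neg_sub]

open scoped Classical in
theorem stepPts_of_J (L : Lay K p h α W W' i a b u n C σ ε) (E : WeierstrassCurve.Affine K)
    {κ : M} (hJ : HasJ E κ) {m : ℕ} (hC : ∀ g ∈ C, g κ = κ) (hτ : (σ ^ 2 ^ m) κ = κ)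
    (hε : ε κ = -κ) {R : (E⁄M).Point} (hR : Nt R) (h1 : ∀ g ∈ C, mp E g R = R)
    (h2 : mp E (σ ^ 2 ^ m) R = -R) : StepPts E C σ ε m := by
  obtain ⟨J, hJ1, hJ2, hJ3⟩ := hJ
  obtain ⟨p1, p2, p3⟩ := plus_facts L E h1 h2
  obtain ⟨m1, m2, m3⟩ := minus_facts L E h1 h2
  by_cases hp : Nt (R + mp E ε R)
  · refine ⟨R + mp E ε R, J (R + mp E ε R), hp, hJ1 _ hp, fun g hg => ⟨p1 g hg, ?_⟩, p2, ?_, p3, ?_⟩
    · rw [hJ2 g (hC g hg), p1 g hg]
    · rw [hJ2 _ hτ, p2, map_neg]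
    · rw [hJ3 _ hε, p3]
  · have hm : Nt (R - mp E ε R) := by
      unfold Nt at hp
      push Not at hp
      obtain ⟨k, hk, hk0⟩ := hp
      intro l hl hl0
      refine hR (2 * (k * l)) (by positivity) ?_
      have e1 : (k * l) • (R + mp E ε R) = 0 := by
        rw [mul_comm, mul_smul, hk0, smul_zero]
      have e2 : (k * l) • (R - mp E ε R) = 0 := by
        rw [mul_smul, hl0, smul_zero]
      calc (2 * (k * l)) • R = (k * l) • (R + mp E ε R) + (k * l) • (R - mp E ε R) := by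
            rw [← smul_add, add_add_sub_cancel, ← two_nsmul, smul_smul, mul_comm 2 (k * l)]
        _ = 0 := by rw [e1, e2, add_zero]
    refine ⟨J (R - mp E ε R), R - mp E ε R, hJ1 _ hm, hm, fun g hg => ⟨?_, m1 g hg⟩, ?_, m2, ?_, m3⟩
    · rw [hJ2 g (hC g hg), m1 g hg]
    · rw [hJ2 _ hτ, m2, map_neg]
    · rw [hJ3 _ hε, m3, map_neg, neg_neg]

open scoped Classical in
theorem stepPts_of_eps (L : Lay K p h α W W' i a b u n C σ ε) (E : WeierstrassCurve.Affine K)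
    {m : ℕ} {R : (E⁄M).Point} (h1 : ∀ g ∈ C, mp E g R = R) (h2 : mp E (σ ^ 2 ^ m) R = -R)
    (h3 : Nt (R + mp E ε R)) (h4 : Nt (R - mp E ε R)) : StepPts E C σ ε m := by
  obtain ⟨p1, p2, p3⟩ := plus_facts L E h1 h2
  obtain ⟨m1, m2, m3⟩ := minus_facts L E h1 h2
  exact ⟨R + mp E ε R, R - mp E ε R, h3, h4, fun g hg => ⟨p1 g hg, m1 g hg⟩, p2, m2, p3, m3⟩

end Pool.Agent.Work.MP_787500_nt.GO
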