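import Mathlib
import Pool.Agent.Work.MP_787500_nt.GO.Basic

/-!
# Module ChB: the chain of the arithmetic-geometric mean  [size S-M]

Cases `k = 0` and `k + 1`. Nonvanishing: `sq4_ne`, `H.ne`, `H.ne'`, `1 + W c ^ 2 ≠ 0` (rec1).
`k = 0`: `Z 1 = b 1 / a 0`, `Z 1 ^ 2 = b 0 / a 0 = -i W'^2/W^2` (`bs`), `W'^4 = 1 - W^4`, so `1 + Z 0 ^ 2 = 2 W^2/(1 + W^2)` (`i^2 = -1`),
`1 - Z 0 ^ 2 = 2/(1 + W^2)`, `U 0 ^ 2 = - W (p c) ^ 2`, `W (p c)^2 (1 + W^2) = 2 W` (rec1), `U 1 = u 0 = -1/W`.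
`k + 1`: `Z (k+2) ^ 2 = b (k+1) / a (k+1)`, `Z (k+1) ^ 2 = b k / a k`, `1 + Z (k+1)^2 = 2 a (k+1)/ a k`, `u (k+1) = u k ^2 a k/(2 a (k+1))`,
`u k ^ 4 a k ^ 2 = a k ^ 2 - b k ^ 2` (`sq4_ne`).
-/

set_option autoImplicit false

namespace Pool.Agent.Work.MP_787500_nt.GO

open WithZero IsDedekindDomain NumberField WeierstrassCurve WeierstrassCurve.Affine
open Pool.Agent.Work.MP_787500_nt.HC

universe u

variable {K A F : Type*} [Field K] [CommGroup A] [Field F] [CharZero F] [Algebra K F]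
variable {p : A} {h : ℕ} {α : K} {W W' : A → F}

private theorem chb_zero {F : Type*} [Field F] [CharZero F] {w w' i : F} {a b u : ℕ → F} {n : ℕ}
    (hw1 : 1 + w ^ 2 ≠ 0) (hS : Sq4 w w' i a b u n) :
    1 + (-i * w' ^ 2 / (1 + w ^ 2)) ^ 2 = 2 * w ^ 2 / (1 + w ^ 2) := by
  have h4 := hS.four
  have hi := hS.i2
  rw [div_pow, eq_div_iff hw1, add_mul, div_mul_eq_mul_div, one_mul, ← eq_sub_iff_add_eq',
    div_eq_iff (pow_ne_zero 2 hw1)]
  linear_combination w' ^ 4 * (1 + w ^ 2) * hi - (1 + w ^ 2) * h4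

private theorem chb_succ {F : Type*} [Field F] [CharZero F] {w w' i : F} {a b u : ℕ → F} {n k : ℕ}
    (hk : k < n) (hS : Sq4 w w' i a b u n) :
    (b (k + 1) / a k) ^ 2 = b k / a k ∧ 1 + (b (k + 1) / a k) ^ 2 = 2 * a (k + 1) / a k := by
  have ha := (sq4_ne hS hk.le).1
  have h1 : (b (k + 1) / a k) ^ 2 = b k / a k := by
    rw [div_pow, hS.bs k hk]
    field_simp
  refine ⟨h1, ?_⟩
  rw [h1, hS.as k hk]
  field_simp

theorem chn_agm (H : Wdata K F p h α W W') {c : A} {i : F} {a b u : ℕ → F} {n : ℕ}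
    (hS : Sq4 (W c) (W' c) i a b u n) :
    Chn (Zs (W c) (W' c) i a b) (Us i (W (p * c)) u) n := by
  have h20 : (2 : F) ≠ 0 := two_ne_zero
  have hw := hS.w0
  have hw' := hS.w0'
  have hi := hS.i2
  have hi0 : i ≠ 0 := by
    rintro rfl
    rw [zero_pow two_ne_zero] at hi
    exact one_ne_zero (neg_eq_zero.1 hi.symm)
  have hr := H.rec1 c
  have hw1 : 1 + W c ^ 2 ≠ 0 := by
    intro h0
    rw [h0, mul_zero] at hr
    exact mul_ne_zero h20 hw hr.symm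
  have hz := chb_zero hw1 hS
  refine ⟨?_, ?_, ?_, ?_, ?_⟩
  · rintro (_ | k) hk
    · exact div_ne_zero (mul_ne_zero (neg_ne_zero.2 hi0) (pow_ne_zero _ hw')) hw1
    · exact div_ne_zero (sq4_ne hS hk).2.1 (sq4_ne hS (Nat.le_of_succ_le hk)).1
  · rintro (_ | k) hk
    · exact mul_ne_zero hi0 (H.ne _)
    · exact (sq4_ne hS (Nat.le_of_succ_le hk)).2.2.2.2.1
  · rintro (_ | k) hk
    · show (b (0 + 1) / a 0) ^ 2 * (1 + (-i * W' c ^ 2 / (1 + W c ^ 2)) ^ 2) =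
        2 * (-i * W' c ^ 2 / (1 + W c ^ 2))
      rw [hz, (chb_succ hk hS).1, hS.a0, hS.b0]
      field_simp
    · show (b (k + 1 + 1) / a (k + 1)) ^ 2 * (1 + (b (k + 1) / a k) ^ 2) = 2 * (b (k + 1) / a k)
      have ha := (sq4_ne hS (Nat.le_of_succ_le hk.le)).1
      have ha1 := (sq4_ne hS hk.le).1
      rw [(chb_succ hk hS).1, (chb_succ (Nat.lt_of_succ_lt hk) hS).2]
      field_simp
  · rintro (_ | k) hk
    · show u 0 * (1 + (-i * W' c ^ 2 / (1 + W c ^ 2)) ^ 2) = (i * W (p * c)) ^ 2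
      rw [hz, hS.u0]
      have e1 : W (p * c) ^ 2 = 2 * W c / (1 + W c ^ 2) := by
        rw [eq_div_iff hw1, hr]
      rw [mul_pow, e1, hi]
      field_simp
    · show u (k + 1) * (1 + (b (k + 1) / a k) ^ 2) = u k ^ 2
      have ha := (sq4_ne hS (Nat.le_of_succ_le hk.le)).1
      have ha1 := (sq4_ne hS hk.le).1
      rw [(chb_succ (Nat.lt_of_succ_lt hk) hS).2, hS.us k (Nat.lt_of_succ_lt hk)]
      field_simp
  · rintro (_ | k) hk
    · show u 0 ^ 2 * (1 + (-i * W' c ^ 2 / (1 + W c ^ 2)) ^ 2) =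
        1 - (-i * W' c ^ 2 / (1 + W c ^ 2)) ^ 2
      have e1 : (-i * W' c ^ 2 / (1 + W c ^ 2)) ^ 2 = 2 * W c ^ 2 / (1 + W c ^ 2) - 1 := by
        rw [← hz]; ring
      rw [e1, hS.u0]
      field_simp
      ring
    · show u (k + 1) ^ 2 * (1 + (b (k + 1) / a k) ^ 2) = 1 - (b (k + 1) / a k) ^ 2
      obtain ⟨ha, -, -, -, -, hu⟩ := sq4_ne hS (Nat.le_of_succ_le hk.le)
      have ha1 := (sq4_ne hS hk.le).1
      have has := hS.as k (Nat.lt_of_succ_lt hk)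
      have has' : b k = 2 * a (k + 1) - a k := by rw [has]; field_simp; ring
      rw [(chb_succ (Nat.lt_of_succ_lt hk) hS).2, (chb_succ (Nat.lt_of_succ_lt hk) hS).1,
        hS.us k (Nat.lt_of_succ_lt hk)]
      field_simp
      rw [has'] at hu ⊢
      linear_combination hu

end Pool.Agent.Work.MP_787500_nt.GO
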