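import Mathlib
import Pool.Agent.Work.MP_787500_nt.GO.Basic
import Pool.Agent.Work.MP_787500_nt.RS.Iso

/-!
# Module VaA: near zero the parameter is additive up to small elements  [size M]

Copy of `HC/PtA.lean` with `(0, 1, -1)`, `p = 4` replaced by `(0, e2, e3)`, `p = 2`. `small_two`: `V (2^2 * e2) = V 4 * V e2 < V 4`.
`tpar_sub2`: `RS.sub_mem` gives `InG`. Let `τ = t P - t Q`, `V τ ≤ V 2` (`RS.val_tpar_le`), `P = (x1, y1)`, `Q = (x2, y2)`, `P - Q = (x3, y3)`, `a = -(e2+e3)`, `b = e2 e3`,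
`q_i = x_i^2 + a x_i + b`, `y_i^2 = x_i q_i`, `V x_i ≥ V 4 ^(-1) > 1`. As in `HC/PtA.lean`: `x3 (x1 x2 (x1-x2)^2) = (x1 y2 + x2 y1)^2`,
`(x1 y2 - x2 y1)(x1 y2 + x2 y1) = x1 x2 (x1 - x2)(b - x1 x2)`, so `x3 τ^2 q1 q2 = (x1 x2 - b)^2` (also for `Q = -P`, duplication formula).
`(x1 x2 - b)^2 - q1 q2 = -a x1 x2 (x1+x2) - b (x1+x2)^2 - a^2 x1 x2 - a b (x1+x2)`, of valuation `< V (q1 q2) = V x1^2 V x2^2`. So `V (x3 τ^2 - 1) < 1`, and
`x3 t3^2 - 1 = x3^2/q3 - 1` has `V < 1`. So `V (t3^2 - τ^2) < 1/V x3 ≤ V 2^2`, and `V (2 τ) ≤ V 4 < V 2` gives `V (t3 - τ) < V 2` (otherwise `V (t3 + τ) = V (t3 - τ) ≥ V 2`).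
-/

set_option autoImplicit false

namespace Pool.Agent.Work.MP_787500_nt.GO

open WithZero IsDedekindDomain NumberField WeierstrassCurve WeierstrassCurve.Affine
open Pool.Agent.Work.MP_787500_nt.HC

universe u

variable {F : Type*} [Field F] [CharZero F] [DecidableEq F] {V : Valuation F ℤᵐ⁰}
variable {W : WeierstrassCurve.Affine F} {e2 e3 : F}

omit [DecidableEq F] [CharZero F] in
private theorem four_eq : V (4 : F) = V 2 * V 2 := by
  rw [← map_mul]
  norm_num

omit [DecidableEq F] in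
private theorem two_ne : V (2 : F) ≠ 0 := (Valuation.ne_zero_iff V).2 (by norm_num)

omit [DecidableEq F] in
private theorem four_ne : V (4 : F) ≠ 0 := (Valuation.ne_zero_iff V).2 (by norm_num)

private theorem div_lt {a b : ℤᵐ⁰} (h : a < b) : a / b < 1 :=
  (div_lt_one₀ (zero_le.trans_lt h)).2 h

omit [DecidableEq F] [CharZero F] in
private theorem four_lt (h2 : V 2 < 1) : V (4 : F) < 1 := by
  rw [four_eq]
  exact mul_lt_one' h2 h2

omit [DecidableEq F] in
theorem small_two (h2 : V 2 < 1) (v2 : V e2 < 1) (v3 : V e3 < 1) : RS.Small V 0 e2 e3 (2 : F) := by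
  have key : ∀ e : F, V e < 1 → V ((2 : F) ^ 2 * (e - 0)) < V 4 := by
    intro e he
    have h : (2 : F) ^ 2 * (e - 0) = 4 * e := by
      rw [sub_zero]
      norm_num
    rw [h, map_mul]
    calc V (4 : F) * V e < V 4 * 1 := mul_lt_mul_of_pos_left he (zero_lt_iff.2 four_ne)
      _ = V 4 := mul_one _
  exact ⟨h2, by norm_num, key e2 v2, key e3 v3⟩

omit [DecidableEq F] in
private theorem near_of_sq (h2 : V 2 < 1) {t τ : F} (hτ : V τ ≤ V 2)
    (h : V (t ^ 2 - τ ^ 2) < V 2 ^ 2) : V (t - τ) < V 2 := by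
  by_contra hc
  rw [not_lt] at hc
  have h20 : V (2 : F) ≠ 0 := two_ne
  have h1 : V (2 * τ) < V (t - τ) := by
    refine lt_of_lt_of_le ?_ hc
    rw [map_mul]
    calc V 2 * V τ ≤ V 2 * V 2 := mul_le_mul_right hτ _
      _ < 1 * V 2 := mul_lt_mul_of_pos_right h2 (zero_lt_iff.2 h20)
      _ = V 2 := one_mul _
  have h3 : V (t + τ) = V (t - τ) := by
    have e : t + τ = (t - τ) + 2 * τ := by ring
    rw [e]
    exact Valuation.map_add_eq_of_lt_left V h1
  have e : t ^ 2 - τ ^ 2 = (t - τ) * (t + τ) := by ring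
  rw [e, map_mul, h3] at h
  refine absurd h (not_lt.2 ?_)
  rw [pow_two]
  exact mul_le_mul' hc hc

omit [DecidableEq F] [CharZero F] in
private theorem one_lt_of (h2 : V 2 < 1) {x : F} (hG : 1 ≤ V (4 * x)) : 1 < V x := by
  by_contra hc
  rw [not_lt] at hc
  rw [map_mul] at hG
  have h1 : V 4 * V x < 1 :=
    (mul_le_mul_right hc _).trans_lt (by
      rw [mul_one]
      exact four_lt h2)
  exact absurd hG (not_le.2 h1)

omit [DecidableEq F] [CharZero F] in
private theorem val_q (v2 : V e2 < 1) (v3 : V e3 < 1) {x : F} (hx : 1 < V x) :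
    V ((x - e2) * (x - e3)) = V x ^ 2 := by
  rw [map_mul, Valuation.map_sub_eq_of_lt_left V (v2.trans hx),
    Valuation.map_sub_eq_of_lt_left V (v3.trans hx), pow_two]

omit [DecidableEq F] [CharZero F] in
private theorem ne_zero_of {x : F} (hx : 1 < V x) : x ≠ 0 := by
  rintro rfl
  rw [map_zero] at hx
  exact absurd hx (not_lt.2 zero_le_one)

omit [DecidableEq F] [CharZero F] in
private theorem ne_zero_q (v2 : V e2 < 1) (v3 : V e3 < 1) {x : F} (hx : 1 < V x) :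
    (x - e2) * (x - e3) ≠ 0 := by
  intro h
  have h1 := val_q v2 v3 hx
  rw [h, map_zero] at h1
  exact pow_ne_zero 2 ((Valuation.ne_zero_iff V).2 (ne_zero_of hx)) h1.symm

omit [DecidableEq F] in
private theorem tpar_sq (h : TwoTors W 0 e2 e3) (h2 : V 2 < 1) (v2 : V e2 < 1) (v3 : V e3 < 1)
    {x y : F} (hn : W.Nonsingular x y) (hG : 1 ≤ V (4 * x)) :
    V (x * (x / y) ^ 2 - 1) < 1 := by
  have hx1 := one_lt_of h2 hG
  have hx0 := ne_zero_of hx1
  have E := h.eq_of_nonsingular hn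
  rw [sub_zero] at E
  have hs := ne_zero_q v2 v3 hx1
  have hy2 : y ^ 2 ≠ 0 := by
    rw [E, mul_assoc]
    exact mul_ne_zero hx0 hs
  have e : x * (x / y) ^ 2 - 1 = ((e2 + e3) * x - e2 * e3) / ((x - e2) * (x - e3)) := by
    rw [eq_div_iff hs, div_pow, sub_mul, one_mul]
    have e1 : x * (x ^ 2 / y ^ 2) * ((x - e2) * (x - e3)) = x ^ 2 := by
      have e2' : x * (x ^ 2 / y ^ 2) * ((x - e2) * (x - e3)) =
          x ^ 2 * (x * (x - e2) * (x - e3)) / y ^ 2 := by ring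
      rw [e2', ← E, mul_div_assoc, div_self hy2, mul_one]
    rw [e1]
    ring
  rw [e, map_div₀, val_q v2 v3 hx1]
  refine div_lt ?_
  have hpow : V x < V x ^ 2 := by
    calc V x = V x * 1 := (mul_one _).symm
      _ < V x * V x := mul_lt_mul_of_pos_left hx1 (zero_lt_one.trans hx1)
      _ = V x ^ 2 := (pow_two _).symm
  refine (Valuation.map_sub V _ _).trans_lt (max_lt ?_ ?_)
  · rw [map_mul]
    have h3 : V (e2 + e3) ≤ 1 := (V.map_add _ _).trans (max_le v2.le v3.le)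
    calc V (e2 + e3) * V x ≤ 1 * V x := mul_le_mul' h3 le_rfl
      _ = V x := one_mul _
      _ < V x ^ 2 := hpow
  · rw [map_mul]
    exact (mul_lt_one' v2 v3).trans (hx1.trans hpow)

omit [DecidableEq F] in
/-- the parameter is close to `τ` -/
private theorem tpar_near (h : TwoTors W 0 e2 e3) (h2 : V 2 < 1) (v2 : V e2 < 1) (v3 : V e3 < 1)
    {x y τ : F} (hn : W.Nonsingular x y) (hG : 1 ≤ V (4 * x)) (hτ : V τ ≤ V 2)
    (h1 : V (x * τ ^ 2 - 1) < 1) : V (x / y - τ) < V 2 := by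
  have h3 := tpar_sq h h2 v2 v3 hn hG
  refine near_of_sq h2 hτ ?_
  have h5 : V (x * ((x / y) ^ 2 - τ ^ 2)) < 1 := by
    have e : x * ((x / y) ^ 2 - τ ^ 2) = (x * (x / y) ^ 2 - 1) - (x * τ ^ 2 - 1) := by ring
    rw [e]
    exact (Valuation.map_sub V _ _).trans_lt (max_lt h3 h1)
  rw [map_mul] at h5
  have h6 : 1 ≤ V x * V 2 ^ 2 := by
    rw [mul_comm, ← map_pow, ← map_mul]
    have e : (2 : F) ^ 2 * x = 4 * x := by norm_num
    rw [e]
    exact hG
  exact lt_of_mul_lt_mul_left' (h5.trans_le h6)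

omit [DecidableEq F] [CharZero F] in
private theorem key_near (v2 : V e2 < 1) (v3 : V e3 < 1) {x1 x2 x3 τ : F} (hx1 : 1 < V x1)
    (hx2 : 1 < V x2)
    (h1 : x3 * τ ^ 2 * (((x1 - e2) * (x1 - e3)) * ((x2 - e2) * (x2 - e3))) =
      (x1 * x2 - e2 * e3) ^ 2) :
    V (x3 * τ ^ 2 - 1) < 1 := by
  have hs1 := ne_zero_q v2 v3 hx1
  have hs2 := ne_zero_q v2 v3 hx2
  have e : x3 * τ ^ 2 - 1 = ((e2 + e3) * ((x1 * x2) * (x1 + x2)) - (e2 * e3) * (x1 + x2) ^ 2 -
      ((e2 + e3) ^ 2 * (x1 * x2) - (e2 + e3) * (e2 * e3) * (x1 + x2))) /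
      (((x1 - e2) * (x1 - e3)) * ((x2 - e2) * (x2 - e3))) := by
    rw [eq_div_iff (mul_ne_zero hs1 hs2), sub_mul, h1]
    ring
  have hM : V (x1 * x2) = V x1 * V x2 := map_mul _ _ _
  have hM1 : 1 < V (x1 * x2) := by
    rw [hM]
    exact one_lt_mul'' hx1 hx2
  have hM0 : (0 : ℤᵐ⁰) < V (x1 * x2) := zero_lt_one.trans hM1
  have hs : V (x1 + x2) < V (x1 * x2) := by
    rw [hM]
    refine (V.map_add _ _).trans_lt (max_lt ?_ ?_)
    · calc V x1 = V x1 * 1 := (mul_one _).symm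
        _ < V x1 * V x2 := mul_lt_mul_of_pos_left hx2 (zero_lt_one.trans hx1)
    · calc V x2 = 1 * V x2 := (one_mul _).symm
        _ < V x1 * V x2 := mul_lt_mul_of_pos_right hx1 (zero_lt_one.trans hx2)
  have ha : V (e2 + e3) ≤ 1 := (V.map_add _ _).trans (max_le v2.le v3.le)
  have hb : V (e2 * e3) ≤ 1 := by
    rw [map_mul]
    exact (mul_lt_one' v2 v3).le
  have hMM : V (x1 * x2) < V (x1 * x2) ^ 2 := by
    calc V (x1 * x2) = V (x1 * x2) * 1 := (mul_one _).symm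
      _ < V (x1 * x2) * V (x1 * x2) := mul_lt_mul_of_pos_left hM1 hM0
      _ = V (x1 * x2) ^ 2 := (pow_two _).symm
  rw [e, map_div₀, map_mul V ((x1 - e2) * (x1 - e3)), val_q v2 v3 hx1, val_q v2 v3 hx2, ← mul_pow,
    ← hM]
  refine div_lt ?_
  refine (Valuation.map_sub V _ _).trans_lt (max_lt ?_ ?_)
  · refine (Valuation.map_sub V _ _).trans_lt (max_lt ?_ ?_)
    · rw [map_mul, map_mul V (x1 * x2)]
      calc V (e2 + e3) * (V (x1 * x2) * V (x1 + x2)) ≤ 1 * (V (x1 * x2) * V (x1 + x2)) :=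
            mul_le_mul' ha le_rfl
        _ = V (x1 * x2) * V (x1 + x2) := one_mul _
        _ < V (x1 * x2) * V (x1 * x2) := mul_lt_mul_of_pos_left hs hM0
        _ = V (x1 * x2) ^ 2 := (pow_two _).symm
    · rw [map_mul, map_pow]
      calc V (e2 * e3) * V (x1 + x2) ^ 2 ≤ 1 * V (x1 + x2) ^ 2 := mul_le_mul' hb le_rfl
        _ = V (x1 + x2) ^ 2 := one_mul _
        _ < V (x1 * x2) ^ 2 := pow_lt_pow_left₀ hs zero_le two_ne_zero
  · refine (Valuation.map_sub V _ _).trans_lt (max_lt ?_ ?_)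
    · rw [map_mul, map_pow]
      calc V (e2 + e3) ^ 2 * V (x1 * x2) ≤ 1 * V (x1 * x2) :=
            mul_le_mul' (pow_le_one₀ zero_le ha) le_rfl
        _ = V (x1 * x2) := one_mul _
        _ < V (x1 * x2) ^ 2 := hMM
    · rw [map_mul, map_mul]
      calc V (e2 + e3) * V (e2 * e3) * V (x1 + x2) ≤ 1 * 1 * V (x1 + x2) :=
            mul_le_mul' (mul_le_mul' ha hb) le_rfl
        _ = V (x1 + x2) := by rw [one_mul, one_mul]
        _ < V (x1 * x2) := hs
        _ < V (x1 * x2) ^ 2 := hMM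

omit [CharZero F] [DecidableEq F] in
private theorem tpar_neg (h : TwoTors W 0 e2 e3) (P : W.Point) :
    RS.tpar 0 (-P) = -RS.tpar 0 P := by
  rcases P with _ | ⟨x, y, hn⟩
  · have e : (-(Point.zero : W.Point)) = Point.zero := rfl
    rw [e]
    simp [RS.tpar]
  · rw [Point.neg_some]
    simp only [RS.tpar]
    rw [h.negY_eq, div_neg]

omit [CharZero F] [DecidableEq F] in
private theorem inG_neg {P : W.Point} (hP : RS.InG V 0 2 P) : RS.InG V 0 2 (-P) := by
  rcases P with _ | ⟨x, y, hn⟩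
  · exact hP
  · exact hP

theorem tpar_sub2 (h : TwoTors W 0 e2 e3) (h2 : V 2 < 1) (v2 : V e2 < 1) (v3 : V e3 < 1)
    {P Q : W.Point} (hP : RS.InG V 0 2 P) (hQ : RS.InG V 0 2 Q) :
    RS.InG V 0 2 (P - Q) ∧ V (RS.tpar 0 (P - Q) - (RS.tpar 0 P - RS.tpar 0 Q)) < V 2 := by
  have h20 : (0 : ℤᵐ⁰) < V (2 : F) := zero_lt_iff.2 two_ne
  have hsm := small_two h2 v2 v3
  have hsub := RS.sub_mem h hsm hP hQ
  refine ⟨hsub.1, ?_⟩
  have hτ : V (RS.tpar 0 P - RS.tpar 0 Q) ≤ V 2 :=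
    (Valuation.map_sub V _ _).trans (max_le (RS.val_tpar_le h hsm hP)
      (RS.val_tpar_le h hsm hQ))
  rcases P with _ | ⟨x1, y1, h1⟩
  · have e : ((Point.zero : W.Point) - Q) = -Q := zero_sub Q
    rw [e, tpar_neg h]
    have e2 : RS.tpar 0 (Point.zero : W.Point) = 0 := rfl
    rw [e2, zero_sub, sub_self, map_zero]
    exact h20
  · rcases Q with _ | ⟨x2, y2, h2'⟩
    · have e : ((Point.some x1 y1 h1 : W.Point) - Point.zero) = Point.some x1 y1 h1 := sub_zero _
      rw [e]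
      have e2 : RS.tpar 0 (Point.zero : W.Point) = 0 := rfl
      rw [e2, sub_zero, sub_self, map_zero]
      exact h20
    · have e4 : ∀ x : F, (2 : F) ^ 2 * (x - 0) = 4 * x := fun x => by
        rw [sub_zero]
        norm_num
      have hG1 : 1 ≤ V (4 * x1) := by
        rw [← e4]
        exact hP
      have hG2 : 1 ≤ V (4 * x2) := by
        rw [← e4]
        exact hQ
      have hx1 := one_lt_of h2 hG1
      have hx2 := one_lt_of h2 hG2
      have hy1 : y1 ≠ 0 := (RS.val_tpar h hsm h1 hP).1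
      have hy2 : y2 ≠ 0 := (RS.val_tpar h hsm h2' hQ).1
      have hX1 := ne_zero_of hx1
      have hX2 := ne_zero_of hx2
      have F1 : y1 ^ 2 = x1 * ((x1 - e2) * (x1 - e3)) := by
        rw [h.eq_of_nonsingular h1]
        ring
      have F2 : y2 ^ 2 = x2 * ((x2 - e2) * (x2 - e3)) := by
        rw [h.eq_of_nonsingular h2']
        ring
      have t1 : RS.tpar 0 (Point.some x1 y1 h1 : W.Point) = x1 / y1 := by
        simp only [RS.tpar, sub_zero]
      have t2 : RS.tpar 0 (Point.some x2 y2 h2' : W.Point) = x2 / y2 := by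
        simp only [RS.tpar, sub_zero]
      rw [t1, t2] at hτ ⊢
      by_cases hx : x1 = x2
      · rcases RS.sub_some_of_X_eq h h1 h2' hx with ⟨hy, hz⟩ | ⟨hy, hz⟩
        · rw [hz]
          have e : (RS.tpar 0 (0 : W.Point)) = 0 := rfl
          rw [e, hx, hy, sub_self, sub_self, map_zero]
          exact h20
        · obtain ⟨X3, Y3, h3, hadd, hX3, -⟩ := add_self_some h h1 hy1
          have hR := hz.trans hadd
          have hG3 : 1 ≤ V (4 * X3) := by
            have := hsub.1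
            rw [hR] at this
            rw [← e4]
            exact this
          rw [hR]
          simp only [RS.tpar]
          rw [sub_zero]
          refine tpar_near h h2 v2 v3 h3 hG3 hτ (key_near v2 v3 hx1 hx2 ?_)
          subst hx
          subst hy
          rw [sub_zero] at hX3
          rw [hX3]
          have hs := ne_zero_q v2 v3 hx1
          have e1' : (x1 / y1 - x1 / -y1) = 2 * x1 / y1 := by
            rw [div_neg]
            ring
          rw [e1']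
          have e2' : (((x1 - 0) ^ 2 - (0 - e2) * (0 - e3)) / (2 * y1)) ^ 2 * (2 * x1 / y1) ^ 2 *
              ((x1 - e2) * (x1 - e3) * ((x1 - e2) * (x1 - e3))) =
              (x1 * x1 - e2 * e3) ^ 2 * (x1 * ((x1 - e2) * (x1 - e3))) ^ 2 / (y1 ^ 2) ^ 2 := by
            field_simp
            ring
          rw [e2', ← F1, mul_div_assoc, div_self (pow_ne_zero 2 (pow_ne_zero 2 hy1)), mul_one]
      · obtain ⟨x3, y3, h3, hR, hx3⟩ := RS.sub_some_of_X_ne h h1 h2' hx
        have hG3 : 1 ≤ V (4 * x3) := by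
          have := hsub.1
          rw [hR] at this
          rw [← e4]
          exact this
        rw [hR]
        simp only [RS.tpar]
        rw [sub_zero]
        refine tpar_near h h2 v2 v3 h3 hG3 hτ (key_near v2 v3 hx1 hx2 ?_)
        have hD : x1 - x2 ≠ 0 := sub_ne_zero.2 hx
        have hsD : ((y1 + y2) / (x1 - x2)) * (x1 - x2) = y1 + y2 := div_mul_cancel₀ _ hD
        have I1 : x3 * (x1 * x2 * (x1 - x2) ^ 2) = (x1 * y2 + x2 * y1) ^ 2 := by
          rw [hx3]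
          linear_combination x1 * x2 * (((y1 + y2) / (x1 - x2)) * (x1 - x2) + (y1 + y2)) * hsD +
            (x1 - x2) * x2 * F1 - (x1 - x2) * x1 * F2
        have I2 : (x1 / y1 - x2 / y2) * (y1 * y2) = x1 * y2 - x2 * y1 := by
          field_simp
        have I3 : (x1 * y2 - x2 * y1) * (x1 * y2 + x2 * y1) =
            -(x1 * x2 * (x1 - x2) * (x1 * x2 - e2 * e3)) := by
          linear_combination x1 ^ 2 * F2 - x2 ^ 2 * F1
        have I4 : x3 * (x1 / y1 - x2 / y2) ^ 2 * (y1 ^ 2 * y2 ^ 2) =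
            x1 * x2 * (x1 * x2 - e2 * e3) ^ 2 := by
          have hne : x1 * x2 * (x1 - x2) ^ 2 ≠ 0 := mul_ne_zero (mul_ne_zero hX1 hX2) (pow_ne_zero 2 hD)
          apply mul_right_cancel₀ hne
          calc x3 * (x1 / y1 - x2 / y2) ^ 2 * (y1 ^ 2 * y2 ^ 2) * (x1 * x2 * (x1 - x2) ^ 2)
              = (x3 * (x1 * x2 * (x1 - x2) ^ 2)) * ((x1 / y1 - x2 / y2) * (y1 * y2)) ^ 2 := by ring
            _ = ((x1 * y2 - x2 * y1) * (x1 * y2 + x2 * y1)) ^ 2 := by rw [I1, I2]; ring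
            _ = _ := by rw [I3]; ring
        rw [F1, F2] at I4
        apply mul_left_cancel₀ (mul_ne_zero hX1 hX2)
        linear_combination I4

theorem tpar_sum2 (h : TwoTors W 0 e2 e3) (h2 : V 2 < 1) (v2 : V e2 < 1) (v3 : V e3 < 1)
    {ι : Type*} (s : Finset ι) (P : ι → W.Point) (hP : ∀ j ∈ s, RS.InG V 0 2 (P j)) :
    RS.InG V 0 2 (∑ j ∈ s, P j) ∧
      V (RS.tpar 0 (∑ j ∈ s, P j) - ∑ j ∈ s, RS.tpar 0 (P j)) < V 2 := by
  classical
  induction s using Finset.induction_on with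
  | empty =>
    rw [Finset.sum_empty, Finset.sum_empty]
    have e : (RS.tpar 0 (0 : W.Point)) = 0 := rfl
    refine ⟨trivial, ?_⟩
    rw [e, sub_zero, map_zero]
    exact zero_lt_iff.2 two_ne
  | insert j s hj ih =>
    obtain ⟨ih1, ih2⟩ := ih fun k hk => hP k (Finset.mem_insert_of_mem hk)
    rw [Finset.sum_insert hj, Finset.sum_insert hj]
    have h3 := tpar_sub2 h h2 v2 v3 (hP j (Finset.mem_insert_self _ _)) (inG_neg ih1)
    rw [sub_neg_eq_add, tpar_neg h, sub_neg_eq_add] at h3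
    refine ⟨h3.1, ?_⟩
    have e : RS.tpar 0 (P j + ∑ k ∈ s, P k) - (RS.tpar 0 (P j) + ∑ k ∈ s, RS.tpar 0 (P k)) =
        (RS.tpar 0 (P j + ∑ k ∈ s, P k) - (RS.tpar 0 (P j) + RS.tpar 0 (∑ k ∈ s, P k))) +
        (RS.tpar 0 (∑ k ∈ s, P k) - ∑ k ∈ s, RS.tpar 0 (P k)) := by ring
    rw [e]
    exact (V.map_add _ _).trans_lt (max_lt h3.2 ih2)

end Pool.Agent.Work.MP_787500_nt.GO
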