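import Mathlib
import Pool.Agent.Work.MP_787500_nt.GO.Basic
import Pool.Agent.Work.MP_787500_nt.RS.Iso
import Pool.Agent.Work.MP_787500_nt.HC.PtB
import Pool.Agent.Work.MP_787500_nt.GO.VaA

/-!
# Module VaB: the double of a point with unit first coordinate  [size M]

As in `HC/PtB.lean`. `V x = 1` (`hη`, `hx`), `V e2, V e3 < 1`, so `V y = 1`. `2 P` has first coordinate `X = ((x^2 - e2 e3)/(2y))^2` (`add_self_some`, `e1 = 0`), `V (2^2 X) = 1`: `InG`.
`X (2η)^2 = (x^2 - e2 e3)^2 η^2/y^2`, `y^2 = x (x - e2)(x - e3)`, so `V (X (2η)^2 - 1) < 1` (it is close to `x η^2`). `t = X/Y`: `X t^2 = X^2/((X - e2)(X - e3))`, `V X > 1`, so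
`V (X t^2 - 1) < 1`. So `V (X (t^2 - (2η)^2)) < 1`, `V (t^2 - (2η)^2) < V 2 ^2`, and `V (t - 2η) < V 2` as in `HC.near_of_sq` (`V (2 * 2η) = V 4 < V 2`).
-/

set_option autoImplicit false

namespace Pool.Agent.Work.MP_787500_nt.GO

open WithZero IsDedekindDomain NumberField WeierstrassCurve WeierstrassCurve.Affine
open Pool.Agent.Work.MP_787500_nt.HC

universe u

variable {F : Type*} [Field F] [CharZero F] [DecidableEq F] {V : Valuation F ℤᵐ⁰}
variable {W : WeierstrassCurve.Affine F} {e2 e3 : F}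

omit [DecidableEq F] [CharZero F] in
private theorem vab_four : V (4 : F) = V 2 * V 2 := by
  rw [← map_mul]
  norm_num

omit [DecidableEq F] in
private theorem vab_two_ne : V (2 : F) ≠ 0 := (Valuation.ne_zero_iff V).2 two_ne_zero

omit [DecidableEq F] in
private theorem vab_near_of_sq (h2 : V 2 < 1) {t τ : F} (hτ : V τ ≤ V 2)
    (h : V (t ^ 2 - τ ^ 2) < V 2 ^ 2) : V (t - τ) < V 2 := by
  by_contra hc
  rw [not_lt] at hc
  have h20 : V (2 : F) ≠ 0 := vab_two_ne
  have h1 : V (2 * τ) < V (t - τ) := by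
    refine lt_of_lt_of_le ?_ hc
    rw [map_mul]
    calc V 2 * V τ ≤ V 2 * V 2 := mul_le_mul_right hτ _
      _ < 1 * V 2 := mul_lt_mul_of_pos_right h2 (zero_lt_iff.2 h20)
      _ = V 2 := one_mul _
  have h3 : V (t + τ) = V (t - τ) := by
    have e : t + τ = (t - τ) + 2 * τ := by ring
    rw [e]
    exact Valuation.map_add_eq_of_lt_left V h1
  have e : t ^ 2 - τ ^ 2 = (t - τ) * (t + τ) := by ring
  rw [e, map_mul, h3] at h
  refine absurd h (not_lt.2 ?_)
  rw [pow_two]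
  exact mul_le_mul' hc hc

omit [DecidableEq F] [CharZero F] in
private theorem vab_sub {x e : F} (hx : 1 ≤ V x) (he : V e < 1) : V (x - e) = V x :=
  Valuation.map_sub_eq_of_lt_left V (he.trans_le hx)

theorem double_near2 (h : TwoTors W 0 e2 e3) (h2 : V 2 < 1) (v2 : V e2 < 1) (v3 : V e3 < 1)
    {x y η : F} (hn : W.Nonsingular x y) (hη : V η = 1) (hx : V (x * η ^ 2 - 1) < 1) :
    RS.InG V 0 2 ((2 : ℕ) • (Point.some x y hn : W.Point)) ∧
      V (RS.tpar 0 ((2 : ℕ) • (Point.some x y hn : W.Point)) - 2 * η) < V 2 := by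
  have h20 : (2 : F) ≠ 0 := two_ne_zero
  have hη0 : η ≠ 0 := by
    rintro rfl
    rw [map_zero] at hη
    exact zero_ne_one hη
  have hxη : V (x * η ^ 2) = 1 := by
    have e : x * η ^ 2 = (x * η ^ 2 - 1) + 1 := by ring
    rw [e, Valuation.map_add_eq_of_lt_right V (by rw [map_one]; exact hx), map_one]
  have hVx : V x = 1 := by
    rw [map_mul, map_pow, hη, one_pow, mul_one] at hxη
    exact hxη
  have heq := h.eq_of_nonsingular hn
  rw [sub_zero] at heq
  have hVy2 : V (y ^ 2) = 1 := by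
    rw [heq, map_mul, map_mul, vab_sub hVx.ge v2, vab_sub hVx.ge v3, hVx, one_mul, one_mul]
  have hy0 : y ≠ 0 := by
    rintro rfl
    rw [zero_pow two_ne_zero, map_zero] at hVy2
    exact zero_ne_one hVy2
  have hVy20 : y ^ 2 ≠ 0 := pow_ne_zero 2 hy0
  have v23 : V (e2 * e3) < 1 := by
    rw [map_mul]
    exact mul_lt_one' v2 v3
  obtain ⟨X, Y, h3, hadd, hX, -⟩ := add_self_some h hn hy0
  have hX' : X = ((x ^ 2 - e2 * e3) / (2 * y)) ^ 2 := by
    rw [← sub_zero X, hX]
    congr 2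
    ring
  have hXτ : X * (2 * η) ^ 2 = ((x ^ 2 - e2 * e3) * η) ^ 2 / y ^ 2 := by
    rw [hX']
    field_simp
  have hA : V (x ^ 2 - e2 * e3) = 1 := by
    rw [vab_sub (by rw [map_pow, hVx, one_pow]) v23, map_pow, hVx, one_pow]
  have hB : V (X * (2 * η) ^ 2) = 1 := by
    rw [hXτ, map_div₀, hVy2, div_one, map_pow, map_mul, hA, hη, one_mul, one_pow]
  have hG : V (X * 2 ^ 2) = 1 := by
    have e : X * (2 * η) ^ 2 = X * 2 ^ 2 * η ^ 2 := by ring
    rw [e, map_mul, map_pow V η, hη, one_pow, mul_one] at hB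
    exact hB
  have hC : V (X * (2 * η) ^ 2 - 1) < 1 := by
    have e : X * (2 * η) ^ 2 - 1 = (x ^ 3 * (x * η ^ 2 - 1) + ((e2 + e3) * x ^ 2 - e2 * e3 * x
        + (e2 * e3) * ((e2 * e3) * η ^ 2 - 2 * (x ^ 2 * η ^ 2)))) / y ^ 2 := by
      rw [hXτ]
      field_simp
      rw [heq]
      ring
    rw [e, map_div₀, hVy2, div_one]
    have c1 : V (x ^ 3 * (x * η ^ 2 - 1)) < 1 := by
      rw [map_mul, map_pow, hVx, one_pow, one_mul]
      exact hx
    have c2 : V ((e2 + e3) * x ^ 2) < 1 := by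
      rw [map_mul, map_pow, hVx, one_pow, mul_one]
      exact (V.map_add _ _).trans_lt (max_lt v2 v3)
    have c3 : V (e2 * e3 * x) < 1 := by
      rw [map_mul, hVx, mul_one]
      exact v23
    have c4 : V ((e2 * e3) * ((e2 * e3) * η ^ 2 - 2 * (x ^ 2 * η ^ 2))) < 1 := by
      rw [map_mul]
      refine mul_lt_one' v23 ?_
      refine (Valuation.map_sub V _ _).trans_lt (max_lt ?_ ?_)
      · rw [map_mul, map_pow, hη, one_pow, mul_one]
        exact v23
      · rw [map_mul, map_mul, map_pow, map_pow, hVx, hη, one_pow, mul_one, mul_one]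
        exact h2
    exact (V.map_add _ _).trans_lt (max_lt c1 ((V.map_add _ _).trans_lt
      (max_lt ((Valuation.map_sub V _ _).trans_lt (max_lt c2 c3)) c4)))
  have hV2 : V (2 : F) ≠ 0 := vab_two_ne
  have hVX2 : V X * V 2 ^ 2 = 1 := by
    rw [← map_pow, ← map_mul]
    exact hG
  have hVX : 1 < V X := by
    by_contra hc
    rw [not_lt] at hc
    have h5 : V X * V 2 ^ 2 < 1 := by
      refine (mul_le_mul_left hc _).trans_lt ?_
      rw [one_mul]
      exact pow_lt_one₀ zero_le h2 two_ne_zero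
    exact absurd hVX2 h5.ne
  have hX0 : X ≠ 0 := by
    rintro rfl
    rw [map_zero] at hVX
    exact absurd hVX (not_lt.2 zero_le_one)
  have heqX := h.eq_of_nonsingular h3
  rw [sub_zero] at heqX
  have a2 : V (X - e2) = V X := vab_sub hVX.le v2
  have a3 : V (X - e3) = V X := vab_sub hVX.le v3
  have hVX0 : V X ≠ 0 := (Valuation.ne_zero_iff V).2 hX0
  have hX2 : X - e2 ≠ 0 := by
    intro h0
    rw [h0, map_zero] at a2
    exact hVX0 a2.symm
  have hX3 : X - e3 ≠ 0 := by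
    intro h0
    rw [h0, map_zero] at a3
    exact hVX0 a3.symm
  have hY2 : Y ^ 2 ≠ 0 := by
    rw [heqX]
    exact mul_ne_zero (mul_ne_zero hX0 hX2) hX3
  have hY0 : Y ≠ 0 := by
    rintro rfl
    exact hY2 (zero_pow two_ne_zero)
  have hD : V (X * (X / Y) ^ 2 - 1) < 1 := by
    have e : X * (X / Y) ^ 2 - 1 = ((e2 + e3) * X - e2 * e3) / ((X - e2) * (X - e3)) := by
      rw [div_pow, heqX]
      field_simp
      ring
    rw [e, map_div₀, map_mul, a2, a3]
    refine (div_lt_one₀ (zero_lt_iff.2 (mul_ne_zero hVX0 hVX0))).2 ?_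
    have hXX : V X < V X * V X := by
      calc V X = 1 * V X := (one_mul _).symm
        _ < V X * V X := mul_lt_mul_of_pos_right hVX (zero_lt_iff.2 hVX0)
    refine (Valuation.map_sub V _ _).trans_lt (max_lt ?_ ?_)
    · rw [map_mul]
      refine lt_trans ?_ hXX
      calc V (e2 + e3) * V X < 1 * V X := mul_lt_mul_of_pos_right
            ((V.map_add _ _).trans_lt (max_lt v2 v3)) (zero_lt_iff.2 hVX0)
        _ = V X := one_mul _
    · exact (v23.trans hVX).trans hXX
  have hE : V ((X / Y) ^ 2 - (2 * η) ^ 2) < V 2 ^ 2 := by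
    have h5 : V (X * ((X / Y) ^ 2 - (2 * η) ^ 2)) < 1 := by
      have e : X * ((X / Y) ^ 2 - (2 * η) ^ 2) =
          (X * (X / Y) ^ 2 - 1) - (X * (2 * η) ^ 2 - 1) := by ring
      rw [e]
      exact (Valuation.map_sub V _ _).trans_lt (max_lt hD hC)
    rw [map_mul, ← hVX2] at h5
    exact lt_of_mul_lt_mul_left' h5
  rw [two_nsmul, hadd]
  refine ⟨?_, ?_⟩
  · show 1 ≤ V (2 ^ 2 * (X - 0))
    rw [sub_zero, mul_comm]
    exact hG.ge
  · simp only [RS.tpar]
    rw [sub_zero]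
    refine vab_near_of_sq h2 ?_ hE
    rw [map_mul, hη, mul_one]

end Pool.Agent.Work.MP_787500_nt.GO
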