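import Mathlib
import Pool.Agent.Work.MP_787500_nt.GO.Basic
import Pool.Agent.Work.MP_787500_nt.RS.Iso
import Pool.Agent.Work.MP_787500_nt.GO.VaA

/-!
# Module VaC: no torsion near zero  [size M]

`hp := small_two h2 v2 v3`; `RS.sub_mem h hp`: `InG` is closed under `-` and `V (t (P - Q)) = V (t P - t Q)`; `t (-Q) = -t Q` (`h.negY_eq`). So
`V (t (Q + Q)) = V 2 * V (t Q)` and, with `c = V (t P) > 0`, all multiples `Q` of `P` are in `InG` with `V (t Q) ≤ c`. For `m = 2k+1`: `m P = P + 2 (k P)`,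
`V (t (m P)) = V (t P + t (2 (k P)))`, `V (t (2 (k P))) ≤ V 2 * c < c`, so `V (t (m P)) = c`. For `m = 2k`, `k ≠ 0`: `V (t (m P)) = V 2 * V (t (k P))`. Strong induction: `V (t (m P)) ≠ 0` for `m ≠ 0`, so `m P ≠ 0`
(`t 0 = 0`).
-/

set_option autoImplicit false

namespace Pool.Agent.Work.MP_787500_nt.GO

open WithZero IsDedekindDomain NumberField WeierstrassCurve WeierstrassCurve.Affine
open Pool.Agent.Work.MP_787500_nt.HC

universe u

variable {F : Type*} [Field F] [CharZero F] [DecidableEq F] {V : Valuation F ℤᵐ⁰}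
variable {W : WeierstrassCurve.Affine F} {e2 e3 : F}

omit [CharZero F] [DecidableEq F] in
private theorem tpar_neg' (h : TwoTors W 0 e2 e3) (P : W.Point) :
    RS.tpar 0 (-P) = -RS.tpar 0 P := by
  rcases P with _ | ⟨x, y, hn⟩
  · have e : (-(Point.zero : W.Point)) = Point.zero := rfl
    rw [e]
    simp [RS.tpar]
  · rw [Point.neg_some]
    simp only [RS.tpar]
    rw [h.negY_eq, div_neg]

omit [CharZero F] [DecidableEq F] in
private theorem inG_neg' {P : W.Point} (hP : RS.InG V 0 2 P) : RS.InG V 0 2 (-P) := by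
  rcases P with _ | ⟨x, y, hn⟩
  · exact hP
  · exact hP

private theorem add_mem (h : TwoTors W 0 e2 e3) (h2 : V 2 < 1) (v2 : V e2 < 1) (v3 : V e3 < 1)
    {P Q : W.Point} (hP : RS.InG V 0 2 P) (hQ : RS.InG V 0 2 Q) :
    RS.InG V 0 2 (P + Q) ∧ V (RS.tpar 0 (P + Q)) = V (RS.tpar 0 P + RS.tpar 0 Q) := by
  have h3 := RS.sub_mem h (small_two h2 v2 v3) hP (inG_neg' hQ)
  rw [sub_neg_eq_add, tpar_neg' h, sub_neg_eq_add] at h3
  exact h3

theorem nt_of_inG (h : TwoTors W 0 e2 e3) (h2 : V 2 < 1) (v2 : V e2 < 1) (v3 : V e3 < 1)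
    {P : W.Point} (hP : RS.InG V 0 2 P) (h0 : RS.tpar 0 P ≠ 0) : Nt P := by
  have hc : V (RS.tpar 0 P) ≠ 0 := (Valuation.ne_zero_iff V).2 h0
  have h20 : V (2 : F) ≠ 0 := (Valuation.ne_zero_iff V).2 two_ne_zero
  have key : ∀ m : ℕ, RS.InG V 0 2 (m • P) ∧ V (RS.tpar 0 (m • P)) ≤ V (RS.tpar 0 P) ∧
      (m ≠ 0 → V (RS.tpar 0 (m • P)) ≠ 0) := by
    intro m
    induction m using Nat.strong_induction_on with
    | _ m ih =>
      have hdbl : ∀ k : ℕ, k < m → RS.InG V 0 2 ((2 * k) • P) ∧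
          V (RS.tpar 0 ((2 * k) • P)) = V 2 * V (RS.tpar 0 (k • P)) := by
        intro k hk
        obtain ⟨h1, -, -⟩ := ih k hk
        have h3 := add_mem h h2 v2 v3 h1 h1
        rw [← two_mul, map_mul, ← two_nsmul, smul_smul] at h3
        exact h3
      rcases Nat.even_or_odd' m with ⟨k, rfl | rfl⟩
      · rcases Nat.eq_zero_or_pos k with rfl | hk
        · refine ⟨?_, ?_, fun hm => absurd rfl hm⟩
          · rw [Nat.mul_zero, zero_smul]
            trivial
          · have e : RS.tpar 0 ((2 * 0 : ℕ) • P) = 0 := by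
              rw [Nat.mul_zero, zero_smul]
              rfl
            rw [e, map_zero]
            exact zero_le
        · obtain ⟨h3, h4⟩ := hdbl k (by omega)
          obtain ⟨-, h5, h6⟩ := ih k (by omega)
          refine ⟨h3, ?_, fun _ => ?_⟩
          · rw [h4]
            calc V 2 * V (RS.tpar 0 (k • P)) ≤ 1 * V (RS.tpar 0 P) := mul_le_mul' h2.le h5
              _ = V (RS.tpar 0 P) := one_mul _
          · rw [h4]
            exact mul_ne_zero h20 (h6 (by omega))
      · rcases Nat.eq_zero_or_pos k with rfl | hk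
        · have e : (2 * 0 + 1 : ℕ) • P = P := by
            rw [Nat.mul_zero, zero_add, one_smul]
          rw [e]
          exact ⟨hP, le_rfl, fun _ => hc⟩
        · obtain ⟨h3, h4⟩ := hdbl k (by omega)
          obtain ⟨-, h5, -⟩ := ih k (by omega)
          have h6 : V (RS.tpar 0 ((2 * k) • P)) < V (RS.tpar 0 P) := by
            rw [h4]
            calc V 2 * V (RS.tpar 0 (k • P)) ≤ V 2 * V (RS.tpar 0 P) := mul_le_mul' le_rfl h5
              _ < 1 * V (RS.tpar 0 P) := mul_lt_mul_of_pos_right h2 (zero_lt_iff.2 hc)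
              _ = V (RS.tpar 0 P) := one_mul _
          have h7 := add_mem h h2 v2 v3 h3 hP
          have e : (2 * k + 1 : ℕ) • P = (2 * k) • P + P := by
            rw [add_smul, one_smul]
          have h8 : V (RS.tpar 0 ((2 * k + 1) • P)) = V (RS.tpar 0 P) := by
            rw [e, h7.2, add_comm]
            exact Valuation.map_add_eq_of_lt_left V h6
          refine ⟨?_, h8.le, fun _ => ?_⟩
          · rw [e]
            exact h7.1
          · rw [h8]
            exact hc
  intro m hm hz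
  refine (key m).2.2 hm ?_
  rw [hz]
  have e : (RS.tpar 0 (0 : W.Point)) = 0 := rfl
  rw [e, map_zero]

end Pool.Agent.Work.MP_787500_nt.GO
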