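import Mathlib
import Pool.Agent.Work.MP_787500_nt.GO.Basic
import Pool.Agent.Work.MP_787500_nt.GO.VaA
import Pool.Agent.Work.MP_787500_nt.GO.VaB
import Pool.Agent.Work.MP_787500_nt.GO.VaC

/-!
# Module VaD: a sum of points of infinite order  [size S-M]

`R = ∑ P c`, `2 R = ∑ 2 P c`. `double_near2` for every `c`, `tpar_sum2`: `V (t (2R) - 2 ∑ η c) < V 2`, `V (2 ∑ η c) = V 2`, so `V (t (2R)) = V 2 ≠ 0`; `nt_of_inG` for `2 R`, `Nt.of_nsmul`.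
-/

set_option autoImplicit false

namespace Pool.Agent.Work.MP_787500_nt.GO

open WithZero IsDedekindDomain NumberField WeierstrassCurve WeierstrassCurve.Affine
open Pool.Agent.Work.MP_787500_nt.HC

universe u

variable {F : Type*} [Field F] [CharZero F] [DecidableEq F] {V : Valuation F ℤᵐ⁰}
variable {W : WeierstrassCurve.Affine F} {e2 e3 : F}

theorem nt_sum (h : TwoTors W 0 e2 e3) (h2 : V 2 < 1) (v2 : V e2 < 1) (v3 : V e3 < 1)
    {ι : Type*} (C : Finset ι) (P : ι → W.Point) (x η : ι → F)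
    (hP : ∀ c ∈ C, ∃ (y : F) (hn : W.Nonsingular (x c) y), P c = Point.some (x c) y hn)
    (hη : ∀ c ∈ C, V (η c) = 1) (hx : ∀ c ∈ C, V (x c * η c ^ 2 - 1) < 1)
    (hs : V (∑ c ∈ C, η c) = 1) : Nt (∑ c ∈ C, P c) := by
  have h20 : V (2 : F) ≠ 0 := (Valuation.ne_zero_iff V).2 (by norm_num)
  have hd : ∀ c ∈ C, RS.InG V 0 2 ((2 : ℕ) • P c) ∧
      V (RS.tpar 0 ((2 : ℕ) • P c) - 2 * η c) < V 2 := by
    intro c hc
    obtain ⟨y, hn, e⟩ := hP c hc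
    rw [e]
    exact double_near2 h h2 v2 v3 hn (hη c hc) (hx c hc)
  obtain ⟨h3, h4⟩ := tpar_sum2 h h2 v2 v3 C (fun c => (2 : ℕ) • P c) fun c hc => (hd c hc).1
  rw [← Finset.smul_sum] at h3 h4
  have h5 : V (∑ c ∈ C, (RS.tpar 0 ((2 : ℕ) • P c) - 2 * η c)) < V 2 :=
    Valuation.map_sum_lt V h20 fun c hc => (hd c hc).2
  have h6 : V (RS.tpar 0 ((2 : ℕ) • ∑ c ∈ C, P c) - 2 * ∑ c ∈ C, η c) < V 2 := by
    have e : RS.tpar 0 ((2 : ℕ) • ∑ c ∈ C, P c) - 2 * ∑ c ∈ C, η c =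
        (RS.tpar 0 ((2 : ℕ) • ∑ c ∈ C, P c) - ∑ c ∈ C, RS.tpar 0 ((2 : ℕ) • P c)) +
        ∑ c ∈ C, (RS.tpar 0 ((2 : ℕ) • P c) - 2 * η c) := by
      rw [Finset.sum_sub_distrib, ← Finset.mul_sum]
      ring
    rw [e]
    exact (V.map_add _ _).trans_lt (max_lt h4 h5)
  have h7 : V (2 * ∑ c ∈ C, η c) = V 2 := by rw [map_mul, hs, mul_one]
  refine Nt.of_nsmul (k := 2) (nt_of_inG h h2 v2 v3 h3 fun h0 => ?_)
  rw [h0, zero_sub, Valuation.map_neg, h7] at h6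
  exact lt_irrefl _ h6

end Pool.Agent.Work.MP_787500_nt.GO
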