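import Mathlib
import Pool.Agent.Work.MP_787500_nt.GO.Basic
import Pool.Agent.Work.MP_787500_nt.HC.VlE

/-!
# Module VaE: valuations in the chains  [size S-M]

`valI_agm`: `Z 0 = -i W'^2/(1+W^2)`: `V i = 1`, `val_W`: `V 4 / V 2 = V 2`. `Z (k+1)^2 = b k / a k` (`bs`), `V = V 4` (`seq_val`), so `V (Z (k+1)) = V 2`.
`U (k+1) = u k`. `k = 0`: `u 0 ^2 - 1 = (1 - W^2)/W^2`, `V = V 8` (`val_W`). Step: `v = b k/a k`, `V v = V 4`, `u (k+1) (1 + v) = u k ^2` (`us`, `as`), so `V (u (k+1) - 1) ≤ V 4`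
(`u k ^2 - 1` has `V ≤ V 8`), `V (u (k+1) + 1) ≤ V 2`, product.
`valI_rev`: `val_W`.
-/

set_option autoImplicit false

namespace Pool.Agent.Work.MP_787500_nt.GO

open WithZero IsDedekindDomain NumberField WeierstrassCurve WeierstrassCurve.Affine
open Pool.Agent.Work.MP_787500_nt.HC

universe u

variable {K F A : Type*} [Field K] [Field F] [CharZero F] [Algebra K F] [CommGroup A] [Finite A]
variable {p : A} {h : ℕ} {α : K} {W W' : A → F} {V : Valuation F ℤᵐ⁰}

private theorem vae_u (H : Wdata K F p h α W W') (hV : Dya K V h α) {c : A} {i : F}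
    {a b u : ℕ → F} {n : ℕ} (hS : Sq4 (W c) (W' c) i a b u n) {m : ℕ} (hm : m ≤ n) :
    V (u m ^ 2 - 1) ≤ V 8 := by
  have h8 : V (8 : F) = V 4 * V 2 := by
    rw [← map_mul]
    norm_num
  have h41 : V (4 : F) < 1 := by
    rw [vlc_four]
    exact pow_lt_one₀ zero_le hV.two two_ne_zero
  have h84 : V (8 : F) ≤ V 4 := by
    rw [h8]
    exact mul_le_of_le_one_right' hV.two.le
  have h42 : V (4 : F) ≤ V 2 := by
    rw [vlc_four, pow_two]
    exact mul_le_of_le_one_right' hV.two.le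
  induction m with
  | zero =>
    obtain ⟨h1, -, -, h4⟩ := val_W H hV c
    have hw := hS.w0
    have e1 : u 0 ^ 2 - 1 = -((W c ^ 2 - 1) / W c ^ 2) := by
      rw [hS.u0]
      field_simp
      ring
    rw [e1, Valuation.map_neg, map_div₀, map_pow, h1, one_pow, div_one, h4]
  | succ m ih =>
    have h1 := ih (by omega)
    obtain ⟨ha, hb, hab, -, hu, -⟩ := sq4_ne hS (show m ≤ n by omega)
    obtain ⟨hz, hu1, -, -⟩ := seq_val H hV hS (show m ≤ n by omega)
    have h3 : V (1 + b m / a m) = 1 := by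
      apply Valuation.map_one_add_of_lt
      rw [hz]
      exact h41
    have h4 : u (m + 1) * (1 + b m / a m) = u m ^ 2 := by
      rw [hS.us m (by omega), hS.as m (by omega)]
      field_simp
    have h5 : (u (m + 1) - 1) * (1 + b m / a m) = (u m ^ 2 - 1) - b m / a m := by
      linear_combination h4
    have h6 : V (u (m + 1) - 1) ≤ V 4 := by
      have h7 := congrArg V h5
      rw [map_mul, h3, mul_one] at h7
      rw [h7]
      exact V.map_sub_le (h1.trans h84) hz.le
    have h7 : V (u (m + 1) + 1) ≤ V 2 := by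
      have e1 : u (m + 1) + 1 = (u (m + 1) - 1) + 2 := by ring
      rw [e1]
      exact V.map_add_le (h6.trans h42) le_rfl
    have e2 : u (m + 1) ^ 2 - 1 = (u (m + 1) - 1) * (u (m + 1) + 1) := by ring
    rw [e2, map_mul, h8]
    exact mul_le_mul' h6 h7

theorem valI_agm (H : Wdata K F p h α W W') (hV : Dya K V h α) {c : A} {i : F} {a b u : ℕ → F}
    {n : ℕ} (hS : Sq4 (W c) (W' c) i a b u n) :
    ValI V (Zs (W c) (W' c) i a b) (Us i (W (p * c)) u) n := by
  have h20 : V (2 : F) ≠ 0 := (V.ne_zero_iff).2 two_ne_zero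
  have hd : ∀ x : ℤᵐ⁰, x ^ 2 = V (2 : F) ^ 2 → x = V 2 := by
    intro x hx
    have h4 : (x / V 2) ^ 2 = 1 := by
      rw [div_pow, hx, div_self (pow_ne_zero _ h20)]
    have h5 := vla_eq_one_of_pow two_ne_zero h4
    rwa [div_eq_one_iff_eq h20] at h5
  refine ⟨fun k hk => ?_, fun k hk h1 => ?_⟩
  · cases k with
    | zero =>
      obtain ⟨h1, h2, h3, -⟩ := val_W H hV c
      have hi : V i = 1 := by
        have h3 := congrArg V hS.i2
        rw [map_pow, Valuation.map_neg, map_one] at h3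
        exact vla_eq_one_of_pow two_ne_zero h3
      show V (-i * W' c ^ 2 / (1 + W c ^ 2)) = V 2
      rw [map_div₀, map_mul, map_pow, Valuation.map_neg, hi, h2, h3, one_mul, pow_two,
        mul_div_assoc, div_self h20, mul_one]
    | succ k =>
      show V (b (k + 1) / a k) = V 2
      apply hd
      obtain ⟨ha, -, -, -, -, -⟩ := sq4_ne hS (show k ≤ n by omega)
      obtain ⟨hz, -, -, -⟩ := seq_val H hV hS (show k ≤ n by omega)
      rw [← map_pow, div_pow, hS.bs k (by omega), ← vlc_four, ← hz]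
      congr 1
      field_simp
  · obtain ⟨k, rfl⟩ : ∃ m, k = m + 1 := ⟨k - 1, by omega⟩
    exact vae_u H hV hS (by omega)

theorem valI_rev (H : Wdata K F p h α W W') (hV : Dya K V h α) (c : A) (n : ℕ) :
    ValI V (fun k => W' (p⁻¹ ^ k * c)) (fun k => W (p⁻¹ ^ k * c)) n := by
  refine ⟨fun k _ => (val_W H hV _).2.2.1, fun k _ _ => (val_W H hV _).2.2.2.le⟩

end Pool.Agent.Work.MP_787500_nt.GO
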