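import Mathlib
import Pool.Agent.Work.MP_787500_nt.GO.Basic
import Pool.Agent.Work.MP_787500_nt.HC.LyH
import Pool.Agent.Work.MP_787500_nt.HC.VlD
import Pool.Agent.Work.MP_787500_nt.HC.LyG

/-!
# Module VaF: the sums over `C` have valuation exactly one  [size M]

`sumZ`: `Z (k+1)^2 = b k / a k` (`bs`). `HC.sum_val` (with `e` from `L.exp`, `L.seq.mono`) gives `V (∑ g (b k / a k)) = V 4`, so `V (∑ g (Z (k+1)/2)^2) = 1`; all `V (g (Z (k+1)) / 2) = 1`
(for `g` in Gal: `g` maps the sequence to the sequence of `W c`, `W' c`: `Sq4.map`, `seq_val`, as in `HC/LyH.lean`), and `V ((∑ x)^2 - ∑ x^2) ≤ V 2` (`vlc_sq_sum`).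
`sumW`: `x = W' c / 2` is fixed by all `τ^h`, so `∑ g x = T ∈ K` (`HC.trace_mem`), `g (W' c) = W' (f g * c)` (`L.act`), `HC.trace_odd`, `HC.odd_card`.
-/

set_option autoImplicit false

namespace Pool.Agent.Work.MP_787500_nt.GO

open WithZero IsDedekindDomain NumberField WeierstrassCurve WeierstrassCurve.Affine
open Pool.Agent.Work.MP_787500_nt.HC

universe u

variable {K M A : Type*} [Field K] [Field M] [CharZero M] [Algebra K M] [FiniteDimensional K M]
variable [CommGroup A] [Finite A] {p : A} {h : ℕ} {α : K} {W W' : A → M} {i : M} {a b u : ℕ → M}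
variable {n : ℕ} {C : Finset (M ≃ₐ[K] M)} {σ ε : M ≃ₐ[K] M} {V : Valuation M ℤᵐ⁰}

/-- the automorphisms map the chain of `c = 1` to the chain of another class -/
theorem map_chain (L : Lay K p h α W W' i a b u n C σ ε) (g : M ≃ₐ[K] M) :
    ∃ c : A, Sq4 (W c) (W' c) (g i) (g ∘ a) (g ∘ b) (g ∘ u) n ∧
      (∀ k, g (ZL W W' i a b k) = Zs (W c) (W' c) (g i) (g ∘ a) (g ∘ b) k) ∧
      ∀ k, g (UL p W i u k) = Us (g i) (W (p * c)) (g ∘ u) k := by
  obtain ⟨c, hc⟩ := L.act g
  have h1 : g (W 1) = W c ∧ g (W' 1) = W' c := by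
    have := hc 1
    rwa [mul_one] at this
  refine ⟨c, ?_, ?_, ?_⟩
  · have h2 := L.seq.map (g : M →+* M)
    rw [← h1.1, ← h1.2]
    exact h2
  · intro k
    rcases k with _ | k
    · show g (-i * W' 1 ^ 2 / (1 + W 1 ^ 2)) = -(g i) * W' c ^ 2 / (1 + W c ^ 2)
      rw [map_div₀, map_mul, map_neg, map_pow, map_add, map_one, map_pow, h1.1, h1.2]
    · show g (b (k + 1) / a k) = g (b (k + 1)) / g (a k)
      rw [map_div₀]
  · intro k
    rcases k with _ | k
    · show g (i * W p) = g i * W (p * c)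
      rw [map_mul, (hc p).1, mul_comm c p]
    · rfl

theorem sumZ (L : Lay K p h α W W' i a b u n C σ ε) (hV : Dya K V h α) {k : ℕ} (hk : k < n) :
    V (∑ g ∈ C, g (ZL W W' i a b (k + 1) / 2)) = 1 := by
  classical
  have := L.gal
  obtain ⟨e, he⟩ := L.exp
  have h40 : V (4 : M) ≠ 0 := (V.ne_zero_iff).2 (by norm_num)
  have h1 := sum_val L.odd L.comm he C L.memC L.data hV L.act (fun τ => (L.fixW τ 1).2)
    (L.seq.mono hk.le)
  have hsq : ∀ g : M ≃ₐ[K] M, g (ZL W W' i a b (k + 1) / 2) ^ 2 = g (b k / a k) / 4 := by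
    intro g
    have h2 : (ZL W W' i a b (k + 1) / 2) ^ 2 = b k / a k / 4 := by
      show (b (k + 1) / a k / 2) ^ 2 = b k / a k / 4
      have h3 := (sq4_ne L.seq hk.le).1
      rw [div_pow, div_pow, L.seq.bs k hk]
      field_simp
      ring
    rw [← map_pow, h2, map_div₀, map_ofNat]
  have hval : ∀ g : M ≃ₐ[K] M, V (g (ZL W W' i a b (k + 1) / 2)) ≤ 1 := by
    intro g
    obtain ⟨c, hS, -, -⟩ := map_chain L g
    have h2 := (seq_val L.data hV hS hk.le).1
    have h3 : V (g (ZL W W' i a b (k + 1) / 2)) ^ 2 = 1 := by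
      rw [← map_pow, hsq, map_div₀ V, map_div₀ g]
      simp only [Function.comp_apply] at h2
      rw [h2, div_self h40]
    exact ((pow_eq_one_iff.1 h3).resolve_right two_ne_zero).le
  have h5 := (vlc_sq_sum C (fun g => g (ZL W W' i a b (k + 1) / 2)) (fun g _ => hval g)).2
  have h6 : ∑ g ∈ C, g (ZL W W' i a b (k + 1) / 2) ^ 2 = (∑ g ∈ C, g (b k / a k)) / 4 := by
    rw [Finset.sum_div]
    exact Finset.sum_congr rfl fun g _ => hsq g
  have h7 : V (∑ g ∈ C, g (ZL W W' i a b (k + 1) / 2) ^ 2) = 1 := by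
    rw [h6, map_div₀, h1, div_self h40]
  have h8 : V ((∑ g ∈ C, g (ZL W W' i a b (k + 1) / 2)) ^ 2) = 1 := by
    have h9 := V.map_add_eq_of_lt_right
      (x := (∑ g ∈ C, g (ZL W W' i a b (k + 1) / 2)) ^ 2 -
        ∑ g ∈ C, g (ZL W W' i a b (k + 1) / 2) ^ 2)
      (y := ∑ g ∈ C, g (ZL W W' i a b (k + 1) / 2) ^ 2)
      (by rw [h7]; exact lt_of_le_of_lt h5 hV.two)
    rw [sub_add_cancel, h7] at h9
    exact h9
  rw [map_pow] at h8
  exact (pow_eq_one_iff.1 h8).resolve_right two_ne_zero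

theorem sumW (L : Lay K p h α W W' i a b u n C σ ε) (hV : Dya K V h α) (c : A) :
    V (∑ g ∈ C, g (W' c / 2)) = 1 := by
  classical
  have := L.gal
  obtain ⟨e, he⟩ := L.exp
  have hact := L.act
  choose f hf using hact
  obtain ⟨T, hT⟩ := trace_mem L.odd L.comm he C L.memC (x := W' c / 2) (fun τ => by
    rw [map_div₀, (L.fixW τ c).2, map_ofNat])
  have hT' : algebraMap K M T = ∑ g ∈ C, W' (f g * c) / 2 := by
    rw [hT]
    refine Finset.sum_congr rfl fun g _ => ?_
    rw [map_div₀, (hf g c).2, map_ofNat]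
  have h1 := trace_odd L.data hV C (odd_card L.odd L.comm C L.memC) (fun g => f g * c) hT'
  have h2 := V.map_add_eq_of_lt_right (x := algebraMap K M T - 1) (y := 1)
    (by rwa [map_one])
  rw [sub_add_cancel, map_one] at h2
  rw [← hT]
  exact h2

end Pool.Agent.Work.MP_787500_nt.GO
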