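import Mathlib
import Pool.Agent.Work.MP_787500_nt.GO.Basic

/-!
# Module ChC: the direct and the reversed chain  [size S]

Direct: `z k = W (p^k c)`, `u k = W' (p^k c)`: `c1` is `H.rec1`, `c2` is `hrel`, `c3`: `u (k+1)^2 (1 + z^2)^2 = u k ^4 = 1 - z^4`
(`hrel`, `H.four`), divide by `1 + z^2 ≠ 0`.
Reversed: `z k = W' (p⁻¹^k c)`, `u k = W (p⁻¹^k c)`. Let `x = p⁻¹^(k+1) c`, `p x = p⁻¹^k c`. `c1` is `H.rec2 x`. Let `ξ = W x`, `η = W' x`, so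
`η^2 = W' (p x) (1 + ξ^2)`, `ξ^4 + η^4 = 1`, hence `W' (p x)^2 (1 + ξ^2) = 1 - ξ^2`, `(1 + W' (p x)^2)(1 + ξ^2) = 2`, and `W (p x)^2 (1 + ξ^2) = 2 ξ`, so
`ξ (1 + W' (p x)^2) = W (p x)^2` (`c2`) and `ξ^2 (1 + W' (p x)^2) = 1 - W' (p x)^2` (`c3`).
-/

set_option autoImplicit false

namespace Pool.Agent.Work.MP_787500_nt.GO

open WithZero IsDedekindDomain NumberField WeierstrassCurve WeierstrassCurve.Affine
open Pool.Agent.Work.MP_787500_nt.HC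

universe u

variable {K A F : Type*} [Field K] [CommGroup A] [Field F] [CharZero F] [Algebra K F]
variable {p : A} {h : ℕ} {α : K} {W W' : A → F}

private theorem one_ne (H : Wdata K F p h α W W')
    (hrel : ∀ c, W' (p * c) * (1 + W c ^ 2) = W' c ^ 2) (c : A) : 1 + W c ^ 2 ≠ 0 := by
  intro h0
  have h1 := hrel c
  rw [h0, mul_zero] at h1
  exact pow_ne_zero 2 (H.ne' c) h1.symm

private theorem third (H : Wdata K F p h α W W')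
    (hrel : ∀ c, W' (p * c) * (1 + W c ^ 2) = W' c ^ 2) (c : A) :
    W' (p * c) ^ 2 * (1 + W c ^ 2) = 1 - W c ^ 2 := by
  apply mul_right_cancel₀ (one_ne H hrel c)
  linear_combination (W' (p * c) * (1 + W c ^ 2) + W' c ^ 2) * hrel c + H.four c

theorem chn_dir (H : Wdata K F p h α W W') (hrel : ∀ c, W' (p * c) * (1 + W c ^ 2) = W' c ^ 2)
    (c : A) (n : ℕ) : Chn (fun k => W (p ^ k * c)) (fun k => W' (p ^ k * c)) n := by
  have hp : ∀ k : ℕ, p ^ (k + 1) * c = p * (p ^ k * c) := fun k => by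
    rw [pow_succ', mul_assoc]
  refine ⟨fun k _ => H.ne _, fun k _ => H.ne' _, fun k _ => ?_, fun k _ => ?_, fun k _ => ?_⟩
  · show W (p ^ (k + 1) * c) ^ 2 * (1 + W (p ^ k * c) ^ 2) = 2 * W (p ^ k * c)
    rw [hp]
    exact H.rec1 _
  · show W' (p ^ (k + 1) * c) * (1 + W (p ^ k * c) ^ 2) = W' (p ^ k * c) ^ 2
    rw [hp]
    exact hrel _
  · show W' (p ^ (k + 1) * c) ^ 2 * (1 + W (p ^ k * c) ^ 2) = 1 - W (p ^ k * c) ^ 2
    rw [hp]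
    exact third H hrel _

theorem chn_rev (H : Wdata K F p h α W W') (hrel : ∀ c, W' (p * c) * (1 + W c ^ 2) = W' c ^ 2)
    (c : A) (n : ℕ) : Chn (fun k => W' (p⁻¹ ^ k * c)) (fun k => W (p⁻¹ ^ k * c)) n := by
  have hp : ∀ k : ℕ, p⁻¹ ^ k * c = p * (p⁻¹ ^ (k + 1) * c) := fun k => by
    rw [pow_succ', mul_assoc, mul_inv_cancel_left]
  refine ⟨fun k _ => H.ne' _, fun k _ => H.ne _, fun k _ => ?_, fun k _ => ?_, fun k _ => ?_⟩
  · show W' (p⁻¹ ^ (k + 1) * c) ^ 2 * (1 + W' (p⁻¹ ^ k * c) ^ 2) = 2 * W' (p⁻¹ ^ k * c)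
    rw [hp k]
    exact H.rec2 _
  · show W (p⁻¹ ^ (k + 1) * c) * (1 + W' (p⁻¹ ^ k * c) ^ 2) = W (p⁻¹ ^ k * c) ^ 2
    rw [hp k]
    apply mul_right_cancel₀ (one_ne H hrel (p⁻¹ ^ (k + 1) * c))
    linear_combination W (p⁻¹ ^ (k + 1) * c) * third H hrel (p⁻¹ ^ (k + 1) * c) -
      H.rec1 (p⁻¹ ^ (k + 1) * c)
  · show W (p⁻¹ ^ (k + 1) * c) ^ 2 * (1 + W' (p⁻¹ ^ k * c) ^ 2) = 1 - W' (p⁻¹ ^ k * c) ^ 2
    rw [hp k]
    linear_combination third H hrel (p⁻¹ ^ (k + 1) * c)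

end Pool.Agent.Work.MP_787500_nt.GO
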