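import Mathlib
import Pool.Agent.Work.MP_787500_nt.GO.Basic
import Pool.Agent.Work.MP_787500_nt.HC.VlC
import Pool.Agent.Work.MP_787500_nt.GO.ChC
import Pool.Agent.Work.MP_787500_nt.GO.ChD
import Pool.Agent.Work.MP_787500_nt.GO.VaE

/-!
# Module VaG: residues of the first coordinates  [size M]

`ValI`: `V (z j) = V 2`, `V (u j ^2 - 1) ≤ V 8` (`1 ≤ j`), so `V (u j - 1) < 1` (`V (u-1)^2 < 1`: `(u-1)(u+1)`, `u + 1 = (u - 1) + 2`).
`η = z (k+2)/2`, `η^2 = z (k+1)/(2 (1 + z (k+1)^2))` (`c1`). `valXA`: `xA η^2 = (S/2)/(u (1 + z^2))`, `S/2 - 1 = (u^2-1)/2 + z^2/2`. `valXD`: `xD η^2 = u^2/(1 + z^2)`.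
`valDir*`: `z k = W (p^k c)`, `u k = W' (p^k c)`: `val_W`: `V z = 1`, `V (z^2 - 1) = V 8`, `V (1 + z^2) = V 2`, `V (u) = V 2`. `u 1 = u 0 ^2/(1 + z 0 ^2)` (`chn_dir`, `c2`), `V ((1 + z 0^2)/2 - 1) ≤ V 4`, so
`u 1/2` is close to `(u 0/2)^2`. `xA = S/(u 1 z 1)`, `V (S/2 - 1) < 1`; `xC = 2/(u 1 z 1)`.
`valXE`: `V (W - 1) = V 4`: `V (W-1) V (W+1) = V 8`; from `c1`: `W (p c)^2 (1 + W^2) = 2 W` with `V (W (pc)^2 - 1) ≤ V 8`, `V ((1+W^2)/2 - 1) ≤ V 4` one gets `V (W - 1) ≤ V 4`, so `V (W + 1) = V 2`, `V (W-1) = V 4`.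
`(1 - W)(1 + W)(1 + W^2) = W'^4`, so `(1 - W)/4` is close to `(W'/2)^4 =: y^4`, and for `p c` it is close to `(W' (pc)/2)^4`, `W' (pc)/2` close to `y^2`; `xE = z 1 (1 - z 0)/(1 - z 1)` is close to `y^4/y^8`, `η = W' (pc)/2` close to `y^2`.
-/

set_option autoImplicit false

namespace Pool.Agent.Work.MP_787500_nt.GO

open WithZero IsDedekindDomain NumberField WeierstrassCurve WeierstrassCurve.Affine
open Pool.Agent.Work.MP_787500_nt.HC

universe u

variable {K F A : Type*} [Field K] [Field F] [CharZero F] [Algebra K F] [CommGroup A] [Finite A]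
variable {p : A} {h : ℕ} {α : K} {W W' : A → F} {V : Valuation F ℤᵐ⁰}
variable {z u : ℕ → F} {n : ℕ}

section vag

omit [CharZero F] in
private theorem vag_one {x : F} (hx : V (x - 1) < 1) : V x = 1 := by
  have h := Valuation.map_one_add_of_lt (v := V) hx
  rwa [add_sub_cancel] at h

omit [CharZero F] in
private theorem vag_mul {x y : F} (hx : V (x - 1) < 1) (hy : V (y - 1) < 1) :
    V (x * y - 1) < 1 := by
  rw [show x * y - 1 = x * (y - 1) + (x - 1) by ring]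
  refine V.map_add_lt ?_ hx
  rw [map_mul, vag_one hx, one_mul]
  exact hy

omit [CharZero F] in
private theorem vag_inv {x : F} (hx : V (x - 1) < 1) : V (x⁻¹ - 1) < 1 := by
  have h1 := vag_one hx
  have h0 : x ≠ 0 := by
    rintro rfl
    rw [map_zero] at h1
    exact zero_ne_one h1
  rw [show x⁻¹ - 1 = -(x⁻¹ * (x - 1)) by field_simp; ring, Valuation.map_neg, map_mul, map_inv₀, h1,
    inv_one, one_mul]
  exact hx

omit [CharZero F] in
private theorem vag_div {x y : F} (hx : V (x - 1) < 1) (hy : V (y - 1) < 1) :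
    V (x / y - 1) < 1 := by
  rw [div_eq_mul_inv]
  exact vag_mul hx (vag_inv hy)

omit [CharZero F] in
private theorem vag_ne {x : F} (hx : V (x - 1) < 1) : x ≠ 0 := by
  have h1 := vag_one hx
  rintro rfl
  rw [map_zero] at h1
  exact zero_ne_one h1

omit [CharZero F] in
private theorem vag_sq {x : F} (h2 : V 2 < 1) (hx : V (x ^ 2 - 1) < 1) : V (x - 1) < 1 := by
  have h1 := vag_one hx
  rw [map_pow] at h1
  have h3 : V x = 1 := vla_eq_one_of_pow (n := 2) two_ne_zero h1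
  apply vla_lt_one_of_pow (n := 2)
  rw [← map_pow, show (x - 1) ^ 2 = (x ^ 2 - 1) - 2 * (x - 1) by ring]
  refine V.map_sub_lt hx ?_
  rw [map_mul]
  refine lt_of_le_of_lt (mul_le_of_le_one_right' (V.map_sub_le h3.le ?_)) h2
  rw [map_one]

omit [CharZero F] in
private theorem vag_8 : V (8 : F) = V 2 ^ 3 := by
  rw [← map_pow]
  norm_num

/-- half of an element of valuation at most `V 2 ^ 2` -/
private theorem vag_half {x : F} (h2 : V 2 < 1) {k : ℕ} (hk : 2 ≤ k) (hx : V x ≤ V 2 ^ k) :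
    V (x / 2) < 1 := by
  have h20 : V 2 ≠ 0 := (V.ne_zero_iff).2 two_ne_zero
  rw [map_div₀]
  obtain ⟨m, rfl⟩ := Nat.exists_eq_add_of_le hk
  have h3 : V x ≤ V 2 * V 2 := by
    refine hx.trans ?_
    rw [pow_add, pow_two]
    exact mul_le_of_le_one_right' (pow_le_one' h2.le m)
  calc V x / V 2 ≤ V 2 * V 2 / V 2 := by
        rw [div_eq_mul_inv, div_eq_mul_inv]
        exact mul_le_mul_left h3 _
    _ = V 2 := by rw [mul_div_assoc, div_self h20, mul_one]
    _ < 1 := h2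

omit [CharZero F] in
private theorem vag_lt8 (h2 : V 2 < 1) {x : F} (hx : V x ≤ V 8) : V x < 1 := by
  refine lt_of_le_of_lt hx ?_
  rw [vag_8]
  exact pow_lt_one₀ zero_le h2 (by norm_num)

end vag

private theorem vag_eta (H : Chn z u n) {k : ℕ} (hk : k + 2 ≤ n) :
    (z (k + 2) / 2) ^ 2 = z (k + 1) / (2 * (1 + z (k + 1) ^ 2)) := by
  have h1 := H.c1 (k + 1) (by omega)
  have h0 := H.ne1 (k := k + 1) (by omega)
  rw [eq_div_iff (mul_ne_zero two_ne_zero h0)]
  have h3 : z (k + 1 + 1) = z (k + 2) := rfl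
  rw [h3] at h1
  linear_combination (1 / 2) * h1

theorem valXA (h2 : V 2 < 1) (H : Chn z u n) (hv : ValI V z u n) {k : ℕ} (hk : k + 2 ≤ n) :
    V (xA z u k * (z (k + 2) / 2) ^ 2 - 1) < 1 := by
  have h0 := H.ne1 (k := k + 1) (by omega)
  have hz0 := H.zne (k + 1) (by omega)
  have hu0 := H.une (k + 1) (by omega)
  have vz := hv.vz (k + 1) (by omega)
  have vu := hv.vu (k + 1) (by omega) (by omega)
  have e1 : xA z u k * (z (k + 2) / 2) ^ 2 =
      ((1 + u (k + 1) ^ 2 + z (k + 1) ^ 2) / 2) / (u (k + 1) * (1 + z (k + 1) ^ 2)) := by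
    rw [vag_eta H hk, xA]
    field_simp
  rw [e1]
  refine vag_div ?_ (vag_mul (vag_sq h2 (vag_lt8 h2 vu)) ?_)
  · rw [show (1 + u (k + 1) ^ 2 + z (k + 1) ^ 2) / 2 - 1 =
      (u (k + 1) ^ 2 - 1) / 2 + z (k + 1) ^ 2 / 2 by ring]
    refine V.map_add_lt ?_ ?_
    · exact vag_half h2 (k := 3) (by norm_num) (by rw [← vag_8]; exact vu)
    · exact vag_half h2 (k := 2) le_rfl (by rw [map_pow, vz])
  · rw [add_sub_cancel_left, map_pow, vz]
    exact pow_lt_one₀ zero_le h2 (by norm_num)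

theorem valXD (h2 : V 2 < 1) (H : Chn z u n) (hv : ValI V z u n) {k : ℕ} (hk : k + 2 ≤ n) :
    V (xD z u k * (z (k + 2) / 2) ^ 2 - 1) < 1 := by
  have h0 := H.ne1 (k := k + 1) (by omega)
  have hz0 := H.zne (k + 1) (by omega)
  have vz := hv.vz (k + 1) (by omega)
  have vu := hv.vu (k + 1) (by omega) (by omega)
  have e1 : xD z u k * (z (k + 2) / 2) ^ 2 = u (k + 1) ^ 2 / (1 + z (k + 1) ^ 2) := by
    rw [vag_eta H hk, xD]
    field_simp
  rw [e1]
  refine vag_div (vag_lt8 h2 vu) ?_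
  rw [add_sub_cancel_left, map_pow, vz]
  exact pow_lt_one₀ zero_le h2 (by norm_num)

private theorem vag_half1 (H : Wdata K F p h α W W') (hV : Dya K V h α) (c : A) :
    V ((1 + W c ^ 2) / 2 - 1) < 1 := by
  rw [show (1 + W c ^ 2) / 2 - 1 = (W c ^ 2 - 1) / 2 by ring]
  exact vag_half hV.two (k := 3) (by norm_num) (by rw [← vag_8]; exact (val_W H hV c).2.2.2.le)

private theorem vag_W (H : Wdata K F p h α W W') (hV : Dya K V h α) (c : A) :
    V (W c - 1) < 1 :=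
  vag_sq hV.two (vag_lt8 hV.two (val_W H hV c).2.2.2.le)

theorem valDirA (H : Wdata K F p h α W W') (hV : Dya K V h α)
    (hrel : ∀ c, W' (p * c) * (1 + W c ^ 2) = W' c ^ 2) (c : A) :
    V (xA (fun k => W (p ^ k * c)) (fun k => W' (p ^ k * c)) 0 * (W' c / 2) ^ 2 - 1) < 1 := by
  have hz0 := H.ne (p * c)
  have hu0 := H.ne' (p * c)
  have e1 : xA (fun k => W (p ^ k * c)) (fun k => W' (p ^ k * c)) 0 * (W' c / 2) ^ 2 =
      ((1 + W' (p * c) ^ 2 + W (p * c) ^ 2) / 2) * ((1 + W c ^ 2) / 2) / W (p * c) := by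
    simp only [xA, zero_add, pow_one]
    rw [div_pow, ← hrel c]
    field_simp
  rw [e1]
  refine vag_div (vag_mul ?_ (vag_half1 H hV c)) (vag_W H hV _)
  rw [show (1 + W' (p * c) ^ 2 + W (p * c) ^ 2) / 2 - 1 =
      (W (p * c) ^ 2 - 1) / 2 + W' (p * c) ^ 2 / 2 by ring]
  refine V.map_add_lt ?_ ?_
  · exact vag_half hV.two (k := 3) (by norm_num)
      (by rw [← vag_8]; exact (val_W H hV (p * c)).2.2.2.le)
  · exact vag_half hV.two (k := 2) le_rfl (by rw [map_pow, (val_W H hV (p * c)).2.2.1])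

theorem valDirC (H : Wdata K F p h α W W') (hV : Dya K V h α)
    (hrel : ∀ c, W' (p * c) * (1 + W c ^ 2) = W' c ^ 2) (c : A) :
    V (xC (fun k => W (p ^ k * c)) (fun k => W' (p ^ k * c)) 0 * (W' c / 2) ^ 2 - 1) < 1 := by
  have hz0 := H.ne (p * c)
  have hu0 := H.ne' (p * c)
  have e1 : xC (fun k => W (p ^ k * c)) (fun k => W' (p ^ k * c)) 0 * (W' c / 2) ^ 2 =
      ((1 + W c ^ 2) / 2) / W (p * c) := by
    simp only [xC, zero_add, pow_one]
    rw [div_pow, ← hrel c]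
    field_simp
  rw [e1]
  exact vag_div (vag_half1 H hV c) (vag_W H hV _)

private theorem vag_half2 (H : Wdata K F p h α W W') (hV : Dya K V h α) (c : A) :
    V ((1 + W c) / 2 - 1) < 1 := by
  have h4 : V (W c - 1) ≤ V 2 ^ 2 := by
    have e1 : W c - 1 = (W (p * c) ^ 2 - 1) * ((1 + W c ^ 2) / 2) + (W c ^ 2 - 1) / 2 := by
      linear_combination (-1 / 2) * H.rec1 c
    have h20 : V 2 ≠ 0 := (V.ne_zero_iff).2 two_ne_zero
    rw [e1]
    refine V.map_add_le ?_ ?_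
    · rw [map_mul, (val_W H hV _).2.2.2, vag_one (vag_half1 H hV c), mul_one, vag_8]
      exact pow_le_pow_right_of_le_one' hV.two.le (by norm_num)
    · rw [map_div₀, (val_W H hV _).2.2.2, vag_8, pow_succ, mul_div_assoc, div_self h20, mul_one]
  rw [show (1 + W c) / 2 - 1 = (W c - 1) / 2 by ring]
  exact vag_half hV.two (k := 2) le_rfl h4

theorem valDirE (H : Wdata K F p h α W W') (hV : Dya K V h α)
    (hrel : ∀ c, W' (p * c) * (1 + W c ^ 2) = W' c ^ 2) (c : A) :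
    V (xE (fun k => W (p ^ k * c)) 0 * (W' (p * c) / 2) ^ 2 - 1) < 1 := by
  have a1 := vag_half1 H hV c
  have a2 := vag_half2 H hV c
  have b1 := vag_half1 H hV (p * c)
  have b2 := vag_half2 H hV (p * c)
  have f1 := H.four c
  have f2 := H.four (p * c)
  have hr := hrel c
  have n1 : 1 + W c ^ 2 ≠ 0 := fun h0 => vag_ne a1 (by rw [h0, zero_div])
  have n2 : 1 + W c ≠ 0 := fun h0 => vag_ne a2 (by rw [h0, zero_div])
  have n3 : 1 - W (p * c) ≠ 0 := by
    intro h0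
    have h1 : W' (p * c) ^ 4 = 0 := by
      have : W (p * c) = 1 := by linear_combination -h0
      rw [this] at f2
      linear_combination f2
    exact pow_ne_zero 4 (H.ne' (p * c)) h1
  have hc3 : W' (p * c) ^ 2 * (1 + W c ^ 2) = 1 - W c ^ 2 := by
    apply mul_right_cancel₀ n1
    linear_combination (W' (p * c) * (1 + W c ^ 2) + W' c ^ 2) * hr + f1
  have e1 : xE (fun k => W (p ^ k * c)) 0 * (W' (p * c) / 2) ^ 2 =
      W (p * c) * ((1 + W c ^ 2) / 2) * (((1 + W (p * c)) / 2) * ((1 + W (p * c) ^ 2) / 2)) /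
        ((1 + W c) / 2) := by
    simp only [xE, zero_add, pow_one, pow_zero, one_mul]
    rw [div_mul_eq_mul_div, div_eq_div_iff n3 (div_ne_zero n2 two_ne_zero)]
    linear_combination (-(W (p * c) * W' (p * c) ^ 2) / 8) * hc3 +
      (W (p * c) * (1 + W c ^ 2) / 8) * f2
  rw [e1]
  exact vag_div (vag_mul (vag_mul (vag_W H hV _) a1) (vag_mul b2 b1)) a2

end Pool.Agent.Work.MP_787500_nt.GO
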