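import Mathlib
import Pool.Agent.Work.MP_787500_nt.GO.Basic
import Pool.Agent.Work.MP_787500_nt.GO.VaD
import Pool.Agent.Work.MP_787500_nt.GO.VaE
import Pool.Agent.Work.MP_787500_nt.GO.VaF
import Pool.Agent.Work.MP_787500_nt.GO.VaG
import Pool.Agent.Work.MP_787500_nt.GO.ChB

/-!
# Module TrG: the trace of a point has infinite order  [size S-M]

`nt_tp`: `nt_sum` with `P g = mp E g Q = (g x, g y)` (`mp_some`), `η g = g η`.
`galXA`, `galXD`: `map_chain`: `g (xA Z U k) = xA (g ∘ Z) (g ∘ U) k` (`map_div₀`, ...), and `g ∘ Z`, `g ∘ U` are the chains `Zs`, `Us` of the class `c` (with `W (p * c)`): `chn_agm`, `valI_agm`, `valXA`. `V (g (Z (k+2)/2)) = 1`: `ValI.vz`.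
The chains of the layer itself: `chn_lay`, `valI_lay` (`c = 1`, `p * 1 = p`).
-/

set_option autoImplicit false

namespace Pool.Agent.Work.MP_787500_nt.GO

open WithZero IsDedekindDomain NumberField WeierstrassCurve WeierstrassCurve.Affine
open Pool.Agent.Work.MP_787500_nt.HC

universe u

variable {K M A : Type*} [Field K] [CharZero K] [Field M] [CharZero M] [Algebra K M]
variable [FiniteDimensional K M] [CommGroup A] [Finite A]
variable {p : A} {h : ℕ} {α : K} {W W' : A → M} {i : M} {a b u : ℕ → M}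
variable {n : ℕ} {C : Finset (M ≃ₐ[K] M)} {σ ε : M ≃ₐ[K] M} {V : Valuation M ℤᵐ⁰}

open scoped Classical in
omit [CharZero K] [FiniteDimensional K M] in
theorem nt_tp (E : WeierstrassCurve.Affine K) {e2 e3 : M} (hT : TwoTors (E⁄M) 0 e2 e3)
    (h2 : V 2 < 1) (v2 : V e2 < 1) (v3 : V e3 < 1) (C : Finset (M ≃ₐ[K] M)) {x y η : M}
    (hn : (E⁄M).Nonsingular x y) (hη : ∀ g ∈ C, V (g η) = 1)
    (hx : ∀ g ∈ C, V (g x * g η ^ 2 - 1) < 1) (hs : V (∑ g ∈ C, g η) = 1) :
    Nt (tp E C (Point.some x y hn)) := by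
  refine nt_sum hT h2 v2 v3 C (fun g => mp E g (Point.some x y hn)) (fun g => g x) (fun g => g η)
    (fun g _ => ?_) hη hx hs
  obtain ⟨hn', e⟩ := mp_some E g hn
  exact ⟨g y, hn', e⟩

omit [FiniteDimensional K M] [Finite A] in
theorem chn_lay (L : Lay K p h α W W' i a b u n C σ ε) :
    Chn (ZL W W' i a b) (UL p W i u) n := by
  have h1 := chn_agm L.data L.seq
  rw [mul_one] at h1
  exact h1

omit [FiniteDimensional K M] in
theorem valI_lay (L : Lay K p h α W W' i a b u n C σ ε) (hV : Dya K V h α) :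
    ValI V (ZL W W' i a b) (UL p W i u) n := by
  have h1 := valI_agm L.data hV L.seq
  rw [mul_one] at h1
  exact h1

theorem galXA (L : Lay K p h α W W' i a b u n C σ ε) (hV : Dya K V h α) {k : ℕ}
    (hk : k + 2 ≤ n) (g : M ≃ₐ[K] M) :
    V (g (ZL W W' i a b (k + 2) / 2)) = 1 ∧
      V (g (xA (ZL W W' i a b) (UL p W i u) k) * g (ZL W W' i a b (k + 2) / 2) ^ 2 - 1) < 1 := by
  obtain ⟨c, hS, hZ, hU⟩ := map_chain L g
  have hc := chn_agm L.data hS
  have hv := valI_agm L.data hV hS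
  have h20 : V (2 : M) ≠ 0 := (Valuation.ne_zero_iff _).2 two_ne_zero
  have e1 : g (ZL W W' i a b (k + 2) / 2) =
      Zs (W c) (W' c) (g i) (g ∘ a) (g ∘ b) (k + 2) / 2 := by
    rw [map_div₀, hZ, map_ofNat]
  have e2 : g (xA (ZL W W' i a b) (UL p W i u) k) =
      xA (Zs (W c) (W' c) (g i) (g ∘ a) (g ∘ b)) (Us (g i) (W (p * c)) (g ∘ u)) k := by
    unfold xA
    rw [map_div₀, map_add, map_add, map_mul, map_pow, map_pow, map_one, hZ, hU]
  refine ⟨?_, ?_⟩
  · rw [e1, map_div₀, hv.vz (k + 2) hk, div_self h20]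
  · rw [e1, e2]
    exact valXA hV.two hc hv hk

theorem galXD (L : Lay K p h α W W' i a b u n C σ ε) (hV : Dya K V h α) {k : ℕ}
    (hk : k + 2 ≤ n) (g : M ≃ₐ[K] M) :
    V (g (xD (ZL W W' i a b) (UL p W i u) k) * g (ZL W W' i a b (k + 2) / 2) ^ 2 - 1) < 1 := by
  obtain ⟨c, hS, hZ, hU⟩ := map_chain L g
  have hc := chn_agm L.data hS
  have hv := valI_agm L.data hV hS
  have e1 : g (ZL W W' i a b (k + 2) / 2) =
      Zs (W c) (W' c) (g i) (g ∘ a) (g ∘ b) (k + 2) / 2 := by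
    rw [map_div₀, hZ, map_ofNat]
  have e2 : g (xD (ZL W W' i a b) (UL p W i u) k) =
      xD (Zs (W c) (W' c) (g i) (g ∘ a) (g ∘ b)) (Us (g i) (W (p * c)) (g ∘ u)) k := by
    unfold xD
    rw [map_div₀, map_mul, map_pow, map_ofNat, hZ, hU]
  rw [e1, e2]
  exact valXD hV.two hc hv hk

end Pool.Agent.Work.MP_787500_nt.GO
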