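import Mathlib
import Pool.Agent.Work.MP_787500_nt.GO.Basic

/-!
# Module RtA: the elements `i`, `r`, `√2` of a layer  [size S-M]

`r = b 1/(W W')`: `b 1 ^2 = a 0 b 0 = -i W^2 W'^2`, so `r^2 = -i`, `r^4 = -1`, `(r + r⁻¹)^2 = -i + 2 + i = 2` (`r⁻² = i`). `i = (i r)^2`, `-1 = i^2`.
`σ r = -r` (`L.sigb 0`, `σ = ρ^h` fixes the `W`), `ε r = r⁻¹` (`L.epsr`).
`g ∈ C`, `g^h = 1`, `h` odd: `g i = ± i`; if `g i = -i` then `g^h i = -i`, a contradiction; the same for `r` (`(g r)^2 = -i`, `g r = ± r`).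
-/

set_option autoImplicit false

namespace Pool.Agent.Work.MP_787500_nt.GO

open WithZero IsDedekindDomain NumberField WeierstrassCurve WeierstrassCurve.Affine
open Pool.Agent.Work.MP_787500_nt.HC

universe u

variable {K M A : Type*} [Field K] [CharZero K] [Field M] [Algebra K M] [CommGroup A]
variable {p : A} {h : ℕ} {α : K} {W W' : A → M} {i : M} {a b u : ℕ → M}
variable {n : ℕ} {C : Finset (M ≃ₐ[K] M)} {σ ε : M ≃ₐ[K] M}

private theorem pow_neg_val (g : M ≃ₐ[K] M) {x : M} (hx : g x = -x) (k : ℕ) :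
    (g ^ k) x = (-1) ^ k * x := by
  induction k with
  | zero => rw [pow_zero, pow_zero, one_mul]; rfl
  | succ k ih =>
    rw [pow_succ' g, AlgEquiv.mul_apply, ih, map_mul, map_pow, map_neg, map_one, hx, pow_succ]
    ring

private theorem pow_fix_val (g : M ≃ₐ[K] M) {x : M} (hx : g x = x) (k : ℕ) :
    (g ^ k) x = x := by
  induction k with
  | zero => rw [pow_zero]; rfl
  | succ k ih => rw [pow_succ' g, AlgEquiv.mul_apply, ih, hx]

private theorem odd_fix (g : M ≃ₐ[K] M) (hh : Odd h) (hg : g ^ h = 1) {x : M} (hx0 : x ≠ 0)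
    (hx : g x = x ∨ g x = -x) : g x = x := by
  have : CharZero M := charZero_of_injective_algebraMap (algebraMap K M).injective
  rcases hx with hx | hx
  · exact hx
  · exfalso
    have h1 := pow_neg_val g hx h
    rw [hg, hh.neg_one_pow] at h1
    have h2 : (1 : M ≃ₐ[K] M) x = x := rfl
    rw [h2] at h1
    apply hx0
    have h3 : (2 : M) * x = 0 := by linear_combination h1
    rcases mul_eq_zero.1 h3 with h4 | h4
    · exact absurd h4 two_ne_zero
    · exact h4

theorem rr_sq (L : Lay K p h α W W' i a b u n C σ ε) : rr W W' b ^ 2 = -i := by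
  have h1 := L.seq.bs 0 (by have := L.pos; omega)
  rw [zero_add, L.seq.a0, L.seq.b0] at h1
  have hw := L.data.ne 1
  have hw' := L.data.ne' 1
  unfold rr
  rw [div_pow, h1]
  field_simp

private theorem i_ne (L : Lay K p h α W W' i a b u n C σ ε) : i ≠ 0 := by
  rintro rfl
  have h1 := L.seq.i2
  rw [zero_pow two_ne_zero] at h1
  have h2 : (1 : M) = 0 := by linear_combination h1
  exact one_ne_zero h2

private theorem rr_ne (L : Lay K p h α W W' i a b u n C σ ε) : rr W W' b ≠ 0 := by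
  intro h0
  have h1 := rr_sq L
  rw [h0, zero_pow two_ne_zero] at h1
  exact i_ne L (by linear_combination h1)

theorem r2_sq (L : Lay K p h α W W' i a b u n C σ ε) : r2 W W' b ^ 2 = 2 := by
  have h1 := rr_sq L
  have h2 := L.seq.i2
  have h3 := rr_ne L
  have h4 : (rr W W' b)⁻¹ ^ 2 = i := by
    rw [inv_pow, h1]
    apply inv_eq_of_mul_eq_one_right
    linear_combination -h2
  unfold r2
  have h5 : rr W W' b * (rr W W' b)⁻¹ = 1 := mul_inv_cancel₀ h3
  linear_combination h1 + h4 + 2 * h5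

theorem sq_i (L : Lay K p h α W W' i a b u n C σ ε) : IsSquare i := by
  refine ⟨i * rr W W' b, ?_⟩
  have h1 := rr_sq L
  have h2 := L.seq.i2
  linear_combination (-i ^ 2) * h1 + i * h2

theorem sq_neg (L : Lay K p h α W W' i a b u n C σ ε) : IsSquare (-1 : M) := by
  refine ⟨i, ?_⟩
  have h2 := L.seq.i2
  linear_combination -h2

theorem sq_two (L : Lay K p h α W W' i a b u n C σ ε) : IsSquare (2 : M) := by
  refine ⟨r2 W W' b, ?_⟩
  have h2 := r2_sq L
  linear_combination -h2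

private theorem sig_rr (L : Lay K p h α W W' i a b u n C σ ε) : σ (rr W W' b) = -rr W W' b := by
  have h1 := (L.sigb 0 (by have := L.pos; omega)).1
  rw [pow_zero, pow_one, zero_add] at h1
  obtain ⟨ρ, hρ⟩ := L.sig
  obtain ⟨h2, h3⟩ := L.fixW ρ 1
  rw [← hρ] at h2 h3
  unfold rr
  rw [map_div₀, map_mul, h1, h2, h3, neg_div]

theorem sig_r2 (L : Lay K p h α W W' i a b u n C σ ε) : σ (r2 W W' b) = -r2 W W' b := by
  unfold r2
  rw [map_add, map_inv₀, sig_rr L, inv_neg, neg_add]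

theorem eps_r2 (L : Lay K p h α W W' i a b u n C σ ε) : ε (r2 W W' b) = r2 W W' b := by
  have h1 : ε (rr W W' b) = (rr W W' b)⁻¹ := L.epsr
  unfold r2
  rw [map_add, map_inv₀, h1, inv_inv, add_comm]

theorem memC_fix (L : Lay K p h α W W' i a b u n C σ ε) {g : M ≃ₐ[K] M} (hg : g ∈ C) :
    g i = i ∧ g (rr W W' b) = rr W W' b ∧ g (r2 W W' b) = r2 W W' b := by
  have hg1 := (L.memC g).1 hg
  have h1 : g i = i := by
    refine odd_fix g L.odd hg1 (i_ne L) ?_
    have h2 : g i ^ 2 = i ^ 2 := by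
      rw [← map_pow, L.seq.i2, map_neg, map_one]
    exact sq_eq_sq_iff_eq_or_eq_neg.1 h2
  have h3 : g (rr W W' b) = rr W W' b := by
    refine odd_fix g L.odd hg1 (rr_ne L) ?_
    have h2 : g (rr W W' b) ^ 2 = rr W W' b ^ 2 := by
      rw [← map_pow, rr_sq L, map_neg, h1]
    exact sq_eq_sq_iff_eq_or_eq_neg.1 h2
  refine ⟨h1, h3, ?_⟩
  unfold r2
  rw [map_add, map_inv₀, h3]

/-- `σ ^ (2 ^ m)` for `1 ≤ m` fixes `i` and `√2` -/
theorem sig_pow_fix (L : Lay K p h α W W' i a b u n C σ ε) {m : ℕ} (hm : 1 ≤ m) :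
    (σ ^ 2 ^ m) i = i ∧ (σ ^ 2 ^ m) (r2 W W' b) = r2 W W' b := by
  refine ⟨pow_fix_val σ L.sigi _, ?_⟩
  rw [pow_neg_val σ (sig_r2 L)]
  have h1 : Even (2 ^ m) := (Nat.even_pow.2 ⟨even_two, by omega⟩)
  rw [h1.neg_one_pow, one_mul]

end Pool.Agent.Work.MP_787500_nt.GO
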