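import Mathlib
import Pool.Agent.Work.MP_787500_nt.GO.Basic
import Pool.Agent.Work.MP_787500_nt.GO.ChB
import Pool.Agent.Work.MP_787500_nt.GO.RtA

/-!
# Module ZAct: the action on the sequences `Z`, `U`  [size M]

`ZL (k+1) = b (k+1)/a k`, `UL (k+1) = u k`. Let `γ = σ^(2^m)`, `m < n`: it fixes `i`, the `W`, `W'` (`σ = ρ^h`, `L.fixW`, powers), `b 0, .., b m`, so `a 0, .., a (m+1)` and `u 0, .., u (m+1)` (induction with
`as`, `us`, `a 0 = W^2`, `u 0 = -1/W`), and negates `b (m+1)`. `sigZ2`: `Z (m+2)^2 (1 + Z (m+1)^2) = 2 Z (m+1)` (`chn_agm`, `c1`), so `(γ Z (m+2))^2 = - Z (m+2)^2 = (i Z (m+2))^2`.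
`epsZ0`: `ε i = -i`, `ε` fixes `W`, `W'`. `epsZ1`: `Z 1 = b 1/a 0 = r W'/W`, `ε r = r⁻¹ = i r` (`r^2 = -i`).
-/

set_option autoImplicit false

namespace Pool.Agent.Work.MP_787500_nt.GO

open WithZero IsDedekindDomain NumberField WeierstrassCurve WeierstrassCurve.Affine
open Pool.Agent.Work.MP_787500_nt.HC

universe u

variable {K M A : Type*} [Field K] [CharZero K] [Field M] [Algebra K M] [CommGroup A]
variable {p : A} {h : ℕ} {α : K} {W W' : A → M} {i : M} {a b u : ℕ → M}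
variable {n : ℕ} {C : Finset (M ≃ₐ[K] M)} {σ ε : M ≃ₐ[K] M}

private theorem z_fixW (L : Lay K p h α W W' i a b u n C σ ε) (k : ℕ) (c : A) :
    (σ ^ k) (W c) = W c ∧ (σ ^ k) (W' c) = W' c := by
  obtain ⟨ρ, hρ⟩ := L.sig
  have h1 : σ ^ k = (ρ ^ k) ^ h := by rw [hρ, ← pow_mul, ← pow_mul, mul_comm]
  rw [h1]
  exact L.fixW _ c

private theorem z_fixe (L : Lay K p h α W W' i a b u n C σ ε) (c : A) :
    ε (W c) = W c ∧ ε (W' c) = W' c := by
  obtain ⟨ρ, hρ⟩ := L.eps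
  rw [hρ]
  exact L.fixW _ c

private theorem z_i (L : Lay K p h α W W' i a b u n C σ ε) (k : ℕ) : (σ ^ k) i = i := by
  induction k with
  | zero => rw [pow_zero]; rfl
  | succ k ih =>
    rw [pow_succ]
    show (σ ^ k) (σ i) = i
    rw [L.sigi, ih]

private theorem z_a (L : Lay K p h α W W' i a b u n C σ ε) {m : ℕ} (hm : m < n) :
    ∀ j ≤ m + 1, (σ ^ 2 ^ m) (a j) = a j := by
  intro j
  induction j with
  | zero =>
    intro _
    rw [L.seq.a0, map_pow, (z_fixW L _ 1).1]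
  | succ j ih =>
    intro hj
    rw [L.seq.as j (by omega), map_div₀, map_add, ih (by omega), (L.sigb m hm).2 j (by omega),
      map_ofNat]

private theorem z_u (L : Lay K p h α W W' i a b u n C σ ε) {m : ℕ} (hm : m < n) :
    ∀ j ≤ m + 1, (σ ^ 2 ^ m) (u j) = u j := by
  intro j
  induction j with
  | zero =>
    intro _
    rw [L.seq.u0, map_div₀, map_neg, map_one, (z_fixW L _ 1).1]
  | succ j ih =>
    intro hj
    rw [L.seq.us j (by omega), map_div₀, map_mul, map_mul, map_pow, ih (by omega),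
      z_a L hm j (by omega), z_a L hm (j + 1) hj, map_ofNat]

theorem sigZ (L : Lay K p h α W W' i a b u n C σ ε) {m : ℕ} (hm : m < n) :
    (σ ^ 2 ^ m) (ZL W W' i a b (m + 1)) = -ZL W W' i a b (m + 1) ∧
      (∀ j ≤ m, (σ ^ 2 ^ m) (ZL W W' i a b j) = ZL W W' i a b j) ∧
      ∀ j ≤ m + 2, (σ ^ 2 ^ m) (UL p W i u j) = UL p W i u j := by
  refine ⟨?_, ?_, ?_⟩
  · show (σ ^ 2 ^ m) (b (m + 1) / a m) = -(b (m + 1) / a m)
    rw [map_div₀, (L.sigb m hm).1, z_a L hm m (by omega), neg_div]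
  · intro j hj
    rcases j with _ | j
    · show (σ ^ 2 ^ m) (-i * W' 1 ^ 2 / (1 + W 1 ^ 2)) = -i * W' 1 ^ 2 / (1 + W 1 ^ 2)
      rw [map_div₀, map_mul, map_neg, map_pow, map_add, map_one, map_pow, z_i L,
        (z_fixW L _ 1).1, (z_fixW L _ 1).2]
    · show (σ ^ 2 ^ m) (b (j + 1) / a j) = b (j + 1) / a j
      rw [map_div₀, (L.sigb m hm).2 (j + 1) hj, z_a L hm j (by omega)]
  · intro j hj
    rcases j with _ | j
    · show (σ ^ 2 ^ m) (i * W p) = i * W p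
      rw [map_mul, z_i L, (z_fixW L _ p).1]
    · exact z_u L hm j (by omega)

theorem sigZ2 (L : Lay K p h α W W' i a b u n C σ ε) {m : ℕ} (hm : m + 2 ≤ n) :
    (σ ^ 2 ^ m) (ZL W W' i a b (m + 2)) = i * ZL W W' i a b (m + 2) ∨
      (σ ^ 2 ^ m) (ZL W W' i a b (m + 2)) = -i * ZL W W' i a b (m + 2) := by
  have hM : CharZero M := charZero_of_injective_algebraMap (algebraMap K M).injective
  have hC := (chn_agm L.data L.seq).c1 (m + 1) (by omega)
  have hz := (chn_agm L.data L.seq).zne (m + 1) (by omega)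
  change ZL W W' i a b (m + 1 + 1) ^ 2 * (1 + ZL W W' i a b (m + 1) ^ 2) =
    2 * ZL W W' i a b (m + 1) at hC
  change ZL W W' i a b (m + 1) ≠ 0 at hz
  have h1 := congrArg (fun x : M => (σ ^ 2 ^ m) x) hC
  rw [map_mul, map_pow, map_add, map_one, map_pow, map_mul, map_ofNat,
    (sigZ L (m := m) (by omega)).1, neg_sq, mul_neg, ← hC, ← neg_mul] at h1
  have h2 : 1 + ZL W W' i a b (m + 1) ^ 2 ≠ 0 := by
    intro h0
    rw [h0, mul_zero] at hC
    exact (mul_ne_zero two_ne_zero hz) hC.symm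
  have h3 := mul_right_cancel₀ h2 h1
  have h4 : (σ ^ 2 ^ m) (ZL W W' i a b (m + 2)) ^ 2 = (i * ZL W W' i a b (m + 2)) ^ 2 := by
    rw [mul_pow, L.seq.i2, neg_one_mul]
    exact h3
  rcases sq_eq_sq_iff_eq_or_eq_neg.1 h4 with h5 | h5
  · exact Or.inl h5
  · right
    rw [h5, neg_mul]

theorem epsZ0 (L : Lay K p h α W W' i a b u n C σ ε) :
    ε (ZL W W' i a b 0) = -ZL W W' i a b 0 := by
  show ε (-i * W' 1 ^ 2 / (1 + W 1 ^ 2)) = -(-i * W' 1 ^ 2 / (1 + W 1 ^ 2))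
  rw [map_div₀, map_mul, map_neg, map_pow, map_add, map_one, map_pow, L.epsi,
    (z_fixe L 1).1, (z_fixe L 1).2]
  ring

theorem epsZ1 (L : Lay K p h α W W' i a b u n C σ ε) :
    ε (ZL W W' i a b 1) = i * ZL W W' i a b 1 := by
  have hW := L.seq.w0
  have hW' := L.seq.w0'
  have hr := rr_sq L
  have hr' : (rr W W' b)⁻¹ = i * rr W W' b := by
    have h1 : rr W W' b * (i * rr W W' b) = 1 := by
      linear_combination i * hr - L.seq.i2
    exact inv_eq_of_mul_eq_one_right h1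
  have h2 : ZL W W' i a b 1 = rr W W' b * (W' 1 / W 1) := by
    show b 1 / a 0 = b 1 / (W 1 * W' 1) * (W' 1 / W 1)
    rw [L.seq.a0]
    field_simp
  have h3 : ε (rr W W' b) = (rr W W' b)⁻¹ := L.epsr
  rw [h2, map_mul, map_div₀, h3, (z_fixe L 1).1, (z_fixe L 1).2, hr']
  ring

end Pool.Agent.Work.MP_787500_nt.GO
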