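import Mathlib
import Pool.Agent.Work.MP_787500_nt.GO.Basic
import Pool.Agent.Work.MP_787500_nt.GO.TrG
import Pool.Agent.Work.MP_787500_nt.GO.PtA
import Pool.Agent.Work.MP_787500_nt.GO.StA
import Pool.Agent.Work.MP_787500_nt.GO.JaA
import Pool.Agent.Work.MP_787500_nt.GO.JaB
import Pool.Agent.Work.MP_787500_nt.GO.ZAct

/-!
# Module ApA: the steps for `y ^ 2 = x ^ 3 - 2 x` and `y ^ 2 = x ^ 3 + 4 x ^ 2 + 2 x`  [size M]

`Z = ZL`, `U = UL`, `chn_lay`. Point `Q = (xA Z U k, yA Z U k)` (`eqA`), resp. `(xA Z U k, yB Z U 1 k)` (`eqB`), nonsingular: `TwoTors ((cv ..)⁄M) 0 e2 e3` by `cv_twoTors'` (`e = ± √2`, resp. `-2 ± √2`, `√2 = r2`), `V (√2) < 1` (`V (√2)^2 = V 2`),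
`TwoTors.nonsingular_of_eq`. `R = tp E C Q` has infinite order: `nt_tp` with `η = Z (k+2)/2`, `galXA`, `sumZ`. Fixed by `C`: `tp_fix`. `τ = σ^(2^(k+1))` fixes `Z (k+1)`, `Z k`, `U (k+1)`, `U k` and negates `Z (k+2)` (`sigZ`), so `τ Q = -Q` (`om` changes sign;
`-(x, y) = (x, -y)`), `τ R = -R` (`mp_tp`, `tp_neg`). Then `stepPts_of_J` with `κ = i` (`hasJ_i`, `c = -2`, `e = √2`), resp. `κ = i √2` (`hasJ_two`); `memC_fix`, `sig_pow_fix`, `L.epsi`, `eps_r2`.
-/

set_option autoImplicit false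

namespace Pool.Agent.Work.MP_787500_nt.GO

open WithZero IsDedekindDomain NumberField WeierstrassCurve WeierstrassCurve.Affine
open Pool.Agent.Work.MP_787500_nt.HC

universe u

variable {K M A : Type*} [Field K] [CharZero K] [Field M] [CharZero M] [Algebra K M]
variable [FiniteDimensional K M] [CommGroup A] [Finite A]
variable {p : A} {h : ℕ} {α : K} {W W' : A → M} {i : M} {a b u : ℕ → M}
variable {n : ℕ} {C : Finset (M ≃ₐ[K] M)} {σ ε : M ≃ₐ[K] M} {V : Valuation M ℤᵐ⁰}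

open scoped Classical in
private theorem apa_step {k : ℕ} (L : Lay K p h α W W' i a b u (k + 2) C σ ε)
    (hV : Dya K V h α) (E : WeierstrassCurve.Affine K) {e2 e3 κ y : M}
    (hT : TwoTors (E⁄M) 0 e2 e3) (v2 : V e2 < 1) (v3 : V e3 < 1) (hJ : HasJ E κ)
    (hC : ∀ g ∈ C, g κ = κ) (hτ : (σ ^ 2 ^ (k + 1)) κ = κ) (hε : ε κ = -κ)
    (heq : y ^ 2 = (xA (ZL W W' i a b) (UL p W i u) k - 0) *
      (xA (ZL W W' i a b) (UL p W i u) k - e2) * (xA (ZL W W' i a b) (UL p W i u) k - e3))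
    (hy : (σ ^ 2 ^ (k + 1)) y = -y) : StepPts E C σ ε (k + 1) := by
  have hn := hT.nonsingular_of_eq heq
  have hR : Nt (tp E C (Point.some _ _ hn)) :=
    nt_tp E hT hV.two v2 v3 C hn (η := ZL W W' i a b (k + 2) / 2)
      (fun g _ => (galXA L hV le_rfl g).1) (fun g _ => (galXA L hV le_rfl g).2)
      (sumZ L hV (k := k + 1) (by omega))
  obtain ⟨-, hz, hu⟩ := sigZ L (m := k + 1) (by omega)
  have hx : (σ ^ 2 ^ (k + 1)) (xA (ZL W W' i a b) (UL p W i u) k) =
      xA (ZL W W' i a b) (UL p W i u) k := by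
    rw [xA, map_div₀, map_add, map_add, map_mul, map_pow, map_pow, map_one,
      hz (k + 1) le_rfl, hu (k + 1) (by omega)]
  have hQ : mp E (σ ^ 2 ^ (k + 1)) (Point.some _ _ hn) = -(Point.some _ _ hn) := by
    obtain ⟨hn', e⟩ := mp_some E (σ ^ 2 ^ (k + 1)) hn
    rw [e, Point.neg_some]
    have h3 : (E⁄M).negY (xA (ZL W W' i a b) (UL p W i u) k) y = -y := by
      rw [negY, hT.a1, hT.a3]
      ring
    simp only [hx, hy, h3]
  refine stepPts_of_J L E hJ hC hτ hε hR (fun g hg => tp_fix E C L.comm L.memC hg _) ?_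
  rw [mp_tp L.comm, hQ, tp_neg]

private theorem apa_om {k : ℕ} (L : Lay K p h α W W' i a b u (k + 2) C σ ε) :
    (σ ^ 2 ^ (k + 1)) (om (ZL W W' i a b) (UL p W i u) k) =
      -om (ZL W W' i a b) (UL p W i u) k := by
  obtain ⟨h1, hz, hu⟩ := sigZ L (m := k + 1) (by omega)
  rw [om, map_div₀, map_mul, map_mul, map_add, map_one, hz k (by omega), hu (k + 1) (by omega),
    hu k (by omega)]
  rw [show k + 2 = k + 1 + 1 from rfl, h1]
  ring

private theorem apa_v (L : Lay K p h α W W' i a b u n C σ ε) (h2 : V 2 < 1) :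
    V (r2 W W' b) < 1 := by
  by_contra hc
  push Not at hc
  have h1 : V (r2 W W' b) ^ 2 = V 2 := by rw [← map_pow, r2_sq L]
  have h3 := one_le_pow₀ (n := 2) hc
  rw [h1] at h3
  exact absurd h2 (not_lt.2 h3)

private theorem apa_ne (L : Lay K p h α W W' i a b u n C σ ε) : r2 W W' b ≠ 0 := by
  intro h0
  have h1 := r2_sq L
  rw [h0] at h1
  norm_num at h1

theorem stepA {k : ℕ} (L : Lay K p h α W W' i a b u (k + 2) C σ ε) (hV : Dya K V h α) :
    StepPts (cv (0 : K) (-2)) C σ ε (k + 1) := by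
  have hr := r2_sq L
  have hr0 := apa_ne L
  have hvr := apa_v L hV.two
  have hT : TwoTors ((cv (0 : K) (-2))⁄M) 0 (r2 W W' b) (-r2 W W' b) := by
    refine cv_twoTors' ?_ ?_ (by norm_num) ?_
    · rw [map_zero]
      ring
    · rw [map_neg, map_ofNat]
      linear_combination -hr
    · intro h1
      apply hr0
      have h3 : 2 * r2 W W' b = 0 := by linear_combination h1
      exact (mul_eq_zero.1 h3).resolve_left two_ne_zero
  refine apa_step (y := yA (ZL W W' i a b) (UL p W i u) k) L hV (cv (0 : K) (-2)) hT hvr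
    (by rwa [Valuation.map_neg])
    (hasJ_i (c := (-2 : K)) (by norm_num) L.seq.i2 (e := r2 W W' b) ?_)
    (fun g hg => (memC_fix L hg).1) (sig_pow_fix L (by omega)).1 L.epsi ?_ ?_
  · rw [hr, map_neg, map_ofNat, neg_neg]
  · have h4 := eqA (chn_lay L) (k := k) le_rfl
    linear_combination h4 + xA (ZL W W' i a b) (UL p W i u) k * hr
  · obtain ⟨-, hz, hu⟩ := sigZ L (m := k + 1) (by omega)
    rw [yA, map_div₀, map_mul, map_pow, map_mul, map_add, map_add, map_pow, map_pow, map_one,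
      apa_om L, hz (k + 1) le_rfl, hu (k + 1) (by omega)]
    ring

theorem stepB {k : ℕ} (L : Lay K p h α W W' i a b u (k + 2) C σ ε) (hV : Dya K V h α) :
    StepPts (cv (4 : K) 2) C σ ε (k + 1) := by
  have hr := r2_sq L
  have hr0 := apa_ne L
  have hvr := apa_v L hV.two
  have hv2 : V (-2 : M) < 1 := by
    rw [Valuation.map_neg]
    exact hV.two
  have hT : TwoTors ((cv (4 : K) 2)⁄M) 0 (-2 + r2 W W' b) (-2 - r2 W W' b) := by
    refine cv_twoTors' ?_ ?_ (by norm_num) ?_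
    · rw [map_ofNat]
      ring
    · rw [map_ofNat]
      linear_combination -hr
    · intro h1
      apply hr0
      have h3 : 2 * r2 W W' b = 0 := by linear_combination h1
      exact (mul_eq_zero.1 h3).resolve_left two_ne_zero
  refine apa_step (y := yB (ZL W W' i a b) (UL p W i u) 1 k) L hV (cv (4 : K) 2) hT
    (V.map_add_lt hv2 hvr) ?_ (hasJ_two L.seq.i2 hr)
    (fun g hg => by rw [map_mul, (memC_fix L hg).1, (memC_fix L hg).2.2]) ?_ ?_ ?_ ?_
  · rw [sub_eq_add_neg]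
    exact V.map_add_lt hv2 (by rwa [Valuation.map_neg])
  · rw [map_mul, (sig_pow_fix L (by omega)).1, (sig_pow_fix L (by omega)).2]
  · rw [map_mul, L.epsi, eps_r2 L]
    ring
  · have h4 := eqB (chn_lay L) (k := k) le_rfl (t := (1 : M)) (by ring)
    linear_combination h4 + xA (ZL W W' i a b) (UL p W i u) k * hr
  · obtain ⟨-, hz, hu⟩ := sigZ L (m := k + 1) (by omega)
    rw [yB, map_div₀, map_mul, map_mul, map_pow, map_mul, map_add, map_add, map_add, map_mul,
      map_pow, map_pow, map_one, apa_om L, hz (k + 1) le_rfl, hu (k + 1) (by omega)]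
    ring

end Pool.Agent.Work.MP_787500_nt.GO
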