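import Mathlib
import Pool.Agent.Work.MP_787500_nt.GO.Basic
import Pool.Agent.Work.MP_787500_nt.HC.VlB

/-!
# Module ChA: the relation between `W'` and `W`  [size S]

`V (W c ^ 2 - 1) = V 8`, `V (W' c) = V 2` (`HC.val_W`). Let `x = W c`, `κ = W' (p c)`, `ρ = (1 - x^2)/(1 + x^2)` (`1 + x^2 ≠ 0` from
`H.rec1` and `H.ne`). `κ^4 = 1 - W (p c)^4 = ρ^2` (`H.four`, `H.rec1`), so `κ^2 = ρ` or `κ^2 = -ρ`. In the first case `1 + κ^2 = 2/(1 + x^2)` and
`H.rec2`: `W' c ^2 * (1 + κ^2) = 2 κ` gives the claim. In the second case `1 + κ^2 = 2 x^2/(1 + x^2)`, `W' c ^2 x^2 = κ (1 + x^2)`; squaring,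
`(1 - x^4) x^4 = κ^2 (1+x^2)^2 = -(1 - x^4)`, so (`W' c ≠ 0`) `x^4 = -1`; but `V (x^4 - 1) < V 2` (`(x^2-1)(x^2+1)`), so `V (x^4 + 1) = V 2 ≠ 0`.
-/

set_option autoImplicit false

namespace Pool.Agent.Work.MP_787500_nt.GO

open WithZero IsDedekindDomain NumberField WeierstrassCurve WeierstrassCurve.Affine
open Pool.Agent.Work.MP_787500_nt.HC

universe u

variable {K A F : Type*} [Field K] [CommGroup A] [Finite A] [Field F] [CharZero F] [Algebra K F]
variable {p : A} {h : ℕ} {α : K} {W W' : A → F} {V : Valuation F ℤᵐ⁰}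

theorem one_add_ne (H : Wdata K F p h α W W') (c : A) : 1 + W c ^ 2 ≠ 0 := by
  intro h0
  have h1 := H.rec1 c
  rw [h0, mul_zero] at h1
  exact mul_ne_zero two_ne_zero (H.ne c) h1.symm

theorem wrel (H : Wdata K F p h α W W') (hV : Dya K V h α) (c : A) :
    W' (p * c) * (1 + W c ^ 2) = W' c ^ 2 := by
  have h1 := H.rec1 c
  have h2 := H.rec2 c
  have h4 := H.four c
  have h4' := H.four (p * c)
  have hne' := H.ne' c
  obtain ⟨-, hv2, -, hv4⟩ := val_W H hV c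
  have h20 : (2 : F) ≠ 0 := two_ne_zero
  have hsq : (W' (p * c) ^ 2 * (1 + W c ^ 2)) ^ 2 = (1 - W c ^ 2) ^ 2 := by
    linear_combination (1 + W c ^ 2) ^ 2 * h4' -
      (W (p * c) ^ 2 * (1 + W c ^ 2) + 2 * W c) * h1
  rcases sq_eq_sq_iff_eq_or_eq_neg.1 hsq with h5 | h5
  · apply mul_left_cancel₀ h20
    linear_combination -(1 + W c ^ 2) * h2 + W' c ^ 2 * h5
  · exfalso
    have h6 : W' c ^ 2 * W c ^ 2 = W' (p * c) * (1 + W c ^ 2) := by
      apply mul_left_cancel₀ h20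
      linear_combination (1 + W c ^ 2) * h2 - W' c ^ 2 * h5
    have h7 : W' c ^ 4 * (W c ^ 4 + 1) = 0 := by
      linear_combination (W' c ^ 2 * W c ^ 2 + W' (p * c) * (1 + W c ^ 2)) * h6 +
        (1 + W c ^ 2) * h5 + h4
    have h8 : W c ^ 4 + 1 = 0 := (mul_eq_zero.1 h7).resolve_left (pow_ne_zero _ hne')
    have h9 : (W c ^ 2 - 1) * (1 + W c ^ 2) = -2 := by linear_combination h8
    have h10 := congrArg V h9
    rw [map_mul, hv4, hv2, Valuation.map_neg] at h10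
    have hV2 : V 2 ≠ 0 := (V.ne_zero_iff).2 h20
    have h11 : V 8 = V 2 ^ 3 := by rw [← map_pow]; norm_num
    have h12 : V 2 ^ 3 = 1 := by
      apply mul_right_cancel₀ hV2
      rw [← h11, h10, one_mul]
    exact absurd h12 (pow_lt_one₀ zero_le hV.two three_ne_zero).ne

end Pool.Agent.Work.MP_787500_nt.GO
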