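import Mathlib
import Pool.Agent.Work.MP_787500_nt.GO.Basic
import Pool.Agent.Work.MP_787500_nt.GO.TrG
import Pool.Agent.Work.MP_787500_nt.GO.VaF
import Pool.Agent.Work.MP_787500_nt.HC.LyG

/-!
# Module HpA: points fixed by all automorphisms  [size M]

`mp_fix_some`: `mp_some`. `all_fix`: if `Q` is fixed by all `mp E (τ^h)` then the sum `T = tp E C Q` of its conjugates under `C` is fixed by all `τ`. Proof: as in `HC.trace_mem`
(HC/LyG.lean) for elements: `L.exp` gives `e` with `(τ^h)^(2^e) = 1`; `h` is odd, so there are naturals `A`, `B` with `A h = 1 + B 2^e` or `A h + B 2^e = 1`, i.e. `τ = (τ^h)^A (τ^(2^e))^B` up to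
inverses; `τ^h` commutes with `C` and fixes `Q` (and so do its powers), so it fixes `T` (`mp_tp`); `g = τ^(2^e)` satisfies `g^h = 1`, so `g ∈ C` and `g` fixes `T` (`tp_fix`). The set of the
`f` with `mp E f T = T` is closed under products and inverses (`mp_mul`, `mp_one`), it contains `τ^h` and `τ^(2^e)`, so it contains `τ` (`h` and `2^e` are coprime; e.g. `Nat.Coprime` and
`zpow` with `Int.gcd_eq_gcd_ab`).
`hasK_of`: `nt_tp` and `all_fix`.
-/

set_option autoImplicit false

namespace Pool.Agent.Work.MP_787500_nt.GO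

open WithZero IsDedekindDomain NumberField WeierstrassCurve WeierstrassCurve.Affine
open Pool.Agent.Work.MP_787500_nt.HC

universe u

variable {K M A : Type*} [Field K] [CharZero K] [Field M] [CharZero M] [Algebra K M]
variable [FiniteDimensional K M] [CommGroup A] [Finite A]
variable {p : A} {h : ℕ} {α : K} {W W' : A → M} {i : M} {a b u : ℕ → M}
variable {n : ℕ} {C : Finset (M ≃ₐ[K] M)} {σ ε : M ≃ₐ[K] M} {V : Valuation M ℤᵐ⁰}

open scoped Classical in
/-- there is a point of infinite order over `M` fixed by all automorphisms -/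
def HasK {K : Type*} (M : Type*) [Field K] [Field M] [Algebra K M]
    (E : WeierstrassCurve.Affine K) : Prop :=
  ∃ R : (E⁄M).Point, Nt R ∧ ∀ τ : M ≃ₐ[K] M, mp E τ R = R

open scoped Classical in
omit [CharZero K] [CharZero M] [FiniteDimensional K M] in
theorem mp_fix_some (E : WeierstrassCurve.Affine K) {f : M ≃ₐ[K] M} {x y : M}
    (hn : (E⁄M).Nonsingular x y) (hx : f x = x) (hy : f y = y) :
    mp E f (Point.some x y hn) = Point.some x y hn := by
  obtain ⟨hn', e⟩ := mp_some E f hn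
  rw [e]
  simp only [hx, hy]

open scoped Classical in
theorem all_fix (L : Lay K p h α W W' i a b u n C σ ε) (E : WeierstrassCurve.Affine K)
    {Q : (E⁄M).Point} (hQ : ∀ τ : M ≃ₐ[K] M, mp E (τ ^ h) Q = Q) (τ : M ≃ₐ[K] M) :
    mp E τ (tp E C Q) = tp E C Q := by
  set T := tp E C Q with hT
  obtain ⟨e, he⟩ := L.exp
  let S : Subgroup (M ≃ₐ[K] M) :=
    { carrier := {f | mp E f T = T}
      mul_mem' := by
        intro f g hf hg
        show mp E (f * g) T = T
        rw [mp_mul, show mp E g T = T from hg, show mp E f T = T from hf]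
      one_mem' := mp_one E T
      inv_mem' := by
        intro f hf
        show mp E f⁻¹ T = T
        have hf' : mp E f T = T := hf
        calc mp E f⁻¹ T = mp E f⁻¹ (mp E f T) := by rw [hf']
          _ = mp E (f⁻¹ * f) T := (mp_mul E _ _ _).symm
          _ = T := by rw [inv_mul_cancel, mp_one] }
  have h1 : τ ^ h ∈ S := by
    show mp E (τ ^ h) T = T
    rw [hT, mp_tp L.comm, hQ]
  have h2 : τ ^ 2 ^ e ∈ S := by
    show mp E (τ ^ 2 ^ e) T = T
    rw [hT]
    refine tp_fix E C L.comm L.memC ?_ Q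
    rw [L.memC, ← pow_mul, mul_comm, pow_mul, he τ]
  have hcop : Nat.Coprime h (2 ^ e) := (Nat.coprime_two_right.mpr L.odd).pow_right e
  have hb := Int.gcd_eq_gcd_ab (h : ℤ) ((2 ^ e : ℕ) : ℤ)
  rw [Int.gcd_natCast_natCast, hcop.gcd_eq_one] at hb
  have h3 : τ = (τ ^ h) ^ (Int.gcdA h ((2 ^ e : ℕ) : ℤ)) *
      (τ ^ 2 ^ e) ^ (Int.gcdB h ((2 ^ e : ℕ) : ℤ)) := by
    rw [← zpow_natCast τ h, ← zpow_natCast τ (2 ^ e), ← zpow_mul, ← zpow_mul, ← zpow_add, ← hb]
    simp
  have h4 : τ ∈ S := by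
    rw [h3]
    exact S.mul_mem (S.zpow_mem h1 _) (S.zpow_mem h2 _)
  exact h4

/-- a point whose coordinates are fixed by the `h`-th powers -/
theorem hasK_of (L : Lay K p h α W W' i a b u n C σ ε) (E : WeierstrassCurve.Affine K)
    {e2 e3 : M} (hT : TwoTors (E⁄M) 0 e2 e3) (h2 : V 2 < 1) (v2 : V e2 < 1) (v3 : V e3 < 1)
    {x y η : M} (hn : (E⁄M).Nonsingular x y) (hx : ∀ τ : M ≃ₐ[K] M, (τ ^ h) x = x)
    (hy : ∀ τ : M ≃ₐ[K] M, (τ ^ h) y = y) (hη : ∀ g ∈ C, V (g η) = 1)
    (hxη : ∀ g ∈ C, V (g x * g η ^ 2 - 1) < 1) (hs : V (∑ g ∈ C, g η) = 1) : HasK M E := by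
  classical
  refine ⟨tp E C (Point.some x y hn), ?_, ?_⟩
  · exact nt_tp E hT h2 v2 v3 C hn hη hxη hs
  · intro τ
    refine all_fix L E (fun τ => ?_) τ
    exact mp_fix_some E hn (hx τ) (hy τ)

end Pool.Agent.Work.MP_787500_nt.GO
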