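import Mathlib
import Pool.Agent.Work.MP_787500_nt.GO.HpA
import Pool.Agent.Work.MP_787500_nt.GO.RtA
import Pool.Agent.Work.MP_787500_nt.GO.ChA
import Pool.Agent.Work.MP_787500_nt.GO.ChC
import Pool.Agent.Work.MP_787500_nt.GO.PtA
import Pool.Agent.Work.MP_787500_nt.GO.VaG

/-!
# Module HpC: points over `K` on `cv 0 (-8)` and `cv (-4) 2`  [size M]

Direct chain `z k = W (p^k * 1)`, `u k = W' (p^k * 1)` (`chn_dir` with `hrel = wrel L.data hV`, `c = 1`, length 2). `hasK_C`: `(xC z u 0, yC z u 0)` on `cv 0 (-8)` (`eqC`), roots `± 2 r2`; `hasK_B'`: `(xA z u 0, yB z u (-1) 0)` on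
`cv (-4) 2` (`eqB`, `t = -1`), roots `2 ± r2`; `V r2 < 1` (`r2_sq`). `hasK_of` with `η = W' 1 / 2`: `x`, `y` are rational expressions in values of `W`, `W'`, fixed by `τ^h` (`L.fixW`; `map_div₀` etc. after unfolding `xC`, `yC`,
`om`); for `g ∈ C` (any `g`), `L.act` gives `d` with `g (W a) = W (d * a)`, so `g (xC z u 0)` is `xC` of the direct chain of `c = d` (`d * (p^k * 1) = p^k * d`) and `g η = W' d / 2`: `valDirC`, `valDirA`, `V (W' d / 2) = 1` (`vlc_Y`), sum: `sumW`.
-/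

set_option autoImplicit false

namespace Pool.Agent.Work.MP_787500_nt.GO

open WithZero IsDedekindDomain NumberField WeierstrassCurve WeierstrassCurve.Affine
open Pool.Agent.Work.MP_787500_nt.HC

universe u

variable {K M A : Type*} [Field K] [CharZero K] [Field M] [CharZero M] [Algebra K M]
variable [FiniteDimensional K M] [CommGroup A] [Finite A]
variable {p : A} {h : ℕ} {α : K} {W W' : A → M} {i : M} {a b u : ℕ → M}
variable {n : ℕ} {C : Finset (M ≃ₐ[K] M)} {σ ε : M ≃ₐ[K] M} {V : Valuation M ℤᵐ⁰}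

omit [CharZero K] [CharZero M] [FiniteDimensional K M] in
private theorem hpc_map (f : M ≃ₐ[K] M) {z v z' v' : ℕ → M} (hz : ∀ k, f (z k) = z' k)
    (hv : ∀ k, f (v k) = v' k) (k : ℕ) :
    f (xC z v k) = xC z' v' k ∧ f (yC z v k) = yC z' v' k ∧ f (xA z v k) = xA z' v' k ∧
      f (yB z v (-1) k) = yB z' v' (-1) k := by
  refine ⟨?_, ?_, ?_, ?_⟩
  · simp only [xC, map_div₀, map_mul, map_ofNat, hz, hv]
  · simp only [yC, om, map_div₀, map_mul, map_ofNat, map_sub, map_add, map_pow, map_one, hz, hv]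
  · simp only [xA, map_div₀, map_mul, map_add, map_pow, map_one, hz, hv]
  · simp only [yB, om, map_div₀, map_mul, map_neg, map_add, map_pow, map_one, hz, hv]

omit [CharZero K] [FiniteDimensional K M] [Finite A] in
private theorem hpc_fix (L : Lay K p h α W W' i a b u n C σ ε) (τ : M ≃ₐ[K] M) :
    (∀ k, (τ ^ h) ((fun k => W (p ^ k * 1)) k) = (fun k => W (p ^ k * 1)) k) ∧
      ∀ k, (τ ^ h) ((fun k => W' (p ^ k * 1)) k) = (fun k => W' (p ^ k * 1)) k :=
  ⟨fun _ => (L.fixW τ _).1, fun _ => (L.fixW τ _).2⟩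

omit [CharZero K] [FiniteDimensional K M] [Finite A] in
private theorem hpc_act (L : Lay K p h α W W' i a b u n C σ ε) (g : M ≃ₐ[K] M) :
    ∃ d : A, (∀ k, g ((fun k => W (p ^ k * 1)) k) = (fun k => W (p ^ k * d)) k) ∧
      (∀ k, g ((fun k => W' (p ^ k * 1)) k) = (fun k => W' (p ^ k * d)) k) ∧
      g (W' 1 / 2) = W' d / 2 := by
  obtain ⟨d, hd⟩ := L.act g
  refine ⟨d, fun k => ?_, fun k => ?_, ?_⟩
  · show g (W (p ^ k * 1)) = W (p ^ k * d)
    rw [(hd _).1, mul_one, mul_comm]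
  · show g (W' (p ^ k * 1)) = W' (p ^ k * d)
    rw [(hd _).2, mul_one, mul_comm]
  · rw [map_div₀, (hd _).2, mul_one, map_ofNat]

omit [FiniteDimensional K M] [Finite A] in
private theorem hpc_r2 (L : Lay K p h α W W' i a b u n C σ ε) (hV : Dya K V h α) :
    V (r2 W W' b) < 1 := by
  apply vla_lt_one_of_pow (n := 2)
  rw [← map_pow, r2_sq L]
  exact hV.two

theorem hasK_C (L : Lay K p h α W W' i a b u n C σ ε) (hV : Dya K V h α) :
    HasK M (cv (0 : K) (-8)) := by
  have hr := r2_sq L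
  have hV2 := hpc_r2 L hV
  have hr0 : r2 W W' b ≠ 0 := by
    intro h0
    rw [h0] at hr
    norm_num at hr
  have hT : TwoTors ((cv (0 : K) (-8))⁄M) 0 (2 * r2 W W' b) (-(2 * r2 W W' b)) := by
    apply cv_twoTors'
    · rw [map_zero]
      ring
    · rw [map_neg, map_ofNat]
      linear_combination (-4) * hr
    · norm_num
    · intro h0
      apply hr0
      have h1 : (4 : M) * r2 W W' b = 0 := by linear_combination h0
      exact (mul_eq_zero.1 h1).resolve_left (by norm_num)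
  have hc := chn_dir L.data (wrel L.data hV) 1 2
  have he := eqC hc (k := 0) le_rfl
  have hn := hT.nonsingular_of_eq (x := xC (fun k => W (p ^ k * 1)) (fun k => W' (p ^ k * 1)) 0)
    (y := yC (fun k => W (p ^ k * 1)) (fun k => W' (p ^ k * 1)) 0) (by
      rw [he]
      linear_combination
        4 * xC (fun k => W (p ^ k * 1)) (fun k => W' (p ^ k * 1)) 0 * hr)
  have hv2 : V (2 * r2 W W' b) < 1 := by
    rw [map_mul]
    exact mul_lt_one' hV.two hV2
  refine hasK_of L (cv (0 : K) (-8)) hT hV.two hv2 (by rw [Valuation.map_neg]; exact hv2)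
    (η := W' 1 / 2) hn (fun τ => ?_) (fun τ => ?_) (fun g hg => ?_) (fun g hg => ?_) (sumW L hV 1)
  · obtain ⟨h1, h2⟩ := hpc_fix L τ
    exact (hpc_map _ h1 h2 0).1
  · obtain ⟨h1, h2⟩ := hpc_fix L τ
    exact (hpc_map _ h1 h2 0).2.1
  · obtain ⟨d, -, -, h3⟩ := hpc_act L g
    rw [h3]
    exact vlc_Y L.data hV d
  · obtain ⟨d, h1, h2, h3⟩ := hpc_act L g
    rw [h3, (hpc_map g h1 h2 0).1]
    exact valDirC L.data hV (wrel L.data hV) d

theorem hasK_B' (L : Lay K p h α W W' i a b u n C σ ε) (hV : Dya K V h α) :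
    HasK M (cv (-4 : K) 2) := by
  have hr := r2_sq L
  have hV2 := hpc_r2 L hV
  have hr0 : r2 W W' b ≠ 0 := by
    intro h0
    rw [h0] at hr
    norm_num at hr
  have hT : TwoTors ((cv (-4 : K) 2)⁄M) 0 (2 + r2 W W' b) (2 - r2 W W' b) := by
    apply cv_twoTors'
    · rw [map_neg, map_ofNat]
      ring
    · rw [map_ofNat]
      linear_combination (-1) * hr
    · norm_num
    · intro h0
      apply hr0
      have h1 : (2 : M) * r2 W W' b = 0 := by linear_combination h0
      exact (mul_eq_zero.1 h1).resolve_left (by norm_num)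
  have hc := chn_dir L.data (wrel L.data hV) 1 2
  have he := eqB hc (k := 0) le_rfl (t := -1) (by norm_num)
  have hn := hT.nonsingular_of_eq (x := xA (fun k => W (p ^ k * 1)) (fun k => W' (p ^ k * 1)) 0)
    (y := yB (fun k => W (p ^ k * 1)) (fun k => W' (p ^ k * 1)) (-1) 0) (by
      rw [he]
      linear_combination
        xA (fun k => W (p ^ k * 1)) (fun k => W' (p ^ k * 1)) 0 * hr)
  refine hasK_of L (cv (-4 : K) 2) hT hV.two (V.map_add_lt hV.two hV2) (V.map_sub_lt hV.two hV2)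
    (η := W' 1 / 2) hn (fun τ => ?_) (fun τ => ?_) (fun g hg => ?_) (fun g hg => ?_) (sumW L hV 1)
  · obtain ⟨h1, h2⟩ := hpc_fix L τ
    exact (hpc_map _ h1 h2 0).2.2.1
  · obtain ⟨h1, h2⟩ := hpc_fix L τ
    exact (hpc_map _ h1 h2 0).2.2.2
  · obtain ⟨d, -, -, h3⟩ := hpc_act L g
    rw [h3]
    exact vlc_Y L.data hV d
  · obtain ⟨d, h1, h2, h3⟩ := hpc_act L g
    rw [h3, (hpc_map g h1 h2 0).2.2.1]
    exact valDirA L.data hV (wrel L.data hV) d

end Pool.Agent.Work.MP_787500_nt.GO
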