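import Mathlib
import Pool.Agent.Work.MP_787500_nt.GO.Basic
import Pool.Agent.Work.MP_787500_nt.GO.ChD

/-!
# Module PtD: points on `cv (-4 t) 8` and `cv 2 2`  [size M]

`y = z k`, `w = z (k+1)`, `u = u (k+1)`, `w' = z (k+2)`; `w^2 (1 + y^2) = 2 y`, `u^2 (1 + y^2) = 1 - y^2`, `w'^2 (1 + w^2) = 2 w`.
`eqD`: with `M = 1 - t w (1-y)/(1+y)` one has `M^2 (1 + w^2) = (u^2 - t w)^2 + w^2`: multiply by `(1 + y^2)^2 (1+y)^2`, use `w^2 = 2y/(1+y^2)`; both sides are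
polynomials in `y` of degree 0 and 1 in `w`. (`(1+y^2)(1+w^2) = (1+y)^2`.) Then `x (x^2 - 4 t x + 8) = (8 u^2/w^3) ((u^2 - t w)^2 + w^2)` for `x = 2u^2/w`, and
`yD^2 = 16 u^2 M^2/(w^2 w'^2)`, `w'^2 = 2 w/(1+w^2)`.
`eqE`: `x = w (1-y)/(1-w)`, `yE = (1+y) u w'/(1-w)`. `x^2 + 2x + 2 = (w^2 (1-y)^2 + 2 w (1-y)(1-w) + 2 (1-w)^2)/(1-w)^2`; with `w^2 (1+y^2) = 2y` one gets
`(1-w)^2 (1+y^2)(x^2+2x+2) = 2 (1+y)(1+w)(1-y)...`; simplest: clear denominators, substitute `w'^2 = 2w/(1+w^2)`, `u^2 = (1-y^2)/(1+y^2)`, `1 + w^2 = (1+y)^2/(1+y^2)`, reduce by `w^2 = 2y/(1+y^2)`.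
-/

set_option autoImplicit false

namespace Pool.Agent.Work.MP_787500_nt.GO

open WithZero IsDedekindDomain NumberField WeierstrassCurve WeierstrassCurve.Affine
open Pool.Agent.Work.MP_787500_nt.HC

universe u

variable {F : Type*} [Field F] [CharZero F] {z u : ℕ → F} {n : ℕ}

private lemma algW {y w W : F} (hD : 1 + y ^ 2 ≠ 0) (c1 : w ^ 2 * (1 + y ^ 2) = 2 * y)
    (c1' : W ^ 2 * (1 + w ^ 2) = 2 * w) : W ^ 2 * (1 + y) ^ 2 = 2 * w * (1 + y ^ 2) := by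
  linear_combination (-W ^ 2) * c1 + (1 + y ^ 2) * c1'

private lemma algD {y w W v t : F} (hD : 1 + y ^ 2 ≠ 0) (h1 : 1 + y ≠ 0) (hw : w ≠ 0)
    (hW : W ≠ 0) (c1 : w ^ 2 * (1 + y ^ 2) = 2 * y) (c3 : v ^ 2 * (1 + y ^ 2) = 1 - y ^ 2)
    (c1' : W ^ 2 * (1 + w ^ 2) = 2 * w) (ht : t ^ 2 = 1) :
    (4 * v * (1 - t * w * (1 - y) / (1 + y)) / (w * W)) ^ 2 =
      (2 * v ^ 2 / w) ^ 3 - 4 * t * (2 * v ^ 2 / w) ^ 2 + 8 * (2 * v ^ 2 / w) := by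
  have hWW := algW hD c1 c1'
  have k1 : v ^ 2 * (1 + y) = (1 + w ^ 2) * (1 - y) := by
    apply mul_right_cancel₀ hD
    linear_combination (1 + y) * c3 - (1 - y) * c1
  have key : ((1 + y) - t * w * (1 - y)) ^ 2 =
      (1 + y ^ 2) * (v ^ 4 - 2 * t * v ^ 2 * w + 2 * w ^ 2) := by
    linear_combination w ^ 2 * (1 - y) ^ 2 * ht - (v ^ 2 - 2 * t * w) * c3 - 2 * c1 -
      (1 - y) * k1
  have e1 : (4 * v * (1 - t * w * (1 - y) / (1 + y)) / (w * W)) ^ 2 =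
      16 * v ^ 2 * ((1 + y) - t * w * (1 - y)) ^ 2 / (w ^ 2 * (W ^ 2 * (1 + y) ^ 2)) := by
    field_simp
    ring
  rw [e1, hWW, key]
  field_simp
  ring

private lemma algE {y w W v : F} (hD : 1 + y ^ 2 ≠ 0) (h1 : 1 + y ≠ 0) (h2 : 1 - w ≠ 0)
    (c1 : w ^ 2 * (1 + y ^ 2) = 2 * y) (c3 : v ^ 2 * (1 + y ^ 2) = 1 - y ^ 2)
    (c1' : W ^ 2 * (1 + w ^ 2) = 2 * w) :
    ((1 + y) * v * W / (1 - w)) ^ 2 =
      (w * (1 - y) / (1 - w)) ^ 3 + 2 * (w * (1 - y) / (1 - w)) ^ 2 +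
        2 * (w * (1 - y) / (1 - w)) := by
  have hWW := algW hD c1 c1'
  have k2 : (1 + y) ^ 2 * v ^ 2 * W ^ 2 = 2 * w * (1 - y ^ 2) := by
    linear_combination v ^ 2 * hWW + 2 * w * c3
  rw [div_pow, mul_pow, mul_pow, k2]
  field_simp
  linear_combination (-w * (1 - y)) * c1

theorem eqD (H : Chn z u n) {k : ℕ} (hk : k + 2 ≤ n) {t : F} (ht : t ^ 2 = 1) :
    yD z u t k ^ 2 = xD z u k ^ 3 - 4 * t * xD z u k ^ 2 + 8 * xD z u k := by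
  have hD := H.ne1 (show k < n by omega)
  have h1 := (H.ne2 (show k < n by omega)).1
  have hw0 := H.zne (k + 1) (by omega)
  have hW0 := H.zne (k + 2) hk
  have c1 := H.c1 k (by omega)
  have c3 := H.c3 k (by omega)
  have c1' := H.c1 (k + 1) (by omega)
  rw [yD, xD]
  rw [show k + 1 + 1 = k + 2 from rfl] at c1'
  exact algD hD h1 hw0 hW0 c1 c3 c1' ht

theorem eqE (H : Chn z u n) {k : ℕ} (hk : k + 2 ≤ n) :
    yE z u k ^ 2 = xE z k ^ 3 + 2 * xE z k ^ 2 + 2 * xE z k := by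
  have hD := H.ne1 (show k < n by omega)
  have h1 := (H.ne2 (show k < n by omega)).1
  have h2 := (H.ne2 (show k + 1 < n by omega)).2
  have c1 := H.c1 k (by omega)
  have c3 := H.c3 k (by omega)
  have c1' := H.c1 (k + 1) (by omega)
  rw [yE, xE]
  rw [show k + 1 + 1 = k + 2 from rfl] at c1'
  exact algE hD h1 h2 c1 c3 c1'

end Pool.Agent.Work.MP_787500_nt.GO
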