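import Mathlib
import Pool.Agent.Work.MP_787500_nt.GO.HpA
import Pool.Agent.Work.MP_787500_nt.GO.RtA
import Pool.Agent.Work.MP_787500_nt.GO.ChA
import Pool.Agent.Work.MP_787500_nt.GO.ChC
import Pool.Agent.Work.MP_787500_nt.GO.PtD
import Pool.Agent.Work.MP_787500_nt.GO.VaG

/-!
# Module HpD: points over `K` on `cv (-4) 8` and `cv 4 8`  [size M]

Reversed chain `z k = W' (p⁻¹^k * 1)`, `u k = W (p⁻¹^k * 1)` (`chn_rev` with `hrel = wrel L.data hV`, `valI_rev`, length 2); the point `(xD z u 0, yD z u t 0)`, `t = 1, -1` (`eqD`, `y^2 = x^3 - 4 t x^2 + 8 x`), roots `2 t (1 ± i)` (`V < 1` as `V 2 < 1`). `hasK_of` with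
`η = z 2 / 2 = W' (p⁻¹^2 * 1) / 2`: `x`, `y` fixed by `τ^h` (`L.fixW`); for `g ∈ C`, `L.act` gives `d`, `g (xD z u 0)` is `xD` of the reversed chain of `c = d`: `valXD`; `vlc_Y`; sum: `sumW` at `p⁻¹^2 * 1`.
-/

set_option autoImplicit false

namespace Pool.Agent.Work.MP_787500_nt.GO

open WithZero IsDedekindDomain NumberField WeierstrassCurve WeierstrassCurve.Affine
open Pool.Agent.Work.MP_787500_nt.HC

universe u

variable {K M A : Type*} [Field K] [CharZero K] [Field M] [CharZero M] [Algebra K M]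
variable [FiniteDimensional K M] [CommGroup A] [Finite A]
variable {p : A} {h : ℕ} {α : K} {W W' : A → M} {i : M} {a b u : ℕ → M}
variable {n : ℕ} {C : Finset (M ≃ₐ[K] M)} {σ ε : M ≃ₐ[K] M} {V : Valuation M ℤᵐ⁰}

private theorem hpd_one {x : M} (hx : x ^ 2 = 1 ∨ x ^ 2 = -1) : V x = 1 := by
  have h1 : V x ^ 2 = 1 := by
    rw [← map_pow]
    rcases hx with h | h
    · rw [h, map_one]
    · rw [h, Valuation.map_neg, map_one]
  exact vla_eq_one_of_pow two_ne_zero h1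

private theorem hasK_D_aux (L : Lay K p h α W W' i a b u n C σ ε) (hV : Dya K V h α) (t : K)
    (ht : t ^ 2 = 1) : HasK M (cv (-4 * t : K) 8) := by
  have hrel := wrel L.data hV
  have h2 := hV.two
  have hi2 : i ^ 2 = -1 := L.seq.i2
  have ht' : (algebraMap K M t) ^ 2 = 1 := by rw [← map_pow, ht, map_one]
  set t' : M := algebraMap K M t with htdef
  have hchn : ∀ c : A, Chn (fun k => W' (p⁻¹ ^ k * c)) (fun k => W (p⁻¹ ^ k * c)) 2 :=
    fun c => chn_rev L.data hrel c 2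
  have hval : ∀ c : A, ValI V (fun k => W' (p⁻¹ ^ k * c)) (fun k => W (p⁻¹ ^ k * c)) 2 :=
    fun c => valI_rev L.data hV c 2
  have hi0 : i ≠ 0 := by
    rintro rfl
    norm_num at hi2
  have e1 : (2 * t' + 2 * i) + (2 * t' - 2 * i) = -algebraMap K M (-4 * t) := by
    rw [map_mul, map_neg, map_ofNat]
    ring
  have e2 : (2 * t' + 2 * i) * (2 * t' - 2 * i) = algebraMap K M 8 := by
    rw [map_ofNat]
    linear_combination 4 * ht' - 4 * hi2
  have e3 : (2 * t' + 2 * i) ≠ (2 * t' - 2 * i) := by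
    intro h
    apply hi0
    linear_combination (1 / 4) * h
  have hT : TwoTors ((cv (-4 * t : K) 8)⁄M) 0 (2 * t' + 2 * i) (2 * t' - 2 * i) :=
    cv_twoTors' e1 e2 (by norm_num) e3
  have vt : V t' = 1 := hpd_one (Or.inl ht')
  have vi : V i = 1 := hpd_one (Or.inr hi2)
  have v2 : V (2 * t' + 2 * i) < 1 := by
    rw [← mul_add, map_mul]
    exact lt_of_le_of_lt (mul_le_of_le_one_right' (V.map_add_le vt.le vi.le)) h2
  have v3 : V (2 * t' - 2 * i) < 1 := by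
    rw [← mul_sub, map_mul]
    exact lt_of_le_of_lt (mul_le_of_le_one_right' (V.map_sub_le vt.le vi.le)) h2
  have hE := eqD (hchn 1) (k := 0) (le_refl 2) ht'
  have hn : ((cv (-4 * t : K) 8)⁄M).Nonsingular
      (xD (fun k => W' (p⁻¹ ^ k * 1)) (fun k => W (p⁻¹ ^ k * 1)) 0)
      (yD (fun k => W' (p⁻¹ ^ k * 1)) (fun k => W (p⁻¹ ^ k * 1)) t' 0) := by
    refine hT.nonsingular_of_eq ?_
    rw [hE]
    linear_combination (-4 * ht' + 4 * hi2) *
      (xD (fun k => W' (p⁻¹ ^ k * 1)) (fun k => W (p⁻¹ ^ k * 1)) 0)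
  have hgx : ∀ g : M ≃ₐ[K] M, ∃ d : A,
      (g (xD (fun k => W' (p⁻¹ ^ k * 1)) (fun k => W (p⁻¹ ^ k * 1)) 0) =
        xD (fun k => W' (p⁻¹ ^ k * d)) (fun k => W (p⁻¹ ^ k * d)) 0) ∧
      g (W' (p⁻¹ ^ 2 * 1) / 2) = W' (p⁻¹ ^ 2 * d) / 2 := by
    intro g
    obtain ⟨d, hd⟩ := L.act g
    have h5 : ∀ k : ℕ, d * (p⁻¹ ^ k * 1) = p⁻¹ ^ k * d := fun k => by
      rw [mul_one, mul_comm]
    refine ⟨d, ?_, ?_⟩
    · simp only [xD]
      rw [map_div₀, map_mul, map_pow, map_ofNat, (hd _).1, (hd _).2, h5]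
    · rw [map_div₀, map_ofNat, (hd _).2, h5]
  refine hasK_of L (cv (-4 * t : K) 8) hT h2 v2 v3 (η := W' (p⁻¹ ^ 2 * 1) / 2) hn ?_ ?_ ?_ ?_ ?_
  · intro τ
    simp only [xD]
    rw [map_div₀, map_mul, map_pow, map_ofNat, (L.fixW τ _).1, (L.fixW τ _).2]
  · intro τ
    simp only [yD]
    rw [map_div₀, map_mul, map_mul, map_mul, map_sub, map_div₀, map_mul, map_mul, map_sub, map_add,
      map_one, map_ofNat, (L.fixW τ _).1, (L.fixW τ _).2, (L.fixW τ _).2, (L.fixW τ _).2, htdef, AlgEquiv.commutes]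
  · intro g _
    obtain ⟨d, -, h6⟩ := hgx g
    rw [h6]
    exact vlc_Y L.data hV _
  · intro g _
    obtain ⟨d, h5, h6⟩ := hgx g
    rw [h5, h6]
    exact valXD h2 (hchn d) (hval d) (k := 0) (le_refl 2)
  · exact sumW L hV _

theorem hasK_D (L : Lay K p h α W W' i a b u n C σ ε) (hV : Dya K V h α) :
    HasK M (cv (-4 : K) 8) ∧ HasK M (cv (4 : K) 8) := by
  constructor
  · have h1 := hasK_D_aux L hV 1 (by ring)
    rwa [mul_one] at h1
  · have h1 := hasK_D_aux L hV (-1) (by ring)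
    rwa [show (-4 : K) * -1 = 4 by ring] at h1

end Pool.Agent.Work.MP_787500_nt.GO
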