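import Mathlib
import Pool.Agent.Work.MP_787500_nt.GO.HpA
import Pool.Agent.Work.MP_787500_nt.GO.RtA
import Pool.Agent.Work.MP_787500_nt.GO.ChA
import Pool.Agent.Work.MP_787500_nt.GO.ChC
import Pool.Agent.Work.MP_787500_nt.GO.PtD
import Pool.Agent.Work.MP_787500_nt.GO.VaG

/-!
# Module HpE: a point over `K` on `cv 2 2`  [size S-M]

Direct chain `z k = W (p^k * 1)`, `u k = W' (p^k * 1)` (`chn_dir` with `hrel = wrel L.data hV`, `c = 1`, length 2); the point `(xE z 0, yE z u 0)` (`eqE`), roots `-1 ± i` (`(−1 ± i)^2 = ∓ 2 i`, so `V < 1`). `hasK_of` with `η = W' (p * 1) / 2`: `x`, `y` fixed by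
`τ^h` (`L.fixW`); for `g ∈ C`, `L.act` gives `d`, `g (xE z 0)` is `xE` of the direct chain of `c = d`, `g η = W' (p * d) / 2`: `valDirE`, `vlc_Y`; sum: `sumW` at `p * 1`.
-/

set_option autoImplicit false

namespace Pool.Agent.Work.MP_787500_nt.GO

open WithZero IsDedekindDomain NumberField WeierstrassCurve WeierstrassCurve.Affine
open Pool.Agent.Work.MP_787500_nt.HC

universe u

variable {K M A : Type*} [Field K] [CharZero K] [Field M] [CharZero M] [Algebra K M]
variable [FiniteDimensional K M] [CommGroup A] [Finite A]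
variable {p : A} {h : ℕ} {α : K} {W W' : A → M} {i : M} {a b u : ℕ → M}
variable {n : ℕ} {C : Finset (M ≃ₐ[K] M)} {σ ε : M ≃ₐ[K] M} {V : Valuation M ℤᵐ⁰}

private theorem hpe_root {x : M} (h2 : V 2 < 1) {j : M} (hj : V j = 1) (hx : x ^ 2 = 2 * j) : V x < 1 := by
  apply vla_lt_one_of_pow (n := 2)
  rw [← map_pow, hx, map_mul, hj, mul_one]
  exact h2

theorem hasK_E (L : Lay K p h α W W' i a b u n C σ ε) (hV : Dya K V h α) :
    HasK M (cv (2 : K) 2) := by
  have hrel := wrel L.data hV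
  have h2 := hV.two
  have hi2 : i ^ 2 = -1 := L.seq.i2
  have hchn : Chn (fun k => W (p ^ k * 1)) (fun k => W' (p ^ k * 1)) 2 := chn_dir L.data hrel 1 2
  have hi0 : i ≠ 0 := by
    rintro rfl
    norm_num at hi2
  have e1 : (-1 + i) + (-1 - i) = -algebraMap K M 2 := by
    rw [map_ofNat]
    ring
  have e2 : (-1 + i) * (-1 - i) = algebraMap K M 2 := by
    rw [map_ofNat]
    linear_combination -hi2
  have e3 : (-1 + i) ≠ (-1 - i) := by
    intro h
    apply hi0
    linear_combination (1 / 2) * h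
  have hT : TwoTors ((cv (2 : K) 2)⁄M) 0 (-1 + i) (-1 - i) := cv_twoTors' e1 e2 (by norm_num) e3
  have vi : V i = 1 := by
    have h1 : V i ^ 2 = 1 := by rw [← map_pow, hi2, Valuation.map_neg, map_one]
    exact vla_eq_one_of_pow two_ne_zero h1
  have v2 : V (-1 + i) < 1 := hpe_root h2 (j := -i) (by rw [Valuation.map_neg, vi]) (by linear_combination hi2)
  have v3 : V (-1 - i) < 1 := hpe_root h2 (j := i) vi (by linear_combination hi2)
  have hE := eqE hchn (k := 0) (le_refl 2)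
  have hn : ((cv (2 : K) 2)⁄M).Nonsingular (xE (fun k => W (p ^ k * 1)) 0)
      (yE (fun k => W (p ^ k * 1)) (fun k => W' (p ^ k * 1)) 0) := by
    refine hT.nonsingular_of_eq ?_
    rw [hE]
    linear_combination hi2 * (xE (fun k => W (p ^ k * 1)) 0)
  have hgx : ∀ g : M ≃ₐ[K] M, ∃ d : A,
      (g (xE (fun k => W (p ^ k * 1)) 0) = xE (fun k => W (p ^ k * d)) 0) ∧
      g (W' (p * 1) / 2) = W' (p * d) / 2 := by
    intro g
    obtain ⟨d, hd⟩ := L.act g
    have h5 : ∀ k : ℕ, d * (p ^ k * 1) = p ^ k * d := fun k => by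
      rw [mul_one, mul_comm]
    refine ⟨d, ?_, ?_⟩
    · simp only [xE]
      rw [map_div₀, map_mul, map_sub, map_sub, map_one, (hd _).1, (hd _).1, h5, h5]
    · rw [map_div₀, map_ofNat, (hd _).2, mul_one, mul_comm d p]
  refine hasK_of L (cv (2 : K) 2) hT h2 v2 v3 (η := W' (p * 1) / 2) hn ?_ ?_ ?_ ?_ ?_
  · intro τ
    simp only [xE]
    rw [map_div₀, map_mul, map_sub, map_sub, map_one, (L.fixW τ _).1, (L.fixW τ _).1]
  · intro τ
    simp only [yE]
    rw [map_div₀, map_mul, map_mul, map_add, map_sub, map_one, (L.fixW τ _).1, (L.fixW τ _).1,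
      (L.fixW τ _).1, (L.fixW τ _).2]
  · intro g _
    obtain ⟨d, -, h6⟩ := hgx g
    rw [h6]
    exact vlc_Y L.data hV _
  · intro g _
    obtain ⟨d, h5, h6⟩ := hgx g
    rw [h5, h6]
    exact valDirE L.data hV hrel d
  · exact sumW L hV _

end Pool.Agent.Work.MP_787500_nt.GO
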