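import Mathlib
import Pool.Agent.Work.MP_787500_nt.GO.HpA
import Pool.Agent.Work.MP_787500_nt.GO.RtA

/-!
# Module HpO: the rational points  [size S-M]

`(-1, 1)` on `cv 0 (-2)` (roots `± r2`) and on `cv 4 2` (roots `-2 ± r2`), `(1, 1)` on `cv (-2) 2` (roots `1 ± i`): `cv_twoTors'`, `TwoTors.nonsingular_of_eq`; the roots have `V < 1` (`r2^2 = 2`: `r2_sq`; `(1 ± i)^2 = ± 2 i`,
`V i = 1`). Of infinite order: `nt_sum` with one point (`C = {0}` of an index type such as `Unit`), `η = 1`, `x η^2 - 1 = -2` or `0`. All `mp τ` fix the point (`mp_fix_some`).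
-/

set_option autoImplicit false

namespace Pool.Agent.Work.MP_787500_nt.GO

open WithZero IsDedekindDomain NumberField WeierstrassCurve WeierstrassCurve.Affine
open Pool.Agent.Work.MP_787500_nt.HC

universe u

variable {K M A : Type*} [Field K] [CharZero K] [Field M] [CharZero M] [Algebra K M]
variable [FiniteDimensional K M] [CommGroup A] [Finite A]
variable {p : A} {h : ℕ} {α : K} {W W' : A → M} {i : M} {a b u : ℕ → M}
variable {n : ℕ} {C : Finset (M ≃ₐ[K] M)} {σ ε : M ≃ₐ[K] M} {V : Valuation M ℤᵐ⁰}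

omit [FiniteDimensional K M] [CharZero K] in
private theorem hpo_core (E : WeierstrassCurve.Affine K) {e2 e3 x : M}
    (hT : TwoTors (E⁄M) 0 e2 e3) (h2 : V 2 < 1) (v2 : V e2 < 1) (v3 : V e3 < 1)
    (hx : ∀ τ : M ≃ₐ[K] M, τ x = x) (hxy : (1 : M) ^ 2 = (x - 0) * (x - e2) * (x - e3))
    (hv : V (x - 1) < 1) : HasK M E := by
  classical
  have hn := hT.nonsingular_of_eq hxy
  refine ⟨Point.some x 1 hn, ?_, fun τ => mp_fix_some E hn (hx τ) (map_one τ)⟩
  have h := nt_sum hT h2 v2 v3 (Finset.univ : Finset Unit) (fun _ => Point.some x 1 hn)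
    (fun _ => x) (fun _ => 1) (fun _ _ => ⟨1, hn, rfl⟩) (fun _ _ => map_one V)
    (fun _ _ => by simpa using hv) (by simp)
  simpa using h

private theorem hpo_lt {F : Type*} [Field F] {V : Valuation F ℤᵐ⁰} {x : F} {n : ℕ}
    (h : V (x ^ n) < 1) : V x < 1 := by
  by_contra hcon
  rw [not_lt] at hcon
  rw [map_pow] at h
  exact absurd h (not_lt.2 (one_le_pow_of_one_le' hcon n))

theorem hasK_A (L : Lay K p h α W W' i a b u n C σ ε) (hV : Dya K V h α) :
    HasK M (cv (0 : K) (-2)) := by
  have hr := r2_sq L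
  have hne : r2 W W' b ≠ 0 := by
    intro h0
    rw [h0] at hr
    exact two_ne_zero (α := M) (by rw [← hr]; ring)
  have hv : V (r2 W W' b) < 1 := hpo_lt (n := 2) (by rw [hr]; exact hV.two)
  have hT : TwoTors ((cv (0 : K) (-2))⁄M) 0 (r2 W W' b) (-r2 W W' b) :=
    cv_twoTors' (by simp) (by
      rw [map_neg, map_ofNat]
      linear_combination -hr) (by simp) (by
      intro h0
      apply hne
      have h1 : (2 : M) * r2 W W' b = 0 := by linear_combination h0
      exact (mul_eq_zero.1 h1).resolve_left two_ne_zero)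
  refine hpo_core (x := -1) (V := V) _ hT hV.two hv (by rwa [Valuation.map_neg])
    (fun τ => by rw [map_neg, map_one]) (by linear_combination -hr) ?_
  have h1 : (-1 : M) - 1 = -2 := by norm_num
  rw [h1, Valuation.map_neg]
  exact hV.two

theorem hasK_B (L : Lay K p h α W W' i a b u n C σ ε) (hV : Dya K V h α) :
    HasK M (cv (4 : K) 2) := by
  have hr := r2_sq L
  have hne : r2 W W' b ≠ 0 := by
    intro h0
    rw [h0] at hr
    exact two_ne_zero (α := M) (by rw [← hr]; ring)
  have hv : V (r2 W W' b) < 1 := hpo_lt (n := 2) (by rw [hr]; exact hV.two)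
  have h2' : V (-2 : M) < 1 := by
    rw [Valuation.map_neg]
    exact hV.two
  have hT : TwoTors ((cv (4 : K) 2)⁄M) 0 (-2 + r2 W W' b) (-2 + -r2 W W' b) :=
    cv_twoTors' (by
      rw [map_ofNat]
      ring) (by
      rw [map_ofNat]
      linear_combination -hr) (by simp) (by
      intro h0
      apply hne
      have h1 : (2 : M) * r2 W W' b = 0 := by linear_combination h0
      exact (mul_eq_zero.1 h1).resolve_left two_ne_zero)
  refine hpo_core (x := -1) (V := V) _ hT hV.two (V.map_add_lt h2' hv)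
    (V.map_add_lt h2' (by rwa [Valuation.map_neg]))
    (fun τ => by rw [map_neg, map_one]) (by linear_combination -hr) ?_
  have h1 : (-1 : M) - 1 = -2 := by norm_num
  rw [h1]
  exact h2'

theorem hasK_O (L : Lay K p h α W W' i a b u n C σ ε) (hV : Dya K V h α) :
    HasK M (cv (-2 : K) 2) := by
  have hi := L.seq.i2
  have hne : i ≠ 0 := by
    intro h0
    rw [h0] at hi
    exact one_ne_zero (α := M) (by linear_combination hi)
  have h4 : V (-4 : M) < 1 := by
    rw [Valuation.map_neg]
    have e1 : (4 : M) = 2 * 2 := by norm_num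
    rw [e1, map_mul]
    exact mul_lt_one_of_nonneg_of_lt_one_left zero_le hV.two hV.two.le
  have hT : TwoTors ((cv (-2 : K) 2)⁄M) 0 (1 + i) (1 - i) :=
    cv_twoTors' (by
      rw [map_neg, map_ofNat]
      ring) (by
      rw [map_ofNat]
      linear_combination -hi) (by simp) (by
      intro h0
      apply hne
      have h1 : (2 : M) * i = 0 := by linear_combination h0
      exact (mul_eq_zero.1 h1).resolve_left two_ne_zero)
  refine hpo_core (x := 1) (V := V) _ hT hV.two (hpo_lt (n := 4) ?_) (hpo_lt (n := 4) ?_)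
    (fun τ => map_one τ) (by linear_combination hi) (by simp)
  · have e1 : (1 + i) ^ 4 = -4 := by linear_combination (i ^ 2 + 4 * i + 5) * hi
    rw [e1]
    exact h4
  · have e1 : (1 - i) ^ 4 = -4 := by linear_combination (i ^ 2 - 4 * i + 5) * hi
    rw [e1]
    exact h4

end Pool.Agent.Work.MP_787500_nt.GO
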