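import Mathlib
import Pool.Agent.Work.MP_787500_nt.GO.HpA
import Pool.Agent.Work.MP_787500_nt.RS.Isom

/-!
# Module TwP: quadratic twists of points  [size M]

`(x, y) ↦ (d x, d v y)` maps `y^2 = x^3 + a x^2 + b x` to `y^2 = x^3 + d a x^2 + d^2 b x` (`v^2 = d`); it is an isomorphism of the groups of points (`RS.exists_isom` needs `TwoTors` on both sides: roots `0, e2, e3` and `0, d e2, d e3`, scaling `v`;
see JaA, RS/Isom.lean, or TwA..TwE of HC). So the image `R` of `R'` has infinite order. `f v = v`: `f (d x, d v y) = (d f x, d v f y)` is the image of `f R' = R'`; `f v = -v`: it is `(d x, -d v y) = -R`.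
-/

set_option autoImplicit false

namespace Pool.Agent.Work.MP_787500_nt.GO

open WithZero IsDedekindDomain NumberField WeierstrassCurve WeierstrassCurve.Affine
open Pool.Agent.Work.MP_787500_nt.HC

universe u

variable {K M : Type*} [Field K] [CharZero K] [Field M] [CharZero M] [Algebra K M]

open scoped Classical in
theorem twist_pt {a b d a' b' : K} {v e2 e3 : M} (hT : TwoTors ((cv a b)⁄M) 0 e2 e3)
    (hv : v ^ 2 = algebraMap K M d) (hv0 : v ≠ 0) (ha : a' = d * a) (hb : b' = d ^ 2 * b)
    (hK : HasK M (cv a b)) : ∃ R : ((cv a' b')⁄M).Point, Nt R ∧ ∀ f : M ≃ₐ[K] M,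
      (f v = v → mp (cv a' b') f R = R) ∧ (f v = -v → mp (cv a' b') f R = -R) := by
  have hδ0 : algebraMap K M d ≠ 0 := by
    rw [← hv]
    exact pow_ne_zero 2 hv0
  have ea2 : algebraMap K M a = -(0 + e2 + e3) := by
    have := hT.a2
    rw [cv_baseChange] at this
    exact this
  have ea4 : algebraMap K M b = 0 * e2 + e2 * e3 + e3 * 0 := by
    have := hT.a4
    rw [cv_baseChange] at this
    exact this
  have hT' : TwoTors ((cv a' b')⁄M) 0 (v ^ 2 * e2) (v ^ 2 * e3) := by
    rw [cv_baseChange]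
    have hvv : v ^ 2 ≠ 0 := pow_ne_zero 2 hv0
    refine ⟨rfl, rfl, ?_, ?_, ?_, ?_, ?_, ?_⟩
    · show algebraMap K M a' = _
      rw [ha, map_mul, ← hv, ea2]
      ring
    · show algebraMap K M b' = _
      rw [hb, map_mul, map_pow, ← hv, ea4]
      ring
    · show (0 : M) = _
      ring
    · intro h0
      exact (mul_ne_zero hvv hT.h12.symm) h0.symm
    · intro h0
      exact hT.h23 (mul_left_cancel₀ hvv h0)
    · exact mul_ne_zero hvv hT.h31
  obtain ⟨φ, hφ⟩ := RS.exists_isom hT hT' (u := v) (r := 0) hv0 (by ring) (by ring) (by ring)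
  have hinj : Function.Injective φ := by
    rw [injective_iff_map_eq_zero]
    rintro (_ | ⟨x, y, hn⟩) h0
    · rfl
    · obtain ⟨hn', e⟩ := hφ x y hn
      rw [e] at h0
      exact absurd h0 (Point.some_ne_zero hn')
  obtain ⟨R, hR, hfix⟩ := hK
  rcases R with _ | ⟨x, y, hn⟩
  · exact absurd (smul_zero (1 : ℕ)) (hR 1 one_ne_zero)
  refine ⟨φ (Point.some x y hn), hR.map φ hinj, fun f => ?_⟩
  have hxy : f x = x ∧ f y = y := by
    obtain ⟨hn1, e1⟩ := mp_some (cv a b) f hn
    have e2 := hfix f
    rw [e1] at e2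
    simp only [Point.some.injEq] at e2
    exact e2
  obtain ⟨hn', e⟩ := hφ x y hn
  rw [e]
  obtain ⟨hn2, e2⟩ := mp_some (cv a' b') f hn'
  rw [e2]
  constructor
  · intro hf
    simp only [Point.some.injEq]
    constructor
    · rw [map_add, map_mul, map_pow, hf, hxy.1, map_zero]
    · rw [map_mul, map_pow, hf, hxy.2]
  · intro hf
    rw [Point.neg_some]
    simp only [Point.some.injEq]
    constructor
    · rw [map_add, map_mul, map_pow, hf, hxy.1, map_zero]
      ring
    · rw [map_mul, map_pow, hf, hxy.2, hT'.negY_eq]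
      ring

end Pool.Agent.Work.MP_787500_nt.GO
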