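import Mathlib
import Pool.Agent.Work.MP_787500_nt.GO.HpO
import Pool.Agent.Work.MP_787500_nt.GO.HpC
import Pool.Agent.Work.MP_787500_nt.GO.HpE
import Pool.Agent.Work.MP_787500_nt.GO.HpD
import Pool.Agent.Work.MP_787500_nt.GO.TwP
import Pool.Agent.Work.MP_787500_nt.GO.JaA
import Pool.Agent.Work.MP_787500_nt.GO.JaB

/-!
# Module BaA: points in the four eigenspaces of `σ`, `ε`  [size M]

`σ i = i`, `ε i = -i`, `σ r2 = -r2`, `ε r2 = r2` (`L.sigi`, `L.epsi`, `sig_r2`, `eps_r2`); elements of `C` fix `i`, `r2` (`memC_fix`). Signs `(s, t)` of `(σ, ε)`.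
A: `(1,1)`: `hasK_A`. `(1,-1)`: `J = [i]` (`hasJ_i`, `κ = i`) applied to it. `(-1,1)`: `hasK_C` twisted (`twist_pt`) by `v = 1/r2`, `d = 1/2`. `(-1,-1)`: `J` of that.
B: `(1,1)`: `hasK_B`. `(1,-1)`: `hasK_B'` twisted by `v = i`, `d = -1`. `(-1,-1)` and `(-1,1)`: `J` (`hasJ_two`, `κ = i r2`, `σ κ = -κ`, `ε κ = -κ`) applied to them.
D: `(1,1)`: `hasK_D`, first. `(1,-1)`: second, twisted by `v = i`. `(-1,1)`: `hasK_O` twisted by `v = r2`, `d = 2`. `(-1,-1)`: `hasK_E` twisted by `v = i r2`, `d = -2`.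
-/

set_option autoImplicit false

namespace Pool.Agent.Work.MP_787500_nt.GO

open WithZero IsDedekindDomain NumberField WeierstrassCurve WeierstrassCurve.Affine
open Pool.Agent.Work.MP_787500_nt.HC

universe u

variable {K M A : Type*} [Field K] [CharZero K] [Field M] [CharZero M] [Algebra K M]
variable [FiniteDimensional K M] [CommGroup A] [Finite A]
variable {p : A} {h : ℕ} {α : K} {W W' : A → M} {i : M} {a b u : ℕ → M}
variable {n : ℕ} {C : Finset (M ≃ₐ[K] M)} {σ ε : M ≃ₐ[K] M} {V : Valuation M ℤᵐ⁰}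

open scoped Classical in
/-- a point of infinite order in the eigenspace `(s, t)` of `σ`, `ε`, fixed by `C` -/
private def HB (E : WeierstrassCurve.Affine K) (C : Finset (M ≃ₐ[K] M)) (σ ε : M ≃ₐ[K] M)
    (s t : ℤ) : Prop :=
  ∃ R : (E⁄M).Point, Nt R ∧ (∀ g ∈ C, mp E g R = R) ∧ mp E σ R = s • R ∧ mp E ε R = t • R

private theorem hb_all {E : WeierstrassCurve.Affine K} (h1 : HB E C σ ε 1 1)
    (h2 : HB E C σ ε 1 (-1)) (h3 : HB E C σ ε (-1) 1) (h4 : HB E C σ ε (-1) (-1)) :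
    BasePts E C σ ε := by
  rintro s t (rfl | rfl) (rfl | rfl)
  · exact h1
  · exact h2
  · exact h3
  · exact h4

open scoped Classical in
private theorem hb_one {E : WeierstrassCurve.Affine K} (hK : HasK M E) : HB E C σ ε 1 1 := by
  obtain ⟨R, hR, hf⟩ := hK
  exact ⟨R, hR, fun g _ => hf g, by rw [hf, one_smul], by rw [hf, one_smul]⟩

open scoped Classical in
private theorem hb_tw {a b d a' b' : K} {v e2 e3 : M} (hT : TwoTors ((cv a b)⁄M) 0 e2 e3)
    (hv : v ^ 2 = algebraMap K M d) (hv0 : v ≠ 0) (ha : a' = d * a) (hb : b' = d ^ 2 * b)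
    (hK : HasK M (cv a b)) (hC : ∀ g ∈ C, g v = v) {s t : ℤ}
    (hs : s = 1 ∧ σ v = v ∨ s = -1 ∧ σ v = -v) (ht : t = 1 ∧ ε v = v ∨ t = -1 ∧ ε v = -v) :
    HB (cv a' b') C σ ε s t := by
  obtain ⟨R, hR, hf⟩ := twist_pt hT hv hv0 ha hb hK
  refine ⟨R, hR, fun g hg => (hf g).1 (hC g hg), ?_, ?_⟩
  · rcases hs with ⟨rfl, h⟩ | ⟨rfl, h⟩
    · rw [(hf σ).1 h, one_smul]
    · rw [(hf σ).2 h, neg_smul, one_smul]
  · rcases ht with ⟨rfl, h⟩ | ⟨rfl, h⟩
    · rw [(hf ε).1 h, one_smul]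
    · rw [(hf ε).2 h, neg_smul, one_smul]

open scoped Classical in
private theorem hb_J {E : WeierstrassCurve.Affine K} {κ : M} (hJ : HasJ E κ)
    (hC : ∀ g ∈ C, g κ = κ) {s t s' t' : ℤ} (hB : HB E C σ ε s t)
    (hs : s' = s ∧ σ κ = κ ∨ s' = -s ∧ σ κ = -κ) (ht : t' = t ∧ ε κ = κ ∨ t' = -t ∧ ε κ = -κ) :
    HB E C σ ε s' t' := by
  obtain ⟨J, hJ1, hJ2, hJ3⟩ := hJ
  obtain ⟨R, hR, hRC, hRs, hRt⟩ := hB
  refine ⟨J R, hJ1 R hR, fun g hg => ?_, ?_, ?_⟩
  · rw [hJ2 g (hC g hg), hRC g hg]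
  · rcases hs with ⟨rfl, h⟩ | ⟨rfl, h⟩
    · rw [hJ2 σ h, hRs, map_zsmul]
    · rw [hJ3 σ h, hRs, map_zsmul, neg_smul]
  · rcases ht with ⟨rfl, h⟩ | ⟨rfl, h⟩
    · rw [hJ2 ε h, hRt, map_zsmul]
    · rw [hJ3 ε h, hRt, map_zsmul, neg_smul]

private theorem r2_ne (L : Lay K p h α W W' i a b u n C σ ε) : r2 W W' b ≠ 0 := by
  intro h0
  have := r2_sq L
  rw [h0] at this
  norm_num at this

private theorem i_ne (L : Lay K p h α W W' i a b u n C σ ε) : i ≠ 0 := by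
  intro h0
  have := L.seq.i2
  rw [h0] at this
  norm_num at this

theorem basePts_A (L : Lay K p h α W W' i a b u n C σ ε) (hV : Dya K V h α) :
    BasePts (cv (0 : K) (-2)) C σ ε := by
  have hr := r2_sq L
  have hr0 := r2_ne L
  have hi := L.seq.i2
  have hJ : HasJ (cv (0 : K) (-2)) i := by
    refine hasJ_i (c := (-2 : K)) (by norm_num) hi (e := r2 W W' b) ?_
    rw [hr, map_neg, map_ofNat, neg_neg]
  have hCi : ∀ g ∈ C, g i = i := fun g hg => (memC_fix L hg).1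
  have h11 : HB (cv (0 : K) (-2)) C σ ε 1 1 := hb_one (hasK_A L hV)
  have h12 : HB (cv (0 : K) (-2)) C σ ε 1 (-1) :=
    hb_J hJ hCi h11 (Or.inl ⟨rfl, L.sigi⟩) (Or.inr ⟨rfl, L.epsi⟩)
  have h21 : HB (cv (0 : K) (-2)) C σ ε (-1) 1 := by
    have hT : TwoTors ((cv (0 : K) (-8))⁄M) 0 (2 * r2 W W' b) (-(2 * r2 W W' b)) := by
      refine cv_twoTors' ?_ ?_ (by norm_num) ?_
      · rw [map_zero, neg_zero]
        ring
      · rw [map_neg, map_ofNat]
        linear_combination (-4) * hr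
      · intro h0
        apply hr0
        have h5 : 4 * r2 W W' b = 0 := by linear_combination h0
        exact (mul_eq_zero.1 h5).resolve_left (by norm_num)
    refine hb_tw (v := 1 / r2 W W' b) (d := (1 / 2 : K)) hT ?_ ?_ ?_ ?_ (hasK_C L hV) ?_ ?_ ?_
    · rw [div_pow, hr, one_pow, map_div₀, map_one, map_ofNat]
    · exact one_div_ne_zero hr0
    · ring
    · norm_num
    · intro g hg
      rw [map_div₀, map_one, (memC_fix L hg).2.2]
    · exact Or.inr ⟨rfl, by rw [map_div₀, map_one, sig_r2 L, div_neg]⟩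
    · exact Or.inl ⟨rfl, by rw [map_div₀, map_one, eps_r2 L]⟩
  have h22 : HB (cv (0 : K) (-2)) C σ ε (-1) (-1) :=
    hb_J hJ hCi h21 (Or.inl ⟨rfl, L.sigi⟩) (Or.inr ⟨rfl, L.epsi⟩)
  exact hb_all h11 h12 h21 h22

theorem basePts_B (L : Lay K p h α W W' i a b u n C σ ε) (hV : Dya K V h α) :
    BasePts (cv (4 : K) 2) C σ ε := by
  have hr := r2_sq L
  have hr0 := r2_ne L
  have hi := L.seq.i2
  have hJ : HasJ (cv (4 : K) 2) (i * r2 W W' b) := hasJ_two hi hr
  have hCk : ∀ g ∈ C, g (i * r2 W W' b) = i * r2 W W' b := fun g hg => by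
    rw [map_mul, (memC_fix L hg).1, (memC_fix L hg).2.2]
  have hsk : σ (i * r2 W W' b) = -(i * r2 W W' b) := by
    rw [map_mul, L.sigi, sig_r2 L, mul_neg]
  have hek : ε (i * r2 W W' b) = -(i * r2 W W' b) := by
    rw [map_mul, L.epsi, eps_r2 L, neg_mul]
  have h11 : HB (cv (4 : K) 2) C σ ε 1 1 := hb_one (hasK_B L hV)
  have h12 : HB (cv (4 : K) 2) C σ ε 1 (-1) := by
    have hT : TwoTors ((cv (-4 : K) 2)⁄M) 0 (2 + r2 W W' b) (2 - r2 W W' b) := by
      refine cv_twoTors' ?_ ?_ (by norm_num) ?_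
      · rw [map_neg, map_ofNat]
        ring
      · rw [map_ofNat]
        linear_combination -hr
      · intro h0
        apply hr0
        have h5 : 2 * r2 W W' b = 0 := by linear_combination h0
        exact (mul_eq_zero.1 h5).resolve_left (by norm_num)
    refine hb_tw (v := i) (d := (-1 : K)) hT ?_ (i_ne L) ?_ ?_ (hasK_B' L hV) ?_ ?_ ?_
    · rw [hi, map_neg, map_one]
    · norm_num
    · norm_num
    · exact fun g hg => (memC_fix L hg).1
    · exact Or.inl ⟨rfl, L.sigi⟩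
    · exact Or.inr ⟨rfl, L.epsi⟩
  have h22 : HB (cv (4 : K) 2) C σ ε (-1) (-1) :=
    hb_J hJ hCk h11 (Or.inr ⟨rfl, hsk⟩) (Or.inr ⟨rfl, hek⟩)
  have h21 : HB (cv (4 : K) 2) C σ ε (-1) 1 :=
    hb_J hJ hCk h12 (Or.inr ⟨rfl, hsk⟩) (Or.inr ⟨by norm_num, hek⟩)
  exact hb_all h11 h12 h21 h22

theorem basePts_D (L : Lay K p h α W W' i a b u n C σ ε) (hV : Dya K V h α) :
    BasePts (cv (-4 : K) 8) C σ ε := by
  have hr := r2_sq L
  have hr0 := r2_ne L
  have hi := L.seq.i2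
  have hi0 := i_ne L
  have h11 : HB (cv (-4 : K) 8) C σ ε 1 1 := hb_one (hasK_D L hV).1
  have h12 : HB (cv (-4 : K) 8) C σ ε 1 (-1) := by
    have hT : TwoTors ((cv (4 : K) 8)⁄M) 0 (-2 + 2 * i) (-2 - 2 * i) := by
      refine cv_twoTors' ?_ ?_ (by norm_num) ?_
      · rw [map_ofNat]
        ring
      · rw [map_ofNat]
        linear_combination (-4) * hi
      · intro h0
        apply hi0
        have h5 : 4 * i = 0 := by linear_combination h0
        exact (mul_eq_zero.1 h5).resolve_left (by norm_num)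
    refine hb_tw (v := i) (d := (-1 : K)) hT ?_ hi0 ?_ ?_ (hasK_D L hV).2 ?_ ?_ ?_
    · rw [hi, map_neg, map_one]
    · norm_num
    · norm_num
    · exact fun g hg => (memC_fix L hg).1
    · exact Or.inl ⟨rfl, L.sigi⟩
    · exact Or.inr ⟨rfl, L.epsi⟩
  have h21 : HB (cv (-4 : K) 8) C σ ε (-1) 1 := by
    have hT : TwoTors ((cv (-2 : K) 2)⁄M) 0 (1 + i) (1 - i) := by
      refine cv_twoTors' ?_ ?_ (by norm_num) ?_
      · rw [map_neg, map_ofNat]
        ring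
      · rw [map_ofNat]
        linear_combination -hi
      · intro h0
        apply hi0
        have h5 : 2 * i = 0 := by linear_combination h0
        exact (mul_eq_zero.1 h5).resolve_left (by norm_num)
    refine hb_tw (v := r2 W W' b) (d := (2 : K)) hT ?_ hr0 ?_ ?_ (hasK_O L hV) ?_ ?_ ?_
    · rw [hr, map_ofNat]
    · norm_num
    · norm_num
    · exact fun g hg => (memC_fix L hg).2.2
    · exact Or.inr ⟨rfl, sig_r2 L⟩
    · exact Or.inl ⟨rfl, eps_r2 L⟩
  have h22 : HB (cv (-4 : K) 8) C σ ε (-1) (-1) := by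
    have hT : TwoTors ((cv (2 : K) 2)⁄M) 0 (-1 + i) (-1 - i) := by
      refine cv_twoTors' ?_ ?_ (by norm_num) ?_
      · rw [map_ofNat]
        ring
      · rw [map_ofNat]
        linear_combination -hi
      · intro h0
        apply hi0
        have h5 : 2 * i = 0 := by linear_combination h0
        exact (mul_eq_zero.1 h5).resolve_left (by norm_num)
    refine hb_tw (v := i * r2 W W' b) (d := (-2 : K)) hT ?_ (mul_ne_zero hi0 hr0) ?_ ?_
      (hasK_E L hV) ?_ ?_ ?_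
    · rw [mul_pow, hi, hr, map_neg, map_ofNat]
      ring
    · norm_num
    · norm_num
    · exact fun g hg => by rw [map_mul, (memC_fix L hg).1, (memC_fix L hg).2.2]
    · exact Or.inr ⟨rfl, by rw [map_mul, L.sigi, sig_r2 L, mul_neg]⟩
    · exact Or.inr ⟨rfl, by rw [map_mul, L.epsi, eps_r2 L, neg_mul]⟩
  exact hb_all h11 h12 h21 h22

end Pool.Agent.Work.MP_787500_nt.GO
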