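import Mathlib
import Pool.Agent.Work.MP_787500_nt.GO.Basic
import Pool.Agent.Work.MP_787500_nt.HC.VlB
import Pool.Agent.Work.MP_787500_nt.HC.VlF

/-!
# Module CoA: valuations of `1 - i Z_0`  [size M]

`i Z 0 = W'^2/(1 + W^2)` (`i^2 = -1`), so `1 - i Z 0 = (1 + W^2 - W'^2)/(1 + W^2)` with `W = W 1`; for `g` in the Galois group `g (1 - i Z 0)` is the same expression for `W (f g)` (`L.act`; note `g (i Z 0)` does not involve `g i`).
Let `X c = 1 - W' c ^2/(1 + W c ^2)`. `HC.val_rec_dyadic` for `W` (`H.rec1`) and for `W'` with `p⁻¹` (`H.rec2`), `HC.W_unit`.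
* `co_unit`: `V 2 = 1`: `V (W) = V (W') = 1` (`W_unit`), `V (1 + W^2) = 1` (rec1), `V (1 + W'^2) = 1` (rec2), `(1 - W'^2)(1 + W'^2) = W^4`, `(1 + W^2 - W'^2)^2 = 2 (1 + W^2)(1 - W'^2)` (`four`). Also `V α = 1`: `H.prod`.
* `co_dya`: `V 2 < 1` and `V α < 1`: then `V (W c) = 1`, `V (1 + W^2) = V 2` for all `c` (the other case of `val_rec_dyadic` gives `V (1 + W (p^k c)^2) = 1` for all `k`, so `V α = 1` by `H.prod`), `V (W^2 - 1) = V 8`, `V W' = V 2`
  (as in `HC/VlB.lean`), `V (X c - (1 - 2 (W' c/2)^2)) ≤ V 4` and `V (X c) = 1`; `V α = V 2 ^h`.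
* `co_conj`: `V 2 < 1` and `V α = 1`: then `V (W c) = V 2` for all `c` (the other case gives `V α = V 2^h < 1`), `V (W'^4) = V (1 - W^4) = 1`, `V (1 + W'^2) = V 2` (rec2), `V (1 - W'^2) = V 8` (`(1 - W'^2)(1 + W'^2) = W^4`), so `V (X c) = V 4`.
* `val_al`: `V α ≤ 1` for all valuations with `V 2 ≤ 1`: by the three cases (`H.prod`, integrality of `W`: `V (W) ≤ 1`).
-/

set_option autoImplicit false

namespace Pool.Agent.Work.MP_787500_nt.GO

open WithZero IsDedekindDomain NumberField WeierstrassCurve WeierstrassCurve.Affine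
open Pool.Agent.Work.MP_787500_nt.HC

universe u

variable {K F A : Type*} [Field K] [Field F] [CharZero F] [Algebra K F] [CommGroup A] [Finite A]
variable {p : A} {h : ℕ} {α : K} {W W' : A → F} {V : Valuation F ℤᵐ⁰}

private theorem coa_sq {x y : ℤᵐ⁰} (h : x ^ 2 = y ^ 2) : x = y := by
  rcases lt_trichotomy x y with h1 | h1 | h1
  · exact absurd h (pow_lt_pow_left₀ h1 zero_le two_ne_zero).ne
  · exact h1
  · exact absurd h (pow_lt_pow_left₀ h1 zero_le two_ne_zero).ne'

private theorem coa_rec (H : Wdata K F p h α W W') (b : A) :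
    W' (p⁻¹ * b) ^ 2 * (1 + W' b ^ 2) = 2 * W' b := by
  have h3 := H.rec2 (p⁻¹ * b)
  rwa [mul_inv_cancel_left] at h3

private theorem coa_D (H : Wdata K F p h α W W') (c : A) : 1 + W c ^ 2 ≠ 0 := by
  intro h0
  have h1 := H.rec1 c
  rw [h0, mul_zero] at h1
  exact (mul_ne_zero two_ne_zero (H.ne c)) h1.symm

private theorem coa_N (H : Wdata K F p h α W W') (c : A) :
    (1 + W c ^ 2 - W' c ^ 2) ^ 2 = 2 * (1 + W c ^ 2) * (1 - W' c ^ 2) := by
  linear_combination H.four c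

private theorem coa_f (H : Wdata K F p h α W W') (c : A) :
    (1 - W' c ^ 2) * (1 + W' c ^ 2) = W c ^ 4 := by
  linear_combination -(H.four c)

private theorem coa_f' (H : Wdata K F p h α W W') (c : A) :
    (1 - W c ^ 2) * (1 + W c ^ 2) = W' c ^ 4 := by
  linear_combination -(H.four c)

private theorem coa_X (H : Wdata K F p h α W W') (c : A) :
    1 - W' c ^ 2 / (1 + W c ^ 2) = (1 + W c ^ 2 - W' c ^ 2) / (1 + W c ^ 2) := by
  rw [sub_div, div_self (coa_D H c)]

private theorem coa_prod (H : Wdata K F p h α W W') (c : A) {t : ℤᵐ⁰}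
    (ht : ∀ k : ℕ, V (1 + W (p ^ k * c) ^ 2) = t) : V (algebraMap K F α) = t ^ h := by
  have h3 := congrArg V (H.prod c)
  rw [map_pow, map_pow, map_prod, Finset.prod_congr rfl (fun k _ => ht k),
    Finset.prod_const, Finset.card_range] at h3
  exact coa_sq h3

private theorem coa_dich (H : Wdata K F p h α W W') (h2 : V 2 < 1) (c : A) :
    ((∀ k : ℕ, V (W (p ^ k * c)) = V 2) ∧ V (algebraMap K F α) = 1) ∨
      ((∀ k : ℕ, V (W (p ^ k * c)) = 1 ∧ V (1 + W (p ^ k * c) ^ 2) = V 2) ∧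
        V (algebraMap K F α) = V 2 ^ h) := by
  rcases val_rec_dyadic V h2 H.ne H.rec1 c with h1 | h1
  · left
    refine ⟨h1, ?_⟩
    have h3 : ∀ k : ℕ, V (1 + W (p ^ k * c) ^ 2) = 1 := fun k => by
      apply Valuation.map_one_add_of_lt
      rw [map_pow, h1 k]
      exact pow_lt_one₀ zero_le h2 two_ne_zero
    rw [coa_prod H c h3, one_pow]
  · right
    exact ⟨h1, coa_prod H c fun k => (h1 k).2⟩

theorem co_unit (H : Wdata K F p h α W W') (h2 : V 2 = 1) (c : A) :
    V (1 - W' c ^ 2 / (1 + W c ^ 2)) = 1 ∧ V (algebraMap K F α) = 1 := by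
  have hw := fun b => (W_unit H h2 b).1
  have hw' := fun b => (W_unit H h2 b).2
  have hD : ∀ b, V (1 + W b ^ 2) = 1 := by
    intro b
    have e1 := congrArg V (H.rec1 b)
    rwa [map_mul, map_pow, hw, one_pow, one_mul, map_mul, h2, one_mul, hw] at e1
  have hD' : V (1 + W' c ^ 2) = 1 := by
    have e1 := congrArg V (coa_rec H c)
    rwa [map_mul, map_pow, hw', one_pow, one_mul, map_mul, h2, one_mul, hw'] at e1
  have hE : V (1 - W' c ^ 2) = 1 := by
    have e1 := congrArg V (coa_f H c)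
    rwa [map_mul, hD', mul_one, map_pow, hw, one_pow] at e1
  have hN : V (1 + W c ^ 2 - W' c ^ 2) = 1 := by
    have e1 := congrArg V (coa_N H c)
    rw [map_pow, map_mul, map_mul, h2, hD, hE, one_mul, one_mul] at e1
    exact vla_eq_one_of_pow two_ne_zero e1
  refine ⟨?_, ?_⟩
  · rw [coa_X H c, map_div₀, hN, hD, div_one]
  · rw [coa_prod H c fun k => hD _, one_pow]

theorem co_dya (H : Wdata K F p h α W W') (h2 : V 2 < 1) (hα : V (algebraMap K F α) < 1) (c : A) :
    V (1 - W' c ^ 2 / (1 + W c ^ 2)) = 1 ∧ V (algebraMap K F α) = V 2 ^ h ∧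
      V (1 - W' c ^ 2 / (1 + W c ^ 2) - (1 - 2 * (W' c / 2) ^ 2)) ≤ V 4 := by
  have h20 : V 2 ≠ 0 := (V.ne_zero_iff).2 two_ne_zero
  have hW : ∀ b, V (W b) = 1 ∧ V (1 + W b ^ 2) = V 2 ∧ V (algebraMap K F α) = V 2 ^ h := by
    intro b
    rcases coa_dich H h2 b with h1 | h1
    · exact absurd h1.2 hα.ne
    · have h3 := h1.1 0
      rw [pow_zero, one_mul] at h3
      exact ⟨h3.1, h3.2, h1.2⟩
  have e1' := congrArg V (coa_f' H c)
  rw [map_mul, (hW c).2.1, map_pow] at e1'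
  have hW' : V (W' c) = V 2 := by
    rcases val_rec_dyadic V h2 H.ne' (coa_rec H) c with h1 | h1
    · have h3 := h1 0
      rwa [pow_zero, one_mul] at h3
    · exfalso
      have h3 := (h1 0).1
      rw [pow_zero, one_mul] at h3
      rw [h3, one_pow] at e1'
      have h5 : V (1 - W c ^ 2) ≤ 1 := V.map_sub_le (by rw [map_one]) (by
        rw [map_pow, (hW c).1, one_pow])
      have h4 : V (1 - W c ^ 2) * V 2 < 1 :=
        lt_of_le_of_lt (mul_le_of_le_one_left' h5) h2
      exact absurd e1' h4.ne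
  rw [hW'] at e1'
  have e2 : V (1 - W c ^ 2) = V 2 ^ 3 := by
    apply mul_right_cancel₀ h20
    rw [e1', ← pow_succ]
  have hD : (1 + W c ^ 2) ≠ 0 := coa_D H c
  refine ⟨?_, (hW c).2.2, ?_⟩
  · apply Valuation.map_one_sub_of_lt
    rw [map_div₀, map_pow, hW', (hW c).2.1, sq, mul_div_assoc, div_self h20, mul_one]
    exact h2
  · have e3 : 1 - W' c ^ 2 / (1 + W c ^ 2) - (1 - 2 * (W' c / 2) ^ 2) =
        -(W' c ^ 2 * (1 - W c ^ 2) / (2 * (1 + W c ^ 2))) := by
      field_simp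
      ring
    rw [e3, Valuation.map_neg, map_div₀, map_mul, map_mul, map_pow, hW', e2, (hW c).2.1]
    have e4 : V 2 ^ 2 * V 2 ^ 3 / (V 2 * V 2) = V 2 ^ 3 := by
      rw [← sq, mul_comm, mul_div_assoc, div_self (pow_ne_zero 2 h20), mul_one]
    have e5 : V 4 = V 2 ^ 2 := by
      rw [← map_pow]
      norm_num
    rw [e4, e5]
    exact pow_le_pow_right_of_le_one' h2.le (by norm_num)

theorem co_conj (H : Wdata K F p h α W W') (hh : h ≠ 0) (h2 : V 2 < 1) (hα : V (algebraMap K F α) = 1) (c : A) :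
    V (1 - W' c ^ 2 / (1 + W c ^ 2)) = V 4 := by
  have h20 : V 2 ≠ 0 := (V.ne_zero_iff).2 two_ne_zero
  have hW : ∀ b, V (W b) = V 2 := by
    intro b
    rcases coa_dich H h2 b with h1 | h1
    · have h3 := h1.1 0
      rwa [pow_zero, one_mul] at h3
    · exfalso
      rw [hα] at h1
      exact absurd h1.2.symm (pow_lt_one₀ zero_le h2 hh).ne
  have hW4 : ∀ b, V (W b ^ 4) < 1 := by
    intro b
    rw [map_pow, hW]
    exact pow_lt_one₀ zero_le h2 (by norm_num)
  have hW' : ∀ b, V (W' b) = 1 := by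
    intro b
    have e1 : W' b ^ 4 = 1 - W b ^ 4 := by linear_combination H.four b
    have e2 := congrArg V e1
    rw [map_pow, Valuation.map_one_sub_of_lt _ (hW4 b)] at e2
    exact vla_eq_one_of_pow (by norm_num) e2
  have hD' : V (1 + W' c ^ 2) = V 2 := by
    have e1 := congrArg V (coa_rec H c)
    rwa [map_mul, map_pow, hW', one_pow, one_mul, map_mul, hW', mul_one] at e1
  have hE : V (1 - W' c ^ 2) = V 2 ^ 3 := by
    have e1 := congrArg V (coa_f H c)
    rw [map_mul, hD', map_pow, hW] at e1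
    apply mul_right_cancel₀ h20
    rw [e1, ← pow_succ]
  have hD : V (1 + W c ^ 2) = 1 := by
    apply Valuation.map_one_add_of_lt
    rw [map_pow, hW c]
    exact pow_lt_one₀ zero_le h2 two_ne_zero
  have e5 : V 4 = V 2 ^ 2 := by
    rw [← map_pow]
    norm_num
  have hN : V (1 + W c ^ 2 - W' c ^ 2) = V 2 ^ 2 := by
    have e1 := congrArg V (coa_N H c)
    rw [map_pow, map_mul, map_mul, hD, hE, mul_one, ← pow_succ'] at e1
    apply coa_sq
    rw [e1, ← pow_mul]
  rw [coa_X H c, map_div₀, hN, hD, div_one, e5]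

theorem val_al (H : Wdata K F p h α W W') (h2 : V 2 < 1) :
    V (algebraMap K F α) < 1 ∨ V (algebraMap K F α) = 1 := by
  rcases coa_dich H h2 (1 : A) with h1 | h1
  · exact Or.inr h1.2
  · by_cases hh : h = 0
    · right
      rw [h1.2, hh, pow_zero]
    · left
      rw [h1.2]
      exact pow_lt_one₀ zero_le h2 hh

end Pool.Agent.Work.MP_787500_nt.GO
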