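import Mathlib
import Pool.Agent.Work.MP_787500_nt.GO.Basic
import Pool.Agent.Work.MP_787500_nt.H10_Quad
import Pool.Agent.Work.MP_787500_nt.HC.Defs

/-!
# Module CoU: an element of `K` which is a unit at all places is `± 1`  [size S-M]

`x` and `x⁻¹` are integral (valuations `≤ 1` at all finite places: `HeightOneSpectrum.mem_integers_of_valuation_le_one`). `2 x = a + b s`, `a, b ∈ ℤ` (`Quad.exists_int_coords`), and the norm
`(a^2 + q b^2)/4` is a positive integer dividing 1 (apply the same to `x⁻¹`, or `Quad.normSq_emb`): `a^2 + q b^2 = 4`, `q ≥ 7`, so `b = 0`, `a = ± 2`.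
-/

set_option autoImplicit false

namespace Pool.Agent.Work.MP_787500_nt.GO

open WithZero IsDedekindDomain NumberField WeierstrassCurve WeierstrassCurve.Affine
open Pool.Agent.Work.MP_787500_nt.HC

universe u

variable {K : Type u} [Field K] [NumberField K] {q : ℕ} {s : K}

private theorem cu_int {x : K} (h : ∀ w : HeightOneSpectrum (𝓞 K), w.valuation K x = 1) :
    IsIntegral ℤ x := by
  obtain ⟨y, hy⟩ := HeightOneSpectrum.mem_integers_of_valuation_le_one K x (fun w => (h w).le)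
  rw [← hy]
  exact y.isIntegral_coe

private theorem cu_four {q : ℕ} {a b : ℤ} (hq4 : q % 4 = 3) (h : (2 : ℤ) ∣ a - b) :
    ∃ m : ℤ, a ^ 2 + q * b ^ 2 = 4 * m := by
  obtain ⟨k, hk⟩ : ∃ k : ℕ, q = 4 * k + 3 := ⟨q / 4, by omega⟩
  obtain ⟨t, ht⟩ := h
  have ha : a = b + 2 * t := by linarith
  refine ⟨(k + 1) * b ^ 2 + b * t + t ^ 2, ?_⟩
  rw [hk, ha]
  push_cast
  ring

theorem unit_pm (hb : IsBase K q s) {x : K} (hx : x ≠ 0)
    (h : ∀ w : HeightOneSpectrum (𝓞 K), w.valuation K x = 1) : x = 1 ∨ x = -1 := by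
  obtain ⟨hK, hs, hq, hq16⟩ := hb
  have hq4 : q % 4 = 3 := by omega
  have h' : ∀ w : HeightOneSpectrum (𝓞 K), w.valuation K x⁻¹ = 1 := fun w => by
    rw [map_inv₀, h w, inv_one]
  obtain ⟨a, b, e1, d1⟩ := Quad.exists_int_coords hK hs hq hq4 (cu_int h)
  obtain ⟨c, d, e2, d2⟩ := Quad.exists_int_coords hK hs hq hq4 (cu_int h')
  have φ : K →+* ℂ := Classical.arbitrary _
  have n1 := Quad.normSq_emb hs hq.pos φ (a : ℚ) (b : ℚ)
  have n2 := Quad.normSq_emb hs hq.pos φ (c : ℚ) (d : ℚ)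
  have c1 : (((a : ℤ) : ℚ) : K) + ((b : ℤ) : ℚ) * s = 2 * x := by rw [e1]; push_cast; ring
  have c2 : (((c : ℤ) : ℚ) : K) + ((d : ℤ) : ℚ) * s = 2 * x⁻¹ := by rw [e2]; push_cast; ring
  rw [c1] at n1
  rw [c2] at n2
  have n3 : Complex.normSq (φ (2 * x)) * Complex.normSq (φ (2 * x⁻¹)) = 16 := by
    rw [← map_mul, ← map_mul, show (2 * x) * (2 * x⁻¹) = 4 by field_simp; norm_num]
    rw [map_ofNat]
    norm_num [Complex.normSq_apply]
  rw [n1, n2] at n3
  have n4 : (a ^ 2 + q * b ^ 2) * (c ^ 2 + q * d ^ 2) = (16 : ℤ) := by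
    have : (((a ^ 2 + q * b ^ 2) * (c ^ 2 + q * d ^ 2) : ℤ) : ℝ) = ((16 : ℤ) : ℝ) := by
      push_cast
      push_cast at n3
      exact n3
    exact_mod_cast this
  obtain ⟨m, hm⟩ := cu_four hq4 d1
  obtain ⟨n, hn⟩ := cu_four hq4 d2
  have hmn : m * n = 1 := by
    rw [hm, hn] at n4
    linarith
  have hm0 : 0 ≤ m := by
    have : 0 ≤ a ^ 2 + (q : ℤ) * b ^ 2 := by positivity
    linarith
  have hm1 : m = 1 := Int.eq_one_or_neg_one_of_mul_eq_one hmn |>.resolve_right (by omega)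
  rw [hm1] at hm
  have hb0 : b = 0 := by
    by_contra hb0
    have h1 : 1 ≤ b ^ 2 := by
      have : 0 < b ^ 2 := by positivity
      omega
    have h7 : (7 : ℤ) ≤ q := by
      have : 7 ≤ q := by omega
      exact_mod_cast this
    nlinarith [sq_nonneg a]
  rw [hb0] at hm e1
  have ha : a = 2 ∨ a = -2 := by
    have h1 : a ^ 2 = 2 ^ 2 := by linarith
    exact sq_eq_sq_iff_eq_or_eq_neg.1 h1
  have h2 : (2 : K) ≠ 0 := two_ne_zero
  rcases ha with ha | ha
  · left
    apply mul_left_cancel₀ h2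
    rw [e1, ha]
    push_cast
    ring
  · right
    apply mul_left_cancel₀ h2
    rw [e1, ha]
    push_cast
    ring

end Pool.Agent.Work.MP_787500_nt.GO
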