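import Mathlib
import Pool.Agent.Work.MP_787500_nt.GO.Basic
import Pool.Agent.Work.MP_787500_nt.GO.RtA
import Pool.Agent.Work.MP_787500_nt.HC.LyG

/-!
# Module QsA: quadratic elements of a layer  [size S-M]

`y^2 = d ∈ K`. `σ y = ± y`, `ε y = ± y`. One of `y, √2 y, i y, i √2 y` (`√2 = r2`: `σ r2 = -r2`, `ε r2 = r2`, `σ i = i`, `ε i = -i`) is fixed by `σ` and `ε`; call it `y'`, `y'^2 ∈ {d, 2d, -d, -2d}`. Then `y'` is
fixed by all `τ^h` (`L.gen`), and `τ y' = ± y'`, `h` odd, so `τ y' = y'` for all `τ`: `y' ∈ K` (`L.gal`, fixed field of the Galois group is `K`). So `d, 2d, -d` or `-2d` is a square in `K`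
(`2d = κ^2 → d = 2 (κ/2)^2`).
-/

set_option autoImplicit false

namespace Pool.Agent.Work.MP_787500_nt.GO

open WithZero IsDedekindDomain NumberField WeierstrassCurve WeierstrassCurve.Affine
open Pool.Agent.Work.MP_787500_nt.HC

universe u

variable {K M A : Type*} [Field K] [CharZero K] [Field M] [Algebra K M] [CommGroup A]
variable {p : A} {h : ℕ} {α : K} {W W' : A → M} {i : M} {a b u : ℕ → M}
variable {n : ℕ} {C : Finset (M ≃ₐ[K] M)} {σ ε : M ≃ₐ[K] M}

/-- an element fixed by all `h`-th powers and by `C` is in `K` -/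
theorem mem_base [FiniteDimensional K M] (L : Lay K p h α W W' i a b u n C σ ε) {x : M}
    (h1 : ∀ τ : M ≃ₐ[K] M, (τ ^ h) x = x) (h2 : ∀ g ∈ C, g x = x) :
    ∃ t : K, algebraMap K M t = x := by
  obtain ⟨e, he⟩ := L.exp
  have hgal := L.gal
  have hmem : x ∈ (⊥ : IntermediateField K M) := by
    rw [IsGalois.mem_bot_iff_fixed]
    intro τ
    have hS1 : τ ^ h ∈ MulAction.stabilizer (M ≃ₐ[K] M) x := h1 τ
    have hS2 : τ ^ 2 ^ e ∈ MulAction.stabilizer (M ≃ₐ[K] M) x := by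
      refine h2 _ ((L.memC _).2 ?_)
      rw [← pow_mul, mul_comm, pow_mul]
      exact he τ
    have hc : Nat.Coprime h (2 ^ e) := (Nat.coprime_two_right.2 L.odd).pow_right e
    obtain ⟨c1, c2, hc12⟩ := Nat.isCoprime_iff_coprime.2 hc
    have e1 : τ = (τ ^ h) ^ c1 * (τ ^ 2 ^ e) ^ c2 := by
      rw [← zpow_natCast τ h, ← zpow_natCast τ (2 ^ e), ← zpow_mul, ← zpow_mul, ← zpow_add,
        mul_comm (h : ℤ), mul_comm ((2 ^ e : ℕ) : ℤ), hc12, zpow_one]
    have h3 : τ ∈ MulAction.stabilizer (M ≃ₐ[K] M) x := by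
      rw [e1]
      exact mul_mem (zpow_mem hS1 _) (zpow_mem hS2 _)
    exact h3
  exact IntermediateField.mem_bot.1 hmem

private theorem qs_pow_odd {F : Type*} [Field F] {L : Type*} [Field L] [Algebra F L]
    {g : L ≃ₐ[F] L} {y : L} (hg : g y = -y) {m : ℕ} (hm : Odd m) : (g ^ m) y = -y := by
  obtain ⟨k, rfl⟩ := hm
  have h2 : ∀ j : ℕ, (g ^ (2 * j)) y = y := by
    intro j
    induction j with
    | zero => rfl
    | succ j ih =>
      rw [Nat.mul_succ, pow_add, AlgEquiv.mul_apply, pow_two, AlgEquiv.mul_apply, hg, map_neg, hg,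
        neg_neg, ih]
  rw [pow_succ', AlgEquiv.mul_apply, h2, hg]

private theorem qs_key [FiniteDimensional K M] (L : Lay K p h α W W' i a b u n C σ ε) {y : M}
    {d : K} (hy : y ^ 2 = algebraMap K M d) (hσ : σ y = y) (hε : ε y = y) :
    ∃ κ : K, d = κ ^ 2 := by
  have hpow : ∀ k : ℕ, (σ ^ k) y = y := by
    intro k
    induction k with
    | zero => rfl
    | succ k ih => rw [pow_succ, AlgEquiv.mul_apply, hσ, ih]
  obtain ⟨κ, hκ⟩ := mem_base L (x := y) (fun τ => by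
    obtain ⟨k, h1 | h1⟩ := L.gen τ
    · rw [h1, hpow]
    · rw [h1, AlgEquiv.mul_apply, hpow, hε]) (fun g hg => by
    have h1 : g y = y ∨ g y = -y := by
      apply sq_eq_sq_iff_eq_or_eq_neg.1
      rw [← map_pow, hy, AlgEquiv.commutes]
    rcases h1 with h1 | h1
    · exact h1
    · have h3 := qs_pow_odd h1 L.odd
      rw [(L.memC g).1 hg] at h3
      have h4 : y = -y := h3
      rw [h1]
      exact h4.symm)
  refine ⟨κ, ?_⟩
  apply (algebraMap K M).injective
  rw [← hy, ← hκ, map_pow]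

theorem quad_sub [FiniteDimensional K M] (L : Lay K p h α W W' i a b u n C σ ε) {y : M} {d : K}
    (hy : y ^ 2 = algebraMap K M d) :
    ∃ κ : K, d = κ ^ 2 ∨ d = -κ ^ 2 ∨ d = 2 * κ ^ 2 ∨ d = -(2 * κ ^ 2) := by
  have hσ : σ y = y ∨ σ y = -y := by
    apply sq_eq_sq_iff_eq_or_eq_neg.1
    rw [← map_pow, hy, AlgEquiv.commutes]
  have hε : ε y = y ∨ ε y = -y := by
    apply sq_eq_sq_iff_eq_or_eq_neg.1
    rw [← map_pow, hy, AlgEquiv.commutes]
  have hi2 : i ^ 2 = -1 := L.seq.i2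
  have hr2 := r2_sq L
  have hsr := sig_r2 L
  have her := eps_r2 L
  have hsi := L.sigi
  have hei := L.epsi
  rcases hσ with hσ | hσ <;> rcases hε with hε | hε
  · obtain ⟨κ, hκ⟩ := qs_key L hy hσ hε
    exact ⟨κ, Or.inl hκ⟩
  · obtain ⟨κ, hκ⟩ := qs_key L (y := i * y) (d := -d) (by
      rw [mul_pow, hi2, hy, map_neg]; ring) (by rw [map_mul, hsi, hσ]) (by
      rw [map_mul, hei, hε]; ring)
    exact ⟨κ, Or.inr (Or.inl (by linear_combination -hκ))⟩
  · obtain ⟨κ, hκ⟩ := qs_key L (y := r2 W W' b * y) (d := 2 * d) (by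
      rw [mul_pow, hr2, hy, map_mul, map_ofNat]) (by rw [map_mul, hsr, hσ]; ring) (by
      rw [map_mul, her, hε])
    exact ⟨κ / 2, Or.inr (Or.inr (Or.inl (by linear_combination (1 / 2 : K) * hκ)))⟩
  · obtain ⟨κ, hκ⟩ := qs_key L (y := i * r2 W W' b * y) (d := -(2 * d)) (by
      rw [mul_pow, mul_pow, hr2, hi2, hy, map_neg, map_mul, map_ofNat]; ring) (by
      rw [map_mul, map_mul, hsi, hsr, hσ]; ring) (by
      rw [map_mul, map_mul, hei, her, hε]; ring)
    exact ⟨κ / 2, Or.inr (Or.inr (Or.inr (by linear_combination (-1 / 2 : K) * hκ)))⟩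

end Pool.Agent.Work.MP_787500_nt.GO
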