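import Mathlib
import Pool.Agent.Work.MP_787500_nt.GO.Basic
import Pool.Agent.Work.MP_787500_nt.HC.VlC
import Pool.Agent.Work.MP_787500_nt.HC.VlD
import Pool.Agent.Work.MP_787500_nt.GO.VaF
import Pool.Agent.Work.MP_787500_nt.GO.QsA

/-!
# Module NuA: the product of `1 + W^2` is 5 modulo 8  [size M]

`ν = nm C (1 + W 1 ^2) = ∏ (1 + W (f g)^2)`, `g (W 1) = W (f g)` (`L.act`). It is in `K`: `mem_base` (fixed by the `τ^h` since the `W` are; `g ∈ C` permutes the factors, `C` is a subgroup).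
So `ν = 2^|C| ν₀`, `ν₀ ∈ K`. `ν₀ = ∏ (1 + W (f g)^2)/2` and `V ((1 + W c ^2)/2 - (1 - 4 (W' c/2)^4)) ≤ V 16` (private theorem `vlc_c` in `HC/VlC.lean`, copy it: `(W^2-1)(W^2+1) = -W'^4`). The product of
`1 - 4 t_g` modulo 16 is `1 - 4 ∑ t_g`, `t_g = (W' (f g)/2)^4`. `V (∑ t_g - 1) < 1`: `V ((∑ x)^4 - ∑ x^4) < 1` (`vlc_sq_sum` twice), `∑ x = ∑ g (W' 1/2) ∈ K`, `V (∑ x - 1) < 1` (`sumW`, `hV.res`).
`∑ t_g ∈ K` (`mem_base`), so `V (∑ t_g - 1) ≤ V 2` (`hV.unif`), and `V (ν₀ - (1 - 4)) ≤ V 8`, i.e. `V (ν₀ - 5) ≤ V 8`.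
-/

set_option autoImplicit false

namespace Pool.Agent.Work.MP_787500_nt.GO

open WithZero IsDedekindDomain NumberField WeierstrassCurve WeierstrassCurve.Affine
open Pool.Agent.Work.MP_787500_nt.HC

universe u

variable {K M A : Type*} [Field K] [CharZero K] [Field M] [CharZero M] [Algebra K M]
variable [FiniteDimensional K M] [CommGroup A] [Finite A]
variable {p : A} {h : ℕ} {α : K} {W W' : A → M} {i : M} {a b u : ℕ → M}
variable {n : ℕ} {C : Finset (M ≃ₐ[K] M)} {σ ε : M ≃ₐ[K] M} {V : Valuation M ℤᵐ⁰}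

omit [CharZero K] [CharZero M] [FiniteDimensional K M] in
private theorem nua_sum_fix {h : ℕ} {C : Finset (M ≃ₐ[K] M)}
    (hcomm : ∀ τ ρ : M ≃ₐ[K] M, τ * ρ = ρ * τ) (hC : ∀ g : M ≃ₐ[K] M, g ∈ C ↔ g ^ h = 1)
    {g : M ≃ₐ[K] M} (hg : g ∈ C) (x : M) : g (∑ f ∈ C, f x) = ∑ f ∈ C, f x := by
  rw [map_sum]
  have hgc : ∀ f : M ≃ₐ[K] M, Commute g f := fun f => hcomm g f
  refine Finset.sum_bij' (fun f _ => g * f) (fun f _ => g⁻¹ * f) ?_ ?_ ?_ ?_ ?_
  · intro f hf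
    rw [hC] at hf hg ⊢
    rw [(hgc f).mul_pow, hg, hf, one_mul]
  · intro f hf
    rw [hC] at hf hg ⊢
    rw [((hgc f).inv_left).mul_pow, inv_pow, hg, hf, inv_one, one_mul]
  · intro f _
    exact inv_mul_cancel_left g f
  · intro f _
    exact mul_inv_cancel_left g f
  · intro f _
    rfl

omit [CharZero K] [CharZero M] [FiniteDimensional K M] in
private theorem nua_prod_fix {h : ℕ} {C : Finset (M ≃ₐ[K] M)}
    (hcomm : ∀ τ ρ : M ≃ₐ[K] M, τ * ρ = ρ * τ) (hC : ∀ g : M ≃ₐ[K] M, g ∈ C ↔ g ^ h = 1)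
    {g : M ≃ₐ[K] M} (hg : g ∈ C) (x : M) : g (∏ f ∈ C, f x) = ∏ f ∈ C, f x := by
  rw [map_prod]
  have hgc : ∀ f : M ≃ₐ[K] M, Commute g f := fun f => hcomm g f
  refine Finset.prod_bij' (fun f _ => g * f) (fun f _ => g⁻¹ * f) ?_ ?_ ?_ ?_ ?_
  · intro f hf
    rw [hC] at hf hg ⊢
    rw [(hgc f).mul_pow, hg, hf, one_mul]
  · intro f hf
    rw [hC] at hf hg ⊢
    rw [((hgc f).inv_left).mul_pow, inv_pow, hg, hf, inv_one, one_mul]
  · intro f _
    exact inv_mul_cancel_left g f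
  · intro f _
    exact mul_inv_cancel_left g f
  · intro f _
    rfl

omit [CharZero K] [FiniteDimensional K M] in
private theorem nua_c (H : Wdata K M p h α W W') (hV : Dya K V h α) (a : A) :
    V ((1 + W a ^ 2) / 2) = 1 ∧
      V ((1 + W a ^ 2) / 2 - (1 - 4 * (W' a / 2) ^ 4)) ≤ V 16 := by
  have h20 : V 2 ≠ 0 := (V.ne_zero_iff).2 two_ne_zero
  obtain ⟨-, h1, -, h3⟩ := val_W H hV a
  refine ⟨by rw [map_div₀, h1, div_self h20], ?_⟩
  have e1 : (1 + W a ^ 2) / 2 - (1 - 4 * (W' a / 2) ^ 4) = -((W a ^ 2 - 1) / 2) ^ 2 := by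
    linear_combination (1 / 4) * H.four a
  have h8 : V 8 = V 2 ^ 3 := by
    rw [← map_pow]
    norm_num
  have h16 : V 16 = V 2 ^ 4 := by
    rw [← map_pow]
    norm_num
  have h4 : V 2 ^ 3 / V 2 = V 2 ^ 2 := by
    rw [div_eq_iff h20, ← pow_succ]
  rw [e1, Valuation.map_neg, map_pow, map_div₀, h3, h8, h4, h16, ← pow_mul]

omit [CharZero K] [FiniteDimensional K M] in
private theorem nua_prod (H : Wdata K M p h α W W') (hV : Dya K V h α) {ι : Type*}
    (s : Finset ι) (f : ι → A) :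
    V (∏ k ∈ s, (1 + W (f k) ^ 2) / 2) = 1 ∧
      V (∑ k ∈ s, (W' (f k) / 2) ^ 4) ≤ 1 ∧
      V (∏ k ∈ s, (1 + W (f k) ^ 2) / 2 -
        (1 - 4 * ∑ k ∈ s, (W' (f k) / 2) ^ 4)) ≤ V 16 := by
  classical
  induction s using Finset.induction_on with
  | empty => simp
  | insert n s hn ih =>
    obtain ⟨h1, h2, h3⟩ := ih
    obtain ⟨h4, h5⟩ := nua_c H hV (f n)
    rw [Finset.prod_insert hn, Finset.sum_insert hn]
    set P := ∏ k ∈ s, (1 + W (f k) ^ 2) / 2 with hP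
    set S := ∑ k ∈ s, (W' (f k) / 2) ^ 4 with hS
    set c := (1 + W (f n) ^ 2) / 2 with hc
    set y := (W' (f n) / 2) ^ 4 with hy
    have hy1 : V y = 1 := by rw [hy, map_pow, vlc_Y H hV, one_pow]
    have h41 : V (4 : M) ≤ 1 := by
      rw [vlc_four]
      exact pow_le_one' hV.two.le 2
    refine ⟨by rw [map_mul, h1, h4, mul_one], V.map_add_le hy1.le h2, ?_⟩
    have e1 : c * P - (1 - 4 * (y + S)) = 16 * (S * y) + ((P - (1 - 4 * S)) * (1 - 4 * y) +
        P * (c - (1 - 4 * y))) := by ring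
    rw [e1]
    refine V.map_add_le ?_ (V.map_add_le ?_ ?_)
    · rw [map_mul, map_mul]
      exact mul_le_of_le_one_right' (mul_le_one' h2 hy1.le)
    · rw [map_mul]
      refine (mul_le_of_le_one_right' (V.map_sub_le (by rw [map_one]) ?_)).trans h3
      rw [map_mul]
      exact mul_le_one' h41 hy1.le
    · rw [map_mul, h1, one_mul]
      exact h5

theorem nu_val (L : Lay K p h α W W' i a b u n C σ ε) (hV : Dya K V h α) :
    ∃ ν₀ : K, nm C (1 + W 1 ^ 2) = 2 ^ C.card * algebraMap K M ν₀ ∧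
      V (algebraMap K M ν₀ - 5) ≤ V 8 := by
  choose f hf using L.act
  have hW : ∀ g : M ≃ₐ[K] M, g (W 1) = W (f g) := fun g => by
    rw [(hf g 1).1, mul_one]
  have hW' : ∀ g : M ≃ₐ[K] M, g (W' 1) = W' (f g) := fun g => by
    rw [(hf g 1).2, mul_one]
  -- the product
  have eP : ∏ g ∈ C, g ((1 + W 1 ^ 2) / 2) = ∏ g ∈ C, (1 + W (f g) ^ 2) / 2 := by
    refine Finset.prod_congr rfl fun g _ => ?_
    rw [map_div₀, map_add, map_pow, map_one, map_ofNat, hW]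
  have eS : ∑ g ∈ C, g ((W' 1 / 2) ^ 4) = ∑ g ∈ C, (W' (f g) / 2) ^ 4 := by
    refine Finset.sum_congr rfl fun g _ => ?_
    rw [map_pow, map_div₀, map_ofNat, hW']
  have eT : ∑ g ∈ C, g (W' 1 / 2) = ∑ g ∈ C, W' (f g) / 2 := by
    refine Finset.sum_congr rfl fun g _ => ?_
    rw [map_div₀, map_ofNat, hW']
  obtain ⟨ν₀, hν⟩ : ∃ t : K, algebraMap K M t = ∏ g ∈ C, (1 + W (f g) ^ 2) / 2 := by
    refine mem_base L (fun τ => ?_) fun g hg => ?_
    · rw [map_prod]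
      refine Finset.prod_congr rfl fun g _ => ?_
      rw [map_div₀, map_add, map_pow, map_one, map_ofNat, (L.fixW τ (f g)).1]
    · rw [← eP]
      exact nua_prod_fix L.comm L.memC hg _
  obtain ⟨S₀, hS₀⟩ : ∃ t : K, algebraMap K M t = ∑ g ∈ C, (W' (f g) / 2) ^ 4 := by
    refine mem_base L (fun τ => ?_) fun g hg => ?_
    · rw [map_sum]
      refine Finset.sum_congr rfl fun g _ => ?_
      rw [map_pow, map_div₀, map_ofNat, (L.fixW τ (f g)).2]
    · rw [← eS]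
      exact nua_sum_fix L.comm L.memC hg _
  obtain ⟨T₀, hT₀⟩ : ∃ t : K, algebraMap K M t = ∑ g ∈ C, W' (f g) / 2 := by
    refine mem_base L (fun τ => ?_) fun g hg => ?_
    · rw [map_sum]
      refine Finset.sum_congr rfl fun g _ => ?_
      rw [map_div₀, map_ofNat, (L.fixW τ (f g)).2]
    · rw [← eT]
      exact nua_sum_fix L.comm L.memC hg _
  obtain ⟨h1, h2, h3⟩ := nua_prod L.data hV C f
  have h8 : V 8 = V 4 * V 2 := by
    rw [← map_mul]
    norm_num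
  -- the sum of the fourth powers
  have hY : ∀ g ∈ C, V (W' (f g) / 2) ≤ 1 := fun g _ => (vlc_Y L.data hV _).le
  have hY2 : ∀ g ∈ C, V ((W' (f g) / 2) ^ 2) ≤ 1 := fun g hg => by
    rw [map_pow]
    exact pow_le_one' (hY g hg) 2
  obtain ⟨hT, hT2⟩ := vlc_sq_sum (V := V) C _ hY
  obtain ⟨hU, hU2⟩ := vlc_sq_sum (V := V) C _ hY2
  have hT1 : V (algebraMap K M T₀) = 1 := by
    rw [hT₀, ← eT]
    exact sumW L hV 1
  have hT3 : V (algebraMap K M T₀ - 1) < 1 := by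
    rcases hV.res T₀ hT1.le with h5 | h5
    · exact absurd hT1 h5.ne
    · exact h5
  have hS1 : V (algebraMap K M S₀ - 1) < 1 := by
    have e8 : ∑ g ∈ C, ((W' (f g) / 2) ^ 2) ^ 2 = algebraMap K M S₀ := by
      rw [hS₀]
      refine Finset.sum_congr rfl fun g _ => ?_
      rw [← pow_mul]
    rw [e8] at hU2
    rw [← hT₀] at hT hT2
    have h5 : V ((algebraMap K M T₀ ^ 2) ^ 2 - 1) < 1 := by
      have e9 : (algebraMap K M T₀ ^ 2) ^ 2 - 1 = (algebraMap K M T₀ ^ 2) ^ 2 - 1 ^ 2 := by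
        rw [one_pow]
      rw [e9]
      refine vlc_sq_lt ?_ (by rw [map_one]) ?_
      · rw [map_pow]
        exact pow_le_one' hT 2
      · have e10 : algebraMap K M T₀ ^ 2 - 1 = algebraMap K M T₀ ^ 2 - 1 ^ 2 := by
          rw [one_pow]
        rw [e10]
        exact vlc_sq_lt hT (by rw [map_one]) hT3
    have h6 : V ((algebraMap K M T₀ ^ 2) ^ 2 - algebraMap K M S₀) < 1 := by
      refine vla_trans_lt V (vlc_sq_lt (V := V) (x := algebraMap K M T₀ ^ 2)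
        (y := ∑ g ∈ C, (W' (f g) / 2) ^ 2) ?_ hU (lt_of_le_of_lt hT2 hV.two))
        (lt_of_le_of_lt hU2 hV.two)
      rw [map_pow]
      exact pow_le_one' hT 2
    rw [V.map_sub_swap] at h6
    exact vla_trans_lt V h6 h5
  have hS2 : V (algebraMap K M S₀ - 1) ≤ V 2 := by
    have e11 : algebraMap K M S₀ - 1 = algebraMap K M (S₀ - 1) := by
      rw [map_sub, map_one]
    rw [e11] at hS1 ⊢
    exact hV.unif _ hS1
  refine ⟨ν₀, ?_, ?_⟩
  · rw [hν, ← eP, ← Finset.prod_const, ← Finset.prod_mul_distrib, nm]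
    refine Finset.prod_congr rfl fun g _ => ?_
    rw [map_div₀, map_ofNat]
    field_simp
  · rw [hν]
    rw [← hS₀] at h3
    have e12 : ∏ g ∈ C, (1 + W (f g) ^ 2) / 2 - 5 =
        (∏ g ∈ C, (1 + W (f g) ^ 2) / 2 - (1 - 4 * algebraMap K M S₀)) +
          -(4 * (algebraMap K M S₀ - 1) + 8) := by ring
    rw [e12]
    refine V.map_add_le (h3.trans ?_) ?_
    · have e13 : (16 : M) = 8 * 2 := by norm_num
      rw [e13, map_mul]
      exact mul_le_of_le_one_right' hV.two.le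
    · rw [Valuation.map_neg]
      refine V.map_add_le ?_ le_rfl
      rw [map_mul, h8]
      exact mul_le_mul_right hS2 _

end Pool.Agent.Work.MP_787500_nt.GO
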