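import Mathlib
import Pool.Agent.Work.MP_787500_nt.GO.Basic
import Pool.Agent.Work.MP_787500_nt.GO.RtA

/-!
# Module QsB: `(1 + i) d` is not a square in a layer  [size S]

Suppose `y^2 = (1 + i) d`, `d ∈ K`, `d ≠ 0`. `(ε y)^2 = (1 - i) d`, `(y ε y)^2 = 2 d^2`, so `y ε y = ± √2 d`, hence `σ (y ε y) = - y ε y`. But `(σ y)^2 = y^2`, `σ y = ± y` and `σ (ε y) = ε (σ y) = ± ε y` with the same
sign (`L.comm`), so `σ (y ε y) = y ε y`. So `y ε y = 0`, a contradiction.
-/

set_option autoImplicit false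

namespace Pool.Agent.Work.MP_787500_nt.GO

open WithZero IsDedekindDomain NumberField WeierstrassCurve WeierstrassCurve.Affine
open Pool.Agent.Work.MP_787500_nt.HC

universe u

variable {K M A : Type*} [Field K] [CharZero K] [Field M] [Algebra K M] [CommGroup A]
variable {p : A} {h : ℕ} {α : K} {W W' : A → M} {i : M} {a b u : ℕ → M}
variable {n : ℕ} {C : Finset (M ≃ₐ[K] M)} {σ ε : M ≃ₐ[K] M}

theorem not_sq (L : Lay K p h α W W' i a b u n C σ ε) {d : K} (hd : d ≠ 0) (y : M) :
    y ^ 2 ≠ (1 + i) * algebraMap K M d := by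
  intro hy
  have hi2 : i ^ 2 = -1 := L.seq.i2
  have hd0 : algebraMap K M d ≠ 0 := (map_ne_zero _).2 hd
  have hε2 : ε y ^ 2 = (1 - i) * algebraMap K M d := by
    rw [← map_pow, hy, map_mul, map_add, map_one, L.epsi, AlgEquiv.commutes, ← sub_eq_add_neg]
  have hprod : (y * ε y) ^ 2 = (r2 W W' b * algebraMap K M d) ^ 2 := by
    rw [mul_pow, mul_pow, hε2, hy, r2_sq L]
    linear_combination (-(algebraMap K M d) ^ 2) * hi2
  have h1 : σ (y * ε y) = -(y * ε y) := by
    rcases sq_eq_sq_iff_eq_or_eq_neg.1 hprod with h2 | h2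
    · rw [h2, map_mul, sig_r2 L, AlgEquiv.commutes, neg_mul]
    · rw [h2, map_neg, map_mul, sig_r2 L, AlgEquiv.commutes, neg_mul]
  have hcomm : σ (ε y) = ε (σ y) := by
    have := congrArg (fun t : M ≃ₐ[K] M => t y) (L.comm σ ε)
    exact this
  have h2 : σ (y * ε y) = y * ε y := by
    have hσ2 : σ y ^ 2 = y ^ 2 := by
      rw [← map_pow, hy, map_mul, map_add, map_one, L.sigi, AlgEquiv.commutes]
    rw [map_mul, hcomm]
    rcases sq_eq_sq_iff_eq_or_eq_neg.1 hσ2 with h3 | h3
    · rw [h3]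
    · rw [h3, map_neg]
      ring
  have h3 : (2 : M) * (y * ε y) = 0 := by
    rw [h2] at h1
    linear_combination h1
  have hM : CharZero M := charZero_of_injective_algebraMap (algebraMap K M).injective
  have h4 : y * ε y = 0 := (mul_eq_zero.1 h3).resolve_left two_ne_zero
  have h5 : y = 0 := by
    rcases mul_eq_zero.1 h4 with h5 | h5
    · exact h5
    · exact (map_eq_zero ε).1 h5
  rw [h5, zero_pow two_ne_zero] at hy
  have h6 : (1 : M) + i = 0 := (mul_eq_zero.1 hy.symm).resolve_right hd0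
  have h7 : i = -1 := by linear_combination h6
  rw [h7] at hi2
  have h8 : (2 : M) = 0 := by linear_combination hi2
  exact two_ne_zero h8

end Pool.Agent.Work.MP_787500_nt.GO
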