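import Mathlib
import Pool.Agent.Work.MP_787500_nt.GO.Basic
import Pool.Agent.Work.MP_787500_nt.GO.NuA
import Pool.Agent.Work.MP_787500_nt.GO.QsA
import Pool.Agent.Work.MP_787500_nt.GO.QsB

/-!
# Module NuB: the product of `1 + W^2` is not a square  [size S-M]

`dya_sq`: `V x = 1`, `x ∈ K`: `V (x - 1) < 1` (`hV.res`: either `V x < 1` or `V (x-1) < 1`), so `V (x - 1) ≤ V 2` and `V (x + 1) ≤ V 2` (`hV.unif` for `x - 1`, `x + 1`), and one of `(x-1)/2`, `(x+1)/2` (difference 1) has `V < 1`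
(`hV.res` for `(x-1)/2`), hence `≤ V 2`: `V (x^2 - 1) ≤ V 8`. `dya_two`: `V (2 x^2) = 1` is impossible for `x ∈ K`: `V (x⁻¹)^2 = V 2 < 1`, so `V x⁻¹ < 1`, `V x⁻¹ ≤ V 2` (`hV.unif`), `V 2 = V (x⁻¹)^2 ≤ V 2 ^2 < V 2`.
`nu_not`: if `ν` is a square then `ν₀` is a square in `M` (2 is a square), so (`quad_sub`) `ν₀ ∈ {κ^2, -κ^2, 2κ^2, -2κ^2}`; `V ν₀ = 1`; `κ^2` is 1 mod 8 but 5 is not `± 1` mod 8 (`V (5 - 1) = V 4 > V 8`,
`V (5 + 1) = V 6 = V 2 > V 8`, `V 3 = 1`); `dya_two` for the other cases. `nu_not'`: `not_sq` with `d = 2^|C| ν₀`.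
-/

set_option autoImplicit false

namespace Pool.Agent.Work.MP_787500_nt.GO

open WithZero IsDedekindDomain NumberField WeierstrassCurve WeierstrassCurve.Affine
open Pool.Agent.Work.MP_787500_nt.HC

universe u

variable {K M A : Type*} [Field K] [CharZero K] [Field M] [CharZero M] [Algebra K M]
variable [FiniteDimensional K M] [CommGroup A] [Finite A]
variable {p : A} {h : ℕ} {α : K} {W W' : A → M} {i : M} {a b u : ℕ → M}
variable {n : ℕ} {C : Finset (M ≃ₐ[K] M)} {σ ε : M ≃ₐ[K] M} {V : Valuation M ℤᵐ⁰}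

omit [CharZero K] [FiniteDimensional K M] in
private theorem nb_two (V : Valuation M ℤᵐ⁰) : 0 < V 2 := by
  rw [zero_lt_iff]
  exact (Valuation.ne_zero_iff V).mpr two_ne_zero

omit [CharZero K] [CharZero M] [FiniteDimensional K M] in
private theorem nb_four (V : Valuation M ℤᵐ⁰) : V 4 = V 2 * V 2 := by
  rw [← map_mul]
  norm_num

omit [CharZero K] [CharZero M] [FiniteDimensional K M] in
private theorem nb_eight (V : Valuation M ℤᵐ⁰) : V 8 = V 2 * V 2 * V 2 := by
  rw [← map_mul, ← map_mul]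
  norm_num

omit [CharZero K] [FiniteDimensional K M] in
private theorem nb_lt1 {V : Valuation M ℤᵐ⁰} (h2 : V 2 < 1) : V 4 < V 2 := by
  rw [nb_four]
  calc V 2 * V 2 < V 2 * 1 := mul_lt_mul_of_pos_left h2 (nb_two V)
    _ = V 2 := mul_one _

omit [CharZero K] [FiniteDimensional K M] in
private theorem nb_lt2 {V : Valuation M ℤᵐ⁰} (h2 : V 2 < 1) : V 8 < V 4 := by
  rw [nb_eight, nb_four]
  calc V 2 * V 2 * V 2 < V 2 * V 2 * 1 :=
        mul_lt_mul_of_pos_left h2 (mul_pos (nb_two V) (nb_two V))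
    _ = V 2 * V 2 := mul_one _

omit [CharZero K] [FiniteDimensional K M] in
theorem dya_sq (hV : Dya K V h α) {x : K} (hx : V (algebraMap K M x) = 1) :
    V (algebraMap K M x ^ 2 - 1) ≤ V 8 := by
  have h2 := hV.two
  have hp := nb_two V
  have h1 : V (algebraMap K M x - 1) < 1 := by
    rcases hV.res x hx.le with h | h
    · rw [hx] at h
      exact absurd h (lt_irrefl _)
    · exact h
  have e1 : algebraMap K M (x - 1) = algebraMap K M x - 1 := by rw [map_sub, map_one]
  have h3 : V (algebraMap K M x - 1) ≤ V 2 := by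
    rw [← e1] at h1 ⊢
    exact hV.unif (x - 1) h1
  have h4 : V (algebraMap K M x + 1) ≤ V 2 := by
    have e2 : algebraMap K M x + 1 = (algebraMap K M x - 1) + 2 := by ring
    rw [e2]
    exact (Valuation.map_add V _ _).trans (max_le h3 le_rfl)
  -- the half
  have hK2 : (algebraMap K M (2 : K)) = 2 := map_ofNat _ 2
  have hK2' : (2 : K) ≠ 0 := by
    intro h0
    have : (2 : M) = 0 := by rw [← hK2, h0, map_zero]
    exact two_ne_zero this
  have e3 : 2 * algebraMap K M ((x - 1) / 2) = algebraMap K M x - 1 := by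
    rw [← hK2, ← map_mul, mul_div_cancel₀ _ hK2', e1]
  have h5 : V (algebraMap K M ((x - 1) / 2)) ≤ 1 := by
    rw [← e3, map_mul] at h3
    have h6 : V 2 * V (algebraMap K M ((x - 1) / 2)) ≤ V 2 * 1 := by rwa [mul_one]
    exact le_of_mul_le_mul_left h6 hp
  have key : V (algebraMap K M x - 1) ≤ V 4 ∨ V (algebraMap K M x + 1) ≤ V 4 := by
    rcases hV.res _ h5 with h | h
    · left
      rw [← e3, map_mul, nb_four]
      exact mul_le_mul' le_rfl (hV.unif _ h)
    · right
      have e4 : algebraMap K M x + 1 = 2 * algebraMap K M ((x - 1) / 2 + 1) := by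
        rw [map_add, map_one, mul_add, e3]
        ring
      have h7 : V (algebraMap K M ((x - 1) / 2 + 1)) < 1 := by
        have e5 : algebraMap K M ((x - 1) / 2 + 1) = (algebraMap K M ((x - 1) / 2) - 1) + 2 := by
          rw [map_add, map_one]
          ring
        rw [e5]
        exact (Valuation.map_add V _ _).trans_lt (max_lt h h2)
      rw [e4, map_mul, nb_four]
      exact mul_le_mul' le_rfl (hV.unif _ h7)
  have e6 : algebraMap K M x ^ 2 - 1 = (algebraMap K M x - 1) * (algebraMap K M x + 1) := by ring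
  rw [e6, map_mul, nb_eight]
  rcases key with h | h
  · rw [nb_four] at h
    exact mul_le_mul' h h4
  · rw [nb_four] at h
    rw [mul_assoc]
    exact mul_le_mul' h3 h

omit [CharZero K] [FiniteDimensional K M] in
theorem dya_two (hV : Dya K V h α) (x : K) : V (2 * algebraMap K M x ^ 2) ≠ 1 := by
  intro hx
  have h2 := hV.two
  have hp := nb_two V
  rw [map_mul, map_pow] at hx
  have hx0 : V (algebraMap K M x) ≠ 0 := by
    intro h0
    rw [h0] at hx
    simp at hx
  have e1 : V (algebraMap K M x⁻¹) ^ 2 = V 2 := by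
    rw [map_inv₀, map_inv₀, inv_pow]
    exact inv_eq_of_mul_eq_one_left hx
  have h3 : V (algebraMap K M x⁻¹) < 1 := by
    by_contra h
    push Not at h
    have h4 : 1 ≤ V (algebraMap K M x⁻¹) ^ 2 := one_le_pow₀ h
    rw [e1] at h4
    exact absurd h2 (not_lt.mpr h4)
  have h4 := hV.unif _ h3
  have h5 : V 2 ≤ V 2 * V 2 := by
    calc V 2 = V (algebraMap K M x⁻¹) ^ 2 := e1.symm
      _ = V (algebraMap K M x⁻¹) * V (algebraMap K M x⁻¹) := sq _
      _ ≤ V 2 * V 2 := mul_le_mul' h4 h4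
  rw [← nb_four] at h5
  exact absurd (nb_lt1 h2) (not_lt.mpr h5)

omit [CharZero K] [FiniteDimensional K M] in
private theorem nb_one {V : Valuation M ℤᵐ⁰} (h2 : V 2 < 1) {x : M} (hx : V (x - 5) ≤ V 8) :
    V x = 1 := by
  have h8 : V 8 < 1 := (nb_lt2 h2).trans ((nb_lt1 h2).trans h2)
  have e : x = 1 + ((x - 5) + 4) := by ring
  rw [e]
  refine Valuation.map_one_add_of_lt V ?_
  exact (Valuation.map_add V _ _).trans_lt (max_lt (hx.trans_lt h8) ((nb_lt1 h2).trans h2))

omit [CharZero K] [FiniteDimensional K M] in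
/-- neither `x - 1` nor `x + 1` is zero modulo 8 if `x` is 5 -/
private theorem nb_five {V : Valuation M ℤᵐ⁰} (h2 : V 2 < 1) {x : M} (hx : V (x - 5) ≤ V 8) :
    ¬ V (x - 1) ≤ V 8 ∧ ¬ V (x + 1) ≤ V 8 := by
  constructor
  · intro h
    have e : (4 : M) = (x - 1) - (x - 5) := by ring
    have h1 : V 4 ≤ V 8 := by
      rw [e]
      exact (Valuation.map_sub V _ _).trans (max_le h hx)
    exact absurd (nb_lt2 h2) (not_lt.mpr h1)
  · intro h
    have e : (6 : M) = (x + 1) - (x - 5) := by ring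
    have h1 : V 6 ≤ V 8 := by
      rw [e]
      exact (Valuation.map_sub V _ _).trans (max_le h hx)
    have e3 : V 3 = 1 := by
      have e4 : (3 : M) = 1 + 2 := by norm_num
      rw [e4]
      exact Valuation.map_one_add_of_lt V h2
    have e6 : V 6 = V 2 := by
      have e7 : (6 : M) = 2 * 3 := by norm_num
      rw [e7, map_mul, e3, mul_one]
    rw [e6] at h1
    exact absurd ((nb_lt2 h2).trans (nb_lt1 h2)) (not_lt.mpr h1)

theorem nu_not (L : Lay K p h α W W' i a b u n C σ ε) (hV : Dya K V h α) :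
    ¬ IsSquare (nm C (1 + W 1 ^ 2)) := by
  rintro ⟨y, hy⟩
  obtain ⟨ν₀, h1, h5⟩ := nu_val L hV
  have h2 := hV.two
  have hr := r2_sq L
  have hr0 : r2 W W' b ^ C.card ≠ 0 := by
    refine pow_ne_zero _ ?_
    intro h0
    rw [h0] at hr
    norm_num at hr
  have hsq : (y / r2 W W' b ^ C.card) ^ 2 = algebraMap K M ν₀ := by
    have e1 : (r2 W W' b ^ C.card) ^ 2 = 2 ^ C.card := by
      rw [← pow_mul, mul_comm, pow_mul, hr]
    rw [div_pow, e1, sq y, ← hy, h1, mul_div_cancel_left₀]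
    exact pow_ne_zero _ two_ne_zero
  obtain ⟨κ, hκ⟩ := quad_sub L hsq
  have hν := nb_one h2 h5
  have hf := nb_five h2 h5
  rcases hκ with h | h | h | h
  · rw [h, map_pow] at hν hf
    have hk : V (algebraMap K M κ) = 1 := by
      rw [map_pow] at hν
      exact (pow_eq_one_iff_of_nonneg zero_le two_ne_zero).mp hν
    exact hf.1 (dya_sq hV hk)
  · rw [h, map_neg, map_pow] at hν hf
    have hk : V (algebraMap K M κ) = 1 := by
      rw [Valuation.map_neg, map_pow] at hν
      exact (pow_eq_one_iff_of_nonneg zero_le two_ne_zero).mp hν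
    apply hf.2
    have e : -algebraMap K M κ ^ 2 + 1 = -(algebraMap K M κ ^ 2 - 1) := by ring
    rw [e, Valuation.map_neg]
    exact dya_sq hV hk
  · rw [h, map_mul, map_pow, map_ofNat] at hν
    exact dya_two hV κ hν
  · rw [h, map_neg, map_mul, map_pow, map_ofNat, Valuation.map_neg] at hν
    exact dya_two hV κ hν

theorem nu_not' (L : Lay K p h α W W' i a b u n C σ ε) (hV : Dya K V h α) (y : M) :
    y ^ 2 ≠ (1 + i) * nm C (1 + W 1 ^ 2) := by
  obtain ⟨ν₀, h1, h5⟩ := nu_val L hV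
  have hν := nb_one hV.two h5
  have h0 : ν₀ ≠ 0 := by
    rintro rfl
    rw [map_zero, map_zero] at hν
    exact zero_ne_one hν
  have e : nm C (1 + W 1 ^ 2) = algebraMap K M (2 ^ C.card * ν₀) := by
    rw [h1, map_mul, map_pow, map_ofNat]
  rw [e]
  exact not_sq L (mul_ne_zero (pow_ne_zero _ two_ne_zero) h0) y

end Pool.Agent.Work.MP_787500_nt.GO
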