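import Mathlib
import Pool.Agent.Work.MP_787500_nt.GO.Basic
import Pool.Agent.Work.MP_787500_nt.GO.CoA
import Pool.Agent.Work.MP_787500_nt.GO.CoU
import Pool.Agent.Work.MP_787500_nt.GO.NuB
import Pool.Agent.Work.MP_787500_nt.HC.ArE

/-!
# Module CoB: the product of the conjugates of `1 - i Z_0` is minus a square  [size M-L]

`c = cc 0 = ∏ X (f g)`, `X c = 1 - W' c ^2/(1 + W c ^2)` (`i Z 0 = W'^2/(1+W^2)`, `L.act`), so `c` is fixed by the `τ^h` (`L.fixW`) and by `C` (permutes the factors): `c = algebraMap x`, `x ∈ K` (`mem_base`), `x ≠ 0`.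
Let `β = 2^h/α`, `y = x^h/β^(2|C|)`. For every place `w` of `K` take a place `Q'` of `M` above it (`exists_above`, `exists_valuation_below`: `w.valuation t = 1 ↔ V (algebraMap t) = 1`, `V = Q'.valuation M`; see the use
in `HC/ArE.lean`). If `V 2 = 1`: `V x = V β = 1` (`co_unit`). If `V 2 < 1` and `V α < 1`: `V x = 1`, `V α = V 2^h`, `V β = 1` (`co_dya`). If `V 2 < 1`, `V α = 1`: `V x = V 4 ^|C|`, `V β = V 2^h` (`co_conj`), so `V (x^h) = V β^(2|C|)`.
So `V y = 1` in all cases, `y = ± 1` (`unit_pm`), and with `h = 2j+1`: `x = ± κ^2`, `κ = β^|C|/x^j`.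
Sign, at the dyadic place `V` of `hV`: `V (x - (1 - 2 ∑ t_g)) ≤ V 4`, `t_g = (W' (f g)/2)^2` (`co_dya`, product), `∑ t_g ∈ K` (`mem_base`), `V (∑ t_g - 1) < 1` (`sumW` and `vlc_sq_sum`; `hV.res`), so `≤ V 2` (`hV.unif`), and
`V (x + 1) ≤ V 4`. If `x = κ^2` then `V κ = 1`, `V (κ^2 - 1) ≤ V 8` (`dya_sq`), so `V (x + 1) = V 2 > V 4`. So `x = -κ^2`.
-/

set_option autoImplicit false

namespace Pool.Agent.Work.MP_787500_nt.GO

open WithZero IsDedekindDomain NumberField WeierstrassCurve WeierstrassCurve.Affine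
open Pool.Agent.Work.MP_787500_nt.HC

universe u

variable {K : Type u} [Field K] [NumberField K] {M A : Type*} [Field M] [NumberField M]
variable [Algebra K M] [FiniteDimensional K M] [CommGroup A] [Finite A]
variable {p : A} {h : ℕ} {α : K} {W W' : A → M} {i : M} {a b u : ℕ → M}
variable {n : ℕ} {C : Finset (M ≃ₐ[K] M)} {σ ε : M ≃ₐ[K] M} {V : Valuation M ℤᵐ⁰} {q : ℕ} {s : K}

omit [NumberField K] [NumberField M] [FiniteDimensional K M] [Finite A] in
private theorem cb_prod_fix (L : Lay K p h α W W' i a b u n C σ ε) {x : M} {g : M ≃ₐ[K] M}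
    (hg : g ∈ C) : g (nm C x) = nm C x := by
  rw [nm, map_prod]
  have hgc : ∀ f : M ≃ₐ[K] M, Commute g f := fun f => L.comm g f
  refine Finset.prod_bij' (fun f _ => g * f) (fun f _ => g⁻¹ * f) ?_ ?_ ?_ ?_ ?_
  · intro f hf
    rw [L.memC] at hf hg ⊢
    rw [(hgc f).mul_pow, hg, hf, one_mul]
  · intro f hf
    rw [L.memC] at hf hg ⊢
    rw [((hgc f).inv_left).mul_pow, inv_pow, hg, hf, inv_one, one_mul]
  · intro f _
    exact inv_mul_cancel_left g f
  · intro f _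
    exact mul_inv_cancel_left g f
  · intro f _
    rfl

omit [NumberField K] [NumberField M] [FiniteDimensional K M] [Finite A] in
private theorem cb_sum_fix (L : Lay K p h α W W' i a b u n C σ ε) {x : M} {g : M ≃ₐ[K] M}
    (hg : g ∈ C) : g (∑ f ∈ C, f x) = ∑ f ∈ C, f x := by
  rw [map_sum]
  have hgc : ∀ f : M ≃ₐ[K] M, Commute g f := fun f => L.comm g f
  refine Finset.sum_bij' (fun f _ => g * f) (fun f _ => g⁻¹ * f) ?_ ?_ ?_ ?_ ?_
  · intro f hf
    rw [L.memC] at hf hg ⊢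
    rw [(hgc f).mul_pow, hg, hf, one_mul]
  · intro f hf
    rw [L.memC] at hf hg ⊢
    rw [((hgc f).inv_left).mul_pow, inv_pow, hg, hf, inv_one, one_mul]
  · intro f _
    exact inv_mul_cancel_left g f
  · intro f _
    exact mul_inv_cancel_left g f
  · intro f _
    rfl

omit [NumberField M] [Finite A] in
private theorem cb_mem_nm (L : Lay K p h α W W' i a b u n C σ ε) {x : M}
    (hx : ∀ τ : M ≃ₐ[K] M, (τ ^ h) x = x) : ∃ t : K, algebraMap K M t = nm C x :=
  mem_base L (fun τ => by rw [map_nm L.comm, hx]) (fun _ hg => cb_prod_fix L hg)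

omit [NumberField M] [Finite A] in
private theorem cb_mem_sum (L : Lay K p h α W W' i a b u n C σ ε) {x : M}
    (hx : ∀ τ : M ≃ₐ[K] M, (τ ^ h) x = x) : ∃ t : K, algebraMap K M t = ∑ g ∈ C, g x := by
  refine mem_base L (fun τ => ?_) (fun _ hg => cb_sum_fix L hg)
  rw [map_sum]
  refine Finset.sum_congr rfl fun g _ => ?_
  have h1 := congrArg (fun t : M ≃ₐ[K] M => t x) (L.comm (τ ^ h) g)
  have h2 : (τ ^ h) (g x) = g ((τ ^ h) x) := h1
  rw [h2, hx]

omit [NumberField K] [NumberField M] [FiniteDimensional K M] [Finite A] in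
private theorem cb_one (L : Lay K p h α W W' i a b u n C σ ε) :
    1 - i * ZL W W' i a b 0 = 1 - W' 1 ^ 2 / (1 + W 1 ^ 2) := by
  have hi := L.seq.i2
  have e : i * (-i * W' 1 ^ 2 / (1 + W 1 ^ 2)) = W' 1 ^ 2 / (1 + W 1 ^ 2) := by
    rw [← mul_div_assoc]
    congr 1
    linear_combination (-W' 1 ^ 2) * hi
  show 1 - i * (-i * W' 1 ^ 2 / (1 + W 1 ^ 2)) = _
  rw [e]

omit [NumberField K] [NumberField M] [FiniteDimensional K M] [Finite A] in
private theorem cb_map (L : Lay K p h α W W' i a b u n C σ ε) (g : M ≃ₐ[K] M) :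
    ∃ c : A, g (1 - i * ZL W W' i a b 0) = 1 - W' c ^ 2 / (1 + W c ^ 2) ∧ g (W' 1) = W' c := by
  obtain ⟨c, hc⟩ := L.act g
  obtain ⟨h1, h2⟩ := hc 1
  rw [mul_one] at h1 h2
  refine ⟨c, ?_, h2⟩
  rw [cb_one L, map_sub, map_one, map_div₀, map_pow, map_add, map_one, map_pow, h1, h2]

omit [NumberField K] [NumberField M] [FiniteDimensional K M] in
private theorem cb_card {V' : Valuation M ℤᵐ⁰} {t : ℤᵐ⁰} {x : M}
    (hx : ∀ g ∈ C, V' (g x) = t) : V' (nm C x) = t ^ C.card := by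
  rw [nm, map_prod, Finset.prod_congr rfl hx, Finset.prod_const]

omit [NumberField K] [NumberField M] [FiniteDimensional K M] in
private theorem cb_prod {ι : Type*} (s : Finset ι) (X t : ι → M) (h2 : V 2 < 1)
    (hX : ∀ g ∈ s, V (X g) ≤ 1) (ht : ∀ g ∈ s, V (t g) ≤ 1)
    (h : ∀ g ∈ s, V (X g - (1 - 2 * t g)) ≤ V 4) :
    V (∑ g ∈ s, t g) ≤ 1 ∧ V (∏ g ∈ s, X g - (1 - 2 * ∑ g ∈ s, t g)) ≤ V 4 := by
  classical
  induction s using Finset.induction_on with
  | empty => simp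
  | insert c s hc ih =>
    obtain ⟨h3, h4⟩ := ih (fun g hg => hX g (Finset.mem_insert_of_mem hg))
      (fun g hg => ht g (Finset.mem_insert_of_mem hg)) (fun g hg => h g (Finset.mem_insert_of_mem hg))
    have hXc := hX c (Finset.mem_insert_self c s)
    have htc := ht c (Finset.mem_insert_self c s)
    have hc1 := h c (Finset.mem_insert_self c s)
    rw [Finset.sum_insert hc, Finset.prod_insert hc]
    refine ⟨V.map_add_le htc h3, ?_⟩
    have e1 : X c * ∏ g ∈ s, X g - (1 - 2 * (t c + ∑ g ∈ s, t g)) =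
        (∏ g ∈ s, X g - (1 - 2 * ∑ g ∈ s, t g)) * X c +
          ((1 - 2 * ∑ g ∈ s, t g) * (X c - (1 - 2 * t c)) + 4 * ((∑ g ∈ s, t g) * t c)) := by
      ring
    rw [e1]
    refine V.map_add_le ?_ (V.map_add_le ?_ ?_)
    · rw [map_mul]
      exact (mul_le_of_le_one_right' hXc).trans h4
    · rw [map_mul]
      refine (mul_le_of_le_one_left' (V.map_sub_le (by rw [map_one]) ?_)).trans hc1
      rw [map_mul]
      exact mul_le_one' h2.le h3
    · rw [map_mul, map_mul]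
      exact mul_le_of_le_one_right' (mul_le_one' h3 htc)

omit [NumberField K] in
/-- the value of the unit at a place -/
private theorem cb_val (L : Lay K p h α W W' i a b u n C σ ε) (V' : Valuation M ℤᵐ⁰)
    (h2 : V' 2 ≤ 1) {x : K} (hx : algebraMap K M x = cc C i (ZL W W' i a b) 0) :
    V' (algebraMap K M (x ^ h / (2 ^ h / α) ^ (2 * C.card))) = 1 := by
  have h20 : V' 2 ≠ 0 := (V'.ne_zero_iff).2 two_ne_zero
  have hh : h ≠ 0 := by
    rintro rfl
    exact absurd L.odd (by decide)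
  have hβ : V' (algebraMap K M (2 ^ h / α)) = V' 2 ^ h / V' (algebraMap K M α) := by
    rw [map_div₀, map_div₀, map_pow, map_pow, map_ofNat]
  have hy : V' (algebraMap K M (x ^ h / (2 ^ h / α) ^ (2 * C.card))) =
      V' (nm C (1 - i * ZL W W' i a b 0)) ^ h /
        (V' 2 ^ h / V' (algebraMap K M α)) ^ (2 * C.card) := by
    rw [map_div₀, map_div₀, map_pow, map_pow, map_pow, map_pow, hβ, hx]
    rfl
  rw [hy]
  rcases lt_or_eq_of_le h2 with h3 | h3
  · rcases val_al L.data h3 with h4 | h4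
    · have e1 : V' (nm C (1 - i * ZL W W' i a b 0)) = 1 ^ C.card := cb_card fun g _ => by
        obtain ⟨c, hc, -⟩ := cb_map L g
        rw [hc]
        exact (co_dya L.data h3 h4 c).1
      rw [e1, (co_dya L.data h3 h4 1).2.1, div_self (pow_ne_zero _ h20)]
      simp
    · have e1 : V' (nm C (1 - i * ZL W W' i a b 0)) = V' 4 ^ C.card := cb_card fun g _ => by
        obtain ⟨c, hc, -⟩ := cb_map L g
        rw [hc]
        exact co_conj L.data hh h3 h4 c
      have e2 : V' 4 = V' 2 ^ 2 := by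
        rw [← map_pow]
        norm_num
      rw [e1, h4, div_one, e2, ← pow_mul, ← pow_mul, ← pow_mul]
      have e4 : 2 * (C.card * h) = h * (2 * C.card) := by ring
      rw [e4, div_self (pow_ne_zero _ h20)]
  · have e1 : V' (nm C (1 - i * ZL W W' i a b 0)) = 1 ^ C.card := cb_card fun g _ => by
      obtain ⟨c, hc, -⟩ := cb_map L g
      rw [hc]
      exact (co_unit L.data h3 c).1
    rw [e1, (co_unit L.data h3 1).2, h3]
    simp

/-- the sign at the dyadic place -/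
private theorem cb_sign (L : Lay K p h α W W' i a b u n C σ ε) (hV : Dya K V h α) {x : K}
    (hx : algebraMap K M x = cc C i (ZL W W' i a b) 0) :
    V (algebraMap K M x) = 1 ∧ V (algebraMap K M x + 1) ≤ V 4 := by
  have h20 : V 2 ≠ 0 := (V.ne_zero_iff).2 two_ne_zero
  have hY : ∀ g : M ≃ₐ[K] M, V (g (W' 1 / 2)) = 1 := by
    intro g
    obtain ⟨c, -, hc⟩ := cb_map L g
    rw [map_div₀, hc, map_ofNat, map_div₀, (val_W L.data hV c).2.2.1, div_self h20]
  have hX : ∀ g : M ≃ₐ[K] M, V (g (1 - i * ZL W W' i a b 0)) = 1 ∧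
      V (g (1 - i * ZL W W' i a b 0) - (1 - 2 * (g (W' 1 / 2)) ^ 2)) ≤ V 4 := by
    intro g
    obtain ⟨c, hc, hc'⟩ := cb_map L g
    obtain ⟨h1, -, h3⟩ := co_dya L.data hV.two hV.al c
    have e1 : g (W' 1 / 2) = W' c / 2 := by rw [map_div₀, hc', map_ofNat]
    rw [hc, e1]
    exact ⟨h1, h3⟩
  have hfix : ∀ τ : M ≃ₐ[K] M, (τ ^ h) (W' 1 / 2) = W' 1 / 2 := by
    intro τ
    rw [map_div₀, (L.fixW τ 1).2, map_ofNat]
  have hx1 : V (algebraMap K M x) = 1 := by
    have e1 : V (nm C (1 - i * ZL W W' i a b 0)) = 1 ^ C.card := cb_card fun g _ => (hX g).1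
    rw [hx]
    show V (nm C (1 - i * ZL W W' i a b 0)) = 1
    rw [e1, one_pow]
  refine ⟨hx1, ?_⟩
  obtain ⟨-, h4⟩ := cb_prod C (fun g => g (1 - i * ZL W W' i a b 0))
    (fun g => (g (W' 1 / 2)) ^ 2) hV.two (fun g _ => (hX g).1.le)
    (fun g _ => by
      show V ((g (W' 1 / 2)) ^ 2) ≤ 1
      rw [map_pow, hY, one_pow]) (fun g _ => (hX g).2)
  have h5 : V (algebraMap K M x - (1 - 2 * ∑ g ∈ C, (g (W' 1 / 2)) ^ 2)) ≤ V 4 := by
    rw [hx]
    exact h4
  obtain ⟨hT, hT2⟩ := vlc_sq_sum (V := V) C (fun g => g (W' 1 / 2)) (fun g _ => (hY g).le)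
  obtain ⟨t0, ht0⟩ := cb_mem_sum L hfix
  have hT1 : V (∑ g ∈ C, g (W' 1 / 2) - 1) < 1 := by
    have h6 := sumW L hV 1
    rw [← ht0] at h6 ⊢
    rcases hV.res t0 h6.le with h7 | h7
    · exact absurd h6 h7.ne
    · exact h7
  obtain ⟨s0, hs0⟩ := cb_mem_sum L (x := (W' 1 / 2) ^ 2) (fun τ => by rw [map_pow, hfix])
  have hs0' : algebraMap K M s0 = ∑ g ∈ C, (g (W' 1 / 2)) ^ 2 := by
    rw [hs0]
    exact Finset.sum_congr rfl fun g _ => map_pow g _ _
  have hS1 : V (∑ g ∈ C, (g (W' 1 / 2)) ^ 2 - 1) < 1 := by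
    have h6 : V ((∑ g ∈ C, g (W' 1 / 2)) ^ 2 - 1 ^ 2) < 1 :=
      vlc_sq_lt hT (by rw [map_one]) hT1
    have e1 : ∑ g ∈ C, (g (W' 1 / 2)) ^ 2 - 1 =
        -((∑ g ∈ C, g (W' 1 / 2)) ^ 2 - ∑ g ∈ C, (g (W' 1 / 2)) ^ 2) +
          ((∑ g ∈ C, g (W' 1 / 2)) ^ 2 - 1 ^ 2) := by ring
    rw [e1]
    refine V.map_add_lt ?_ h6
    rw [Valuation.map_neg]
    exact lt_of_le_of_lt hT2 hV.two
  have hS2 : V (∑ g ∈ C, (g (W' 1 / 2)) ^ 2 - 1) ≤ V 2 := by
    have h6 : V (algebraMap K M (s0 - 1)) < 1 := by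
      rw [map_sub, map_one, hs0']
      exact hS1
    have h7 := hV.unif _ h6
    rwa [map_sub, map_one, hs0'] at h7
  have e2 : algebraMap K M x + 1 = (algebraMap K M x - (1 - 2 * ∑ g ∈ C, (g (W' 1 / 2)) ^ 2)) -
      2 * (∑ g ∈ C, (g (W' 1 / 2)) ^ 2 - 1) := by ring
  rw [e2]
  refine V.map_sub_le h5 ?_
  have h4' : V 4 = V 2 * V 2 := by
    rw [← map_mul]
    norm_num
  rw [map_mul, h4']
  exact mul_le_mul_right hS2 _

theorem co_eq (hb : IsBase K q s) (L : Lay K p h α W W' i a b u n C σ ε) (hα : α ≠ 0)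
    (hV : Dya K V h α) :
    ∃ κ : K, κ ≠ 0 ∧ cc C i (ZL W W' i a b) 0 = -algebraMap K M κ ^ 2 := by
  have hfix : ∀ τ : M ≃ₐ[K] M, (τ ^ h) (1 - i * ZL W W' i a b 0) = 1 - i * ZL W W' i a b 0 := by
    intro τ
    rw [cb_one L, map_sub, map_one, map_div₀, map_pow, map_add, map_one, map_pow,
      (L.fixW τ 1).1, (L.fixW τ 1).2]
  obtain ⟨x, hx⟩ := cb_mem_nm L hfix
  have hx' : algebraMap K M x = cc C i (ZL W W' i a b) 0 := hx
  obtain ⟨hx1, hx2⟩ := cb_sign L hV hx'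
  have hx0 : x ≠ 0 := by
    rintro rfl
    rw [map_zero, map_zero] at hx1
    exact zero_ne_one hx1
  have hβ0 : (2 : K) ^ h / α ≠ 0 := div_ne_zero (pow_ne_zero _ two_ne_zero) hα
  have hy0 : x ^ h / (2 ^ h / α) ^ (2 * C.card) ≠ 0 :=
    div_ne_zero (pow_ne_zero _ hx0) (pow_ne_zero _ hβ0)
  have hunit : ∀ w : HeightOneSpectrum (𝓞 K),
      w.valuation K (x ^ h / (2 ^ h / α) ^ (2 * C.card)) = 1 := by
    intro w
    obtain ⟨Q, hQ⟩ := exists_above (L := M) w
    obtain ⟨e, he, hval⟩ := exists_valuation_below (K := K) Q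
    rw [hQ] at hval
    have h2 : Q.valuation M 2 ≤ 1 := by exact_mod_cast val_nat_le (Q.valuation M) 2
    have h1 := cb_val L (Q.valuation M) h2 hx'
    rw [← hval] at h1
    exact vla_eq_one_of_pow he h1
  obtain ⟨j, hj⟩ := L.odd
  obtain ⟨β, hβ⟩ : ∃ β : K, β = 2 ^ h / α := ⟨_, rfl⟩
  rw [← hβ] at hβ0 hy0 hunit
  have hκ0 : β ^ C.card / x ^ j ≠ 0 := div_ne_zero (pow_ne_zero _ hβ0) (pow_ne_zero _ hx0)
  have hκ2 : (β ^ C.card / x ^ j) ^ 2 * x ^ (2 * j) = β ^ (2 * C.card) := by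
    rw [div_pow, ← pow_mul, ← pow_mul, mul_comm C.card 2, mul_comm j 2,
      div_mul_cancel₀ _ (pow_ne_zero _ hx0)]
  have hxj : x ^ (2 * j) ≠ 0 := pow_ne_zero _ hx0
  refine ⟨β ^ C.card / x ^ j, hκ0, ?_⟩
  rcases unit_pm hb hy0 hunit with h1 | h1
  · exfalso
    rw [div_eq_one_iff_eq (pow_ne_zero _ hβ0)] at h1
    have hxκ : x = (β ^ C.card / x ^ j) ^ 2 := by
      have h3 : x ^ h = x * x ^ (2 * j) := by
        rw [hj, pow_succ, mul_comm]
      rw [h3, ← hκ2] at h1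
      exact mul_right_cancel₀ hxj h1
    obtain ⟨κ, hκ⟩ : ∃ κ : K, κ = β ^ C.card / x ^ j := ⟨_, rfl⟩
    rw [← hκ] at hxκ
    have h4 : V (algebraMap K M κ) = 1 := by
      rw [hxκ, map_pow, map_pow] at hx1
      exact vla_eq_one_of_pow two_ne_zero hx1
    have h5 := dya_sq hV h4
    rw [hxκ, map_pow] at hx2
    have h20 : V 2 ≠ 0 := (V.ne_zero_iff).2 two_ne_zero
    have h42 : V 4 < V 2 := by
      have h6 : V 4 = V 2 * V 2 := by
        rw [← map_mul]
        norm_num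
      rw [h6]
      exact mul_lt_of_lt_one_left (zero_lt_iff.2 h20) hV.two
    have h82 : V 8 ≤ V 4 := by
      have h6 : V 8 = V 4 * V 2 := by
        rw [← map_mul]
        norm_num
      rw [h6]
      exact mul_le_of_le_one_right' hV.two.le
    have e1 : (2 : M) = (algebraMap K M κ ^ 2 + 1) - (algebraMap K M κ ^ 2 - 1) := by ring
    have h7 : V 2 ≤ V 4 := by
      have h8 : V ((algebraMap K M κ ^ 2 + 1) - (algebraMap K M κ ^ 2 - 1)) ≤ V 4 :=
        V.map_sub_le hx2 (h5.trans h82)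
      rwa [← e1] at h8
    exact absurd h7 (not_le.2 h42)
  · rw [div_eq_iff (pow_ne_zero _ hβ0)] at h1
    have hxκ : x = -(β ^ C.card / x ^ j) ^ 2 := by
      have h3 : x ^ h = x * x ^ (2 * j) := by
        rw [hj, pow_succ, mul_comm]
      rw [h3, ← hκ2] at h1
      apply mul_right_cancel₀ hxj
      rw [h1]
      ring
    rw [← hx']
    have h2 := congrArg (algebraMap K M) hxκ
    rw [map_neg, map_pow] at h2
    exact h2

end Pool.Agent.Work.MP_787500_nt.GO
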