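import Mathlib
import Pool.Agent.Work.MP_787500_nt.GO.Basic
import Pool.Agent.Work.MP_787500_nt.RS.Iso
import Pool.Agent.Work.MP_787500_nt.HC.PtA
import Pool.Agent.Work.MP_787500_nt.RS.IsogTor

/-!
# Module DsA: the descent map is a homomorphism modulo squares  [size M-L]

`dl P` is `x - e1`, or `(e1 - e2)(e1 - e3)` at `(e1, 0)`, or 1 at 0. Claim: `dl P * dl Q * dl (P + Q)` is a square. `dl (-P) = dl P`. So it is enough to have `dl P1 * dl P2 * dl P3` square if `P1 = P2 + P3`; use `P1 = P2 - (-P3)` and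
`RS.sub_some_of_X_ne`, `RS.sub_some_of_X_eq`, `add_self_some` (see `H9_Alg.lean`, `RS/Iso.lean`, `HC/PtA.lean`).
Let `X_i = x_i - e1`, `y_i^2 = X_i (X_i^2 + A X_i + B)`, `A = 2 e1 - e2 - e3`, `B = (e1 - e2)(e1 - e3)`.
Generic case `X1, X2 ≠ 0`, `x1 ≠ x2`: `X3 X1 X2 (X1 - X2)^2 = (X1 y2 + X2 y1)^2` for `P3 = P1 - P2`. If `X3 ≠ 0` done. If `X3 = 0`, `P3 = (e1, 0)`: then `P1 = P2 + (e1, 0)`, see the next case.
Translation by `T = (e1, 0)`: `x(P + T) - e1 = B/X` for `X ≠ 0` (and `P + T ≠ 0`), so the product `X * B * (B/X) = B^2`. Doubling (`x1 = x2`, `P1 = -P2`..): `x(2P) - e1 = ((X^2 - B)/(2y))^2` (`add_self_some`), for `y = 0`: `2 P = 0`. `T + T = 0`, `B * B`.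
-/

set_option autoImplicit false

namespace Pool.Agent.Work.MP_787500_nt.GO

open WithZero IsDedekindDomain NumberField WeierstrassCurve WeierstrassCurve.Affine
open Pool.Agent.Work.MP_787500_nt.HC

universe u

variable {F : Type*} [Field F] [CharZero F] [DecidableEq F] {W : WeierstrassCurve.Affine F}
variable {e1 e2 e3 : F}

omit [CharZero F] [DecidableEq F] in
private theorem dl_zero : dl e1 e2 e3 (0 : W.Point) = 1 := rfl

omit [CharZero F] [DecidableEq F] in
private theorem dl_some_eq {x y : F} (hn : W.Nonsingular x y) (hx : x = e1) :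
    dl e1 e2 e3 (Point.some x y hn) = (e1 - e2) * (e1 - e3) := if_pos hx

omit [CharZero F] [DecidableEq F] in
private theorem dl_some_ne {x y : F} (hn : W.Nonsingular x y) (hx : x ≠ e1) :
    dl e1 e2 e3 (Point.some x y hn) = x - e1 := if_neg hx

omit [CharZero F] [DecidableEq F] in
private theorem bb_ne (h : TwoTors W e1 e2 e3) : (e1 - e2) * (e1 - e3) ≠ 0 :=
  mul_ne_zero (sub_ne_zero.2 h.h12) (sub_ne_zero.2 h.h31.symm)

omit [DecidableEq F] in
theorem dl_ne (h : TwoTors W e1 e2 e3) (P : W.Point) : dl e1 e2 e3 P ≠ 0 := by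
  rcases P with _ | ⟨x, y, hn⟩
  · exact one_ne_zero
  · by_cases hx : x = e1
    · rw [dl_some_eq hn hx]
      exact bb_ne h
    · rw [dl_some_ne hn hx]
      exact sub_ne_zero.2 hx

omit [CharZero F] [DecidableEq F] in
private theorem dl_neg' (P : W.Point) : dl e1 e2 e3 (-P) = dl e1 e2 e3 P := by
  rcases P with _ | ⟨x, y, hn⟩
  · rfl
  · rfl

theorem dl_neg (h : TwoTors W e1 e2 e3) (P : W.Point) : dl e1 e2 e3 (-P) = dl e1 e2 e3 P :=
  dl_neg' P

/-- translation by the point `(e1, 0)` -/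
private theorem dl_add_tor (h : TwoTors W e1 e2 e3) {x y x2 y2 : F} (hn : W.Nonsingular x y)
    (hn2 : W.Nonsingular x2 y2) (hx : x ≠ e1) (hx2 : x2 = e1) :
    IsSquare (dl e1 e2 e3 (Point.some x y hn) * dl e1 e2 e3 (Point.some x2 y2 hn2) *
      dl e1 e2 e3 (Point.some x y hn + Point.some x2 y2 hn2)) := by
  subst hx2
  have heq := h.eq_of_nonsingular hn2
  have hy : y2 = 0 := by
    have : y2 ^ 2 = 0 := by rw [heq]; ring
    exact pow_eq_zero_iff (two_ne_zero) |>.1 this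
  subst hy
  have hT : (Point.some x2 0 hn2 : W.Point) = tor h := rfl
  obtain ⟨X, Y, hn', hadd, hX, -⟩ := some_add_tor h hn hx
  have hXe : X ≠ x2 := by
    rintro rfl
    rw [sub_self, zero_mul] at hX
    exact bb_ne h hX.symm
  rw [dl_some_ne hn hx, dl_some_eq hn2 rfl, hT, hadd, dl_some_ne hn' hXe, ← hX]
  exact ⟨(x - x2) * (X - x2), by ring⟩

/-- the first coordinates differ -/
private theorem dl_add_ne (h : TwoTors W e1 e2 e3) {x1 y1 x2 y2 : F} (h1 : W.Nonsingular x1 y1)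
    (h2 : W.Nonsingular x2 y2) (hx1 : x1 ≠ e1) (hx2 : x2 ≠ e1) (hx : x1 ≠ x2) :
    IsSquare (dl e1 e2 e3 (Point.some x1 y1 h1) * dl e1 e2 e3 (Point.some x2 y2 h2) *
      dl e1 e2 e3 (Point.some x1 y1 h1 - Point.some x2 y2 h2)) := by
  obtain ⟨x3, y3, h3, hsub, hx3⟩ := RS.sub_some_of_X_ne h h1 h2 hx
  have hxx : x1 - x2 ≠ 0 := sub_ne_zero.2 hx
  have hX1 : x1 - e1 ≠ 0 := sub_ne_zero.2 hx1
  have hX2 : x2 - e1 ≠ 0 := sub_ne_zero.2 hx2
  have E1 := h.eq_of_nonsingular h1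
  have E2 := h.eq_of_nonsingular h2
  have hkey : (x1 - e1) * (x2 - e1) * (x3 - e1) * (x1 - x2) ^ 2 =
      ((x1 - e1) * y2 + (x2 - e1) * y1) ^ 2 := by
    have e : (x3 - e1) * (x1 - x2) ^ 2 =
        (y1 + y2) ^ 2 + (e2 + e3 - x1 - x2) * (x1 - x2) ^ 2 := by
      rw [hx3]
      field_simp
      ring
    rw [mul_assoc ((x1 - e1) * (x2 - e1)), e]
    linear_combination ((x1 - e1) * (x2 - e1) - (x2 - e1) ^ 2) * E1 +
      ((x1 - e1) * (x2 - e1) - (x1 - e1) ^ 2) * E2
  by_cases h3e : x3 = e1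
  · -- the difference is the point `(e1, 0)`
    rw [hsub, dl_some_eq h3 h3e, dl_some_ne h1 hx1, dl_some_ne h2 hx2]
    have hP : (Point.some x1 y1 h1 : W.Point) = Point.some x2 y2 h2 + Point.some x3 y3 h3 := by
      rw [← hsub]
      abel
    subst h3e
    have heq := h.eq_of_nonsingular h3
    have hy : y3 = 0 := by
      have : y3 ^ 2 = 0 := by rw [heq]; ring
      exact pow_eq_zero_iff (two_ne_zero) |>.1 this
    subst hy
    have hT : (Point.some x3 0 h3 : W.Point) = tor h := rfl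
    obtain ⟨X, Y, hn', hadd, hX, -⟩ := some_add_tor h h2 hx2
    rw [hT, hadd, Point.some.injEq] at hP
    rw [← hP.1] at hX
    rw [hX]
    exact ⟨_, rfl⟩
  · rw [hsub, dl_some_ne h3 h3e, dl_some_ne h1 hx1, dl_some_ne h2 hx2]
    refine ⟨((x1 - e1) * y2 + (x2 - e1) * y1) / (x1 - x2), ?_⟩
    rw [← pow_two, div_pow, eq_div_iff (pow_ne_zero 2 hxx), hkey]

/-- the first coordinates agree -/
private theorem dl_add_eq (h : TwoTors W e1 e2 e3) {x1 y1 x2 y2 : F} (h1 : W.Nonsingular x1 y1)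
    (h2 : W.Nonsingular x2 y2) (hx1 : x1 ≠ e1) (hx : x1 = x2) :
    IsSquare (dl e1 e2 e3 (Point.some x1 y1 h1) * dl e1 e2 e3 (Point.some x2 y2 h2) *
      dl e1 e2 e3 (Point.some x1 y1 h1 - Point.some x2 y2 h2)) := by
  have hx2 : x2 ≠ e1 := hx ▸ hx1
  rw [dl_some_ne h1 hx1, dl_some_ne h2 hx2]
  rcases RS.sub_some_of_X_eq h h1 h2 hx with ⟨-, hd⟩ | ⟨-, hd⟩
  · rw [hd, dl_zero, mul_one, hx]
    exact ⟨_, rfl⟩
  · rw [hd, ← hx]
    by_cases hy : y1 = 0
    · rw [(add_self_eq_zero_iff h h1).2 hy, dl_zero, mul_one]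
      exact ⟨_, rfl⟩
    · obtain ⟨X, Y, hn', hadd, hX, -⟩ := add_self_some h h1 hy
      rw [hadd]
      by_cases hXe : X = e1
      · rw [dl_some_eq hn' hXe]
        rw [hXe, sub_self] at hX
        have h2y : (2 : F) * y1 ≠ 0 := mul_ne_zero two_ne_zero hy
        have h5 : (x1 - e1) ^ 2 - (e1 - e2) * (e1 - e3) = 0 := by
          have h6 := (pow_eq_zero_iff (two_ne_zero)).1 hX.symm
          exact (div_eq_zero_iff.1 h6).resolve_right h2y
        rw [← sub_eq_zero.1 h5]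
        exact ⟨(x1 - e1) * (x1 - e1), by ring⟩
      · rw [dl_some_ne hn' hXe, hX]
        exact ⟨(x1 - e1) * (((x1 - e1) ^ 2 - (e1 - e2) * (e1 - e3)) / (2 * y1)), by ring⟩

theorem dl_add (h : TwoTors W e1 e2 e3) (P Q : W.Point) :
    IsSquare (dl e1 e2 e3 P * dl e1 e2 e3 Q * dl e1 e2 e3 (P + Q)) := by
  rcases P with _ | ⟨x1, y1, h1⟩
  · rw [← Point.zero_def, zero_add, dl_zero, one_mul]
    exact ⟨_, rfl⟩
  · rcases Q with _ | ⟨x2, y2, h2⟩
    · rw [← Point.zero_def, add_zero, dl_zero, mul_one]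
      exact ⟨_, rfl⟩
    · by_cases hx2 : x2 = e1
      · by_cases hx1 : x1 = e1
        · have hs : (Point.some x1 y1 h1 : W.Point) + Point.some x2 y2 h2 = 0 := by
            subst hx1
            subst hx2
            have E1 := h.eq_of_nonsingular h1
            have E2 := h.eq_of_nonsingular h2
            have hy1 : y1 = 0 := by
              have : y1 ^ 2 = 0 := by rw [E1]; ring
              exact pow_eq_zero_iff (two_ne_zero) |>.1 this
            have hy2 : y2 = 0 := by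
              have : y2 ^ 2 = 0 := by rw [E2]; ring
              exact pow_eq_zero_iff (two_ne_zero) |>.1 this
            subst hy1
            subst hy2
            exact (add_self_eq_zero_iff h h1).2 rfl
          rw [hs, dl_zero, mul_one, dl_some_eq h1 hx1, dl_some_eq h2 hx2]
          exact ⟨_, rfl⟩
        · exact dl_add_tor h h1 h2 hx1 hx2
      · by_cases hx1 : x1 = e1
        · rw [add_comm, mul_comm (dl e1 e2 e3 (Point.some x1 y1 h1))]
          exact dl_add_tor h h2 h1 hx2 hx1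
        · have e : (Point.some x1 y1 h1 : W.Point) + Point.some x2 y2 h2 =
              Point.some x1 y1 h1 - -Point.some x2 y2 h2 := by abel
          rw [e, ← dl_neg' (Point.some x2 y2 h2), Point.neg_some]
          by_cases hx : x1 = x2
          · exact dl_add_eq h h1 _ hx1 hx
          · exact dl_add_ne h h1 _ hx1 hx2 hx

end Pool.Agent.Work.MP_787500_nt.GO
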