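import Mathlib
import Pool.Agent.Work.MP_787500_nt.GO.Basic
import Pool.Agent.Work.MP_787500_nt.GO.DsA
import Pool.Agent.Work.MP_787500_nt.H9_Descent

/-!
# Module DsB: the descent map of a sum, and of a torsion point  [size M]

`dl_sum`: induction with `dl_add`, `dl_ne` (`dl 0 = 1`). `dl_nsmul`: `dl (m • P)` is a square times `dl P ^ m`.
`dl_torsion`: suppose `m • P = 0`, `m ≠ 0`. `m = 2^a m'`, `m'` odd. `P' = m' • P`, `2^a • P' = 0`, `dl P' ~ dl P` modulo squares (`dl_nsmul`, `m'` odd). The hypothesis `h4` says that no 2-torsion point `≠ 0` is a double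
(if `Q + Q = (e_j, 0)` then all `x(2Q) - e_k` are squares: `add_self_some` for the three rotations, i.e. the other two differences `e_j - e_k` are squares). So `2 • P' = 0` by induction on `a` (the last nonzero multiple `2^b P'` is a
2-torsion point; if `b > 0` it is a double). So `P' ∈ {0, (e1,0), (e2,0), (e3,0)}` (`P' + P' = 0` iff `y = 0`), and `dl P' ∈ {1, (e1-e2)(e1-e3), e2 - e1, e3 - e1}`.
-/

set_option autoImplicit false

namespace Pool.Agent.Work.MP_787500_nt.GO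

open WithZero IsDedekindDomain NumberField WeierstrassCurve WeierstrassCurve.Affine
open Pool.Agent.Work.MP_787500_nt.HC

universe u

variable {F : Type*} [Field F] [CharZero F] [DecidableEq F] {W : WeierstrassCurve.Affine F}
variable {e1 e2 e3 : F}

omit [CharZero F] [DecidableEq F] in
private theorem sq_cancel {a b c : F} (hb : b ≠ 0) (h1 : IsSquare (a * b))
    (h2 : IsSquare (b * c)) : IsSquare (a * c) := by
  obtain ⟨r, hr⟩ := h1
  obtain ⟨t, ht⟩ := h2
  refine ⟨r * t / b, ?_⟩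
  have e : r * t / b * (r * t / b) = (r * r) * (t * t) / (b * b) := by
    field_simp
  rw [e, ← hr, ← ht]
  field_simp

theorem dl_sum (h : TwoTors W e1 e2 e3) {ι : Type*} (s : Finset ι) (P : ι → W.Point) :
    IsSquare (dl e1 e2 e3 (∑ j ∈ s, P j) * ∏ j ∈ s, dl e1 e2 e3 (P j)) := by
  classical
  induction s using Finset.induction_on with
  | empty =>
    rw [Finset.sum_empty, Finset.prod_empty, mul_one]
    exact ⟨1, (mul_one 1).symm⟩
  | insert a s ha ih =>
    rw [Finset.sum_insert ha, Finset.prod_insert ha, ← mul_assoc]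
    refine sq_cancel (dl_ne h (∑ j ∈ s, P j)) ?_ ih
    have h5 := dl_add h (P a) (∑ j ∈ s, P j)
    rwa [mul_comm, mul_comm (dl e1 e2 e3 (P a + ∑ j ∈ s, P j)), ← mul_assoc,
      mul_comm (dl e1 e2 e3 (∑ j ∈ s, P j))]

theorem dl_nsmul (h : TwoTors W e1 e2 e3) (m : ℕ) (P : W.Point) :
    IsSquare (dl e1 e2 e3 (m • P) * dl e1 e2 e3 P ^ m) := by
  have h5 := dl_sum h (Finset.range m) (fun _ => P)
  rwa [Finset.sum_const, Finset.prod_const, Finset.card_range] at h5

/-- the point `(e1, 0)` is not a double -/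
private theorem no_half (h : TwoTors W e1 e2 e3)
    (h1 : ¬ (IsSquare (e1 - e2) ∧ IsSquare (e1 - e3))) (Q : W.Point) : Q + Q ≠ tor h := by
  intro hQ
  apply h1
  have h5 := rFun_sq h.rot (P := Q) hQ
  have h6 := rFun_sq h.rot.rot (P := Q) hQ
  rw [pow_two] at h5 h6
  exact ⟨⟨_, h5.symm⟩, ⟨_, h6.symm⟩⟩

private theorem double_zero (h : TwoTors W e1 e2 e3)
    (h1 : ¬ (IsSquare (e1 - e2) ∧ IsSquare (e1 - e3)))
    (h2 : ¬ (IsSquare (e2 - e3) ∧ IsSquare (e2 - e1)))
    (h3 : ¬ (IsSquare (e3 - e1) ∧ IsSquare (e3 - e2))) {Q : W.Point}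
    (hQ : (Q + Q) + (Q + Q) = 0) : Q + Q = 0 := by
  rcases two_torsion_cases h hQ with h5 | h5 | h5 | h5
  · exact h5
  · exact absurd h5 (no_half h h1 Q)
  · exact absurd h5 (no_half h.rot h2 Q)
  · exact absurd h5 (no_half h.rot.rot h3 Q)

private theorem two_pow_zero (h : TwoTors W e1 e2 e3)
    (h1 : ¬ (IsSquare (e1 - e2) ∧ IsSquare (e1 - e3)))
    (h2 : ¬ (IsSquare (e2 - e3) ∧ IsSquare (e2 - e1)))
    (h3 : ¬ (IsSquare (e3 - e1) ∧ IsSquare (e3 - e2))) (a : ℕ) :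
    ∀ Q : W.Point, 2 ^ a • Q = 0 → Q + Q = 0 := by
  induction a with
  | zero =>
    intro Q hQ
    rw [pow_zero, one_smul] at hQ
    rw [hQ, add_zero]
  | succ a ih =>
    intro Q hQ
    rw [pow_succ, mul_smul, two_smul] at hQ
    exact double_zero h h1 h2 h3 (ih _ hQ)

theorem dl_torsion (h : TwoTors W e1 e2 e3)
    (h1 : ¬ (IsSquare (e1 - e2) ∧ IsSquare (e1 - e3)))
    (h2 : ¬ (IsSquare (e2 - e3) ∧ IsSquare (e2 - e1)))
    (h3 : ¬ (IsSquare (e3 - e1) ∧ IsSquare (e3 - e2))) {P : W.Point} (hP : ¬ Nt P) :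
    IsSquare (dl e1 e2 e3 P) ∨ IsSquare (dl e1 e2 e3 P * ((e1 - e2) * (e1 - e3))) ∨
      IsSquare (dl e1 e2 e3 P * (e2 - e1)) ∨ IsSquare (dl e1 e2 e3 P * (e3 - e1)) := by
  rw [Nt] at hP
  push Not at hP
  obtain ⟨m, hm, hmP⟩ := hP
  obtain ⟨a, m', hodd, rfl⟩ := Nat.exists_eq_two_pow_mul_odd hm
  rw [mul_smul] at hmP
  have h5 := two_pow_zero h h1 h2 h3 a _ hmP
  -- `dl (m' • P)` and `dl P` agree modulo squares
  have h6 : IsSquare (dl e1 e2 e3 P * dl e1 e2 e3 (m' • P)) := by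
    obtain ⟨k, rfl⟩ := hodd
    obtain ⟨r, hr⟩ := dl_nsmul h (2 * k + 1) P
    have hne := dl_ne h P
    refine ⟨r / dl e1 e2 e3 P ^ k, ?_⟩
    have e : r / dl e1 e2 e3 P ^ k * (r / dl e1 e2 e3 P ^ k) =
        (r * r) / (dl e1 e2 e3 P ^ k * dl e1 e2 e3 P ^ k) := by
      field_simp
    rw [e, ← hr, eq_div_iff (mul_ne_zero (pow_ne_zero _ hne) (pow_ne_zero _ hne))]
    ring
  rcases two_torsion_cases h h5 with h7 | h7 | h7 | h7
  · left
    rw [h7] at h6
    have e : dl e1 e2 e3 (0 : W.Point) = 1 := rfl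
    rwa [e, mul_one] at h6
  · right; left
    rw [h7] at h6
    have e : dl e1 e2 e3 (tor h) = (e1 - e2) * (e1 - e3) := if_pos rfl
    rwa [e] at h6
  · right; right; left
    rw [h7] at h6
    have e : dl e1 e2 e3 (tor h.rot) = e2 - e1 := if_neg h.h12.symm
    rwa [e] at h6
  · right; right; right
    rw [h7] at h6
    have e : dl e1 e2 e3 (tor h.rot.rot) = e3 - e1 := if_neg h.h31
    rwa [e] at h6

end Pool.Agent.Work.MP_787500_nt.GO
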