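import Mathlib
import Pool.Agent.Work.MP_787500_nt.GO.Basic

/-!
# Module KId: three identities  [size S]

`linear_combination` in `hi`, `h` (and `hu`). `kid1`: the square is `1 - (1+i)(1-iy) z + (i/2)(1-iy)^2 z^2`; the difference of the two sides is
`-i y + i z^2 (1 + y^2)/2`. `kid2` is `kid1` with `(y, z)` replaced by `(-y, i z)`. `kid3` is the same computation with `u^2 (1 + y^2) = 1 - y^2`.
-/

set_option autoImplicit false

namespace Pool.Agent.Work.MP_787500_nt.GO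

open WithZero IsDedekindDomain NumberField WeierstrassCurve WeierstrassCurve.Affine
open Pool.Agent.Work.MP_787500_nt.HC

universe u

variable {F : Type*} [Field F] [CharZero F] {y z u i : F}

theorem kid1 (hi : i ^ 2 = -1) (h : z ^ 2 * (1 + y ^ 2) = 2 * y) :
    (1 - z) * (1 - i * z) * (1 - i * y) = (1 - (1 + i) * (1 - i * y) * z / 2) ^ 2 := by
  linear_combination (i / 2) * h - (i / 2 * z ^ 2 * y ^ 2 + (1 - i * y) ^ 2 * z ^ 2 / 4) * hi

theorem kid2 (hi : i ^ 2 = -1) (h : z ^ 2 * (1 + y ^ 2) = 2 * y) :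
    (1 + z) * (1 - i * z) * (1 + i * y) = (1 - (i - 1) * (1 + i * y) * z / 2) ^ 2 := by
  linear_combination -(i / 2) * h + (i / 2 * z ^ 2 * y ^ 2 - (1 + i * y) ^ 2 * z ^ 2 / 4) * hi

theorem kid3 (hi : i ^ 2 = -1) (h : z ^ 2 * (1 + y ^ 2) = 2 * y) (hu : u ^ 2 * (1 + y ^ 2) = 1 - y ^ 2) :
    (2 * u ^ 2 - (2 + 2 * i) * z) * (1 + y ^ 2) =
      2 * (1 - i * y) * (1 - (1 + i) * (1 + i * y) * z / 2) ^ 2 := by
  linear_combination 2 * hu - i * (1 + i * y) * h - (2 * y ^ 2 + 2 * (1 + i) * z * y ^ 2 +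
    z ^ 2 / 2 * (1 + i * y) * ((1 + y ^ 2) - y ^ 2 * (1 + i) ^ 2)) * hi

end Pool.Agent.Work.MP_787500_nt.GO
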