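import Mathlib
import Pool.Agent.Work.MP_787500_nt.GO.Basic
import Pool.Agent.Work.MP_787500_nt.GO.ZAct
import Pool.Agent.Work.MP_787500_nt.GO.KId
import Pool.Agent.Work.MP_787500_nt.GO.ChB
import Pool.Agent.Work.MP_787500_nt.GO.ChD

/-!
# Module EeA: `ee 1 = s ^ 2` with `ε s = - s`  [size M]

`y = Z 0`, `z = Z 1`, `z^2 (1 + y^2) = 2 y` (`chn_agm`, `c1`). `ε (1 - i Z 1) = 1 + i (i Z 1) = 1 - Z 1` (`epsZ1`), so `ee 1 = nm ((1 - i z)(1 - z))` (`map_nm`) and `kid1`: `ee 1 * cc 0 = nm (B)^2`, `B = 1 - (1 + i)(1 - i y) z/2`.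
`i y = W'^2/(1 + W^2)` is fixed by `ε` and `z = r W'/W`, `(1 + i) r = (1+i) r`: `ε ((1 + i) r) = (1 - i) r⁻¹ = (1 - i) i r = (1 + i) r` (`r⁻¹ = i r`), so `ε B = B`, `ε (nm B) = nm B`. `cc 0 = -κ^2`, so `ee 1 = (i nm B/κ)^2`,
`s = i nm B/κ`, `ε s = -s`; `s ≠ 0` since `ee 1 ≠ 0` (`1 - i z`, `1 - z ≠ 0`: `1 - i z = 0` gives `z^2 = -1`, `-(1 + y^2) = 2 y`, `y = -1`, but `1 + y ≠ 0`: `Chn.ne2`; for `1 - z`: `z = 1`, `y = 1`).
-/

set_option autoImplicit false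

namespace Pool.Agent.Work.MP_787500_nt.GO

open WithZero IsDedekindDomain NumberField WeierstrassCurve WeierstrassCurve.Affine
open Pool.Agent.Work.MP_787500_nt.HC

universe u

variable {K M A : Type*} [Field K] [CharZero K] [Field M] [CharZero M] [Algebra K M]
variable [CommGroup A] {p : A} {h : ℕ} {α : K} {W W' : A → M} {i : M} {a b u : ℕ → M}
variable {n : ℕ} {C : Finset (M ≃ₐ[K] M)} {σ ε : M ≃ₐ[K] M}

/-- nonvanishing -/
theorem one_sub_ne (L : Lay K p h α W W' i a b u n C σ ε) {m : ℕ} (hm : m < n) :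
    1 - ZL W W' i a b m ≠ 0 ∧ 1 + ZL W W' i a b m ≠ 0 ∧ 1 - i * ZL W W' i a b m ≠ 0 ∧
      1 + i * ZL W W' i a b m ≠ 0 ∧ 1 - ZL W W' i a b (m + 1) ≠ 0 ∧
      1 + ZL W W' i a b (m + 1) ≠ 0 ∧ 1 - i * ZL W W' i a b (m + 1) ≠ 0 ∧
      1 + i * ZL W W' i a b (m + 1) ≠ 0 := by
  have H : Chn (ZL W W' i a b) (Us i (W (p * 1)) u) n := chn_agm L.data L.seq
  have hi := L.seq.i2
  obtain ⟨h1, h2⟩ := H.ne2 hm
  have h3 := H.ne1 hm
  have h4 := H.one_sub hm
  have hc := H.c1 m hm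
  have h5 : (1 - ZL W W' i a b (m + 1) ^ 2) ≠ 0 := by
    intro h
    rw [h, zero_mul] at h4
    exact pow_ne_zero 2 h2 h4.symm
  have h6 : (1 + ZL W W' i a b (m + 1) ^ 2) ≠ 0 := by
    intro h
    have h7 : (1 + ZL W W' i a b (m + 1) ^ 2) * (1 + ZL W W' i a b m ^ 2) =
        (1 + ZL W W' i a b m) ^ 2 := by linear_combination hc
    rw [h, zero_mul] at h7
    exact pow_ne_zero 2 h1 h7.symm
  refine ⟨h2, h1, ?_, ?_, ?_, ?_, ?_, ?_⟩
  · intro h
    apply h3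
    linear_combination (1 + i * ZL W W' i a b m) * h + ZL W W' i a b m ^ 2 * hi
  · intro h
    apply h3
    linear_combination (1 - i * ZL W W' i a b m) * h + ZL W W' i a b m ^ 2 * hi
  · intro h
    apply h5
    linear_combination (1 + ZL W W' i a b (m + 1)) * h
  · intro h
    apply h5
    linear_combination (1 - ZL W W' i a b (m + 1)) * h
  · intro h
    apply h6
    linear_combination (1 + i * ZL W W' i a b (m + 1)) * h + ZL W W' i a b (m + 1) ^ 2 * hi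
  · intro h
    apply h6
    linear_combination (1 - i * ZL W W' i a b (m + 1)) * h + ZL W W' i a b (m + 1) ^ 2 * hi

theorem ee_one (L : Lay K p h α W W' i a b u n C σ ε) {κ : K} (hκ : κ ≠ 0)
    (h0 : cc C i (ZL W W' i a b) 0 = -algebraMap K M κ ^ 2) :
    ∃ s : M, s ≠ 0 ∧ ε s = -s ∧ ee C ε i (ZL W W' i a b) 1 = s ^ 2 := by
  have H : Chn (ZL W W' i a b) (Us i (W (p * 1)) u) n := chn_agm L.data L.seq
  have hi := L.seq.i2
  have hn : 0 < n := L.pos
  have hc := H.c1 0 hn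
  rw [zero_add] at hc
  have hκ' : algebraMap K M κ ≠ 0 := (map_ne_zero _).2 hκ
  have hi0 : i ≠ 0 := by
    rintro rfl
    rw [zero_pow two_ne_zero] at hi
    exact one_ne_zero (neg_eq_zero.1 hi.symm)
  obtain ⟨n1, -, n3, -, n5, -, n7, -⟩ := one_sub_ne L hn
  rw [zero_add] at n5 n7
  set B : M := 1 - (1 + i) * (1 - i * ZL W W' i a b 0) * ZL W W' i a b 1 / 2 with hB
  have hk := kid1 hi hc
  have e0 := epsZ0 L
  have e1 := epsZ1 L
  have hεB : ε B = B := by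
    rw [hB, map_sub, map_one, map_div₀, map_mul, map_mul, map_add, map_sub, map_one, map_mul,
      L.epsi, e0, e1, map_ofNat]
    linear_combination ((1 - i * ZL W W' i a b 0) * ZL W W' i a b 1 / 2) * hi
  have hcc : ee C ε i (ZL W W' i a b) 1 * cc C i (ZL W W' i a b) 0 = nm C B ^ 2 := by
    have h1 : ε (cc C i (ZL W W' i a b) 1) = nm C (1 - ZL W W' i a b 1) := by
      rw [cc, map_nm L.comm, map_sub, map_one, map_mul, L.epsi, e1]
      congr 1
      linear_combination ZL W W' i a b 1 * hi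
    rw [ee, h1, cc, cc, ← nm_mul, ← nm_mul, ← nm_pow, hB, ← hk]
    congr 1
    ring
  have hBn : nm C B ≠ 0 := by
    apply nm_ne
    intro h
    rw [← hB, h, zero_pow two_ne_zero] at hk
    exact mul_ne_zero (mul_ne_zero n5 n7) n3 hk
  refine ⟨i * nm C B / algebraMap K M κ, ?_, ?_, ?_⟩
  · exact div_ne_zero (mul_ne_zero hi0 hBn) hκ'
  · rw [map_div₀, map_mul, L.epsi, map_nm L.comm, hεB, ε.commutes]
    ring
  · rw [h0] at hcc
    rw [div_pow, mul_pow, hi, eq_div_iff (pow_ne_zero 2 hκ')]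
    linear_combination -hcc

end Pool.Agent.Work.MP_787500_nt.GO
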