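import Mathlib
import Pool.Agent.Work.MP_787500_nt.GO.Basic
import Pool.Agent.Work.MP_787500_nt.GO.ChB
import Pool.Agent.Work.MP_787500_nt.GO.ChD
import Pool.Agent.Work.MP_787500_nt.GO.ZAct
import Pool.Agent.Work.MP_787500_nt.GO.RtA

/-!
# Module ZzA: some norms which are squares up to `ε`  [size S-M]

`nm_zz`: `nm (Z j) * ε (nm (Z j))` is a square for `j < n`. `j = 0`: `ε Z 0 = -Z 0` (`epsZ0`, `map_nm`): `nm (-Z 0 ^2)`, `-1` is a square (`sq_neg`). Step: `Z j Z (j+1)` is a square (`Chn.sq_zz`, `j + 2 ≤ n`).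
`nm_ww`: `nm (1 + Z j ^2) * ε (..)`: `j = 0`: `1 + Z 0 ^2` is fixed by `ε`. `j + 1`: `(1 + Z (j+1)^2) Z (j+1)` is a square (`Chn.sq_one_add`, `sq_two`).
-/

set_option autoImplicit false

namespace Pool.Agent.Work.MP_787500_nt.GO

open WithZero IsDedekindDomain NumberField WeierstrassCurve WeierstrassCurve.Affine
open Pool.Agent.Work.MP_787500_nt.HC

universe u

variable {K M A : Type*} [Field K] [CharZero K] [Field M] [CharZero M] [Algebra K M]
variable [CommGroup A] {p : A} {h : ℕ} {α : K} {W W' : A → M} {i : M} {a b u : ℕ → M}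
variable {n : ℕ} {C : Finset (M ≃ₐ[K] M)} {σ ε : M ≃ₐ[K] M}

omit [CharZero K] [CharZero M] in
/-- the step: if `x y` is a square -/
private theorem nm_step (C : Finset (M ≃ₐ[K] M)) (ε : M ≃ₐ[K] M) {x y : M} (hx0 : x ≠ 0)
    (h : IsSquare (x * y)) (hx : IsSquare (nm C x * ε (nm C x))) :
    IsSquare (nm C y * ε (nm C y)) := by
  have h1 := isSquare_nm C h
  rw [nm_mul] at h1
  have h2 : IsSquare (ε (nm C x * nm C y)) := by
    obtain ⟨t, ht⟩ := h1
    exact ⟨ε t, by rw [ht, map_mul]⟩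
  have hn : nm C x ≠ 0 := nm_ne C hx0
  have hn' : ε (nm C x) ≠ 0 := (map_ne_zero ε).2 hn
  have h3 := (h1.mul h2).div hx
  have e : nm C x * nm C y * ε (nm C x * nm C y) / (nm C x * ε (nm C x)) =
      nm C y * ε (nm C y) := by
    rw [map_mul, div_eq_iff (mul_ne_zero hn hn')]
    ring
  rwa [e] at h3

theorem nm_zz (L : Lay K p h α W W' i a b u n C σ ε) {j : ℕ} (hj : j < n) :
    IsSquare (nm C (ZL W W' i a b j) * ε (nm C (ZL W W' i a b j))) := by
  have hch : Chn (ZL W W' i a b) (Us i (W (p * 1)) u) n := chn_agm L.data L.seq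
  induction j with
  | zero =>
    rw [map_nm L.comm, epsZ0 L, ← nm_mul]
    refine isSquare_nm C ?_
    have e : ZL W W' i a b 0 * -ZL W W' i a b 0 = -1 * (ZL W W' i a b 0 * ZL W W' i a b 0) := by
      ring
    rw [e]
    exact (sq_neg L).mul ⟨_, rfl⟩
  | succ j ih =>
    exact nm_step C ε (hch.zne j (by omega)) (hch.sq_zz (by omega)) (ih (by omega))

theorem nm_ww (L : Lay K p h α W W' i a b u n C σ ε) {j : ℕ} (hj : j < n) :
    IsSquare (nm C (1 + ZL W W' i a b j ^ 2) * ε (nm C (1 + ZL W W' i a b j ^ 2))) := by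
  have hch : Chn (ZL W W' i a b) (Us i (W (p * 1)) u) n := chn_agm L.data L.seq
  cases j with
  | zero =>
    have e : ε (nm C (1 + ZL W W' i a b 0 ^ 2)) = nm C (1 + ZL W W' i a b 0 ^ 2) := by
      rw [map_nm L.comm, map_add, map_one, map_pow, epsZ0 L, neg_sq]
    rw [e]
    exact ⟨_, rfl⟩
  | succ j =>
    refine nm_step C ε (hch.zne (j + 1) (by omega)) ?_ (nm_zz L hj)
    rw [mul_comm]
    exact hch.sq_one_add (sq_two L) (by omega)

end Pool.Agent.Work.MP_787500_nt.GO
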