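import Mathlib
import Pool.Agent.Work.MP_787500_nt.GO.Basic
import Pool.Agent.Work.MP_787500_nt.GO.ZzA
import Pool.Agent.Work.MP_787500_nt.GO.KId
import Pool.Agent.Work.MP_787500_nt.GO.EeA

/-!
# Module EcA: the classes for the curve `y ^ 2 = x ^ 3 + 2 x ^ 2 + 2 x`  [size S-M]

`x = xE Z (j+1) = Z (j+2)(1 - Z (j+1))/(1 - Z (j+2))`. Modulo squares `nm x ~ nm (Z (j+2)) nm (1 - Z (j+1)) nm (1 - Z (j+2))`; `kid1` with `(y, z) = (Z j, Z (j+1))` and `(Z (j+1), Z (j+2))`: `nm (1 - Z (j+1)) ~ cc (j+1) cc j`, `nm (1 - Z (j+2)) ~ cc (j+2) cc (j+1)`.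
So `nm x ~ nm (Z (j+2)) cc j cc (j+2)`; multiply by the image under `ε`; `nm_zz` for `j + 2 < n`.
-/

set_option autoImplicit false

namespace Pool.Agent.Work.MP_787500_nt.GO

open WithZero IsDedekindDomain NumberField WeierstrassCurve WeierstrassCurve.Affine
open Pool.Agent.Work.MP_787500_nt.HC

universe u

variable {K M A : Type*} [Field K] [CharZero K] [Field M] [CharZero M] [Algebra K M]
variable [CommGroup A] {p : A} {h : ℕ} {α : K} {W W' : A → M} {i : M} {a b u : ℕ → M}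
variable {n : ℕ} {C : Finset (M ≃ₐ[K] M)} {σ ε : M ≃ₐ[K] M}

private theorem alg {N1 N2 c0 c1 c2 z x y : M} (k1 : N1 * c1 * c0 = x ^ 2)
    (k2 : N2 * c2 * c1 = y ^ 2) (h2 : N2 ≠ 0) (hy : y ≠ 0) :
    z * N1 / N2 * c0 * c2 = z * (x * c2 / y) ^ 2 := by
  field_simp
  linear_combination -(z * c2 * N1 * c0) * k2 + z * c2 ^ 2 * N2 * k1

theorem clsE (L : Lay K p h α W W' i a b u n C σ ε) {j : ℕ} (hj : j + 3 ≤ n) :
    IsSquare (nm C (xE (ZL W W' i a b) (j + 1)) * ε (nm C (xE (ZL W W' i a b) (j + 1))) *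
      (ee C ε i (ZL W W' i a b) j * ee C ε i (ZL W W' i a b) (j + 2))) := by
  obtain ⟨-, -, n1, -, n2, -, n3, -⟩ := one_sub_ne L (m := j + 1) (by omega)
  have hi : i ^ 2 = -1 := L.seq.i2
  have hch := chn_agm L.data L.seq
  have h1 : ZL W W' i a b (j + 1) ^ 2 * (1 + ZL W W' i a b j ^ 2) = 2 * ZL W W' i a b j :=
    hch.c1 j (by omega)
  have h2 : ZL W W' i a b (j + 2) ^ 2 * (1 + ZL W W' i a b (j + 1) ^ 2) =
      2 * ZL W W' i a b (j + 1) := hch.c1 (j + 1) (by omega)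
  obtain ⟨w, hw⟩ := nm_zz L (j := j + 2) (by omega)
  have k1 := congrArg (nm C) (kid1 hi h1)
  have k2 := congrArg (nm C) (kid1 hi h2)
  rw [nm_mul, nm_mul, nm_pow] at k1 k2
  set A := nm C (1 - (1 + i) * (1 - i * ZL W W' i a b j) * ZL W W' i a b (j + 1) / 2)
  set B := nm C (1 - (1 + i) * (1 - i * ZL W W' i a b (j + 1)) * ZL W W' i a b (j + 2) / 2)
  have hx : nm C (xE (ZL W W' i a b) (j + 1)) = nm C (ZL W W' i a b (j + 2)) *
      nm C (1 - ZL W W' i a b (j + 1)) / nm C (1 - ZL W W' i a b (j + 2)) := by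
    rw [← nm_mul, ← nm_div]
    rfl
  have m1 : nm C (1 - i * ZL W W' i a b (j + 1)) ≠ 0 := nm_ne C n1
  have m2 : nm C (1 - ZL W W' i a b (j + 2)) ≠ 0 := nm_ne C n2
  have m3 : nm C (1 - i * ZL W W' i a b (j + 2)) ≠ 0 := nm_ne C n3
  have mB : B ≠ 0 := by
    intro h0
    rw [h0] at k2
    have h3 := mul_ne_zero (mul_ne_zero m2 m3) m1
    exact h3 (k2.trans (by ring))
  have key : nm C (xE (ZL W W' i a b) (j + 1)) * nm C (1 - i * ZL W W' i a b j) *
      nm C (1 - i * ZL W W' i a b (j + 2)) = nm C (ZL W W' i a b (j + 2)) *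
      (A * nm C (1 - i * ZL W W' i a b (j + 2)) / B) ^ 2 := by
    rw [hx]
    exact alg k1 k2 m2 mB
  have key2 := congrArg ε key
  rw [map_mul, map_mul, map_mul, map_pow] at key2
  refine ⟨w * ((A * nm C (1 - i * ZL W W' i a b (j + 2)) / B) *
    ε (A * nm C (1 - i * ZL W W' i a b (j + 2)) / B)), ?_⟩
  simp only [ee, cc]
  linear_combination (ε (nm C (xE (ZL W W' i a b) (j + 1))) * ε (nm C (1 - i * ZL W W' i a b j)) *
      ε (nm C (1 - i * ZL W W' i a b (j + 2)))) * key +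
    (nm C (ZL W W' i a b (j + 2)) * (A * nm C (1 - i * ZL W W' i a b (j + 2)) / B) ^ 2) * key2 +
    ((A * nm C (1 - i * ZL W W' i a b (j + 2)) / B) *
      ε (A * nm C (1 - i * ZL W W' i a b (j + 2)) / B)) ^ 2 * hw

end Pool.Agent.Work.MP_787500_nt.GO
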