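import Mathlib
import Pool.Agent.Work.MP_787500_nt.GO.Basic
import Pool.Agent.Work.MP_787500_nt.GO.ZAct
import Pool.Agent.Work.MP_787500_nt.GO.KId
import Pool.Agent.Work.MP_787500_nt.GO.ChB

/-!
# Module EeB: the recursion for `cc`  [size M]

`γ = σ^(2^m)`, `y = Z (m+1)`, `z = Z (m+2)`, `z^2 (1 + y^2) = 2y`; `γ y = -y`, `γ z = ± i z` (`sigZ`, `sigZ2`), `γ i = i` (for `m = 0`: `L.sigi`).
If `γ z = i z`: `γ (1 - i z) = 1 + z`, `γ (1 - i y) = 1 + i y`, `kid2`: `cc (m+2) γ (cc (m+2)) γ (cc (m+1)) = nm(..)^2` (`map_nm`, `nm_mul`, `nm_pow`). If `γ z = -i z`: `γ (1 - i z) = 1 - z`, `kid1`.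
-/

set_option autoImplicit false

namespace Pool.Agent.Work.MP_787500_nt.GO

open WithZero IsDedekindDomain NumberField WeierstrassCurve WeierstrassCurve.Affine
open Pool.Agent.Work.MP_787500_nt.HC

universe u

variable {K M A : Type*} [Field K] [CharZero K] [Field M] [CharZero M] [Algebra K M]
variable [CommGroup A] {p : A} {h : ℕ} {α : K} {W W' : A → M} {i : M} {a b u : ℕ → M}
variable {n : ℕ} {C : Finset (M ≃ₐ[K] M)} {σ ε : M ≃ₐ[K] M}

theorem cc_rec (L : Lay K p h α W W' i a b u n C σ ε) {m : ℕ} (hm : m + 2 ≤ n) :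
    ∃ B : M, cc C i (ZL W W' i a b) (m + 2) * (σ ^ 2 ^ m) (cc C i (ZL W W' i a b) (m + 2)) *
        cc C i (ZL W W' i a b) (m + 1) = B ^ 2 ∨
      cc C i (ZL W W' i a b) (m + 2) * (σ ^ 2 ^ m) (cc C i (ZL W W' i a b) (m + 2)) *
        (σ ^ 2 ^ m) (cc C i (ZL W W' i a b) (m + 1)) = B ^ 2 := by
  have hc := chn_agm L.data (c := 1) L.seq
  have hi : i ^ 2 = -1 := L.seq.i2
  have h1 : ZL W W' i a b (m + 2) ^ 2 * (1 + ZL W W' i a b (m + 1) ^ 2) =
      2 * ZL W W' i a b (m + 1) := hc.c1 (m + 1) (by omega)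
  have hpow : ∀ k : ℕ, (σ ^ k) i = i := by
    intro k
    induction k with
    | zero => rfl
    | succ k ih =>
      rw [pow_succ]
      show (σ ^ k) (σ i) = i
      rw [L.sigi, ih]
  have hy := (sigZ L (m := m) (by omega)).1
  have e2 : (σ ^ 2 ^ m) (cc C i (ZL W W' i a b) (m + 2)) =
      nm C (1 - i * (σ ^ 2 ^ m) (ZL W W' i a b (m + 2))) := by
    rw [cc, map_nm L.comm, map_sub, map_one, map_mul, hpow]
  have e1 : (σ ^ 2 ^ m) (cc C i (ZL W W' i a b) (m + 1)) =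
      nm C (1 + i * ZL W W' i a b (m + 1)) := by
    rw [cc, map_nm L.comm, map_sub, map_one, map_mul, hpow, hy]
    congr 1
    ring
  rcases sigZ2 L hm with hz | hz
  · refine ⟨nm C (1 - (i - 1) * (1 + i * ZL W W' i a b (m + 1)) * ZL W W' i a b (m + 2) / 2),
      Or.inr ?_⟩
    rw [e2, e1, hz, cc, ← nm_mul, ← nm_mul, ← nm_pow, ← kid2 hi h1]
    congr 1
    linear_combination (-ZL W W' i a b (m + 2) * (1 - i * ZL W W' i a b (m + 2)) *
      (1 + i * ZL W W' i a b (m + 1))) * hi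
  · refine ⟨nm C (1 - (1 + i) * (1 - i * ZL W W' i a b (m + 1)) * ZL W W' i a b (m + 2) / 2),
      Or.inl ?_⟩
    rw [e2, hz, cc, cc, ← nm_mul, ← nm_mul, ← nm_pow, ← kid1 hi h1]
    congr 1
    linear_combination (ZL W W' i a b (m + 2) * (1 - i * ZL W W' i a b (m + 2)) *
      (1 - i * ZL W W' i a b (m + 1))) * hi

end Pool.Agent.Work.MP_787500_nt.GO
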