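import Mathlib
import Pool.Agent.Work.MP_787500_nt.GO.Basic
import Pool.Agent.Work.MP_787500_nt.GO.EeA
import Pool.Agent.Work.MP_787500_nt.GO.EeB

/-!
# Module EeC: `ee m` is not a square for `2 ≤ m`  [size M]

`Z = ZL`, `cc m ≠ 0` (`nm_ne`, `one_sub_ne`).
`ee_down`: `γ = σ^(2^m)`. Multiply the relation of `cc_rec` by its image under `ε` (commutes with `γ`): `ee (m+2) γ (ee (m+2)) x = (B ε B)^2`, `x = ee (m+1)` or `γ (ee (m+1))`. If `ee (m+2)` is a square so is `γ (ee (m+2))`, hence `x`,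
hence (apply `γ⁻¹`) `ee (m+1)` is a square.
`ee_two`: suppose `ee 2 = y^2`. `m = 0`, `γ = σ`, `x = s^2` or `(σ s)^2` (`ee_one`): `(y σ y s')^2 = (B ε B)^2`, `s' = s` or `σ s`, so `y σ y s' = ± B ε B`. `ε (B ε B) = B ε B` (`L.eps2`). `ε (ee 2) = ee 2`, so `ε y = ± y`, `ε (σ y) = σ (ε y) = ± σ y` with the same sign,
`ε (y σ y) = y σ y`; `ε s' = -s'`. So `y σ y s' = - y σ y s'`, it is 0, but `y ≠ 0`, `s' ≠ 0`: contradiction.
`ee_not`: induction on `m` with `ee_down` (`ee (m+2)` square → `ee (m+1)` square, `m ≥ 1`).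
-/

set_option autoImplicit false

namespace Pool.Agent.Work.MP_787500_nt.GO

open WithZero IsDedekindDomain NumberField WeierstrassCurve WeierstrassCurve.Affine
open Pool.Agent.Work.MP_787500_nt.HC

universe u

variable {K M A : Type*} [Field K] [CharZero K] [Field M] [CharZero M] [Algebra K M]
variable [CommGroup A] {p : A} {h : ℕ} {α : K} {W W' : A → M} {i : M} {a b u : ℕ → M}
variable {n : ℕ} {C : Finset (M ≃ₐ[K] M)} {σ ε : M ≃ₐ[K] M}

private theorem comm_apply (L : Lay K p h α W W' i a b u n C σ ε) (τ ρ : M ≃ₐ[K] M) (x : M) :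
    τ (ρ x) = ρ (τ x) :=
  congrArg (fun t : M ≃ₐ[K] M => t x) (L.comm τ ρ)

private theorem eps_eps (L : Lay K p h α W W' i a b u n C σ ε) (x : M) : ε (ε x) = x :=
  congrArg (fun t : M ≃ₐ[K] M => t x) L.eps2

private theorem ee_ne (L : Lay K p h α W W' i a b u n C σ ε) {m : ℕ} (hm : m + 1 ≤ n) :
    ee C ε i (ZL W W' i a b) (m + 1) ≠ 0 := by
  have h1 : cc C i (ZL W W' i a b) (m + 1) ≠ 0 :=
    nm_ne C (one_sub_ne L (m := m) (by omega)).2.2.2.2.2.2.1
  exact mul_ne_zero h1 ((map_ne_zero ε).2 h1)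

/-- the recursion for `ee` -/
private theorem ee_rec (L : Lay K p h α W W' i a b u n C σ ε) {m : ℕ} (hm : m + 2 ≤ n) :
    ∃ B : M, ε B = B ∧ (ee C ε i (ZL W W' i a b) (m + 2) *
        (σ ^ 2 ^ m) (ee C ε i (ZL W W' i a b) (m + 2)) * ee C ε i (ZL W W' i a b) (m + 1) = B ^ 2 ∨
      ee C ε i (ZL W W' i a b) (m + 2) * (σ ^ 2 ^ m) (ee C ε i (ZL W W' i a b) (m + 2)) *
        (σ ^ 2 ^ m) (ee C ε i (ZL W W' i a b) (m + 1)) = B ^ 2) := by
  obtain ⟨B, hB⟩ := cc_rec L hm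
  refine ⟨B * ε B, ?_, ?_⟩
  · rw [map_mul, eps_eps L, mul_comm]
  · rcases hB with hB | hB
    · left
      have h2 := congrArg ε hB
      rw [map_mul, map_mul, map_pow, comm_apply L ε] at h2
      rw [mul_pow, ← hB, ← h2, ee, ee, map_mul]
      ring
    · right
      have h2 := congrArg ε hB
      rw [map_mul, map_mul, map_pow, comm_apply L ε, comm_apply L ε] at h2
      rw [mul_pow, ← hB, ← h2, ee, ee, map_mul, map_mul]
      ring

theorem ee_down (L : Lay K p h α W W' i a b u n C σ ε) {m : ℕ} (hm : m + 2 ≤ n)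
    (h2 : IsSquare (ee C ε i (ZL W W' i a b) (m + 2) *
      (σ ^ 2 ^ m) (ee C ε i (ZL W W' i a b) (m + 2)))) :
    IsSquare (ee C ε i (ZL W W' i a b) (m + 1)) := by
  obtain ⟨B, -, hB⟩ := ee_rec L hm
  obtain ⟨y, hy⟩ := h2
  have hne := ee_ne L (m := m + 1) hm
  have hy0 : y ≠ 0 := by
    rintro rfl
    rw [mul_zero] at hy
    exact mul_ne_zero hne ((map_ne_zero _).2 hne) hy
  rcases hB with hB | hB
  · rw [hy] at hB
    refine ⟨B / y, ?_⟩
    field_simp
    linear_combination hB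
  · rw [hy] at hB
    have h1 : (σ ^ 2 ^ m) (ee C ε i (ZL W W' i a b) (m + 1)) = B / y * (B / y) := by
      field_simp
      linear_combination hB
    refine ⟨(σ ^ 2 ^ m).symm (B / y), ?_⟩
    rw [← map_mul, ← h1, AlgEquiv.symm_apply_apply]

theorem ee_not (L : Lay K p h α W W' i a b u n C σ ε) {κ : K} (hκ : κ ≠ 0)
    (h0 : cc C i (ZL W W' i a b) 0 = -algebraMap K M κ ^ 2) {m : ℕ} (h2 : 2 ≤ m) (hm : m ≤ n) :
    ¬ IsSquare (ee C ε i (ZL W W' i a b) m) := by
  induction m, h2 using Nat.le_induction with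
  | base =>
    rintro ⟨y, hy⟩
    obtain ⟨B, hεB, hB⟩ := ee_rec L (m := 0) hm
    rw [zero_add, zero_add, pow_zero, pow_one] at hB
    obtain ⟨s, hs0, hεs, hs⟩ := ee_one L hκ h0
    have hne := ee_ne L (m := 1) hm
    have hy0 : y ≠ 0 := by
      rintro rfl
      rw [mul_zero] at hy
      exact hne hy
    obtain ⟨s', hs0', hεs', hs'⟩ : ∃ s' : M, s' ≠ 0 ∧ ε s' = -s' ∧
        (y * σ y * s') ^ 2 = B ^ 2 := by
      rcases hB with hB | hB
      · refine ⟨s, hs0, hεs, ?_⟩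
        rw [hy, hs, map_mul] at hB
        linear_combination hB
      · refine ⟨σ s, (map_ne_zero σ).2 hs0, ?_, ?_⟩
        · rw [comm_apply L, hεs, map_neg]
        · rw [hy, hs, map_mul, map_pow] at hB
          linear_combination hB
    have hεe : ε (ee C ε i (ZL W W' i a b) 2) = ee C ε i (ZL W W' i a b) 2 := by
      rw [ee, map_mul, eps_eps L, mul_comm]
    have hεy : ε y = y ∨ ε y = -y := by
      apply sq_eq_sq_iff_eq_or_eq_neg.1
      have h1 := hεe
      rw [hy, map_mul] at h1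
      rw [pow_two, pow_two, h1]
    have hεyy : ε (y * σ y) = y * σ y := by
      rw [map_mul, comm_apply L ε σ]
      rcases hεy with h1 | h1
      · rw [h1]
      · rw [h1, map_neg]
        ring
    have h2 : ε (y * σ y * s') = y * σ y * s' := by
      rcases sq_eq_sq_iff_eq_or_eq_neg.1 hs' with h1 | h1
      · rw [h1, hεB]
      · rw [h1, map_neg, hεB]
    rw [map_mul, hεyy, hεs'] at h2
    have h3 : y * σ y * s' = 0 := by
      have h4 : (2 : M) * (y * σ y * s') = 0 := by linear_combination -h2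
      exact (mul_eq_zero.1 h4).resolve_left two_ne_zero
    exact mul_ne_zero (mul_ne_zero hy0 ((map_ne_zero σ).2 hy0)) hs0' h3
  | succ m h2 ih =>
    intro hsq
    obtain ⟨k, rfl⟩ : ∃ k, m = k + 1 := ⟨m - 1, by omega⟩
    refine ih (by omega) (ee_down L (m := k) hm ?_)
    obtain ⟨y, hy⟩ := hsq
    refine ⟨y * (σ ^ 2 ^ k) y, ?_⟩
    have e : k + 1 + 1 = k + 2 := rfl
    rw [e] at hy
    rw [hy, map_mul]
    ring

end Pool.Agent.Work.MP_787500_nt.GO
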