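import Mathlib
import Pool.Agent.Work.MP_787500_nt.GO.Basic
import Pool.Agent.Work.MP_787500_nt.GO.EcA
import Pool.Agent.Work.MP_787500_nt.GO.EeC
import Pool.Agent.Work.MP_787500_nt.GO.DsB
import Pool.Agent.Work.MP_787500_nt.GO.PtD
import Pool.Agent.Work.MP_787500_nt.GO.StA
import Pool.Agent.Work.MP_787500_nt.GO.QsB

/-!
# Module DpA: the higher steps for the curve `y ^ 2 = x ^ 3 + 2 x ^ 2 + 2 x`  [size M-L]

`n = j + 3`, `1 ≤ j`. `E = cv 2 2`, over `M`: `TwoTors (0, -1+i, -1-i)`. `Q = (x, y) = (xE Z (j+1), yE Z U (j+1))` (`eqE`), `R = tp E C Q`, fixed by `C`, negated by `σ^(2^(j+2))` (`Z (j+3)` changes sign, `Z (j+1)`, `Z (j+2)`, `U (j+2)` fixed: `sigZ`). Use `stepPts_of_eps`.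
Let `P = R ± ε R`, suppose `¬ Nt P`. `dl` with `(e1, e2, e3) = (0, -1+i, -1-i)`: `dl P ~ nm x * ε (nm x)` (`dl_add`, `dl_neg`, `dl_sum`; `g x ≠ 0`), and by `dl_torsion` `dl P ∈ {1, 1+i}` modulo squares (`e2 - e1 = i (1+i)`, `e3 - e1 = -(1+i)`, `(e1-e2)(e1-e3) = 2`; the hypotheses by `not_sq`).
So (`clsE`) `ee j * ee (j+2) * t` is a square, `t = 1` or `1 + i`. `γ = σ^(2^j)` fixes `i`, `Z j` (so `ee j`: `map_nm`, `L.comm`); multiply with the image under `γ`: `ee (j+2) γ (ee (j+2))` is a square (`ee j ≠ 0`, `1 + i ≠ 0`), `ee_down` (`m = j`): `ee (j+1)` is a square, contradiction to `ee_not`.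
-/

set_option autoImplicit false

namespace Pool.Agent.Work.MP_787500_nt.GO

open WithZero IsDedekindDomain NumberField WeierstrassCurve WeierstrassCurve.Affine
open Pool.Agent.Work.MP_787500_nt.HC

universe u

variable {K M A : Type*} [Field K] [CharZero K] [Field M] [CharZero M] [Algebra K M]
variable [FiniteDimensional K M] [CommGroup A] [Finite A]
variable {p : A} {h : ℕ} {α : K} {W W' : A → M} {i : M} {a b u : ℕ → M}
variable {n : ℕ} {C : Finset (M ≃ₐ[K] M)} {σ ε : M ≃ₐ[K] M} {V : Valuation M ℤᵐ⁰}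

private theorem sq_trans2 {x y z : M} (hy : y ≠ 0) (h1 : IsSquare (x * y))
    (h2 : IsSquare (y * z)) : IsSquare (x * z) := by
  obtain ⟨r, hr⟩ := h1
  obtain ⟨s, hs⟩ := h2
  refine ⟨r * s / y, ?_⟩
  field_simp
  linear_combination (y * z) * hr + (r * r) * hs

private theorem sq_cancel2 {x y : M} (hy : y ≠ 0) (h1 : IsSquare y)
    (h2 : IsSquare (x * y)) : IsSquare x := by
  have := sq_trans2 (z := 1) hy h2 (by rwa [mul_one])
  rwa [mul_one] at this

open scoped Classical in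
theorem stepE {j : ℕ} (hj : 1 ≤ j) (L : Lay K p h α W W' i a b u (j + 3) C σ ε) {κ : K}
    (hκ : κ ≠ 0) (h0 : cc C i (ZL W W' i a b) 0 = -algebraMap K M κ ^ 2) :
    StepPts (cv (2 : K) 2) C σ ε (j + 2) := by
  have hi2 : i ^ 2 = -1 := L.seq.i2
  have hi0 : i ≠ 0 := by
    rintro rfl
    norm_num at hi2
  have h20 : (2 : M) ≠ 0 := two_ne_zero
  set E := cv (2 : K) 2 with hE
  set Z := ZL W W' i a b with hZ
  set U := UL p W i u with hU
  have hT : TwoTors (E⁄M) 0 (-1 + i) (-1 - i) := by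
    refine cv_twoTors' ?_ ?_ (by norm_num) ?_
    · rw [map_ofNat]
      ring
    · rw [map_ofNat]
      linear_combination -hi2
    · intro h0
      apply hi0
      have : 2 * i = 0 := by linear_combination h0
      exact (mul_eq_zero.1 this).resolve_left h20
  have hch : Chn Z (Us i (W (p * 1)) u) (j + 3) := chn_agm L.data L.seq
  have hU1 : U = Us i (W (p * 1)) u := by
    rw [hU, UL, mul_one]
  rw [← hU1] at hch
  have heq := eqE hch (k := j + 1) le_rfl
  have hn : (E⁄M).Nonsingular (xE Z (j + 1)) (yE Z U (j + 1)) := by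
    apply hT.nonsingular_of_eq
    rw [heq]
    linear_combination xE Z (j + 1) * hi2
  set Q : (E⁄M).Point := Point.some _ _ hn with hQ
  set R := tp E C Q with hR
  have hfix : ∀ g ∈ C, mp E g R = R := fun g hg => tp_fix E C L.comm L.memC hg Q
  obtain ⟨s1, s2, s3⟩ := sigZ L (m := j + 2) (by omega)
  have hτ : mp E (σ ^ 2 ^ (j + 2)) R = -R := by
    rw [hR, mp_tp L.comm, ← tp_neg]
    congr 1
    obtain ⟨hn', e⟩ := mp_some E (σ ^ 2 ^ (j + 2)) hn
    rw [hQ, e, Point.neg_some]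
    have ex : (σ ^ 2 ^ (j + 2)) (xE Z (j + 1)) = xE Z (j + 1) := by
      simp only [xE, map_div₀, map_mul, map_sub, map_one]
      rw [s2 (j + 1 + 1) (by omega), s2 (j + 1) (by omega)]
    have ey : (σ ^ 2 ^ (j + 2)) (yE Z U (j + 1)) =
        (E⁄M).negY (xE Z (j + 1)) (yE Z U (j + 1)) := by
      rw [hT.negY_eq]
      simp only [yE, map_div₀, map_mul, map_sub, map_add, map_one]
      rw [s2 (j + 1 + 1) (by omega), s3 (j + 1 + 1) (by omega), s2 (j + 1) (by omega)]
      have e3 : j + 1 + 2 = j + 2 + 1 := rfl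
      rw [e3, s1]
      ring
    simp only [ex, ey]
  obtain ⟨n1, -, -, -, n5, -, -, -⟩ := one_sub_ne L (m := j + 1) (by omega)
  have hx0 : xE Z (j + 1) ≠ 0 := div_ne_zero (mul_ne_zero (hch.zne (j + 1 + 1) (by omega)) n1) n5
  have hxg : ∀ g : M ≃ₐ[K] M, g (xE Z (j + 1)) ≠ 0 := fun g => (map_ne_zero g).2 hx0
  have hdR : IsSquare (dl 0 (-1 + i) (-1 - i) R * nm C (xE Z (j + 1))) := by
    have h1 := dl_sum hT C (fun g => mp E g Q)
    have h2 : ∏ g ∈ C, dl 0 (-1 + i) (-1 - i) (mp E g Q) = nm C (xE Z (j + 1)) := by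
      rw [nm]
      refine Finset.prod_congr rfl fun g hg => ?_
      obtain ⟨hn', e⟩ := mp_some E g hn
      rw [hQ, e]
      simp only [dl]
      rw [if_neg (hxg g), sub_zero]
    rw [h2] at h1
    exact h1
  have hdE : IsSquare (dl 0 (-1 + i) (-1 - i) (mp E ε R) * ε (nm C (xE Z (j + 1)))) := by
    have h1 := dl_sum hT C (fun g => mp E g (mp E ε Q))
    have h2 : ∏ g ∈ C, dl 0 (-1 + i) (-1 - i) (mp E g (mp E ε Q)) =
        ε (nm C (xE Z (j + 1))) := by
      rw [nm, map_prod]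
      refine Finset.prod_congr rfl fun g hg => ?_
      rw [← mp_mul, L.comm g ε]
      obtain ⟨hn', e⟩ := mp_some E (ε * g) hn
      rw [hQ, e]
      simp only [dl]
      rw [if_neg (hxg (ε * g)), sub_zero]
      rfl
    rw [h2] at h1
    have h3 : mp E ε R = ∑ g ∈ C, mp E g (mp E ε Q) := by
      rw [hR, mp_tp L.comm, tp]
    rw [h3]
    exact h1
  have hsq2 : IsSquare (2 : M) := sq_two L
  have hsqi : IsSquare i := sq_i L
  have hsqn : IsSquare (-1 : M) := sq_neg L
  have hpi : ¬ IsSquare (1 + i) := by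
    rintro ⟨y, hy⟩
    refine not_sq L (d := 1) one_ne_zero y ?_
    rw [map_one, mul_one, hy, sq]
  have n1i : (1 : M) + i ≠ 0 := by
    intro h0
    apply hpi
    rw [h0]
    exact ⟨0, by ring⟩
  have hN1 : nm C (xE Z (j + 1)) ≠ 0 := nm_ne C hx0
  have hN2 : ε (nm C (xE Z (j + 1))) ≠ 0 := (map_ne_zero ε).2 hN1
  have hcce : ∀ m : ℕ, m ≤ j + 3 → ee C ε i Z m ≠ 0 := by
    intro m hm
    have h1 : 1 - i * Z m ≠ 0 := by
      rcases m with _ | m
      · exact (one_sub_ne L (m := 0) (by omega)).2.2.1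
      · exact (one_sub_ne L (m := m) (by omega)).2.2.2.2.2.2.1
    exact mul_ne_zero (nm_ne C h1) ((map_ne_zero ε).2 (nm_ne C h1))
  -- the contradiction
  have hcon : ∀ t : M, t ≠ 0 → (σ ^ 2 ^ j) t = t →
      ¬ IsSquare (ee C ε i Z j * ee C ε i Z (j + 2) * t) := by
    rintro t ht0 ht ⟨y, hy⟩
    have hγ : (σ ^ 2 ^ j) (ee C ε i Z j) = ee C ε i Z j := by
      have h1 : (σ ^ 2 ^ j) (cc C i Z j) = cc C i Z j := by
        rw [cc, map_nm L.comm, map_sub, map_one, map_mul, (sig_pow_fix L hj).1,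
          (sigZ L (m := j) (by omega)).2.1 j le_rfl]
      have h2 : (σ ^ 2 ^ j) (ε (cc C i Z j)) = ε (cc C i Z j) := by
        rw [← AlgEquiv.mul_apply, L.comm, AlgEquiv.mul_apply, h1]
      rw [ee, map_mul, h1, h2]
    have hdown := ee_down L (m := j) (by omega) ?_
    · exact ee_not L hκ h0 (m := j + 1) (by omega) (by omega) hdown
    · have hy2 := congrArg (fun x => (σ ^ 2 ^ j) x) hy

      rw [map_mul, map_mul, hγ, ht, map_mul] at hy2
      have hj0 := hcce j (by omega)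
      refine ⟨y * (σ ^ 2 ^ j) y / (ee C ε i Z j * t), ?_⟩
      have h5 : ee C ε i Z j * t ≠ 0 := mul_ne_zero hj0 ht0
      rw [div_mul_div_comm, eq_div_iff (mul_ne_zero h5 h5)]
      linear_combination (ee C ε i Z j * (σ ^ 2 ^ j) (ee C ε i Z (j + 2)) * t) * hy +
        y * y * hy2
  have hmain : ∀ P : (E⁄M).Point, IsSquare (dl 0 (-1 + i) (-1 - i) R *
      dl 0 (-1 + i) (-1 - i) (mp E ε R) * dl 0 (-1 + i) (-1 - i) P) → Nt P := by
    intro P hP
    by_contra hnt
    have hPne := dl_ne hT P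
    have hRne := dl_ne hT R
    have hEne := dl_ne hT (mp E ε R)
    have hsq : IsSquare ((ee C ε i Z j * ee C ε i Z (j + 2)) * dl 0 (-1 + i) (-1 - i) P) := by
      have a1 : IsSquare ((dl 0 (-1 + i) (-1 - i) P) *
          (dl 0 (-1 + i) (-1 - i) R * dl 0 (-1 + i) (-1 - i) (mp E ε R))) := by
        rwa [mul_comm]
      have a2 : IsSquare ((dl 0 (-1 + i) (-1 - i) R *
          dl 0 (-1 + i) (-1 - i) (mp E ε R)) *
          (nm C (xE Z (j + 1)) * ε (nm C (xE Z (j + 1))))) := by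
        have := hdR.mul hdE
        rwa [mul_mul_mul_comm] at this
      have a3 := clsE L (j := j) le_rfl
      have a4 := sq_trans2 (mul_ne_zero hRne hEne) a1 a2
      have a5 := sq_trans2 (mul_ne_zero hN1 hN2) a4 a3
      rwa [mul_comm] at a5
    have hc1 : ¬ (IsSquare ((0 : M) - (-1 + i)) ∧ IsSquare ((0 : M) - (-1 - i))) := by
      rintro ⟨-, h1⟩
      apply hpi
      have e : (1 + i) = (0 : M) - (-1 - i) := by ring
      rwa [e]
    have hc2 : ¬ (IsSquare ((-1 + i) - (-1 - i)) ∧ IsSquare ((-1 + i) - 0)) := by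
      rintro ⟨-, h1⟩
      apply hpi
      refine sq_cancel2 (y := i) hi0 hsqi ?_
      have e : (1 + i) * i = (-1 + i) - 0 := by linear_combination hi2
      rwa [e]
    have hc3 : ¬ (IsSquare ((-1 - i) - 0) ∧ IsSquare ((-1 - i) - (-1 + i))) := by
      rintro ⟨h1, -⟩
      apply hpi
      refine sq_cancel2 (y := -1) (by norm_num) hsqn ?_
      have e : (1 + i) * (-1) = (-1 - i) - 0 := by ring
      rwa [e]
    have hone : (σ ^ 2 ^ j) (1 : M) = 1 := map_one _
    have hpf : (σ ^ 2 ^ j) (1 + i) = 1 + i := by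
      rw [map_add, map_one, (sig_pow_fix L hj).1]
    rcases dl_torsion hT hc1 hc2 hc3 hnt with h1 | h1 | h1 | h1
    · apply hcon 1 one_ne_zero hone
      rw [mul_one]
      exact sq_cancel2 hPne h1 hsq
    · apply hcon 1 one_ne_zero hone
      rw [mul_one]
      have a1 := sq_trans2 hPne hsq h1
      refine sq_cancel2 (y := 2) h20 hsq2 ?_
      have e : ee C ε i Z j * ee C ε i Z (j + 2) * 2 = ee C ε i Z j * ee C ε i Z (j + 2) *
          ((0 - (-1 + i)) * (0 - (-1 - i))) := by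
        linear_combination (ee C ε i Z j * ee C ε i Z (j + 2)) * hi2
      rwa [e]
    · apply hcon (1 + i) n1i hpf
      have a1 := sq_trans2 hPne hsq h1
      refine sq_cancel2 (y := i) hi0 hsqi ?_
      have e : ee C ε i Z j * ee C ε i Z (j + 2) * (1 + i) * i =
          ee C ε i Z j * ee C ε i Z (j + 2) * ((-1 + i) - 0) := by
        linear_combination (ee C ε i Z j * ee C ε i Z (j + 2)) * hi2
      rwa [e]
    · apply hcon (1 + i) n1i hpf
      have a1 := sq_trans2 hPne hsq h1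
      refine sq_cancel2 (y := -1) (by norm_num) hsqn ?_
      have e : ee C ε i Z j * ee C ε i Z (j + 2) * (1 + i) * (-1) =
          ee C ε i Z j * ee C ε i Z (j + 2) * ((-1 - i) - 0) := by ring
      rwa [e]
  refine stepPts_of_eps L E hfix hτ ?_ ?_
  · exact hmain _ (dl_add hT R (mp E ε R))
  · apply hmain
    have := dl_add hT R (-mp E ε R)
    rw [dl_neg hT, ← sub_eq_add_neg] at this
    exact this

end Pool.Agent.Work.MP_787500_nt.GO
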