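import Mathlib
import Pool.Agent.Work.MP_787500_nt.GO.Basic
import Pool.Agent.Work.MP_787500_nt.GO.ZzA
import Pool.Agent.Work.MP_787500_nt.GO.KId
import Pool.Agent.Work.MP_787500_nt.GO.EeA

/-!
# Module DcB: the classes for the curve `y ^ 2 = x ^ 3 - 4 x ^ 2 + 8 x`  [size M]

`y = Z k`, `z = Z (k+1)`, `u = U (k+1)`, `x = xD = 2 u^2/z`. `kid3` (`Chn.c1`, `Chn.c3`): `(x - (2+2i)) z (1+y^2) = 2 (1 - i y) B^2`; with `i` replaced by `-i`: `(x - (2-2i)) z (1+y^2) = 2 (1 + i y) B'^2`. So modulo squares (2 is a square)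
`nm (x - (2+2i)) ~ nm z nm (1+y^2) nm (1 - i y)`, `ε (nm (x - (2-2i))) ~ ε (nm z) ε (nm (1+y^2)) ε (nm (1 + i y))`; `nm_zz`, `nm_ww`.
`cls0` (`k = 0`): `ε (1 + i Z 0) = 1 + i Z 0` (`epsZ0`, `ε i = -i`), `(1 - i Z 0)(1 + i Z 0) = 1 + Z 0 ^2 = 2 W^2/(1 + W^2)` (as in `GO/ChB.lean`).
`cls1` (`k = 1`): `ε (1 + i Z 1) = 1 + Z 1`, `kid2` with `y = Z 0`, `z = Z 1`: `nm ((1 - i Z 1)(1 + Z 1)) nm (1 + i Z 0)` is a square, `nm (1 + i Z 0) cc 0 = nm (1 + Z 0 ^2) ~ ν`, `cc 0 = -κ^2` is a square (`-1` is a square).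
-/

set_option autoImplicit false

namespace Pool.Agent.Work.MP_787500_nt.GO

open WithZero IsDedekindDomain NumberField WeierstrassCurve WeierstrassCurve.Affine
open Pool.Agent.Work.MP_787500_nt.HC

universe u

variable {K M A : Type*} [Field K] [CharZero K] [Field M] [CharZero M] [Algebra K M]
variable [CommGroup A] {p : A} {h : ℕ} {α : K} {W W' : A → M} {i : M} {a b u : ℕ → M}
variable {n : ℕ} {C : Finset (M ≃ₐ[K] M)} {σ ε : M ≃ₐ[K] M}

/-- the two sequences are a chain -/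
private theorem dcb_chn (L : Lay K p h α W W' i a b u n C σ ε) :
    Chn (ZL W W' i a b) (UL p W i u) n := by
  have h1 := chn_agm L.data L.seq
  rw [mul_one] at h1
  exact h1

/-- division of squares -/
private theorem dcb_sq {F : Type*} [Field F] {x y : F} (hy : IsSquare y) (h0 : y ≠ 0)
    (h : IsSquare (x * y)) : IsSquare x := by
  have h1 := h.div hy
  rwa [mul_div_cancel_right₀ _ h0] at h1

theorem clsD (L : Lay K p h α W W' i a b u n C σ ε) {k : ℕ} (hk : k + 2 ≤ n) :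
    IsSquare (nm C (xD (ZL W W' i a b) (UL p W i u) k - (2 + 2 * i)) *
      ε (nm C (xD (ZL W W' i a b) (UL p W i u) k - (2 - 2 * i))) *
      (cc C i (ZL W W' i a b) k * ε (nm C (1 + i * ZL W W' i a b k)))) := by
  have H := dcb_chn L
  have hi : i ^ 2 = -1 := L.seq.i2
  have hi' : (-i) ^ 2 = -1 := by rw [neg_sq, hi]
  have hzz := nm_zz L (j := k + 1) (by omega)
  have hww := nm_ww L (j := k) (by omega)
  have hz0 : ZL W W' i a b (k + 1) ≠ 0 := H.zne _ (by omega)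
  have hP0 : 1 + ZL W W' i a b k ^ 2 ≠ 0 := H.ne1 (by omega)
  have hc1 := H.c1 k (by omega)
  have hc3 := H.c3 k (by omega)
  unfold xD cc
  generalize ZL W W' i a b k = y at *
  generalize ZL W W' i a b (k + 1) = z at *
  generalize UL p W i u (k + 1) = v at *
  have e1 := kid3 hi hc1 hc3
  have e2 := kid3 hi' hc1 hc3
  have f1 : (2 * v ^ 2 / z - (2 + 2 * i)) * (z * (1 + y ^ 2)) =
      2 * (1 - i * y) * (1 - (1 + i) * (1 + i * y) * z / 2) ^ 2 := by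
    rw [← e1]
    field_simp
  have f2 : (2 * v ^ 2 / z - (2 - 2 * i)) * (z * (1 + y ^ 2)) =
      2 * (1 + i * y) * (1 - (1 + -i) * (1 + -i * y) * z / 2) ^ 2 := by
    have e3 : (1 - -i * y) = 1 + i * y := by ring
    rw [e3] at e2
    rw [← e2]
    field_simp
    ring
  have g1 := congrArg (nm C) f1
  have g2 := congrArg (fun t => ε (nm C t)) f2
  simp only [nm_mul, nm_pow, map_mul, map_pow] at g1 g2
  have hD : IsSquare ((nm C z * ε (nm C z)) * (nm C (1 + y ^ 2) * ε (nm C (1 + y ^ 2)))) :=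
    hzz.mul hww
  have hε : ∀ t : M, t ≠ 0 → nm C t * ε (nm C t) ≠ 0 := fun t ht =>
    mul_ne_zero (nm_ne C ht) ((map_ne_zero ε).2 (nm_ne C ht))
  have hD0 : (nm C z * ε (nm C z)) * (nm C (1 + y ^ 2) * ε (nm C (1 + y ^ 2))) ≠ 0 :=
    mul_ne_zero (hε z hz0) (hε _ hP0)
  refine dcb_sq hD hD0 ?_
  obtain ⟨t, ht⟩ := isSquare_nm C (sq_two L)
  rw [ht] at g1 g2
  rw [map_mul] at g2
  refine ⟨t * ε t * (nm C (1 - i * y) * ε (nm C (1 + i * y))) *
    (nm C (1 - (1 + i) * (1 + i * y) * z / 2) *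
      ε (nm C (1 - (1 + -i) * (1 + -i * y) * z / 2))), ?_⟩
  linear_combination (ε (nm C (2 * v ^ 2 / z - (2 - 2 * i))) * (ε (nm C z) *
    ε (nm C (1 + y ^ 2))) * (nm C (1 - i * y) * ε (nm C (1 + i * y)))) * g1 +
    (t * t * nm C (1 - i * y) * nm C (1 - (1 + i) * (1 + i * y) * z / 2) ^ 2 *
      (nm C (1 - i * y) * ε (nm C (1 + i * y)))) * g2

private theorem dcb_key (L : Lay K p h α W W' i a b u n C σ ε) :
    (1 - i * ZL W W' i a b 0) * (1 + i * ZL W W' i a b 0) * (1 + W 1 ^ 2) = 2 * W 1 ^ 2 := by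
  have hi : i ^ 2 = -1 := L.seq.i2
  have h4 := L.seq.four
  have h0 : 1 + W 1 ^ 2 ≠ 0 := by
    intro h1
    have h2 := L.data.rec1 1
    rw [h1, mul_zero] at h2
    exact mul_ne_zero two_ne_zero L.seq.w0 h2.symm
  have h1 : ZL W W' i a b 0 = -i * W' 1 ^ 2 / (1 + W 1 ^ 2) := rfl
  have h2 : ZL W W' i a b 0 * (1 + W 1 ^ 2) = -i * W' 1 ^ 2 := by
    rw [h1, div_mul_cancel₀ _ h0]
  generalize ZL W W' i a b 0 = y at *
  apply mul_right_cancel₀ h0
  linear_combination (-i ^ 2 * (y * (1 + W 1 ^ 2) + (-i * W' 1 ^ 2))) * h2 -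
    h4 + (-(i ^ 2 * W' 1 ^ 4) + W' 1 ^ 4) * hi

theorem cls0 (L : Lay K p h α W W' i a b u n C σ ε) :
    IsSquare (cc C i (ZL W W' i a b) 0 * ε (nm C (1 + i * ZL W W' i a b 0)) *
      nm C (1 + W 1 ^ 2)) := by
  have h1 : ε (nm C (1 + i * ZL W W' i a b 0)) = nm C (1 + i * ZL W W' i a b 0) := by
    rw [map_nm L.comm, map_add, map_one, map_mul, L.epsi, epsZ0 L, neg_mul_neg]
  rw [h1]
  unfold cc
  rw [← nm_mul, ← nm_mul, dcb_key L]
  refine isSquare_nm C ((sq_two L).mul ?_)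
  exact ⟨W 1, sq _⟩

theorem cls1 (L : Lay K p h α W W' i a b u n C σ ε) {κ : K} (hκ : κ ≠ 0)
    (h0 : cc C i (ZL W W' i a b) 0 = -algebraMap K M κ ^ 2) :
    IsSquare (cc C i (ZL W W' i a b) 1 * ε (nm C (1 + i * ZL W W' i a b 1)) *
      nm C (1 + W 1 ^ 2)) := by
  have hi : i ^ 2 = -1 := L.seq.i2
  have h1 : ε (nm C (1 + i * ZL W W' i a b 1)) = nm C (1 + ZL W W' i a b 1) := by
    rw [map_nm L.comm, map_add, map_one, map_mul, L.epsi, epsZ1 L]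
    congr 2
    linear_combination -(ZL W W' i a b 1) * hi
  have hc1 := (dcb_chn L).c1 0 L.pos
  rw [zero_add] at hc1
  have e1 := kid2 hi hc1
  have g1 := congrArg (nm C) e1
  have g2 := congrArg (nm C) (dcb_key L)
  have hne : nm C (1 + i * ZL W W' i a b 0) ≠ 0 :=
    nm_ne C (one_sub_ne L (m := 0) L.pos).2.2.2.1
  have hcc0 : cc C i (ZL W W' i a b) 0 ≠ 0 := by
    rw [h0]
    exact neg_ne_zero.2 (pow_ne_zero 2 ((map_ne_zero _).2 hκ))
  have hccs : IsSquare (cc C i (ZL W W' i a b) 0) := by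
    rw [h0, neg_eq_neg_one_mul]
    exact (sq_neg L).mul ⟨algebraMap K M κ, sq _⟩
  have hD : IsSquare (nm C (1 + i * ZL W W' i a b 0) ^ 2 * cc C i (ZL W W' i a b) 0) :=
    IsSquare.mul ⟨nm C (1 + i * ZL W W' i a b 0), sq _⟩ hccs
  refine dcb_sq hD (mul_ne_zero (pow_ne_zero 2 hne) hcc0) ?_
  obtain ⟨t, ht⟩ : IsSquare (nm C (2 * W 1 ^ 2)) :=
    isSquare_nm C ((sq_two L).mul ⟨W 1, sq _⟩)
  rw [ht] at g2
  rw [h1]
  unfold cc at *
  simp only [nm_mul, nm_pow] at g1 g2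
  refine ⟨t * nm C (1 - (i - 1) * (1 + i * ZL W W' i a b 0) * ZL W W' i a b 1 / 2), ?_⟩
  linear_combination (nm C (1 - i * ZL W W' i a b 0) * nm C (1 + i * ZL W W' i a b 0) *
    nm C (1 + W 1 ^ 2)) * g1 +
    nm C (1 - (i - 1) * (1 + i * ZL W W' i a b 0) * ZL W W' i a b 1 / 2) ^ 2 * g2

end Pool.Agent.Work.MP_787500_nt.GO
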