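import Mathlib
import Pool.Agent.Work.MP_787500_nt.GO.Basic
import Pool.Agent.Work.MP_787500_nt.GO.DcB
import Pool.Agent.Work.MP_787500_nt.GO.DsB
import Pool.Agent.Work.MP_787500_nt.GO.NuB
import Pool.Agent.Work.MP_787500_nt.GO.PtD
import Pool.Agent.Work.MP_787500_nt.GO.StA
import Pool.Agent.Work.MP_787500_nt.GO.TrG

/-!
# Module DpB: the steps `1` and `2` for the curve `y ^ 2 = x ^ 3 - 4 x ^ 2 + 8 x`  [size M-L]

`k = 0` or `k = 1`, `n = k + 2`. `E = cv (-4) 8`, over `M`: `TwoTors (0, 2+2i, 2-2i)` (`cv_twoTors'`), rotated `hT' : TwoTors (2+2i) (2-2i) 0`. `Q = (x, y) = (xD Z U k, yD Z U 1 k)` (`eqD`), `R = tp E C Q`, fixed by `C`, negated by `σ^(2^(k+1))` (`sigZ`: `Z (k+2)` changes sign),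
use `stepPts_of_eps`. Let `P = R ± ε R`; suppose `¬ Nt P`. `dl P ~ dl R dl (ε R)` (`dl_add`, `dl_neg`), `dl R ~ ∏ dl (g Q) = nm (x - (2+2i))` (`dl_sum`; `g i = i` by `memC_fix`; `g x ≠ 2 + 2i` since `V (g x) = 1` (`galXD`, `galXA`) and `V (2 + 2i) < 1`),
`dl (ε R) ~ ∏ (ε g x - (2+2i)) = ε (nm (x - (2-2i)))` (`ε i = -i`). So (`clsD`, `cls0` resp. `cls1`) `dl P ~ ν = nm (1 + W 1 ^2)`. `dl_torsion` with `(e1, e2, e3) = (2+2i, 2-2i, 0)`: the hypotheses: `e1 - e3 = 2 (1+i)`, `e2 - e3 = 2 (1-i) = -i 2 (1+i)`,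
`e3 - e1 = -2 (1+i)` are not squares (`not_sq` with `d = 1`; `2, -1, i` are squares); `(e1 - e2)(e1 - e3) = 8 i (1+i)`, `e2 - e1 = -4i`, `e3 - e1 = -2 (1 + i)`. So `ν` or `(1+i) ν` is a square: `nu_not`, `nu_not'`.
-/

set_option autoImplicit false

namespace Pool.Agent.Work.MP_787500_nt.GO

open WithZero IsDedekindDomain NumberField WeierstrassCurve WeierstrassCurve.Affine
open Pool.Agent.Work.MP_787500_nt.HC

universe u

variable {K M A : Type*} [Field K] [CharZero K] [Field M] [CharZero M] [Algebra K M]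
variable [FiniteDimensional K M] [CommGroup A] [Finite A]
variable {p : A} {h : ℕ} {α : K} {W W' : A → M} {i : M} {a b u : ℕ → M}
variable {n : ℕ} {C : Finset (M ≃ₐ[K] M)} {σ ε : M ≃ₐ[K] M} {V : Valuation M ℤᵐ⁰}

private theorem sq_trans' {x y z : M} (hy : y ≠ 0) (h1 : IsSquare (x * y))
    (h2 : IsSquare (y * z)) : IsSquare (x * z) := by
  obtain ⟨r, hr⟩ := h1
  obtain ⟨s, hs⟩ := h2
  refine ⟨r * s / y, ?_⟩
  field_simp
  linear_combination (y * z) * hr + (r * r) * hs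

private theorem sq_cancel {x y : M} (hy : y ≠ 0) (h1 : IsSquare y)
    (h2 : IsSquare (x * y)) : IsSquare x := by
  have := sq_trans' (z := 1) hy h2 (by rwa [mul_one])
  rwa [mul_one] at this

private theorem val_one (L : Lay K p h α W W' i a b u n C σ ε) (hV : Dya K V h α) :
    V (2 + 2 * i) < 1 := by
  have hi2 : i ^ 2 = -1 := L.seq.i2
  have hVi : V i = 1 := by
    have h1 : V i ^ 2 = 1 := by
      rw [← map_pow, hi2, Valuation.map_neg, map_one]
    exact (pow_eq_one_iff.1 h1).resolve_right (by norm_num)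
  have h3 : (2 : M) + 2 * i = 2 * (1 + i) := by ring
  rw [h3, map_mul]
  have h4 : V (1 + i) ≤ 1 := by
    refine (V.map_add 1 i).trans ?_
    rw [map_one, hVi, max_self]
  calc V 2 * V (1 + i) ≤ V 2 * 1 := by gcongr
    _ = V 2 := mul_one _
    _ < 1 := hV.two

private theorem x_ne (L : Lay K p h α W W' i a b u n C σ ε) (hV : Dya K V h α) {k : ℕ}
    (hk : k + 2 ≤ n) (g : M ≃ₐ[K] M) :
    g (xD (ZL W W' i a b) (UL p W i u) k) ≠ 2 + 2 * i := by
  intro hx
  have h1 := galXD L hV hk g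
  have h2 := (galXA L hV hk g).1
  have h3 := val_one L hV
  rw [← hx] at h3
  have h4 : V (g (xD (ZL W W' i a b) (UL p W i u) k) * g (ZL W W' i a b (k + 2) / 2) ^ 2) < 1 := by
    rw [map_mul, map_pow, h2, one_pow, mul_one]
    exact h3
  have h5 : V (1 : M) < 1 := by
    have h6 : (1 : M) = (g (xD (ZL W W' i a b) (UL p W i u) k) *
        g (ZL W W' i a b (k + 2) / 2) ^ 2) - (g (xD (ZL W W' i a b) (UL p W i u) k) *
        g (ZL W W' i a b (k + 2) / 2) ^ 2 - 1) := by ring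
    rw [h6]
    exact (V.map_sub _ _).trans_lt (max_lt h4 h1)
  rw [map_one] at h5
  exact lt_irrefl _ h5

open scoped Classical in
private theorem core {k : ℕ} (L : Lay K p h α W W' i a b u (k + 2) C σ ε) (hV : Dya K V h α)
    (hcls : IsSquare (cc C i (ZL W W' i a b) k * ε (nm C (1 + i * ZL W W' i a b k)) *
      nm C (1 + W 1 ^ 2))) :
    StepPts (cv (-4 : K) 8) C σ ε (k + 1) := by
  have hi2 : i ^ 2 = -1 := L.seq.i2
  have hi0 : i ≠ 0 := by
    rintro rfl
    norm_num at hi2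
  have h20 : (2 : M) ≠ 0 := two_ne_zero
  set E := cv (-4 : K) 8 with hE
  set Z := ZL W W' i a b with hZ
  set U := UL p W i u with hU
  have hT : TwoTors (E⁄M) 0 (2 + 2 * i) (2 - 2 * i) := by
    refine cv_twoTors' ?_ ?_ (by norm_num) ?_
    · rw [map_neg, map_ofNat]
      ring
    · rw [map_ofNat]
      linear_combination -4 * hi2
    · intro h0
      apply hi0
      have : 4 * i = 0 := by linear_combination h0
      rcases mul_eq_zero.1 this with h1 | h1
      · norm_num at h1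
      · exact h1
  have hT' := hT.rot
  have hch := chn_lay L
  have heq := eqD hch (k := k) le_rfl (t := 1) (by norm_num)
  have hn : (E⁄M).Nonsingular (xD Z U k) (yD Z U 1 k) := by
    apply hT.nonsingular_of_eq
    rw [heq]
    linear_combination (4 * xD Z U k) * hi2
  set Q : (E⁄M).Point := Point.some _ _ hn with hQ
  set R := tp E C Q with hR
  have hfix : ∀ g ∈ C, mp E g R = R := fun g hg => tp_fix E C L.comm L.memC hg Q
  obtain ⟨s1, s2, s3⟩ := sigZ L (m := k + 1) (by omega)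
  have hτ : mp E (σ ^ 2 ^ (k + 1)) R = -R := by
    rw [hR, mp_tp L.comm, ← tp_neg]
    congr 1
    obtain ⟨hn', e⟩ := mp_some E (σ ^ 2 ^ (k + 1)) hn
    rw [hQ, e, Point.neg_some]
    have ex : (σ ^ 2 ^ (k + 1)) (xD Z U k) = xD Z U k := by
      simp only [xD, map_div₀, map_mul, map_pow, map_ofNat]
      rw [s2 (k + 1) le_rfl, s3 (k + 1) (by omega)]
    have ey : (σ ^ 2 ^ (k + 1)) (yD Z U 1 k) = (E⁄M).negY (xD Z U k) (yD Z U 1 k) := by
      rw [hT.negY_eq]
      simp only [yD, map_div₀, map_mul, map_sub, map_add, map_one, map_ofNat]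
      rw [s2 (k + 1) le_rfl, s3 (k + 1) (by omega), s2 k (by omega), s1]
      ring
    simp only [ex, ey]
  have hdR : IsSquare (dl (2 + 2 * i) (2 - 2 * i) 0 R * nm C (xD Z U k - (2 + 2 * i))) := by
    have h1 := dl_sum hT' C (fun g => mp E g Q)
    have h2 : ∏ g ∈ C, dl (2 + 2 * i) (2 - 2 * i) 0 (mp E g Q) =
        nm C (xD Z U k - (2 + 2 * i)) := by
      rw [nm]
      refine Finset.prod_congr rfl fun g hg => ?_
      obtain ⟨hn', e⟩ := mp_some E g hn
      rw [hQ, e]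
      simp only [dl]
      rw [if_neg (x_ne L hV le_rfl g)]
      simp only [map_sub, map_add, map_mul, map_ofNat, (memC_fix L hg).1]
    rw [h2] at h1
    exact h1
  have hdE : IsSquare (dl (2 + 2 * i) (2 - 2 * i) 0 (mp E ε R) *
      ε (nm C (xD Z U k - (2 - 2 * i)))) := by
    have h1 := dl_sum hT' C (fun g => mp E g (mp E ε Q))
    have h2 : ∏ g ∈ C, dl (2 + 2 * i) (2 - 2 * i) 0 (mp E g (mp E ε Q)) =
        ε (nm C (xD Z U k - (2 - 2 * i))) := by
      rw [nm, map_prod]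
      refine Finset.prod_congr rfl fun g hg => ?_
      rw [← mp_mul, L.comm g ε]
      obtain ⟨hn', e⟩ := mp_some E (ε * g) hn
      rw [hQ, e]
      simp only [dl]
      rw [if_neg (x_ne L hV le_rfl (ε * g))]
      simp only [map_sub, map_mul, map_ofNat, (memC_fix L hg).1, L.epsi, AlgEquiv.mul_apply]
      ring
    rw [h2] at h1
    have h3 : mp E ε R = ∑ g ∈ C, mp E g (mp E ε Q) := by
      rw [hR, mp_tp L.comm, tp]
    rw [h3]
    exact h1
  have hsq2 : IsSquare (2 : M) := sq_two L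
  have hsqi : IsSquare i := sq_i L
  have hsqn : IsSquare (-1 : M) := sq_neg L
  have hpi : ¬ IsSquare (1 + i) := by
    rintro ⟨y, hy⟩
    refine not_sq L (d := 1) one_ne_zero y ?_
    rw [map_one, mul_one, hy, sq]
  have n1i : (1 : M) + i ≠ 0 := by
    intro h0
    apply hpi
    rw [h0]
    exact ⟨0, by ring⟩
  have hN1 : nm C (xD Z U k - (2 + 2 * i)) ≠ 0 := by
    refine nm_ne C ?_
    have := x_ne L hV le_rfl (1 : M ≃ₐ[K] M)
    rw [AlgEquiv.one_apply] at this
    exact sub_ne_zero.2 this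
  have hN2 : ε (nm C (xD Z U k - (2 - 2 * i))) ≠ 0 := by
    rw [map_nm L.comm]
    refine nm_ne C ?_
    have := x_ne L hV le_rfl ε
    have h5 : ε (xD Z U k - (2 - 2 * i)) = ε (xD Z U k) - (2 + 2 * i) := by
      simp only [map_sub, map_mul, map_ofNat, L.epsi]
      ring
    rw [h5]
    exact sub_ne_zero.2 this
  have hone := one_sub_ne L (m := k) (by omega)
  have hX1 : cc C i Z k ≠ 0 := nm_ne C hone.2.2.1
  have hX2 : ε (nm C (1 + i * Z k)) ≠ 0 := (map_ne_zero ε).2 (nm_ne C hone.2.2.2.1)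
  have hmain : ∀ P : (E⁄M).Point, IsSquare (dl (2 + 2 * i) (2 - 2 * i) 0 R *
      dl (2 + 2 * i) (2 - 2 * i) 0 (mp E ε R) * dl (2 + 2 * i) (2 - 2 * i) 0 P) → Nt P := by
    intro P hP
    by_contra hnt
    have hPne := dl_ne hT' P
    have hRne := dl_ne hT' R
    have hEne := dl_ne hT' (mp E ε R)
    have hsq : IsSquare (dl (2 + 2 * i) (2 - 2 * i) 0 P * nm C (1 + W 1 ^ 2)) := by
      have a1 : IsSquare ((dl (2 + 2 * i) (2 - 2 * i) 0 P) *
          (dl (2 + 2 * i) (2 - 2 * i) 0 R * dl (2 + 2 * i) (2 - 2 * i) 0 (mp E ε R))) := by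
        rwa [mul_comm]
      have a2 : IsSquare ((dl (2 + 2 * i) (2 - 2 * i) 0 R *
          dl (2 + 2 * i) (2 - 2 * i) 0 (mp E ε R)) *
          (nm C (xD Z U k - (2 + 2 * i)) * ε (nm C (xD Z U k - (2 - 2 * i))))) := by
        have := hdR.mul hdE
        rwa [mul_mul_mul_comm] at this
      have a3 := clsD L (k := k) le_rfl
      have a4 := sq_trans' (mul_ne_zero hRne hEne) a1 a2
      have a5 := sq_trans' (mul_ne_zero hN1 hN2) a4 a3
      exact sq_trans' (mul_ne_zero hX1 hX2) a5 hcls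
    have hsq' : IsSquare (nm C (1 + W 1 ^ 2) * dl (2 + 2 * i) (2 - 2 * i) 0 P) := by
      rwa [mul_comm] at hsq
    have hc1 : ¬ (IsSquare ((2 + 2 * i) - (2 - 2 * i)) ∧ IsSquare ((2 + 2 * i) - 0)) := by
      rintro ⟨-, h1⟩
      apply hpi
      refine sq_cancel h20 hsq2 ?_
      have e : (1 + i) * 2 = (2 + 2 * i) - 0 := by ring
      rwa [e]
    have hc2 : ¬ (IsSquare ((2 - 2 * i) - 0) ∧ IsSquare ((2 - 2 * i) - (2 + 2 * i))) := by
      rintro ⟨h1, -⟩
      apply hpi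
      refine sq_cancel (y := 2 * (-1 * i)) (mul_ne_zero h20 (mul_ne_zero (by norm_num) hi0))
        (hsq2.mul (hsqn.mul hsqi)) ?_
      have e : (1 + i) * (2 * (-1 * i)) = (2 - 2 * i) - 0 := by linear_combination -2 * hi2
      rwa [e]
    have hc3 : ¬ (IsSquare (0 - (2 + 2 * i)) ∧ IsSquare (0 - (2 - 2 * i))) := by
      rintro ⟨h1, -⟩
      apply hpi
      refine sq_cancel (y := 2 * -1) (mul_ne_zero h20 (by norm_num)) (hsq2.mul hsqn) ?_
      have e : (1 + i) * (2 * -1) = 0 - (2 + 2 * i) := by ring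
      rwa [e]
    rcases dl_torsion hT' hc1 hc2 hc3 hnt with h1 | h1 | h1 | h1
    · exact nu_not L hV (sq_cancel hPne h1 hsq')
    · have a1 := sq_trans' hPne hsq' h1
      have a2 : IsSquare (((1 + i) * nm C (1 + W 1 ^ 2)) * (2 * 2 * 2 * i)) := by
        have e : ((1 + i) * nm C (1 + W 1 ^ 2)) * (2 * 2 * 2 * i) = nm C (1 + W 1 ^ 2) *
            (((2 + 2 * i) - (2 - 2 * i)) * ((2 + 2 * i) - 0)) := by ring
        rwa [e]
      obtain ⟨y, hy⟩ := sq_cancel (mul_ne_zero (by norm_num) hi0)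
        (((hsq2.mul hsq2).mul hsq2).mul hsqi) a2
      exact nu_not' L hV y (by rw [hy, sq])
    · have a1 := sq_trans' hPne hsq' h1
      apply nu_not L hV
      refine sq_cancel (y := -1 * (2 * 2) * i) (mul_ne_zero (by norm_num) hi0)
        ((hsqn.mul (hsq2.mul hsq2)).mul hsqi) ?_
      have e : nm C (1 + W 1 ^ 2) * (-1 * (2 * 2) * i) =
        nm C (1 + W 1 ^ 2) * ((2 - 2 * i) - (2 + 2 * i)) := by ring
      rwa [e]
    · have a1 := sq_trans' hPne hsq' h1
      have a2 : IsSquare (((1 + i) * nm C (1 + W 1 ^ 2)) * (-1 * 2)) := by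
        have e : ((1 + i) * nm C (1 + W 1 ^ 2)) * (-1 * 2) = nm C (1 + W 1 ^ 2) *
            (0 - (2 + 2 * i)) := by ring
        rwa [e]
      obtain ⟨y, hy⟩ := sq_cancel (by norm_num) (hsqn.mul hsq2) a2
      exact nu_not' L hV y (by rw [hy, sq])
  refine stepPts_of_eps L E hfix hτ ?_ ?_
  · exact hmain _ (dl_add hT' R (mp E ε R))
  · apply hmain
    have := dl_add hT' R (-mp E ε R)
    rw [dl_neg hT', ← sub_eq_add_neg] at this
    exact this

theorem stepD1 (L : Lay K p h α W W' i a b u 2 C σ ε) (hV : Dya K V h α) :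
    StepPts (cv (-4 : K) 8) C σ ε 1 := by
  exact core (k := 0) L hV (cls0 L)

theorem stepD2 (L : Lay K p h α W W' i a b u 3 C σ ε) (hV : Dya K V h α) {κ : K} (hκ : κ ≠ 0)
    (h0 : cc C i (ZL W W' i a b) 0 = -algebraMap K M κ ^ 2) :
    StepPts (cv (-4 : K) 8) C σ ε 2 := by
  exact core (k := 1) L hV (cls1 L hκ h0)

end Pool.Agent.Work.MP_787500_nt.GO
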