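import Mathlib
import Pool.Agent.Work.MP_787500_nt.GO.Basic
import Pool.Agent.Work.MP_787500_nt.RS.Isom

/-!
# Module TwS: twists of the points of a step  [size M]
`φ (x, y) = (w^2 x, w^3 y)` from `(cv a' b')⁄M` to `(cv (d a') (d^2 b'))⁄M` (`RS.exists_isom` with `u = w`, `r = 0`; `TwoTors ((cv (d a') (d^2 b'))⁄M) 0 (w^2 e2) (w^2 e3)`: `cv_baseChange`, `cv_twoTors'` or directly), injective (`x`-coordinates; or compose with the inverse given by `w⁻¹`), so `Nt R → Nt (φ R)` (`Nt.map`).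
`mp E' f (φ P) = φ (mp E f P)` if `f w = w`, and `= -φ (mp E f P)` if `f w = -w` (`f (w^2) = w^2`, `f (w^3) = ± w^3`; `neg (x, y) = (x, -y)`). So if `ε w = w` the points `φ R`, `φ R'` are the new points, and if `ε w = -w` the points `φ R'`, `φ R`.
-/

set_option autoImplicit false

namespace Pool.Agent.Work.MP_787500_nt.GO

open WithZero IsDedekindDomain NumberField WeierstrassCurve WeierstrassCurve.Affine
open Pool.Agent.Work.MP_787500_nt.HC

universe u

variable {K M A : Type*} [Field K] [CharZero K] [Field M] [CharZero M] [Algebra K M]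
variable [FiniteDimensional K M] [CommGroup A] [Finite A]
variable {p : A} {h : ℕ} {α : K} {W W' : A → M} {i : M} {a b u : ℕ → M}
variable {n : ℕ} {C : Finset (M ≃ₐ[K] M)} {σ ε : M ≃ₐ[K] M} {V : Valuation M ℤᵐ⁰}

omit [CharZero K] [FiniteDimensional K M] [Finite A] [CommGroup A] in
theorem stepPts_twist {a' b' d : K} {w e2 e3 : M}
    (hT : TwoTors ((cv a' b')⁄M) 0 e2 e3) (hw : w ≠ 0) (hd : w ^ 2 = algebraMap K M d) {m : ℕ}
    (hC : ∀ g ∈ C, g w = w) (hτ : (σ ^ 2 ^ m) w = w) (hε : ε w = w ∨ ε w = -w)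
    (h : StepPts (cv a' b') C σ ε m) : StepPts (cv (d * a') (d ^ 2 * b')) C σ ε m := by
  classical
  have hT' : TwoTors ((cv (d * a') (d ^ 2 * b'))⁄M) 0 (w ^ 2 * e2) (w ^ 2 * e3) := by
    have hw2 : w ^ 2 ≠ 0 := pow_ne_zero 2 hw
    have t2 := hT.a2
    have t4 := hT.a4
    rw [cv_baseChange] at t2 t4 ⊢
    refine ⟨rfl, rfl, ?_, ?_, ?_, ?_, ?_, ?_⟩
    · change algebraMap K M (d * a') = _
      change algebraMap K M a' = _ at t2
      rw [map_mul, ← hd, t2]
      ring
    · change algebraMap K M (d ^ 2 * b') = _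
      change algebraMap K M b' = _ at t4
      rw [map_mul, map_pow, ← hd, t4]
      ring
    · change (0 : M) = _
      ring
    · intro h0
      exact hT.h12 ((mul_eq_zero.1 h0.symm).resolve_left hw2).symm
    · intro h0
      exact hT.h23 (mul_left_cancel₀ hw2 h0)
    · intro h0
      exact hT.h31 ((mul_eq_zero.1 h0).resolve_left hw2)
  obtain ⟨φ, hφ⟩ := RS.exists_isom hT hT' (u := w) (r := 0) hw (by ring) (by ring) (by ring)
  have hinj : Function.Injective φ := by
    rw [injective_iff_map_eq_zero]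
    intro P hP
    rcases P with _ | ⟨x, y, hn⟩
    · rfl
    · exfalso
      obtain ⟨hn', h1⟩ := hφ x y hn
      rw [h1] at hP
      exact Point.some_ne_zero hn' hP
  have hmap : ∀ (f : M ≃ₐ[K] M), f w = w → ∀ P, mp (cv (d * a') (d ^ 2 * b')) f (φ P) =
      φ (mp (cv a' b') f P) := by
    intro f hf P
    rcases P with _ | ⟨x, y, hn⟩
    · have h0 : φ (Point.zero : ((cv a' b')⁄M).Point) = 0 := map_zero φ
      rw [h0, map_zero]
      have h1 : mp (cv a' b') f (Point.zero : ((cv a' b')⁄M).Point) = 0 := map_zero _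
      rw [h1, map_zero]
    · obtain ⟨hn', h1⟩ := hφ x y hn
      obtain ⟨hn2, h2⟩ := mp_some (cv a' b') f hn
      obtain ⟨hn3, h3⟩ := mp_some (cv (d * a') (d ^ 2 * b')) f hn'
      obtain ⟨hn4, h4⟩ := hφ _ _ hn2
      rw [h1, h2, h3, h4]
      simp only [Point.some.injEq]
      constructor
      · rw [map_add, map_mul, map_pow, hf, map_zero]
      · rw [map_mul, map_pow, hf]
  have hmap' : ∀ (f : M ≃ₐ[K] M), f w = -w → ∀ P, mp (cv (d * a') (d ^ 2 * b')) f (φ P) =
      -φ (mp (cv a' b') f P) := by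
    intro f hf P
    rcases P with _ | ⟨x, y, hn⟩
    · have h0 : φ (Point.zero : ((cv a' b')⁄M).Point) = 0 := map_zero φ
      rw [h0, map_zero]
      have h1 : mp (cv a' b') f (Point.zero : ((cv a' b')⁄M).Point) = 0 := map_zero _
      rw [h1, map_zero, neg_zero]
    · obtain ⟨hn', h1⟩ := hφ x y hn
      obtain ⟨hn2, h2⟩ := mp_some (cv a' b') f hn
      obtain ⟨hn3, h3⟩ := mp_some (cv (d * a') (d ^ 2 * b')) f hn'
      obtain ⟨hn4, h4⟩ := hφ _ _ hn2
      rw [h1, h2, h3, h4, Point.neg_some]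
      simp only [Point.some.injEq]
      constructor
      · rw [map_add, map_mul, map_pow, hf, map_zero]
        ring
      · rw [map_mul, map_pow, hf, hT'.negY_eq]
        ring
  obtain ⟨R, R', n1, n2, hCR, hs1, hs2, he1, he2⟩ := h
  rcases hε with he | he
  · refine ⟨φ R, φ R', n1.map φ hinj, n2.map φ hinj, ?_, ?_, ?_, ?_, ?_⟩
    · intro g hg
      obtain ⟨c1, c2⟩ := hCR g hg
      exact ⟨by rw [hmap g (hC g hg), c1], by rw [hmap g (hC g hg), c2]⟩
    · rw [hmap _ hτ, hs1, map_neg]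
    · rw [hmap _ hτ, hs2, map_neg]
    · rw [hmap _ he, he1]
    · rw [hmap _ he, he2, map_neg]
  · refine ⟨φ R', φ R, n2.map φ hinj, n1.map φ hinj, ?_, ?_, ?_, ?_, ?_⟩
    · intro g hg
      obtain ⟨c1, c2⟩ := hCR g hg
      exact ⟨by rw [hmap g (hC g hg), c2], by rw [hmap g (hC g hg), c1]⟩
    · rw [hmap _ hτ, hs2, map_neg]
    · rw [hmap _ hτ, hs1, map_neg]
    · rw [hmap' _ he, he2, map_neg, neg_neg]
    · rw [hmap' _ he, he1]

end Pool.Agent.Work.MP_787500_nt.GO
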