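import Mathlib
import Pool.Agent.Work.MP_787500_nt.GO.Basic
import Pool.Agent.Work.MP_787500_nt.GO.TwS
import Pool.Agent.Work.MP_787500_nt.GO.DpA
import Pool.Agent.Work.MP_787500_nt.GO.DpB
import Pool.Agent.Work.MP_787500_nt.GO.RtA

/-!
# Module LnL: all steps for the curve `y ^ 2 = x ^ 3 - 4 x ^ 2 + 8 x`  [size S-M]
`m = 1`: `stepD1`, `m = 2`: `stepD2`. `m = j + 2`, `1 ≤ j`: `stepE` gives `StepPts (cv 2 2) C σ ε (j + 2)`; twist with `w = i * r2`, `w ^ 2 = -2`, `d = -2`: `cv (-2 * 2) ((-2)^2 * 2) = cv (-4) 8` (`stepPts_twist`; `C`, `σ^(2^m)` fix `i`, `r2`: `memC_fix`, `sig_pow_fix`; `ε w = -w`: `L.epsi`, `eps_r2`; `TwoTors` with `e2 = -1 + i`, `e3 = -1 - i`, `cv_twoTors'`).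
-/

set_option autoImplicit false

namespace Pool.Agent.Work.MP_787500_nt.GO

open WithZero IsDedekindDomain NumberField WeierstrassCurve WeierstrassCurve.Affine
open Pool.Agent.Work.MP_787500_nt.HC

universe u

variable {K M A : Type*} [Field K] [CharZero K] [Field M] [CharZero M] [Algebra K M]
variable [FiniteDimensional K M] [CommGroup A] [Finite A]
variable {p : A} {h : ℕ} {α : K} {W W' : A → M} {i : M} {a b u : ℕ → M}
variable {n : ℕ} {C : Finset (M ≃ₐ[K] M)} {σ ε : M ≃ₐ[K] M} {V : Valuation M ℤᵐ⁰}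

theorem stepD {m : ℕ} (hm : 1 ≤ m) (L : Lay K p h α W W' i a b u (m + 1) C σ ε)
    (hV : Dya K V h α) {κ : K} (hκ : κ ≠ 0)
    (h0 : cc C i (ZL W W' i a b) 0 = -algebraMap K M κ ^ 2) :
    StepPts (cv (-4 : K) 8) C σ ε m := by
  rcases Nat.exists_eq_add_of_le' hm with ⟨k, rfl⟩
  match k, L with
  | 0, L => exact stepD1 L hV
  | 1, L => exact stepD2 L hV hκ h0
  | j + 2, L =>
    have hE : StepPts (cv (2 : K) 2) C σ ε (j + 1 + 2) := stepE (by omega) L hκ h0
    have hr := r2_sq L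
    have hi := L.seq.i2
    have hr0 : r2 W W' b ≠ 0 := by
      intro h1
      rw [h1] at hr
      norm_num at hr
    have hi0 : i ≠ 0 := by
      intro h1
      rw [h1] at hi
      norm_num at hi
    have hT : TwoTors ((cv (2 : K) 2)⁄M) 0 (-1 + i) (-1 - i) := by
      refine cv_twoTors' ?_ ?_ (by norm_num) ?_
      · rw [map_ofNat]
        ring
      · rw [map_ofNat]
        linear_combination -hi
      · intro h1
        apply hi0
        have h3 : 2 * i = 0 := by linear_combination h1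
        exact (mul_eq_zero.1 h3).resolve_left two_ne_zero
    have hw2 : (i * r2 W W' b) ^ 2 = algebraMap K M (-2) := by
      rw [map_neg, map_ofNat, mul_pow, hi, hr]
      ring
    have h5 := stepPts_twist (d := (-2 : K)) hT (mul_ne_zero hi0 hr0) hw2
      (fun g hg => by rw [map_mul, (memC_fix L hg).1, (memC_fix L hg).2.2])
      (by rw [map_mul, (sig_pow_fix L (by omega)).1, (sig_pow_fix L (by omega)).2])
      (Or.inr (by rw [map_mul, L.epsi, eps_r2 L, neg_mul])) hE
    have e1 : (-2 : K) * 2 = -4 := by norm_num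
    have e2 : (-2 : K) ^ 2 * 2 = 8 := by norm_num
    rw [e1, e2] at h5
    exact h5

end Pool.Agent.Work.MP_787500_nt.GO
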