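import Mathlib
import Pool.Agent.Work.MP_787500_nt.GO.Basic
import Pool.Agent.Work.MP_787500_nt.GO.LDefs
import Pool.Agent.Work.MP_787500_nt.GO.BaA
import Pool.Agent.Work.MP_787500_nt.GO.ApA
import Pool.Agent.Work.MP_787500_nt.GO.LnL
import Pool.Agent.Work.MP_787500_nt.GO.CoB
import Pool.Agent.Work.MP_787500_nt.HC.ArE

/-!
# Module LnM: the points for the three curves
Assembly of the base points and the points of the steps.
-/

set_option autoImplicit false

namespace Pool.Agent.Work.MP_787500_nt.GO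

open WithZero IsDedekindDomain NumberField WeierstrassCurve WeierstrassCurve.Affine
open Pool.Agent.Work.MP_787500_nt.HC

universe u

variable {K : Type u} [Field K] [NumberField K] {q : ℕ} {s : K} {v : HeightOneSpectrum (𝓞 K)}
variable {α : Kˣ} {W W' : ClassGroup (𝓞 K) → AlgebraicClosure K} {i : AlgebraicClosure K}
variable {a b u : ℕ → AlgebraicClosure K}

theorem exists_dyaM (hC : Ctx K q s v α W W') (n : ℕ) :
    ∃ V : Valuation (layM W W' i b n) ℤᵐ⁰, Dya K V (hK K) (α : K) := by
  have hfin : FiniteDimensional K (layM W W' i b n) := layM_finite n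
  have hNF : NumberField (layM W W' i b n) := NumberField.of_module_finite K _
  obtain ⟨Q, -, hV⟩ := exists_dya hC.base hC.two hC.al (layM W W' i b n)
  exact ⟨_, hV⟩

theorem ptsAll_A (hC : Ctx K q s v α W W') :
    PtsAll (cv (0 : K) (-2)) v (α : K) W W' i a b u := by
  refine ⟨fun C σ ε L => ?_, fun m hm C σ ε L => ?_⟩
  · have hfin : FiniteDimensional K (layM W W' i b 1) := layM_finite 1
    obtain ⟨V, hV⟩ := exists_dyaM (i := i) (b := b) hC 1
    exact basePts_A L hV
  · obtain ⟨k, rfl⟩ : ∃ k, m = k + 1 := ⟨m - 1, by omega⟩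
    have hfin : FiniteDimensional K (layM W W' i b (k + 1 + 1)) := layM_finite _
    obtain ⟨V, hV⟩ := exists_dyaM (i := i) (b := b) hC (k + 1 + 1)
    exact stepA L hV

theorem ptsAll_B (hC : Ctx K q s v α W W') :
    PtsAll (cv (4 : K) 2) v (α : K) W W' i a b u := by
  refine ⟨fun C σ ε L => ?_, fun m hm C σ ε L => ?_⟩
  · have hfin : FiniteDimensional K (layM W W' i b 1) := layM_finite 1
    obtain ⟨V, hV⟩ := exists_dyaM (i := i) (b := b) hC 1
    exact basePts_B L hV
  · obtain ⟨k, rfl⟩ : ∃ k, m = k + 1 := ⟨m - 1, by omega⟩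
    have hfin : FiniteDimensional K (layM W W' i b (k + 1 + 1)) := layM_finite _
    obtain ⟨V, hV⟩ := exists_dyaM (i := i) (b := b) hC (k + 1 + 1)
    exact stepB L hV

theorem ptsAll_D (hC : Ctx K q s v α W W') :
    PtsAll (cv (-4 : K) 8) v (α : K) W W' i a b u := by
  refine ⟨fun C σ ε L => ?_, fun m hm C σ ε L => ?_⟩
  · have hfin : FiniteDimensional K (layM W W' i b 1) := layM_finite 1
    obtain ⟨V, hV⟩ := exists_dyaM (i := i) (b := b) hC 1
    exact basePts_D L hV
  · have hfin : FiniteDimensional K (layM W W' i b (m + 1)) := layM_finite _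
    have hNF : NumberField (layM W W' i b (m + 1)) := NumberField.of_module_finite K _
    obtain ⟨V, hV⟩ := exists_dyaM (i := i) (b := b) hC (m + 1)
    obtain ⟨κ, hκ, h0⟩ := co_eq hC.base L α.ne_zero hV
    exact stepD hm L hV hκ h0

end Pool.Agent.Work.MP_787500_nt.GO
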