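import Mathlib
import Pool.Agent.Work.MP_787500_nt.GO.Basic
import Pool.Agent.Work.MP_787500_nt.GO.LDefs
import Pool.Agent.Work.MP_787500_nt.GO.LnM
import Pool.Agent.Work.MP_787500_nt.GO.LnI
import Pool.Agent.Work.MP_787500_nt.GO.LnJ

/-!
# Module LnN: the rank of the three curves over the subfields of the union of the layers
-/

set_option autoImplicit false

namespace Pool.Agent.Work.MP_787500_nt.GO

open WithZero IsDedekindDomain NumberField WeierstrassCurve WeierstrassCurve.Affine
open Pool.Agent.Work.MP_787500_nt.HC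

universe u

variable {K : Type u} [Field K] [NumberField K] {q : ℕ} {s : K} {v : HeightOneSpectrum (𝓞 K)}
variable {α : Kˣ} {W W' : ClassGroup (𝓞 K) → AlgebraicClosure K} {i : AlgebraicClosure K}
variable {a b u : ℕ → AlgebraicClosure K}

theorem rank_A (hC : Ctx K q s v α W W') (hS : ∀ n, Sq4 (W 1) (W' 1) i a b u n)
    {F : IntermediateField K (AlgebraicClosure K)} (hF : F ≤ ⨆ n, layF W W' i b n)
    [FiniteDimensional K F] :
    FGE (cv (0 : K) (-2)) F ∧ rkE (cv (0 : K) (-2)) F = Module.finrank K F :=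
  rank_sub hC hS (fun _ hm => bound_A hC hS hm) (ptsAll_A hC) hF

theorem rank_B (hC : Ctx K q s v α W W') (hS : ∀ n, Sq4 (W 1) (W' 1) i a b u n)
    {F : IntermediateField K (AlgebraicClosure K)} (hF : F ≤ ⨆ n, layF W W' i b n)
    [FiniteDimensional K F] :
    FGE (cv (4 : K) 2) F ∧ rkE (cv (4 : K) 2) F = Module.finrank K F :=
  rank_sub hC hS (fun _ hm => bound_B hC hS hm) (ptsAll_B hC) hF

theorem rank_D (hC : Ctx K q s v α W W') (hS : ∀ n, Sq4 (W 1) (W' 1) i a b u n)
    {F : IntermediateField K (AlgebraicClosure K)} (hF : F ≤ ⨆ n, layF W W' i b n)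
    [FiniteDimensional K F] :
    FGE (cv (-4 : K) 8) F ∧ rkE (cv (-4 : K) 8) F = Module.finrank K F :=
  rank_sub hC hS (fun _ hm => bound_D hC hS hm) (ptsAll_D hC) hF

end Pool.Agent.Work.MP_787500_nt.GO
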