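import Mathlib
import Pool.Agent.Work.MP_787500_nt.GO.LnN
import Pool.Agent.Work.MP_787500_nt.GO.FiF
import Pool.Agent.Work.MP_787500_nt.GO.FiD

/-!
# Module FiG: the final theorem
-/

set_option autoImplicit false

namespace Pool.Agent.Work.MP_787500_nt.GO

open WithZero IsDedekindDomain NumberField WeierstrassCurve WeierstrassCurve.Affine
open Pool.Agent.Work.MP_787500_nt.HC

universe u

theorem all_layers {K : Type u} [Field K] [NumberField K] {q : ℕ} {s : K} (hb : IsBase K q s) :
    AllLayers K q s := by
  refine allLayers hb ?_ ?_ ?_
  · refine allR_of hb fun v α W W' i a b u hC hS F hF hfin => ?_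
    have h := rank_A hC hS hF
    push_cast
    exact h
  · refine allR_of hb fun v α W W' i a b u hC hS F hF hfin => ?_
    have h := rank_B hC hS hF
    push_cast
    exact h
  · refine allR_of hb fun v α W W' i a b u hC hS F hF hfin => ?_
    have h := rank_D hC hS hF
    push_cast
    exact h

end Pool.Agent.Work.MP_787500_nt.GO
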