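import Mathlib
import Pool.Agent.Work.MP_787500_nt.GO.ClDef

/-!
# Definitions for the block Og* of the folder GO (helper7): binary cubic forms. Do not change.
-/

set_option autoImplicit false

namespace Pool.Agent.Work.MP_787500_nt.GO

open WithZero IsDedekindDomain NumberField WeierstrassCurve WeierstrassCurve.Affine

universe u

/-- the binary cubic form -/
def cf (A B C D x y : ℤ) : ℤ := A * x ^ 3 + B * x ^ 2 * y + C * x * y ^ 2 + D * y ^ 3

/-- its discriminant -/
def dc (A B C D : ℤ) : ℤ :=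
  B ^ 2 * C ^ 2 - 4 * A * C ^ 3 - 4 * B ^ 3 * D - 27 * A ^ 2 * D ^ 2 + 18 * A * B * C * D

/-- it has a nontrivial zero -/
def Rep0 (A B C D : ℤ) : Prop := ∃ x y : ℤ, (x ≠ 0 ∨ y ≠ 0) ∧ cf A B C D x y = 0

end Pool.Agent.Work.MP_787500_nt.GO
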