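import Mathlib
import Pool.Agent.Work.MP_787500_nt.GO.OgDef

/-!
# Module OgA: the minimum of a positive definite binary form (Hermite)

Let `f(x,y) = a x^2 + b x y + c y^2`. `4 a f = (2 a x + b y)^2 + (4ac - b^2) y^2` and `4 c f = (2 c y + b x)^2 + (4ac - b^2) x^2`, so for every bound only finitely many integer vectors
have `f ≤ M`; hence there is a nonzero integer vector `v = (p, q)` with the smallest value `m = f(p,q) > 0` (for instance the minimum over the finite set of the nonzero vectors with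
`f ≤ f(1,0) = a`). `gcd (p, q) = 1`: otherwise dividing by the gcd `g ≥ 2` gives the value `m / g^2 < m`. Bezout (`Int.gcd_eq_gcd_ab` / `IsCoprime`): integers `r, s` with `p s - q r = 1`. For all integers `n` put
`w_n = (r + n p, s + n q)`: `f(x v + y w_n) = m x^2 + b_n x y + c_n y^2` with `b_n = b_0 + 2 n m` and `4 m c_n - b_n^2 = 4ac - b^2` (the determinant is 1). Choose `n` with `|b_n| ≤ m`
(`round`: `|b_0/(2m) + n| ≤ 1/2`). `c_n = f(w_n) ≥ m`, because `w_n ≠ 0`. So `4ac - b^2 = 4 m c_n - b_n^2 ≥ 4 m^2 - m^2 = 3 m^2`.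
-/

set_option autoImplicit false

namespace Pool.Agent.Work.MP_787500_nt.GO

open WithZero IsDedekindDomain NumberField WeierstrassCurve WeierstrassCurve.Affine

universe u

theorem hermite {a b c : ℝ} (ha : 0 < a) (hd : b ^ 2 < 4 * a * c) :
    ∃ x y : ℤ, (x ≠ 0 ∨ y ≠ 0) ∧ 3 * (a * x ^ 2 + b * x * y + c * y ^ 2) ^ 2 ≤ 4 * a * c - b ^ 2 := by
  have hc : 0 < c := by
    by_contra h
    have h1 : 4 * a * c ≤ 0 := by
      have : a * c ≤ 0 := mul_nonpos_of_nonneg_of_nonpos ha.le (not_lt.1 h)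
      linarith
    have h2 := sq_nonneg b
    linarith
  have hΔ : 0 < 4 * a * c - b ^ 2 := by linarith
  -- the finite set of small vectors
  have hfin : {v : ℤ × ℤ | a * (v.1 : ℝ) ^ 2 + b * v.1 * v.2 + c * (v.2 : ℝ) ^ 2 ≤ a}.Finite := by
    obtain ⟨N, hN⟩ := exists_nat_gt (4 * a * a / (4 * a * c - b ^ 2) + 4 * c * a / (4 * a * c - b ^ 2))
    have hp1 : 0 < 4 * a * a / (4 * a * c - b ^ 2) := by positivity
    have hp2 : 0 < 4 * c * a / (4 * a * c - b ^ 2) := by positivity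
    have key : ∀ y : ℤ, ((y : ℝ) ^ 2 < N) → y ∈ Set.Icc (-(N : ℤ)) N := by
      intro y hy
      have h1 : y ^ 2 < (N : ℤ) := by exact_mod_cast hy
      constructor
      · by_contra h
        nlinarith
      · by_contra h
        nlinarith
    refine Set.Finite.subset (Set.Finite.prod (Set.finite_Icc (-(N : ℤ)) N)
      (Set.finite_Icc (-(N : ℤ)) N)) ?_
    rintro ⟨x, y⟩ hv
    simp only [Set.mem_setOf_eq] at hv
    refine ⟨key x ?_, key y ?_⟩
    · have h1 : (4 * a * c - b ^ 2) * (x : ℝ) ^ 2 ≤ 4 * c * a := by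
        have e : 4 * c * (a * (x : ℝ) ^ 2 + b * x * y + c * (y : ℝ) ^ 2) =
            (2 * c * y + b * x) ^ 2 + (4 * a * c - b ^ 2) * (x : ℝ) ^ 2 := by ring
        have h2 : 4 * c * (a * (x : ℝ) ^ 2 + b * x * y + c * (y : ℝ) ^ 2) ≤ 4 * c * a :=
          mul_le_mul_of_nonneg_left hv (by positivity)
        have h3 := sq_nonneg (2 * c * (y : ℝ) + b * x)
        linarith
      have h2 : (x : ℝ) ^ 2 ≤ 4 * c * a / (4 * a * c - b ^ 2) := by
        rw [le_div_iff₀ hΔ]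
        linarith
      linarith
    · have h1 : (4 * a * c - b ^ 2) * (y : ℝ) ^ 2 ≤ 4 * a * a := by
        have e : 4 * a * (a * (x : ℝ) ^ 2 + b * x * y + c * (y : ℝ) ^ 2) =
            (2 * a * x + b * y) ^ 2 + (4 * a * c - b ^ 2) * (y : ℝ) ^ 2 := by ring
        have h2 : 4 * a * (a * (x : ℝ) ^ 2 + b * x * y + c * (y : ℝ) ^ 2) ≤ 4 * a * a :=
          mul_le_mul_of_nonneg_left hv (by positivity)
        have h3 := sq_nonneg (2 * a * (x : ℝ) + b * y)
        linarith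
      have h2 : (y : ℝ) ^ 2 ≤ 4 * a * a / (4 * a * c - b ^ 2) := by
        rw [le_div_iff₀ hΔ]
        linarith
      linarith
  -- positivity
  have hpos : ∀ x y : ℤ, (x ≠ 0 ∨ y ≠ 0) →
      0 < a * (x : ℝ) ^ 2 + b * x * y + c * (y : ℝ) ^ 2 := by
    intro x y hxy
    have e : 4 * a * (a * (x : ℝ) ^ 2 + b * x * y + c * (y : ℝ) ^ 2) =
        (2 * a * x + b * y) ^ 2 + (4 * a * c - b ^ 2) * (y : ℝ) ^ 2 := by ring
    by_contra hneg
    have h4 : 4 * a * (a * (x : ℝ) ^ 2 + b * x * y + c * (y : ℝ) ^ 2) ≤ 0 :=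
      mul_nonpos_of_nonneg_of_nonpos (by positivity) (not_lt.1 hneg)
    rw [e] at h4
    have h5 := sq_nonneg (2 * a * (x : ℝ) + b * y)
    have h6 : 0 ≤ (4 * a * c - b ^ 2) * (y : ℝ) ^ 2 := by positivity
    have h7 : (4 * a * c - b ^ 2) * (y : ℝ) ^ 2 = 0 := by linarith
    have h8 : (y : ℝ) = 0 := by
      rcases mul_eq_zero.1 h7 with h | h
      · exact absurd h hΔ.ne'
      · exact pow_eq_zero_iff (two_ne_zero) |>.1 h
    have h9 : (2 * a * (x : ℝ) + b * y) ^ 2 = 0 := by linarith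
    rw [h8, mul_zero, add_zero] at h9
    have h10 : (x : ℝ) = 0 := by
      have := pow_eq_zero_iff (two_ne_zero) |>.1 h9
      rcases mul_eq_zero.1 this with h | h
      · exact absurd h (by positivity)
      · exact h
    rcases hxy with h | h
    · exact h (by exact_mod_cast h10)
    · exact h (by exact_mod_cast h8)
  -- the minimum
  obtain ⟨⟨p, q⟩, ⟨hvm, hv0⟩, hmin⟩ := Set.exists_min_image
    ({v : ℤ × ℤ | a * (v.1 : ℝ) ^ 2 + b * v.1 * v.2 + c * (v.2 : ℝ) ^ 2 ≤ a} ∩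
      {v : ℤ × ℤ | v.1 ≠ 0 ∨ v.2 ≠ 0})
    (fun v => a * (v.1 : ℝ) ^ 2 + b * v.1 * v.2 + c * (v.2 : ℝ) ^ 2) (hfin.inter_of_left _)
    ⟨(1, 0), by simp, Or.inl one_ne_zero⟩
  simp only [Set.mem_setOf_eq] at hvm hv0
  have hmin' : ∀ x y : ℤ, (x ≠ 0 ∨ y ≠ 0) →
      a * (p : ℝ) ^ 2 + b * p * q + c * (q : ℝ) ^ 2 ≤ a * (x : ℝ) ^ 2 + b * x * y + c * (y : ℝ) ^ 2 := by
    intro x y hxy
    rcases le_total (a * (x : ℝ) ^ 2 + b * x * y + c * (y : ℝ) ^ 2) a with h | h
    · exact hmin (x, y) ⟨h, hxy⟩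
    · exact hvm.trans h
  have hm := hpos p q hv0
  -- the vector is primitive
  have hcop : IsCoprime p q := by
    rw [Int.isCoprime_iff_gcd_eq_one]
    by_contra hg
    have hg0 : Int.gcd p q ≠ 0 := by
      intro h
      rw [Int.gcd_eq_zero_iff] at h
      rcases hv0 with h' | h'
      · exact h' h.1
      · exact h' h.2
    have hg2 : 2 ≤ Int.gcd p q := by omega
    obtain ⟨x, hx⟩ := Int.gcd_dvd_left p q
    obtain ⟨y, hy⟩ := Int.gcd_dvd_right p q
    have hxy : x ≠ 0 ∨ y ≠ 0 := by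
      by_contra h
      push Not at h
      rw [h.1, mul_zero] at hx
      rw [h.2, mul_zero] at hy
      rcases hv0 with h' | h'
      · exact h' hx
      · exact h' hy
    have h1 := hmin' x y hxy
    have h2 := hpos x y hxy
    have hxr : (p : ℝ) = (Int.gcd p q : ℝ) * x := by exact_mod_cast hx
    have hyr : (q : ℝ) = (Int.gcd p q : ℝ) * y := by exact_mod_cast hy
    have e : a * (p : ℝ) ^ 2 + b * p * q + c * (q : ℝ) ^ 2 =
        (Int.gcd p q : ℝ) ^ 2 * (a * (x : ℝ) ^ 2 + b * x * y + c * (y : ℝ) ^ 2) := by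
      rw [hxr, hyr]
      ring
    have hg3 : (2 : ℝ) ≤ (Int.gcd p q : ℝ) := by exact_mod_cast hg2
    have hg4 : (4 : ℝ) ≤ (Int.gcd p q : ℝ) ^ 2 := by nlinarith
    rw [e] at h1
    nlinarith
  obtain ⟨u, w, huw⟩ := hcop
  -- `u * p + w * q = 1`, second vector `(-w, u)`
  set m : ℝ := a * (p : ℝ) ^ 2 + b * p * q + c * (q : ℝ) ^ 2 with hmdef
  set b0 : ℝ := 2 * a * p * (-w) + b * (p * u + q * (-w)) + 2 * c * q * u with hb0
  set n : ℤ := -round (b0 / (2 * m)) with hn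
  have hbn : |b0 + 2 * n * m| ≤ m := by
    have h1 := abs_sub_round (b0 / (2 * m))
    have e : b0 + 2 * n * m = (b0 / (2 * m) - round (b0 / (2 * m))) * (2 * m) := by
      rw [hn]
      push_cast
      field_simp
      ring
    rw [e, abs_mul, abs_of_pos (by positivity : (0 : ℝ) < 2 * m)]
    calc |b0 / (2 * m) - round (b0 / (2 * m))| * (2 * m) ≤ 1 / 2 * (2 * m) :=
          mul_le_mul_of_nonneg_right h1 (by positivity)
      _ = m := by ring
  have hdet : p * (u + n * q) - q * (-w + n * p) = 1 := by linear_combination huw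
  have hw0 : (-w + n * p) ≠ 0 ∨ (u + n * q) ≠ 0 := by
    by_contra h
    push Not at h
    rw [h.1, h.2] at hdet
    simp at hdet
  have hcn := hmin' _ _ hw0
  have hdr : (p : ℝ) * ((u + n * q : ℤ) : ℝ) - q * ((-w + n * p : ℤ) : ℝ) = 1 := by
    exact_mod_cast hdet
  refine ⟨p, q, hv0, ?_⟩
  rw [← hmdef]
  set r : ℝ := ((-w + n * p : ℤ) : ℝ) with hr
  set s : ℝ := ((u + n * q : ℤ) : ℝ) with hs
  have hr' : r = -w + n * p := by rw [hr]; push_cast; ring
  have hs' : s = u + n * q := by rw [hs]; push_cast; ring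
  have hb' : b0 + 2 * n * m = 2 * a * p * r + b * (p * s + q * r) + 2 * c * q * s := by
    rw [hb0, hmdef, hr', hs']
    ring
  have hid : 4 * m * (a * r ^ 2 + b * r * s + c * s ^ 2) -
      (2 * a * p * r + b * (p * s + q * r) + 2 * c * q * s) ^ 2 =
      (4 * a * c - b ^ 2) * (p * s - q * r) ^ 2 := by
    rw [hmdef]
    ring
  rw [hdr, one_pow, mul_one, ← hb'] at hid
  have h1 : (b0 + 2 * n * m) ^ 2 ≤ m ^ 2 := by
    rw [← sq_abs]
    exact pow_le_pow_left₀ (abs_nonneg _) hbn 2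
  have h2 : m ^ 2 ≤ m * (a * r ^ 2 + b * r * s + c * s ^ 2) := by
    rw [sq]
    exact mul_le_mul_of_nonneg_left hcn hm.le
  linarith

end Pool.Agent.Work.MP_787500_nt.GO
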