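import Mathlib
import Pool.Agent.Work.MP_787500_nt.GO.OgA

/-!
# Module OgB: small positive discriminant

If `A = 0`: `(x, y) = (1, 0)`. Let `A ≠ 0`. `P = B^2 - 3AC`, `Q = BC - 9AD`, `R = C^2 - 3BD`, `H = P x^2 + Q x y + R y^2`. Identities (checked by computer; `ring`): `4 P R - Q^2 = 3 dc`, and
`4 H^3 = G^2 + 27 dc F^2` with `F = cf A B C D x y`,
`G = (-27 A^2 D + 9 A B C - 2 B^3) x^3 + (-27 A B D + 18 A C^2 - 3 B^2 C) x^2 y + (27 A C D - 18 B^2 D + 3 B C^2) x y^2 + (27 A D^2 - 9 B C D + 2 C^3) y^3`.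
At `(1, 0)`: `4 P^3 ≥ 27 dc A^2 > 0`, so `P > 0`. `hermite` for `P, Q, R`: `(x, y)` with `3 H^2 ≤ 3 dc`, so `H^2 ≤ dc ≤ 8`, and `27 dc F^2 ≤ 4 H^3`, `H ≥ 0`: `(27 dc F^2)^2 ≤ 16 H^6 ≤ 16 dc^3`, so
`729 F^4 ≤ 16 dc ≤ 128`, `F = 0`. (`H` is an integer, `H^2 ≤ 8`, `H ≤ 2`; `27 F^2 ≤ 27 dc F^2 ≤ 4 * 8`; if `F ≠ 0`: `27 dc ≤ 4 H^3 ≤ 32`, so `dc = 1`, `H^2 ≤ 1`, `27 ≤ 4`: contradiction.)
-/

set_option autoImplicit false

namespace Pool.Agent.Work.MP_787500_nt.GO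

open WithZero IsDedekindDomain NumberField WeierstrassCurve WeierstrassCurve.Affine

universe u

private theorem ogb_arith {d H G F : ℤ} (h0 : 0 < d) (h8 : d ≤ 8) (hH : H ^ 2 ≤ d)
    (hid : 4 * H ^ 3 = G ^ 2 + 27 * d * F ^ 2) : F = 0 := by
  by_contra hF
  have hF1 : 1 ≤ F ^ 2 := by
    have : 0 < F ^ 2 := by positivity
    omega
  have h27 : 27 * d ≤ 4 * H ^ 3 := by
    have h1 : 27 * d * 1 ≤ 27 * d * F ^ 2 := mul_le_mul_of_nonneg_left hF1 (by omega)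
    have h2 : 0 ≤ G ^ 2 := sq_nonneg G
    omega
  have hH2 : H ≤ 2 := by nlinarith
  have hHm : -2 ≤ H := by nlinarith
  interval_cases H <;> omega

theorem pos_case {A B C D : ℤ} (h0 : 0 < dc A B C D) (h8 : dc A B C D ≤ 8) : Rep0 A B C D := by
  by_cases hA : A = 0
  · exact ⟨1, 0, Or.inl one_ne_zero, by rw [hA]; unfold cf; ring⟩
  obtain ⟨P, hP⟩ : ∃ P : ℤ, P = B ^ 2 - 3 * A * C := ⟨_, rfl⟩
  obtain ⟨Q, hQ⟩ : ∃ Q : ℤ, Q = B * C - 9 * A * D := ⟨_, rfl⟩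
  obtain ⟨R, hR⟩ : ∃ R : ℤ, R = C ^ 2 - 3 * B * D := ⟨_, rfl⟩
  have hid1 : 4 * P * R - Q ^ 2 = 3 * dc A B C D := by
    rw [hP, hQ, hR]; unfold dc; ring
  have hA2 : 4 * P ^ 3 = (-27 * A ^ 2 * D + 9 * A * B * C - 2 * B ^ 3) ^ 2 +
      27 * dc A B C D * A ^ 2 := by
    rw [hP]; unfold dc; ring
  have hP0 : 0 < P := by
    by_contra hcon
    have h1 : P ^ 3 ≤ 0 := by
      have h2 : P * P ^ 2 ≤ 0 := mul_nonpos_of_nonpos_of_nonneg (by omega) (sq_nonneg P)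
      linarith [h2, show P ^ 3 = P * P ^ 2 by ring]
    have h2 : 0 < 27 * dc A B C D * A ^ 2 := by positivity
    have h3 : 0 ≤ (-27 * A ^ 2 * D + 9 * A * B * C - 2 * B ^ 3) ^ 2 := sq_nonneg _
    linarith
  have hlt : Q ^ 2 < 4 * P * R := by linarith
  obtain ⟨x, y, hxy, h⟩ := hermite (a := (P : ℝ)) (b := (Q : ℝ)) (c := (R : ℝ))
    (by exact_mod_cast hP0) (by exact_mod_cast hlt)
  refine ⟨x, y, hxy, ?_⟩
  have h' : 3 * (P * x ^ 2 + Q * x * y + R * y ^ 2) ^ 2 ≤ 4 * P * R - Q ^ 2 := by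
    exact_mod_cast h
  rw [hid1] at h'
  refine ogb_arith (H := P * x ^ 2 + Q * x * y + R * y ^ 2)
    (G := (-27 * A ^ 2 * D + 9 * A * B * C - 2 * B ^ 3) * x ^ 3 +
      (-27 * A * B * D + 18 * A * C ^ 2 - 3 * B ^ 2 * C) * x ^ 2 * y +
      (27 * A * C * D - 18 * B ^ 2 * D + 3 * B * C ^ 2) * x * y ^ 2 +
      (27 * A * D ^ 2 - 9 * B * C * D + 2 * C ^ 3) * y ^ 3) h0 h8 (by linarith) ?_
  rw [hP, hQ, hR]
  unfold dc cf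
  ring

end Pool.Agent.Work.MP_787500_nt.GO
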