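import Mathlib
import Pool.Agent.Work.MP_787500_nt.GO.OgA

/-!
# Module OgC: small negative discriminant

If `A = 0`: `(1, 0)`. Replace `(A, B, C, D)` by its negative if `A < 0` (`dc` is the same, `cf` changes the sign). Let `A > 0` and `θ` a real root of `A X^3 + B X^2 + C X + D` (intermediate value
theorem on `[-M, M]`, `M = 1 + |B| + |C| + |D|`). Put `P = A`, `Q = B + A θ`, `R = C + B θ + A θ^2`, `N = 3 A θ^2 + 2 B θ + C`. Over the reals `F(x,y) = (x - θ y) (P x^2 + Q x y + R y^2)`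
(because `A θ^3 + B θ^2 + C θ + D = 0`), `N = P θ^2 + Q θ + R`, `dc = (Q^2 - 4 P R) N^2`. So `Δ = 4 P R - Q^2 > 0`, `q = P x^2 + Q x y + R y^2 ≥ 0` and `N > 0` (`4 P N = (2 P θ + Q)^2 + Δ`).
Let `s = Δ / N`, `Θ(x,y) = s (x - θ y)^2 + 2 q`: the form with `a = s + 2 P > 0`, `b = -2 θ s + 2 Q`, `c = θ^2 s + 2 R`, and `4 a c - b^2 = 8 s N + 4 Δ = 12 Δ`. `hermite`: `(x, y)` with `3 Θ^2 ≤ 12 Δ`, `Θ^2 ≤ 4 Δ`.
For `u = s (x - θ y)^2 ≥ 0`, `v = q ≥ 0`: `27 u v^2 ≤ (u + 2 v)^3`, because `(u + 2v)^3 - 27 u v^2 = (u - v)^2 (u + 8 v)`. So `27 s F^2 ≤ Θ^3`, `729 s^2 F^4 ≤ Θ^6 ≤ 64 Δ^3`, `729 F^4 ≤ 64 Δ N^2 = -64 dc ≤ 512`; `F` is an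
integer, so `F = 0`.
-/

set_option autoImplicit false

namespace Pool.Agent.Work.MP_787500_nt.GO

open WithZero IsDedekindDomain NumberField WeierstrassCurve WeierstrassCurve.Affine

universe u

/-- a cubic with positive leading coefficient has a real root -/
private theorem exists_root {A B C D : ℝ} (hA : 1 ≤ A) :
    ∃ θ : ℝ, A * θ ^ 3 + B * θ ^ 2 + C * θ + D = 0 := by
  let f : ℝ → ℝ := fun x => A * x ^ 3 + B * x ^ 2 + C * x + D
  have hf : Continuous f := by fun_prop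
  set M : ℝ := 1 + |B| + |C| + |D| with hM
  have hB := abs_nonneg B
  have hC := abs_nonneg C
  have hD := abs_nonneg D
  have hM1 : 1 ≤ M := by rw [hM]; linarith
  have h1 : |B| ≤ M - 1 - |C| - |D| := by rw [hM]; linarith
  have hpos : 0 ≤ f M := by
    have b1 : -|B| ≤ B := neg_abs_le B
    have c1 : -|C| ≤ C := neg_abs_le C
    have d1 : -|D| ≤ D := neg_abs_le D
    have m2 : M ≤ M ^ 2 := by nlinarith
    have m3 : 1 ≤ M ^ 2 := by nlinarith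
    have e1 : -|B| * M ^ 2 ≤ B * M ^ 2 := mul_le_mul_of_nonneg_right b1 (by positivity)
    have e2 : -|C| * M ^ 2 ≤ C * M := by
      have : -|C| * M ≤ C * M := mul_le_mul_of_nonneg_right c1 (by positivity)
      nlinarith
    have e3 : -|D| * M ^ 2 ≤ D := by nlinarith
    have e4 : M ^ 3 ≤ A * M ^ 3 := by
      have : 0 ≤ M ^ 3 := by positivity
      nlinarith
    show 0 ≤ A * M ^ 3 + B * M ^ 2 + C * M + D
    have e5 : 0 ≤ M ^ 2 * (M - |B| - |C| - |D|) := by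
      apply mul_nonneg (by positivity)
      rw [hM]; linarith
    nlinarith
  have hneg : f (-M) ≤ 0 := by
    have b1 : B ≤ |B| := le_abs_self B
    have c1 : -|C| ≤ C := neg_abs_le C
    have d1 : D ≤ |D| := le_abs_self D
    have m2 : M ≤ M ^ 2 := by nlinarith
    have m3 : 1 ≤ M ^ 2 := by nlinarith
    have e1 : B * M ^ 2 ≤ |B| * M ^ 2 := mul_le_mul_of_nonneg_right b1 (by positivity)
    have e2 : -|C| * M ^ 2 ≤ C * M := by
      have : -|C| * M ≤ C * M := mul_le_mul_of_nonneg_right c1 (by positivity)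
      nlinarith
    have e3 : D ≤ |D| * M ^ 2 := by nlinarith
    have e4 : M ^ 3 ≤ A * M ^ 3 := by
      have : 0 ≤ M ^ 3 := by positivity
      nlinarith
    show A * (-M) ^ 3 + B * (-M) ^ 2 + C * (-M) + D ≤ 0
    have e5 : 0 ≤ M ^ 2 * (M - |B| - |C| - |D|) := by
      apply mul_nonneg (by positivity)
      rw [hM]; linarith
    nlinarith
  have h2 : -M ≤ M := by linarith
  obtain ⟨θ, -, hθ⟩ := intermediate_value_Icc h2 hf.continuousOn ⟨hneg, hpos⟩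
  exact ⟨θ, hθ⟩

private theorem amgm {u v : ℝ} (hu : 0 ≤ u) (hv : 0 ≤ v) : 27 * u * v ^ 2 ≤ (u + 2 * v) ^ 3 := by
  have h : (u + 2 * v) ^ 3 - 27 * u * v ^ 2 = (u - v) ^ 2 * (u + 8 * v) := by ring
  have h2 : 0 ≤ (u - v) ^ 2 * (u + 8 * v) := by positivity
  linarith

private theorem final_ineq {s Δ N L q : ℝ} (hs : 0 < s) (hΔ : 0 < Δ) (hsN : s * N = Δ)
    (hq : 0 ≤ q) (hT : (s * L ^ 2 + 2 * q) ^ 2 ≤ 4 * Δ) :
    729 * (L * q) ^ 4 ≤ 64 * (Δ * N ^ 2) := by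
  have hu : 0 ≤ s * L ^ 2 := mul_nonneg hs.le (sq_nonneg L)
  have h27 : 27 * (s * L ^ 2) * q ^ 2 ≤ (s * L ^ 2 + 2 * q) ^ 3 := amgm hu hq
  have hl : 0 ≤ 27 * (s * L ^ 2) * q ^ 2 :=
    mul_nonneg (mul_nonneg (by norm_num) hu) (sq_nonneg q)
  have e1 : (27 * (s * L ^ 2) * q ^ 2) ^ 2 ≤ ((s * L ^ 2 + 2 * q) ^ 3) ^ 2 :=
    pow_le_pow_left₀ hl h27 2
  have e2 : ((s * L ^ 2 + 2 * q) ^ 2) ^ 3 ≤ (4 * Δ) ^ 3 :=
    pow_le_pow_left₀ (sq_nonneg _) hT 3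
  have e3 : ((s * L ^ 2 + 2 * q) ^ 3) ^ 2 = ((s * L ^ 2 + 2 * q) ^ 2) ^ 3 := by
    rw [← pow_mul, ← pow_mul]
  have h6 : (27 * (s * L ^ 2) * q ^ 2) ^ 2 ≤ 64 * Δ ^ 3 := by
    rw [e3] at e1
    have e4 : (4 * Δ) ^ 3 = 64 * Δ ^ 3 := by ring
    rw [e4] at e2
    exact e1.trans e2
  have e5 : (27 * (s * L ^ 2) * q ^ 2) ^ 2 * N ^ 2 ≤ 64 * Δ ^ 3 * N ^ 2 :=
    mul_le_mul_of_nonneg_right h6 (sq_nonneg N)
  have e6 : (27 * (s * L ^ 2) * q ^ 2) ^ 2 * N ^ 2 = Δ ^ 2 * (729 * (L * q) ^ 4) := by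
    rw [← hsN]; ring
  have e7 : 64 * Δ ^ 3 * N ^ 2 = Δ ^ 2 * (64 * (Δ * N ^ 2)) := by ring
  rw [e6, e7] at e5
  exact le_of_mul_le_mul_left e5 (pow_pos hΔ 2)

private theorem neg_pos {A B C D : ℤ} (hA : 0 < A) (h0 : dc A B C D < 0)
    (h8 : -8 ≤ dc A B C D) : Rep0 A B C D := by
  have hA1 : (1 : ℝ) ≤ (A : ℝ) := by exact_mod_cast hA
  obtain ⟨θ, hθ⟩ := exists_root (B := (B : ℝ)) (C := (C : ℝ)) (D := (D : ℝ)) hA1
  set P : ℝ := (A : ℝ) with hP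
  set Q : ℝ := B + A * θ with hQ
  set R : ℝ := C + B * θ + A * θ ^ 2 with hR
  set N : ℝ := P * θ ^ 2 + Q * θ + R with hN
  set Δ : ℝ := 4 * P * R - Q ^ 2 with hΔ
  have hD : (D : ℝ) = -(θ * R) := by rw [hR]; linarith
  have hdc : ((dc A B C D : ℤ) : ℝ) = -(Δ * N ^ 2) := by
    have : (D : ℝ) = -(A * θ ^ 3 + B * θ ^ 2 + C * θ) := by linarith
    unfold dc
    push_cast
    rw [this, hΔ, hN, hQ, hR, hP]
    ring
  have h0' : ((dc A B C D : ℤ) : ℝ) < 0 := by exact_mod_cast h0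
  have h8' : -8 ≤ ((dc A B C D : ℤ) : ℝ) := by exact_mod_cast h8
  have hΔN : 0 < Δ * N ^ 2 := by linarith
  have hN2 : 0 < N ^ 2 := by
    rcases (sq_nonneg N).lt_or_eq with h | h
    · exact h
    · rw [← h] at hΔN; simp at hΔN
  have hΔ0 : 0 < Δ := by
    by_contra h
    have := mul_nonpos_of_nonpos_of_nonneg (not_lt.1 h) hN2.le
    linarith
  have hPpos : 0 < P := by linarith
  have hNpos : 0 < N := by
    have h4 : 4 * P * N = (2 * P * θ + Q) ^ 2 + Δ := by rw [hN, hΔ]; ring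
    have h5 : 0 < 4 * P * N := by rw [h4]; positivity
    by_contra h
    have := mul_nonpos_of_nonneg_of_nonpos (by positivity : 0 ≤ 4 * P) (not_lt.1 h)
    linarith
  set s : ℝ := Δ / N with hs
  have hspos : 0 < s := div_pos hΔ0 hNpos
  have hsN : s * N = Δ := by rw [hs]; field_simp
  have hdisc : 4 * (s + 2 * P) * (θ ^ 2 * s + 2 * R) - (-2 * θ * s + 2 * Q) ^ 2 = 12 * Δ := by
    have : 4 * (s + 2 * P) * (θ ^ 2 * s + 2 * R) - (-2 * θ * s + 2 * Q) ^ 2 =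
        8 * (s * N) + 4 * Δ := by rw [hN, hΔ]; ring
    rw [this, hsN]; ring
  obtain ⟨x, y, hxy, hH⟩ := hermite (a := s + 2 * P) (b := -2 * θ * s + 2 * Q)
    (c := θ ^ 2 * s + 2 * R) (by positivity) (by linarith)
  refine ⟨x, y, hxy, ?_⟩
  rw [hdisc] at hH
  set L : ℝ := (x : ℝ) - θ * y with hL
  set q : ℝ := P * x ^ 2 + Q * x * y + R * y ^ 2 with hq
  have hTh : (s + 2 * P) * (x : ℝ) ^ 2 + (-2 * θ * s + 2 * Q) * x * y +
      (θ ^ 2 * s + 2 * R) * (y : ℝ) ^ 2 = s * L ^ 2 + 2 * q := by rw [hL, hq]; ring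
  rw [hTh] at hH
  have hq0 : 0 ≤ q := by
    have h4 : 4 * P * q = (2 * P * x + Q * y) ^ 2 + Δ * (y : ℝ) ^ 2 := by rw [hq, hΔ]; ring
    have h5 : 0 ≤ 4 * P * q := by rw [h4]; positivity
    by_contra h
    have := mul_neg_of_pos_of_neg (by positivity : 0 < 4 * P) (not_le.1 h)
    linarith
  have hF : ((cf A B C D x y : ℤ) : ℝ) = L * q := by
    have : (D : ℝ) = -(A * θ ^ 3 + B * θ ^ 2 + C * θ) := by linarith
    unfold cf
    push_cast
    rw [this, hL, hq, hQ, hR, hP]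
    ring
  have h7 : 729 * (L * q) ^ 4 ≤ 64 * (Δ * N ^ 2) :=
    final_ineq hspos hΔ0 hsN hq0 (by linarith)
  have h9 : ((cf A B C D x y : ℤ) : ℝ) ^ 4 < 1 := by
    rw [hF]
    have : Δ * N ^ 2 ≤ 8 := by linarith
    linarith
  have h10 : (cf A B C D x y) ^ 4 < 1 := by exact_mod_cast h9
  by_contra hne
  have h11 : 0 < (cf A B C D x y) ^ 4 := by positivity
  omega

theorem neg_case {A B C D : ℤ} (h0 : dc A B C D < 0) (h8 : -8 ≤ dc A B C D) : Rep0 A B C D := by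
  rcases lt_trichotomy A 0 with hA | hA | hA
  · have h1 : dc (-A) (-B) (-C) (-D) = dc A B C D := by unfold dc; ring
    obtain ⟨x, y, hxy, h⟩ := neg_pos (A := -A) (B := -B) (C := -C) (D := -D) (by omega)
      (by rw [h1]; exact h0) (by rw [h1]; exact h8)
    refine ⟨x, y, hxy, ?_⟩
    have h2 : cf (-A) (-B) (-C) (-D) x y = -cf A B C D x y := by unfold cf; ring
    rw [h2] at h
    omega
  · subst hA
    exact ⟨1, 0, Or.inl one_ne_zero, by unfold cf; ring⟩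
  · exact neg_pos hA h0 h8

end Pool.Agent.Work.MP_787500_nt.GO
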