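import Mathlib
import Pool.Agent.Work.MP_787500_nt.GO.OgDef

/-!
# Module OgD: the descent at 2

If `A, B, C, D` are all even: divide by 2 (`dc` is divided by 16; the same zeros). Otherwise, as `dc` is even, `B C + A D` is even (modulo 2 `dc = B C + A D`); a case distinction modulo 2 shows that one of the three forms
`(A, B, C, D)`, `(D, C, B, A)` (exchange of `x, y`), `(A, B + 3A, C + 2B + 3A, A + B + C + D)` (`x -> x + y`) has even third and fourth coefficients. These substitutions do not change `dc`, and zeros correspond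
(`cf A (B+3A) (C+2B+3A) (A+B+C+D) x y = cf A B C D (x+y) y`). So let `C = 2c`, `D = 2d` (`A`, `B` not both even): `dc = 4 (B^2 c^2 - 8 A c^3 - 2 B^3 d - 27 A^2 d^2 + 18 A B c d)`, so the bracket is divisible by 4. If `d` is
odd, then modulo 4 the bracket is `(B c + A)^2 + 2 B^3`, so `B c + A` is even and `B` is even, so `A` is even: contradiction. So `d` is even, `D = 4 d'`, and
`dc A B (2c) (4d') = 4 dc (2A) B c d'`, `cf A B (2c) (4d') (2x) y = 4 cf (2A) B c d' x y`.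
(All congruences can be checked by `decide` on `ZMod 4` or by writing `A = 2A' + α` etc.; it was checked by computer that one of the three forms has third coefficient even and fourth divisible by 4.)
-/

set_option autoImplicit false

namespace Pool.Agent.Work.MP_787500_nt.GO

open WithZero IsDedekindDomain NumberField WeierstrassCurve WeierstrassCurve.Affine

universe u

private theorem od_odd_aux : ∀ A B c d : ZMod 4,
    B ^ 2 * c ^ 2 - 8 * A * c ^ 3 - 2 * B ^ 3 * d - 27 * A ^ 2 * d ^ 2 + 18 * A * B * c * d = 0 →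
    (d = 1 ∨ d = 3) → (A = 0 ∨ A = 2) ∧ (B = 0 ∨ B = 2) := by decide

private theorem od_even_iff (A : ℤ) : ((A : ZMod 4) = 0 ∨ (A : ZMod 4) = 2) ↔ 2 ∣ A := by
  have h0 : ((A : ZMod 4) = 0) ↔ (4 : ℤ) ∣ A := by
    have := ZMod.intCast_zmod_eq_zero_iff_dvd A 4
    simpa using this
  have h2 : ((A : ZMod 4) = 2) ↔ (4 : ℤ) ∣ A - 2 := by
    have := ZMod.intCast_zmod_eq_zero_iff_dvd (A - 2) 4
    constructor
    · intro h
      have h3 : (((A - 2 : ℤ)) : ZMod 4) = 0 := by push_cast; rw [h]; ring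
      exact this.mp h3
    · intro h
      have h3 := this.mpr h
      push_cast at h3
      exact sub_eq_zero.mp h3
  rw [h0, h2]
  omega

private theorem od_odd_iff (A : ℤ) : ((A : ZMod 4) = 1 ∨ (A : ZMod 4) = 3) ↔ ¬ 2 ∣ A := by
  have key : ∀ a : ZMod 4, (a = 1 ∨ a = 3) ↔ ¬ (a = 0 ∨ a = 2) := by decide
  rw [key, od_even_iff]

private theorem od_step_even {A B C D : ℤ} (h : 16 ∣ dc A B C D) (hC : 2 ∣ C) (hD : 2 ∣ D)
    (hAB : ¬ (2 ∣ A ∧ 2 ∣ B)) : ∃ A' B' C' D' : ℤ,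
    dc A B C D = 4 * dc A' B' C' D' ∧ (Rep0 A' B' C' D' → Rep0 A B C D) := by
  obtain ⟨c, rfl⟩ := hC
  obtain ⟨d, rfl⟩ := hD
  have h4 : (4 : ℤ) ∣ B ^ 2 * c ^ 2 - 8 * A * c ^ 3 - 2 * B ^ 3 * d - 27 * A ^ 2 * d ^ 2
      + 18 * A * B * c * d := by
    obtain ⟨k, hk⟩ := h
    refine ⟨k, ?_⟩
    have h5 : dc A B (2 * c) (2 * d) = 4 * (B ^ 2 * c ^ 2 - 8 * A * c ^ 3 - 2 * B ^ 3 * d
        - 27 * A ^ 2 * d ^ 2 + 18 * A * B * c * d) := by
      unfold dc; ring
    rw [h5] at hk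
    linarith
  have hd : 2 ∣ d := by
    by_contra hd
    apply hAB
    have h5 : (((B ^ 2 * c ^ 2 - 8 * A * c ^ 3 - 2 * B ^ 3 * d - 27 * A ^ 2 * d ^ 2
      + 18 * A * B * c * d : ℤ)) : ZMod 4) = 0 :=
      (ZMod.intCast_zmod_eq_zero_iff_dvd _ 4).mpr h4
    push_cast at h5
    have h6 := od_odd_aux _ _ _ _ h5 ((od_odd_iff d).mpr hd)
    exact ⟨(od_even_iff A).mp h6.1, (od_even_iff B).mp h6.2⟩
  obtain ⟨e, rfl⟩ := hd
  refine ⟨2 * A, B, c, e, ?_, ?_⟩
  · unfold dc; ring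
  · rintro ⟨x, y, hxy, h0⟩
    refine ⟨2 * x, y, ?_, ?_⟩
    · rcases hxy with hx | hy
      · left; positivity
      · right; exact hy
    · have h7 : cf A B (2 * c) (2 * (2 * e)) (2 * x) y = 4 * cf (2 * A) B c e x y := by
        unfold cf; ring
      rw [h7, h0, mul_zero]

theorem step_case {A B C D : ℤ} (h : 16 ∣ dc A B C D) : ∃ A' B' C' D' : ℤ,
    (dc A B C D = 4 * dc A' B' C' D' ∨ dc A B C D = 16 * dc A' B' C' D') ∧
      (Rep0 A' B' C' D' → Rep0 A B C D) := by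
  by_cases hall : (2 ∣ A ∧ 2 ∣ B) ∧ (2 ∣ C ∧ 2 ∣ D)
  · obtain ⟨⟨⟨a, rfl⟩, ⟨b, rfl⟩⟩, ⟨⟨c, rfl⟩, ⟨d, rfl⟩⟩⟩ := hall
    refine ⟨a, b, c, d, Or.inr ?_, ?_⟩
    · unfold dc; ring
    · rintro ⟨x, y, hxy, h0⟩
      refine ⟨x, y, hxy, ?_⟩
      have h7 : cf (2 * a) (2 * b) (2 * c) (2 * d) x y = 2 * cf a b c d x y := by
        unfold cf; ring
      rw [h7, h0, mul_zero]
  by_cases hCD : 2 ∣ C ∧ 2 ∣ D
  · obtain ⟨A', B', C', D', h1, h2⟩ := od_step_even h hCD.1 hCD.2 (fun hAB => hall ⟨hAB, hCD⟩)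
    exact ⟨A', B', C', D', Or.inl h1, h2⟩
  by_cases hAB : 2 ∣ A ∧ 2 ∣ B
  · have h' : 16 ∣ dc D C B A := by
      have : dc D C B A = dc A B C D := by unfold dc; ring
      rw [this]; exact h
    obtain ⟨A', B', C', D', h1, h2⟩ := od_step_even h' hAB.2 hAB.1
      (fun hDC => hCD ⟨hDC.2, hDC.1⟩)
    refine ⟨A', B', C', D', Or.inl ?_, ?_⟩
    · rw [← h1]; unfold dc; ring
    · intro hr
      obtain ⟨x, y, hxy, h0⟩ := h2 hr
      refine ⟨y, x, hxy.symm, ?_⟩
      rw [← h0]; unfold cf; ring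
  · have h2 : (2 : ℤ) ∣ B * C + A * D := by
      have h3 : (2 : ℤ) ∣ dc A B C D := dvd_trans (by norm_num) h
      have key : ∀ a b c d : ZMod 2, b ^ 2 * c ^ 2 - 4 * a * c ^ 3 - 4 * b ^ 3 * d
          - 27 * a ^ 2 * d ^ 2 + 18 * a * b * c * d = 0 → b * c + a * d = 0 := by decide
      have h4 : ((dc A B C D : ℤ) : ZMod 2) = 0 := (ZMod.intCast_zmod_eq_zero_iff_dvd _ 2).mpr h3
      have h5 : (((B * C + A * D : ℤ)) : ZMod 2) = 0 := by
        unfold dc at h4
        push_cast at h4 ⊢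
        exact key _ _ _ _ h4
      exact (ZMod.intCast_zmod_eq_zero_iff_dvd _ 2).mp h5
    have hpar : (2 : ℤ) ∣ A + C ∧ (2 : ℤ) ∣ B + D := by
      have key : ∀ a b c d : ZMod 2, ¬ (a = 0 ∧ b = 0) → ¬ (c = 0 ∧ d = 0) →
          b * c + a * d = 0 → a + c = 0 ∧ b + d = 0 := by decide
      have cast : ∀ z : ℤ, ((z : ZMod 2) = 0) ↔ (2 : ℤ) ∣ z := fun z =>
        ZMod.intCast_zmod_eq_zero_iff_dvd z 2
      have h5 : ((B : ZMod 2)) * C + A * D = 0 := by
        have := (cast (B * C + A * D)).mpr h2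
        push_cast at this
        exact this
      have h6 := key (A : ZMod 2) B C D (by rw [cast, cast]; exact hAB)
        (by rw [cast, cast]; exact hCD) h5
      constructor
      · have := h6.1
        rw [← Int.cast_add, cast] at this
        exact this
      · have := h6.2
        rw [← Int.cast_add, cast] at this
        exact this
    have h' : 16 ∣ dc A (B + 3 * A) (C + 2 * B + 3 * A) (A + B + C + D) := by
      have : dc A (B + 3 * A) (C + 2 * B + 3 * A) (A + B + C + D) = dc A B C D := by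
        unfold dc; ring
      rw [this]; exact h
    obtain ⟨A', B', C', D', h1, h3⟩ := od_step_even h' (by omega) (by omega) (by
      rintro ⟨ha, hb⟩
      exact hAB ⟨ha, by omega⟩)
    refine ⟨A', B', C', D', Or.inl ?_, ?_⟩
    · rw [← h1]; unfold dc; ring
    · intro hr
      obtain ⟨x, y, hxy, h0⟩ := h3 hr
      refine ⟨x + y, y, ?_, ?_⟩
      · by_cases hy : y = 0
        · left
          subst hy
          simpa using hxy
        · right; exact hy
      · rw [← h0]; unfold cf; ring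

end Pool.Agent.Work.MP_787500_nt.GO
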