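import Mathlib
import Pool.Agent.Work.MP_787500_nt.GO.OgB
import Pool.Agent.Work.MP_787500_nt.GO.OgC
import Pool.Agent.Work.MP_787500_nt.GO.OgD

/-!
# Module OgE: binary cubic forms of discriminant plus or minus a power of 2 have a zero

Strong induction on `m`. `m ≤ 3`: `|dc| = 2^m ≤ 8`: `pos_case`, `neg_case`. `m ≥ 4`: `16 ∣ dc`, `step_case`: `dc A' B' C' D' = ± 2^(m-2)` or `± 2^(m-4)`.
`int_root`: the form `(1, p, q, r)`; a zero `(x, y) ≠ 0`: `y ≠ 0` (otherwise `x^3 = 0`). Divide by the gcd (`cf` is homogeneous): `x, y` coprime, `y ∣ x^3`, so `y = ± 1`, and `e = x / y = x y` is a root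
(`cf 1 p q r x y = 0`, `y = -1`: replace `(x, y)` by `(-x, -y)`).
-/

set_option autoImplicit false

namespace Pool.Agent.Work.MP_787500_nt.GO

open WithZero IsDedekindDomain NumberField WeierstrassCurve WeierstrassCurve.Affine

universe u

theorem rep0_all {A B C D : ℤ} {m : ℕ} (h : dc A B C D = 2 ^ m ∨ dc A B C D = -2 ^ m) :
    Rep0 A B C D := by
  induction m using Nat.strong_induction_on generalizing A B C D with
  | _ m ih =>
    by_cases hm : m ≤ 3
    · have h1 : (2 : ℤ) ^ m ≤ 2 ^ 3 := pow_le_pow_right₀ (by norm_num) hm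
      have h2 : (0 : ℤ) < 2 ^ m := by positivity
      rcases h with h | h
      · exact pos_case (by rw [h]; exact h2) (by rw [h]; linarith)
      · exact neg_case (by rw [h]; linarith) (by rw [h]; linarith)
    · push Not at hm
      obtain ⟨k, rfl⟩ : ∃ k, m = k + 4 := ⟨m - 4, by omega⟩
      have h16 : (16 : ℤ) ∣ dc A B C D := by
        rcases h with h | h
        · rw [h]; exact ⟨2 ^ k, by ring⟩
        · rw [h]; exact ⟨-2 ^ k, by ring⟩
      obtain ⟨A', B', C', D', h1, h2⟩ := step_case h16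
      apply h2
      rcases h1 with h1 | h1
      · apply ih (k + 2) (by omega)
        rcases h with h | h
        · left
          have h3 : 4 * dc A' B' C' D' = 4 * 2 ^ (k + 2) := by rw [← h1, h]; ring
          linarith
        · right
          have h3 : 4 * dc A' B' C' D' = 4 * -2 ^ (k + 2) := by rw [← h1, h]; ring
          linarith
      · apply ih k (by omega)
        rcases h with h | h
        · left
          have h3 : 16 * dc A' B' C' D' = 16 * 2 ^ k := by rw [← h1, h]; ring
          linarith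
        · right
          have h3 : 16 * dc A' B' C' D' = 16 * -2 ^ k := by rw [← h1, h]; ring
          linarith

theorem int_root {p q r : ℤ} {m : ℕ} (h : dc 1 p q r = 2 ^ m ∨ dc 1 p q r = -2 ^ m) :
    ∃ e : ℤ, e ^ 3 + p * e ^ 2 + q * e + r = 0 := by
  obtain ⟨x, y, hxy, hf⟩ := rep0_all h
  unfold cf at hf
  have hy : y ≠ 0 := by
    rintro rfl
    have hx : x ^ 3 = 0 := by linear_combination hf
    have hx0 : x = 0 := by
      exact pow_eq_zero_iff (by norm_num) |>.1 hx
    rcases hxy with h1 | h1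
    · exact h1 hx0
    · exact h1 rfl
  have hg : 0 < Int.gcd x y := Int.gcd_pos_of_ne_zero_right _ hy
  obtain ⟨x', y', hcop, hx, hy'⟩ := Int.exists_gcd_one hg
  set g : ℤ := (Int.gcd x y : ℤ) with hgdef
  have hg0 : g ≠ 0 := by rw [hgdef]; exact_mod_cast hg.ne'
  have hf' : x' ^ 3 + p * x' ^ 2 * y' + q * x' * y' ^ 2 + r * y' ^ 3 = 0 := by
    have h1 : g ^ 3 * (x' ^ 3 + p * x' ^ 2 * y' + q * x' * y' ^ 2 + r * y' ^ 3) = 0 := by
      rw [hx, hy'] at hf
      linear_combination hf
    rcases mul_eq_zero.1 h1 with h2 | h2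
    · exact absurd h2 (pow_ne_zero _ hg0)
    · exact h2
  have hdvd : y' ∣ x' ^ 3 := ⟨-(p * x' ^ 2 + q * x' * y' + r * y' ^ 2), by linear_combination hf'⟩
  have hco : IsCoprime y' (x' ^ 3) := by
    have h1 : IsCoprime x' y' := Int.isCoprime_iff_gcd_eq_one.2 hcop
    exact (h1.pow_left).symm
  have hu : IsUnit y' := hco.isUnit_of_dvd' dvd_rfl hdvd
  rcases Int.isUnit_iff.1 hu with h1 | h1
  · refine ⟨x', ?_⟩
    rw [h1] at hf'
    linear_combination hf'
  · refine ⟨-x', ?_⟩
    rw [h1] at hf'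
    linear_combination -hf'

end Pool.Agent.Work.MP_787500_nt.GO
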