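import Mathlib
import Pool.Agent.Work.MP_787500_nt.GO.OgE

/-!
# Module OgF: elliptic curves over the integers with discriminant plus or minus a power of 2

`dc 1 b₂ (8 b₄) (16 b₆) = 256 Δ` (`WeierstrassCurve.Δ`, `4 b₈ = b₂ b₆ - b₄^2`: `W.b_relation`, or unfold everything and `ring`). So `int_root` gives `e` with `e^3 + b₂ e^2 + 8 b₄ e + 16 b₆ = 0`.
`a = 3 e + b₂`, `b = 3 e^2 + 2 b₂ e + 8 b₄`: `b^2 (a^2 - 4b) = dc 1 b₂ (8b₄) (16b₆)` modulo the equation for `e` (`X^3 + b₂ X^2 + 8 b₄ X + 16 b₆` at `X + e` is `X (X^2 + a X + b)`; eliminate `16 b₆`), `= ± 2^(k+8)`. So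
`b (a^2 - 4b)` divides `2^(k+8)`, hence it is `± 2^l` (`Int.natAbs_dvd`, `(Nat.dvd_prime_pow Nat.prime_two).1`): `G2 a b`.
Change of variables over `ℚ`: `u = 1/2`, `r = e/4`, `s = -a₁/2`, `t = -a₁ e/8 - a₃/2` (`x = X/4 + e/4`, `y = Y/8 - (a₁ x + a₃)/2`): `a₁' = 0`, `a₃' = 0`, `a₂' = 4 (a₂ + a₁^2/4 + 3e/4) = b₂ + 3e = a`,
`a₄' = b`, `a₆' = 0` (`WeierstrassCurve.variableChange_def`-type lemmas, `ext`, `field_simp`, `linear_combination` with the equation of `e`).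
-/

set_option autoImplicit false

namespace Pool.Agent.Work.MP_787500_nt.GO

open WithZero IsDedekindDomain NumberField WeierstrassCurve WeierstrassCurve.Affine

universe u

theorem ogg (W : WeierstrassCurve ℤ) {k : ℕ} (h : W.Δ = 2 ^ k ∨ W.Δ = -2 ^ k) :
    ∃ a b : ℤ, G2 a b ∧ ∃ C : VariableChange ℚ,
      C • (W.map (Int.castRingHom ℚ)) = (cv (a : ℚ) (b : ℚ) : WeierstrassCurve ℚ) := by
  have hdc : dc 1 W.b₂ (8 * W.b₄) (16 * W.b₆) = 256 * W.Δ := by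
    unfold dc
    simp only [WeierstrassCurve.Δ, WeierstrassCurve.b₂, WeierstrassCurve.b₄, WeierstrassCurve.b₆,
      WeierstrassCurve.b₈]
    ring
  have h1 : dc 1 W.b₂ (8 * W.b₄) (16 * W.b₆) = 2 ^ (k + 8) ∨
      dc 1 W.b₂ (8 * W.b₄) (16 * W.b₆) = -2 ^ (k + 8) := by
    rw [hdc]
    rcases h with h | h
    · left
      rw [h, pow_add]
      ring
    · right
      rw [h, pow_add]
      ring
  obtain ⟨e, he⟩ := int_root h1
  have hab : (3 * e ^ 2 + 2 * W.b₂ * e + 8 * W.b₄) ^ 2 * ((3 * e + W.b₂) ^ 2 -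
      4 * (3 * e ^ 2 + 2 * W.b₂ * e + 8 * W.b₄)) = dc 1 W.b₂ (8 * W.b₄) (16 * W.b₆) := by
    have h2 : 16 * W.b₆ = -(e ^ 3 + W.b₂ * e ^ 2 + 8 * W.b₄ * e) := by linarith
    rw [h2]
    unfold dc
    ring
  have hG : G2 (3 * e + W.b₂) (3 * e ^ 2 + 2 * W.b₂ * e + 8 * W.b₄) := by
    have hd : (3 * e ^ 2 + 2 * W.b₂ * e + 8 * W.b₄) * ((3 * e + W.b₂) ^ 2 -
        4 * (3 * e ^ 2 + 2 * W.b₂ * e + 8 * W.b₄)) ∣ 2 ^ (k + 8) := by
      rw [← hab] at h1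
      rcases h1 with h1 | h1
      · exact ⟨3 * e ^ 2 + 2 * W.b₂ * e + 8 * W.b₄, by rw [← h1]; ring⟩
      · refine ⟨-(3 * e ^ 2 + 2 * W.b₂ * e + 8 * W.b₄), ?_⟩
        linear_combination h1
    have h2 := Int.natAbs_dvd_natAbs.2 hd
    rw [Int.natAbs_pow] at h2
    obtain ⟨l, -, hl⟩ := (Nat.dvd_prime_pow Nat.prime_two).1 h2
    refine ⟨l, ?_⟩
    rcases Int.natAbs_eq ((3 * e ^ 2 + 2 * W.b₂ * e + 8 * W.b₄) * ((3 * e + W.b₂) ^ 2 -
        4 * (3 * e ^ 2 + 2 * W.b₂ * e + 8 * W.b₄))) with h3 | h3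
    · left
      rw [h3, hl]
      push_cast
      rfl
    · right
      rw [h3, hl]
      push_cast
      rfl
  have hu : (((Units.mk0 (1 / 2 : ℚ) (by norm_num))⁻¹ : ℚˣ) : ℚ) = 2 := by
    rw [Units.val_inv_eq_inv_val, Units.val_mk0]
    norm_num
  have heq : (e : ℚ) ^ 3 + (W.b₂ : ℚ) * e ^ 2 + 8 * (W.b₄ : ℚ) * e + 16 * (W.b₆ : ℚ) = 0 := by
    exact_mod_cast he
  simp only [WeierstrassCurve.b₂, WeierstrassCurve.b₄, WeierstrassCurve.b₆] at heq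
  push_cast at heq
  refine ⟨_, _, hG, ⟨Units.mk0 (1 / 2 : ℚ) (by norm_num), (e : ℚ) / 4, -(W.a₁ : ℚ) / 2,
    -(W.a₁ : ℚ) * e / 8 - (W.a₃ : ℚ) / 2⟩, ?_⟩
  ext
  · rw [variableChange_a₁, hu]
    simp only [cv, map_a₁, eq_intCast]
    ring
  · rw [variableChange_a₂, hu]
    simp only [cv, map_a₁, map_a₂, eq_intCast, WeierstrassCurve.b₂]
    push_cast
    ring
  · rw [variableChange_a₃, hu]
    simp only [cv, map_a₁, map_a₃, eq_intCast]
    ring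
  · rw [variableChange_a₄, hu]
    simp only [cv, map_a₁, map_a₂, map_a₃, map_a₄, eq_intCast, WeierstrassCurve.b₂,
      WeierstrassCurve.b₄]
    push_cast
    ring
  · rw [variableChange_a₆, hu]
    simp only [cv, map_a₁, map_a₂, map_a₃, map_a₄, map_a₆, eq_intCast]
    linear_combination heq

end Pool.Agent.Work.MP_787500_nt.GO
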